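import Pool.Agent.P.MP_2cea5e_gt.Se.Api

/-!
Package A10.
-/

open scoped ContDiff Topology ENNReal
open MeasureTheory Set Filter

noncomputable section

namespace Pool.Agent.P.MP_2cea5e_gt.Se

namespace A10P

/-- A product `sg * exp g` with `g` bounded is bounded below on balls. -/
theorem low_aux {g : Fx} (hg : Pb g) (ρ : ℝ) :
    ∃ β : ℝ, 0 < β ∧ ∀ p : X, 0 ≤ p.1 → ‖p.2‖ ≤ ρ → β ≤ (sg * Ex g) p := by
  obtain ⟨C, hC⟩ := hg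
  refine ⟨((1 + 2 * ρ ^ 2) ^ 2)⁻¹ * Real.exp (-C), by positivity, fun p hp hρ => ?_⟩
  have h1 : rr p ≤ 1 + 2 * ρ ^ 2 := by
    rw [rr_apply]
    have h2 := r2_le p
    have h3 : ‖p.2‖ ^ 2 ≤ ρ ^ 2 := pow_le_pow_left₀ (norm_nonneg _) hρ 2
    linarith
  have h2 : ((1 + 2 * ρ ^ 2) ^ 2)⁻¹ ≤ sg p := by
    rw [sg_apply]
    exact inv_anti₀ (pow_pos (rr_pos p) 2) (pow_le_pow_left₀ (rr_pos p).le h1 2)
  have h3 : Real.exp (-C) ≤ Ex g p := by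
    rw [Ex_apply]
    exact Real.exp_le_exp.2 (abs_le.1 (hC p hp)).1
  exact mul_le_mul h2 h3 (Real.exp_pos _).le (sg_pos p).le

/-- The witness at infinity of a bounded function is bounded. -/
theorem pb_wit {f g : Fx} (h : Wit f g) (hf : Pb f) : Pb g := by
  obtain ⟨C, hC⟩ := hf
  refine ⟨C, fun p hp => ?_⟩
  have := le_of_ne_zero (f := Ab g) (g := K C) (cont_Ab h.sm.cont) (sm_K C).cont (s := p.1)
    (fun x hx => by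
      rw [Ab_apply, K_apply, h.eq (p.1, x) hx]
      exact hC _ hp) p.2
  simpa only [Ab_apply, K_apply] using this

theorem low {d : Dat} {χ : Fx} (hM : d.Met) (hW : d.Wc χ) (hw : Pb d.w) (ρ : ℝ) :
    ∃ β : ℝ, 0 < β ∧ ∀ p : X, 0 ≤ p.1 → ‖p.2‖ ≤ ρ → β ≤ d.V p ∧ β ≤ d.Vi χ p := by
  obtain ⟨g, hg⟩ := hM.wS.wit
  obtain ⟨β, hβ, h1⟩ := low_aux hw ρ
  obtain ⟨γ, hγ, h2⟩ := low_aux (pb_wit hg hw) ρ
  refine ⟨min β γ, lt_min hβ hγ, fun p hp hρ => ⟨?_, ?_⟩⟩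
  · rw [hM.hV]; exact (min_le_left _ _).trans (h1 p hp hρ)
  · rw [hW.Vi hM hg]; exact (min_le_right _ _).trans (h2 p hp hρ)

theorem ig_RV {d : Dat} (hM : d.Met) : Ig (Ab (d.R * d.V)) :=
  ((hM.RS.sy.mul hM.syV).ig (by norm_num)).ab

theorem ub_RV {d : Dat} (hM : d.Met) (hC : Ub d.Ca) : Ub (In (Ab (d.R * d.V))) := by
  obtain ⟨C, hC⟩ := hC
  refine ⟨√C * √(4 * d.a * d.c * s0), fun s hs => ?_⟩
  have i1 : Ig (d.R * d.R * d.V) :=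
    ((hM.RS.sy.mul hM.RS.sy).mul hM.syV).ig (by norm_num)
  have i2 : Ig d.V := hM.syV.ig (by norm_num)
  have h := In_cs (f := Ab (d.R * d.V)) (s := s) i1 i2
    (fun x => mul_nonneg (mul_self_nonneg _) (hM.Vpos _).le) (fun x => (hM.Vpos _).le)
    (fun x => by
      rw [Ab_apply, sq_abs]
      simp only [Pi.mul_apply]
      exact le_of_eq (by ring))
  rw [hM.InV] at h
  refine (le_abs_self _).trans (h.trans ?_)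
  exact mul_le_mul_of_nonneg_right (Real.sqrt_le_sqrt (hC s hs)) (Real.sqrt_nonneg _)

theorem ilb_R {d : Dat} {χ : Fx} (hM : d.Met) (hW : d.Wc χ) (hw : Pb d.w) (hC : Ub d.Ca) :
    Ilb (Ab d.R) := by
  refine ((ub_RV hM hC).ilb (ig_RV hM) fun p => abs_nonneg _).mono
    (loc_of_cont (cont_Ab hM.smR.cont)) (ig_RV hM).loc fun ρ => ?_
  obtain ⟨β, hβ, h⟩ := low hM hW hw ρ
  refine ⟨β⁻¹, (inv_pos.2 hβ).le, fun p hp hρ => ?_⟩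
  rw [Ab_apply, Ab_apply, Pi.mul_apply, abs_mul, abs_of_pos (hM.Vpos p), le_inv_mul_iff₀ hβ,
    mul_comm]
  exact mul_le_mul_of_nonneg_left (h p hp hρ).1 (abs_nonneg _)

theorem ilb_Ri {d : Dat} {χ g : Fx} (hM : d.Met) (hW : d.Wc χ) (hw : Pb d.w) (hC : Ub d.Ca)
    (hg : Wit d.R g) : Ilb (Ab g) := by
  intro ρ
  obtain ⟨β, hβ, h⟩ := low hM hW hw ρ
  obtain ⟨C, hC⟩ := ub_RV hM hC
  refine ⟨β⁻¹ * C, fun s hs => ?_⟩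
  have l1 := (ig_RV hM).loc_iv
  have h1 : Ib (Ab g) s 0 ρ ≤
      Ib (K β⁻¹ * fun p => (r2 * r2 * Ab (d.R * d.V)) (iv p)) s 0 ρ := by
    refine Ib_mono (loc_of_cont (cont_Ab hg.sm.cont)) (l1.Kmul _) fun y hy hy0 => ?_
    have hy' : ‖y‖ ≤ ρ := by
      rw [mem_ball_zero_iff] at hy
      exact hy.le
    have e1 : g (s, y) = d.R (iv (s, y)) := hg.eq (s, y) hy0
    have e2 : d.Vi χ (s, y) = (r2 * r2 * d.V) (iv (s, y)) := (hW.V hM).eq (s, y) hy0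
    have h2 := (h (s, y) hs hy').2
    rw [e2] at h2
    simp only [Pi.mul_apply, K_apply, Ab_apply] at h2 ⊢
    rw [e1, abs_mul, abs_of_pos (hM.Vpos _), le_inv_mul_iff₀ hβ]
    have := mul_le_mul_of_nonneg_left h2 (abs_nonneg (d.R (iv (s, y))))
    linarith
  rw [Ib_Kmul, Ib_iv] at h1
  refine h1.trans (mul_le_mul_of_nonneg_left ?_ (inv_pos.2 hβ).le)
  exact (Ii_le_In (ig_RV hM) (fun y => abs_nonneg _) 0 ρ).trans (hC s hs)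

variable {t : ℝ → ℝ} {f : Fx}

theorem wl_Lp (h : WL t f) (hf : Sm f) : WL t (Lp f) :=
  ((h.D1 hf).D1 (sm_D _ hf)).add ((h.D2 hf).D2 (sm_D _ hf)) (sm_D _ (sm_D _ hf))
    (sm_D _ (sm_D _ hf))

theorem wl_pp (h : WL t f) (hf : Sm f) : WL t (pp f) :=
  (wl_Lp h hf).mul (sm_K _) (D_K _ _)

theorem wl_q1 (h : WL t f) (hf : Sm f) : WL t (q1 f) :=
  (((h.D1 hf).D1 (sm_D _ hf)).sub ((h.D2 hf).D2 (sm_D _ hf)) (sm_D _ (sm_D _ hf))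
    (sm_D _ (sm_D _ hf))).mul (sm_K _) (D_K _ _)

theorem wl_q2 (h : WL t f) (hf : Sm f) : WL t (q2 f) :=
  ((h.D2 hf).D1 (sm_D _ hf)).mul (sm_K _) (D_K _ _)

theorem wl_Q1 (h : WL t f) (hf : Sm f) : WL t (Q1 f) :=
  ((wl_q1 h hf).mul sm_z1 D0_z1).sub ((wl_q2 h hf).mul sm_z2 D0_z2)
    (sm_mul sm_z1 (sm_q1 hf)) (sm_mul sm_z2 (sm_q2 hf))

theorem wl_Q2 (h : WL t f) (hf : Sm f) : WL t (Q2 f) :=
  ((wl_q2 h hf).mul sm_z1 D0_z1).add ((wl_q1 h hf).mul sm_z2 D0_z2)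
    (sm_mul sm_z1 (sm_q2 hf)) (sm_mul sm_z2 (sm_q1 hf))

theorem wl_O1 (h : WL t f) (hf : Sm f) : WL t (O1 f) :=
  (wl_Q1 h hf).add (((h.D1 hf).mul sm_x1 D0_x1).add ((h.D2 hf).mul sm_x2 D0_x2)
    (sm_mul sm_x1 (sm_D _ hf)) (sm_mul sm_x2 (sm_D _ hf))) (sm_Q1 hf)
    (sm_add (sm_mul sm_x1 (sm_D _ hf)) (sm_mul sm_x2 (sm_D _ hf)))

theorem wl_O2 (h : WL t f) (hf : Sm f) : WL t (O2 f) :=
  (wl_Q2 h hf).add (((h.D1 hf).mul sm_x2 D0_x2).sub ((h.D2 hf).mul sm_x1 D0_x1)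
    (sm_mul sm_x2 (sm_D _ hf)) (sm_mul sm_x1 (sm_D _ hf))) (sm_Q2 hf)
    (sm_sub (sm_mul sm_x2 (sm_D _ hf)) (sm_mul sm_x1 (sm_D _ hf)))

theorem lb_parts (hf : Sm f) (h : Pb (hs f)) :
    Lb (Lp f) ∧ Lb (pp f) ∧ Lb (q1 f) ∧ Lb (q2 f) := by
  have key : ∀ p, hs f p = 8 * pp f p ^ 2 + 8 * (q1 f p * q1 f p + q2 f p * q2 f p) :=
    fun p => hs_eq hf p
  refine ⟨(h.lb.Kmul 2).of_sq fun p _ => Lp_sq hf p, h.lb.of_sq fun p _ => ?_,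
    h.lb.of_sq fun p _ => ?_, h.lb.of_sq fun p _ => ?_⟩ <;>
  · rw [key]
    nlinarith [sq_nonneg (pp f p), sq_nonneg (q1 f p), sq_nonneg (q2 f p)]

end A10P

open A10P in
theorem a10_ok (h : StSup) : StA10 := by
  intro d χ hF H5 hW hE H8 H9
  have hM := hF.toMet
  obtain ⟨g, hg⟩ := hM.RS.wit
  have i0 := ilb_R hM hW H9.w H5.ca
  have i1 := ilb_Ri hM hW H9.w H5.ca hg
  have e1 := hW.dχ hF hg
  have w0 : WL d.t d.ψ := wl_base hF.clk hM.smψ hM.smR hF.eq i0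
  have w1 : WL d.t χ := wl_base hF.clk hW.sm hg.sm e1 i1
  obtain ⟨l0, l1, l2, l3⟩ := lb_parts hM.smψ H5.hp
  exact
    { bψ := h d.ψ d.R d.t d.τ d.T hF.clk hM.smψ hM.smR hF.eq i0 l0
      bχ := h χ g d.t d.τ d.T hF.clk hW.sm hg.sm e1 i1 H9.bP
      b0 := ⟨l1, l2, l3⟩
      b1 := ⟨H9.bP, H8.b1, H8.b2⟩
      j0 := ⟨(wl_pp w0 hM.smψ).jm (sm_pp hM.smψ) hE.1, (wl_q1 w0 hM.smψ).jm (sm_q1 hM.smψ) hE.2.1,
        (wl_q2 w0 hM.smψ).jm (sm_q2 hM.smψ) hE.2.2⟩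
      j1 := ⟨(wl_Lp w1 hW.sm).jm (sm_Lp hW.sm) H9.eP, (wl_O1 w1 hW.sm).jm (sm_O1 hW.sm) H8.e1,
        (wl_O2 w1 hW.sm).jm (sm_O2 hW.sm) H8.e2⟩
      low := low hM hW H9.w }

end Pool.Agent.P.MP_2cea5e_gt.Se
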