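import Pool.Agent.P.MP_2cea5e_gt.Se.Api

/-!
Package A1a: the derivative of the Calabi energy along the reduced flow.
-/

open scoped ContDiff Topology ENNReal
open MeasureTheory Set Filter

noncomputable section

namespace Pool.Agent.P.MP_2cea5e_gt.Se

namespace A1aP

/-- The time derivative of `R V`. -/
theorem dRV {d : Dat} (h : d.Flo) : D e0 (d.R * d.V) =
    -(Tm d.τ * DD d.L d.R + Tm d.τ * DD d.u (DD d.u d.R * Iv d.V)) := by
  have m := h.toMet
  rw [m.hR, D_neg, D0_DD m.smu m.smL, h.du, h.dL, DD_Tm h.clk.sm m.smR,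
    DD_comm d.u (Tm d.τ * (DD d.u d.R * Iv d.V)), DD_Tm h.clk.sm h.sphw.sm, DD_comm d.R d.L,
    DD_comm (DD d.u d.R * Iv d.V) d.u]

/-- The time derivative of the energy density. -/
theorem dRRV {d : Dat} (h : d.Flo) : D e0 (d.R * d.R * d.V) =
    Tm d.τ * (K (-2) * (d.R * DD d.L d.R) - K 2 * (d.R * DD d.u (DD d.u d.R * Iv d.V)) -
      d.R * d.R * DD d.u d.R) := by
  have m := h.toMet
  have e1 := dRV h
  rw [D_mul e0 m.smR m.smV, h.dV] at e1
  rw [D_mul e0 (sm_mul m.smR m.smR) m.smV, D_mul e0 m.smR m.smR, h.dV]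
  funext p
  have e2 := congrFun e1 p
  simp only [Pi.add_apply, Pi.mul_apply, Pi.sub_apply, Pi.neg_apply, K_apply] at e2 ⊢
  linear_combination 2 * d.R p * e2

end A1aP

theorem a1a_ok : StA1a := by
  intro d h s
  have m := h.toMet
  have R0 : Sy 0 d.R := m.RS.sy
  have R1 : H1 (-2) d.R := m.RS.h1
  have w0 : Sy 0 (DD d.u d.R * Iv d.V) := h.sphw.sy
  have w1 : H1 (-2) (DD d.u d.R * Iv d.V) := h.sphw.h1
  have uR : Sy (-4) (DD d.u d.R) := m.syDDs m.RS
  have hE : Sy (-4) (d.R * d.R * d.V) := ((R0.mul R0).mul' m.syV (by norm_num))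
  have hd := hE.hasDerivAt (by norm_num) s
  -- integrability
  have i1 : Ig (d.R * DD d.L d.R) := (R0.mul (m.h2L.DD R1.h2)).ig (by norm_num)
  have i2 : Ig (d.R * DD d.u (DD d.u d.R * Iv d.V)) :=
    (R0.mul (m.syDDs h.sphw)).ig (by norm_num)
  have i3 : Ig (d.R * d.R * DD d.u d.R) := ((R0.mul R0).mul uR).ig (by norm_num)
  have j1 : Ig (DD d.u d.R * DD d.u d.R * Iv d.V) := ((uR.mul uR).mul m.syiV).ig (by norm_num)
  have j2 : Ig (BB d.L d.R d.R) := (m.h2L.BB R1 R1).ig (by norm_num)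
  have j3 : Ig (d.R * BB d.u d.R d.R) := (R0.mul (m.h2u.BB R1 R1)).ig (by norm_num)
  -- integrations by parts
  have b1 : In (d.R * DD d.L d.R) s = -In (BB d.L d.R d.R) s :=
    ibp_DD m.h2L R1 R0 (by norm_num) s
  have b2 : In (d.R * DD d.u (DD d.u d.R * Iv d.V)) s =
      In (DD d.u d.R * DD d.u d.R * Iv d.V) s := by
    have x1 := ibp_DD m.h2u w1 R0 (by norm_num) s
    have x2 := ibp_DD m.h2u R1 w0 (by norm_num) s
    rw [BB_comm d.u d.R] at x2
    have x3 : DD d.u d.R * Iv d.V * DD d.u d.R = DD d.u d.R * DD d.u d.R * Iv d.V := by ring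
    rw [x1, ← x2, x3]
  have b3 : In (d.R * d.R * DD d.u d.R) s = -(2 * In (d.R * BB d.u d.R d.R) s) := by
    have x1 := ibp_DD m.h2u R1 (R0.mul R0) (by norm_num) s
    have x2 : BB d.u d.R (d.R * d.R) = K 2 * (d.R * BB d.u d.R d.R) := by
      rw [BB_mul d.u d.R m.smR m.smR]
      funext p
      simp only [Pi.add_apply, Pi.mul_apply, K_apply]
      ring
    rw [x1, x2, In_Kmul]
  have key : In (D e0 (d.R * d.R * d.V)) s = -2 * d.τ s * In (d.QQ d.R) s := by
    rw [A1aP.dRRV h, In_Tm, In_sub ((i1.Kmul _).sub (i2.Kmul _)) i3,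
      In_sub (i1.Kmul _) (i2.Kmul _), In_Kmul, In_Kmul, b1, b2, b3, Dat.QQ,
      In_sub (j1.sub j2) j3, In_sub j1 j2]
    ring
  rw [key] at hd
  exact hd

end Pool.Agent.P.MP_2cea5e_gt.Se
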