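import Pool.Agent.P.MP_2cea5e_gt.Se.Api

/-!
Package A1b: the Reilly identity for fields with compact support.
-/

open scoped ContDiff Topology ENNReal
open MeasureTheory Set Filter

noncomputable section

namespace Pool.Agent.P.MP_2cea5e_gt.Se

namespace A1bP

/-- The field whose divergence is the defect in the Reilly identity. -/
def ZZ (d : Dat) (y₁ y₂ y : Fx) : Fx :=
  d.V * (y₁ * D e1 y + y₂ * D e2 y) - y * d.dvV y₁ y₂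

variable {d : Dat} {y₁ y₂ y f : Fx}

theorem dvV_eq (hM : d.Met) (h1 : Sm y₁) (h2 : Sm y₂) :
    d.dvV y₁ y₂ = d.V * (D e1 y₁ + D e2 y₂ + (y₁ * D e1 d.L + y₂ * D e2 d.L)) := by
  unfold Dat.dvV
  rw [D_mul _ hM.smV h1, D_mul _ hM.smV h2, hM.D_V, hM.D_V]
  ring

theorem cs_dvV (hM : d.Met) (h1 : Cs2 y₁) (h2 : Cs2 y₂) : Cs2 (d.dvV y₁ y₂) :=
  ((Cs2.mul' hM.smV h1).D _).add ((Cs2.mul' hM.smV h2).D _)

theorem cs_ZZ (hM : d.Met) (h1 : Cs2 y₁) (h2 : Cs2 y₂) (h : Cs2 y) : Cs2 (ZZ d y₁ y₂ y) :=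
  (Cs2.mul' hM.smV ((h1.mul (sm_D _ h.sm)).add (h2.mul (sm_D _ h.sm)))).sub
    (h.mul (cs_dvV hM h1 h2).sm)

theorem cs_trS (h1 : Cs2 y₁) (h2 : Cs2 y₂) : Cs2 (Dat.trS y₁ y₂) :=
  (((h1.D _).mul (sm_D _ h1.sm)).add
    (Cs2.mul' (sm_K _) ((h1.D _).mul (sm_D _ h2.sm)))).add ((h2.D _).mul (sm_D _ h2.sm))

theorem D_ZZ (hM : d.Met) (h1 : Sm y₁) (h2 : Sm y₂) (h : Sm y) (v : X) :
    D v (ZZ d y₁ y₂ y) =
      d.V * D v d.L * (y₁ * D e1 y + y₂ * D e2 y) +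
        d.V * (D v y₁ * D e1 y + y₁ * D v (D e1 y) + (D v y₂ * D e2 y + y₂ * D v (D e2 y))) -
      (D v y * (d.V * (D e1 y₁ + D e2 y₂ + (y₁ * D e1 d.L + y₂ * D e2 d.L))) +
        y * (d.V * D v d.L * (D e1 y₁ + D e2 y₂ + (y₁ * D e1 d.L + y₂ * D e2 d.L)) +
          d.V * (D v (D e1 y₁) + D v (D e2 y₂) +
            (D v y₁ * D e1 d.L + y₁ * D v (D e1 d.L) +
              (D v y₂ * D e2 d.L + y₂ * D v (D e2 d.L)))))) := by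
  have a1 : Sm (y₁ * D e1 y) := sm_mul h1 (sm_D _ h)
  have a2 : Sm (y₂ * D e2 y) := sm_mul h2 (sm_D _ h)
  have b1 : Sm (y₁ * D e1 d.L) := sm_mul h1 (sm_D _ hM.smL)
  have b2 : Sm (y₂ * D e2 d.L) := sm_mul h2 (sm_D _ hM.smL)
  have c1 : Sm (D e1 y₁ + D e2 y₂) := sm_add (sm_D _ h1) (sm_D _ h2)
  have c2 : Sm (D e1 y₁ + D e2 y₂ + (y₁ * D e1 d.L + y₂ * D e2 d.L)) := sm_add c1 (sm_add b1 b2)
  unfold ZZ
  rw [dvV_eq hM h1 h2,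
    D_sub _ (sm_mul hM.smV (sm_add a1 a2)) (sm_mul h (sm_mul hM.smV c2)),
    D_mul _ hM.smV (sm_add a1 a2), D_add _ a1 a2, D_mul _ h1 (sm_D _ h), D_mul _ h2 (sm_D _ h),
    D_mul _ h (sm_mul hM.smV c2), D_mul _ hM.smV c2, D_add _ c1 (sm_add b1 b2),
    D_add _ (sm_D _ h1) (sm_D _ h2), D_add _ b1 b2, D_mul _ h1 (sm_D _ hM.smL),
    D_mul _ h2 (sm_D _ hM.smL), hM.D_V]

theorem reilly (hM : d.Met) (h1 : Sm y₁) (h2 : Sm y₂) :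
    d.dvV y₁ y₂ * d.dvV y₁ y₂ * Iv d.V + d.V * d.hL y₁ y₂ =
      d.V * Dat.trS y₁ y₂ - (D e1 (ZZ d y₁ y₂ y₁) + D e2 (ZZ d y₁ y₂ y₂)) := by
  rw [D_ZZ hM h1 h2 h1, D_ZZ hM h1 h2 h2, dvV_eq hM h1 h2, D_comm e2 e1 hM.smL,
    D_comm e2 e1 h1, D_comm e2 e1 h2]
  funext p
  have hV := (hM.Vpos p).ne'
  simp only [Dat.hL, Dat.trS, Pi.add_apply, Pi.mul_apply, Pi.sub_apply, K_apply, Iv_apply]
  field_simp
  ring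

theorem cs_n1 (hM : d.Met) (hf : Cs2 f) : Cs2 (d.n1 f) :=
  ((Cs2.mul' (sm_D _ (sm_D _ hM.smu)) (hf.D _)).sub
    (Cs2.mul' (sm_D _ (sm_D _ hM.smu)) (hf.D _))).mul hM.smiV

theorem cs_n2 (hM : d.Met) (hf : Cs2 f) : Cs2 (d.n2 f) :=
  ((Cs2.mul' (sm_D _ (sm_D _ hM.smu)) (hf.D _)).sub
    (Cs2.mul' (sm_D _ (sm_D _ hM.smu)) (hf.D _))).mul hM.smiV

theorem cs_m1 (hM : d.Met) (hf : Cs2 f) : Cs2 (d.m1 f) :=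
  (Cs2.mul' (sm_K _) (hf.D _)).mul hM.smiV

theorem cs_m2 (hM : d.Met) (hf : Cs2 f) : Cs2 (d.m2 f) :=
  (Cs2.mul' (sm_K _) (hf.D _)).mul hM.smiV

end A1bP

open A1bP

theorem a1b_ok (h : StA1c) : StA1b := by
  intro d hM f hf s
  obtain ⟨i1, i2, i3, i4⟩ := h d hM f hf.sm
  have n1 := cs_n1 hM hf
  have n2 := cs_n2 hM hf
  have m1 := cs_m1 hM hf
  have m2 := cs_m2 hM hf
  have r1 := reilly hM n1.sm n2.sm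
  have r2 := reilly hM m1.sm m2.sm
  rw [i1] at r1
  rw [i2] at r2
  have z1 : Cs2 (ZZ d (d.n1 f) (d.n2 f) (d.n1 f) + ZZ d (d.m1 f) (d.m2 f) (d.m1 f)) :=
    (cs_ZZ hM n1 n2 n1).add (cs_ZZ hM m1 m2 m1)
  have z2 : Cs2 (ZZ d (d.n1 f) (d.n2 f) (d.n2 f) + ZZ d (d.m1 f) (d.m2 f) (d.m2 f)) :=
    (cs_ZZ hM n1 n2 n2).add (cs_ZZ hM m1 m2 m2)
  have t : Cs2 (d.V * (Dat.trS (d.n1 f) (d.n2 f) + Dat.trS (d.m1 f) (d.m2 f))) :=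
    Cs2.mul' hM.smV ((cs_trS n1 n2).add (cs_trS m1 m2))
  have e : d.QQ f = d.V * (Dat.trS (d.n1 f) (d.n2 f) + Dat.trS (d.m1 f) (d.m2 f)) -
      (D e1 (ZZ d (d.n1 f) (d.n2 f) (d.n1 f) + ZZ d (d.m1 f) (d.m2 f) (d.m1 f)) +
        D e2 (ZZ d (d.n1 f) (d.n2 f) (d.n2 f) + ZZ d (d.m1 f) (d.m2 f) (d.m2 f))) := by
    rw [D_add _ (cs_ZZ hM n1 n2 n1).sm (cs_ZZ hM m1 m2 m1).sm,
      D_add _ (cs_ZZ hM n1 n2 n2).sm (cs_ZZ hM m1 m2 m2).sm]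
    unfold Dat.QQ
    linear_combination r1 + r2 - i3
  have g1 := ((z1.D e1).sy (-3)).ig le_rfl
  have g2 := ((z2.D e2).sy (-3)).ig le_rfl
  rw [e, In_sub ((t.sy (-3)).ig le_rfl) (g1.add g2), In_add g1 g2,
    (z1.sy (-2)).ibp1 le_rfl, (z2.sy (-2)).ibp2 le_rfl, add_zero, sub_zero]
  exact In_nonneg fun x => mul_nonneg (hM.Vpos _).le (i4 _)

end Pool.Agent.P.MP_2cea5e_gt.Se
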