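import Pool.Agent.P.MP_2cea5e_gt.Se.Api

/-!
Package A1c.
-/

open scoped ContDiff Topology ENNReal
open MeasureTheory Set Filter

noncomputable section

namespace Pool.Agent.P.MP_2cea5e_gt.Se

namespace A1cP

theorem key {a b e c p11 p12 p21 p22 q11 q12 q21 q22 : ℝ}
    (hV : 0 < a * e - b * b - c * c)
    (E1 : a * p12 - e * p21 = b * (p11 - p22) + c * (q11 + q22))
    (E2 : a * q12 - e * q21 = b * (q11 - q22) - c * (p11 + p22)) :
    0 ≤ p11 * p11 + 2 * (p12 * p21) + p22 * p22 + (q11 * q11 + 2 * (q12 * q21) + q22 * q22) := by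
  have hae : 0 < a * e := by nlinarith [mul_self_nonneg b, mul_self_nonneg c]
  have h1 : 4 * (a * e) * (p12 * p21) =
      (a * p12 + e * p21) ^ 2 - (b * (p11 - p22) + c * (q11 + q22)) ^ 2 := by
    rw [← E1]; ring
  have h2 : 4 * (a * e) * (q12 * q21) =
      (a * q12 + e * q21) ^ 2 - (b * (q11 - q22) - c * (p11 + p22)) ^ 2 := by
    rw [← E2]; ring
  have h3 : 2 * (a * e) *
      (p11 * p11 + 2 * (p12 * p21) + p22 * p22 + (q11 * q11 + 2 * (q12 * q21) + q22 * q22)) =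
      2 * (a * e - b * b - c * c) * (p11 ^ 2 + p22 ^ 2 + q11 ^ 2 + q22 ^ 2) +
        (a * p12 + e * p21) ^ 2 + (a * q12 + e * q21) ^ 2 +
        (b * (p11 + p22) + c * (q11 - q22)) ^ 2 + (b * (q11 + q22) - c * (p11 - p22)) ^ 2 := by
    linear_combination h1 + h2
  have h4 : 0 ≤ 2 * (a * e) *
      (p11 * p11 + 2 * (p12 * p21) + p22 * p22 + (q11 * q11 + 2 * (q12 * q21) + q22 * q22)) := by
    rw [h3]; positivity
  exact le_of_mul_le_mul_left (by simpa using h4) (by positivity : 0 < 2 * (a * e))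

variable {d : Dat} {f : Fx}

theorem V_apply (d : Dat) (p : X) : d.V p =
    D e1 (D e1 d.u) p * D e2 (D e2 d.u) p - D e1 (D e2 d.u) p * D e1 (D e2 d.u) p - d.c * d.c := by
  simp only [Dat.V, W, Pi.sub_apply, Pi.mul_apply, K_apply]

theorem sm_n1 (h : d.Met) (hf : Sm f) : Sm (d.n1 f) :=
  sm_mul (sm_sub (sm_mul (sm_D _ (sm_D _ h.smu)) (sm_D _ hf))
    (sm_mul (sm_D _ (sm_D _ h.smu)) (sm_D _ hf))) h.smiV

theorem sm_n2 (h : d.Met) (hf : Sm f) : Sm (d.n2 f) :=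
  sm_mul (sm_sub (sm_mul (sm_D _ (sm_D _ h.smu)) (sm_D _ hf))
    (sm_mul (sm_D _ (sm_D _ h.smu)) (sm_D _ hf))) h.smiV

theorem sm_m1 (h : d.Met) (hf : Sm f) : Sm (d.m1 f) :=
  sm_mul (sm_mul (sm_K _) (sm_D _ hf)) h.smiV

theorem sm_m2 (h : d.Met) (hf : Sm f) : Sm (d.m2 f) :=
  sm_mul (sm_mul (sm_K _) (sm_D _ hf)) h.smiV

theorem V_n1 (h : d.Met) (f : Fx) :
    d.V * d.n1 f = D e2 (D e2 d.u) * D e1 f - D e1 (D e2 d.u) * D e2 f := by
  funext p
  have := (h.Vpos p).ne'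
  simp only [Dat.n1, Pi.sub_apply, Pi.mul_apply, Iv_apply]
  field_simp

theorem V_n2 (h : d.Met) (f : Fx) :
    d.V * d.n2 f = D e1 (D e1 d.u) * D e2 f - D e1 (D e2 d.u) * D e1 f := by
  funext p
  have := (h.Vpos p).ne'
  simp only [Dat.n2, Pi.sub_apply, Pi.mul_apply, Iv_apply]
  field_simp

theorem V_m1 (h : d.Met) (f : Fx) : d.V * d.m1 f = K (-d.c) * D e2 f := by
  funext p
  have := (h.Vpos p).ne'
  simp only [Dat.m1, Pi.mul_apply, Iv_apply, K_apply]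
  field_simp

theorem V_m2 (h : d.Met) (f : Fx) : d.V * d.m2 f = K d.c * D e1 f := by
  funext p
  have := (h.Vpos p).ne'
  simp only [Dat.m2, Pi.mul_apply, Iv_apply, K_apply]
  field_simp

theorem u211 (h : d.Met) : D e2 (D e1 (D e1 d.u)) = D e1 (D e1 (D e2 d.u)) := by
  rw [D_comm e2 e1 (sm_D e1 h.smu), D_comm e2 e1 h.smu]

theorem u212 (h : d.Met) : D e2 (D e1 (D e2 d.u)) = D e1 (D e2 (D e2 d.u)) :=
  D_comm e2 e1 (sm_D e2 h.smu)

theorem part1 (h : d.Met) (hf : Sm f) : d.dvV (d.n1 f) (d.n2 f) = DD d.u f := by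
  have s11 := sm_D e1 (sm_D e1 h.smu)
  have s12 := sm_D e1 (sm_D e2 h.smu)
  have s22 := sm_D e2 (sm_D e2 h.smu)
  have f1 := sm_D e1 hf
  have f2 := sm_D e2 hf
  unfold Dat.dvV
  rw [V_n1 h, V_n2 h, D_sub _ (sm_mul s22 f1) (sm_mul s12 f2),
    D_sub _ (sm_mul s11 f2) (sm_mul s12 f1), D_mul _ s22 f1, D_mul _ s12 f2, D_mul _ s11 f2,
    D_mul _ s12 f1, u211 h, u212 h, D_comm e2 e1 hf]
  funext p
  simp only [DD, DDv, Pi.add_apply, Pi.sub_apply, Pi.mul_apply, K_apply]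
  ring

theorem part2 (h : d.Met) (hf : Sm f) : d.dvV (d.m1 f) (d.m2 f) = 0 := by
  unfold Dat.dvV
  rw [V_m1 h, V_m2 h, D_mul _ (sm_K _) (sm_D e2 hf), D_mul _ (sm_K _) (sm_D e1 hf), D_K, D_K,
    D_comm e2 e1 hf]
  funext p
  simp only [Pi.add_apply, Pi.mul_apply, K_apply, Pi.zero_apply]
  ring

theorem part3 (h : d.Met) (f : Fx) :
    d.V * d.hL (d.n1 f) (d.n2 f) + d.V * d.hL (d.m1 f) (d.m2 f) =
      -(d.R * BB d.u f f) - BB d.L f f := by
  funext p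
  have h0 := (h.Vpos p).ne'
  have hR := congrFun h.hR p
  have hV := V_apply d p
  simp only [DD, DDv, Pi.add_apply, Pi.sub_apply, Pi.mul_apply, Pi.neg_apply, K_apply] at hR
  have hR' : d.R p = -(D e1 (D e1 d.u) p * D e2 (D e2 d.L) p + D e2 (D e2 d.u) p * D e1 (D e1 d.L) p -
      2 * D e1 (D e2 d.u) p * D e1 (D e2 d.L) p) / d.V p := by
    rw [← hR]; field_simp
  simp only [Dat.hL, Dat.n1, Dat.n2, Dat.m1, Dat.m2, BB, BBv, Pi.add_apply, Pi.sub_apply,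
    Pi.mul_apply, Pi.neg_apply, K_apply, Iv_apply]
  rw [hR']
  generalize D e1 (D e1 d.u) p = a at *
  generalize D e1 (D e2 d.u) p = b at *
  generalize D e2 (D e2 d.u) p = e at *
  generalize D e1 (D e1 d.L) p = h11 at *
  generalize D e1 (D e2 d.L) p = h12 at *
  generalize D e2 (D e2 d.L) p = h22 at *
  generalize D e1 f p = f1 at *
  generalize D e2 f p = f2 at *
  generalize d.V p = V at *
  generalize d.c = c at *
  field_simp
  linear_combination (h22 * f1 * f1 + h11 * f2 * f2 - 2 * h12 * f1 * f2) * hV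

theorem R1 (h : d.Met) (f : Fx) :
    D e1 (D e1 d.u) * d.n1 f + D e1 (D e2 d.u) * d.n2 f - K d.c * d.m2 f = D e1 f := by
  funext p
  have h0 := (h.Vpos p).ne'
  have hV := V_apply d p
  simp only [Dat.n1, Dat.n2, Dat.m2, Pi.add_apply, Pi.sub_apply, Pi.mul_apply, K_apply, Iv_apply]
  field_simp
  linear_combination (-(D e1 f p)) * hV

theorem R2 (h : d.Met) (f : Fx) :
    D e1 (D e2 d.u) * d.n1 f + D e2 (D e2 d.u) * d.n2 f + K d.c * d.m1 f = D e2 f := by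
  funext p
  have h0 := (h.Vpos p).ne'
  have hV := V_apply d p
  simp only [Dat.n1, Dat.n2, Dat.m1, Pi.add_apply, Pi.sub_apply, Pi.mul_apply, K_apply, Iv_apply]
  field_simp
  linear_combination (-(D e2 f p)) * hV

theorem I1 (d : Dat) (f : Fx) :
    D e1 (D e1 d.u) * d.m1 f + D e1 (D e2 d.u) * d.m2 f + K d.c * d.n2 f = 0 := by
  funext p
  simp only [Dat.n2, Dat.m1, Dat.m2, Pi.add_apply, Pi.sub_apply, Pi.mul_apply, K_apply, Iv_apply,
    Pi.zero_apply]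
  ring

theorem I2 (d : Dat) (f : Fx) :
    D e1 (D e2 d.u) * d.m1 f + D e2 (D e2 d.u) * d.m2 f - K d.c * d.n1 f = 0 := by
  funext p
  simp only [Dat.n1, Dat.m1, Dat.m2, Pi.add_apply, Pi.sub_apply, Pi.mul_apply, K_apply, Iv_apply,
    Pi.zero_apply]
  ring

theorem part4 (h : d.Met) (hf : Sm f) (p : X) :
    0 ≤ Dat.trS (d.n1 f) (d.n2 f) p + Dat.trS (d.m1 f) (d.m2 f) p := by
  have s11 := sm_D e1 (sm_D e1 h.smu)
  have s12 := sm_D e1 (sm_D e2 h.smu)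
  have s22 := sm_D e2 (sm_D e2 h.smu)
  have n1 := sm_n1 h hf
  have n2 := sm_n2 h hf
  have m1 := sm_m1 h hf
  have m2 := sm_m2 h hf
  have kc := sm_K d.c
  have a1 := congrArg (D e2) (R1 h f)
  have a2 := congrArg (D e1) (R2 h f)
  have b1 := congrArg (D e2) (I1 d f)
  have b2 := congrArg (D e1) (I2 d f)
  rw [D_sub _ (sm_add (sm_mul s11 n1) (sm_mul s12 n2)) (sm_mul kc m2),
    D_add _ (sm_mul s11 n1) (sm_mul s12 n2), D_mul _ s11 n1, D_mul _ s12 n2, D_mul _ kc m2, D_K,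
    u211 h, u212 h, D_comm e2 e1 hf] at a1
  rw [D_add _ (sm_add (sm_mul s12 n1) (sm_mul s22 n2)) (sm_mul kc m1),
    D_add _ (sm_mul s12 n1) (sm_mul s22 n2), D_mul _ s12 n1, D_mul _ s22 n2, D_mul _ kc m1,
    D_K] at a2
  rw [D_add _ (sm_add (sm_mul s11 m1) (sm_mul s12 m2)) (sm_mul kc n2),
    D_add _ (sm_mul s11 m1) (sm_mul s12 m2), D_mul _ s11 m1, D_mul _ s12 m2, D_mul _ kc n2, D_K,
    u211 h, u212 h, D_zero] at b1
  rw [D_sub _ (sm_add (sm_mul s12 m1) (sm_mul s22 m2)) (sm_mul kc n1),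
    D_add _ (sm_mul s12 m1) (sm_mul s22 m2), D_mul _ s12 m1, D_mul _ s22 m2, D_mul _ kc n1,
    D_K, D_zero] at b2
  have a1 := congrFun a1 p
  have a2 := congrFun a2 p
  have b1 := congrFun b1 p
  have b2 := congrFun b2 p
  simp only [Pi.add_apply, Pi.sub_apply, Pi.mul_apply, K_apply, Pi.zero_apply] at a1 a2 b1 b2
  have hV := h.Vpos p
  rw [V_apply] at hV
  simp only [Dat.trS, Pi.add_apply, Pi.mul_apply, K_apply]
  exact key hV (by linear_combination a1 - a2) (by linear_combination b1 - b2)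

end A1cP

theorem a1c_ok : StA1c := fun _ h _ hf =>
  ⟨A1cP.part1 h hf, A1cP.part2 h hf, A1cP.part3 h _, A1cP.part4 h hf⟩

end Pool.Agent.P.MP_2cea5e_gt.Se
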