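import Pool.Agent.P.MP_2cea5e_gt.Se.Api

/-!
Package A1d.
-/

open scoped ContDiff Topology ENNReal
open MeasureTheory Set Filter

noncomputable section

namespace Pool.Agent.P.MP_2cea5e_gt.Se

namespace A1dP

/-- Functions that vanish beyond `2`. -/
def Zr (φ : ℝ → ℝ) : Prop := ∀ t, 2 < t → φ t = 0

theorem Zr.der {φ : ℝ → ℝ} (h : Zr φ) : Zr (deriv φ) := fun t ht => by
  have e : φ =ᶠ[𝓝 t] fun _ => 0 := by
    filter_upwards [Ioi_mem_nhds ht] with x hx using h x hx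
  rw [e.deriv_eq, deriv_const]

theorem Zr.bd {φ : ℝ → ℝ} (h : Zr φ) (hc : Continuous φ) :
    ∃ B, 0 ≤ B ∧ ∀ t, 0 ≤ t → |φ t| ≤ B := by
  obtain ⟨C, hC⟩ := (isCompact_Icc (a := (0 : ℝ)) (b := 2)).exists_bound_of_continuousOn
    hc.continuousOn
  refine ⟨|C|, abs_nonneg C, fun t ht => ?_⟩
  rcases le_or_gt t 2 with h2 | h2
  · exact (hC t ⟨ht, h2⟩).trans (le_abs_self C)
  · rw [h t h2, abs_zero]; exact abs_nonneg C

theorem smd {φ : ℝ → ℝ} (hφ : ContDiff ℝ ∞ φ) : ContDiff ℝ ∞ (deriv φ) :=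
  (contDiff_infty_iff_deriv.mp hφ).2

theorem smg (ε : ℝ) : Sm (K ε * el) := sm_mul (sm_K ε) sm_el

theorem Zr.cs {φ : ℝ → ℝ} (h : Zr φ) (hφ : ContDiff ℝ ∞ φ) {ε : ℝ} (hε : 0 < ε) :
    Cs2 (φ ∘ (K ε * el)) := by
  refine ⟨hφ.comp (smg ε), fun _ => ⟨Real.exp (2 / ε), fun p _ hp => h _ ?_⟩⟩
  have h1 : Real.exp (2 / ε) < rr p := by
    have := norm_sq_le p
    rw [rr_apply]
    nlinarith [Real.exp_pos (2 / ε)]
  have h2 : 2 / ε < el p := by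
    rw [el_apply]; exact (Real.lt_log_iff_exp_lt (rr_pos p)).2 h1
  rw [Pi.mul_apply, K_apply, mul_comm]
  exact (div_lt_iff₀ hε).1 h2

def cut (t : ℝ) : ℝ := Real.smoothTransition (2 - t)

theorem sm_cut : ContDiff ℝ ∞ cut :=
  Real.smoothTransition.contDiff.comp (contDiff_const.sub contDiff_id)

theorem zr_cut : Zr cut := fun _ ht => Real.smoothTransition.zero_of_nonpos (by linarith)

theorem cut_abs (t : ℝ) : |cut t| ≤ 1 := by
  rw [cut, abs_of_nonneg (Real.smoothTransition.nonneg _)]; exact Real.smoothTransition.le_one _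

theorem cut_sq {t : ℝ} (ht : 0 ≤ t) : |cut t ^ 2 - 1| ≤ t := by
  rcases le_or_gt t 1 with h | h
  · rw [cut, Real.smoothTransition.one_of_one_le (by linarith)]; simpa using ht
  · have h1 := abs_le.1 (cut_abs t)
    rw [abs_le]; constructor <;> nlinarith

def ww (t : ℝ) : ℝ := deriv cut t ^ 2 + deriv (deriv cut) t ^ 2

theorem sm_ww : ContDiff ℝ ∞ ww := ((smd sm_cut).pow 2).add ((smd (smd sm_cut)).pow 2)

theorem zr_ww : Zr ww := fun t ht => by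
  rw [ww, zr_cut.der t ht, zr_cut.der.der t ht]; norm_num

def Ph (t : ℝ) : ℝ := ∫ x in (3 : ℝ)..t, ww x

theorem der_Ph : deriv Ph = ww := funext fun t => Continuous.deriv_integral ww sm_ww.continuous 3 t

theorem sm_Ph : ContDiff ℝ ∞ Ph :=
  contDiff_infty_iff_deriv.2 ⟨fun t =>
    (sm_ww.continuous.integral_hasStrictDerivAt 3 t).hasDerivAt.differentiableAt,
    der_Ph ▸ sm_ww⟩

theorem zr_Ph : Zr Ph := fun t ht => by
  rw [Ph, intervalIntegral.integral_congr (g := fun _ => 0) fun x hx => zr_ww x ?_]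
  · simp
  · rcases mem_uIcc.1 hx with h | h <;> linarith [h.1]

/-- The logarithmic gain. -/
theorem gain (s : ℝ) : ∃ C, ∀ ε, 0 < ε → ε * In (ww ∘ (K ε * el) * gr el) s ≤ C := by
  obtain ⟨B, _, hB⟩ := zr_Ph.bd sm_Ph.continuous
  refine ⟨In (K (4 * B) * sg) s, fun ε hε => ?_⟩
  have hc := zr_Ph.cs sm_Ph hε
  have h1 := ibp_Lp h1_el (hc.sy (-1)) (by norm_num) s
  have e : ip2 el (Ph ∘ (K ε * el)) = K ε * (ww ∘ (K ε * el) * gr el) := by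
    funext p
    simp only [gr, ip2, D_comp _ (smg ε) sm_Ph, D_Kmul _ ε sm_el, der_Ph, Pi.add_apply,
      Pi.mul_apply, K_apply]
    ring
  rw [e, In_Kmul] at h1
  have h2 : |In (Ph ∘ (K ε * el) * Lp el) s| ≤ In (K (4 * B) * sg) s := by
    refine In_abs ((sy_sg.Kmul _).ig (by norm_num)) fun x => ?_
    have h3 := hB (ε * el (s, x)) (mul_nonneg hε.le (el_nonneg _))
    have h4 := sg_pos (s, x)
    simp only [Lp_el, Pi.mul_apply, K_apply, Function.comp_apply]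
    rw [abs_mul, abs_of_pos (by positivity : 0 < 4 * sg (s, x))]
    nlinarith
  linarith [(abs_le.1 h2).1]

theorem mul_bd {a A T M : ℝ} (ha : |a| ≤ A) (hT : |T| ≤ M) : a * T ≤ A * M :=
  (le_abs_self _).trans (by rw [abs_mul]; exact mul_le_mul ha hT (abs_nonneg _) ((abs_nonneg _).trans ha))

theorem pt {χ c1 c2 ε B M G t Q T1 T2 T3 T4 P S iV : ℝ} (hε : 0 < ε) (hε1 : ε ≤ 1)
    (hχ : |χ| ≤ 1) (ht : 0 ≤ t) (hq : |χ ^ 2 - 1| ≤ ε * t) (h1 : |c1| ≤ B) (h2 : |c2| ≤ B) (hV : 0 ≤ iV)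
    (b0 : |t * Q| ≤ M) (b1 : |T1| ≤ M) (b2 : |T2| ≤ M) (b3 : |T3| ≤ M) (b4 : |T4| ≤ M)
    (b5 : (P * P + S * S) * iV ≤ G + M) :
    χ ^ 2 * Q + 2 * χ * ε * (c1 * T1 + ε * c2 * T2) + (ε * c1 * P + ε ^ 2 * c2 * S) ^ 2 * iV -
      2 * χ * ε * c1 * T3 - ε ^ 2 * c1 ^ 2 * T4 ≤
      Q + ε * (1 + 6 * B + 3 * B ^ 2) * M + ε ^ 2 * ((c1 ^ 2 + c2 ^ 2) * G) := by
  have hB : 0 ≤ B := (abs_nonneg _).trans h1
  have hM : 0 ≤ M := (abs_nonneg _).trans b1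
  have e1 : |ε| ≤ 1 := by rwa [abs_of_pos hε]
  have a0 : (χ ^ 2 - 1) * Q ≤ ε * M := by
    have := mul_bd hq (le_refl |Q|)
    rw [abs_mul, abs_of_nonneg ht] at b0
    nlinarith
  have k1 : |χ * c1| ≤ B := by
    rw [abs_mul]; nlinarith [abs_nonneg χ, abs_nonneg c1]
  have k2 : |χ * ε * c2| ≤ B := by
    rw [abs_mul, abs_mul]
    have := mul_le_mul hχ e1 (abs_nonneg _) zero_le_one
    nlinarith [abs_nonneg c2, mul_nonneg (abs_nonneg χ) (abs_nonneg ε)]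
  have q1 : c1 ^ 2 ≤ B ^ 2 := sq_le_sq' (abs_le.1 h1).1 (abs_le.1 h1).2
  have q2 : c2 ^ 2 ≤ B ^ 2 := sq_le_sq' (abs_le.1 h2).1 (abs_le.1 h2).2
  have k4 : |-(ε * c1 ^ 2)| ≤ B ^ 2 := by
    rw [abs_neg, abs_of_nonneg (by positivity)]; nlinarith [sq_nonneg c1]
  have a1 := mul_bd k1 b1
  have a2 := mul_bd k2 b2
  have a3 := mul_bd (show |-(χ * c1)| ≤ B by rwa [abs_neg]) b3
  have a4 := mul_bd k4 b4
  have a5 : (c1 * P + ε * c2 * S) ^ 2 ≤ (c1 ^ 2 + c2 ^ 2) * (P * P + S * S) := by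
    have u1 : (c1 * P + ε * c2 * S) ^ 2 ≤ (c1 ^ 2 + c2 ^ 2) * (P ^ 2 + (ε * S) ^ 2) := by
      nlinarith [sq_nonneg (c1 * (ε * S) - c2 * P)]
    have u2 : (ε * S) ^ 2 ≤ S * S := by
      have : ε ^ 2 ≤ 1 := by nlinarith
      nlinarith [mul_self_nonneg S]
    refine u1.trans (mul_le_mul_of_nonneg_left (by nlinarith) (by positivity))
  have a6 : (c1 * P + ε * c2 * S) ^ 2 * iV ≤ (c1 ^ 2 + c2 ^ 2) * G + 2 * B ^ 2 * M := by
    have u1 := mul_le_mul_of_nonneg_right a5 hV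
    have u2 := mul_le_mul_of_nonneg_left b5 (by positivity : 0 ≤ c1 ^ 2 + c2 ^ 2)
    nlinarith
  have a7 : ε * (2 * B ^ 2 * M) ≤ 2 * B ^ 2 * M := by
    nlinarith [mul_nonneg (sq_nonneg B) hM]
  have a8 := mul_le_mul_of_nonneg_left a6 hε.le
  have a9 : 2 * (χ * c1 * T1) + 2 * (χ * ε * c2 * T2) + ε * ((c1 * P + ε * c2 * S) ^ 2 * iV) +
      2 * (-(χ * c1) * T3) + -(ε * c1 ^ 2) * T4 ≤
      (6 * B + 3 * B ^ 2) * M + ε * ((c1 ^ 2 + c2 ^ 2) * G) := by nlinarith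
  have a10 := mul_le_mul_of_nonneg_left a9 hε.le
  nlinarith

variable {d : Dat} {f : Fx}

theorem qq_sy (h : d.Met) (hf : H1 (-2) f) (hd : Sy (-4) (DD d.u f)) : Sy (-4) (d.QQ f) :=
  (((hd.mul hd).mul' h.syiV (by norm_num)).sub ((h.h2L.BB hf hf).mono (by norm_num))).sub
    (h.RS.sy.mul' (h.h2u.BB hf hf) (by norm_num))

theorem oo6 {T0 T1 T2 T3 T4 T5 : Fx} (h0 : Sy (-3) T0) (h1 : Sy (-3) T1) (h2 : Sy (-3) T2)
    (h3 : Sy (-3) T3) (h4 : Sy (-3) T4) (h5 : Sy (-2) T5) (s : ℝ) : ∃ C, ∀ x : ℝ × ℝ,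
    |T0 (s, x)| ≤ C * jb (s, x) ^ (-3 : ℤ) ∧ |T1 (s, x)| ≤ C * jb (s, x) ^ (-3 : ℤ) ∧
    |T2 (s, x)| ≤ C * jb (s, x) ^ (-3 : ℤ) ∧ |T3 (s, x)| ≤ C * jb (s, x) ^ (-3 : ℤ) ∧
    |T4 (s, x)| ≤ C * jb (s, x) ^ (-3 : ℤ) ∧
    T5 (s, x) ≤ C * gr el (s, x) + C * jb (s, x) ^ (-3 : ℤ) := by
  obtain ⟨C0, b0⟩ := h0.oo |s|
  obtain ⟨C1, b1⟩ := h1.oo |s|
  obtain ⟨C2, b2⟩ := h2.oo |s|
  obtain ⟨C3, b3⟩ := h3.oo |s|
  obtain ⟨C4, b4⟩ := h4.oo |s|
  obtain ⟨C5, b5⟩ := h5.oo |s|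
  refine ⟨|C0| + |C1| + |C2| + |C3| + |C4| + |C5|, fun x => ?_⟩
  have hj : 0 < jb (s, x) ^ (-3 : ℤ) := zpow_pos (jb_pos _) _
  have p0 := abs_nonneg C0
  have p1 := abs_nonneg C1
  have p2 := abs_nonneg C2
  have p3 := abs_nonneg C3
  have p4 := abs_nonneg C4
  have p5 := abs_nonneg C5
  have up : ∀ {T A : ℝ}, T ≤ A * jb (s, x) ^ (-3 : ℤ) →
      |A| ≤ |C0| + |C1| + |C2| + |C3| + |C4| + |C5| →
      T ≤ (|C0| + |C1| + |C2| + |C3| + |C4| + |C5|) * jb (s, x) ^ (-3 : ℤ) := fun h hA =>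
    h.trans (mul_le_mul_of_nonneg_right ((le_abs_self _).trans hA) hj.le)
  refine ⟨up (b0 _ le_rfl) (by linarith), up (b1 _ le_rfl) (by linarith),
    up (b2 _ le_rfl) (by linarith), up (b3 _ le_rfl) (by linarith),
    up (b4 _ le_rfl) (by linarith), ?_⟩
  have e1 : jb (s, x) ^ (-2 : ℤ) = gr el (s, x) / 4 + sg (s, x) := by
    have := (rr_pos (s, x)).ne'
    rw [zpow_neg, show jb (s, x) ^ (2 : ℤ) = rr (s, x) from jb_sq _, gr_el, sg_apply]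
    field_simp
    rw [rr_apply]; ring
  have e2 : sg (s, x) ≤ jb (s, x) ^ (-3 : ℤ) := by
    rw [sg_eq]; exact zpow_le_zpow_right₀ (one_le_jb _) (by norm_num)
  have e3 := gr_nonneg el (s, x)
  have e4 : T5 (s, x) ≤ |C5| * (gr el (s, x) + jb (s, x) ^ (-3 : ℤ)) := by
    refine (le_abs_self _).trans ((b5 _ le_rfl).trans ?_)
    refine mul_le_mul (le_abs_self _) (by rw [e1]; linarith) (zpow_pos (jb_pos _) _).le p5
  rw [← mul_add]
  exact e4.trans (mul_le_mul_of_nonneg_right (by linarith) (by positivity))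

theorem main (H : StA1b) (h : d.Met) (hf : Sy (-1) f) (hd : Sy (-4) (DD d.u f)) (s : ℝ) :
    0 ≤ In (d.QQ f) s := by
  have f1 : H1 (-2) f := hf.h1
  have hQ := qq_sy h f1 hd
  have hel : Sy (-4) (DD d.u el) := h.syDD h1_el (Lp_el ▸ sy_sg.Kmul 4)
  have hP : Sy (-3) (K 2 * BB d.u el f + f * DD d.u el) :=
    ((h.h2u.BB h1_el f1).Kmul 2).add (hf.mul' hel (by norm_num))
  have hS : Sy (-3) (f * BB d.u el el) := hf.mul (h.h2u.BB h1_el h1_el)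
  have hA : Sy 0 (DD d.u f * Iv d.V) := hd.mul h.syiV
  have h3 : Sy (-3) (f * (BB d.L el f + d.R * BB d.u el f)) :=
    hf.mul' (((h.h2L.BB h1_el f1).mono (b := -3) (by norm_num)).add
      (h.RS.sy.mul' (h.h2u.BB h1_el f1) (by norm_num))) (by norm_num)
  have h4 : Sy (-3) (f * f * (BB d.L el el + d.R * BB d.u el el)) :=
    (hf.mul hf).mul' (((h.h2L.BB h1_el h1_el).mono (b := -2) (by norm_num)).add
      (h.RS.sy.mul' (h.h2u.BB h1_el h1_el) (by norm_num))) (by norm_num)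
  obtain ⟨C, hC⟩ := oo6 (sy_el.mul' hQ (by norm_num)) (hA.mul' hP (by norm_num))
    (hA.mul' hS (by norm_num)) h3 h4
    (((hP.mul hP).add (hS.mul hS)).mul' h.syiV (by norm_num)) s
  obtain ⟨B1, p1, hB1⟩ := zr_cut.der.bd (smd sm_cut).continuous
  obtain ⟨B2, p2, hB2⟩ := zr_cut.der.der.bd (smd (smd sm_cut)).continuous
  obtain ⟨G, hG⟩ := gain s
  set B := B1 + B2 with hB
  set J : Fx := fun p => jb p ^ (-3 : ℤ) with hJ
  have key : ∀ ε, 0 < ε → ε ≤ 1 →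
      0 ≤ In (d.QQ f) s + ε * ((1 + 6 * B + 3 * B ^ 2) * C * In J s + |C| * |G|) := by
    intro ε hε hε1
    have hc := (zr_cut.cs sm_cut hε).mul hf.sm
    have hw : Ig (ww ∘ (K ε * el) * gr el) :=
      (((zr_ww.cs sm_ww hε).mul (sm_gr sm_el)).sy (-3)).ig le_rfl
    have i1 : Ig (d.QQ (cut ∘ (K ε * el) * f)) :=
      (qq_sy h ((hc.sy (-1)).h1.mono (by norm_num))
        ((h.h2u.DD (hc.sy (-2)).h1.h2).mono (by norm_num))).ig (by norm_num)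
    have i2 : Ig (d.QQ f) := hQ.ig (by norm_num)
    have i3 : Ig (K (ε * (1 + 6 * B + 3 * B ^ 2) * C) * J) := ig_jb.Kmul _
    have i4 := hw.Kmul (ε ^ 2 * C)
    have m1 := In_mono (s := s) i1 ((i2.add i3).add i4) fun x => ?_
    · rw [In_add (i2.add i3) i4, In_add i2 i3, In_Kmul, In_Kmul] at m1
      have m2 := H d h _ hc s
      have m3 := hG ε hε
      have m4 : 0 ≤ ε * In (ww ∘ (K ε * el) * gr el) s :=
        mul_nonneg hε.le (In_nonneg fun x => mul_nonneg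
          (add_nonneg (sq_nonneg _) (sq_nonneg _)) (gr_nonneg _ _))
      have m5 := mul_bd (le_refl |C|) (show |ε * In (ww ∘ (K ε * el) * gr el) s| ≤ |G| by
        rw [abs_of_nonneg m4]; exact m3.trans (le_abs_self G))
      nlinarith
    · obtain ⟨b0, b1, b2, b3, b4, b5⟩ := hC x
      have ht : 0 ≤ ε * el (s, x) := mul_nonneg hε.le (el_nonneg _)
      have z := pt hε hε1 (cut_abs (ε * el (s, x))) (el_nonneg (s, x)) (cut_sq ht)
        ((hB1 _ ht).trans (by linarith : B1 ≤ B)) ((hB2 _ ht).trans (by linarith : B2 ≤ B))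
        (inv_pos.2 (h.Vpos (s, x))).le b0 b1 b2 b3 b4 b5
      have sc : Sm (cut ∘ (K ε * el)) := sm_cut.comp (smg ε)
      refine le_of_eq_of_le ?_ (z.trans (le_of_eq ?_))
      · simp only [Dat.QQ, DD_mul _ sc hf.sm, DD_comp _ (smg ε) sm_cut, DD_Kmul _ ε sm_el, BB, BBv,
          D_mul _ sc hf.sm, D_comp _ (smg ε) sm_cut, D_Kmul _ ε sm_el, Pi.add_apply, Pi.sub_apply,
          Pi.mul_apply, K_apply, Function.comp_apply, Iv_apply]
        ring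
      · simp only [ww, hJ, Pi.add_apply, Pi.mul_apply, K_apply, Function.comp_apply]
        ring
  set E := (1 + 6 * B + 3 * B ^ 2) * C * In J s + |C| * |G|
  have lim : Tendsto (fun ε : ℝ => In (d.QQ f) s + ε * E) (𝓝[>] 0) (𝓝 (In (d.QQ f) s + 0 * E)) :=
    ((by fun_prop : Continuous fun ε : ℝ => In (d.QQ f) s + ε * E).tendsto 0).mono_left
      nhdsWithin_le_nhds
  rw [zero_mul, add_zero] at lim
  refine ge_of_tendsto lim ?_
  filter_upwards [Ioc_mem_nhdsGT (zero_lt_one' ℝ)] with ε hε using key ε hε.1 hε.2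

end A1dP

theorem a1d_ok (h : StA1b) : StA1d := by
  intro d hd s
  obtain ⟨k, hk, hf⟩ := hd.RS.fin
  have e1 : D e1 (d.R - Tm k) = D e1 d.R := by
    rw [D_sub _ hd.smR (sm_Tm hk), D_Tm_sp rfl hk, sub_zero]
  have e2 : D e2 (d.R - Tm k) = D e2 d.R := by
    rw [D_sub _ hd.smR (sm_Tm hk), D_Tm_sp rfl hk, sub_zero]
  have e3 : DD d.u (d.R - Tm k) = DD d.u d.R := by simp only [DD, DDv, e1, e2]
  have e4 : d.QQ (d.R - Tm k) = d.QQ d.R := by simp only [Dat.QQ, e3, BB, BBv, e1, e2]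
  rw [← e4]
  exact A1dP.main h hd hf (e3 ▸ hd.syDDs hd.RS) s

end Pool.Agent.P.MP_2cea5e_gt.Se
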