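import Pool.Agent.P.MP_2cea5e_gt.Se.Api

/-!
Package A2.
-/

open scoped ContDiff Topology ENNReal
open MeasureTheory Set Filter

noncomputable section

namespace Pool.Agent.P.MP_2cea5e_gt.Se

namespace A2P

theorem sos (a b c x y z : ℝ) (hW : 0 ≤ a * c - b * b) :
    (x ^ 2 + 2 * y ^ 2 + z ^ 2) * (a * c - b * b) ^ 2 ≤
      (a + c) ^ 2 * ((a * z + c * x - 2 * b * y) ^ 2 - 2 * (a * c - b * b) * (x * z - y * y)) := by
  have e : (a + c) ^ 2 * ((a * z + c * x - 2 * b * y) ^ 2 - 2 * (a * c - b * b) * (x * z - y * y)) =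
      (x ^ 2 + 2 * y ^ 2 + z ^ 2) * (a * c - b * b) ^ 2 +
      (((c * x - b * y) * c - (c * y - b * z) * b) ^ 2 +
        2 * ((c * y - b * z) * a - (c * x - b * y) * b) ^ 2 +
        ((a * z - b * y) * a - (a * y - b * x) * b) ^ 2 +
        2 * (a * c - b * b) * ((c * x - b * y) ^ 2 + (c * y - b * z) ^ 2 + (a * y - b * x) ^ 2 +
          (a * z - b * y) ^ 2)) := by ring
  rw [e]
  exact le_add_of_nonneg_right (by positivity)

theorem point {d : Dat} (h : d.Met) (p : X) : hs d.L p * W d.u p ≤ d.tS p ^ 2 * d.GG p := by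
  have hW := h.pot.pw p
  have hR : d.R p * d.V p = -DD d.u d.L p := congrFun h.hR p
  have e : W d.u p * d.GG p = DD d.u d.L p ^ 2 - 2 * W d.u p * W d.L p := by
    have e1 : d.GG p = (d.R p * d.V p) ^ 2 * (W d.u p)⁻¹ - 2 * W d.L p := by
      simp only [Dat.GG, Pi.sub_apply, Pi.mul_apply, K_apply, Iv_apply]
      ring
    rw [e1, hR]
    field_simp
  refine le_of_mul_le_mul_right ?_ hW
  rw [mul_assoc (d.tS p ^ 2), mul_comm (d.GG p), e, hs_apply h.smL, mul_assoc, ← sq]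
  have := sos (D e1 (D e1 d.u) p) (D e1 (D e2 d.u) p) (D e2 (D e2 d.u) p) (D e1 (D e1 d.L) p)
    (D e1 (D e2 d.L) p) (D e2 (D e2 d.L) p) hW.le
  simpa only [Dat.tS, Lp, DD, DDv, W, Pi.add_apply, Pi.sub_apply, Pi.mul_apply, K_apply] using this

theorem W_ge (d : Dat) (p : X) : d.c * d.c + d.V p = W d.u p := by
  rw [d.W_eq]; rfl

end A2P

open A2P

theorem a2_ok : StA2 := by
  intro d h
  have sR : Sy 0 d.R := h.RS.sy
  have i1 : Ig (d.R * d.R * d.V * d.V * Iv (W d.u)) :=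
    ((((sR.mul sR).mul h.syV).mul h.syV).mul h.syiW).ig (by norm_num)
  have i2 : Ig (K 2 * W d.L) := (h.h2L.W.ig (by norm_num)).Kmul 2
  have i3 : Ig (d.R * d.R * d.V) := ((sR.mul sR).mul h.syV).ig (by norm_num)
  refine ⟨i1.sub i2, fun s => ?_, fun p => ⟨?_, point h p⟩⟩
  · rw [Dat.GG, In_sub i1 i2, In_Kmul, In_W h.h1L, mul_zero, sub_zero]
    refine In_mono i1 i3 fun x => ?_
    have hW := h.pot.pw (s, x)
    have hV := h.Vpos (s, x)
    have h1 : d.V (s, x) * (W d.u (s, x))⁻¹ ≤ 1 := by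
      rw [← div_eq_mul_inv, div_le_one hW, ← W_ge d]
      nlinarith [mul_self_nonneg d.c]
    simp only [Pi.mul_apply, Iv_apply]
    rw [mul_assoc (d.R (s, x) * d.R (s, x) * d.V (s, x))]
    exact mul_le_of_le_one_right (mul_nonneg (mul_self_nonneg _) hV.le) h1
  · have h1 : 0 < d.tS p ^ 2 := pow_pos (by linarith [h.tS_gt p, h.hc]) 2
    exact nonneg_of_mul_nonneg_right
      ((mul_nonneg (hs_nonneg _ _) (h.pot.pw p).le).trans (point h p)) h1

theorem a3e_ok (h : StA2) : StA3e := by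
  intro d hM ca tS
  obtain ⟨iG, hG, hP⟩ := h d hM
  obtain ⟨C, hC⟩ := id tS
  have hc := hM.hc
  have t0 : ∀ p, 0 < d.tS p := fun p => by linarith [hM.tS_gt p]
  have t1 : ∀ p : X, 0 ≤ p.1 → d.tS p ≤ C := fun p hp => (le_abs_self _).trans (hC p hp)
  have C0 : 0 < C := (t0 0).trans_le (t1 0 le_rfl)
  have cc : 0 < d.c * d.c := mul_pos hc hc
  have w1 : ∀ p, d.c * d.c ≤ W d.u p := fun p => by linarith [W_ge d p, hM.Vpos p]
  have l1 : ∀ p, Lp d.ψ p ≤ d.tS p := fun p => by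
    have : d.tS p = 2 * d.c + Lp d.ψ p := congrFun hM.tS_eq p
    linarith
  have iL : Ig (hs d.L) := hM.h2L.hs.ig (by norm_num)
  have isg : Ig sg := sy_sg.ig (by norm_num)
  have hL : Ub (In (hs d.L)) := by
    refine (ca.cmul (c := C ^ 2 / (d.c * d.c)) (by positivity)).mono fun s hs0 => ?_
    refine le_trans ?_ (mul_le_mul_of_nonneg_left (hG s) (by positivity))
    rw [← In_Kmul]
    refine In_mono iL (iG.Kmul _) fun x => ?_
    obtain ⟨g0, g1⟩ := hP (s, x)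
    show _ ≤ C ^ 2 / (d.c * d.c) * d.GG (s, x)
    rw [div_mul_eq_mul_div, le_div_iff₀ cc]
    exact ((mul_le_mul_of_nonneg_left (w1 _) (hs_nonneg _ _)).trans g1).trans
      (mul_le_mul_of_nonneg_right (pow_le_pow_left₀ (t0 _).le (t1 (s, x) hs0) 2) g0)
  refine ⟨ca, tS, ⟨d.c * d.c / C, by positivity, fun f p hp => ?_⟩, ⟨C * C, fun p hp => ?_⟩,
    ⟨C * (4 * d.a * s0), fun s hs0 => ?_⟩, ?_, hL⟩
  · rw [div_mul_eq_mul_div, div_le_iff₀' C0]
    exact ((mul_le_mul_of_nonneg_right (w1 p) (gr_nonneg f p)).trans (hM.BB_low f p)).trans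
      (mul_le_mul_of_nonneg_right (t1 p hp) (hM.BB_nonneg f p))
  · rw [abs_of_nonneg (hs_nonneg _ _)]
    exact (hM.hs_le p).trans (mul_le_mul ((l1 p).trans (t1 p hp)) (t1 p hp) (t0 p).le C0.le)
  · rw [← hM.InLp s, ← In_Kmul]
    refine In_mono (hM.h2ψ.hs.ig (by norm_num)) ((hM.lpψ.ig (by norm_num)).Kmul _) fun x => ?_
    show _ ≤ C * Lp d.ψ (s, x)
    rw [mul_comm]
    exact (hM.hs_le _).trans (mul_le_mul_of_nonneg_left (t1 (s, x) hs0) (hM.Lp_pos _).le)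
  · refine ((hL.cmul (c := 2) (by norm_num)).add (ub_const (64 * s0))).mono fun s _ => ?_
    rw [← In_sg s, ← In_Kmul, ← In_Kmul, ← In_add (iL.Kmul _) (isg.Kmul _)]
    refine In_mono (hM.wS.sy.h1.h2.hs.ig (by norm_num)) ((iL.Kmul _).add (isg.Kmul _)) fun x => ?_
    show _ ≤ 2 * hs d.L (s, x) + 64 * sg (s, x)
    have a1 := hs_add_le hM.smL (sm_mul (sm_K 2) sm_el) (s, x)
    rw [← d.w_eq, hs_Kmul 2 sm_el] at a1
    linarith [hs_el_le (s, x)]

end Pool.Agent.P.MP_2cea5e_gt.Se
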