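import Pool.Agent.P.MP_2cea5e_gt.Se.Api

/-!
Package A3a.
-/

open scoped ContDiff Topology ENNReal
open MeasureTheory Set Filter

noncomputable section

namespace Pool.Agent.P.MP_2cea5e_gt.Se

namespace A3aP

theorem form_nonneg {a b e : ℝ} (ha : 0 < a) (hW : 0 < a * e - b * b) (x y : ℝ) :
    0 ≤ e * x ^ 2 - 2 * b * x * y + a * y ^ 2 := by
  have h : a * (e * x ^ 2 - 2 * b * x * y + a * y ^ 2) =
      (a * e - b * b) * x ^ 2 + (a * y - b * x) ^ 2 := by ring
  have h2 : 0 ≤ a * (e * x ^ 2 - 2 * b * x * y + a * y ^ 2) := by rw [h]; positivity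
  exact nonneg_of_mul_nonneg_right h2 ha

theorem alg {a b e V p q r s : ℝ} (ha : 0 < a) (he : 0 < e) (hV : 0 < V)
    (hW : V ≤ a * e - b * b) :
    (e * (p + r) ^ 2 - 2 * b * (p + r) * (q + s) + a * (q + s) ^ 2) * (a + e)⁻¹ ≤
      ((e * p - 2 * b * q + a * r) ^ 2 + (e * q - 2 * b * r + a * s) ^ 2) * V⁻¹ -
        2 * (p * r - q ^ 2) - 2 * (q * s - r ^ 2) := by
  have hW0 : 0 < a * e - b * b := hV.trans_le hW
  have f1 := form_nonneg ha hW0 (a * q - b * p) (a * r - b * q)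
  have f2 := form_nonneg ha hW0 (e * q - b * r) (e * r - b * s)
  have f3 := form_nonneg ha hW0 (e * p - a * r) (e * q - a * s)
  set w := a * e - b * b with hw
  set N := (e * p - 2 * b * q + a * r) ^ 2 + (e * q - 2 * b * r + a * s) ^ 2 with hN
  set B := e * (p + r) ^ 2 - 2 * b * (p + r) * (q + s) + a * (q + s) ^ 2 with hB
  set T := N - w * (2 * (p * r - q ^ 2) + 2 * (q * s - r ^ 2)) with hT
  have key : a * e * ((a + e) * T - w * B) =
      (a + e) * e * (e * (a * q - b * p) ^ 2 - 2 * b * (a * q - b * p) * (a * r - b * q) +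
        a * (a * r - b * q) ^ 2) +
      (a + e) * a * (e * (e * q - b * r) ^ 2 - 2 * b * (e * q - b * r) * (e * r - b * s) +
        a * (e * r - b * s) ^ 2) +
      w * (e * (e * p - a * r) ^ 2 - 2 * b * (e * p - a * r) * (e * q - a * s) +
        a * (e * q - a * s) ^ 2) := by
    rw [hT, hN, hB, hw]; ring
  have k1 : 0 ≤ a * e * ((a + e) * T - w * B) := by rw [key]; positivity
  have k2 : 0 ≤ (a + e) * T - w * B := nonneg_of_mul_nonneg_right k1 (by positivity)
  have k3 : N * w⁻¹ ≤ N * V⁻¹ :=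
    mul_le_mul_of_nonneg_left (inv_anti₀ hV hW) (by positivity)
  have k4 : B * (a + e)⁻¹ ≤ T * w⁻¹ := by
    rw [← div_eq_mul_inv, ← div_eq_mul_inv, div_le_div_iff₀ (by positivity) hW0]
    linarith
  have k5 : T * w⁻¹ = N * w⁻¹ - 2 * (p * r - q ^ 2) - 2 * (q * s - r ^ 2) := by
    rw [hT]; field_simp; ring
  linarith

theorem DD_Lg {f : Fx} (hf : Sm f) (h0 : ∀ p, f p ≠ 0) (a b : X) :
    D a (D b (Lg f)) = D a (D b f) * Iv f - D b f * D a f * Iv f * Iv f := by
  rw [D_Lg b hf h0, D_mul a (sm_D _ hf) (sm_Iv hf h0), D_Iv a hf h0]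
  ring

theorem D_W {A B E : Fx} (hA : Sm A) (hB : Sm B) (hE : Sm E) (v : X) :
    D v (A * E - B * B) = E * D v A - K 2 * B * D v B + A * D v E := by
  rw [D_sub v (sm_mul hA hE) (sm_mul hB hB), D_mul v hA hE, D_mul v hB hB]
  funext p
  simp only [Pi.add_apply, Pi.mul_apply, Pi.sub_apply, K_apply]
  ring

theorem DD_W {A B E : Fx} (hA : Sm A) (hB : Sm B) (hE : Sm E) (v : X) :
    D v (D v (A * E - B * B)) = E * D v (D v A) - K 2 * B * D v (D v B) + A * D v (D v E) +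
      K 2 * (D v A * D v E - D v B * D v B) := by
  have a := sm_D v hA
  have b := sm_D v hB
  have e := sm_D v hE
  rw [D_sub v (sm_mul hA hE) (sm_mul hB hB), D_mul v hA hE, D_mul v hB hB,
    D_sub v (sm_add (sm_mul a hE) (sm_mul hA e)) (sm_add (sm_mul b hB) (sm_mul hB b)),
    D_add v (sm_mul a hE) (sm_mul hA e), D_add v (sm_mul b hB) (sm_mul hB b),
    D_mul v a hE, D_mul v hA e, D_mul v b hB, D_mul v hB b]
  funext p
  simp only [Pi.add_apply, Pi.mul_apply, Pi.sub_apply, K_apply]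
  ring

end A3aP

open A3aP in
theorem a3a_ok : StA3a := by
  intro d h p
  have hu := h.smu
  have t0 : ∀ p, d.tS p ≠ 0 := fun p => by
    have := h.tS_gt p
    have := h.hc
    exact (show 0 < d.tS p by linarith).ne'
  have v0 : ∀ p, d.V p ≠ 0 := fun p => (h.Vpos p).ne'
  have hA : Sm (D e1 (D e1 d.u)) := sm_D _ (sm_D _ hu)
  have hB : Sm (D e1 (D e2 d.u)) := sm_D _ (sm_D _ hu)
  have hE : Sm (D e2 (D e2 d.u)) := sm_D _ (sm_D _ hu)
  have c1 : D e2 (D e1 (D e1 d.u)) = D e1 (D e1 (D e2 d.u)) := by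
    rw [D_comm e2 e1 (sm_D _ hu), D_comm e2 e1 hu]
  have c2 : D e2 (D e1 (D e2 d.u)) = D e1 (D e2 (D e2 d.u)) := D_comm e2 e1 (sm_D _ hu)
  have hV : ∀ v, D v d.V = D v (D e1 (D e1 d.u) * D e2 (D e2 d.u) -
      D e1 (D e2 d.u) * D e1 (D e2 d.u)) := fun v => by
    show D v (W d.u - K _) = D v (W d.u)
    rw [D_sub v (sm_W hu) (sm_K _), D_K, sub_zero]
  have hW : d.V p ≤ D e1 (D e1 d.u) p * D e2 (D e2 d.u) p -
      D e1 (D e2 d.u) p * D e1 (D e2 d.u) p := by
    show W d.u p - d.c * d.c ≤ W d.u p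
    linarith [mul_self_nonneg d.c]
  have hT : d.tS = D e1 (D e1 d.u) + D e2 (D e2 d.u) := rfl
  have ha := h.p11 p
  have he := h.pot.p22 p
  have hp := h.Vpos p
  have hL := h.L_eq
  have hsV := h.smV
  have hsT := h.smtS
  rw [hL]
  simp only [Lp, DD, DDv, DD_Lg hsV v0, DD_Lg hsT t0]
  generalize D e1 (D e1 d.u) = A at *
  generalize D e1 (D e2 d.u) = B at *
  generalize D e2 (D e2 d.u) = E at *
  have c3 : D e2 (D e2 A) = D e1 (D e1 E) := by rw [c1, D_comm e2 e1 hB, c2]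
  have c4 : D e1 (D e2 A) = D e1 (D e1 B) := by rw [c1]
  have c5 : D e2 (D e2 B) = D e1 (D e2 E) := by rw [c2, D_comm e2 e1 hE]
  have key := alg (p := D e1 A p) (q := D e1 B p) (r := D e1 E p) (s := D e2 E p) ha he hp hW
  have hne : A p + E p ≠ 0 := by positivity
  simp only [hV, DD_W hA hB hE]
  simp only [D_W hA hB hE, hT, D_add _ hA hE, D_add _ (sm_D _ hA) (sm_D _ hE), c3, c4, c5]
  simp only [c1, c2, Pi.add_apply, Pi.mul_apply, Pi.sub_apply, K_apply, Iv_apply]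
  generalize D e1 (D e1 A) p = a11 at *
  generalize D e1 (D e1 B) p = b11 at *
  generalize D e1 (D e1 E) p = e11 at *
  generalize D e1 (D e2 E) p = e12 at *
  generalize D e2 (D e2 E) p = e22 at *
  generalize D e1 A p = x at *
  generalize D e1 B p = y at *
  generalize D e1 E p = z at *
  generalize D e2 E p = w at *
  generalize d.V p = V at *
  generalize A p = a at *
  generalize B p = b at *
  generalize E p = e at *
  have i1 : V * V⁻¹ = 1 := mul_inv_cancel₀ hp.ne'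
  have i2 : (a + e) * (a + e)⁻¹ = 1 := mul_inv_cancel₀ hne
  generalize V⁻¹ = i at *
  generalize (a + e)⁻¹ = j at *
  linear_combination key +
    (e * a11 - 2 * b * b11 + a * e11 + 2 * (x * z - y * y) +
      (e * e11 - 2 * b * e12 + a * e22 + 2 * (y * w - z * z)) -
      ((e * x - 2 * b * y + a * z) ^ 2 + (e * y - 2 * b * z + a * w) ^ 2) * i) * i1 -
    (a * (e11 + e22) + e * (a11 + e11) - 2 * b * (b11 + e12) -
      (e * (x + z) ^ 2 - 2 * b * (x + z) * (y + w) + a * (y + w) ^ 2) * j) * i2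

end Pool.Agent.P.MP_2cea5e_gt.Se
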