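import Mathlib

/-!
Package A3b, the analysis on the plane: the Sobolev inequality transported by an injective local
diffeomorphism.
-/

open scoped ContDiff Topology ENNReal
open MeasureTheory Set Filter

noncomputable section

namespace Pool.Agent.P.MP_2cea5e_gt.Se.A3bP

abbrev E : Type := ℝ × ℝ

/-- A symmetric matrix as a linear map. -/
def M2 (a b e : ℝ) : E →L[ℝ] E :=
  LinearMap.toContinuousLinearMap
    (Matrix.toLin (Module.Basis.finTwoProd ℝ) (Module.Basis.finTwoProd ℝ) !![a, b; b, e])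

theorem M2_apply (a b e : ℝ) (h : E) : M2 a b e h = (a * h.1 + b * h.2, b * h.1 + e * h.2) :=
  Matrix.toLin_finTwoProd_apply a b b e h

theorem M2_det (a b e : ℝ) : (M2 a b e).det = a * e - b ^ 2 := by
  simp only [M2, ContinuousLinearMap.det, LinearMap.coe_toContinuousLinearMap, LinearMap.det_toLin,
    Matrix.det_fin_two_of]
  ring

theorem norm_form_le (L : E →L[ℝ] ℝ) : ‖L‖ ≤ |L (1, 0)| + |L (0, 1)| := by
  refine L.opNorm_le_bound (by positivity) fun h => ?_
  have e : h = h.1 • ((1, 0) : E) + h.2 • ((0, 1) : E) := by ext <;> simp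
  have h1 : |h.1| ≤ ‖h‖ := norm_fst_le h
  have h2 : |h.2| ≤ ‖h‖ := norm_snd_le h
  have e2 : L h = h.1 * L (1, 0) + h.2 * L (0, 1) := by
    conv_lhs => rw [e]
    simp only [map_add, map_smul, smul_eq_mul]
  rw [e2, Real.norm_eq_abs]
  calc _ ≤ |h.1 * L (1, 0)| + |h.2 * L (0, 1)| := abs_add_le _ _
    _ = |h.1| * |L (1, 0)| + |h.2| * |L (0, 1)| := by rw [abs_mul, abs_mul]
    _ ≤ ‖h‖ * |L (1, 0)| + ‖h‖ * |L (0, 1)| := by gcongr
    _ = _ := by ring

/-- The Sobolev inequality in the plane. -/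
theorem gns_real : ∃ C : ℝ, 0 < C ∧ ∀ w : E → ℝ, ContDiff ℝ 1 w → HasCompactSupport w →
    ∫ y, w y ^ 2 ≤ C * (∫ y, ‖fderiv ℝ w y‖) ^ 2 := by
  refine ⟨(lintegralPowLePowLIntegralFDerivConst (volume : Measure E) 2 : ℝ) + 1, by positivity,
    fun w hw hc => ?_⟩
  have hp : Real.HolderConjugate (Module.finrank ℝ E) 2 := by
    have : (Module.finrank ℝ E : ℝ) = 2 := by simp [E]
    rw [this]
    exact Real.HolderConjugate.two_two
  have key := lintegral_pow_le_pow_lintegral_fderiv (volume : Measure E) hw hc hp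
  have i1 : Integrable fun y => w y ^ 2 :=
    (hw.continuous.pow 2).integrable_of_hasCompactSupport (by
      have := hc.mul_left (f := w)
      simpa only [sq] using this)
  have i2 : Integrable fun y => ‖fderiv ℝ w y‖ :=
    ((hw.continuous_fderiv one_ne_zero).integrable_of_hasCompactSupport (hc.fderiv ℝ)).norm
  have e1 : ∫⁻ y, ‖w y‖ₑ ^ (2 : ℝ) = ENNReal.ofReal (∫ y, w y ^ 2) := by
    rw [ofReal_integral_eq_lintegral_ofReal i1 (Eventually.of_forall fun y => sq_nonneg _)]
    refine lintegral_congr fun y => ?_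
    rw [← ofReal_norm, ENNReal.ofReal_rpow_of_nonneg (norm_nonneg _) (by norm_num),
      Real.rpow_two, Real.norm_eq_abs, sq_abs]
  have e2 : ∫⁻ y, ‖fderiv ℝ w y‖ₑ = ENNReal.ofReal (∫ y, ‖fderiv ℝ w y‖) := by
    rw [ofReal_integral_eq_lintegral_ofReal i2 (Eventually.of_forall fun y => norm_nonneg _)]
    exact lintegral_congr fun y => (ofReal_norm _).symm
  have n2 : 0 ≤ ∫ y, ‖fderiv ℝ w y‖ := integral_nonneg fun y => norm_nonneg _
  rw [e1, e2, ENNReal.ofReal_rpow_of_nonneg n2 (by norm_num), Real.rpow_two,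
    ← ENNReal.ofReal_coe_nnreal, ← ENNReal.ofReal_mul (by positivity),
    ENNReal.ofReal_le_ofReal_iff (by positivity)] at key
  nlinarith [sq_nonneg (∫ y, ‖fderiv ℝ w y‖)]

variable {N : E → E} {N' : E → E →L[ℝ] E} {v : E → ℝ}

/-- Change of variables for functions that vanish off the image. -/
theorem cv (hd : ∀ x, HasFDerivAt N (N' x) x) (hi : Function.Injective N) (g : E → ℝ)
    (hg : ∀ y, y ∉ range N → g y = 0) : ∫ y, g y = ∫ x, |(N' x).det| * g (N x) := by
  have := integral_image_eq_integral_abs_det_fderiv_smul (volume : Measure E) MeasurableSet.univ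
    (fun x _ => (hd x).hasFDerivWithinAt) hi.injOn g
  rw [image_univ, setIntegral_eq_integral_of_forall_compl_eq_zero hg, Measure.restrict_univ] at this
  simpa only [smul_eq_mul] using this

theorem ext_zero (hN : Continuous N) (hi : Function.Injective N) (hc : HasCompactSupport v)
    {y : E} (hy : y ∉ N '' tsupport v) : Function.extend N v 0 =ᶠ[𝓝 y] 0 := by
  have hK : IsClosed (N '' tsupport v) := (hc.isCompact.image hN).isClosed
  filter_upwards [hK.isOpen_compl.mem_nhds hy] with z hz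
  by_cases h : ∃ x, N x = z
  · obtain ⟨x, rfl⟩ := h
    rw [hi.extend_apply]
    exact image_eq_zero_of_notMem_tsupport fun hx => hz ⟨x, hx, rfl⟩
  · rw [Function.extend_apply' _ _ _ h]

theorem ext_cs (hN : Continuous N) (hi : Function.Injective N) (hc : HasCompactSupport v) :
    HasCompactSupport (Function.extend N v 0) :=
  HasCompactSupport.intro (hc.isCompact.image hN) fun _ hy => (ext_zero hN hi hc hy).self_of_nhds

theorem ext_sm (hN : ContDiff ℝ 1 N) (hd : ∀ x, HasFDerivAt N (N' x) x)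
    (h0 : ∀ x, (N' x).det ≠ 0) (hi : Function.Injective N) (hv : ContDiff ℝ 1 v)
    (hc : HasCompactSupport v) : ContDiff ℝ 1 (Function.extend N v 0) := by
  rw [contDiff_iff_contDiffAt]
  intro y
  by_cases h : y ∈ N '' tsupport v
  · obtain ⟨x, -, rfl⟩ := h
    have hd' : HasFDerivAt N
        ((N' x).toContinuousLinearEquivOfDetNeZero (h0 x) : E →L[ℝ] E) x := by
      rw [ContinuousLinearMap.coe_toContinuousLinearEquivOfDetNeZero]; exact hd x
    have hG := hN.contDiffAt.to_localInverse hd' one_ne_zero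
    have hr := (hN.contDiffAt.hasStrictFDerivAt' hd' one_ne_zero).eventually_right_inverse
    refine (hv.contDiffAt.comp (N x) hG).congr_of_eventuallyEq ?_
    filter_upwards [hr] with z hz
    conv_lhs => rw [← hz]
    exact hi.extend_apply _ _ _
  · exact contDiffAt_const.congr_of_eventuallyEq (ext_zero hN.continuous hi hc h)

/-- The transported Sobolev inequality. -/
theorem sob : ∃ C : ℝ, 0 < C ∧ ∀ (N : E → E) (a b e : E → ℝ) (v : E → ℝ), ContDiff ℝ 1 N →
    (∀ x, HasFDerivAt N (M2 (a x) (b x) (e x)) x) → (∀ x, 0 < a x * e x - b x ^ 2) →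
    Function.Injective N → ContDiff ℝ 1 v → HasCompactSupport v →
    ∃ F : E → ℝ, ∫ x, v x ^ 2 * (a x * e x - b x ^ 2) ≤ C * (∫ x, F x) ^ 2 ∧
      ∀ x, F x ^ 2 ≤ 2 * ((e x * fderiv ℝ v x (1, 0) - b x * fderiv ℝ v x (0, 1)) ^ 2 +
        (a x * fderiv ℝ v x (0, 1) - b x * fderiv ℝ v x (1, 0)) ^ 2) := by
  obtain ⟨C, hC, H⟩ := gns_real
  refine ⟨C, hC, fun N a b e v hN hd hpos hi hv hc => ?_⟩
  have h0 : ∀ x, (M2 (a x) (b x) (e x)).det ≠ 0 := fun x => by rw [M2_det]; exact (hpos x).ne'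
  have hw := ext_sm hN hd h0 hi hv hc
  have key := H _ hw (ext_cs hN.continuous hi hc)
  set w : E → ℝ := Function.extend N v 0 with hwd
  have hz : ∀ y, y ∉ range N → w =ᶠ[𝓝 y] 0 := fun y hy =>
    ext_zero hN.continuous hi hc fun h => hy (image_subset_range _ _ h)
  have hwN : ∀ x, w (N x) = v x := fun x => hi.extend_apply _ _ _
  rw [cv hd hi (fun y => w y ^ 2) fun y hy => by
      rw [(hz y hy).self_of_nhds]; simp,
    cv hd hi (fun y => ‖fderiv ℝ w y‖) fun y hy => by
      rw [(hz y hy).fderiv_eq]; simp] at key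
  refine ⟨fun x => |(M2 (a x) (b x) (e x)).det| * ‖fderiv ℝ w (N x)‖, ?_, fun x => ?_⟩
  · refine le_of_eq_of_le (integral_congr_ae (Eventually.of_forall fun x => ?_)) key
    simp only [hwN, M2_det, abs_of_pos (hpos x)]
    ring
  · have hch : fderiv ℝ v x = (fderiv ℝ w (N x)).comp (M2 (a x) (b x) (e x)) := by
      have h1 := ((hw.differentiable one_ne_zero (N x)).hasFDerivAt.comp x (hd x)).fderiv
      rw [← h1]
      congr 1
      funext z
      exact (hwN z).symm
    set L := fderiv ℝ w (N x) with hL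
    have lin : ∀ p q : ℝ, L (p, q) = p * L (1, 0) + q * L (0, 1) := fun p q => by
      have e : ((p, q) : E) = p • ((1, 0) : E) + q • ((0, 1) : E) := by ext <;> simp
      conv_lhs => rw [e]
      simp only [map_add, map_smul, smul_eq_mul]
    have v1 : fderiv ℝ v x (1, 0) = a x * L (1, 0) + b x * L (0, 1) := by
      rw [hch, ContinuousLinearMap.comp_apply, M2_apply, lin]; simp
    have v2 : fderiv ℝ v x (0, 1) = b x * L (1, 0) + e x * L (0, 1) := by
      rw [hch, ContinuousLinearMap.comp_apply, M2_apply, lin]; simp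
    have hn := norm_form_le L
    have hn2 : ‖L‖ ^ 2 ≤ 2 * (L (1, 0) ^ 2 + L (0, 1) ^ 2) := by
      have h1 := pow_le_pow_left₀ (norm_nonneg _) hn 2
      nlinarith [sq_nonneg (|L (1, 0)| - |L (0, 1)|), sq_abs (L (1, 0)), sq_abs (L (0, 1))]
    simp only [v1, v2, M2_det, mul_pow, sq_abs]
    calc _ ≤ (a x * e x - b x ^ 2) ^ 2 * (2 * (L (1, 0) ^ 2 + L (0, 1) ^ 2)) := by gcongr
      _ = _ := by ring

end Pool.Agent.P.MP_2cea5e_gt.Se.A3bP
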