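import Pool.Agent.P.MP_2cea5e_gt.Se.Api
import Pool.Agent.P.MP_2cea5e_gt.Se.A3bx

/-!
Package A3b.
-/

open scoped ContDiff Topology ENNReal
open MeasureTheory Set Filter

noncomputable section

namespace Pool.Agent.P.MP_2cea5e_gt.Se

namespace A3bP

theorem fd_sp {f : Fx} (hf : Sm f) (s : ℝ) (x h : E) :
    fderiv ℝ (fun ξ : E => f (s, ξ)) x h = h.1 * D e1 f (s, x) + h.2 * D e2 f (s, x) := by
  rw [fderiv_space hf, D_dir3]
  simp

theorem sm_sp {f : Fx} (hf : Sm f) (s : ℝ) : ContDiff ℝ 1 fun ξ : E => f (s, ξ) :=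
  (hf.comp (contDiff_prodMk_right s)).of_le (by simp)

/-- The map `c x + ∇ u`. -/
def NN (d : Dat) (s : ℝ) (x : E) : E :=
  (d.c * x.1 + D e1 d.u (s, x), d.c * x.2 + D e2 d.u (s, x))

variable {d : Dat}

theorem NN_sm (h : d.Met) (s : ℝ) : ContDiff ℝ 1 (NN d s) :=
  ((contDiff_const.mul contDiff_fst).add (sm_sp (sm_D e1 h.smu) s)).prodMk
    ((contDiff_const.mul contDiff_snd).add (sm_sp (sm_D e2 h.smu) s))

theorem NN_der (h : d.Met) (s : ℝ) (x : E) : HasFDerivAt (NN d s)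
    (M2 (d.c + D e1 (D e1 d.u) (s, x)) (D e1 (D e2 d.u) (s, x)) (d.c + D e2 (D e2 d.u) (s, x)))
    x := by
  have h1 := ((sm_sp (sm_D e1 h.smu) s).differentiable one_ne_zero x).hasFDerivAt
  have h2 := ((sm_sp (sm_D e2 h.smu) s).differentiable one_ne_zero x).hasFDerivAt
  have h3 := (((hasFDerivAt_fst (𝕜 := ℝ) (p := x)).const_mul d.c).add h1).prodMk
    (((hasFDerivAt_snd (𝕜 := ℝ) (p := x)).const_mul d.c).add h2)
  refine h3.congr_fderiv (ContinuousLinearMap.ext fun η => ?_)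
  rw [M2_apply]
  simp only [ContinuousLinearMap.prod_apply, add_apply, smul_apply,
    ContinuousLinearMap.coe_fst', ContinuousLinearMap.coe_snd',
    smul_eq_mul, fd_sp (sm_D e1 h.smu), fd_sp (sm_D e2 h.smu), D_comm e2 e1 h.smu]
  ext <;> simp only <;> ring

theorem W_gt (h : d.Met) (p : X) :
    d.c ^ 2 < D e1 (D e1 d.u) p * D e2 (D e2 d.u) p - D e1 (D e2 d.u) p ^ 2 := by
  have h1 := congrFun d.W_eq p
  have h2 := h.Vpos p
  simp only [W, Pi.add_apply, Pi.sub_apply, Pi.mul_apply, K_apply] at h1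
  nlinarith

theorem form_pos {c a b e x y : ℝ} (hc : 0 < c) (ha : 0 < a) (hW : c ^ 2 < a * e - b ^ 2)
    (hxy : x ≠ 0 ∨ y ≠ 0) :
    0 < x * ((c + a) * x + b * y) + y * (b * x + (c + e) * y) := by
  have h1 : 0 < x ^ 2 + y ^ 2 := by
    rcases hxy with h | h <;> positivity
  have h2 : 0 ≤ a * (a * x ^ 2 + 2 * b * x * y + e * y ^ 2) := by
    nlinarith [sq_nonneg (a * x + b * y), mul_nonneg (sub_nonneg.2 hW.le) (sq_nonneg y),
      mul_nonneg (sq_nonneg c) (sq_nonneg y)]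
  have h3 := nonneg_of_mul_nonneg_right h2 ha
  nlinarith [mul_pos hc h1]

theorem NN_inj (h : d.Met) (s : ℝ) : Function.Injective (NN d s) := by
  intro x y hxy
  by_contra hne
  set η : E := y - x with hη
  have h0 : η.1 ≠ 0 ∨ η.2 ≠ 0 := by
    by_contra hc
    push Not at hc
    exact hne (sub_eq_zero.1 (show y - x = 0 from Prod.ext hc.1 hc.2)).symm
  have hd : ∀ r : ℝ, ∃ φ', HasDerivAt
      (fun r : ℝ => η.1 * (NN d s (x + r • η)).1 + η.2 * (NN d s (x + r • η)).2) φ' r ∧ 0 < φ' := by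
    intro r
    have h1 : HasDerivAt (fun r : ℝ => x + r • η) η r := by
      simpa using ((hasDerivAt_id r).smul_const η).const_add x
    have h2 := (NN_der h s (x + r • η)).comp_hasDerivAt r h1
    have h3 := (hasFDerivAt_fst (𝕜 := ℝ)).comp_hasDerivAt r h2
    have h4 := (hasFDerivAt_snd (𝕜 := ℝ)).comp_hasDerivAt r h2
    refine ⟨_, (h3.const_mul η.1).add (h4.const_mul η.2), ?_⟩
    rw [M2_apply]
    exact form_pos h.hc (h.p11 _) (W_gt h _) h0
  choose φ' hφ hpos using hd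
  have := strictMono_of_hasDerivAt_pos hφ hpos zero_lt_one
  simp only [zero_smul, add_zero, one_smul, hη, add_sub_cancel, hxy] at this
  exact lt_irrefl _ this

theorem alg {c a b e x y : ℝ} (hc : 0 < c) (hW : c ^ 2 < a * e - b ^ 2)
    (hB : 0 ≤ e * x * x + a * y * y - b * (x * y + y * x)) :
    c * (((c + e) * x - b * y) ^ 2 + ((c + a) * y - b * x) ^ 2) ≤
      ((c + a) * (c + e) - b ^ 2) * (e * x * x + a * y * y - b * (x * y + y * x)) := by
  have h1 := mul_nonneg (mul_nonneg hc.le (sub_nonneg.2 hW.le)) (add_nonneg (sq_nonneg x) (sq_nonneg y))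
  have h2 := mul_nonneg (sub_nonneg.2 hW.le) hB
  nlinarith

end A3bP

open A3bP in
theorem a3b_ok : StA3b := by
  obtain ⟨C, hC, H⟩ := sob
  refine ⟨2 * C, by positivity, fun d h v hv s A hA hI h0 => ?_⟩
  have hc := h.hc
  have npos : ∀ p, 0 < d.nn p := fun p => (h.Vpos p).trans_le (h.V_le_nn p)
  have hcs : HasCompactSupport fun x : E => v (s, x) := by
    obtain ⟨ρ, hρ⟩ := hv.supp |s|
    refine HasCompactSupport.intro (isCompact_closedBall (0 : E) ρ) fun x hx => hρ (s, x) le_rfl ?_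
    rw [mem_closedBall_zero_iff, not_le] at hx
    exact hx.le
  obtain ⟨F, h1, h2⟩ := H (NN d s) _ _ _ (fun x => v (s, x)) (NN_sm h s) (NN_der h s)
    (fun x => by rw [← h.nn_eq]; exact npos _) (NN_inj h s) (sm_sp hv.sm s) hcs
  simp only [fd_sp hv.sm, one_mul, zero_mul, add_zero, zero_add, ← h.nn_eq] at h1 h2
  have iB : Integrable fun x : E => BB d.u v v (s, x) :=
    (h.h2u.BB (hv.sy (-2)).h1 (hv.sy (-2)).h1).ig (by norm_num) s
  have hF : ∀ x, F x ^ 2 ≤ d.nn (s, x) * (2 / d.c * BB d.u v v (s, x)) := fun x => by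
    have hB := h.BB_nonneg v (s, x)
    rw [h.nn_eq]
    simp only [BB, BBv, Pi.add_apply, Pi.sub_apply, Pi.mul_apply] at hB ⊢
    have h3 := alg hc (W_gt h (s, x)) hB
    refine (h2 x).trans ?_
    rw [mul_left_comm, div_mul_eq_mul_div, le_div_iff₀ hc]
    linarith
  have hz : ∀ x, x ∉ A → F x = 0 := fun x hx => by
    have h3 := h0 x hx
    rw [gr_apply] at h3
    have h4 : D e1 v (s, x) = 0 := by nlinarith [sq_nonneg (D e1 v (s, x)), sq_nonneg (D e2 v (s, x))]
    have h5 : D e2 v (s, x) = 0 := by nlinarith [sq_nonneg (D e1 v (s, x)), sq_nonneg (D e2 v (s, x))]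
    have h6 := h2 x
    rw [h4, h5] at h6
    simpa using h6
  have B0 : ∀ x : E, 0 ≤ 2 / d.c * BB d.u v v (s, x) := fun x =>
    mul_nonneg (by positivity) (h.BB_nonneg v _)
  have cs := cs_int (μ := volume.restrict A) hI (iB.const_mul (2 / d.c)).integrableOn
    (fun x => (npos _).le) B0 hF
  rw [setIntegral_eq_integral_of_forall_compl_eq_zero hz] at cs
  have n0 : 0 ≤ ∫ x in A, d.nn (s, x) := integral_nonneg fun x => (npos _).le
  have b0 : 0 ≤ ∫ x in A, 2 / d.c * BB d.u v v (s, x) := integral_nonneg B0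
  have b1 : ∫ x in A, 2 / d.c * BB d.u v v (s, x) ≤ 2 / d.c * In (BB d.u v v) s := by
    rw [In, ← integral_const_mul]
    exact setIntegral_le_integral (iB.const_mul _) (Eventually.of_forall B0)
  have cs2 : (∫ x, F x) ^ 2 ≤ (∫ x in A, d.nn (s, x)) * (2 / d.c * In (BB d.u v v) s) := by
    have h3 := pow_le_pow_left₀ (abs_nonneg _) cs 2
    rw [sq_abs, mul_pow, Real.sq_sqrt n0, Real.sq_sqrt b0] at h3
    exact h3.trans (mul_le_mul_of_nonneg_left b1 n0)
  have e1 : In (v * v * d.nn) s = ∫ x : E, v (s, x) ^ 2 * d.nn (s, x) := by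
    simp only [In, Pi.mul_apply, sq]
  rw [e1]
  calc _ ≤ d.c * (C * ((∫ x in A, d.nn (s, x)) * (2 / d.c * In (BB d.u v v) s))) := by
        gcongr
        exact h1.trans (mul_le_mul_of_nonneg_left cs2 hC.le)
    _ = _ := by field_simp

end Pool.Agent.P.MP_2cea5e_gt.Se
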