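import Pool.Agent.P.MP_2cea5e_gt.Se.Api

/-!
Package A3c.
-/

open scoped ContDiff Topology ENNReal
open MeasureTheory Set Filter

noncomputable section

namespace Pool.Agent.P.MP_2cea5e_gt.Se

namespace A3cP

/-- The iteration on level sets. -/
theorem iter {μ : ℝ → ℝ} {k0 M B : ℝ} (hB : 0 ≤ B) (h0 : ∀ k, k0 ≤ k → 0 ≤ μ k)
    (hM : μ k0 ≤ M) (anti : ∀ k k', k0 ≤ k → k ≤ k' → μ k' ≤ μ k)
    (step : ∀ k δ, k0 ≤ k → 0 < δ → δ ^ 2 * μ (k + 2 * δ) ≤ B * μ k ^ 2) :
    μ (k0 + 4 * (4 * B * M + 1)) ≤ 0 := by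
  have M0 : 0 ≤ M := (h0 k0 le_rfl).trans hM
  obtain ⟨e, he⟩ : ∃ e, e = 4 * B * M + 1 := ⟨_, rfl⟩
  rw [← he]
  have BM : 0 ≤ B * M := mul_nonneg hB M0
  have e1 : 1 ≤ e := by rw [he]; nlinarith
  have e2 : 4 * (B * M) ≤ e ^ 2 := by nlinarith
  have key : ∀ j : ℕ, μ (k0 + 4 * e * (1 - (1 / 2) ^ j)) ≤ M * ((1 / 2) ^ j) ^ 2 := by
    intro j
    induction j with
    | zero => simpa using hM
    | succ j ih =>
      obtain ⟨t, ht⟩ : ∃ t : ℝ, t = (1 / 2) ^ j := ⟨_, rfl⟩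
      have t0 : 0 < t := by rw [ht]; positivity
      have t1 : t ≤ 1 := by rw [ht]; exact pow_le_one₀ (by norm_num) (by norm_num)
      rw [pow_succ, ← ht]
      rw [← ht] at ih
      have hk : k0 ≤ k0 + 4 * e * (1 - t) := by nlinarith
      have s1 := step (k0 + 4 * e * (1 - t)) (e * t) hk (by positivity)
      have q : k0 + 4 * e * (1 - t) + 2 * (e * t) = k0 + 4 * e * (1 - t * (1 / 2)) := by ring
      rw [q] at s1
      have s2 : μ (k0 + 4 * e * (1 - t)) ^ 2 ≤ (M * t ^ 2) ^ 2 :=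
        pow_le_pow_left₀ (h0 _ hk) ih 2
      have s3 : B * (M * t ^ 2) ^ 2 ≤ (e * t) ^ 2 * (M * (t * (1 / 2)) ^ 2) := by
        have : 0 ≤ (e ^ 2 - 4 * (B * M)) * (M * t ^ 4) :=
          mul_nonneg (sub_nonneg.2 e2) (by positivity)
        nlinarith
      have s4 := s1.trans ((mul_le_mul_of_nonneg_left s2 hB).trans s3)
      exact le_of_mul_le_mul_left s4 (by positivity)
  have lim : Tendsto (fun j : ℕ => M * (((1 : ℝ) / 2) ^ j) ^ 2) atTop (𝓝 (M * 0 ^ 2)) :=
    ((tendsto_pow_atTop_nhds_zero_of_lt_one (by norm_num) (by norm_num)).pow 2).const_mul M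
  have : μ (k0 + 4 * e) ≤ M * 0 ^ 2 := by
    refine ge_of_tendsto' lim fun j => le_trans (anti _ _ ?_ ?_) (key j)
    · have t1 : ((1 : ℝ) / 2) ^ j ≤ 1 := pow_le_one₀ (by norm_num) (by norm_num)
      nlinarith
    · have t0 : (0 : ℝ) ≤ (1 / 2) ^ j := by positivity
      nlinarith
  simpa using this

/-- The cut-off profile. -/
theorem exists_b : ∃ b : ℝ → ℝ, ContDiff ℝ ∞ b ∧ (∀ t, 0 ≤ deriv b t) ∧ (∀ t, deriv b t ≤ 1) ∧
    (∀ t, t ≤ 0 → deriv b t = 0) ∧ (∀ t, t ≤ 0 → b t = 0) ∧ (∀ t, 0 ≤ b t) ∧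
    ∀ t, 2 ≤ t → 1 ≤ b t := by
  have hc : Continuous Real.smoothTransition := Real.smoothTransition.continuous
  have hd : ∀ t, HasDerivAt (fun t => ∫ x in (0 : ℝ)..t, Real.smoothTransition x)
      (Real.smoothTransition t) t := fun t => (hc.integral_hasStrictDerivAt 0 t).hasDerivAt
  have hD : deriv (fun t => ∫ x in (0 : ℝ)..t, Real.smoothTransition x) =
      Real.smoothTransition := funext fun t => (hd t).deriv
  have hz : ∀ t, t ≤ 0 → ∫ x in (0 : ℝ)..t, Real.smoothTransition x = 0 := by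
    intro t ht
    have : ∫ x in (0 : ℝ)..t, Real.smoothTransition x = ∫ _ in (0 : ℝ)..t, (0 : ℝ) := by
      refine intervalIntegral.integral_congr fun x hx => ?_
      rw [uIcc_of_ge ht] at hx
      exact Real.smoothTransition.zero_of_nonpos hx.2
    simpa using this
  have hp : ∀ t, 0 ≤ ∫ x in (0 : ℝ)..t, Real.smoothTransition x := by
    intro t
    rcases le_total t 0 with ht | ht
    · exact (hz t ht).ge
    · exact intervalIntegral.integral_nonneg ht fun x _ => Real.smoothTransition.nonneg x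
  refine ⟨fun t => ∫ x in (0 : ℝ)..t, Real.smoothTransition x, ?_, ?_, ?_, ?_, hz, hp, ?_⟩
  · rw [contDiff_infty_iff_deriv, hD]
    exact ⟨fun t => (hd t).differentiableAt, Real.smoothTransition.contDiff⟩
  · intro t; rw [hD]; exact Real.smoothTransition.nonneg t
  · intro t; rw [hD]; exact Real.smoothTransition.le_one t
  · intro t ht; rw [hD]; exact Real.smoothTransition.zero_of_nonpos ht
  · intro t ht
    have h1 := intervalIntegral.integral_add_adjacent_intervals (μ := volume)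
      (hc.intervalIntegrable 0 1) (hc.intervalIntegrable 1 t)
    have h2 : ∫ x in (1 : ℝ)..t, Real.smoothTransition x = ∫ x in (1 : ℝ)..t, (1 : ℝ) := by
      refine intervalIntegral.integral_congr fun x hx => ?_
      rw [uIcc_of_le (by linarith)] at hx
      exact Real.smoothTransition.one_of_one_le hx.1
    have h3 := hp 1
    simp only [intervalIntegral.integral_const, smul_eq_mul, mul_one] at h2
    show 1 ≤ ∫ x in (0 : ℝ)..t, Real.smoothTransition x
    linarith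

variable {d : Dat}

theorem tS_pos (h : d.Met) (p : X) : 0 < d.tS p := by
  have := h.tS_gt p
  have := h.hc
  linarith

theorem smlt (h : d.Met) : Sm (Lg d.tS) := sm_Lg h.smtS fun p => (tS_pos h p).ne'

theorem h1lt (h : d.Met) : H1 (-1) (Lg d.tS) := by
  have s0 : Sy 0 d.tS := by
    rw [h.tS_eq]; exact (sy_K _).add (h.lpψ.mono (by norm_num))
  have si : Sy 0 (Iv d.tS) :=
    s0.iv fun M => ⟨2 * d.c, by have := h.hc; positivity, fun p _ => (h.tS_gt p).le⟩
  refine ⟨smlt h, ?_, ?_⟩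
  · rw [D_Lg _ h.smtS fun p => (tS_pos h p).ne']
    exact s0.D1.mul' si (by norm_num)
  · rw [D_Lg _ h.smtS fun p => (tS_pos h p).ne']
    exact s0.D2.mul' si (by norm_num)

theorem nn_val (h : d.Met) (p : X) : d.nn p = 4 * d.c ^ 2 + d.c * Lp d.ψ p + d.V p := by
  have h1 := congrFun d.W_eq p
  have h2 := congrFun h.tS_eq p
  simp only [Dat.nn, Pi.add_apply, Pi.mul_apply, K_apply] at h1 h2 ⊢
  rw [h1, h2]; ring

theorem nn_pos (h : d.Met) (p : X) : 0 < d.nn p := (h.Vpos p).trans_le (h.V_le_nn p)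

/-- The level sets. -/
def lev (d : Dat) (s k : ℝ) : Set (ℝ × ℝ) := {x | k < Lg d.tS (s, x)}

theorem lev_open (h : d.Met) (s k : ℝ) : IsOpen (lev d s k) :=
  isOpen_lt continuous_const ((smlt h).cont.comp (Continuous.prodMk_right s))

theorem lt_le (h : d.Met) {p : X} (hp : Lp d.ψ p ≤ 2 * d.c) :
    Lg d.tS p ≤ Real.log (4 * d.c) := by
  have h2 := congrFun h.tS_eq p
  simp only [Pi.add_apply, K_apply] at h2
  exact Real.log_le_log (tS_pos h p) (by linarith)

/-- The majorant of the density on the level sets. -/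
def maj (d : Dat) : Fx := K (3 * d.c) * Lp d.ψ + d.V

theorem ig_maj (h : d.Met) : Ig (maj d) :=
  ((h.lpψ.Kmul _).add h.syV).ig (by norm_num)

theorem In_maj (h : d.Met) (s : ℝ) : In (maj d) s = 16 * d.a * d.c * s0 := by
  rw [maj, In_add ((h.lpψ.Kmul _).ig (by norm_num)) (h.syV.ig (by norm_num)), In_Kmul, h.InLp,
    h.InV]
  ring

theorem maj_nonneg (h : d.Met) (p : X) : 0 ≤ maj d p := by
  have := h.hc
  have := h.Lp_pos p
  have := h.Vpos p
  simp only [maj, Pi.add_apply, Pi.mul_apply, K_apply]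
  positivity

theorem nn_le (h : d.Met) {s k : ℝ} (hk : Real.log (4 * d.c) ≤ k) {x : ℝ × ℝ}
    (hx : x ∈ lev d s k) : d.nn (s, x) ≤ maj d (s, x) := by
  have h1 : 2 * d.c < Lp d.ψ (s, x) := by
    by_contra hn
    exact absurd ((lt_le h (not_lt.1 hn)).trans hk) (not_le.2 hx)
  have := h.hc
  rw [nn_val h]
  simp only [maj, Pi.add_apply, Pi.mul_apply, K_apply]
  nlinarith

theorem int_nn (h : d.Met) (s : ℝ) {k : ℝ} (hk : Real.log (4 * d.c) ≤ k) :
    IntegrableOn (fun x => d.nn (s, x)) (lev d s k) := by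
  refine Integrable.mono' (ig_maj h s).integrableOn
    (h.smnn.cont.comp (Continuous.prodMk_right s)).aestronglyMeasurable ?_
  refine (ae_restrict_iff' (lev_open h s k).measurableSet).2 (Eventually.of_forall fun x hx => ?_)
  rw [Real.norm_eq_abs, abs_of_pos (nn_pos h _)]
  exact nn_le h hk hx

/-- The measure of the level sets. -/
def mu (d : Dat) (s k : ℝ) : ℝ := ∫ x in lev d s k, d.nn (s, x)

theorem mu_nonneg (h : d.Met) (s k : ℝ) : 0 ≤ mu d s k :=
  integral_nonneg fun _ => (nn_pos h _).le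

theorem mu_le (h : d.Met) (s : ℝ) {k : ℝ} (hk : Real.log (4 * d.c) ≤ k) :
    mu d s k ≤ 16 * d.a * d.c * s0 := by
  rw [← In_maj h s]
  refine le_trans (setIntegral_mono_on (int_nn h s hk) (ig_maj h s).integrableOn
    (lev_open h s k).measurableSet fun x hx => nn_le h hk hx) ?_
  exact setIntegral_le_integral (ig_maj h s) (Eventually.of_forall fun x => maj_nonneg h _)

theorem mu_anti (h : d.Met) (s : ℝ) {k k' : ℝ} (hk : Real.log (4 * d.c) ≤ k) (hk' : k ≤ k') :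
    mu d s k' ≤ mu d s k :=
  setIntegral_mono_set (int_nn h s hk) (Eventually.of_forall fun _ => (nn_pos h _).le)
    (Eventually.of_forall fun _ hx => lt_of_le_of_lt hk' hx)

theorem lev_empty (h : d.Met) (s : ℝ) {k : ℝ} (hk : Real.log (4 * d.c) ≤ k) (h0 : mu d s k ≤ 0)
    (x : ℝ × ℝ) : Lg d.tS (s, x) ≤ k := by
  by_contra hn
  have hx : x ∈ lev d s k := not_le.1 hn
  have h1 : 0 < mu d s k := by
    rw [mu, setIntegral_pos_iff_support_of_nonneg_ae
      (Eventually.of_forall fun _ => (nn_pos h _).le) (int_nn h s hk)]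
    have : (Function.support fun x => d.nn (s, x)) ∩ lev d s k = lev d s k :=
      inter_eq_right.2 fun y _ => (nn_pos h _).ne'
    rw [this]
    exact (lev_open h s k).measure_pos _ ⟨x, hx⟩
  linarith

theorem far (h : d.Met) (M : ℝ) :
    ∃ ρ : ℝ, ∀ p : X, |p.1| ≤ M → ρ ≤ ‖p.2‖ → Lp d.ψ p ≤ 2 * d.c := by
  obtain ⟨C, hC⟩ := h.lpψ.oo M
  have hc := h.hc
  refine ⟨|C| / (2 * d.c), fun p hp hρ => ?_⟩
  have h1 := (le_abs_self _).trans (hC p hp)
  rw [← sg_eq, sg_apply] at h1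
  have h2 := one_le_rr p
  have h3 : ‖p.2‖ ≤ rr p := by
    have := norm_sq_le p
    rw [rr_apply]; nlinarith [sq_nonneg (‖p.2‖ - 1)]
  have h4 : |C| ≤ 2 * d.c * rr p ^ 2 := by
    rw [div_le_iff₀ (by positivity)] at hρ
    have : ‖p.2‖ ≤ rr p ^ 2 := by nlinarith
    nlinarith
  refine h1.trans ?_
  rw [← div_eq_mul_inv, div_le_iff₀ (by positivity)]
  exact (le_abs_self C).trans h4

/-- The pointwise inequality. -/
theorem ptw (h2 : StA2) (ha : StA3a) (h : d.Met) (p : X) {v m : ℝ} (hv : 0 ≤ v) (hm : 0 < m) :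
    -(v * DD d.u (Lg d.tS) p) ≤ m * d.GG p + 1 / (2 * m) * (v * v * d.nn p) := by
  have t0 := tS_pos h p
  have V0 := h.Vpos p
  have a1 := ha d h p
  obtain ⟨G0, a2⟩ := (h2 d h).2.2 p
  have a3 := Lp_sq h.smL p
  have a4 := hs_nonneg d.L p
  have a5 : d.V p ≤ W d.u p := by
    have h1 := congrFun d.W_eq p
    simp only [Pi.add_apply, K_apply] at h1
    nlinarith [mul_self_nonneg d.c]
  have a6 := h.V_le_nn p
  obtain ⟨y, hy⟩ : ∃ y, Lp d.L p = d.tS p * y := ⟨Lp d.L p / d.tS p, by field_simp⟩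
  rw [hy] at a1 a3
  have b1 : d.V p * y ≤ DD d.u (Lg d.tS) p :=
    le_of_mul_le_mul_left (by nlinarith) t0
  have b2 : d.V p * y ^ 2 ≤ 2 * d.GG p := by
    refine le_of_mul_le_mul_left (a := d.tS p ^ 2) ?_ (by positivity)
    have c1 := mul_le_mul_of_nonneg_right a3 V0.le
    have c2 := mul_le_mul_of_nonneg_left a5 a4
    nlinarith
  have b3 : -(v * y) ≤ m * y ^ 2 / 2 + 1 / (2 * m) * (v * v) := by
    have : m * y ^ 2 / 2 + 1 / (2 * m) * (v * v) + v * y = (m * y + v) ^ 2 / (2 * m) := by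
      field_simp; ring
    have : 0 ≤ (m * y + v) ^ 2 / (2 * m) := by positivity
    linarith
  have b4 := mul_le_mul_of_nonneg_left b1 hv
  have b5 := mul_le_mul_of_nonneg_left b3 V0.le
  have b6 := mul_le_mul_of_nonneg_left b2 hm.le
  have b7 : 1 / (2 * m) * (v * v) * d.V p ≤ 1 / (2 * m) * (v * v) * d.nn p :=
    mul_le_mul_of_nonneg_left a6 (by positivity)
  nlinarith

theorem step (h2 : StA2) (ha : StA3a) (h : d.Met) {C : ℝ} (hC : 0 < C)
    (hb : ∀ v, Cs2 v → ∀ (s : ℝ) (A : Set (ℝ × ℝ)),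
      MeasurableSet A → IntegrableOn (fun x => d.nn (s, x)) A → (∀ x, x ∉ A → gr v (s, x) = 0) →
      d.c * In (v * v * d.nn) s ≤ C * (∫ x in A, d.nn (s, x)) * In (BB d.u v v) s)
    {s B k δ : ℝ} (hB : d.Ca s ≤ B) (hk : Real.log (4 * d.c) ≤ k) (hδ : 0 < δ) :
    δ ^ 2 * mu d s (k + 2 * δ) ≤ 2 * C ^ 2 * B / d.c ^ 2 * mu d s k ^ 2 := by
  obtain ⟨b, bs, b0, b1, bz, bz', bp, b2⟩ := exists_b
  have hc := h.hc
  have sl := smlt h
  obtain ⟨g, hg⟩ : ∃ g : Fx, g = K (1 / δ) * (Lg d.tS - K k) := ⟨_, rfl⟩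
  have sg' : Sm g := by rw [hg]; exact sm_mul (sm_K _) (sm_sub sl (sm_K _))
  have gv : ∀ p, g p = (Lg d.tS p - k) / δ := by
    intro p; rw [hg]; simp only [Pi.mul_apply, Pi.sub_apply, K_apply]; ring
  obtain ⟨v, hv⟩ : ∃ v : Fx, v = K δ * (b ∘ g) := ⟨_, rfl⟩
  have sv : Sm v := by rw [hv]; exact sm_mul (sm_K _) (bs.comp sg')
  have vv : ∀ p, v p = δ * b (g p) := by intro p; rw [hv]; rfl
  have Dv : ∀ (e : X) p, D e v p = deriv b (g p) * D e (Lg d.tS) p := by
    intro e p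
    rw [hv, D_Kmul _ _ (bs.comp sg'), D_comp _ sg' bs]
    have : D e g = K (1 / δ) * D e (Lg d.tS) := by
      rw [hg, D_Kmul _ _ (sm_sub sl (sm_K _)), D_sub _ sl (sm_K _), D_K, sub_zero]
    rw [this]
    simp only [Pi.mul_apply, K_apply, Function.comp_apply]
    field_simp
  have gn : ∀ p, Lg d.tS p ≤ k → g p ≤ 0 := fun p hp => by
    rw [gv]; exact div_nonpos_of_nonpos_of_nonneg (sub_nonpos.2 hp) hδ.le
  have v0 : ∀ p, 0 ≤ v p := fun p => by rw [vv]; exact mul_nonneg hδ.le (bp _)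
  have cv : Cs2 v := by
    refine ⟨sv, fun M => ?_⟩
    obtain ⟨ρ, hρ⟩ := far h M
    refine ⟨ρ, fun p hp hp' => ?_⟩
    rw [vv, bz' _ (gn p ((lt_le h (hρ p hp hp')).trans hk)), mul_zero]
  have gz : ∀ x, x ∉ lev d s k → gr v (s, x) = 0 := by
    intro x hx
    rw [gr_apply, Dv, Dv, bz _ (gn _ (not_lt.1 hx))]
    ring
  have main := hb v cv s _ (lev_open h s k).measurableSet (int_nn h s hk) gz
  change _ ≤ C * mu d s k * _ at main
  have igI : Ig (v * v * d.nn) := (((cv.mul sv).mul h.smnn).sy (-3)).ig le_rfl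
  have hv1 : H1 (-3) v := (cv.sy (-2)).h1.mono (by norm_num)
  have J1 : In (BB d.u v v) s ≤ In (BB d.u (Lg d.tS) v) s := by
    refine In_mono ((h.h2u.BB hv1 hv1).ig (by norm_num))
      ((h.h2u.BB (h1lt h) hv1).ig (by norm_num)) fun x => ?_
    have e0 := h.BB_nonneg (Lg d.tS) (s, x)
    have e1 : BB d.u v v (s, x) =
        deriv b (g (s, x)) ^ 2 * BB d.u (Lg d.tS) (Lg d.tS) (s, x) := by
      simp only [BB, BBv, Pi.add_apply, Pi.sub_apply, Pi.mul_apply, Dv]; ring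
    have e2 : BB d.u (Lg d.tS) v (s, x) =
        deriv b (g (s, x)) * BB d.u (Lg d.tS) (Lg d.tS) (s, x) := by
      simp only [BB, BBv, Pi.add_apply, Pi.sub_apply, Pi.mul_apply, Dv]; ring
    rw [e1, e2]
    have := b0 (g (s, x))
    have := b1 (g (s, x))
    exact mul_le_mul_of_nonneg_right (by nlinarith) e0
  have J2 := ibp_DD h.h2u (h1lt h) (cv.sy (-3)) (by norm_num) s
  have igD : Ig (v * DD d.u (Lg d.tS)) :=
    ((cv.mul (h.h2u.DD (h1lt h).h2).sm).sy (-3)).ig le_rfl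
  obtain ⟨igG, GC, -⟩ := h2 d h
  have J3 : ∀ m, 0 < m → In (BB d.u v v) s ≤ m * B + 1 / (2 * m) * In (v * v * d.nn) s := by
    intro m hm
    have e1 : In (-(v * DD d.u (Lg d.tS))) s ≤
        In (K m * d.GG + K (1 / (2 * m)) * (v * v * d.nn)) s :=
      In_mono igD.neg ((igG.Kmul _).add (igI.Kmul _)) fun x => ptw h2 ha h (s, x) (v0 _) hm
    rw [In_neg, In_add (igG.Kmul _) (igI.Kmul _), In_Kmul, In_Kmul] at e1
    have := mul_le_mul_of_nonneg_left ((GC s).trans hB) hm.le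
    linarith
  have low : δ ^ 2 * mu d s (k + 2 * δ) ≤ In (v * v * d.nn) s := by
    have hk2 : Real.log (4 * d.c) ≤ k + 2 * δ := by linarith
    rw [mu, ← integral_const_mul]
    refine le_trans (setIntegral_mono_on ((int_nn h s hk2).const_mul _) (igI s).integrableOn
      (lev_open h s _).measurableSet fun x hx => ?_)
      (setIntegral_le_integral (igI s) (Eventually.of_forall fun x => ?_))
    · have e1 : 2 ≤ g (s, x) := by
        rw [gv, le_div_iff₀ hδ]
        have : k + 2 * δ < Lg d.tS (s, x) := hx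
        linarith
      have e2 : δ ≤ v (s, x) := by
        rw [vv]; exact le_mul_of_one_le_right hδ.le (b2 _ e1)
      simp only [Pi.mul_apply]
      exact mul_le_mul_of_nonneg_right (by nlinarith) (nn_pos h _).le
    · exact mul_nonneg (mul_self_nonneg _) (nn_pos h _).le
  refine low.trans ?_
  rcases (mu_nonneg h s k).eq_or_lt with hz | hz
  · rw [← hz] at main ⊢
    have : d.c * In (v * v * d.nn) s ≤ d.c * 0 := by simpa using main
    simpa using le_of_mul_le_mul_left this hc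
  · have e1 := mul_le_mul_of_nonneg_left (J3 (C * mu d s k / d.c) (by positivity))
      (mul_pos hC hz).le
    have e2 : C * mu d s k * (C * mu d s k / d.c * B +
        1 / (2 * (C * mu d s k / d.c)) * In (v * v * d.nn) s) =
        d.c * (2 * C ^ 2 * B / d.c ^ 2 * mu d s k ^ 2) / 2 + d.c * In (v * v * d.nn) s / 2 := by
      field_simp
    rw [e2] at e1
    refine le_of_mul_le_mul_left ?_ hc
    linarith

end A3cP

theorem a3c_ok (h2 : StA2) (ha : StA3a) (hb : StA3b) : StA3c := by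
  intro d h hU
  obtain ⟨B, hB⟩ := hU
  obtain ⟨C, hC, hb⟩ := hb
  have B0 : 0 ≤ B := (h.Ca_nonneg 0).trans (hB 0 le_rfl)
  refine ⟨Real.exp (Real.log (4 * d.c) +
    4 * (4 * (2 * C ^ 2 * B / d.c ^ 2) * (16 * d.a * d.c * s0) + 1)), fun p hp => ?_⟩
  have hM := A3cP.mu_le h p.1 le_rfl
  have M0 := (A3cP.mu_nonneg h p.1 _).trans hM
  have B1 : 0 ≤ 2 * C ^ 2 * B / d.c ^ 2 := by positivity
  have i := A3cP.iter (μ := A3cP.mu d p.1) B1 (fun k _ => A3cP.mu_nonneg h p.1 k) hM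
    (fun k k' hk hk' => A3cP.mu_anti h p.1 hk hk')
    (fun k δ hk hδ => A3cP.step h2 ha h hC (hb d h) (hB p.1 hp) hk hδ)
  have e := A3cP.lev_empty h p.1 (by have := mul_nonneg B1 M0; nlinarith) i p.2
  rw [abs_of_pos (A3cP.tS_pos h p), ← Real.log_le_iff_le_exp (A3cP.tS_pos h p)]
  exact e

end Pool.Agent.P.MP_2cea5e_gt.Se
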