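import Pool.Agent.P.MP_2cea5e_gt.Se.Api

/-!
Package A4a: the energy `En` and the bound of the gradient of the volume ratio.
-/

open scoped ContDiff Topology ENNReal
open MeasureTheory Set Filter

noncomputable section

namespace Pool.Agent.P.MP_2cea5e_gt.Se

namespace A4aP

variable {d : Dat}

theorem DD_zero (f : Fx) : DD f 0 = 0 := by
  funext p
  simp only [DD, DDv, D_zero, Pi.add_apply, Pi.sub_apply, Pi.mul_apply, Pi.zero_apply, K_apply]
  ring

theorem h2el : H2 (-2) el := h1_el.h2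

theorem h2s {f : Fx} (hf : Sph f) : H2 (-3) f := hf.h1.h2

theorem syDDel (h : d.Met) : Sy (-4) (DD d.u el) :=
  h.syDD h1_el (by rw [Lp_el]; exact sy_sg.Kmul 4)

theorem igBB {f g k : Fx} {a : ℤ} (hf : H2 a f) (ha : a ≤ 0) (hg : Sph g) (hk : Sph k) :
    Ig (BB f g k) := (hf.BB hg.h1 hk.h1).ig (by omega)

theorem iggr {f : Fx} (hf : Sph f) : Ig (gr f) := hf.h1.gr.ig (by omega)

theorem syE (h : d.Met) : Sy (-4) (K (1 / 2) * BB d.u d.w d.w + K 2 * (DD d.u el * d.w)) :=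
  (((h.h2u.BB h.wS.h1 h.wS.h1).mono (by omega)).Kmul _).add
    (((syDDel h).mul' h.wS.sy (by omega)).Kmul _)

theorem dE (h : d.Flo) :
    D e0 (K (1 / 2) * BB d.u d.w d.w + K 2 * (DD d.u el * d.w)) =
      Tm d.τ * (K (1 / 2) * BB d.R d.w d.w + BB d.u d.w (DD d.u d.R * Iv d.V) +
        (K 2 * (d.w * DD el d.R) + K 2 * (DD d.u d.R * Iv d.V * DD d.u el))) := by
  have hM := h.toMet
  have hu := hM.smu
  have hw := hM.smw
  have hR := hM.smR
  have hg := h.sphw.sm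
  have hτ := h.clk.sm
  rw [D_add _ (sm_mul (sm_K _) (sm_BB hu hw hw)) (sm_mul (sm_K _) (sm_mul (sm_DD hu sm_el) hw)),
    D_Kmul _ _ (sm_BB hu hw hw), D_Kmul _ _ (sm_mul (sm_DD hu sm_el) hw),
    D_mul _ (sm_DD hu sm_el) hw, D0_BB hu hw hw, D0_DD hu sm_el, D0_el, DD_zero, h.du, h.dw,
    BB_comm d.u (Tm d.τ * (DD d.u d.R * Iv d.V)) d.w, BB_Tm hτ hR, BB_Tm' hτ _ _ hg,
    DD_Tm hτ hR, DD_comm d.R el]
  funext p
  simp only [Pi.add_apply, Pi.mul_apply, Pi.zero_apply, K_apply]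
  ring

theorem i1 (h : d.Met) (s : ℝ) : In (BB d.R d.w d.w) s = -2 * In (d.R * W d.w) s := by
  have a1 := ibp_DD (h2s h.RS) h.wS.h1 h.wS.sy (by omega) s
  have a2 := ibp_DD (h2s h.wS) h.RS.h1 h.wS.sy (by omega) s
  have a3 := ibp_DD (h2s h.wS) h.wS.h1 h.RS.sy (by omega) s
  rw [DD_comm d.R d.w, a2, BB_comm d.w d.R d.w] at a1
  have e : d.R * DD d.w d.w = K 2 * (d.R * W d.w) := by
    rw [DD_self]
    funext p
    simp only [Pi.mul_apply, K_apply]
    ring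
  rw [e, In_Kmul] at a3
  linarith

theorem i2 (h : d.Flo) (s : ℝ) : In (BB d.u d.w (DD d.u d.R * Iv d.V)) s +
    2 * In (DD d.u d.R * Iv d.V * DD d.u el) s = -In (BB d.u d.R d.R) s := by
  have hM := h.toMet
  have a1 := ibp_DD hM.h2u hM.wS.h1 h.sphw.sy (by omega) s
  have a2 := ibp_DD hM.h2u hM.RS.h1 hM.RS.sy (by omega) s
  have e0 : DD d.u d.w = -(d.R * d.V) + K 2 * DD d.u el := by
    rw [hM.hR, neg_neg, ← DD_Kmul _ _ sm_el, ← DD_add _ hM.smL (sm_mul (sm_K _) sm_el), ← d.w_eq]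
  have e : DD d.u d.R * Iv d.V * DD d.u d.w =
      K 2 * (DD d.u d.R * Iv d.V * DD d.u el) - d.R * DD d.u d.R := by
    rw [e0]
    funext p
    have := (hM.Vpos p).ne'
    simp only [Pi.add_apply, Pi.sub_apply, Pi.mul_apply, Pi.neg_apply, K_apply, Iv_apply]
    field_simp
    ring
  rw [e, In_sub (((h.sphw.sy.mul (syDDel hM)).ig (by omega)).Kmul 2)
    ((hM.RS.sy.mul (hM.syDDs hM.RS)).ig (by omega)), In_Kmul] at a1
  linarith

theorem hasE (h : d.Flo) (s : ℝ) : HasDerivAt d.En (d.τ s *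
    (-In (BB d.u d.R d.R) s - In (d.R * W d.w) s - 2 * In (BB el d.R d.w) s)) s := by
  have hM := h.toMet
  have H := (syE hM).hasDerivAt (by omega) s
  have g1 := (igBB (h2s hM.RS) (by omega) hM.wS hM.wS).Kmul (1 / 2)
  have g2 := igBB hM.h2u le_rfl hM.wS h.sphw
  have g3 := ((hM.wS.sy.mul (h2el.DD (h2s hM.RS))).ig (by omega)).Kmul 2
  have g4 := ((h.sphw.sy.mul (syDDel hM)).ig (by omega)).Kmul 2
  rw [dE h, In_Tm, In_add (g1.add g2) (g3.add g4), In_add g1 g2, In_add g3 g4, In_Kmul, In_Kmul,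
    In_Kmul, i1 hM, ibp_DD h2el hM.RS.h1 hM.wS.sy (by omega) s] at H
  have e := i2 h s
  refine HasDerivAt.congr_deriv H ?_
  congr 1
  linarith

theorem amgm {a b x m : ℝ} (ha : 0 ≤ a) (hb : 0 ≤ b) (hm : 0 < m) (h : x ^ 2 ≤ a * b) :
    2 * |x| ≤ m * a + b / m := by
  have h1 : 0 ≤ m * a + b / m := by positivity
  have h2 : (2 * |x|) ^ 2 ≤ (m * a + b / m) ^ 2 := by
    have e : (m * a + b / m) ^ 2 = (m * a - b / m) ^ 2 + 4 * (a * b) := by
      field_simp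
      ring
    rw [e, mul_pow, sq_abs]
    nlinarith [sq_nonneg (m * a - b / m)]
  exact (abs_le_of_sq_le_sq' h2 h1).2

theorem estB (h : d.Met) {m : ℝ} (hm : 0 < m) (s : ℝ) :
    -(2 * In (BB el d.R d.w) s) ≤ m * In (gr d.R) s + 8 / m * In (gr d.w) s := by
  have g1 := (iggr h.RS).Kmul m
  have g2 := (iggr h.wS).Kmul (8 / m)
  rw [← In_Kmul, ← In_Kmul, ← In_Kmul, ← In_neg, ← In_add g1 g2]
  refine In_mono ((igBB h2el (by omega) h.RS h.wS).Kmul 2).neg (g1.add g2) fun x => ?_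
  have b1 := BB_sq sm_el d.R d.w (s, x)
  have b2 := hs_el_le (s, x)
  have b3 := sg_le (s, x)
  have b4 := gr_nonneg d.R (s, x)
  have b5 := gr_nonneg d.w (s, x)
  have b6 : BB el d.R d.w (s, x) ^ 2 ≤ gr d.R (s, x) * (8 * gr d.w (s, x)) := by
    have : hs el (s, x) ≤ 8 := by linarith
    nlinarith [mul_nonneg b4 b5]
  have b7 := amgm b4 (by positivity) hm b6
  have b8 := neg_abs_le (BB el d.R d.w (s, x))
  simp only [Pi.add_apply, Pi.mul_apply, Pi.neg_apply, K_apply]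
  have e : 8 / m * gr d.w (s, x) = 8 * gr d.w (s, x) / m := by ring
  rw [e]
  linarith

theorem gr_le_hs (h : d.Met) (s : ℝ) :
    In (gr (D e1 d.w)) s ≤ In (hs d.w) s ∧ In (gr (D e2 d.w)) s ≤ In (hs d.w) s := by
  have g0 : Ig (hs d.w) := (h2s h.wS).hs.ig (by omega)
  refine ⟨In_mono (iggr h.wS.D1) g0 fun x => ?_, In_mono (iggr h.wS.D2) g0 fun x => ?_⟩
  · have := gr_nonneg (D e2 d.w) (s, x)
    simp only [hs, Pi.add_apply]
    linarith
  · have := gr_nonneg (D e1 d.w) (s, x)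
    simp only [hs, Pi.add_apply]
    linarith

theorem hasJ (h : d.Flo) (s : ℝ) : HasDerivAt d.jj (d.τ s * (2 * In (ip2 d.φ d.R) s)) s := by
  have hM := h.toMet
  have H := hM.φS.h1.gr.hasDerivAt (by omega) s
  have e : D e0 (gr d.φ) = Tm d.τ * (K 2 * ip2 d.φ d.R) := by
    rw [gr, D0_ip2 hM.smφ hM.smφ, h.dφ, ip2_comm (Tm d.τ * d.R), ip2_Tm h.clk.sm _ hM.smR]
    funext p
    simp only [Pi.add_apply, Pi.mul_apply, K_apply]
    ring
  rw [e, In_Tm, In_Kmul] at H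
  exact H

theorem estJ (h : d.Met) {m : ℝ} (hm : 0 < m) (s : ℝ) :
    2 * In (ip2 d.φ d.R) s ≤ m * In (gr d.R) s + 1 / m * d.jj s := by
  have g1 := (iggr h.RS).Kmul m
  have g2 := (iggr h.φS).Kmul (1 / m)
  rw [Dat.jj, ← In_Kmul, ← In_Kmul, ← In_Kmul, ← In_add g1 g2]
  refine In_mono (((h.φS.h1.ip2 h.RS.h1).ig (by omega)).Kmul 2) (g1.add g2) fun x => ?_
  have b1 := ip2_sq d.φ d.R (s, x)
  rw [mul_comm] at b1
  have b7 := amgm (gr_nonneg d.R (s, x)) (gr_nonneg d.φ (s, x)) hm b1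
  have b8 := le_abs_self (ip2 d.φ d.R (s, x))
  simp only [Pi.add_apply, Pi.mul_apply, K_apply]
  have e : 1 / m * gr d.φ (s, x) = gr d.φ (s, x) / m := by ring
  rw [e]
  linarith

theorem sgw_le (h : d.Met) (s : ℝ) : In (sg * d.w) s ≤ 4 * d.a * d.c * s0 := by
  rw [← h.InV s]
  refine In_mono ((sy_sg.mul h.wS.sy).ig (by omega)) (h.syV.ig (by omega)) fun x => ?_
  rw [h.hV]
  simp only [Pi.mul_apply, Ex_apply]
  refine mul_le_mul_of_nonneg_left ?_ (sg_pos _).le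
  linarith [Real.add_one_le_exp (d.w (s, x))]

end A4aP

open A4aP

theorem a4a_ok (h : StW) : StA4a := by
  intro d hF H
  have hM := hF.toMet
  obtain ⟨l, hl, hlow⟩ := H.low
  obtain ⟨A, hA⟩ := H.hw
  obtain ⟨C, hC⟩ := h A
  refine ⟨l / 2, C ^ 2 / l + 32 / l, by positivity, by positivity, fun s hs => ⟨_, hasE hF s, ?_⟩⟩
  refine mul_le_mul_of_nonneg_left ?_ (hF.clk.pos s).le
  have b1 : l * In (gr d.R) s ≤ In (BB d.u d.R d.R) s := by
    rw [← In_Kmul]
    exact In_mono ((iggr hM.RS).Kmul l) (igBB hM.h2u le_rfl hM.RS hM.RS) fun x =>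
      hlow d.R (s, x) hs
  have b2 := hC d.R (D e1 d.w) (D e2 d.w) s hM.RS.sy hM.RS.h1 hM.wS.h1.d1 hM.wS.h1.d2
    ((gr_le_hs hM s).1.trans (hA s hs)) ((gr_le_hs hM s).2.trans (hA s hs))
  rw [← W_eq_Jc hM.smw] at b2
  have b3 := estB hM (m := l / 4) (by positivity) s
  have hX : 0 ≤ In (gr d.R) s := In_nonneg fun x => gr_nonneg _ _
  have hY : 0 ≤ In (gr d.w) s := In_nonneg fun x => gr_nonneg _ _
  have b4 := amgm (x := C * √(In (gr d.R) s)) hX (sq_nonneg C) (m := l / 2) (by positivity)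
    (by rw [mul_pow, Real.sq_sqrt hX, mul_comm])
  have b5 := le_abs_self (C * √(In (gr d.R) s))
  have b6 := neg_abs_le (In (d.R * W d.w) s)
  have e1 : C ^ 2 / (l / 2) = 2 * (C ^ 2 / l) := by field_simp
  have e2 : 8 / (l / 4) = 32 / l := by field_simp; norm_num
  rw [e1] at b4
  rw [e2] at b3
  have p1 : 0 ≤ C ^ 2 / l := by positivity
  have p2 : 0 ≤ 32 / l := by positivity
  nlinarith [mul_nonneg p1 hY]

theorem a4c_ok (ha : StA4a) (hb : StA4b) : StA4c := by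
  intro d hF H
  have hM := hF.toMet
  obtain ⟨l1, C1, hl1, hC1, h1⟩ := ha d hF H
  obtain ⟨l2, C2, hl2, hC2, h2⟩ := hb d hM H
  have hG : ∀ s, 0 ≤ In (gr d.w) s := fun s => In_nonneg fun x => gr_nonneg _ _
  have hJ : ∀ s, 0 ≤ d.jj s := fun s => In_nonneg fun x => gr_nonneg _ _
  set k := 1 / (2 * C2) with hk
  have hk0 : 0 < k := by positivity
  have hkC : k * C2 = 1 / 2 := by rw [hk]; field_simp
  have low : ∀ s, 0 ≤ s →
      (1 + d.jj s) / 2 + k * l2 * In (gr d.w) s ≤ 1 + d.jj s + k * d.En s := by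
    intro s hs
    have := mul_le_mul_of_nonneg_left (h2 s hs).1 hk0.le
    have e : k * (l2 * In (gr d.w) s - C2 * (1 + d.jj s)) =
        k * l2 * In (gr d.w) s - k * C2 * (1 + d.jj s) := by ring
    rw [e, hkC] at this
    linarith
  have hY : Ub fun s => 1 + d.jj s + k * d.En s := by
    refine hF.clk.gron (C := 2 * (1 / (k * l1)) + 2 * (k * C1) + C1 / l2) (by positivity)
      fun s hs => ?_
    obtain ⟨E', hE, hE'⟩ := h1 s hs
    refine ⟨_, ((hasJ hF s).const_add 1).add (hE.const_mul k), ?_⟩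
    have b1 := estJ hM (m := k * l1) (by positivity) s
    have b2 := mul_le_mul_of_nonneg_left hE' hk0.le
    have b3 := mul_le_mul_of_nonneg_left b1 (hF.clk.pos s).le
    have b4 := low s hs
    have g := hG s
    have j := hJ s
    have kg : 0 ≤ k * l2 * In (gr d.w) s := by positivity
    set Y := 1 + d.jj s + k * d.En s
    have c1 : 1 / (k * l1) * d.jj s ≤ 2 * (1 / (k * l1)) * Y := by
      have : d.jj s ≤ 2 * Y := by linarith
      have := mul_le_mul_of_nonneg_left this (show 0 ≤ 1 / (k * l1) by positivity)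
      linarith
    have c2 : k * C1 ≤ 2 * (k * C1) * Y := by
      have : 1 ≤ 2 * Y := by linarith
      have := mul_le_mul_of_nonneg_left this (show 0 ≤ k * C1 by positivity)
      linarith
    have c3 : k * C1 * In (gr d.w) s ≤ C1 / l2 * Y := by
      have : k * l2 * In (gr d.w) s ≤ Y := by linarith
      have := mul_le_mul_of_nonneg_left this (show 0 ≤ C1 / l2 by positivity)
      have e : C1 / l2 * (k * l2 * In (gr d.w) s) = k * C1 * In (gr d.w) s := by field_simp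
      linarith
    have c4 : 1 / (k * l1) * d.jj s + k * C1 + k * C1 * In (gr d.w) s ≤
        (2 * (1 / (k * l1)) + 2 * (k * C1) + C1 / l2) * Y := by linarith
    have c5 := mul_le_mul_of_nonneg_left c4 (hF.clk.pos s).le
    linarith
  obtain ⟨B, hB⟩ := hY
  have up : ∀ s, 0 ≤ s → In (gr d.w) s ≤ B / (k * l2) ∧ d.jj s ≤ 2 * B := by
    intro s hs
    have b1 := (low s hs).trans (hB s hs)
    have j := hJ s
    have g := hG s
    have kg : 0 ≤ k * l2 * In (gr d.w) s := by positivity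
    refine ⟨?_, by linarith⟩
    rw [le_div_iff₀ (by positivity)]
    linarith
  refine ⟨⟨_, fun s hs => (up s hs).1⟩,
    ⟨max (4 * d.a * d.c * s0) (C2 * (1 + B / (k * l2) + 2 * B)), fun s hs => ?_⟩⟩
  refine abs_le.2 ⟨?_, (sgw_le hM s).trans (le_max_left _ _)⟩
  have b1 := (h2 s hs).2
  have b2 : C2 * (1 + In (gr d.w) s + d.jj s) ≤ C2 * (1 + B / (k * l2) + 2 * B) :=
    mul_le_mul_of_nonneg_left (by linarith [(up s hs).1, (up s hs).2]) hC2.le
  linarith [le_max_right (4 * d.a * d.c * s0) (C2 * (1 + B / (k * l2) + 2 * B))]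

end Pool.Agent.P.MP_2cea5e_gt.Se
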