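import Pool.Agent.P.MP_2cea5e_gt.Se.Api

/-!
Package A4b.
-/

open scoped ContDiff Topology ENNReal
open MeasureTheory Set Filter

noncomputable section

namespace Pool.Agent.P.MP_2cea5e_gt.Se

namespace A4bP

theorem am {x y e : ℝ} (hx : 0 ≤ x) (hy : 0 ≤ y) (he : 0 < e) : √x * √y ≤ e * y + x / e := by
  have h1 := Real.mul_self_sqrt hx
  have h2 := Real.mul_self_sqrt hy
  set a := √x
  set b := √y
  rw [← h1, ← h2]
  have : e * (b * b) + a * a / e - a * b = ((e * b - a / 2) ^ 2 + 3 / 4 * a ^ 2) / e := by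
    field_simp; ring
  have h3 : 0 ≤ ((e * b - a / 2) ^ 2 + 3 / 4 * a ^ 2) / e := by positivity
  linarith

theorem BB_split (f g : Fx) {h k : Fx} (c : ℝ) (hh : Sm h) (hk : Sm k) :
    BB f (h + K c * k) g = BB f h g + K c * BB f k g := by
  have hk' : Sm (K c * k) := sm_mul (sm_K c) hk
  funext p
  simp only [BB, BBv, D_add _ hh hk', D_Kmul _ c hk, Pi.add_apply, Pi.sub_apply, Pi.mul_apply,
    K_apply]
  ring

theorem mul_exp_ge (x : ℝ) : -1 ≤ x * Real.exp x := by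
  have h := Real.add_one_le_exp (-x)
  have hp := Real.exp_pos x
  have h2 : Real.exp (-x) * Real.exp x = 1 := by rw [← Real.exp_add]; simp
  nlinarith [mul_le_mul_of_nonneg_right h hp.le]

variable {d : Dat}

theorem igw (h : d.Met) : Ig (gr d.w) := h.wS.h1.gr.ig (by norm_num)
theorem igφ (h : d.Met) : Ig (gr d.φ) := h.φS.h1.gr.ig (by norm_num)
theorem ighs (h : d.Met) : Ig (hs d.ψ) := h.h2ψ.hs.ig (by norm_num)
theorem igS (h : d.Met) : Ig (sg * d.w) := (sy_sg.mul h.wS.sy).ig (by norm_num)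

theorem wV_low (h : d.Met) (s : ℝ) : -s0 ≤ In (d.w * d.V) s := by
  rw [← In_sg s, ← In_neg]
  refine In_mono (sy_sg.ig (by norm_num)).neg ((h.wS.sy.mul h.syV).ig (by norm_num)) fun x => ?_
  rw [h.hV]
  simp only [Pi.neg_apply, Pi.mul_apply, Ex_apply]
  have h1 := mul_exp_ge (d.w (s, x))
  have h2 := sg_pos (s, x)
  nlinarith [mul_le_mul_of_nonneg_left h1 h2.le]

theorem wV_eq (h : d.Met) (s : ℝ) : In (d.w * d.V) s =
    -(d.c * In (ip2 d.φ d.w) s) + 4 * d.a * d.c * In (sg * d.w) s -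
      (In (BB d.ψ d.φ d.w) s + d.a * In (BB d.ψ el d.w) s) / 2 := by
  have hL : Lp d.ψ = Lp d.φ + K d.a * (K 4 * sg) := by
    conv_lhs => rw [d.ψ_eq]
    rw [Lp_add h.smφ (sm_mul (sm_K _) sm_el), Lp_Kmul _ sm_el, Lp_el]
  have e : d.w * d.V = K d.c * (d.w * Lp d.φ) + K (4 * d.a * d.c) * (sg * d.w) +
      K (1 / 2) * (d.w * DD d.ψ d.ψ) := by
    rw [h.V_eq, hL, DD_self]
    funext p
    simp only [Pi.add_apply, Pi.mul_apply, K_apply]
    ring
  have i1 : Ig (d.w * Lp d.φ) := (h.wS.sy.mul h.φS.lp).ig (by norm_num)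
  have i3 : Ig (d.w * DD d.ψ d.ψ) := (h.wS.sy.mul (h.h2ψ.DD h.h2ψ)).ig (by norm_num)
  have e2 := BB_split d.ψ d.w d.a h.smφ sm_el
  rw [← d.ψ_eq] at e2
  have i4 : Ig (BB d.ψ d.φ d.w) := (h.h2ψ.BB h.φS.h1 h.wS.h1).ig (by norm_num)
  have i5 : Ig (BB d.ψ el d.w) := (h.h2ψ.BB h1_el h.wS.h1).ig (by norm_num)
  rw [e, In_add ((i1.Kmul _).add ((igS h).Kmul _)) (i3.Kmul _), In_add (i1.Kmul _) ((igS h).Kmul _),
    In_Kmul, In_Kmul, In_Kmul, ibp_Lp h.φS.h1 h.wS.sy (by norm_num),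
    ibp_DD h.h2ψ h.h1ψ h.wS.sy (by norm_num), e2, In_add i4 (i5.Kmul _), In_Kmul]
  ring

theorem En_eq (h : d.Met) (s : ℝ) : d.En s = 1 / 2 * In (BB d.u d.w d.w) s +
    8 * d.c * In (sg * d.w) s - 2 * In (BB d.ψ el d.w) s := by
  have e : K (1 / 2) * BB d.u d.w d.w + K 2 * (DD d.u el * d.w) =
      K (1 / 2) * BB d.u d.w d.w + K (8 * d.c) * (sg * d.w) + K 2 * (d.w * DD d.ψ el) := by
    rw [h.DD_el]
    funext p
    simp only [Pi.add_apply, Pi.mul_apply, K_apply]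
    ring
  have i1 : Ig (BB d.u d.w d.w) := (h.h2u.BB h.wS.h1 h.wS.h1).ig (by norm_num)
  have i3 : Ig (d.w * DD d.ψ el) := (h.wS.sy.mul (h.h2ψ.DD h1_el.h2)).ig (by norm_num)
  unfold Dat.En
  rw [e, In_add ((i1.Kmul _).add ((igS h).Kmul _)) (i3.Kmul _), In_add (i1.Kmul _) ((igS h).Kmul _),
    In_Kmul, In_Kmul, In_Kmul, ibp_DD h.h2ψ h1_el h.wS.sy (by norm_num)]
  ring

theorem T1 (h : d.Met) (s : ℝ) {e : ℝ} (he : 0 < e) :
    |In (ip2 d.φ d.w) s| ≤ e * In (gr d.w) s + d.jj s / e :=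
  (In_cs (igφ h) (igw h) (fun _ => gr_nonneg _ _) (fun _ => gr_nonneg _ _)
    fun _ => ip2_sq _ _ _).trans
    (am (In_nonneg fun _ => gr_nonneg _ _) (In_nonneg fun _ => gr_nonneg _ _) he)

theorem T2 (h : d.Met) {s : ℝ} {H : ℝ} (hH : ∀ x, |hs d.ψ (s, x)| ≤ H) {e : ℝ} (he : 0 < e) :
    |In (BB d.ψ d.φ d.w) s| ≤ e * In (gr d.w) s + H * d.jj s / e := by
  have H0 : 0 ≤ H := (abs_nonneg _).trans (hH 0)
  have g0 : ∀ x, 0 ≤ (K H * gr d.φ) (s, x) := fun x => mul_nonneg H0 (gr_nonneg _ _)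
  have h1 := In_cs (f := BB d.ψ d.φ d.w) ((igφ h).Kmul H) (igw h) g0 (fun _ => gr_nonneg _ _)
    fun x => (BB_sq h.smψ _ _ _).trans (mul_le_mul_of_nonneg_right
      (mul_le_mul_of_nonneg_right ((le_abs_self _).trans (hH x)) (gr_nonneg _ _)) (gr_nonneg _ _))
  have h2 := am (In_nonneg g0) (In_nonneg (f := gr d.w) (s := s) fun _ => gr_nonneg _ _) he
  have h3 := h1.trans h2
  rwa [In_Kmul] at h3

theorem T3 (h : d.Met) {s : ℝ} {B : ℝ} (hB : In (hs d.ψ) s ≤ B) {e : ℝ} (he : 0 < e) :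
    |In (BB d.ψ el d.w) s| ≤ e * In (gr d.w) s + B / e := by
  have h1 := In_cs (f := BB d.ψ el d.w) (s := s) (ighs h) (igw h) (fun _ => hs_nonneg _ _)
    (fun _ => gr_nonneg _ _)
    fun x => (BB_sq h.smψ _ _ _).trans (mul_le_mul_of_nonneg_right
      (mul_le_of_le_one_right (hs_nonneg _ _) (gr_el_le _)) (gr_nonneg _ _))
  have h2 := am (In_nonneg (f := hs d.ψ) (s := s) fun _ => hs_nonneg _ _)
    (In_nonneg (f := gr d.w) (s := s) fun _ => gr_nonneg _ _) he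
  have h3 : In (hs d.ψ) s / e ≤ B / e := div_le_div_of_nonneg_right hB he.le
  linarith

end A4bP

open A4bP in
theorem a4b_ok : StA4b := by
  intro d h h3
  obtain ⟨l, hl, low⟩ := h3.low
  obtain ⟨H, hH⟩ := h3.hp
  obtain ⟨B, hB⟩ := h3.hψ
  have hc := h.hc
  have ha := h.a_pos
  have hs0 := s0_pos
  have H0 : 0 ≤ H := (abs_nonneg _).trans (hH (0, 0) le_rfl)
  have B0 : 0 ≤ B := (In_nonneg fun _ => hs_nonneg _ _).trans (hB 0 le_rfl)
  obtain ⟨k, hk⟩ : ∃ k, k = d.c + 1 / 2 + d.a / 2 := ⟨_, rfl⟩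
  have k0 : 0 < k := by rw [hk]; positivity
  obtain ⟨e, he⟩ : ∃ e, e = l / (4 * (2 / d.a * k + 2)) := ⟨_, rfl⟩
  have e0 : 0 < e := by rw [he]; positivity
  have he' : 2 / d.a * (e * k) + 2 * e = l / 4 := by rw [he]; field_simp
  obtain ⟨C, hC⟩ : ∃ C, C = s0 + d.c / e + H / e + d.a * (B / e) := ⟨_, rfl⟩
  have C0 : 0 < C := by rw [hC]; positivity
  refine ⟨l / 4, 2 / d.a * C + 2 * (B / e) + (e * k + C) / (4 * d.a * d.c), by positivity,
    by positivity, fun s hs => ?_⟩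
  have G0 : 0 ≤ In (gr d.w) s := In_nonneg fun _ => gr_nonneg _ _
  have J0 : 0 ≤ d.jj s := In_nonneg fun _ => gr_nonneg _ _
  have t1 := abs_le.1 (T1 h s e0)
  have t2 := abs_le.1 (T2 h (fun x => hH (s, x) hs) e0)
  have t3 := abs_le.1 (T3 h (hB s hs) e0)
  have w1 := wV_low h s
  have w2 := wV_eq h s
  have en := En_eq h s
  have lo : l * In (gr d.w) s ≤ In (BB d.u d.w d.w) s := by
    rw [← In_Kmul]
    exact In_mono ((igw h).Kmul l) ((h.h2u.BB h.wS.h1 h.wS.h1).ig (by norm_num))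
      fun x => low d.w (s, x) hs
  generalize In (gr d.w) s = G at *
  generalize d.jj s = J at *
  generalize In (sg * d.w) s = S at *
  generalize In (ip2 d.φ d.w) s = a1 at *
  generalize In (BB d.ψ d.φ d.w) s = a2 at *
  generalize In (BB d.ψ el d.w) s = a3 at *
  have key : -(e * k * G + C * (1 + J)) ≤ 4 * d.a * d.c * S := by
    have u1 := mul_le_mul_of_nonneg_left t1.1 hc.le
    have u3 := mul_le_mul_of_nonneg_left t3.1 ha.le
    have v1 : 0 ≤ d.c / e := by positivity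
    have v2 : 0 ≤ H / e := by positivity
    have v3 : 0 ≤ d.a * (B / e) := by positivity
    have v4 : 0 ≤ s0 * J := by positivity
    have v5 : 0 ≤ H / e * J := by positivity
    have v6 : 0 ≤ d.a * (B / e) * J := by positivity
    have r1 : d.c * (J / e) = d.c / e * J := by ring
    have r2 : H * J / e = H / e * J := by ring
    rw [hk, hC]
    nlinarith
  have x1 : 0 ≤ 2 / d.a * C := by positivity
  have x2 : 0 ≤ B / e := by positivity
  have x3 : 0 ≤ (e * k + C) / (4 * d.a * d.c) := by positivity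
  constructor
  · have u1 := mul_le_mul_of_nonneg_left key (show 0 ≤ 2 / d.a by positivity)
    have u2 : 2 / d.a * (4 * d.a * d.c * S) = 8 * d.c * S := by field_simp; ring
    have u3 : (2 / d.a * (e * k) + 2 * e) * G = l / 4 * G := by rw [he']
    have u4 : 0 ≤ B / e * J := by positivity
    have u5 : 0 ≤ (e * k + C) / (4 * d.a * d.c) * (1 + J) := by positivity
    nlinarith
  · have p0 : 0 < 4 * d.a * d.c := by positivity
    have u1 : -((e * k + C) * (1 + G + J)) ≤ 4 * d.a * d.c * S := by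
      have : 0 ≤ e * k * (1 + J) := by positivity
      have : 0 ≤ C * G := by positivity
      nlinarith
    have u2 : -((e * k + C) / (4 * d.a * d.c) * (1 + G + J)) ≤ S := by
      rw [div_mul_eq_mul_div, ← neg_div, div_le_iff₀ p0]
      linarith
    have u3 : 0 ≤ (2 / d.a * C + 2 * (B / e)) * (1 + G + J) := by positivity
    nlinarith

end Pool.Agent.P.MP_2cea5e_gt.Se
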