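import Pool.Agent.P.MP_2cea5e_gt.Se.Api

/-!
Package A5.
-/

open scoped ContDiff Topology ENNReal
open MeasureTheory Set Filter

noncomputable section

namespace Pool.Agent.P.MP_2cea5e_gt.Se

namespace A5P

theorem four {g : Fx} {s A B : ℝ} (h1 : StGNS) (hg : Sy (-2) g) (hA : In (g * g) s ≤ A)
    (hB : In (gr g) s ≤ B) : In (g * g * (g * g)) s ≤ 2 * A * B := by
  have a0 : 0 ≤ In (g * g) s := In_nonneg fun x => mul_self_nonneg _
  have b0 : 0 ≤ In (gr g) s := In_nonneg fun x => gr_nonneg _ _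
  exact (h1.lady g s hg).trans (mul_le_mul (by linarith) hB b0 (by linarith))

theorem gw2 {w : Fx} (h1 : StGNS) (hw : H1 (-2) w) (hA : Ub (In (gr w))) (hB : Ub (In (hs w))) :
    Ub (In (gr w * gr w)) := by
  obtain ⟨A, hA⟩ := hA
  obtain ⟨B, hB⟩ := hB
  refine ⟨2 * (2 * A * B) + 2 * (2 * A * B), fun s hs0 => ?_⟩
  have ig : Ig (gr w) := hw.gr.ig (by norm_num)
  have ih : Ig (hs w) := hw.h2.hs.ig (by norm_num)
  have key : ∀ g : Fx, Sy (-2) g → (∀ p, g p * g p ≤ gr w p) → (∀ p, gr g p ≤ hs w p) →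
      In (g * g * (g * g)) s ≤ 2 * A * B := fun g hg e1 e2 =>
    four h1 hg ((In_mono ((hg.mul hg).ig (by norm_num)) ig fun x => e1 _).trans (hA s hs0))
      ((In_mono (hg.h1.gr.ig (by norm_num)) ih fun x => e2 _).trans (hB s hs0))
  have k1 := key _ hw.d1 (fun p => by rw [gr_apply]; nlinarith [sq_nonneg (D e2 w p)])
    fun p => le_add_of_nonneg_right (gr_nonneg _ _)
  have k2 := key _ hw.d2 (fun p => by rw [gr_apply]; nlinarith [sq_nonneg (D e1 w p)])
    fun p => le_add_of_nonneg_left (gr_nonneg _ _)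
  have i1 : Ig (D e1 w * D e1 w * (D e1 w * D e1 w)) :=
    ((hw.d1.mul hw.d1).mul (hw.d1.mul hw.d1)).ig (by norm_num)
  have i2 : Ig (D e2 w * D e2 w * (D e2 w * D e2 w)) :=
    ((hw.d2.mul hw.d2).mul (hw.d2.mul hw.d2)).ig (by norm_num)
  refine (In_mono ((hw.gr.mul hw.gr).ig (by norm_num)) ((i1.Kmul 2).add (i2.Kmul 2))
    fun x => ?_).trans ?_
  · simp only [Pi.add_apply, Pi.mul_apply, K, gr_apply]
    nlinarith [sq_nonneg (D e1 w (s, x) ^ 2 - D e2 w (s, x) ^ 2)]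
  · rw [In_add (i1.Kmul 2) (i2.Kmul 2), In_Kmul, In_Kmul]
    linarith

theorem wl {w : Fx} (h2 : StGrow) (hS : Sph w) (hA : Ub (In (gr w))) (hB : Ub (In (hs w)))
    (hm : Ub fun s => |In (sg * w) s|) : ∃ C : ℝ, ∀ p : X, 0 ≤ p.1 → |w p| ≤ C + el p / 4 := by
  obtain ⟨A, hA⟩ := hA
  obtain ⟨B, hB⟩ := hB
  obtain ⟨m, hm⟩ := hm
  obtain ⟨C, hC⟩ := h2 (max A (2 * B))
  have hw := hS.h1
  have ih : Ig (hs w) := hw.h2.hs.ig (by norm_num)
  have is : Ig sg := sy_sg.ig (by norm_num)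
  have ie : Ig (sg * el) := (sy_sg.mul sy_el).ig (by norm_num)
  have iw : Ig (sg * w) := (sy_sg.mul hS.sy).ig (by norm_num)
  refine ⟨C + (m + (C * s0 + 1 / 4 * In (sg * el) 0)) / s0, ?_⟩
  rintro ⟨s, x⟩ hs0
  have g := hC w s hw ((hA s hs0).trans (le_max_left _ _)) (by
    refine le_trans ?_ (le_max_right _ _)
    refine (In_mono ((hS.lp.mul hS.lp).ig (by norm_num)) (ih.Kmul 2) fun y => ?_).trans ?_
    · simpa only [Pi.mul_apply, K, sq] using Lp_sq hS.sm (s, y)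
    · rw [In_Kmul]
      linarith [hB s hs0])
  have e1 : |In (sg * w - K (w (s, 0)) * sg) s| ≤ In (K C * sg + K (1 / 4) * (sg * el)) s := by
    refine In_abs ((is.Kmul C).add (ie.Kmul _)) fun y => ?_
    simp only [Pi.add_apply, Pi.mul_apply, Pi.sub_apply, K]
    rw [show sg (s, y) * w (s, y) - w (s, 0) * sg (s, y) = sg (s, y) * (w (s, y) - w (s, 0)) by ring,
      abs_mul, abs_of_pos (sg_pos _)]
    nlinarith [g y, sg_pos (s, y)]
  have e2 : In (sg * el) s = In (sg * el) 0 := rfl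
  rw [In_sub iw (is.Kmul _), In_add (is.Kmul C) (ie.Kmul _), In_Kmul, In_Kmul, In_Kmul, In_sg,
    e2] at e1
  have e3 : |w (s, 0)| ≤ (m + (C * s0 + 1 / 4 * In (sg * el) 0)) / s0 := by
    rw [le_div_iff₀ s0_pos, ← abs_of_pos s0_pos, ← abs_mul, abs_of_pos s0_pos]
    have := hm s hs0
    have h3 := abs_sub_abs_le_abs_sub (w (s, 0) * s0) (In (sg * w) s)
    rw [abs_sub_comm] at h3
    dsimp only at this
    linarith
  have h3 := abs_sub_abs_le_abs_sub (w (s, x)) (w (s, 0))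
  linarith [g x]

theorem ex_el (p : X) : Real.exp (el p / 4) ^ 2 = jb p := by
  have h : (Real.exp (el p / 4) ^ 2) ^ 2 = jb p ^ 2 := by
    rw [jb_sq, ← pow_mul, ← Real.exp_nat_mul, el_apply]
    rw [show ((2 * 2 : ℕ) : ℝ) * (Real.log (rr p) / 4) = Real.log (rr p) by push_cast; ring,
      Real.exp_log (rr_pos p)]
  exact (pow_left_inj₀ (by positivity) (jb_pos p).le two_ne_zero).1 h

theorem sg_jb (p : X) : sg p * jb p = jb p ^ (-3 : ℤ) := by
  rw [sg_eq, show (-3 : ℤ) = -4 + 1 by norm_num, zpow_add_one₀ (jb_pos p).ne']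

end A5P

open A5P in
theorem a5_ok (h1 : StGNS) (h2 : StGrow) : StA5 := by
  intro d hM h3 hg hm
  obtain ⟨C, hC⟩ := wl h2 hM.wS hg h3.hw hm
  have hV : ∀ p : X, 0 ≤ p.1 → d.V p ≤ Real.exp C * (sg p * Real.exp (el p / 4)) := by
    intro p hp
    rw [hM.hV, mul_left_comm, ← Real.exp_add]
    exact mul_le_mul_of_nonneg_left
      (Real.exp_le_exp.2 ((le_abs_self _).trans (hC p hp))) (sg_pos p).le
  refine ⟨h3, hg, gw2 h1 hM.wS.h1 hg h3.hw, ⟨C, hC⟩, ⟨32 * Real.exp C ^ 2, fun p hp => ?_⟩,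
    ⟨Real.exp C, fun p hp M hM0 => ?_⟩⟩
  · have v0 := hM.Vpos p
    have e1 : rr p * rr p * (d.V p * d.V p) ≤ Real.exp C ^ 2 * jb p ^ (-3 : ℤ) := by
      have h4 := mul_self_le_mul_self v0.le (hV p hp)
      have h5 : rr p * rr p * sg p = 1 := by
        rw [sg_apply, ← sq]; exact mul_inv_cancel₀ (pow_pos (rr_pos p) 2).ne'
      refine (mul_le_mul_of_nonneg_left h4 (mul_self_nonneg _)).trans_eq ?_
      rw [← sg_jb, ← ex_el]
      linear_combination Real.exp C ^ 2 * sg p * Real.exp (el p / 4) ^ 2 * h5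
    have e2 : gr d.L p ≤ 2 * gr d.w p + 8 * gr el p := by
      have := gr_sub_le hM.smw ((sm_K 2).mul sm_el) p
      have h6 := gr_Kmul 2 sm_el p
      change gr d.L p ≤ 2 * gr d.w p + 2 * gr (K 2 * el) p at this
      linarith
    have e3 : jb p ^ (-3 : ℤ) * gr el p ≤ 4 * sg p := by
      rw [← sg_jb, mul_assoc, mul_comm 4]
      refine mul_le_mul_of_nonneg_left ?_ (sg_pos p).le
      have h7 := gr_el_rr p
      rw [← jb_sq] at h7
      nlinarith [gr_nonneg el p, one_le_jb p,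
        mul_nonneg (gr_nonneg el p) (mul_nonneg (jb_pos p).le (sub_nonneg.2 (one_le_jb p)))]
    have j0 : 0 < jb p ^ (-3 : ℤ) := zpow_pos (jb_pos p) _
    have g0 := gr_nonneg d.w p
    rw [hM.gr_V]
    simp only [Pi.mul_apply]
    calc rr p * rr p * (d.V p * d.V p * gr d.L p)
        = rr p * rr p * (d.V p * d.V p) * gr d.L p := by ring
      _ ≤ Real.exp C ^ 2 * jb p ^ (-3 : ℤ) * (2 * gr d.w p + 8 * gr el p) :=
          mul_le_mul e1 e2 (gr_nonneg _ _) (by positivity)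
      _ = Real.exp C ^ 2 * (2 * (jb p ^ (-3 : ℤ) * gr d.w p) + 8 * (jb p ^ (-3 : ℤ) * gr el p)) := by
          ring
      _ ≤ Real.exp C ^ 2 * (32 * (jb p ^ (-3 : ℤ) * gr d.w p + sg p)) :=
          mul_le_mul_of_nonneg_left (by nlinarith [mul_nonneg j0.le g0]) (by positivity)
      _ = _ := by ring
  · refine (hV p hp).trans (mul_le_mul_of_nonneg_left ?_ (Real.exp_pos C).le)
    rw [← sg_jb, ← ex_el]
    generalize Real.exp (el p / 4) = t
    have h8 : t ≤ M + t ^ 2 / M := by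
      rw [← sub_nonneg, show M + t ^ 2 / M - t = ((M - t / 2) ^ 2 + 3 / 4 * t ^ 2) / M by
        field_simp; ring]
      positivity
    calc sg p * t ≤ sg p * (M + t ^ 2 / M) := mul_le_mul_of_nonneg_left h8 (sg_pos p).le
      _ = _ := by ring

end Pool.Agent.P.MP_2cea5e_gt.Se
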