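import Pool.Agent.P.MP_2cea5e_gt.Se.Api

/-!
Package A6a: the pointwise quasiregularity inequality.
-/

open scoped ContDiff Topology ENNReal ComplexConjugate
open MeasureTheory Set Filter

noncomputable section

namespace Pool.Agent.P.MP_2cea5e_gt.Se

namespace A6aP

variable {f : Fx}

theorem D1_pp (hf : Sm f) : D e1 (pp f) = D e1 (q1 f) - D e2 (q2 f) := by
  have h1 := sm_D e1 hf
  have h2 := sm_D e2 hf
  have h11 := sm_D e1 h1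
  have h22 := sm_D e2 h2
  have h12 := sm_D e1 h2
  unfold pp q1 q2 Lp
  rw [D_Kmul e1 _ (sm_add h11 h22), D_Kmul e1 _ (sm_sub h11 h22), D_Kmul e2 _ h12,
    D_add e1 h11 h22, D_sub e1 h11 h22, D_comm e2 e1 h2]
  funext p
  simp only [Pi.add_apply, Pi.mul_apply, Pi.sub_apply, K_apply]
  ring

theorem D2_pp (hf : Sm f) : D e2 (pp f) = -(D e2 (q1 f) + D e1 (q2 f)) := by
  have h1 := sm_D e1 hf
  have h2 := sm_D e2 hf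
  have h11 := sm_D e1 h1
  have h22 := sm_D e2 h2
  have h12 := sm_D e1 h2
  unfold pp q1 q2 Lp
  rw [D_Kmul e2 _ (sm_add h11 h22), D_Kmul e2 _ (sm_sub h11 h22), D_Kmul e1 _ h12,
    D_add e2 h11 h22, D_sub e2 h11 h22, D_comm e2 e1 h1, D_comm e2 e1 hf]
  funext p
  simp only [Pi.add_apply, Pi.mul_apply, Pi.sub_apply, Pi.neg_apply, K_apply]
  ring

theorem core {Λ δ n r a b e : ℝ} (hδ : 0 < δ) (r0 : 0 ≤ r) (hr : r ≤ Λ) (hn : r + δ ≤ n)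
    (ha : 0 ≤ a) (hb : 0 ≤ b) (he : 0 ≤ e) (h : n * b ≤ r * a + e) :
    a ^ 2 + b ^ 2 ≤ 2 * ((Λ + δ) / δ) * (a ^ 2 - b ^ 2) +
      (2 * ((Λ + δ) / δ) ^ 2 + (Λ + δ) / δ) * (e / δ) ^ 2 := by
  have L0 : 0 < Λ + δ := by linarith
  have hK : 0 < (Λ + δ) / δ := div_pos L0 hδ
  have ht : 0 < δ / (Λ + δ) := div_pos hδ L0
  have hKt : (Λ + δ) / δ * (δ / (Λ + δ)) = 1 := by field_simp
  have t1 : δ / (Λ + δ) ≤ 1 := (div_le_one L0).2 (by linarith)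
  have e0 : 0 ≤ e / δ := div_nonneg he hδ.le
  have h1 : b ≤ (1 - δ / (Λ + δ)) * a + e / δ := by
    have i1 : (r + δ) * b ≤ r * a + e := (mul_le_mul_of_nonneg_right hn hb).trans h
    have i2 : r ≤ (r + δ) * (1 - δ / (Λ + δ)) := by
      have : (r + δ) * (δ / (Λ + δ)) ≤ (Λ + δ) * (δ / (Λ + δ)) :=
        mul_le_mul_of_nonneg_right (by linarith) ht.le
      have e' : (Λ + δ) * (δ / (Λ + δ)) = δ := by field_simp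
      nlinarith
    have i3 : e ≤ (r + δ) * (e / δ) := by
      have e' : δ * (e / δ) = e := by field_simp
      nlinarith [mul_nonneg r0 e0]
    have i4 := mul_le_mul_of_nonneg_right i2 ha
    refine le_of_mul_le_mul_left (a := r + δ) ?_ (by linarith)
    nlinarith
  generalize (Λ + δ) / δ = K at *
  generalize δ / (Λ + δ) = t at *
  generalize e / δ = ε at *
  have h2 : b ^ 2 ≤ ((1 - t) * a + ε) ^ 2 := pow_le_pow_left₀ hb h1 2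
  have h3 : ((1 - t) * a + ε) ^ 2 ≤ (1 - t) * a ^ 2 + K * ε ^ 2 := by
    have := mul_nonneg (mul_nonneg (sub_nonneg.2 t1) hK.le) (sq_nonneg (t * a - ε))
    have e' : (1 - t) * a ^ 2 + K * ε ^ 2 - ((1 - t) * a + ε) ^ 2 =
        (1 - t) * K * (t * a - ε) ^ 2 := by
      linear_combination ((1 - t) * (2 * a * ε - t * a ^ 2) + ε ^ 2) * hKt
    linarith
  have h4 : t * a ^ 2 ≤ a ^ 2 - b ^ 2 + K * ε ^ 2 := by linarith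
  have h5 := mul_le_mul_of_nonneg_left h4 hK.le
  have h6 : K * (t * a ^ 2) = a ^ 2 := by rw [← mul_assoc, hKt, one_mul]
  have h7 := mul_nonneg ht.le (sq_nonneg a)
  nlinarith

theorem cpx (H H' q Z α β : ℂ) {m : ℝ} (hm : 0 ≤ m)
    (hZ : Z = 4 * (m * β - conj q * α - q * conj β)) :
    (m - ‖q‖) * ‖H * β‖ ≤ ‖q‖ * ‖2 * H' * q + H * α‖ + (‖H‖ * ‖Z‖ / 4 + 2 * ‖H'‖ * ‖q‖ ^ 2) := by
  have e : (m : ℂ) * (H * β) =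
      H * Z / 4 + conj q * (2 * H' * q + H * α) - 2 * H' * (q * conj q) + q * (H * conj β) := by
    rw [hZ]; ring
  have h := congrArg norm e
  rw [norm_mul, Complex.norm_real, Real.norm_of_nonneg hm] at h
  have t := norm_add_le (H * Z / 4 + conj q * (2 * H' * q + H * α) - 2 * H' * (q * conj q))
    (q * (H * conj β))
  have t2 := norm_sub_le (H * Z / 4 + conj q * (2 * H' * q + H * α)) (2 * H' * (q * conj q))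
  have t3 := norm_add_le (H * Z / 4) (conj q * (2 * H' * q + H * α))
  have n1 : ‖H * Z / 4‖ = ‖H‖ * ‖Z‖ / 4 := by simp
  have n2 : ‖conj q * (2 * H' * q + H * α)‖ = ‖q‖ * ‖2 * H' * q + H * α‖ := by simp
  have n3 : ‖2 * H' * (q * conj q)‖ = 2 * ‖H'‖ * ‖q‖ ^ 2 := by simp [sq]
  have n4 : ‖q * (H * conj β)‖ = ‖q‖ * ‖H * β‖ := by simp
  nlinarith

theorem gap {c m r V Λ : ℝ} (m0 : 0 < m) (hΛ : m ≤ Λ) (hV : 0 < V)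
    (s1 : m ^ 2 - 4 * r ^ 2 = c ^ 2 + V) : 2 * r ≤ m ∧ c ^ 2 / (2 * Λ) ≤ m - 2 * r := by
  have s2 : 2 * r ≤ m := by
    refine (abs_le_of_sq_le_sq' ?_ m0.le).2
    nlinarith [sq_nonneg c]
  refine ⟨s2, ?_⟩
  rw [div_le_iff₀ (by linarith)]
  have : (m - 2 * r) * (m + 2 * r) ≤ (m - 2 * r) * (2 * Λ) :=
    mul_le_mul_of_nonneg_left (by linarith) (by linarith)
  nlinarith

theorem err (x y : ℝ) : (x / 4 + 2 * y) ^ 2 ≤ 8 * (x ^ 2 + y ^ 2) := by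
  nlinarith [sq_nonneg (x / 4 - 2 * y), sq_nonneg x]

theorem pt {c Λ g h g1 g2 u v u1 u2 v1 v2 p V V1 V2 : ℝ} (hc : 0 < c) (hp : 0 < p)
    (hΛ : c + 2 * p ≤ Λ) (hV : 0 < V) (eV : V = 4 * (c * p + p ^ 2 - (u * u + v * v)))
    (e1 : V1 = 4 * ((c + 2 * p) * (u1 - v2) - 2 * (u * u1 + v * v1)))
    (e2 : V2 = 4 * ((c + 2 * p) * -(u2 + v1) - 2 * (u * u2 + v * v2)))
    {P1 P2 Q1 Q2 δ : ℝ} (hδ : δ = c ^ 2 / (2 * Λ))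
    (eP1 : P1 = g1 * u + g * u1 + g2 * v - h * v1) (eP2 : P2 = g2 * u + g * u2 - g1 * v - h * v2)
    (eQ1 : Q1 = g1 * v + g * v1 - g2 * u + h * u1) (eQ2 : Q2 = g2 * v + g * v2 + g1 * u + h * u2) :
    P1 ^ 2 + P2 ^ 2 + (Q1 ^ 2 + Q2 ^ 2) ≤ 4 * ((Λ + δ) / δ) * (P1 * Q2 - P2 * Q1) +
      4 * ((2 * ((Λ + δ) / δ) ^ 2 + (Λ + δ) / δ) / δ ^ 2) *
        ((g ^ 2 + h ^ 2) * (V1 ^ 2 + V2 ^ 2) + (g1 ^ 2 + g2 ^ 2) * (u * u + v * v) ^ 2) := by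
  have m0 : 0 < c + 2 * p := by linarith
  have L0 : 0 < Λ := by linarith
  have d0 : 0 < δ := by rw [hδ]; positivity
  have nn : ∀ x y : ℝ, ‖(⟨x, y⟩ : ℂ)‖ ^ 2 = x ^ 2 + y ^ 2 := fun x y => by
    rw [Complex.sq_norm, Complex.normSq_mk]; ring
  have k := cpx ⟨g, h⟩ ⟨g1, -g2⟩ ⟨u, v⟩ ⟨V1, -V2⟩ ⟨u1 + v2, v1 - u2⟩ ⟨u1 - v2, u2 + v1⟩ m0.le (by
    rw [e1, e2]
    apply Complex.ext <;> simp <;> ring)
  have eA : 2 * (⟨g1, -g2⟩ : ℂ) * ⟨u, v⟩ + ⟨g, h⟩ * ⟨u1 + v2, v1 - u2⟩ = ⟨P1 + Q2, Q1 - P2⟩ := by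
    rw [eP1, eP2, eQ1, eQ2]
    apply Complex.ext <;> simp <;> ring
  have eB : (⟨g, h⟩ : ℂ) * ⟨u1 - v2, u2 + v1⟩ = ⟨P1 - Q2, Q1 + P2⟩ := by
    rw [eP1, eP2, eQ1, eQ2]
    apply Complex.ext <;> simp <;> ring
  rw [eA, eB] at k
  have nq := nn u v
  have nA := nn (P1 + Q2) (Q1 - P2)
  have nB := nn (P1 - Q2) (Q1 + P2)
  have nH := nn g h
  have nH' := nn g1 (-g2)
  have nZ := nn V1 (-V2)
  have r0 := norm_nonneg (⟨u, v⟩ : ℂ)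
  have a0 := norm_nonneg (⟨P1 + Q2, Q1 - P2⟩ : ℂ)
  have b0 := norm_nonneg (⟨P1 - Q2, Q1 + P2⟩ : ℂ)
  have x0 := norm_nonneg (⟨g, h⟩ : ℂ)
  have y0 := norm_nonneg (⟨g1, -g2⟩ : ℂ)
  have z0 := norm_nonneg (⟨V1, -V2⟩ : ℂ)
  generalize ‖(⟨u, v⟩ : ℂ)‖ = r at *
  generalize ‖(⟨P1 + Q2, Q1 - P2⟩ : ℂ)‖ = a at *
  generalize ‖(⟨P1 - Q2, Q1 + P2⟩ : ℂ)‖ = b at *
  generalize ‖(⟨g, h⟩ : ℂ)‖ = x at *
  generalize ‖(⟨g1, -g2⟩ : ℂ)‖ = y at *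
  generalize ‖(⟨V1, -V2⟩ : ℂ)‖ = z at *
  have s1 : (c + 2 * p) ^ 2 - 4 * r ^ 2 = c ^ 2 + V := by rw [nq, eV]; ring
  obtain ⟨s2, s3⟩ := gap m0 hΛ hV s1
  rw [← hδ] at s3
  have e0 : 0 ≤ x * z / 4 + 2 * y * r ^ 2 := by positivity
  have k2 := core (Λ := Λ) d0 r0 (by linarith only [s2, hΛ, r0]) (by linarith only [s3]) a0 b0 e0 k
  have K0 : 0 ≤ (2 * ((Λ + δ) / δ) ^ 2 + (Λ + δ) / δ) / δ ^ 2 := by positivity
  have s4 : (x * z / 4 + 2 * y * r ^ 2) ^ 2 ≤ 8 * (x ^ 2 * z ^ 2 + y ^ 2 * (r ^ 2) ^ 2) := by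
    have := err (x * z) (y * r ^ 2)
    rwa [mul_pow, mul_pow, ← mul_assoc] at this
  have s5 := mul_le_mul_of_nonneg_left s4 K0
  have s6 : (2 * ((Λ + δ) / δ) ^ 2 + (Λ + δ) / δ) * ((x * z / 4 + 2 * y * r ^ 2) / δ) ^ 2 =
      (2 * ((Λ + δ) / δ) ^ 2 + (Λ + δ) / δ) / δ ^ 2 * (x * z / 4 + 2 * y * r ^ 2) ^ 2 := by
    rw [div_pow (x * z / 4 + 2 * y * r ^ 2), ← mul_div_assoc, mul_div_right_comm]
  rw [s6] at k2
  have s7 : (g ^ 2 + h ^ 2) * (V1 ^ 2 + V2 ^ 2) + (g1 ^ 2 + g2 ^ 2) * (u * u + v * v) ^ 2 =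
      x ^ 2 * z ^ 2 + y ^ 2 * (r ^ 2) ^ 2 := by rw [nH, nH', nZ, nq]; ring
  have s8 : P1 ^ 2 + P2 ^ 2 + (Q1 ^ 2 + Q2 ^ 2) = (a ^ 2 + b ^ 2) / 2 := by rw [nA, nB]; ring
  have s9 : P1 * Q2 - P2 * Q1 = (a ^ 2 - b ^ 2) / 4 := by rw [nA, nB]; ring
  rw [s7, s8, s9]
  generalize (2 * ((Λ + δ) / δ) ^ 2 + (Λ + δ) / δ) / δ ^ 2 = K2 at k2 s5 ⊢
  generalize (Λ + δ) / δ = K at k2 ⊢
  linarith only [k2, s5]

theorem DV {d : Dat} (m : d.Met) (v : X) (p : X) : D v d.V p =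
    4 * ((d.c + 2 * pp d.ψ p) * D v (pp d.ψ) p -
      2 * (q1 d.ψ p * D v (q1 d.ψ) p + q2 d.ψ p * D v (q2 d.ψ) p)) := by
  have sp := sm_pp m.smψ
  have s1 := sm_q1 m.smψ
  have s2 := sm_q2 m.smψ
  have e : d.V = K 4 * (K d.c * pp d.ψ + pp d.ψ * pp d.ψ - qq d.ψ) := by
    funext p
    rw [m.V_pq p]
    simp only [Pi.add_apply, Pi.mul_apply, Pi.sub_apply, K_apply]
    ring
  have sa := sm_add (sm_mul (sm_K d.c) sp) (sm_mul sp sp)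
  rw [e, D_Kmul _ _ (sm_sub sa (sm_qq m.smψ)), D_sub _ sa (sm_qq m.smψ),
    D_add _ (sm_mul (sm_K d.c) sp) (sm_mul sp sp), D_Kmul _ _ sp, D_mul _ sp sp, qq,
    D_add _ (sm_mul s1 s1) (sm_mul s2 s2), D_mul _ s1 s1, D_mul _ s2 s2]
  simp only [Pi.add_apply, Pi.mul_apply, Pi.sub_apply, K_apply]
  ring

end A6aP

open A6aP in
theorem a6a_ok : StA6a := by
  intro d m ⟨Λ, hΛ⟩
  have hc := m.hc
  have L0 : 0 < Λ := (m.tS_pos (0, 0)).trans_le ((le_abs_self _).trans (hΛ (0, 0) le_rfl))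
  obtain ⟨δ, hδ⟩ : ∃ δ, δ = d.c ^ 2 / (2 * Λ) := ⟨_, rfl⟩
  have d0 : 0 < δ := by rw [hδ]; positivity
  refine ⟨4 * ((Λ + δ) / δ), 4 * ((2 * ((Λ + δ) / δ) ^ 2 + (Λ + δ) / δ) / δ ^ 2), by positivity,
    by positivity, fun g h sg sh c1 c2 p hp => ?_⟩
  have s1 := sm_q1 m.smψ
  have s2 := sm_q2 m.smψ
  have l0 := m.Lp_pos p
  have ep : pp d.ψ p = 1 / 4 * Lp d.ψ p := rfl
  have t1 := (le_abs_self _).trans (hΛ p hp)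
  rw [m.tS_eq] at t1
  simp only [Pi.add_apply, K_apply] at t1
  have a1 := congrFun c1 p
  have a2 := congrFun c2 p
  rw [Pi.neg_apply] at a2
  have dP : ∀ v, D v (hq1 g h d.ψ) p = D v g p * q1 d.ψ p + g p * D v (q1 d.ψ) p -
      (D v h p * q2 d.ψ p + h p * D v (q2 d.ψ) p) := fun v => by
    rw [hq1, D_sub _ (sm_mul sg s1) (sm_mul sh s2), D_mul _ sg s1, D_mul _ sh s2]; rfl
  have dQ : ∀ v, D v (hq2 g h d.ψ) p = D v g p * q2 d.ψ p + g p * D v (q2 d.ψ) p +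
      (D v h p * q1 d.ψ p + h p * D v (q1 d.ψ) p) := fun v => by
    rw [hq2, D_add _ (sm_mul sg s2) (sm_mul sh s1), D_mul _ sg s2, D_mul _ sh s1]; rfl
  have k := pt (g := g p) (h := h p) (g1 := D e1 g p) (g2 := D e2 g p) (u := q1 d.ψ p)
    (v := q2 d.ψ p) (u1 := D e1 (q1 d.ψ) p) (u2 := D e2 (q1 d.ψ) p) (v1 := D e1 (q2 d.ψ) p)
    (v2 := D e2 (q2 d.ψ) p) (p := pp d.ψ p) (V1 := D e1 d.V p) (V2 := D e2 d.V p) (Λ := Λ) hc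
    (by linarith) (by linarith) (m.Vpos p) (m.V_pq p) (by rw [DV m, D1_pp m.smψ]; rfl)
    (by rw [DV m, D2_pp m.smψ]; rfl) (P1 := D e1 (hq1 g h d.ψ) p) (P2 := D e2 (hq1 g h d.ψ) p)
    (Q1 := D e1 (hq2 g h d.ψ) p) (Q2 := D e2 (hq2 g h d.ψ) p) hδ
    (by rw [dP, a2]; ring) (by rw [dP, a1]; ring) (by rw [dQ, a2]; ring) (by rw [dQ, a1]; ring)
  simp only [EE, Jc, Pi.add_apply, Pi.mul_apply, Pi.sub_apply, gr_apply]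
  exact k

end Pool.Agent.P.MP_2cea5e_gt.Se
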