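import Pool.Agent.P.MP_2cea5e_gt.Se.Api

/-!
Package A6b.
-/

open scoped ContDiff Topology ENNReal
open MeasureTheory Set Filter

noncomputable section

namespace Pool.Agent.P.MP_2cea5e_gt.Se

namespace A6bP

variable {d : Dat} {f g a b x : Fx}

theorem ub_add (hf : Ig f) (hg : Ig g) (h : Ub (In f)) (h' : Ub (In g)) : Ub (In (f + g)) :=
  (h.add h').mono fun s _ => (In_add hf hg s).le

theorem ub_K {c : ℝ} (hc : 0 ≤ c) (h : Ub (In f)) : Ub (In (K c * f)) :=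
  (h.cmul hc).mono fun s _ => (In_Kmul c f s).le

theorem ub_mono (hf : Ig f) (hg : Ig g) (h : Ub (In g)) (e : ∀ p : X, 0 ≤ p.1 → f p ≤ g p) :
    Ub (In f) :=
  h.mono fun s hs => In_mono hf hg fun y => e (s, y) hs

theorem key {P Q F : Fx} {k k' : ℝ} (hk : 0 ≤ k) (hk' : 0 ≤ k') (h1 : Ig (EE P Q)) (h2 : Ig (Jc P Q))
    (h3 : ∀ s, In (Jc P Q) s = 0) (hF : Ig F) (uF : Ub (In F))
    (e : ∀ p : X, 0 ≤ p.1 → EE P Q p ≤ k * Jc P Q p + k' * F p) : Ub (In (EE P Q)) := by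
  refine ub_mono h1 ((h2.Kmul k).add (hF.Kmul k'))
    (ub_add (h2.Kmul k) (hF.Kmul k') (ub_K hk ⟨0, fun s _ => (h3 s).le⟩) (ub_K hk' uF)) e

theorem igG (m : d.Met) : Ig (rr * rr * gr d.V) :=
  ((sy_rr.mul sy_rr).mul m.syV.h1.gr).ig (by norm_num)

theorem ubG (m : d.Met) (H : d.H5) : Ub (In (rr * rr * gr d.V)) := by
  obtain ⟨C, hC⟩ := H.gV
  have i1 : Ig (gr d.w) := m.wS.h1.gr.ig (by norm_num)
  have i2 : Ig sg := sy_sg.ig (by norm_num)
  refine ub_mono (igG m) ((i1.add i2).Kmul |C|)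
    (ub_K (abs_nonneg C) (ub_add i1 i2 H.gw ⟨s0, fun s _ => (In_sg s).le⟩)) fun p hp => ?_
  have h1 := hC p hp
  have h2 : jb p ^ (-3 : ℤ) ≤ 1 := zpow_le_one_of_nonpos₀ (one_le_jb p) (by norm_num)
  have h3 : 0 ≤ jb p ^ (-3 : ℤ) := zpow_nonneg (jb_pos p).le _
  have h4 := gr_nonneg d.w p
  have h5 := sg_pos p
  have h6 : jb p ^ (-3 : ℤ) * gr d.w p ≤ gr d.w p := mul_le_of_le_one_left h4 h2
  have h7 : 0 ≤ jb p ^ (-3 : ℤ) * gr d.w p + sg p := by positivity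
  simp only [Pi.mul_apply, Pi.add_apply, K_apply]
  calc _ ≤ C * (jb p ^ (-3 : ℤ) * gr d.w p + sg p) := h1
    _ ≤ |C| * (jb p ^ (-3 : ℤ) * gr d.w p + sg p) := mul_le_mul_of_nonneg_right (le_abs_self C) h7
    _ ≤ |C| * (gr d.w p + sg p) := mul_le_mul_of_nonneg_left (by linarith) (abs_nonneg C)

theorem wG (c : ℝ) (p : X) (hc : c ≤ rr p * rr p) :
    c * gr d.V p ≤ (rr * rr * gr d.V) p :=
  mul_le_mul_of_nonneg_right hc (gr_nonneg _ p)

theorem qq_le (hf : Sm f) (p : X) : qq f p ≤ hs f p := by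
  have := qq_nonneg f p
  rw [hs_eq hf]
  nlinarith [sq_nonneg (pp f p)]

/-- The weighted energy against the energy of the product with the coordinate. -/
theorem wE (ha : Sm a) (hb : Sm b) (p : X) :
    (r2 * EE a b) p ≤ 2 * EE (x1 * a - x2 * b) (x1 * b + x2 * a) p + 4 * (a * a + b * b) p := by
  simp only [Pi.mul_apply, Pi.add_apply, EE, gr_apply]
  rw [D_sub _ (sm_mul sm_x1 ha) (sm_mul sm_x2 hb), D_sub _ (sm_mul sm_x1 ha) (sm_mul sm_x2 hb),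
    D_add _ (sm_mul sm_x1 hb) (sm_mul sm_x2 ha), D_add _ (sm_mul sm_x1 hb) (sm_mul sm_x2 ha)]
  simp only [D_mul _ sm_x1 ha, D_mul _ sm_x2 hb, D_mul _ sm_x1 hb, D_mul _ sm_x2 ha, D1_x1, D2_x1,
    D1_x2, D2_x2, Pi.mul_apply, Pi.add_apply, Pi.sub_apply, Pi.zero_apply, Pi.one_apply, r2]
  nlinarith [sq_nonneg (2 * a p + (x1 p * D e1 a p - x2 p * D e1 b p)),
    sq_nonneg (2 * b p + (x1 p * D e1 b p + x2 p * D e1 a p)),
    sq_nonneg (-2 * b p + (x1 p * D e2 a p - x2 p * D e2 b p)),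
    sq_nonneg (2 * a p + (x1 p * D e2 b p + x2 p * D e2 a p))]

theorem dF (ha : Sm a) (hb : Sm b) (hx : Sm x) (v : X) (p : X) (h1 : x p ^ 2 ≤ r2 p)
    (h2 : |D v x p| ≤ 1) (h3 : D v a p ^ 2 + D v b p ^ 2 ≤ EE a b p) :
    Ab (D v (x * (a * a + b * b))) p ≤ (K 2 * (a * a + b * b) + r2 * EE a b) p := by
  rw [Ab_apply, D_mul _ hx (sm_add (sm_mul ha ha) (sm_mul hb hb)),
    D_add _ (sm_mul ha ha) (sm_mul hb hb), D_mul _ ha ha, D_mul _ hb hb]
  simp only [Pi.mul_apply, Pi.add_apply, K_apply]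
  obtain ⟨h4, h5⟩ := abs_le.1 h2
  have h6 : x p ^ 2 * (D v a p ^ 2 + D v b p ^ 2) ≤ r2 p * EE a b p :=
    mul_le_mul h1 h3 (by positivity) (r2_nonneg p)
  have h7 : 0 ≤ a p * a p + b p * b p := add_nonneg (mul_self_nonneg _) (mul_self_nonneg _)
  have h8 := mul_le_mul_of_nonneg_right h4 h7
  have h9 := mul_le_mul_of_nonneg_right h5 h7
  rw [abs_le]
  constructor
  · nlinarith [sq_nonneg (a p + x p * D v a p), sq_nonneg (b p + x p * D v b p)]
  · nlinarith [sq_nonneg (a p - x p * D v a p), sq_nonneg (b p - x p * D v b p)]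

theorem ubF (h1 : StGNS) (ha : Sy (-2) a) (hb : Sy (-2) b) (hx : Sy 1 x)
    (e0 : ∀ p, x p ^ 2 ≤ r2 p) (e1' : ∀ p, |D e1 x p| ≤ 1) (e2' : ∀ p, |D e2 x p| ≤ 1)
    (u : Ub (In (K 2 * (a * a + b * b) + r2 * EE a b))) :
    Ub (In (x * (a * a + b * b) * (x * (a * a + b * b)))) := by
  obtain ⟨M, hM⟩ := u
  have sq : Sy (-4) (a * a + b * b) := (ha.mul' ha (by norm_num)).add (hb.mul' hb (by norm_num))
  have sf : Sy (-3) (x * (a * a + b * b)) := hx.mul' sq (by norm_num)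
  have iH : Ig (K 2 * (a * a + b * b) + r2 * EE a b) :=
    ((sq.ig (by norm_num)).Kmul 2).add ((sy_r2.mul (ha.h1.EE hb.h1)).ig (by norm_num))
  refine ⟨M * M, fun s hs => (h1.gns _ s (sf.mono (by norm_num))).trans ?_⟩
  have b1 : In (Ab (D e1 (x * (a * a + b * b)))) s ≤ M :=
    (In_mono (sf.D1.ig (by norm_num)).ab iH fun y => dF ha.sm hb.sm hx.sm e1 _ (e0 _) (e1' _) (by
      simp only [EE, Pi.add_apply, gr_apply]
      nlinarith [sq_nonneg (D e2 a (s, y)), sq_nonneg (D e2 b (s, y))])).trans (hM s hs)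
  have b2 : In (Ab (D e2 (x * (a * a + b * b)))) s ≤ M :=
    (In_mono (sf.D2.ig (by norm_num)).ab iH fun y => dF ha.sm hb.sm hx.sm e2 _ (e0 _) (e2' _) (by
      simp only [EE, Pi.add_apply, gr_apply]
      nlinarith [sq_nonneg (D e1 a (s, y)), sq_nonneg (D e1 b (s, y))])).trans (hM s hs)
  have n1 : 0 ≤ In (Ab (D e1 (x * (a * a + b * b)))) s := In_nonneg fun y => abs_nonneg _
  have n2 : 0 ≤ In (Ab (D e2 (x * (a * a + b * b)))) s := In_nonneg fun y => abs_nonneg _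
  exact mul_le_mul b1 b2 n2 (n1.trans b1)

end A6bP

open A6bP in
theorem a6b_ok (h1 : StGNS) (h2 : StA6a) : StA6b := by
  intro d m H
  obtain ⟨k, k', hk, hk', hA⟩ := h2 d m H.tS
  have ha : Sy (-2) (q1 d.ψ) := m.h2ψ.q1
  have hb : Sy (-2) (q2 d.ψ) := m.h2ψ.q2
  have iG := igG m
  have uG := ubG m H
  have r1 : ∀ p, 1 ≤ rr p * rr p := fun p => one_le_mul_of_one_le_of_one_le (one_le_rr p) (one_le_rr p)
  refine ⟨?_, ?_⟩
  · refine key hk hk' ((ha.h1.EE hb.h1).ig (by norm_num)) ((ha.h1.Jc hb.h1).ig (by norm_num))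
      (In_Jc ha hb.h1 (by norm_num)) iG uG fun p hp => ?_
    have e := hA (K 1) (K 0) (sm_K 1) (sm_K 0) (by rw [D_K, D_K]) (by rw [D_K, D_K, neg_zero]) p hp
    have e1 : hq1 (K 1) (K 0) d.ψ = q1 d.ψ := by
      funext p; simp only [hq1, Pi.mul_apply, Pi.sub_apply, K_apply]; ring
    have e2 : hq2 (K 1) (K 0) d.ψ = q2 d.ψ := by
      funext p; simp only [hq2, Pi.mul_apply, Pi.add_apply, K_apply]; ring
    have e3 : gr (K 1) p = 0 := by simp only [gr_apply, D_K, Pi.zero_apply]; ring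
    rw [e1, e2, e3, zero_mul, add_zero] at e
    refine e.trans (add_le_add le_rfl (mul_le_mul_of_nonneg_left (wG _ p ?_) hk'))
    simp only [K_apply]
    linarith [r1 p]
  · obtain ⟨C, hC⟩ := H.hp
    have C0 : 0 ≤ C := (abs_nonneg _).trans (hC (0, 0) le_rfl)
    have ih : Ig (hs d.ψ) := m.h2ψ.hs.ig (by norm_num)
    have iq : Ig (qq d.ψ) := m.h2ψ.qq.ig (by norm_num)
    have uq : Ub (In (qq d.ψ)) := ub_mono iq ih H.hψ fun p _ => qq_le m.smψ p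
    have hP : Sy (-1) (hq1 x1 x2 d.ψ) :=
      (sy_x1.mul' ha (by norm_num)).sub (sy_x2.mul' hb (by norm_num))
    have hQ : Sy (-1) (hq2 x1 x2 d.ψ) :=
      (sy_x1.mul' hb (by norm_num)).add (sy_x2.mul' ha (by norm_num))
    have iE : Ig (EE (hq1 x1 x2 d.ψ) (hq2 x1 x2 d.ψ)) := (hP.h1.EE hQ.h1).ig (by norm_num)
    have u1 : Ub (In (EE (hq1 x1 x2 d.ψ) (hq2 x1 x2 d.ψ))) := by
      refine key hk hk' iE ((hP.h1.Jc hQ.h1).ig (by norm_num)) (In_Jc hP hQ.h1 (by norm_num))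
        (iG.add (iq.Kmul C)) (ub_add iG (iq.Kmul C) uG (ub_K C0 uq)) fun p hp => ?_
      have e := hA x1 x2 sm_x1 sm_x2 (by rw [D1_x1, D2_x2]) (by rw [D2_x1, D1_x2, neg_zero]) p hp
      have e3 : gr x1 p = 1 := by
        simp only [gr_apply, D1_x1, D2_x1, Pi.zero_apply, Pi.one_apply]; ring
      rw [e3, one_mul] at e
      refine e.trans (add_le_add le_rfl (mul_le_mul_of_nonneg_left (add_le_add (wG _ p ?_) ?_) hk'))
      · have := r2_nonneg p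
        rw [x1_apply, x2_apply, ← r2_apply, rr_apply]
        nlinarith
      · have t1 := qq_nonneg d.ψ p
        have t2 := (qq_le m.smψ p).trans ((le_abs_self _).trans (hC p hp))
        simp only [Pi.mul_apply, K_apply]
        nlinarith
    have iW : Ig (r2 * EE (q1 d.ψ) (q2 d.ψ)) := (sy_r2.mul (ha.h1.EE hb.h1)).ig (by norm_num)
    have u2 : Ub (In (r2 * EE (q1 d.ψ) (q2 d.ψ))) :=
      ub_mono iW ((iE.Kmul 2).add (iq.Kmul 4))
        (ub_add (iE.Kmul 2) (iq.Kmul 4) (ub_K (by norm_num) u1) (ub_K (by norm_num) uq))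
        fun p _ => wE ha.sm hb.sm p
    have u3 := ub_add (iq.Kmul 2) iW (ub_K (by norm_num) uq) u2
    have f1 := ubF h1 ha hb sy_x1
      (fun p => by rw [x1_apply, r2_apply]; nlinarith [sq_nonneg p.2.2])
      (fun p => by rw [D1_x1]; simp) (fun p => by rw [D2_x1]; simp) u3
    have f2 := ubF h1 ha hb sy_x2
      (fun p => by rw [x2_apply, r2_apply]; nlinarith [sq_nonneg p.2.1])
      (fun p => by rw [D1_x2]; simp) (fun p => by rw [D2_x2]; simp) u3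
    have j1 : Ig (x1 * qq d.ψ * (x1 * qq d.ψ)) :=
      ((sy_x1.mul m.h2ψ.qq).mul (sy_x1.mul m.h2ψ.qq)).ig (by norm_num)
    have j2 : Ig (x2 * qq d.ψ * (x2 * qq d.ψ)) :=
      ((sy_x2.mul m.h2ψ.qq).mul (sy_x2.mul m.h2ψ.qq)).ig (by norm_num)
    refine key hk hk' ((m.sphQ1.h1.EE m.sphQ2.h1).ig (by norm_num))
      ((m.sphQ1.h1.Jc m.sphQ2.h1).ig (by norm_num)) (In_Jc m.sphQ1.sy m.sphQ2.h1 (by norm_num))
      (iG.add ((j1.add j2).Kmul 4))
      (ub_add iG ((j1.add j2).Kmul 4) uG (ub_K (by norm_num) (ub_add j1 j2 f1 f2))) fun p hp => ?_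
    have e := hA z1 z2 sm_z1 sm_z2 (by rw [D1_z1, D2_z2]) (by rw [D2_z1, D1_z2]) p hp
    refine e.trans (add_le_add le_rfl (mul_le_mul_of_nonneg_left (add_le_add (wG _ p ?_) ?_) hk'))
    · have := r2_nonneg p
      rw [z_sq, rr_apply]
      nlinarith
    · simp only [gr_apply, D1_z1, D2_z1, Pi.mul_apply, Pi.add_apply, Pi.neg_apply, K_apply]
      exact le_of_eq (by ring)

end Pool.Agent.P.MP_2cea5e_gt.Se
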