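import Pool.Agent.P.MP_2cea5e_gt.Se.Api

/-!
Package A7.
-/

open scoped ContDiff Topology ENNReal
open MeasureTheory Set Filter

noncomputable section

namespace Pool.Agent.P.MP_2cea5e_gt.Se

namespace A7P

variable {f : Fx}

theorem D1_pp (hf : Sm f) : D e1 (pp f) = D e1 (q1 f) - D e2 (q2 f) := by
  have h1 := sm_D e1 hf
  have h2 := sm_D e2 hf
  have h11 := sm_D e1 h1
  have h22 := sm_D e2 h2
  have h12 := sm_D e1 h2
  unfold pp q1 q2 Lp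
  rw [D_Kmul e1 _ (sm_add h11 h22), D_Kmul e1 _ (sm_sub h11 h22), D_Kmul e2 _ h12,
    D_add e1 h11 h22, D_sub e1 h11 h22, D_comm e2 e1 h2]
  funext p
  simp only [Pi.add_apply, Pi.mul_apply, Pi.sub_apply, K_apply]
  ring

theorem D2_pp (hf : Sm f) : D e2 (pp f) = -(D e2 (q1 f) + D e1 (q2 f)) := by
  have h1 := sm_D e1 hf
  have h2 := sm_D e2 hf
  have h11 := sm_D e1 h1
  have h22 := sm_D e2 h2
  have h12 := sm_D e1 h2
  unfold pp q1 q2 Lp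
  rw [D_Kmul e2 _ (sm_add h11 h22), D_Kmul e2 _ (sm_sub h11 h22), D_Kmul e1 _ h12,
    D_add e2 h11 h22, D_sub e2 h11 h22, D_comm e2 e1 h1, D_comm e2 e1 hf]
  funext p
  simp only [Pi.add_apply, Pi.mul_apply, Pi.sub_apply, Pi.neg_apply, K_apply]
  ring

theorem gr_pp_le (hf : Sm f) (p : X) : gr (pp f) p ≤ 2 * EE (q1 f) (q2 f) p := by
  have e : EE (q1 f) (q2 f) p = gr (q1 f) p + gr (q2 f) p := rfl
  rw [e, gr_apply, gr_apply, gr_apply, D1_pp hf, D2_pp hf]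
  simp only [Pi.add_apply, Pi.sub_apply, Pi.neg_apply]
  nlinarith [sq_nonneg (D e1 (q1 f) p + D e2 (q2 f) p), sq_nonneg (D e2 (q1 f) p - D e1 (q2 f) p)]

theorem hq1_one (f : Fx) : hq1 1 0 f = q1 f := by
  unfold hq1
  simp

theorem hq2_one (f : Fx) : hq2 1 0 f = q2 f := by
  unfold hq2
  simp

theorem gr_one (p : X) : gr (1 : Fx) p = 0 := by
  rw [gr_apply, D_one, D_one]
  simp

theorem sq_grV {d : Dat} (hM : d.Met) (h5 : d.H5) : Sq (gr d.V) := by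
  have sw : Sy (-2 + -2) (gr d.w) := hM.wS.h1.gr
  have cw : Continuous (gr d.w) := (sm_gr hM.smw).cont
  have i2 : Ig (gr d.w * gr d.w) := (sw.mul sw).ig (by norm_num)
  have s1 : Sq (gr d.w) :=
    Ilb.sq (Ub.ilb h5.gw2 i2 fun p => mul_nonneg (gr_nonneg _ p) (gr_nonneg _ p)) cw
  have l1 : Loc (K 1) := loc_of_cont (sm_K 1).cont
  have s2 : Sq (K 1) := Lb.sq (lb_const (sm_K 1) (D_K e0 1)) l1
  have s3 : Sq (gr d.w + K 1) := Sq.add s1 s2 (loc_of_cont cw) l1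
  obtain ⟨C, hC⟩ := h5.gV
  refine Sq.mono s3 (loc_of_cont (sm_gr hM.smV).cont) ((loc_of_cont cw).add l1) fun ρ =>
    ⟨|C|, abs_nonneg C, fun p hp _ _ => ?_⟩
  have a1 := hC p hp
  have a2 : 1 ≤ rr p * rr p := one_le_mul_of_one_le_of_one_le (one_le_rr p) (one_le_rr p)
  have a3 : gr d.V p ≤ rr p * rr p * gr d.V p := le_mul_of_one_le_left (gr_nonneg _ p) a2
  have j1 : jb p ^ (-3 : ℤ) ≤ 1 := zpow_le_one_of_nonpos₀ (one_le_jb p) (by norm_num)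
  have j0 : 0 ≤ jb p ^ (-3 : ℤ) := zpow_nonneg (jb_pos p).le _
  have g0 := gr_nonneg d.w p
  have a4 : 0 ≤ jb p ^ (-3 : ℤ) * gr d.w p + sg p := add_nonneg (mul_nonneg j0 g0) (sg_pos p).le
  have a5 : jb p ^ (-3 : ℤ) * gr d.w p + sg p ≤ gr d.w p + 1 :=
    add_le_add (mul_le_of_le_one_left g0 j1) (sg_le p)
  have a6 : C * (jb p ^ (-3 : ℤ) * gr d.w p + sg p) ≤ |C| * (gr d.w p + 1) :=
    (mul_le_mul_of_nonneg_right (le_abs_self C) a4).trans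
      (mul_le_mul_of_nonneg_left a5 (abs_nonneg C))
  show gr d.V p ≤ |C| * (gr d.w p + 1)
  exact a3.trans (a1.trans a6)

end A7P

open A7P in
theorem a7_ok (h2 : StA6a) (h3 : StQR) (h4 : StMod1) : StA7 := by
  intro d hM h5 hE
  obtain ⟨k, k', -, hk0, hk⟩ := h2 d hM h5.tS
  have hψ := hM.smψ
  have s1 := sm_q1 hψ
  have s2 := sm_q2 hψ
  have key := hk 1 0 sm_one sm_zero (by rw [D_one, D_zero]) (by rw [D_one, D_zero, neg_zero])
  rw [hq1_one, hq2_one] at key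
  have lV : Loc (gr d.V) := loc_of_cont (sm_gr hM.smV).cont
  have sE : Sy (-2 - 1 + (-2 - 1)) (EE (q1 d.ψ) (q2 d.ψ)) :=
    H1.EE hM.h2ψ.q1.h1 hM.h2ψ.q2.h1
  have iE : Ilb (EE (q1 d.ψ) (q2 d.ψ)) :=
    Ub.ilb hE (sE.ig (by norm_num)) (EE_nonneg _ _)
  have dE : Dec (EE (q1 d.ψ) (q2 d.ψ)) := by
    refine h3 _ _ (K k' * gr d.V) k s1 s2 (lV.Kmul k') (fun p hp _ => ?_) iE
      ((sq_grV hM h5).Kmul hk0)
    have := key p hp
    rw [gr_one] at this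
    simpa using this
  have lE : Loc (EE (q1 d.ψ) (q2 d.ψ)) := loc_of_cont (sm_EE s1 s2).cont
  have e : ∀ p, EE (q1 d.ψ) (q2 d.ψ) p = gr (q1 d.ψ) p + gr (q2 d.ψ) p := fun p => rfl
  refine ⟨h4 _ (sm_pp hψ) ?_, h4 _ s1 ?_, h4 _ s2 ?_⟩
  · exact Dec.mono dE (loc_of_cont (sm_gr (sm_pp hψ)).cont) lE (C := 2) (by norm_num)
      fun p _ => gr_pp_le hψ p
  · refine Dec.mono dE (loc_of_cont (sm_gr s1).cont) lE (C := 1) (by norm_num) fun p _ => ?_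
    have := gr_nonneg (q2 d.ψ) p
    rw [e]; linarith
  · refine Dec.mono dE (loc_of_cont (sm_gr s2).cont) lE (C := 1) (by norm_num) fun p _ => ?_
    have := gr_nonneg (q1 d.ψ) p
    rw [e]; linarith

end Pool.Agent.P.MP_2cea5e_gt.Se
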