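import Pool.Agent.P.MP_2cea5e_gt.Se.Api

/-!
Package A8.
-/

open scoped ContDiff Topology ENNReal
open MeasureTheory Set Filter

noncomputable section

namespace Pool.Agent.P.MP_2cea5e_gt.Se

namespace A8P

variable {d : Dat} {χ : Fx}

theorem gr_z1 (p : X) : gr z1 p = 4 * r2 p := by
  rw [gr_apply, D1_z1, D2_z1, r2_apply]
  simp only [Pi.mul_apply, Pi.neg_apply, K_apply, x1_apply, x2_apply]
  ring

theorem Q_sq (f : Fx) (p : X) : Q1 f p ^ 2 + Q2 f p ^ 2 = r2 p ^ 2 * qq f p := by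
  have h := hq_sq z1 z2 f p
  rw [z_sq] at h
  exact h

theorem PQ_sq (m : d.Met) (w : d.Wc χ) {p : X} (hp : p.2 ≠ 0) :
    (O1 χ - K d.a) p ^ 2 + O2 χ p ^ 2 = r2 (iv p) ^ 2 * qq d.ψ (iv p) := by
  rw [(w.Q1 m).eq p hp, (w.Q2 m).eq p hp, Q_sq]

theorem qq_bd (m : d.Met) (h : d.H3) :
    ∃ C : ℝ, 0 ≤ C ∧ ∀ p : X, 0 ≤ p.1 → qq d.ψ p ≤ C := by
  obtain ⟨C, hC⟩ := h.hp
  refine ⟨|C|, abs_nonneg _, fun p hp => ?_⟩
  have h1 := (abs_le.1 (hC p hp)).2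
  have h2 := hs_eq m.smψ p
  have h3 := qq_nonneg d.ψ p
  have h4 := le_abs_self C
  nlinarith [sq_nonneg (pp d.ψ p)]

theorem ne_of_norm {p : X} (h : 1 ≤ ‖p.2‖) : p.2 ≠ 0 := by
  intro e
  rw [e, norm_zero] at h
  linarith

theorem one_le_r2 {p : X} (h : 1 ≤ ‖p.2‖) : 1 ≤ r2 p := by
  have := norm_sq_le p
  nlinarith

theorem out_bd (m : d.Met) (h : d.H3) (w : d.Wc χ) : ∃ C : ℝ, ∀ p : X, 0 ≤ p.1 → 1 ≤ ‖p.2‖ →
    |(O1 χ - K d.a) p| ≤ C ∧ |O2 χ p| ≤ C := by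
  obtain ⟨C, hC0, hC⟩ := qq_bd m h
  refine ⟨C + 1, fun p hp h1 => ?_⟩
  have e := PQ_sq m w (ne_of_norm h1)
  have r1 : r2 (iv p) ≤ 1 := by
    rw [r2_iv]
    exact inv_le_one_of_one_le₀ (one_le_r2 h1)
  have r0 := r2_nonneg (iv p)
  have q1' := hC (iv p) hp
  have q0 := qq_nonneg d.ψ (iv p)
  have b : r2 (iv p) ^ 2 * qq d.ψ (iv p) ≤ C := by
    have : r2 (iv p) ^ 2 ≤ 1 := by nlinarith
    nlinarith
  constructor
  · refine abs_le_of_sq_le_sq' ?_ (by linarith) |> abs_le.2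
    nlinarith [sq_nonneg (O2 χ p)]
  · refine abs_le_of_sq_le_sq' ?_ (by linarith) |> abs_le.2
    nlinarith [sq_nonneg ((O1 χ - K d.a) p)]

theorem ilb_EE (m : d.Met) (w : d.Wc χ) (hE : Ub (In (EE (Q1 d.ψ) (Q2 d.ψ)))) :
    Ilb (EE (O1 χ - K d.a) (O2 χ)) := by
  obtain ⟨C, hC⟩ := hE
  intro ρ
  refine ⟨C, fun s hs => ?_⟩
  have W := (w.Q1 m).EE m.sphQ1.sm (w.Q2 m) m.sphQ2.sm
  rw [Ib_wit W.eq]
  have ig : Ig (EE (Q1 d.ψ) (Q2 d.ψ)) := (m.sphQ1.h1.EE m.sphQ2.h1).ig (by norm_num)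
  exact (Ii_le_In ig (fun y => EE_nonneg _ _ _) _ _).trans (hC s hs)

theorem ig_V (m : d.Met) : Ig (r2 * r2 * gr d.V) :=
  ((sy_r2.mul sy_r2).mul m.syV.h1.gr).ig (by norm_num)

theorem V_pt (h : d.H5) : ∃ C : ℝ, 0 ≤ C ∧ ∀ p : X, 0 ≤ p.1 →
    (r2 * r2 * gr d.V) p ^ 2 ≤ sg p * (K C * (gr d.w * gr d.w) + K C * sg) p := by
  obtain ⟨C, hC⟩ := h.gV
  refine ⟨2 * C ^ 2, by positivity, fun p hp => ?_⟩
  have h1 := hC p hp
  simp only [Pi.add_apply, Pi.mul_apply, K_apply]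
  have g0 := gr_nonneg d.V p
  have r0 := r2_nonneg p
  have e := rr_apply p
  have a0 : 0 ≤ r2 p * r2 p * gr d.V p := by positivity
  have a1 : r2 p * r2 p * gr d.V p ≤ rr p * rr p * gr d.V p := by
    refine mul_le_mul_of_nonneg_right ?_ g0
    nlinarith
  have a2 : (r2 p * r2 p * gr d.V p) ^ 2 ≤ (C * (jb p ^ (-3 : ℤ) * gr d.w p + sg p)) ^ 2 :=
    pow_le_pow_left₀ a0 (a1.trans h1) 2
  have j : (jb p ^ (-3 : ℤ)) ^ 2 ≤ sg p := by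
    rw [sg_eq, ← zpow_natCast, ← zpow_mul]
    exact zpow_le_zpow_right₀ (one_le_jb p) (by norm_num)
  refine a2.trans ?_
  set u := jb p ^ (-3 : ℤ)
  set g := gr d.w p
  set t := sg p
  have b1 : (u * g + t) ^ 2 ≤ 2 * (t * (g * g) + t * t) := by
    have : u ^ 2 * (g * g) ≤ t * (g * g) := mul_le_mul_of_nonneg_right j (mul_self_nonneg g)
    nlinarith [sq_nonneg (u * g - t)]
  have b2 := mul_le_mul_of_nonneg_left b1 (sq_nonneg C)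
  calc (C * (u * g + t)) ^ 2 = C ^ 2 * (u * g + t) ^ 2 := by ring
    _ ≤ C ^ 2 * (2 * (t * (g * g) + t * t)) := b2
    _ = _ := by ring

theorem sq_V (m : d.Met) (h : d.H5) : Sq fun p => (r2 * r2 * (r2 * r2 * gr d.V)) (iv p) := by
  obtain ⟨C, hC0, hC⟩ := V_pt h
  obtain ⟨B, hB⟩ := h.gw2
  have igs : Ig sg := sy_sg.ig (by norm_num)
  have igw : Ig (gr d.w * gr d.w) := (m.wS.h1.gr.mul m.wS.h1.gr).ig (by norm_num)
  have ig : Ig (K C * (gr d.w * gr d.w) + K C * sg) := (igw.Kmul C).add (igs.Kmul C)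
  intro ρ
  refine ⟨2 * √(C * B + C * s0), fun s hs x _ r hr hr1 => ?_⟩
  rw [Ib_iv]
  have cs := Ii_cs (f := r2 * r2 * gr d.V) (s := s) igs ig (fun y => (sg_pos _).le)
    (fun y => by
      simp only [Pi.add_apply, Pi.mul_apply, K_apply]
      have := sg_pos (s, y)
      have := mul_self_nonneg (gr d.w (s, y))
      positivity) (fun y => hC (s, y) hs) x r
  have e1 : In (K C * (gr d.w * gr d.w) + K C * sg) s ≤ C * B + C * s0 := by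
    rw [In_add (igw.Kmul C) (igs.Kmul C), In_Kmul, In_Kmul, In_sg]
    have := mul_le_mul_of_nonneg_left (hB s hs) hC0
    linarith
  have e2 : √(Ii sg s x r) ≤ 2 * √r := by
    have a1 : √(Ii sg s x r) ≤ 2 * r := by
      refine Real.sqrt_le_iff.2 ⟨by linarith, ?_⟩
      have := Ii_sg s x hr.le
      linarith
    have a2 : r ≤ √r := Real.le_sqrt_of_sq_le (by nlinarith)
    linarith
  calc Ii (r2 * r2 * gr d.V) s x r ≤ _ := le_abs_self _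
    _ ≤ _ := cs
    _ ≤ 2 * √r * √(C * B + C * s0) :=
      mul_le_mul e2 (Real.sqrt_le_sqrt e1) (Real.sqrt_nonneg _) (by positivity)
    _ = _ := by ring

theorem sq_PQ (h1 : StGNS) {P Q : Fx} (hP : Sm P) (hQ : Sm Q) (hE : Ilb (EE P Q))
    (b : ∃ C : ℝ, ∀ p : X, 0 ≤ p.1 → 1 ≤ ‖p.2‖ → |P p| ≤ C ∧ |Q p| ≤ C) :
    Sq (r2 * ((P * P + Q * Q) * (P * P + Q * Q))) := by
  obtain ⟨C, hC⟩ := b
  have lE : Loc (EE P Q) := loc_of_cont (sm_EE hP hQ).cont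
  have gP : Ilb (gr P) := hE.mono (loc_of_cont (sm_gr hP).cont) lE fun ρ =>
    ⟨1, zero_le_one, fun p _ _ => by
      have := gr_nonneg Q p
      simp only [EE, Pi.add_apply]
      linarith⟩
  have gQ : Ilb (gr Q) := hE.mono (loc_of_cont (sm_gr hQ).cont) lE fun ρ =>
    ⟨1, zero_le_one, fun p _ _ => by
      have := gr_nonneg P p
      simp only [EE, Pi.add_apply]
      linarith⟩
  have P8 := h1.l8 P hP gP ⟨C, fun p a b => (hC p a b).1⟩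
  have Q8 := h1.l8 Q hQ gQ ⟨C, fun p a b => (hC p a b).2⟩
  have s8 : ∀ {F : Fx}, Sm F → Sm (F * F * (F * F) * (F * F * (F * F))) := fun hF =>
    sm_mul (sm_mul (sm_mul hF hF) (sm_mul hF hF)) (sm_mul (sm_mul hF hF) (sm_mul hF hF))
  have sN : Sm (P * P + Q * Q) := sm_add (sm_mul hP hP) (sm_mul hQ hQ)
  have sG : Sm ((P * P + Q * Q) * (P * P + Q * Q)) := sm_mul sN sN
  have S8 := P8.add Q8 (loc_of_cont (s8 hP).cont) (loc_of_cont (s8 hQ).cont)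
  have G2 : Ilb ((P * P + Q * Q) * (P * P + Q * Q) * ((P * P + Q * Q) * (P * P + Q * Q))) :=
    S8.mono (loc_of_cont (sm_mul sG sG).cont) (loc_of_cont (sm_add (s8 hP) (s8 hQ)).cont) fun ρ =>
      ⟨8, by norm_num, fun p _ _ => by
        simp only [Pi.add_apply, Pi.mul_apply]
        set u := P p * P p
        set v := Q p * Q p
        have a1 : (u + v) * (u + v) ≤ 2 * (u * u + v * v) := by nlinarith [sq_nonneg (u - v)]
        have a2 : (u + v) * (u + v) * ((u + v) * (u + v)) ≤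
            2 * (u * u + v * v) * (2 * (u * u + v * v)) :=
          mul_self_le_mul_self (mul_self_nonneg _) a1
        nlinarith [sq_nonneg (u * u - v * v)]⟩
  refine (G2.sq sG.cont).mono (loc_of_cont (sm_mul sm_r2 sG).cont) (loc_of_cont sG.cont) fun ρ =>
    ⟨2 * ρ ^ 2, by positivity, fun p _ hρ _ => ?_⟩
  have a1 := r2_le p
  have a2 : ‖p.2‖ ^ 2 ≤ ρ ^ 2 := pow_le_pow_left₀ (norm_nonneg _) hρ 2
  rw [Pi.mul_apply]
  exact mul_le_mul_of_nonneg_right (by linarith) (mul_self_nonneg _)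

theorem point (m : d.Met) (w : d.Wc χ) {k k' : ℝ} {p : X} (hp : p.2 ≠ 0)
    (H : EE (Q1 d.ψ) (Q2 d.ψ) (iv p) ≤ k * Jc (Q1 d.ψ) (Q2 d.ψ) (iv p) +
      k' * ((z1 (iv p) ^ 2 + z2 (iv p) ^ 2) * gr d.V (iv p) + gr z1 (iv p) * qq d.ψ (iv p) ^ 2)) :
    EE (O1 χ - K d.a) (O2 χ) p ≤ k * Jc (O1 χ - K d.a) (O2 χ) p +
      (K k' * (fun p => (r2 * r2 * (r2 * r2 * gr d.V)) (iv p)) + K (4 * k') * (r2 *
        (((O1 χ - K d.a) * (O1 χ - K d.a) + O2 χ * O2 χ) *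
          ((O1 χ - K d.a) * (O1 χ - K d.a) + O2 χ * O2 χ)))) p := by
  have eE := ((w.Q1 m).EE m.sphQ1.sm (w.Q2 m) m.sphQ2.sm).eq p hp
  have eJ := ((w.Q1 m).Jc m.sphQ1.sm (w.Q2 m) m.sphQ2.sm).eq p hp
  have eS := PQ_sq m w hp
  have eR : r2 p * r2 (iv p) = 1 := by
    rw [r2_iv]
    exact mul_inv_cancel₀ (r2_pos hp).ne'
  rw [z_sq, gr_z1] at H
  rw [eE, eJ]
  generalize O1 χ - K d.a = P at eS ⊢
  simp only [Pi.add_apply, Pi.mul_apply, K_apply]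
  have e2 : P p * P p + O2 χ p * O2 χ p = r2 (iv p) ^ 2 * qq d.ψ (iv p) := by
    rw [← eS]; ring
  rw [e2]
  have H' := mul_le_mul_of_nonneg_left H (mul_self_nonneg (r2 (iv p)))
  refine H'.trans (le_of_eq ?_)
  set t := r2 (iv p)
  set q := qq d.ψ (iv p)
  linear_combination (-(4 * k' * t ^ 3 * q ^ 2)) * eR

theorem qq_rr (m : d.Met) (h : d.H3) (w : d.Wc χ) (b1 : Lb (O1 χ - K d.a)) (b2 : Lb (O2 χ)) :
    ∃ C : ℝ, 0 ≤ C ∧ ∀ p : X, 0 ≤ p.1 → rr p ^ 2 * qq d.ψ p ≤ C := by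
  obtain ⟨C, hC0, hC⟩ := qq_bd m h
  obtain ⟨C1, h1⟩ := b1 1
  obtain ⟨C2, h2⟩ := b2 1
  refine ⟨9 * C + 4 * (C1 ^ 2 + C2 ^ 2), by positivity, fun p hp => ?_⟩
  have q0 := qq_nonneg d.ψ p
  have e := rr_apply p
  have r0 := r2_nonneg p
  rcases le_total ‖p.2‖ 1 with a | a
  · have a1 := r2_le p
    have a2 : ‖p.2‖ ^ 2 ≤ 1 := by nlinarith [norm_nonneg p.2]
    have a3 : rr p ^ 2 ≤ 9 := by nlinarith
    have a4 := hC p hp
    have : rr p ^ 2 * qq d.ψ p ≤ 9 * C := mul_le_mul a3 a4 q0 (by norm_num)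
    nlinarith [sq_nonneg C1, sq_nonneg C2]
  · have hp0 := ne_of_norm a
    have r1 := one_le_r2 a
    have n1 : ‖(iv p).2‖ ≤ 1 := by
      have a1 := norm_sq_le (iv p)
      have a2 : r2 (iv p) ≤ 1 := by
        rw [r2_iv]
        exact inv_le_one_of_one_le₀ r1
      nlinarith [norm_nonneg (iv p).2]
    have eS := PQ_sq m w (iv_ne hp0)
    rw [iv_iv hp0] at eS
    have c1 := sq_le_sq' (abs_le.1 (h1 (iv p) hp n1)).1 (abs_le.1 (h1 (iv p) hp n1)).2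
    have c2 := sq_le_sq' (abs_le.1 (h2 (iv p) hp n1)).1 (abs_le.1 (h2 (iv p) hp n1)).2
    have a3 : rr p ^ 2 ≤ 4 * r2 p ^ 2 := by nlinarith
    have : rr p ^ 2 * qq d.ψ p ≤ 4 * r2 p ^ 2 * qq d.ψ p := mul_le_mul_of_nonneg_right a3 q0
    nlinarith

theorem V_rr (h : d.H5) :
    ∃ C : ℝ, 0 ≤ C ∧ ∀ p : X, 0 ≤ p.1 → rr p * d.V p ≤ C := by
  obtain ⟨C, hC⟩ := h.Vs
  refine ⟨2 * |C|, by positivity, fun p hp => ?_⟩
  have a := hC p hp (jb p) (jb_pos p)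
  have j0 := jb_pos p
  have j1 := one_le_jb p
  have e : rr p * (jb p * sg p + jb p ^ (-3 : ℤ) / jb p) = (jb p)⁻¹ + (jb p)⁻¹ ^ 2 := by
    rw [sg_eq, ← jb_sq, zpow_neg, zpow_neg]
    norm_cast
    field_simp
  have i1 : (jb p)⁻¹ ≤ 1 := inv_le_one_of_one_le₀ j1
  have i0 : 0 ≤ (jb p)⁻¹ := by positivity
  have b := mul_le_mul_of_nonneg_left a (rr_pos p).le
  have b2 : rr p * (C * (jb p * sg p + jb p ^ (-3 : ℤ) / jb p)) =
      C * ((jb p)⁻¹ + (jb p)⁻¹ ^ 2) := by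
    rw [← e]; ring
  rw [b2] at b
  have t2 : (jb p)⁻¹ + (jb p)⁻¹ ^ 2 ≤ 2 := by nlinarith
  have t0 : 0 ≤ (jb p)⁻¹ + (jb p)⁻¹ ^ 2 := by positivity
  have : C * ((jb p)⁻¹ + (jb p)⁻¹ ^ 2) ≤ |C| * 2 :=
    mul_le_mul (le_abs_self C) t2 t0 (abs_nonneg C)
  linarith

theorem hs_rr (m : d.Met) (h : d.H5) (w : d.Wc χ) (b1 : Lb (O1 χ - K d.a)) (b2 : Lb (O2 χ)) :
    Pb (rr * rr * hs d.ψ) := by
  obtain ⟨B, hB0, hB⟩ := qq_rr m h.toH3 w b1 b2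
  obtain ⟨C, hC0, hC⟩ := V_rr h
  refine ⟨8 * ((C / 4 + B) / d.c) ^ 2 + 8 * B, fun p hp => ?_⟩
  have hc := m.hc
  have r1 := one_le_rr p
  have q0 := qq_nonneg d.ψ p
  have a1 := hB p hp
  have a2 := hC p hp
  have a3 := m.V_pq p
  have p0 : 0 < pp d.ψ p := by
    have := m.Lp_pos p
    simp only [pp, Pi.mul_apply, K_apply]
    linarith
  have a4 : rr p * qq d.ψ p ≤ B := by
    have : rr p * qq d.ψ p ≤ rr p ^ 2 * qq d.ψ p :=
      mul_le_mul_of_nonneg_right (by nlinarith) q0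
    linarith
  have a5 : rr p * pp d.ψ p ≤ (C / 4 + B) / d.c := by
    rw [le_div_iff₀ hc]
    have : 0 ≤ rr p * pp d.ψ p ^ 2 := by positivity
    have e : rr p * d.V p = 4 * (rr p * pp d.ψ p * d.c + rr p * pp d.ψ p ^ 2 -
        rr p * qq d.ψ p) := by rw [a3]; ring
    linarith
  have a6 : (rr p * pp d.ψ p) ^ 2 ≤ ((C / 4 + B) / d.c) ^ 2 :=
    pow_le_pow_left₀ (by positivity) a5 2
  have h0 := hs_nonneg d.ψ p
  simp only [Pi.mul_apply]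
  rw [abs_of_nonneg (by positivity), hs_eq m.smψ p]
  nlinarith

end A8P

open A8P in
theorem a8_ok (h1 : StGNS) (h2 : StA6a) (h3 : StQR) (h4 : StMod1) : StA8 := by
  intro d χ m h hE w
  obtain ⟨k, k', -, hk, H⟩ := h2 d m h.tS
  have H' := H z1 z2 sm_z1 sm_z2 (by rw [D1_z1, D2_z2]) (by rw [D2_z1, D1_z2])
  have sP : Sm (O1 χ - K d.a) := (w.Q1 m).sm
  have sQ : Sm (O2 χ) := (w.Q2 m).sm
  have iE := ilb_EE m w hE
  have ob := out_bd m h.toH3 w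
  have l1 := (ig_V m).loc_iv
  have sN := sm_add (sm_mul sP sP) (sm_mul sQ sQ)
  have l2 := loc_of_cont (sm_mul sm_r2 (sm_mul sN sN)).cont
  have dec := h3 _ _ _ k sP sQ ((l1.Kmul k').add (l2.Kmul (4 * k')))
    (fun p hp hp0 => point m w hp0 (H' (iv p) hp)) iE
    (((sq_V m h).Kmul hk).add ((sq_PQ h1 sP sQ iE ob).Kmul (by positivity)) (l1.Kmul k')
      (l2.Kmul (4 * k')))
  have lE := loc_of_cont (sm_EE sP sQ).cont
  have eP : Eqc (O1 χ - K d.a) := h4 _ sP (dec.mono (loc_of_cont (sm_gr sP).cont) lE zero_le_one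
    fun p _ => by
      have := gr_nonneg (O2 χ) p
      simp only [EE, Pi.add_apply]
      linarith)
  have eQ : Eqc (O2 χ) := h4 _ sQ (dec.mono (loc_of_cont (sm_gr sQ).cont) lE zero_le_one
    fun p _ => by
      have := gr_nonneg (O1 χ - K d.a) p
      simp only [EE, Pi.add_apply]
      linarith)
  obtain ⟨C, hC⟩ := ob
  have n1 : (1 : ℝ) ≤ ‖((1, 0) : ℝ × ℝ)‖ := by simp [Prod.norm_def]
  have bP : Lb (O1 χ - K d.a) := eP.lb (1, 0) ⟨C, fun s hs => (hC (s, (1, 0)) hs n1).1⟩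
  have bQ : Lb (O2 χ) := eQ.lb (1, 0) ⟨C, fun s hs => (hC (s, (1, 0)) hs n1).2⟩
  have e : O1 χ = O1 χ - K d.a + K d.a := (sub_add_cancel _ _).symm
  refine ⟨?_, eQ, ?_, bQ, hs_rr m h w bP bQ⟩
  · rw [e]
    exact eP.add (eqc_const (sm_K _) (D_K _ _))
  · rw [e]
    exact bP.add (lb_const (sm_K _) (D_K _ _))

end Pool.Agent.P.MP_2cea5e_gt.Se
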