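import Pool.Agent.P.MP_2cea5e_gt.Se.Api

/-!
Package A9.
-/

open scoped ContDiff Topology ENNReal
open MeasureTheory Set Filter

noncomputable section

namespace Pool.Agent.P.MP_2cea5e_gt.Se

namespace A9P

variable {d : Dat} {χ g : Fx}

theorem ilb_gr (hM : d.Met) (h5 : d.H5) (hg : Wit d.w g) : Ilb (gr g) := by
  intro ρ
  obtain ⟨C, hC⟩ := h5.gw
  refine ⟨C, fun s hs => ?_⟩
  rw [Ib_wit (f := gr d.w) (hg.gr hM.smw).eq]
  exact (Ii_le_In (hM.wS.h1.gr.ig (by norm_num)) (fun y => gr_nonneg _ _) 0 ρ).trans (hC s hs)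

theorem In_jb (s : ℝ) : In (fun p => jb p ^ (-3 : ℤ)) s = In (fun p => jb p ^ (-3 : ℤ)) 0 := rfl

theorem sqrt_le {a A : ℝ} (h : a ≤ A) : √a ≤ √(max A 0) :=
  Real.sqrt_le_sqrt (h.trans (le_max_left _ _))

theorem le_sqrt {r : ℝ} (h0 : 0 < r) (h1 : r ≤ 1) : r ≤ √r :=
  Real.le_sqrt_of_sq_le (by nlinarith)

/-- The volume of small balls at infinity. -/
theorem Ii_V (hM : d.Met) (h5 : d.H5) : ∃ C : ℝ, 0 ≤ C ∧ ∀ s, 0 ≤ s → ∀ (x : ℝ × ℝ) r, 0 < r →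
    Ii d.V s x r ≤ C * r := by
  obtain ⟨C, hC⟩ := h5.Vs
  set J : Fx := fun p => jb p ^ (-3 : ℤ) with hJ
  have J0 : ∀ p, 0 ≤ J p := fun p => zpow_nonneg (jb_pos p).le _
  have iJ : Ig J := ig_jb
  have iS : Ig sg := sy_sg.ig (by norm_num)
  have hI : 0 ≤ In J 0 := In_nonneg fun x => J0 _
  refine ⟨max C 0 * (4 + In J 0), mul_nonneg (le_max_right _ _) (by linarith), fun s hs x r hr => ?_⟩
  have hm : 0 ≤ max C 0 := le_max_right _ _
  have a1 : Ii d.V s x r ≤ Ii (K (max C 0 / r) * sg + K (max C 0 * r) * J) s x r := by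
    refine Ii_mono (hM.syV.ig (by norm_num)) ((iS.Kmul _).add (iJ.Kmul _)) fun y _ => ?_
    have b1 := hC (s, y) hs r⁻¹ (inv_pos.2 hr)
    have b2 : 0 ≤ r⁻¹ * sg (s, y) + jb (s, y) ^ (-3 : ℤ) / r⁻¹ :=
      add_nonneg (mul_nonneg (inv_pos.2 hr).le (sg_pos _).le)
        (div_nonneg (J0 _) (inv_pos.2 hr).le)
    refine (b1.trans (mul_le_mul_of_nonneg_right (le_max_left C 0) b2)).trans (le_of_eq ?_)
    simp only [Pi.add_apply, Pi.mul_apply, K_apply, hJ, div_inv_eq_mul]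
    ring
  rw [Ii_add (iS.Kmul _) (iJ.Kmul _), Ii_Kmul, Ii_Kmul] at a1
  have a2 := Ii_sg s x hr.le
  have a3 : Ii J s x r ≤ In J 0 := (Ii_le_In iJ (fun y => J0 _) x r).trans (In_jb s).le
  have a4 : max C 0 / r * Ii sg s x r ≤ max C 0 / r * (4 * r ^ 2) :=
    mul_le_mul_of_nonneg_left a2 (div_nonneg hm hr.le)
  have a5 : max C 0 * r * Ii J s x r ≤ max C 0 * r * In J 0 :=
    mul_le_mul_of_nonneg_left a3 (mul_nonneg hm hr.le)
  have a6 : max C 0 / r * (4 * r ^ 2) = max C 0 * 4 * r := by field_simp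
  nlinarith

theorem sq_lp (hM : d.Met) (h5 : d.H5) (h8 : d.H8 χ) (hg : Wit d.w g) : Sq (Ab (Lp g)) := by
  intro ρ
  obtain ⟨C1, c1, hV⟩ := Ii_V hM h5
  obtain ⟨C2, hCa⟩ := h5.ca
  obtain ⟨C3, hp⟩ := h8.hp
  obtain ⟨C4, hL⟩ := h5.hL
  have hc := hM.hc
  have c3 : 0 ≤ C3 := (abs_nonneg _).trans (hp (0, 0) le_rfl)
  have iS : Ig sg := sy_sg.ig (by norm_num)
  have iV : Ig d.V := hM.syV.ig (by norm_num)
  have iRV : Ig (Ab (d.R * d.V)) := ((hM.RS.sy.mul hM.syV).ig (by norm_num)).ab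
  have iRR : Ig (d.R * d.R * d.V) := ((hM.RS.sy.mul hM.RS.sy).mul hM.syV).ig (by norm_num)
  have iD : Ig (Ab (DD d.ψ d.L)) := ((hM.h2ψ.DD hM.h2L).ig (by norm_num)).ab
  have iH : Ig (hs d.L) := hM.h2L.hs.ig (by norm_num)
  have iW : Ig (Ab (Lp d.w)) := (hM.wS.lp.ig (by norm_num)).ab
  refine ⟨d.c⁻¹ * (√C1 * √(max C2 0) + √(C3 * 4) * √(max C4 0)) + 32, fun s hs x _ r r0 r1 => ?_⟩
  have e1 : Ib (Ab (Lp g)) s x r = Ii (Ab (Lp d.w)) s x r := by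
    refine Ib_wit (fun p hp0 => ?_) s x r
    rw [Ab_apply, (hg.Lp hM.smw).eq p hp0]
    simp only [Pi.mul_apply, Ab_apply, abs_mul, abs_of_nonneg (r2_nonneg _)]
  have a1 : Ii (Ab (Lp d.w)) s x r ≤
      Ii (K d.c⁻¹ * (Ab (d.R * d.V) + Ab (DD d.ψ d.L)) + K 8 * sg) s x r := by
    refine Ii_mono iW (((iRV.add iD).Kmul _).add (iS.Kmul _)) fun y _ => ?_
    have b1 := congrFun hM.Lp_w (s, y)
    simp only [Pi.add_apply, Pi.sub_apply, Pi.neg_apply, Pi.mul_apply, K_apply, Ab_apply] at b1 ⊢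
    have b2 : Lp d.w (s, y) =
        d.c⁻¹ * (-(d.R (s, y) * d.V (s, y)) - DD d.ψ d.L (s, y)) + 8 * sg (s, y) := by
      field_simp
      linarith
    rw [b2]
    refine (abs_add_le _ _).trans (add_le_add ?_ (le_of_eq ?_))
    · rw [abs_mul, abs_of_pos (inv_pos.2 hc)]
      refine mul_le_mul_of_nonneg_left ((abs_sub _ _).trans (le_of_eq ?_)) (inv_pos.2 hc).le
      rw [abs_neg]
    · exact abs_of_pos (mul_pos (by norm_num) (sg_pos _))
  rw [Ii_add ((iRV.add iD).Kmul _) (iS.Kmul _), Ii_Kmul, Ii_Kmul, Ii_add iRV iD] at a1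
  have a2 : Ii (Ab (d.R * d.V)) s x r ≤ √C1 * √(max C2 0) * √r := by
    have b1 := Ii_cs (f := Ab (d.R * d.V)) iV iRR (s := s) (fun y => (hM.Vpos _).le)
      (fun y => mul_nonneg (mul_self_nonneg _) (hM.Vpos _).le)
      (fun y => by simp only [Ab_apply, sq_abs, Pi.mul_apply]; exact le_of_eq (by ring)) x r
    have b2 : √(Ii d.V s x r) ≤ √C1 * √r := by
      rw [← Real.sqrt_mul c1]; exact Real.sqrt_le_sqrt (hV s hs x r r0)
    have b3 : √(In (d.R * d.R * d.V) s) ≤ √(max C2 0) := sqrt_le (hCa s hs)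
    refine ((le_abs_self _).trans b1).trans
      ((mul_le_mul b2 b3 (Real.sqrt_nonneg _) (by positivity)).trans (le_of_eq (by ring)))
  have a3 : Ii (Ab (DD d.ψ d.L)) s x r ≤ √(C3 * 4) * √(max C4 0) * √r := by
    have b1 := Ii_cs (f := Ab (DD d.ψ d.L)) (iS.Kmul C3) iH (s := s)
      (fun y => mul_nonneg c3 (sg_pos _).le) (fun y => hs_nonneg _ _)
      (fun y => by
        rw [Ab_apply, sq_abs]
        refine (DD_sq hM.smψ hM.smL _).trans (mul_le_mul_of_nonneg_right ?_ (hs_nonneg _ _))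
        have b0 := (le_abs_self _).trans (hp (s, y) hs)
        have b1 := rr_pos (s, y)
        simp only [Pi.mul_apply, K_apply, sg_apply] at b0 ⊢
        rw [← div_eq_mul_inv, le_div_iff₀ (by positivity)]
        linarith) x r
    have b2 : √(Ii (K C3 * sg) s x r) ≤ √(C3 * 4) * √r := by
      rw [← Real.sqrt_mul (by positivity), Ii_Kmul]
      refine Real.sqrt_le_sqrt ((mul_le_mul_of_nonneg_left (Ii_sg s x r0.le) c3).trans ?_)
      have : r ^ 2 ≤ r := by nlinarith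
      nlinarith
    have b3 : √(In (Se.hs d.L) s) ≤ √(max C4 0) := sqrt_le (hL s hs)
    refine ((le_abs_self _).trans b1).trans
      ((mul_le_mul b2 b3 (Real.sqrt_nonneg _) (by positivity)).trans (le_of_eq (by ring)))
  have a4 : Ii sg s x r ≤ 4 * √r := by
    have b1 := le_sqrt r0 r1
    have b2 := Ii_sg s x r0.le
    nlinarith
  have a5 := mul_le_mul_of_nonneg_left (add_le_add a2 a3) (inv_pos.2 hc).le
  rw [e1]
  nlinarith

theorem w_near (h5 : d.H5) : ∃ C : ℝ, ∀ p : X, 0 ≤ p.1 → ‖p.2‖ ≤ 1 → |d.w p| ≤ C := by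
  obtain ⟨C, hC⟩ := h5.wl
  refine ⟨C + 1, fun p hp h1 => (hC p hp).trans ?_⟩
  have a1 := r2_le p
  have a2 : el p ≤ r2 p := by
    have := Real.log_le_sub_one_of_pos (rr_pos p)
    rw [el_apply]; rw [rr_apply] at this ⊢; linarith
  have a3 : ‖p.2‖ ^ 2 ≤ 1 := pow_le_one₀ (norm_nonneg _) h1
  linarith

theorem norm_iv {p : X} (h : 1 ≤ ‖p.2‖) : ‖(iv p).2‖ ≤ 1 := by
  have a1 := norm_sq_le (iv p)
  have a2 := norm_sq_le p
  have a3 : 1 ≤ r2 p := (one_le_pow₀ h).trans a2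
  rw [r2_iv] at a1
  have a4 : (r2 p)⁻¹ ≤ 1 := inv_le_one_of_one_le₀ a3
  exact (sq_le_one_iff₀ (norm_nonneg _)).1 (a1.trans a4)

theorem ne_of_norm {y : ℝ × ℝ} (h : 1 ≤ ‖y‖) : y ≠ 0 := by
  rintro rfl
  rw [norm_zero] at h
  linarith

theorem lb_g (h5 : d.H5) (hg : Wit d.w g) (e : Eqc g) : Lb g := by
  obtain ⟨C, hC⟩ := w_near h5
  have h1 : (1 : ℝ) ≤ ‖((1, 0) : ℝ × ℝ)‖ := by simp [Prod.norm_def]
  refine e.lb (1, 0) ⟨C, fun s hs => ?_⟩
  rw [hg.eq (s, (1, 0)) (ne_of_norm h1)]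
  exact hC _ hs (norm_iv (p := (s, (1, 0))) h1)

theorem pb_w (h5 : d.H5) (hg : Wit d.w g) (b : Lb g) : Pb d.w := by
  obtain ⟨C, hC⟩ := w_near h5
  obtain ⟨C', hC'⟩ := b 1
  refine ⟨max C C', fun p hp => ?_⟩
  rcases le_total ‖p.2‖ 1 with h | h
  · exact (hC p hp h).trans (le_max_left _ _)
  · rw [hg.eq' (ne_of_norm h)]
    exact (hC' (iv p) hp (norm_iv h)).trans (le_max_right _ _)

theorem root {c A A' P P' G G' : ℝ} (hc : 0 < c) (hA : 0 ≤ A) (hP : 0 ≤ P) (hP' : 0 ≤ P')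
    (e : c * P + A * (P * P) = G) (e' : c * P' + A' * (P' * P') = G') :
    c * |P - P'| ≤ |G - G'| + |A - A'| * (P' * P') := by
  have a1 : (c + A * (P + P')) * (P - P') = (G - G') - (A - A') * (P' * P') := by
    rw [← e, ← e']; ring
  have a2 : 0 ≤ A * (P + P') := mul_nonneg hA (add_nonneg hP hP')
  calc c * |P - P'| ≤ (c + A * (P + P')) * |P - P'| :=
        mul_le_mul_of_nonneg_right (by linarith) (abs_nonneg _)
    _ = |(G - G') - (A - A') * (P' * P')| := by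
        rw [← a1, abs_mul, abs_of_pos (by linarith : 0 < c + A * (P + P'))]
    _ ≤ _ := by
        refine (abs_sub _ _).trans (le_of_eq ?_)
        rw [abs_mul, abs_of_nonneg (mul_self_nonneg P')]

theorem quad {c : ℝ} {A P G : Fx} (hc : 0 < c) (hA : ∀ p, 0 ≤ A p) (hP : ∀ p, 0 ≤ P p)
    (e : ∀ p, c * P p + A p * (P p * P p) = G p) (eA : Eqc A) (eG : Eqc G) (bG : Lb G) :
    Eqc P ∧ Lb P := by
  have bP : Lb P := fun ρ => by
    obtain ⟨C, hC⟩ := bG ρ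
    refine ⟨C / c, fun p h0 h1 => ?_⟩
    rw [abs_of_nonneg (hP p), le_div_iff₀ hc]
    have a1 := (le_abs_self _).trans (hC p h0 h1)
    have a2 := mul_nonneg (hA p) (mul_self_nonneg (P p))
    have a3 := e p
    linarith
  refine ⟨fun ρ ε hε => ?_, bP⟩
  obtain ⟨C, hC⟩ := bP ρ
  have q : 0 < C * C + 1 := by nlinarith [mul_self_nonneg C]
  obtain ⟨δ1, d1, h1⟩ := eG ρ (c * ε / 2) (by positivity)
  obtain ⟨δ2, d2, h2⟩ := eA ρ (c * ε / 2 / (C * C + 1)) (by positivity)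
  refine ⟨min δ1 δ2, lt_min d1 d2, fun s hs x y hx hy hxy => ?_⟩
  have a1 := h1 s hs x y hx hy (hxy.trans (min_le_left _ _))
  have a2 := h2 s hs x y hx hy (hxy.trans (min_le_right _ _))
  have a3 := root hc (hA (s, x)) (hP (s, x)) (hP (s, y)) (e (s, x)) (e (s, y))
  have a4 := hC (s, y) hs hy
  rw [abs_of_nonneg (hP _)] at a4
  have a5 : P (s, y) * P (s, y) ≤ C * C + 1 := by nlinarith [hP (s, y)]
  have a6 : |A (s, x) - A (s, y)| * (P (s, y) * P (s, y)) ≤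
      c * ε / 2 / (C * C + 1) * (C * C + 1) :=
    mul_le_mul a2 a5 (mul_self_nonneg _) (by positivity)
  rw [div_mul_cancel₀ _ q.ne'] at a6
  exact le_of_mul_le_mul_left (by linarith) hc

end A9P

open A9P in
theorem a9_ok (h : StMod2) : StA9 := by
  intro d χ hM h5 hW h8
  obtain ⟨g, hg⟩ := hM.wS.wit
  have eg : Eqc g := h g hg.sm (ilb_gr hM h5 hg) (sq_lp hM h5 h8 hg)
  have bg : Lb g := lb_g h5 hg eg
  have hK : D e0 (K d.a) = 0 := D_K _ _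
  have e1 : Eqc (O1 χ - K d.a) := h8.e1.sub (eqc_const (sm_K _) hK)
  have b1 : Lb (O1 χ - K d.a) := h8.b1.sub (lb_const (sm_K _) hK)
  have er := eqc_const sm_r2 D0_r2
  have br := lb_const sm_r2 D0_r2
  have es := eqc_const sm_sg D0_sg
  have bs := lb_const sm_sg D0_sg
  obtain ⟨eP, bP⟩ := quad (c := d.c) (A := K (1 / 4) * (r2 * r2)) (P := Lp χ)
    (G := sg * Ex g + K 4 * ((O1 χ - K d.a) * (O1 χ - K d.a) + O2 χ * O2 χ)) hM.hc
    (fun p => mul_nonneg (by norm_num : (0 : ℝ) ≤ 1 / 4) (mul_self_nonneg (r2 p)))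
    (hW.Lp_nonneg hM)
    (fun p => by
      have a := congrFun (hW.Vi hM hg) p
      simp only [Dat.Vi, Pi.add_apply, Pi.sub_apply, Pi.mul_apply, K_apply] at a ⊢
      linarith)
    ((er.mul er br br).Kmul _)
    ((es.mul (eg.ex bg) bs bg.ex).add
      (((e1.mul e1 b1 b1).add (h8.e2.mul h8.e2 h8.b2 h8.b2)).Kmul _))
    ((bs.mul bg.ex).add (((b1.mul b1).add (h8.b2.mul h8.b2)).Kmul _))
  exact ⟨pb_w h5 hg bg, eP, bP⟩

end Pool.Agent.P.MP_2cea5e_gt.Se
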