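import Pool.Agent.P.MP_2cea5e_gt.Se.ApiQ

/-!
Weakly Lipschitz families.
-/

open scoped ContDiff Topology
open MeasureTheory Set Filter

noncomputable section

namespace Pool.Agent.P.MP_2cea5e_gt.Se

variable {f g h : Fx} {t τ : ℝ → ℝ} {T : ℝ}

namespace ApiLP

variable {k : Fx} {R : ℝ}

/-- The kernel read at time zero. -/
def k0 (k : Fx) : Fx := fun p => k (0, p.2)

theorem sm_k0 (hk : Sm k) : Sm (k0 k) :=
  ContDiff.comp hk (contDiff_const.prodMk contDiff_snd)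

theorem D0_k0 (hk : Sm k) : D e0 (k0 k) = 0 := by
  funext p
  have h1 := hasDerivAt_time (sm_k0 hk) p.1 p.2
  have h2 : HasDerivAt (fun s : ℝ => k0 k (s, p.2)) 0 p.1 := hasDerivAt_const p.1 (k (0, p.2))
  exact h1.unique h2

theorem cs_k0 (hk : Ker R k) : Cs2 (k0 k) :=
  ⟨sm_k0 hk.sm, fun _ => ⟨R, fun p _ hp => hk.supp (0, p.2) hp⟩⟩

theorem ig_ker (hk : Ker R k) {F : ℝ × ℝ → ℝ} (hF : Continuous F) :
    Integrable fun y : ℝ × ℝ => F y * k (0, y) := by
  have hc : Continuous fun y : ℝ × ℝ => k (0, y) :=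
    hk.sm.cont.comp (continuous_const.prodMk continuous_id)
  refine (hF.mul hc).integrable_of_hasCompactSupport ?_
  refine HasCompactSupport.intro (isCompact_closedBall (0 : ℝ × ℝ) R) fun y hy => ?_
  have : R ≤ ‖y‖ := by
    rw [mem_closedBall_zero_iff, not_le] at hy
    exact hy.le
  exact mul_eq_zero_of_right _ (hk.supp (0, y) this)

theorem cont_sl (hf : Sm f) (s : ℝ) : Continuous fun y : ℝ × ℝ => f (s, y) :=
  hf.cont.comp (continuous_const.prodMk continuous_id)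

theorem lip_of_deriv {I J : ℝ → ℝ} {C : ℝ} (hc : Clk t τ T)
    (hI : ∀ s, HasDerivAt I (τ s * J s) s) (hJ : ∀ s, 0 ≤ s → |J s| ≤ C) {s s' : ℝ}
    (hs : 0 ≤ s) (hs' : 0 ≤ s') : |I s - I s'| ≤ C * |t s - t s'| := by
  have hC : 0 ≤ C := (abs_nonneg _).trans (hJ 0 le_rfl)
  have key : ∀ σ : ℝ, |σ| ≤ 1 → MonotoneOn (fun s => C * t s + σ * I s) (Ici 0) := by
    intro σ hσ
    have hd : ∀ s, HasDerivAt (fun s => C * t s + σ * I s) (C * τ s + σ * (τ s * J s)) s :=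
      fun s => ((hc.dt s).const_mul C).add ((hI s).const_mul σ)
    refine monotoneOn_of_deriv_nonneg (convex_Ici 0)
      (fun s _ => (hd s).continuousAt.continuousWithinAt)
      (fun s _ => (hd s).differentiableAt.differentiableWithinAt) fun s hs => ?_
    rw [(hd s).deriv]
    have h0 : 0 ≤ s := interior_subset (s := Ici (0 : ℝ)) hs
    have h1 : |σ * J s| ≤ C := by
      rw [abs_mul]
      calc |σ| * |J s| ≤ 1 * C := mul_le_mul hσ (hJ s h0) (abs_nonneg _) zero_le_one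
        _ = C := one_mul C
    have h2 : 0 ≤ C + σ * J s := by linarith [neg_abs_le (σ * J s)]
    have h3 : C * τ s + σ * (τ s * J s) = τ s * (C + σ * J s) := by ring
    rw [h3]
    exact mul_nonneg (hc.pos s).le h2
  have main : ∀ a b : ℝ, 0 ≤ a → a ≤ b → |I b - I a| ≤ C * |t b - t a| := by
    intro a b ha hab
    have h1 := key 1 (by simp) ha (ha.trans hab) hab
    have h2 := key (-1) (by simp) ha (ha.trans hab) hab
    have h3 : C * (t b - t a) ≤ C * |t b - t a| := mul_le_mul_of_nonneg_left (le_abs_self _) hC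
    simp only at h1 h2
    rw [abs_le]
    constructor <;> linarith
  rcases le_total s s' with h | h
  · rw [abs_sub_comm (I s), abs_sub_comm (t s)]
    exact main s s' hs h
  · exact main s' s hs' h

theorem mo_one (k F : Fx) (s : ℝ) :
    mo k F s (1, 0) = ∫ y : ℝ × ℝ, F (s, y) * k (0, y) := by
  simp only [mo, one_smul, zero_add]

/-- The kernel at scale `r` around `x`. -/
def kr (k : Fx) (r : ℝ) (x : ℝ × ℝ) : Fx := fun p => (r ^ 2)⁻¹ * k (0, r⁻¹ • (p.2 - x))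

theorem ker_kr (hk : Ker 1 k) {r : ℝ} (hr : 0 < r) (x : ℝ × ℝ) : Ker (‖x‖ + r) (kr k r x) := by
  refine ⟨contDiff_const.mul (ContDiff.comp hk.sm (contDiff_const.prodMk
    ((contDiff_snd.sub contDiff_const).const_smul r⁻¹))), fun p hp => ?_⟩
  have h1 : r ≤ ‖p.2 - x‖ := by linarith [norm_sub_norm_le p.2 x]
  have h2 : 1 ≤ ‖r⁻¹ • (p.2 - x)‖ := by
    rw [norm_smul, Real.norm_eq_abs, abs_of_pos (inv_pos.2 hr), ← div_eq_inv_mul, le_div_iff₀ hr]
    linarith
  simp only [kr, hk.supp (0, r⁻¹ • (p.2 - x)) h2, mul_zero]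

theorem mo_kr (k F : Fx) (s : ℝ) {r : ℝ} (hr : 0 < r) (x : ℝ × ℝ) :
    mo k F s (r, x) = ∫ y : ℝ × ℝ, F (s, y) * kr k r x (0, y) := by
  rw [mo_eq k F s hr x, ← integral_const_mul]
  refine integral_congr_ae (Eventually.of_forall fun y => ?_)
  simp only [kr]
  ring

theorem mo_close (hk : Ker 1 k) (h0 : ∀ p, 0 ≤ k p) (h1 : In k 0 = 1) (hf : Sm f) {s r ε : ℝ}
    {x : ℝ × ℝ} (e : ∀ y : ℝ × ℝ, ‖y‖ < 1 → |f (s, x + r • y) - f (s, x)| ≤ ε) :
    |mo k f s (r, x) - f (s, x)| ≤ ε := by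
  have c1 : Continuous fun y : ℝ × ℝ => f (s, x + r • y) :=
    (cont_sl hf s).comp (continuous_const.add (continuous_id.const_smul r))
  have i1 := ig_ker hk c1
  have i2 := ig_ker hk (continuous_const (y := f (s, x)))
  have i3 := ig_ker hk (continuous_const (y := ε))
  have e1' : ∀ c : ℝ, ∫ y : ℝ × ℝ, c * k (0, y) = c := by
    intro c
    have : ∫ y : ℝ × ℝ, k (0, y) = 1 := h1
    rw [integral_const_mul, this, mul_one]
  have e2' : mo k f s (r, x) - f (s, x) =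
      ∫ y : ℝ × ℝ, (f (s, x + r • y) * k (0, y) - f (s, x) * k (0, y)) := by
    rw [integral_sub i1 i2, e1']
    rfl
  rw [e2', ← Real.norm_eq_abs]
  refine (norm_integral_le_of_norm_le i3 (Eventually.of_forall fun y => ?_)).trans (e1' ε).le
  rw [← sub_mul, Real.norm_eq_abs, abs_mul, abs_of_nonneg (h0 _)]
  rcases lt_or_ge ‖y‖ 1 with hy | hy
  · exact mul_le_mul_of_nonneg_right (e y hy) (h0 _)
  · simp only [hk.supp (0, y) hy, mul_zero, le_refl]

end ApiLP

open ApiLP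

theorem wl_base (hc : Clk t τ T) (hf : Sm f) (hg : Sm g) (e : D e0 f = Tm τ * g)
    (hb : Ilb (Ab g)) : WL t f := by
  intro R k hk
  obtain ⟨A, hA0, hA⟩ := hk.bd
  obtain ⟨B, hB⟩ := hb R
  have hcs : Cs2 (f * k0 k) := Cs2.mul' hf (cs_k0 hk)
  have hD : D e0 (f * k0 k) = Tm τ * (g * k0 k) := by
    rw [D_mul _ hf (sm_k0 hk.sm), D0_k0 hk.sm, e, mul_zero, add_zero, mul_assoc]
  have hI : ∀ s, HasDerivAt (In (f * k0 k)) (τ s * In (g * k0 k) s) s := by
    intro s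
    have := (hcs.sy (-3)).hasDerivAt le_rfl s
    rwa [hD, In_Tm] at this
  have hJ : ∀ s, 0 ≤ s → |In (g * k0 k) s| ≤ A * B := by
    intro s hs
    have e1' : In (g * k0 k) s = ∫ y in Metric.ball (0 : ℝ × ℝ) R, g (s, y) * k (0, y) := by
      refine (setIntegral_eq_integral_of_forall_compl_eq_zero fun y hy => ?_).symm
      rw [mem_ball_zero_iff, not_lt] at hy
      exact mul_eq_zero_of_right _ (hk.supp (0, y) hy)
    have i1 : IntegrableOn (fun y : ℝ × ℝ => A * Ab g (s, y)) (Metric.ball (0 : ℝ × ℝ) R) :=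
      (loc_of_cont (f := Ab g) hg.cont.abs s 0 R).const_mul A
    rw [e1', ← Real.norm_eq_abs]
    refine (norm_integral_le_of_norm_le i1 (Eventually.of_forall fun y => ?_)).trans ?_
    · rw [Real.norm_eq_abs, abs_mul, mul_comm]
      exact mul_le_mul_of_nonneg_right (hA y) (abs_nonneg _)
    · rw [integral_const_mul]
      exact mul_le_mul_of_nonneg_left (hB s hs) hA0
  exact ⟨A * B, fun s hs s' hs' => lip_of_deriv hc hI hJ hs hs'⟩

theorem WL.D1 (h : WL t f) (hf : Sm f) : WL t (D e1 f) := by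
  intro R k hk
  obtain ⟨C, hC⟩ := h R _ (hk.D e1 rfl)
  refine ⟨C, fun s hs s' hs' => ?_⟩
  have e : ∀ s, ∫ y : ℝ × ℝ, D e1 f (s, y) * k (0, y) =
      -∫ y : ℝ × ℝ, f (s, y) * D e1 k (0, y) := by
    intro s
    have := mo_ibp1 hk hf s (1, 0)
    rwa [mo_one, mo_one, one_mul] at this
  rw [e, e, neg_sub_neg, abs_sub_comm]
  exact hC s hs s' hs'

theorem WL.D2 (h : WL t f) (hf : Sm f) : WL t (D e2 f) := by
  intro R k hk
  obtain ⟨C, hC⟩ := h R _ (hk.D e2 rfl)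
  refine ⟨C, fun s hs s' hs' => ?_⟩
  have e : ∀ s, ∫ y : ℝ × ℝ, D e2 f (s, y) * k (0, y) =
      -∫ y : ℝ × ℝ, f (s, y) * D e2 k (0, y) := by
    intro s
    have := mo_ibp2 hk hf s (1, 0)
    rwa [mo_one, mo_one, one_mul] at this
  rw [e, e, neg_sub_neg, abs_sub_comm]
  exact hC s hs s' hs'

theorem WL.add (h : WL t f) (h' : WL t g) (hf : Sm f) (hg : Sm g) : WL t (f + g) := by
  intro R k hk
  obtain ⟨C, hC⟩ := h R k hk
  obtain ⟨C', hC'⟩ := h' R k hk
  refine ⟨C + C', fun s hs s' hs' => ?_⟩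
  have e : ∀ s, ∫ y : ℝ × ℝ, (f + g) (s, y) * k (0, y) =
      (∫ y : ℝ × ℝ, f (s, y) * k (0, y)) + ∫ y : ℝ × ℝ, g (s, y) * k (0, y) := by
    intro s
    rw [← integral_add (ig_ker hk (cont_sl hf s)) (ig_ker hk (cont_sl hg s))]
    simp only [Pi.add_apply, add_mul]
  rw [e, e, add_sub_add_comm, add_mul]
  exact (abs_add_le _ _).trans (add_le_add (hC s hs s' hs') (hC' s hs s' hs'))

theorem WL.sub (h : WL t f) (h' : WL t g) (hf : Sm f) (hg : Sm g) : WL t (f - g) := by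
  intro R k hk
  obtain ⟨C, hC⟩ := h R k hk
  obtain ⟨C', hC'⟩ := h' R k hk
  refine ⟨C + C', fun s hs s' hs' => ?_⟩
  have e : ∀ s, ∫ y : ℝ × ℝ, (f - g) (s, y) * k (0, y) =
      (∫ y : ℝ × ℝ, f (s, y) * k (0, y)) - ∫ y : ℝ × ℝ, g (s, y) * k (0, y) := by
    intro s
    rw [← integral_sub (ig_ker hk (cont_sl hf s)) (ig_ker hk (cont_sl hg s))]
    simp only [Pi.sub_apply, sub_mul]
  rw [e, e, sub_sub_sub_comm, add_mul]
  exact (abs_sub _ _).trans (add_le_add (hC s hs s' hs') (hC' s hs s' hs'))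

theorem WL.mul (h : WL t f) (hg : Sm g) (e : D e0 g = 0) : WL t (g * f) := by
  intro R k hk
  obtain ⟨C, hC⟩ := h R _ (hk.mul hg)
  refine ⟨C, fun s hs s' hs' => ?_⟩
  have e' : ∀ s, ∫ y : ℝ × ℝ, (g * f) (s, y) * k (0, y) =
      ∫ y : ℝ × ℝ, f (s, y) * (g * k) (0, y) := by
    intro s
    refine integral_congr_ae (Eventually.of_forall fun y => ?_)
    simp only [Pi.mul_apply, time_indep hg e s y]
    ring
  rw [e', e']
  exact hC s hs s' hs'

theorem WL.jm (h : WL t f) (hf : Sm f) (e : Eqc f) : JM t f := by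
  intro ρ ε hε
  obtain ⟨k, -, hk, -, h0, h1, -⟩ := exists_rad
  obtain ⟨δ, hδ, he⟩ := e (ρ + 1) (ε / 6) (by positivity)
  have hr : 0 < min δ 1 := lt_min hδ one_pos
  have hr1 : min δ 1 ≤ 1 := min_le_right _ _
  have hrδ : min δ 1 ≤ δ := min_le_left _ _
  generalize min δ 1 = r at hr hr1 hrδ
  have hx : ∀ x : ℝ × ℝ, ∃ C : ℝ, ∀ s, 0 ≤ s → ∀ s', 0 ≤ s' →
      |mo k f s (r, x) - mo k f s' (r, x)| ≤ C * |t s - t s'| := by
    intro x
    obtain ⟨C, hC⟩ := h _ _ (ker_kr hk hr x)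
    exact ⟨C, fun s hs s' hs' => by rw [mo_kr k f s hr, mo_kr k f s' hr]; exact hC s hs s' hs'⟩
  choose C hC using hx
  obtain ⟨N, hN, hfin, hcov⟩ :=
    finite_cover_balls_of_compact (isCompact_closedBall (0 : ℝ × ℝ) ρ) hr
  obtain ⟨B, hB⟩ := (hfin.image C).bddAbove
  have hB1 : 0 < |B| + 1 := by positivity
  refine ⟨min r (ε / 6 / (|B| + 1)), lt_min hr (by positivity), ?_⟩
  intro s hs s' hs' x y hx hy hxy hts
  obtain ⟨z, hz, hxz⟩ := mem_iUnion₂.1 (hcov (mem_closedBall_zero_iff.2 hx))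
  have hzρ : ‖z‖ ≤ ρ := mem_closedBall_zero_iff.1 (hN hz)
  have hxz' : ‖x - z‖ ≤ δ := by
    rw [← dist_eq_norm]
    exact (Metric.mem_ball.1 hxz).le.trans hrδ
  have cl : ∀ s, 0 ≤ s → |mo k f s (r, z) - f (s, z)| ≤ ε / 6 := by
    intro s hs
    refine mo_close hk h0 h1 hf fun w hw => ?_
    have hn : ‖r • w‖ ≤ r := by
      rw [norm_smul, Real.norm_eq_abs, abs_of_pos hr]
      exact mul_le_of_le_one_right hr.le hw.le
    refine he s hs _ _ ((norm_add_le _ _).trans (by linarith)) (by linarith) ?_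
    rw [add_sub_cancel_left]
    linarith
  have a1 := he s hs x z (by linarith) (by linarith) hxz'
  have a2 := cl s hs
  have a3 : |mo k f s (r, z) - mo k f s' (r, z)| ≤ ε / 6 := by
    refine (hC z s hs s' hs').trans ?_
    have b1 : C z ≤ |B| + 1 := by linarith [hB (mem_image_of_mem C hz), le_abs_self B]
    have b2 : |t s - t s'| ≤ ε / 6 / (|B| + 1) := hts.trans (min_le_right _ _)
    calc C z * |t s - t s'| ≤ (|B| + 1) * |t s - t s'| :=
          mul_le_mul_of_nonneg_right b1 (abs_nonneg _)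
      _ ≤ (|B| + 1) * (ε / 6 / (|B| + 1)) := mul_le_mul_of_nonneg_left b2 hB1.le
      _ = ε / 6 := by field_simp
  have a4 := cl s' hs'
  have a5 := he s' hs' x z (by linarith) (by linarith) hxz'
  have a6 := he s' hs' x y (by linarith) (by linarith) ((hxy.trans (min_le_left _ _)).trans hrδ)
  rw [abs_le] at a1 a2 a3 a4 a5 a6 ⊢
  constructor <;> linarith [a1.1, a1.2, a2.1, a2.2, a3.1, a3.2, a4.1, a4.2, a5.1, a5.2, a6.1, a6.2]

end Pool.Agent.P.MP_2cea5e_gt.Se
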