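import Pool.Agent.P.MP_2cea5e_gt.Se.Red

/-!
The surface without fixed point: statements of the a priori estimates on the plane.
-/

open scoped ContDiff Topology ENNReal
open MeasureTheory Set Filter

noncomputable section

namespace Pool.Agent.P.MP_2cea5e_gt.Se

/-! ### Tools -/

structure StGNS : Prop where
  gns : ∀ f s, Sy (-2) f → In (f * f) s ≤ In (Ab (D e1 f)) s * In (Ab (D e2 f)) s
  lady : ∀ g s, Sy (-2) g → In (g * g * (g * g)) s ≤ 2 * In (g * g) s * In (gr g) s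
  l8 : ∀ F, Sm F → Ilb (gr F) → (∃ C : ℝ, ∀ p : X, 0 ≤ p.1 → 1 ≤ ‖p.2‖ → |F p| ≤ C) →
    Ilb (F * F * (F * F) * (F * F * (F * F)))

def StGrow : Prop := ∀ A : ℝ, ∃ C : ℝ, ∀ F s, H1 (-2) F → In (gr F) s ≤ A →
  In (Lp F * Lp F) s ≤ A → ∀ x, |F (s, x) - F (s, 0)| ≤ C + el (s, x) / 4

def StMod1 : Prop := ∀ F, Sm F → Dec (gr F) → Eqc F

def StMod2 : Prop := ∀ F, Sm F → Ilb (gr F) → Sq (Ab (Lp F)) → Eqc F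

def StSup : Prop := ∀ (f g : Fx) (t τ : ℝ → ℝ) (T : ℝ), Clk t τ T → Sm f → Sm g →
  D e0 f = Tm τ * g → Ilb (Ab g) → Lb (Lp f) → Lb f

def StQR : Prop := ∀ (P Q F : Fx) (k : ℝ), Sm P → Sm Q → Loc F →
  (∀ p : X, 0 ≤ p.1 → p.2 ≠ 0 → EE P Q p ≤ k * Jc P Q p + F p) → Ilb (EE P Q) → Sq F →
  Dec (EE P Q)

def StW2 : Prop := ∃ C : ℝ≥0∞, C ≠ ⊤ ∧ ∀ g : ℝ × ℝ → ℝ≥0∞, Measurable g → ∫⁻ x, g x ^ 2 ≤ 1 →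
  ∫⁻ r in Ioi (0 : ℝ), ∫⁻ x : ℝ × ℝ, (∫⁻ y in Metric.ball (0 : ℝ × ℝ) 1, g (x + r • y)) ^ 3 ≤ C

def StW : Prop := ∀ A : ℝ, ∃ C : ℝ, ∀ f a b s, Sy 0 f → H1 (-2) f → Sy (-2) a → Sy (-2) b →
  In (gr a) s ≤ A → In (gr b) s ≤ A → |In (f * Jc a b) s| ≤ C * √(In (gr f) s)

/-! ### The Calabi energy -/

def StA1a : Prop := ∀ d : Dat, d.Flo → ∀ s, HasDerivAt d.Ca (-2 * d.τ s * In (d.QQ d.R) s) s

def StA1c : Prop := ∀ d : Dat, d.Met → ∀ f, Sm f →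
  d.dvV (d.n1 f) (d.n2 f) = DD d.u f ∧ d.dvV (d.m1 f) (d.m2 f) = 0 ∧
  d.V * d.hL (d.n1 f) (d.n2 f) + d.V * d.hL (d.m1 f) (d.m2 f) =
    -(d.R * BB d.u f f) - BB d.L f f ∧
  ∀ p, 0 ≤ Dat.trS (d.n1 f) (d.n2 f) p + Dat.trS (d.m1 f) (d.m2 f) p

def StA1b : Prop := ∀ d : Dat, d.Met → ∀ f, Cs2 f → ∀ s, 0 ≤ In (d.QQ f) s

def StA1d : Prop := ∀ d : Dat, d.Met → ∀ s, 0 ≤ In (d.QQ d.R) s

/-! ### The upper bound of the metric -/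

def StA2 : Prop := ∀ d : Dat, d.Met → Ig d.GG ∧ (∀ s, In d.GG s ≤ d.Ca s) ∧
  ∀ p, 0 ≤ d.GG p ∧ hs d.L p * W d.u p ≤ d.tS p ^ 2 * d.GG p

def StA3a : Prop := ∀ d : Dat, d.Met → ∀ p, d.V p * Lp d.L p ≤ d.tS p * DD d.u (Lg d.tS) p

def StA3b : Prop := ∃ C : ℝ, 0 < C ∧ ∀ d : Dat, d.Met → ∀ v, Cs2 v → ∀ (s : ℝ) (A : Set (ℝ × ℝ)),
  MeasurableSet A → IntegrableOn (fun x => d.nn (s, x)) A → (∀ x, x ∉ A → gr v (s, x) = 0) →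
  d.c * In (v * v * d.nn) s ≤ C * (∫ x in A, d.nn (s, x)) * In (BB d.u v v) s

def StA3c : Prop := ∀ d : Dat, d.Met → Ub d.Ca → Pb d.tS

def StA3e : Prop := ∀ d : Dat, d.Met → Ub d.Ca → Pb d.tS → d.H3

/-! ### The gradient of the volume ratio -/

def StA4a : Prop := ∀ d : Dat, d.Flo → d.H3 → ∃ l C : ℝ, 0 < l ∧ 0 ≤ C ∧ ∀ s, 0 ≤ s → ∃ E',
  HasDerivAt d.En E' s ∧ E' ≤ d.τ s * (C * (1 + In (gr d.w) s) - l * In (gr d.R) s)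

def StA4b : Prop := ∀ d : Dat, d.Met → d.H3 → ∃ l C : ℝ, 0 < l ∧ 0 < C ∧ ∀ s, 0 ≤ s →
  l * In (gr d.w) s - C * (1 + d.jj s) ≤ d.En s ∧
  -(C * (1 + In (gr d.w) s + d.jj s)) ≤ In (sg * d.w) s

def StA4c : Prop := ∀ d : Dat, d.Flo → d.H3 →
  Ub (In (gr d.w)) ∧ Ub fun s => |In (sg * d.w) s|

def StA5 : Prop := ∀ d : Dat, d.Met → d.H3 → Ub (In (gr d.w)) → (Ub fun s => |In (sg * d.w) s|) →
  d.H5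

/-! ### Quasiregularity -/

def StA6a : Prop := ∀ d : Dat, d.Met → Pb d.tS → ∃ k k' : ℝ, 0 ≤ k ∧ 0 ≤ k' ∧ ∀ g h : Fx,
  Sm g → Sm h → D e1 g = D e2 h → D e2 g = -D e1 h → ∀ p : X, 0 ≤ p.1 →
    EE (hq1 g h d.ψ) (hq2 g h d.ψ) p ≤ k * Jc (hq1 g h d.ψ) (hq2 g h d.ψ) p +
      k' * ((g p ^ 2 + h p ^ 2) * gr d.V p + gr g p * qq d.ψ p ^ 2)

def StA6b : Prop := ∀ d : Dat, d.Met → d.H5 →
  Ub (In (EE (q1 d.ψ) (q2 d.ψ))) ∧ Ub (In (EE (Q1 d.ψ) (Q2 d.ψ)))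

def StA7 : Prop := ∀ d : Dat, d.Met → d.H5 → Ub (In (EE (q1 d.ψ) (q2 d.ψ))) →
  Eqc (pp d.ψ) ∧ Eqc (q1 d.ψ) ∧ Eqc (q2 d.ψ)

def StA8 : Prop := ∀ (d : Dat) χ, d.Met → d.H5 → Ub (In (EE (Q1 d.ψ) (Q2 d.ψ))) → d.Wc χ →
  d.H8 χ

def StA9 : Prop := ∀ (d : Dat) χ, d.Met → d.H5 → d.Wc χ → d.H8 χ → d.H9 χ

def StA10 : Prop := ∀ (d : Dat) χ, d.Flo → d.H5 → d.Wc χ →
  (Eqc (pp d.ψ) ∧ Eqc (q1 d.ψ) ∧ Eqc (q2 d.ψ)) → d.H8 χ → d.H9 χ → d.Out χ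

/-- The a priori estimate. -/
def StA : Prop := ∀ (d : Dat) χ, d.Flo → d.Wc χ → d.Out χ

theorem stA_of (h1a : StA1a) (h1d : StA1d) (h3c : StA3c) (h3e : StA3e) (h4 : StA4c) (h5 : StA5)
    (h6 : StA6b) (h7 : StA7) (h8 : StA8) (h9 : StA9) (h10 : StA10) : StA := by
  intro d χ hF hW
  have hM := hF.toMet
  have ca : Ub d.Ca := by
    refine ⟨d.Ca 0, fun s hs => ?_⟩
    refine antitone_of_deriv_nonpos (fun s => (h1a d hF s).differentiableAt) (fun s => ?_) hs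
    rw [(h1a d hF s).deriv]
    have := mul_nonneg (hF.clk.pos s).le (h1d d hM s)
    linarith
  have H3 := h3e d hM ca (h3c d hM ca)
  have H5 := h5 d hM H3 (h4 d hF H3).1 (h4 d hF H3).2
  have H8 := h8 d χ hM H5 (h6 d hM H5).2 hW
  exact h10 d χ hF H5 hW (h7 d hM H5 (h6 d hM H5).1) H8 (h9 d χ hM H5 hW H8)

end Pool.Agent.P.MP_2cea5e_gt.Se
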