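import Pool.Agent.P.MP_2cea5e_gt.Se.ApiN
import Pool.Agent.P.MP_2cea5e_gt.Se.ApiL
import Pool.Agent.P.MP_2cea5e_gt.Se.RedSt

/-!
All tools on the plane.
-/
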