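import Pool.Agent.P.MP_2cea5e_gt.Se.BrSt
import Pool.Agent.P.MP_2cea5e_gt.Se.Api

/-!
Package B0.
-/

open scoped ContDiff ComplexOrder Matrix Topology ComplexConjugate
open MeasureTheory Set Filter

noncomputable section

namespace Pool.Agent.P.MP_2cea5e_gt.Se

open II III

namespace B0P

variable {f g : Fx} {c a s : ℝ} {F : ℝ → Bool → Fn} {w : C2} {p : X}

/-- The linear part of the invariant coordinate. -/
def La : C2 →L[ℝ] X := (0 : C2 →L[ℝ] ℝ).prod ((co 2 - co 0).prod (co 3 + co 1))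

/-- The invariant coordinate. -/
def A (s : ℝ) (w : C2) : X := cr s (w 1 - conj (w 0))

theorem hA (s : ℝ) (w : C2) : HasFDerivAt (A s) La w := by
  have e : A s = fun w => ((s, 0, 0) : X) + La w := by
    funext y
    simp [A, cr, La, co]
  rw [e]
  exact La.hasFDerivAt.const_add _

theorem La0 : La (dir 0) = -e1 := by simp [La, co, dir, e1]
theorem La1 : La (dir 1) = e2 := by simp [La, co, dir, e2]
theorem La2 : La (dir 2) = e1 := by simp [La, co, dir, e1]
theorem La3 : La (dir 3) = e2 := by simp [La, co, dir, e2]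

theorem Dn (v : X) (g : Fx) : D (-v) g = -D v g := by
  funext p
  simp [D]

theorem pd1 (hg : Sm g) (c s : ℝ) (i : Fin 4) :
    pd i (fun w => c * (co 0 w * co 0 w + co 1 w * co 1 w) + g (A s w)) = fun w =>
      2 * c * co 0 (dir i) * co 0 w + 2 * c * co 1 (dir i) * co 1 w +
        D (La (dir i)) g (A s w) := by
  funext w
  have h := (((((co 0).hasFDerivAt (x := w)).fun_mul (co 0).hasFDerivAt).fun_add
    ((co 1).hasFDerivAt.fun_mul (co 1).hasFDerivAt)).const_mul c).fun_add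
    ((hg.diff (A s w)).hasFDerivAt.comp w (hA s w))
  have h1 := h.fderiv
  simp only [Function.comp_def] at h1
  simp only [pd, h1, D, add_apply, smul_apply, smul_eq_mul, ContinuousLinearMap.comp_apply]
  ring

theorem pd2 (hg : Sm g) (α β s : ℝ) (i : Fin 4) (w : C2) :
    pd i (fun w => α * co 0 w + β * co 1 w + g (A s w)) w =
      α * co 0 (dir i) + β * co 1 (dir i) + D (La (dir i)) g (A s w) := by
  have h := ((((co 0).hasFDerivAt (x := w)).const_mul α).fun_add
    ((co 1).hasFDerivAt.const_mul β)).fun_add ((hg.diff (A s w)).hasFDerivAt.comp w (hA s w))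
  have h1 := h.fderiv
  simp only [Function.comp_def] at h1
  simp only [pd, h1, D, add_apply, smul_apply, smul_eq_mul, ContinuousLinearMap.comp_apply]

/-- The complex Hessian of an invariant potential. -/
theorem hess0 {u : Fn} (hu : SmC u) (hg : Sm g) (e : ∀ w, u w = c * ‖w 0‖ ^ 2 + g (A s w))
    (w : C2) : hess u w =
      !![((c + pp g (A s w) : ℝ) : ℂ), -conj (cq (q1 g) (q2 g) (A s w));
        -cq (q1 g) (q2 g) (A s w), (pp g (A s w) : ℂ)] := by
  have e1' : u = fun w => c * (co 0 w * co 0 w + co 1 w * co 1 w) + g (A s w) := by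
    funext y
    rw [e, Complex.sq_norm, Complex.normSq_apply]
    simp [co]
  have h2 : ∀ i j, pd i (pd j u) w = 2 * c * co 0 (dir j) * co 0 (dir i) +
      2 * c * co 1 (dir j) * co 1 (dir i) + D (La (dir i)) (D (La (dir j)) g) (A s w) := by
    intro i j
    rw [e1', pd1 hg, pd2 (sm_D _ hg)]
  have E0 : Ee 0 u w = c + pp g (A s w) := by
    rw [Ee_zero, h2, h2, La0, La1, Dn, Dn, D_neg]
    simp [co_dir, pp, Lp]
    ring
  have E1 : Ee 1 u w = pp g (A s w) := by
    rw [Ee_one, h2, h2, La2, La3]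
    simp [co_dir, pp, Lp]
    ring
  have E2 : Ee 2 u w = -q1 g (A s w) := by
    rw [Ee_two, h2, h2, La0, La1, La2, La3, Dn]
    simp [co_dir, q1]
    ring
  have E3 : Ee 3 u w = q2 g (A s w) := by
    rw [Ee_three, h2, h2, La0, La1, La2, La3, Dn, D_comm e2 e1 hg]
    simp [co_dir, q2]
    ring
  rw [hess_real_form hu, E0, E1, E2, E3]
  ext j k
  fin_cases j <;> fin_cases k <;> simp [cq] <;> ring

theorem sm_res (hF : ∀ b, ContDiff ℝ ∞ fun q : ℝ × C2 => F q.1 b q.2) (b : Bool) :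
    Sm (res F b) := by
  have h : ContDiff ℝ ∞ pt := by
    refine contDiff_pi.2 fun j => ?_
    fin_cases j
    · exact contDiff_const
    · exact (Complex.ofRealCLM.contDiff.comp (contDiff_fst.comp contDiff_snd)).add
        ((Complex.ofRealCLM.contDiff.comp (contDiff_snd.comp contDiff_snd)).mul contDiff_const)
  exact (hF b).comp (contDiff_fst.prodMk h)

theorem pt_cr (s : ℝ) (ζ : ℂ) : pt (cr s ζ) = ![0, ζ] := by simp [pt, cr]

theorem r2_cr (s : ℝ) (ζ : ℂ) : r2 (cr s ζ) = ‖ζ‖ ^ 2 := by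
  rw [r2_apply, Complex.sq_norm, Complex.normSq_apply]
  simp [cr, sq]

theorem iv_cr (s : ℝ) (ζ : ℂ) : iv (cr s ζ) = cr s ζ⁻¹ := by
  rw [iv, r2_cr, Complex.sq_norm]
  simp [cr]

theorem cr_ne {ζ : ℂ} (h : ζ ≠ 0) : (cr s ζ).2 ≠ 0 := fun hh =>
  h (Complex.ext (congrArg Prod.fst hh) (congrArg Prod.snd hh))

theorem z_cr (s : ℝ) (ζ : ℂ) : cq z1 z2 (cr s ζ) = ζ ^ 2 := by
  rw [cq, z1_apply, z2_apply]
  apply Complex.ext <;> simp [cr, sq]
  ring

theorem val0 (h : SPt c a (F s)) (w : C2) :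
    F s false w = c * ‖w 0‖ ^ 2 + res F false (A s w) := by
  have h1 := h.inv (w 0) ![0, w 1 - conj (w 0)]
  have e : ![0, w 1 - conj (w 0)] + tr (w 0) = w := by
    funext j
    fin_cases j <;> simp [tr]
  rw [e] at h1
  simp only [Matrix.cons_val_zero, zero_add, norm_zero] at h1
  rw [res, A, pt_cr]
  change _ = _ + F s false _
  linarith

theorem val_inv (h : SPt c a (F s)) {τ : ℂ} (hτ : τ ≠ 0) :
    res F true (cr s τ) = res F false (cr s τ⁻¹) + a * Real.log (‖τ‖ ^ 2) := by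
  rw [res, res, pt_cr, pt_cr]
  exact h.glue ![0, τ] hτ

theorem wit (hF : ∀ b, ContDiff ℝ ∞ fun q : ℝ × C2 => F q.1 b q.2) (h : ∀ s, SPt c a (F s)) :
    Wit (res F false - K a * el) (res F true - K a * el) := by
  refine ⟨sm_sub (sm_res hF true) (sm_mul (sm_K a) sm_el), fun p hp => ?_⟩
  obtain ⟨s, x, y⟩ := p
  have e : ((s, x, y) : X) = cr s ⟨x, y⟩ := rfl
  have hτ : (⟨x, y⟩ : ℂ) ≠ 0 := fun hh =>
    hp (Prod.ext (congrArg Complex.re hh) (congrArg Complex.im hh))
  simp only [Pi.sub_apply, Pi.mul_apply, K_apply]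
  rw [el_iv hp, e, val_inv (h s) hτ, iv_cr, r2_cr]
  ring

theorem D_lin (v : X) (hf : Sm f) (hg : Sm g) :
    D v (f - K a * g) = D v f - K a * D v g := by
  rw [D_sub v hf (sm_mul (sm_K a) hg), D_Kmul v a hg]

theorem lin (hf : Sm f) (hg : Sm g) (a : ℝ) (p : X) :
    Q1 (f - K a * g) p = Q1 f p - a * Q1 g p ∧ Q2 (f - K a * g) p = Q2 f p - a * Q2 g p ∧
    O1 (f - K a * g) p = O1 f p - a * O1 g p ∧ O2 (f - K a * g) p = O2 f p - a * O2 g p ∧
    Lp (f - K a * g) p = Lp f p - a * Lp g p := by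
  simp only [O1, O2, Q1, Q2, hq1, hq2, q1, q2, Lp, D_lin _ hf hg,
    D_lin _ (sm_D e1 hf) (sm_D e1 hg), D_lin _ (sm_D e2 hf) (sm_D e2 hg), Pi.add_apply,
    Pi.sub_apply, Pi.mul_apply, K_apply]
  refine ⟨?_, ?_, ?_, ?_, ?_⟩ <;> ring

/-- Second derivatives in the two charts. -/
theorem second (hf : Sm f) (hg : Sm g) (h : Wit (f - K a * el) (g - K a * el)) {τ : ℂ}
    (hτ : τ ≠ 0) (s : ℝ) : pp f (cr s τ⁻¹) = (‖τ‖ ^ 2) ^ 2 * pp g (cr s τ) ∧
      cq (q1 f) (q2 f) (cr s τ⁻¹) = τ ^ 2 * cq (O1 g - K a) (O2 g) (cr s τ) := by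
  have hp : (cr s τ).2 ≠ 0 := cr_ne hτ
  have hs := sm_sub hf (sm_mul (sm_K a) sm_el)
  obtain ⟨f1, f2, -, -, f5⟩ := lin hf sm_el a (cr s τ⁻¹)
  obtain ⟨-, -, g3, g4, g5⟩ := lin hg sm_el a (cr s τ)
  have w1 := (h.Q1 hs).eq _ hp
  have w2 := (h.Q2 hs).eq _ hp
  have w3 := (h.Lp hs).eq _ hp
  have w4 := wit_Q1_el.eq _ hp
  have w5 := wit_Q2_el.eq _ hp
  have w6 := sg_iv hp
  rw [iv_cr] at w1 w2 w3 w4 w5 w6
  simp only [Pi.mul_apply, Pi.sub_apply, K_apply] at w3 w4
  rw [f5, g5, Lp_el, r2_cr, norm_inv] at w3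
  simp only [Pi.mul_apply, K_apply] at w3
  rw [r2_cr] at w6
  have hn : ‖τ‖ ≠ 0 := norm_ne_zero_iff.2 hτ
  constructor
  · simp only [pp, Pi.mul_apply, K_apply]
    rw [w6] at w3
    generalize Lp f (cr s τ⁻¹) = B at w3 ⊢
    field_simp at w3
    linear_combination -w3 / 4
  · have a1 : (O1 g - K a) (cr s τ) = Q1 f (cr s τ⁻¹) := by
      simp only [Pi.sub_apply, K_apply]
      rw [f1, g3, ← w4] at w1
      linarith
    have a2 : O2 g (cr s τ) = Q2 f (cr s τ⁻¹) := by
      rw [f2, g4, ← w5] at w2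
      linarith
    have a3 : cq (O1 g - K a) (O2 g) (cr s τ) =
        cq z1 z2 (cr s τ⁻¹) * cq (q1 f) (q2 f) (cr s τ⁻¹) := by
      rw [cq, a1, a2]
      apply Complex.ext <;> simp [cq, Q1, Q2, hq1, hq2]
    rw [a3, z_cr]
    field_simp

theorem JJ_inv (hw : w 1 ≠ 0) : Abs.JJ inv2 w = !![1, 0; 0, -(w 1 ^ 2)⁻¹] := by
  have h0 : HasFDerivAt (fun y : C2 => y 0)
      (ContinuousLinearMap.proj (R := ℂ) (φ := fun _ : Fin 2 => ℂ) 0) w :=
    hasFDerivAt_apply 0 w
  have h1 : HasFDerivAt (fun y : C2 => (y 1)⁻¹) ((-(w 1 ^ 2)⁻¹) •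
      ContinuousLinearMap.proj (R := ℂ) (φ := fun _ : Fin 2 => ℂ) 1) w :=
    (hasDerivAt_inv hw).comp_hasFDerivAt w (hasFDerivAt_apply 1 w)
  have h : HasFDerivAt inv2 (ContinuousLinearMap.pi
      ![ContinuousLinearMap.proj (R := ℂ) (φ := fun _ : Fin 2 => ℂ) 0, (-(w 1 ^ 2)⁻¹) •
        ContinuousLinearMap.proj (R := ℂ) (φ := fun _ : Fin 2 => ℂ) 1]) w := by
    refine hasFDerivAt_pi.2 fun j => ?_
    fin_cases j
    exacts [h0, h1]
  ext j k
  rw [Abs.JJ, Matrix.of_apply, h.fderiv]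
  fin_cases j <;> fin_cases k <;> simp

theorem Ga_inv : Ga false true 0 = inv2 := by
  funext w
  simp [Ga, inv2, nu, de, hN, hD]

/-- The chart at infinity away from the curve at infinity. -/
theorem off (h0 : StGa) (hF : ∀ b, ContDiff ℝ ∞ fun q : ℝ × C2 => F q.1 b q.2)
    (h : ∀ s, SPt c a (F s)) (hn : nw w ≠ 0) (hw : w 1 ≠ 0) :
    F s true w = c * ‖w 0‖ ^ 2 + a * Real.log (‖nw w‖ ^ 2) + res F true (cr s (w 1 / nw w)) ∧
    hess (F s true) w =
      !![((c + r2 (cr s (w 1 / nw w)) ^ 2 * pp (res F true) (cr s (w 1 / nw w)) : ℝ) : ℂ),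
          conj (cq (O1 (res F true) - K a) (O2 (res F true)) (cr s (w 1 / nw w)) / nw w ^ 2);
        cq (O1 (res F true) - K a) (O2 (res F true)) (cr s (w 1 / nw w)) / nw w ^ 2,
          ((pp (res F true) (cr s (w 1 / nw w)) / ‖nw w‖ ^ 4 : ℝ) : ℂ)] := by
  have hτ : w 1 / nw w ≠ 0 := div_ne_zero hw hn
  have e : A s (inv2 w) = cr s (w 1 / nw w)⁻¹ := by
    rw [A, inv_div, nw]
    congr 1
    simp only [inv2, Matrix.cons_val_zero, Matrix.cons_val_one]
    field_simp
  have n1 : ‖w 1‖ ≠ 0 := norm_ne_zero_iff.2 hw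
  have n2 : ‖nw w‖ ≠ 0 := norm_ne_zero_iff.2 hn
  constructor
  · rw [(h s).glue w hw, val0 (h s), e, val_inv (h s) hτ, norm_div, div_pow,
      Real.log_div (pow_ne_zero _ n1) (pow_ne_zero _ n2)]
    simp only [inv2, Matrix.cons_val_zero]
    ring
  · obtain ⟨s1, s2⟩ := second (sm_res hF false) (sm_res hF true) (wit hF h) hτ s
    have h1 := (h0.pt c a (F s) (h s) false true 0 w (by simpa [de, hD] using hw)).1
    rw [h1, Ga_inv, Abs.pbF, JJ_inv hw,
      hess0 ((h s).sm false) (sm_res hF false) (val0 (h s)), e, s1, s2, r2_cr]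
    generalize cq (O1 (res F true) - K a) (O2 (res F true)) (cr s (w 1 / nw w)) = Q
    generalize pp (res F true) (cr s (w 1 / nw w)) = P
    have c1 : conj (w 1) ≠ 0 := (map_ne_zero _).2 hw
    have c2 : conj (nw w) ≠ 0 := (map_ne_zero _).2 hn
    have c3 : ((‖nw w‖ : ℝ) : ℂ) ≠ 0 := Complex.ofReal_ne_zero.2 n2
    have c4 : ((‖w 1‖ : ℝ) : ℂ) ^ 4 = w 1 ^ 2 * conj (w 1) ^ 2 := by
      rw [← mul_pow, Complex.mul_conj', ← pow_mul]
    ext j k
    fin_cases j <;> fin_cases k <;> simp [Matrix.mul_apply, Fin.sum_univ_two]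
    · field_simp
    · field_simp
    · field_simp
      rw [c4]
      ring

/-- An identity between continuous functions extends to the curve at infinity. -/
theorem ext_ne {Y : Type} [TopologicalSpace Y] [T2Space Y] {G H : C2 → Y} (hG : ContinuousAt G w)
    (hH : ContinuousAt H w) (h : ∀ᶠ y in 𝓝 w, y 1 ≠ 0 → G y = H y) : G w = H w := by
  have hd : Dense ((fun y : C2 => y 1) ⁻¹' {0}ᶜ) :=
    (dense_compl_singleton (0 : ℂ)).preimage (isOpenMap_eval 1)
  have : (𝓝[(fun y : C2 => y 1) ⁻¹' {0}ᶜ] w).NeBot := mem_closure_iff_nhdsWithin_neBot.1 (hd w)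
  refine tendsto_nhds_unique_of_eventuallyEq (hG.tendsto.mono_left nhdsWithin_le_nhds)
    (hH.tendsto.mono_left (nhdsWithin_le_nhds (s := (fun y : C2 => y 1) ⁻¹' {0}ᶜ))) ?_
  filter_upwards [h.filter_mono nhdsWithin_le_nhds, self_mem_nhdsWithin] with y h1 h2 using h1 h2

theorem cont_nw : Continuous nw := by
  unfold nw
  fun_prop

end B0P

open B0P in
theorem b0_ok (h0 : StGa) : StB0 := by
  intro c a F hF h
  refine ⟨sm_res hF false, wit hF h, ?_, ?_⟩
  · rintro s w p rfl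
    exact ⟨val0 (h s) w, hess0 ((h s).sm false) (sm_res hF false) (val0 (h s)) w⟩
  · rintro s w p hn rfl
    have hev : ∀ᶠ y in 𝓝 w, nw y ≠ 0 := cont_nw.continuousAt.eventually_ne hn
    have hs := sm_res hF true
    have c0 : ContinuousAt nw w := cont_nw.continuousAt
    have c1 : ContinuousAt (fun y : C2 => y 1 / nw y) w :=
      (continuous_apply 1).continuousAt.div c0 hn
    have c2 : ContinuousAt (fun y : C2 => cr s (y 1 / nw y)) w :=
      continuousAt_const.prodMk ((Complex.continuous_re.continuousAt.comp c1).prodMk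
        (Complex.continuous_im.continuousAt.comp c1))
    have c3 : ∀ {g : Fx}, Sm g → ContinuousAt (fun y : C2 => g (cr s (y 1 / nw y))) w :=
      fun hg => hg.cont.continuousAt.comp c2
    have cR : ∀ {G : C2 → ℝ}, ContinuousAt G w → ContinuousAt (fun y => (G y : ℂ)) w :=
      fun hG => Complex.continuous_ofReal.continuousAt.comp hG
    have n2 : ‖nw w‖ ≠ 0 := norm_ne_zero_iff.2 hn
    have c4 : ContinuousAt (fun y : C2 => cq (O1 (res F true) - K a) (O2 (res F true))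
        (cr s (y 1 / nw y)) / nw y ^ 2) w :=
      ((cR (c3 (sm_sub (sm_O1 hs) (sm_K a)))).add ((cR (c3 (sm_O2 hs))).mul
        continuousAt_const)).div (c0.pow 2) (pow_ne_zero _ hn)
    constructor
    · refine ext_ne (G := F s true) (H := fun y => c * ‖y 0‖ ^ 2 + a * Real.log (‖nw y‖ ^ 2) +
        res F true (cr s (y 1 / nw y))) ((h s).sm true).cont.continuousAt ?_
        (hev.mono fun y hy hy1 => (off h0 hF h hy hy1).1)
      exact ((continuousAt_const.mul ((continuous_apply 0).continuousAt.norm.pow 2)).add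
        (continuousAt_const.mul ((c0.norm.pow 2).log (pow_ne_zero _ n2)))).add (c3 hs)
    · refine ext_ne (G := hess (F s true)) (H := fun y =>
        !![((c + r2 (cr s (y 1 / nw y)) ^ 2 * pp (res F true) (cr s (y 1 / nw y)) : ℝ) : ℂ),
          conj (cq (O1 (res F true) - K a) (O2 (res F true)) (cr s (y 1 / nw y)) / nw y ^ 2);
        cq (O1 (res F true) - K a) (O2 (res F true)) (cr s (y 1 / nw y)) / nw y ^ 2,
          ((pp (res F true) (cr s (y 1 / nw y)) / ‖nw y‖ ^ 4 : ℝ) : ℂ)]) ?_ ?_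
        (hev.mono fun y hy hy1 => (off h0 hF h hy hy1).2)
      · exact continuousAt_pi.2 fun j => continuousAt_pi.2 fun k =>
          (Abs.Tens.sm_d (Abs.Tens.sm_d (Abs.Tens.sm_c ((h s).sm true).contDiffAt) k).2
            j).1.continuousAt
      · refine continuousAt_pi.2 fun j => continuousAt_pi.2 fun k => ?_
        fin_cases j <;> fin_cases k
        · exact cR (continuousAt_const.add (((c3 sm_r2).pow 2).mul (c3 (sm_pp hs))))
        · exact Complex.continuous_conj.continuousAt.comp c4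
        · exact c4
        · exact cR ((c3 (sm_pp hs)).div (c0.norm.pow 4) (pow_ne_zero _ n2))

end Pool.Agent.P.MP_2cea5e_gt.Se
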