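import Pool.Agent.P.MP_2cea5e_gt.Se.BrSt
import Pool.Agent.P.MP_2cea5e_gt.Se.Api

/-!
Package B1.
-/

open scoped ContDiff ComplexOrder Matrix Topology ComplexConjugate
open MeasureTheory Set Filter

noncomputable section

namespace Pool.Agent.P.MP_2cea5e_gt.Se

open II III

namespace B1P

section Cl

variable {Ω : Type} {l : Filter Ω} {A B A' B' : Ω → ℂ}

/-- Eventually bounded. -/
def Bd (l : Filter Ω) (A : Ω → ℂ) : Prop := ∃ C : ℝ, ∀ᶠ o in l, ‖A o‖ ≤ C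

/-- `A` is close to the bounded function `B`. -/
structure Cl (l : Filter Ω) (A B : Ω → ℂ) : Prop where
  t : Tendsto (fun o => A o - B o) l (𝓝 0)
  b : Bd l B

theorem Bd.of_tendsto {k : ℂ} (h : Tendsto A l (𝓝 k)) : Bd l A :=
  ⟨‖k‖ + 1, (h.norm.eventually (gt_mem_nhds (lt_add_one ‖k‖))).mono fun _ h => h.le⟩

theorem Bd.add (h : Bd l A) (h' : Bd l B) : Bd l fun o => A o + B o := by
  obtain ⟨C, h⟩ := h
  obtain ⟨C', h'⟩ := h'
  exact ⟨C + C', (h.and h').mono fun o h => (norm_add_le _ _).trans (add_le_add h.1 h.2)⟩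

theorem Bd.mul (h : Bd l A) (h' : Bd l B) : Bd l fun o => A o * B o := by
  obtain ⟨C, h⟩ := h
  obtain ⟨C', h'⟩ := h'
  refine ⟨C * C', (h.and h').mono fun o h => ?_⟩
  rw [norm_mul]
  exact mul_le_mul h.1 h.2 (norm_nonneg _) ((norm_nonneg _).trans h.1)

theorem Bd.congr (h : Bd l A) (e : ∀ᶠ o in l, A o = B o) : Bd l B := by
  obtain ⟨C, h⟩ := h
  exact ⟨C, (h.and e).mono fun o h => h.2 ▸ h.1⟩

theorem Bd.mul_zero (h : Bd l A) (h' : Tendsto B l (𝓝 0)) :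
    Tendsto (fun o => A o * B o) l (𝓝 0) := by
  obtain ⟨C, h⟩ := h
  rw [tendsto_zero_iff_norm_tendsto_zero] at h' ⊢
  have h2 : Tendsto (fun o => C * ‖B o‖) l (𝓝 0) := by simpa using h'.const_mul C
  refine squeeze_zero' (Eventually.of_forall fun _ => norm_nonneg _) (h.mono fun o h => ?_) h2
  rw [norm_mul]
  exact mul_le_mul_of_nonneg_right h (norm_nonneg _)

theorem Cl.bd (h : Cl l A B) : Bd l A :=
  ((Bd.of_tendsto h.t).add h.b).congr (Eventually.of_forall fun o => by ring)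

theorem Cl.of_tendsto {k : ℂ} (h : Tendsto A l (𝓝 k)) : Cl l A fun _ => k :=
  ⟨by simpa using h.sub_const k, Bd.of_tendsto tendsto_const_nhds⟩

theorem Cl.const (k : ℂ) : Cl l (fun _ => k) fun _ => k := Cl.of_tendsto tendsto_const_nhds

theorem Cl.add (h : Cl l A B) (h' : Cl l A' B') :
    Cl l (fun o => A o + A' o) fun o => B o + B' o := by
  refine ⟨?_, h.b.add h'.b⟩
  have := h.t.add h'.t
  rw [add_zero] at this
  exact this.congr fun o => by ring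

theorem Cl.mul (h : Cl l A B) (h' : Cl l A' B') :
    Cl l (fun o => A o * A' o) fun o => B o * B' o := by
  refine ⟨?_, h.b.mul h'.b⟩
  have := (h'.bd.mul_zero h.t).add (h.b.mul_zero h'.t)
  rw [add_zero] at this
  exact this.congr fun o => by ring

theorem Cl.congr (h : Cl l A B) (e : ∀ᶠ o in l, A o = A' o) (e' : ∀ᶠ o in l, B o = B' o) :
    Cl l A' B' :=
  ⟨h.t.congr' ((e.and e').mono fun o h => by simp only [h.1, h.2]), h.b.congr e'⟩

theorem Cl.neg (h : Cl l A B) : Cl l (fun o => -A o) fun o => -B o :=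
  ((Cl.const (-1)).mul h).congr (Eventually.of_forall fun o => by ring)
    (Eventually.of_forall fun o => by ring)

theorem Cl.conj (h : Cl l A B) : Cl l (fun o => conj (A o)) fun o => conj (B o) := by
  constructor
  · have := h.t
    rw [tendsto_zero_iff_norm_tendsto_zero] at this ⊢
    exact this.congr fun o => by rw [← map_sub, Complex.norm_conj]
  · obtain ⟨C, hC⟩ := h.b
    exact ⟨C, hC.mono fun o h => by rwa [Complex.norm_conj]⟩

end Cl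

/-! ### Two by two matrices -/

theorem form_le (M : Matrix (Fin 2) (Fin 2) ℂ) (C : ℝ) (h : ∀ i j, ‖M i j‖ ≤ C) (v : C2) :
    |(star v ⬝ᵥ M *ᵥ v).re| ≤ 4 * C * ‖v‖ ^ 2 := by
  have hC : 0 ≤ C := (norm_nonneg _).trans (h 0 0)
  have hv := norm_le_pi_norm v
  have key : ∀ i j, ‖star (v i) * (M i j * v j)‖ ≤ C * ‖v‖ ^ 2 := fun i j => by
    rw [norm_mul, norm_mul, norm_star]
    calc ‖v i‖ * (‖M i j‖ * ‖v j‖) ≤ ‖v‖ * (C * ‖v‖) :=
          mul_le_mul (hv i) (mul_le_mul (h i j) (hv j) (norm_nonneg _) hC) (by positivity)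
            (norm_nonneg _)
      _ = C * ‖v‖ ^ 2 := by ring
  refine (Complex.abs_re_le_norm _).trans ?_
  have e : star v ⬝ᵥ M *ᵥ v = (star (v 0) * (M 0 0 * v 0) + star (v 0) * (M 0 1 * v 1)) +
      (star (v 1) * (M 1 0 * v 0) + star (v 1) * (M 1 1 * v 1)) := by
    simp only [dotProduct, Matrix.mulVec, Fin.sum_univ_two, Pi.star_apply]
    ring
  rw [e]
  have := key 0 0
  have := key 0 1
  have := key 1 0
  have := key 1 1
  have h1 := norm_add_le (star (v 0) * (M 0 0 * v 0) + star (v 0) * (M 0 1 * v 1))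
    (star (v 1) * (M 1 0 * v 0) + star (v 1) * (M 1 1 * v 1))
  have h2 := norm_add_le (star (v 0) * (M 0 0 * v 0)) (star (v 0) * (M 0 1 * v 1))
  have h3 := norm_add_le (star (v 1) * (M 1 0 * v 0)) (star (v 1) * (M 1 1 * v 1))
  linarith

theorem form_ge (α γ : ℝ) (β : ℂ) (C b : ℝ) (hα : |α| ≤ C) (hγ : |γ| ≤ C) (hb0 : 0 ≤ b)
    (hb : b ≤ α * γ - ‖β‖ ^ 2) (v : C2)
    (h0 : 0 ≤ (star v ⬝ᵥ !![(α : ℂ), conj β; β, (γ : ℂ)] *ᵥ v).re) :
    b * ‖v‖ ^ 2 ≤ C * (star v ⬝ᵥ !![(α : ℂ), conj β; β, (γ : ℂ)] *ᵥ v).re := by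
  set Q := (star v ⬝ᵥ !![(α : ℂ), conj β; β, (γ : ℂ)] *ᵥ v).re with hQ
  have e : Q = α * ((v 0).re ^ 2 + (v 0).im ^ 2) + γ * ((v 1).re ^ 2 + (v 1).im ^ 2) +
      2 * (β.re * ((v 0).re * (v 1).re + (v 0).im * (v 1).im) -
        β.im * ((v 0).im * (v 1).re - (v 0).re * (v 1).im)) := by
    rw [hQ]
    simp [dotProduct, Matrix.mulVec, Fin.sum_univ_two]
    ring
  have eβ : ‖β‖ ^ 2 = β.re ^ 2 + β.im ^ 2 := by
    rw [Complex.sq_norm, Complex.normSq_apply]; ring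
  have ev : ∀ i, ‖v i‖ ^ 2 = (v i).re ^ 2 + (v i).im ^ 2 := fun i => by
    rw [Complex.sq_norm, Complex.normSq_apply]; ring
  have h1 : (α * γ - ‖β‖ ^ 2) * ‖v 1‖ ^ 2 ≤ α * Q := by
    rw [e, eβ, ev]
    nlinarith [sq_nonneg (α * (v 0).re + (β.re * (v 1).re + β.im * (v 1).im)),
      sq_nonneg (α * (v 0).im + (β.re * (v 1).im - β.im * (v 1).re))]
  have h2 : (α * γ - ‖β‖ ^ 2) * ‖v 0‖ ^ 2 ≤ γ * Q := by
    rw [e, eβ, ev]
    nlinarith [sq_nonneg (γ * (v 1).re + (β.re * (v 0).re - β.im * (v 0).im)),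
      sq_nonneg (γ * (v 1).im + (β.re * (v 0).im + β.im * (v 0).re))]
  have h3 : α * Q ≤ C * Q := mul_le_mul_of_nonneg_right (le_of_abs_le hα) h0
  have h4 : γ * Q ≤ C * Q := mul_le_mul_of_nonneg_right (le_of_abs_le hγ) h0
  have h5 : ∀ i, b * ‖v i‖ ^ 2 ≤ C * Q := by
    intro i
    have := mul_le_mul_of_nonneg_right hb (sq_nonneg ‖v i‖)
    fin_cases i
    · exact this.trans (h2.trans h4)
    · exact this.trans (h1.trans h3)
  have h6 : ‖v‖ ≤ ‖v 0‖ ∨ ‖v‖ ≤ ‖v 1‖ := by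
    rcases le_total ‖v 0‖ ‖v 1‖ with h | h
    · right
      refine (pi_norm_le_iff_of_nonneg (norm_nonneg _)).2 fun i => ?_
      fin_cases i
      · exact h
      · exact le_rfl
    · left
      refine (pi_norm_le_iff_of_nonneg (norm_nonneg _)).2 fun i => ?_
      fin_cases i
      · exact le_rfl
      · exact h
  rcases h6 with h | h
  · exact (mul_le_mul_of_nonneg_left (pow_le_pow_left₀ (norm_nonneg _) h 2) hb0).trans (h5 0)
  · exact (mul_le_mul_of_nonneg_left (pow_le_pow_left₀ (norm_nonneg _) h 2) hb0).trans (h5 1)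

/-! ### The filter of nearby points -/

/-- Two clock values, the base point and the nearby point. -/
abbrev Om : Type := ℝ × ℝ × ℂ × C2

def sz (t : ℝ → ℝ) (o : Om) : ℝ := max |t o.2.1 - t o.1| ‖o.2.2.2 - ![0, o.2.2.1]‖

def dom : Set Om := {o | 0 ≤ o.1 ∧ 0 ≤ o.2.1 ∧ ‖o.2.2.1‖ ≤ 1}

def fl (t : ℝ → ℝ) : Filter Om := comap (sz t) (𝓝 0) ⊓ 𝓟 dom

variable {t : ℝ → ℝ}

theorem sz_nonneg (o : Om) : 0 ≤ sz t o := le_max_of_le_left (abs_nonneg _)

theorem ev_dom : ∀ᶠ o in fl t, o ∈ dom := mem_inf_of_right (mem_principal_self _)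

theorem tend_sz : Tendsto (sz t) (fl t) (𝓝 0) := tendsto_comap.mono_left inf_le_left

theorem of_ev {P : Om → Prop} (h : ∀ᶠ o in fl t, P o) :
    ∃ ρ : ℝ, 0 < ρ ∧ ∀ o ∈ dom, sz t o ≤ ρ → P o := by
  rw [fl, eventually_inf_principal, eventually_comap, Metric.eventually_nhds_iff] at h
  obtain ⟨ε, hε, h⟩ := h
  refine ⟨ε / 2, by positivity, fun o ho hs => h (y := sz t o) ?_ o rfl ho⟩
  rw [Real.dist_eq, sub_zero, abs_of_nonneg (sz_nonneg o)]
  linarith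

theorem tend_y0 : Tendsto (fun o : Om => o.2.2.2 0) (fl t) (𝓝 0) := by
  rw [tendsto_zero_iff_norm_tendsto_zero]
  refine squeeze_zero (fun _ => norm_nonneg _) (fun o => ?_) (tend_sz (t := t))
  have := norm_le_pi_norm (o.2.2.2 - ![0, o.2.2.1]) 0
  simp only [Pi.sub_apply, Matrix.cons_val_zero, sub_zero] at this
  exact this.trans (le_max_right _ _)

theorem cl_y1 : Cl (fl t) (fun o : Om => o.2.2.2 1) fun o => o.2.2.1 := by
  constructor
  · rw [tendsto_zero_iff_norm_tendsto_zero]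
    refine squeeze_zero (fun _ => norm_nonneg _) (fun o => ?_) (tend_sz (t := t))
    have := norm_le_pi_norm (o.2.2.2 - ![0, o.2.2.1]) 1
    simp only [Pi.sub_apply, Matrix.cons_val_one, Matrix.cons_val_zero] at this
    exact this.trans (le_max_right _ _)
  · exact ⟨1, ev_dom.mono fun o h => h.2.2⟩

theorem cr_norm (s : ℝ) (ζ : ℂ) : ‖(cr s ζ).2‖ ≤ ‖ζ‖ :=
  max_le (Complex.abs_re_le_norm ζ) (Complex.abs_im_le_norm ζ)

theorem ev_two {ζ : Om → ℂ} (h : Cl (fl t) ζ fun o => o.2.2.1) : ∀ᶠ o in fl t, ‖ζ o‖ ≤ 2 := by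
  have h1 := h.t.norm.eventually (gt_mem_nhds (show ‖(0 : ℂ)‖ < 1 by simp))
  refine (h1.and ev_dom).mono fun o ho => ?_
  have := norm_add_le (ζ o - o.2.2.1) o.2.2.1
  rw [sub_add_cancel] at this
  linarith [ho.1, ho.2.2.2]

theorem bd_Lb {g : Fx} (hg : Lb g) {ζ : Om → ℂ} (h : Cl (fl t) ζ fun o => o.2.2.1) :
    Bd (fl t) fun o => (g (cr o.2.1 (ζ o)) : ℂ) := by
  obtain ⟨C, hC⟩ := hg 2
  refine ⟨C, ((ev_two h).and ev_dom).mono fun o ho => ?_⟩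
  rw [Complex.norm_real]
  exact hC _ ho.2.2.1 ((cr_norm _ _).trans ho.1)

theorem cl_JM {g : Fx} (hg : Lb g) (hj : JM t g) {ζ : Om → ℂ}
    (h : Cl (fl t) ζ fun o => o.2.2.1) :
    Cl (fl t) (fun o => (g (cr o.2.1 (ζ o)) : ℂ)) fun o => (g (cr o.1 o.2.2.1) : ℂ) := by
  constructor
  · rw [Metric.tendsto_nhds]
    intro ε hε
    obtain ⟨δ, hδ, H⟩ := hj 2 (ε / 2) (by positivity)
    have h1 := h.t.norm.eventually (gt_mem_nhds (show ‖(0 : ℂ)‖ < δ by simpa using hδ))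
    have h2 := (tend_sz (t := t)).eventually (gt_mem_nhds hδ)
    refine (((ev_two h).and ev_dom).and (h1.and h2)).mono fun o ho => ?_
    obtain ⟨⟨a1, a2, a3, a4⟩, a5, a6⟩ := ho
    rw [dist_zero_right, ← Complex.ofReal_sub, Complex.norm_real]
    have := H o.2.1 a3 o.1 a2 (cr o.2.1 (ζ o)).2 (cr o.1 o.2.2.1).2 ((cr_norm _ _).trans a1)
      ((cr_norm _ _).trans (a4.trans one_le_two))
      (((cr_norm 0 (ζ o - o.2.2.1)).trans a5.le).trans_eq' (by simp [cr]))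
      ((le_max_left _ _).trans a6.le)
    exact lt_of_le_of_lt this (by linarith)
  · obtain ⟨C, hC⟩ := hg 2
    refine ⟨C, ev_dom.mono fun o ho => ?_⟩
    rw [Complex.norm_real]
    exact hC _ ho.1 ((cr_norm _ _).trans (ho.2.2.trans one_le_two))

theorem r2_cr (s : ℝ) (ζ : ℂ) : (r2 (cr s ζ) : ℂ) = ζ * conj ζ := by
  rw [Complex.mul_conj, r2_apply, Complex.normSq_apply]
  simp only [cr]
  congr 1
  ring

theorem tend_cy0 : Tendsto (fun o : Om => conj (o.2.2.2 0)) (fl t) (𝓝 0) := by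
  have := (Complex.continuous_conj.tendsto 0).comp (tend_y0 (t := t))
  rw [map_zero] at this
  exact this

theorem tend_nw : Tendsto (fun o : Om => nw o.2.2.2) (fl t) (𝓝 1) := by
  simpa [nw] using ((cl_y1 (t := t)).bd.mul_zero tend_cy0).const_sub 1

/-- The conclusion from the closeness of the entries. -/
theorem main {M M₀ : Om → Matrix (Fin 2) (Fin 2) ℂ} {G : Om → ℝ} {α γ : Om → ℝ} {β : Om → ℂ}
    (hM : ∀ i j, Cl (fl t) (fun o => M o i j) fun o => M₀ o i j)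
    (hG : Bd (fl t) fun o => (G o : ℂ))
    (he : ∀ o, M₀ o = !![(α o : ℂ), conj (β o); β o, (γ o : ℂ)])
    (hp : ∀ o, (M₀ o).PosDef) {b : ℝ} (hb0 : 0 < b)
    (hb : ∀ o ∈ dom, b ≤ α o * γ o - ‖β o‖ ^ 2) {δ : ℝ} (hδ : 0 < δ) :
    ∃ Λ : ℝ, 0 ≤ Λ ∧ ∀ᶠ o in fl t, |G o| ≤ Λ ∧ ∀ v : C2,
      ‖v‖ ^ 2 ≤ Λ * (star v ⬝ᵥ M₀ o *ᵥ v).re ∧ (star v ⬝ᵥ M₀ o *ᵥ v).re ≤ Λ * ‖v‖ ^ 2 ∧
      |(star v ⬝ᵥ M o *ᵥ v).re - (star v ⬝ᵥ M₀ o *ᵥ v).re| ≤ δ * (star v ⬝ᵥ M₀ o *ᵥ v).re := by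
  choose C hC using fun i j => (hM i j).b
  obtain ⟨C₁, hG⟩ := hG
  obtain ⟨C₀, h1, hC₀⟩ : ∃ C₀ : ℝ, 1 ≤ C₀ ∧ ∀ i j, C i j ≤ C₀ := by
    refine ⟨1 + ∑ i, ∑ j, |C i j|, le_add_of_nonneg_right (by positivity), fun i j => ?_⟩
    have a1 : |C i j| ≤ ∑ j, |C i j| :=
      Finset.single_le_sum (f := fun j => |C i j|) (fun _ _ => abs_nonneg _) (Finset.mem_univ j)
    have a2 : ∑ j, |C i j| ≤ ∑ i, ∑ j, |C i j| :=
      Finset.single_le_sum (f := fun i => ∑ j, |C i j|) (fun _ _ => by positivity)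
        (Finset.mem_univ i)
    linarith [le_abs_self (C i j)]
  have hC0 : 0 < C₀ := by linarith
  have e1 : ∀ᶠ o in fl t, ∀ i j, ‖M₀ o i j‖ ≤ C₀ :=
    eventually_all.2 fun i => eventually_all.2 fun j => (hC i j).mono fun o h => h.trans (hC₀ i j)
  have hε : 0 < δ * b / (4 * C₀) := by positivity
  have e2 : ∀ᶠ o in fl t, ∀ i j, ‖(M o - M₀ o) i j‖ ≤ δ * b / (4 * C₀) :=
    eventually_all.2 fun i => eventually_all.2 fun j =>
      ((hM i j).t.norm.eventually (gt_mem_nhds (show ‖(0 : ℂ)‖ < _ by simpa using hε))).mono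
        fun o h => h.le
  refine ⟨|C₁| + 4 * C₀ + C₀ / b, by positivity, ((e1.and e2).and (hG.and ev_dom)).mono ?_⟩
  rintro o ⟨⟨a1, a2⟩, a3, a4⟩
  have p1 : 0 ≤ C₀ / b := by positivity
  rw [Complex.norm_real] at a3
  refine ⟨by linarith [le_abs_self C₁, show |G o| ≤ C₁ from a3], fun v => ?_⟩
  have q0 : 0 ≤ (star v ⬝ᵥ M₀ o *ᵥ v).re := by
    simpa using (hp o).posSemidef.re_dotProduct_nonneg v
  have q1 : b * ‖v‖ ^ 2 ≤ C₀ * (star v ⬝ᵥ M₀ o *ᵥ v).re := by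
    have b1 := a1 0 0
    have b2 := a1 1 1
    rw [he o] at q0 b1 b2 ⊢
    refine form_ge _ _ _ _ _ ?_ ?_ hb0.le (hb o a4) v q0
    · simpa using b1
    · simpa using b2
  have q2 := form_le _ _ a1 v
  have q3 := form_le _ _ a2 v
  rw [Matrix.sub_mulVec, dotProduct_sub, Complex.sub_re] at q3
  set Q := (star v ⬝ᵥ M₀ o *ᵥ v).re
  have q4 : ‖v‖ ^ 2 ≤ C₀ / b * Q := by
    rw [div_mul_eq_mul_div, le_div_iff₀ hb0]
    linarith
  refine ⟨q4.trans (mul_le_mul_of_nonneg_right (by linarith [abs_nonneg C₁]) q0),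
    ((le_abs_self Q).trans q2).trans
      (mul_le_mul_of_nonneg_right (by linarith [abs_nonneg C₁]) (sq_nonneg _)), q3.trans ?_⟩
  calc 4 * (δ * b / (4 * C₀)) * ‖v‖ ^ 2 ≤ 4 * (δ * b / (4 * C₀)) * (C₀ / b * Q) :=
        mul_le_mul_of_nonneg_left q4 (by positivity)
    _ = δ * Q := by field_simp

theorem cl_mat {l : Filter Om} {a b c d a' b' c' d' : Om → ℂ} (ha : Cl l a a') (hb : Cl l b b')
    (hc : Cl l c c') (hd : Cl l d d') {M M₀ : Om → Matrix (Fin 2) (Fin 2) ℂ}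
    (e : ∀ᶠ o in l, M o = !![a o, b o; c o, d o]) (e' : ∀ o, M₀ o = !![a' o, b' o; c' o, d' o])
    (i j : Fin 2) : Cl l (fun o => M o i j) fun o => M₀ o i j := by
  fin_cases i <;> fin_cases j
  · exact ha.congr (e.mono fun o h => by rw [h]; rfl) (.of_forall fun o => by rw [e' o]; rfl)
  · exact hb.congr (e.mono fun o h => by rw [h]; rfl) (.of_forall fun o => by rw [e' o]; rfl)
  · exact hc.congr (e.mono fun o h => by rw [h]; rfl) (.of_forall fun o => by rw [e' o]; rfl)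
  · exact hd.congr (e.mono fun o h => by rw [h]; rfl) (.of_forall fun o => by rw [e' o]; rfl)

theorem cq_sq (A B : Fx) (p : X) : ‖cq A B p‖ ^ 2 = A p ^ 2 + B p ^ 2 := by
  rw [Complex.sq_norm, cq, Complex.normSq_add_mul_I]

theorem bd_y0 (c : ℝ) : Bd (fl t) fun o : Om => ((c * ‖o.2.2.2 0‖ ^ 2 : ℝ) : ℂ) :=
  Bd.of_tendsto ((Complex.continuous_ofReal.tendsto _).comp
    (((tend_y0 (t := t)).norm.pow 2).const_mul c))

/-- The conclusion in one chart. -/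
def Con (F : ℝ → Fn) (δ Λ : ℝ) (o : Om) : Prop :=
  |F o.2.1 o.2.2.2| ≤ Λ ∧ ∀ v : C2,
    ‖v‖ ^ 2 ≤ Λ * qf (F o.1) ![0, o.2.2.1] v ∧ qf (F o.1) ![0, o.2.2.1] v ≤ Λ * ‖v‖ ^ 2 ∧
    |qf (F o.2.1) o.2.2.2 v - qf (F o.1) ![0, o.2.2.1] v| ≤ δ * qf (F o.1) ![0, o.2.2.1] v

theorem chart0 {c : ℝ} {F : ℝ → Fn} {g P A B : Fx}
    (H : ∀ s (w : C2) p, p = cr s (w 1 - conj (w 0)) → F s w = c * ‖w 0‖ ^ 2 + g p ∧
      hess (F s) w = !![((c + P p : ℝ) : ℂ), -conj (cq A B p); -cq A B p, (P p : ℂ)])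
    (hg : Lb g) (bP : Lb P) (bA : Lb A) (bB : Lb B) (jP : JM t P) (jA : JM t A) (jB : JM t B)
    (hp : ∀ s w, (hess (F s) w).PosDef) {b : ℝ} (hb0 : 0 < b)
    (hb : ∀ p : X, 0 ≤ p.1 → ‖p.2‖ ≤ 1 → b ≤ (c + P p) * P p - (A p ^ 2 + B p ^ 2))
    {δ : ℝ} (hδ : 0 < δ) : ∃ Λ : ℝ, 0 ≤ Λ ∧ ∀ᶠ o in fl t, Con F δ Λ o := by
  have hζ : Cl (fl t) (fun o : Om => o.2.2.2 1 - conj (o.2.2.2 0)) fun o => o.2.2.1 :=
    (cl_y1.add (Cl.of_tendsto tend_cy0).neg).congr (.of_forall fun o => by ring)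
      (.of_forall fun o => by ring)
  have base : ∀ o : Om, hess (F o.1) ![0, o.2.2.1] = _ := fun o =>
    (H o.1 ![0, o.2.2.1] (cr o.1 o.2.2.1) (by simp)).2
  have cP := cl_JM bP jP hζ
  have cQ : Cl (fl t) (fun o : Om => cq A B (cr o.2.1 (o.2.2.2 1 - conj (o.2.2.2 0))))
      fun o => cq A B (cr o.1 o.2.2.1) :=
    (cl_JM bA jA hζ).add ((cl_JM bB jB hζ).mul (Cl.const Complex.I))
  refine main (M := fun o => hess (F o.2.1) o.2.2.2) (M₀ := fun o => hess (F o.1) ![0, o.2.2.1])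
    (G := fun o => F o.2.1 o.2.2.2) (α := fun o => c + P (cr o.1 o.2.2.1))
    (β := fun o => -cq A B (cr o.1 o.2.2.1)) (γ := fun o => P (cr o.1 o.2.2.1)) ?_ ?_
    (fun o => by rw [base o, map_neg]) (fun o => hp _ _) hb0 (fun o ho => ?_) hδ
  · refine cl_mat ((Cl.const (c : ℂ)).add cP) cQ.conj.neg cQ.neg cP (.of_forall fun o => ?_)
      fun o => ?_
    · rw [(H _ _ _ rfl).2, Complex.ofReal_add]
    · rw [base o, Complex.ofReal_add]
  · refine ((bd_y0 c).add (bd_Lb hg hζ)).congr (.of_forall fun o => ?_)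
    rw [(H _ _ _ rfl).1, Complex.ofReal_add]
  · rw [norm_neg, cq_sq]
    exact hb _ ho.1 ((cr_norm _ _).trans ho.2.2)

theorem chart1 {c a : ℝ} {F : ℝ → Fn} {g P A B : Fx}
    (H : ∀ s (w : C2) p, nw w ≠ 0 → p = cr s (w 1 / nw w) →
      F s w = c * ‖w 0‖ ^ 2 + a * Real.log (‖nw w‖ ^ 2) + g p ∧
      hess (F s) w = !![((c + r2 p ^ 2 * (1 / 4 * P p) : ℝ) : ℂ),
        conj (cq (A - K a) B p / nw w ^ 2); cq (A - K a) B p / nw w ^ 2,
        ((1 / 4 * P p / ‖nw w‖ ^ 4 : ℝ) : ℂ)])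
    (hg : Lb g) (bP : Lb P) (bA : Lb A) (bB : Lb B) (jP : JM t P) (jA : JM t A) (jB : JM t B)
    (hp : ∀ s w, (hess (F s) w).PosDef) {b : ℝ} (hb0 : 0 < b)
    (hb : ∀ p : X, 0 ≤ p.1 → ‖p.2‖ ≤ 1 →
      b ≤ (c + r2 p ^ 2 * (1 / 4 * P p)) * (1 / 4 * P p) - ((A p - a) ^ 2 + B p ^ 2))
    {δ : ℝ} (hδ : 0 < δ) : ∃ Λ : ℝ, 0 ≤ Λ ∧ ∀ᶠ o in fl t, Con F δ Λ o := by
  have hn : ∀ᶠ o : Om in fl t, nw o.2.2.2 ≠ 0 := tend_nw.eventually_ne one_ne_zero
  have hi : Cl (fl t) (fun o : Om => (nw o.2.2.2)⁻¹) fun _ => 1 :=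
    Cl.of_tendsto (by simpa using (tend_nw (t := t)).inv₀ one_ne_zero)
  have hζ : Cl (fl t) (fun o : Om => o.2.2.2 1 / nw o.2.2.2) fun o => o.2.2.1 :=
    (cl_y1.mul hi).congr (.of_forall fun o => by ring) (.of_forall fun o => by ring)
  have n1 : ∀ η : ℂ, nw ![0, η] = 1 := fun η => by simp [nw]
  have base : ∀ o : Om, hess (F o.1) ![0, o.2.2.1] =
      !![((c + r2 (cr o.1 o.2.2.1) ^ 2 * (1 / 4 * P (cr o.1 o.2.2.1)) : ℝ) : ℂ),
        conj (cq (A - K a) B (cr o.1 o.2.2.1)); cq (A - K a) B (cr o.1 o.2.2.1),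
        ((1 / 4 * P (cr o.1 o.2.2.1) : ℝ) : ℂ)] := fun o => by
    rw [(H o.1 ![0, o.2.2.1] (cr o.1 o.2.2.1) (by simp [n1]) (by simp [n1])).2, n1, norm_one,
      one_pow, one_pow, div_one, div_one]
  have cP := (Cl.const (1 / 4)).mul (cl_JM bP jP hζ)
  have cQ : Cl (fl t) (fun o : Om => cq (A - K a) B (cr o.2.1 (o.2.2.2 1 / nw o.2.2.2)) /
      nw o.2.2.2 ^ 2) fun o => cq (A - K a) B (cr o.1 o.2.2.1) := by
    refine (((((cl_JM bA jA hζ).add (Cl.const (-a))).add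
      ((cl_JM bB jB hζ).mul (Cl.const Complex.I))).mul hi).mul hi).congr
      (.of_forall fun o => ?_) (.of_forall fun o => ?_)
    · simp only [cq, Pi.sub_apply, K_apply]
      push_cast
      ring
    · simp only [cq, Pi.sub_apply, K_apply]
      push_cast
      ring
  have cR := hζ.mul hζ.conj
  have cN := hi.mul hi.conj
  refine main (M := fun o => hess (F o.2.1) o.2.2.2) (M₀ := fun o => hess (F o.1) ![0, o.2.2.1])
    (G := fun o => F o.2.1 o.2.2.2) ?_ ?_ base (fun o => hp _ _) hb0 (fun o ho => ?_) hδ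
  · refine cl_mat ((Cl.const (c : ℂ)).add ((cR.mul cR).mul cP)) cQ.conj cQ ((cP.mul cN).mul cN)
      (hn.mono fun o ho => ?_) fun o => ?_
    · have e : ((‖nw o.2.2.2‖ : ℝ) : ℂ) ^ 4 = (nw o.2.2.2 * conj (nw o.2.2.2)) ^ 2 := by
        rw [Complex.mul_conj']
        ring
      rw [(H _ _ _ ho rfl).2]
      push_cast
      rw [r2_cr, e, map_inv₀]
      congr <;> ring
    · rw [base o]
      push_cast
      rw [r2_cr, map_one, sq]
      simp only [mul_one]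
  · have hl : Tendsto (fun o : Om => a * Real.log (‖nw o.2.2.2‖ ^ 2)) (fl t) (𝓝 _) :=
      (((tend_nw (t := t)).norm.pow 2).log (by simp)).const_mul a
    refine (((bd_y0 c).add (Bd.of_tendsto ((Complex.continuous_ofReal.tendsto _).comp hl))).add
      (bd_Lb hg hζ)).congr (hn.mono fun o ho => ?_)
    rw [(H _ _ _ ho rfl).1, Complex.ofReal_add, Complex.ofReal_add]
    rfl
  · rw [cq_sq]
    exact hb _ ho.1 ((cr_norm _ _).trans ho.2.2)

end B1P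

open B1P in
theorem oscS_ok (h0 : StGa) (hB : StB0) (hR : StR) (hA : StA) : StOscS := by
  intro c e f κ T φ hK hκ hT hFl δ hδ
  obtain ⟨d, θ, hF, hc, ha, ht, hθ, hon, hsm, hψ⟩ :=
    hR c e f κ T φ hK hκ hFl (T / 4) (by positivity) (by linarith)
  set F : ℝ → Bool → Fn := fun s b => f b + φ (θ s) b with hFd
  obtain ⟨-, hW, H0, H1⟩ := hB c e F hsm fun s => h0.add c e f _ hK.toSPt (hFl.gl _ (hθ s))
  have hWc : d.Wc (res F true) := by
    unfold Dat.Wc Dat.φ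
    rw [hψ, ha]
    exact hW
  have O := hA d _ hF hWc
  obtain ⟨β, hβ, hlow⟩ := O.low 1
  have hp : ∀ b s w, (hess (F s b) w).PosDef := fun b s w => hFl.pos _ (hθ s) b w
  have key : ∀ b, ∃ Λ : ℝ, 0 ≤ Λ ∧ ∀ᶠ o in fl d.t, Con (fun s => F s b) δ Λ o := by
    intro b
    cases b
    · rw [← hψ] at H0
      refine chart0 H0 O.bψ O.b0.1 O.b0.2.1 O.b0.2.2 O.j0.1 O.j0.2.1 O.j0.2.2 (hp false)
        (b := β / 4) (by positivity) (fun p h1 h2 => ?_) hδ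
      have := (hlow p h1 h2).1
      rw [hF.toMet.V_pq, hc] at this
      simp only [qq, Pi.add_apply, Pi.mul_apply] at this
      linarith
    · refine chart1 H1 O.bχ O.b1.1 O.b1.2.1 O.b1.2.2 O.j1.1 O.j1.2.1 O.j1.2.2 (hp true)
        (b := β / 4) (by positivity) (fun p h1 h2 => ?_) hδ
      have := (hlow p h1 h2).2
      simp only [Dat.Vi, Pi.add_apply, Pi.mul_apply, Pi.sub_apply, K_apply, hc, ha] at this
      linarith
  choose Λ hΛ0 hΛ using key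
  choose ρ hρ0 hρ using fun b => of_ev (hΛ b)
  have hm : ∀ b, min (ρ false) (ρ true) ≤ ρ b := fun b => by
    cases b
    · exact min_le_left _ _
    · exact min_le_right _ _
  have hM : ∀ b, Λ b ≤ max (Λ false) (Λ true) := fun b => by
    cases b
    · exact le_max_left _ _
    · exact le_max_right _ _
  set r := min (ρ false) (ρ true) with hr
  have hr0 : 0 < r := lt_min (hρ0 _) (hρ0 _)
  set r' := min (T / 4) (min r (r / κ)) with hr'
  have hr'0 : 0 < r' := lt_min (by positivity) (lt_min hr0 (by positivity))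
  have b1 : r' ≤ T / 4 := min_le_left _ _
  have b2 : r' ≤ r := (min_le_right _ _).trans (min_le_left _ _)
  have b3 : κ * r' ≤ r := by
    have : r' ≤ r / κ := (min_le_right _ _).trans (min_le_right _ _)
    rwa [le_div_iff₀' hκ] at this
  refine ⟨T / 4, r', max (Λ false) (Λ true), by positivity, hr'0, by linarith, ?_⟩
  intro t ht' b η hη
  obtain ⟨σ, hσ, rfl⟩ := hon t ⟨by linarith [ht'.1], ht'.2⟩
  have con : ∀ σ', 0 ≤ σ' → θ σ' ∈ Icc (θ σ - r') (θ σ) → ∀ y : C2, ‖y - ![0, η]‖ ≤ r' →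
      Con (fun s => F s b) δ (Λ b) (σ, σ', η, y) := by
    intro σ' hσ' hs y hy
    refine hρ b _ ⟨hσ, hσ', hη⟩ (max_le ?_ (hy.trans (b2.trans (hm b))))
    refine le_trans ?_ (b3.trans (hm b))
    show |d.t σ' - d.t σ| ≤ κ * r'
    rw [ht, ht, ← mul_sub, abs_mul, abs_of_pos hκ]
    exact mul_le_mul_of_nonneg_left (abs_le.2 ⟨by linarith [hs.1], by linarith [hs.2]⟩) hκ.le
  refine ⟨fun v => ?_, fun s hs y hy => ?_⟩
  · have := ((con σ hσ ⟨by linarith, le_rfl⟩ ![0, η] (by simpa using hr'0.le)).2 v)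
    exact ⟨this.1.trans (mul_le_mul_of_nonneg_right (hM b) (qf_nonneg (hp b σ _) v)),
      this.2.1.trans (mul_le_mul_of_nonneg_right (hM b) (sq_nonneg _))⟩
  · obtain ⟨σ', hσ', rfl⟩ := hon s ⟨by linarith [hs.1, ht'.1], hs.2.trans_lt ht'.2⟩
    have := con σ' hσ' hs y hy
    exact ⟨this.1.trans (hM b), fun v => (this.2 v).2.2⟩

end Pool.Agent.P.MP_2cea5e_gt.Se
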