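import Pool.Agent.P.MP_2cea5e_gt.Se.BrSt
import Pool.Agent.P.MP_2cea5e_gt.Se.Api

/-!
Package BR.
-/

open scoped ContDiff ComplexOrder Matrix Topology ComplexConjugate
open MeasureTheory Set Filter

noncomputable section

namespace Pool.Agent.P.MP_2cea5e_gt.Se

open II III

namespace BRP

theorem tr_inv (A B : Matrix (Fin 2) (Fin 2) ℂ) :
    (A⁻¹ * B).trace = (A 1 1 * B 0 0 - A 0 1 * B 1 0 - A 1 0 * B 0 1 + A 0 0 * B 1 1) *
      (A 0 0 * A 1 1 - A 0 1 * A 1 0)⁻¹ := by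
  rw [Matrix.inv_def, Matrix.adjugate_fin_two, Ring.inverse_eq_inv', Matrix.det_fin_two,
    Matrix.trace_fin_two]
  simp [Matrix.mul_apply, Fin.sum_univ_two]
  ring

theorem cr_pt (p : X) : p = cr p.1 (pt p 1 - conj (pt p 0)) := by
  obtain ⟨s, x, y⟩ := p
  simp [cr, pt]

theorem Ga_ff (s : ℂ) (w : C2) : Ga false false s w = w + tr s := by
  funext j
  fin_cases j <;> simp [Ga, nu, de, hN, hD, tr]

theorem Ga_ft (w : C2) : Ga false true 0 w = inv2 w := by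
  funext j
  fin_cases j <;> simp [Ga, nu, de, hN, hD, inv2]

/-- The logarithm of the volume density is a potential of degree `-2`. -/
theorem spt_log (h4 : StPos) {c a : ℝ} {f : Bool → Fn} (h : SKp c a f) :
    SPt 0 (-2) fun b w => Real.log (vol (f b) w) := by
  have hv : ∀ b w, 0 < vol (f b) w := fun b w => JS.vol_pos (h.pos b w)
  refine ⟨fun b => (sm_vol (h.sm b)).log fun w => (hv b w).ne', fun s w => ?_, fun w hw => ?_⟩
  · have h1 := h4.vol c a f h.toSPt false false s w (by simp [de, hD])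
    rw [Ga_ff] at h1
    simp only [de, hD, cond_false, norm_one, one_pow, mul_one] at h1
    simp only [h1, zero_mul]
  · have h1 := h4.vol c a f h.toSPt false true 0 w (by simpa [de, hD] using hw)
    rw [Ga_ft] at h1
    simp only [de, hD, cond_false, cond_true] at h1
    have h2 : ‖w 1‖ ≠ 0 := norm_ne_zero_iff.2 hw
    rw [← h1, Real.log_mul (hv _ _).ne' (pow_ne_zero _ h2), Real.log_pow, Real.log_pow]
    push_cast
    ring

theorem spt_gl {u : Bool → Fn} (h : SGl u) : SPt 0 0 u :=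
  ⟨h.sm, fun s w => by rw [h.inv, zero_mul, zero_mul], fun w hw => by
    rw [h.glue w hw, zero_mul, add_zero]⟩

variable {F : ℝ → C2 → ℝ}

theorem sm_hess (hF : ContDiff ℝ ∞ fun q : ℝ × C2 => F q.1 q.2) (j k : Fin 2) :
    ContDiff ℝ ∞ fun q : ℝ × C2 => hess (F q.1) q.2 j k :=
  vol_ok.1 (fun q => F q.1 q.2) hF j k

theorem sm_lv (hF : ContDiff ℝ ∞ fun q : ℝ × C2 => F q.1 q.2)
    (hp : ∀ s w, (hess (F s) w).PosDef) :
    ContDiff ℝ ∞ fun q : ℝ × C2 => Real.log (vol (F q.1) q.2) := by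
  refine ContDiff.log ?_ fun q => (JS.vol_pos (hp q.1 q.2)).ne'
  have h := sm_hess hF
  have h1 := Complex.reCLM.contDiff.comp (((h 0 0).mul (h 1 1)).sub ((h 0 1).mul (h 1 0)))
  simp only [vol, Matrix.det_fin_two]
  exact h1

theorem sm_sc (hF : ContDiff ℝ ∞ fun q : ℝ × C2 => F q.1 q.2)
    (hp : ∀ s w, (hess (F s) w).PosDef) :
    ContDiff ℝ ∞ fun q : ℝ × C2 => scal (F q.1) q.2 := by
  have h := sm_hess hF
  have g := sm_hess (F := fun s w => Real.log (vol (F s) w)) (sm_lv hF hp)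
  have h1 := (((h 0 0).mul (h 1 1)).sub ((h 0 1).mul (h 1 0))).inv fun q => by
    rw [← Matrix.det_fin_two]
    exact (hp q.1 q.2).det_pos.ne'
  have h2 := Complex.reCLM.contDiff.comp ((((((h 1 1).mul (g 0 0)).sub ((h 0 1).mul (g 1 0))).sub
    ((h 1 0).mul (g 0 1))).add ((h 0 0).mul (g 1 1))).mul h1)
  simp only [scal, tr_inv]
  exact h2.neg

/-- The second derivatives of `u`. -/
theorem du (c : ℝ) {ψ : Fx} (h : Sm ψ) :
    D e1 (D e1 (K (c / 2) * r2 + ψ)) = K c + D e1 (D e1 ψ) ∧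
    D e1 (D e2 (K (c / 2) * r2 + ψ)) = D e1 (D e2 ψ) ∧
    D e2 (D e2 (K (c / 2) * r2 + ψ)) = K c + D e2 (D e2 ψ) := by
  have h1 : D e1 (K (c / 2) * r2 + ψ) = K c * x1 + D e1 ψ := by
    rw [D_add _ (Pool.Agent.P.MP_2cea5e_gt.sm_mul (sm_K _) sm_r2) h, D_Kmul _ _ sm_r2, D1_r2]
    funext p
    simp only [Pi.add_apply, Pi.mul_apply, K_apply]; ring
  have h2 : D e2 (K (c / 2) * r2 + ψ) = K c * x2 + D e2 ψ := by
    rw [D_add _ (Pool.Agent.P.MP_2cea5e_gt.sm_mul (sm_K _) sm_r2) h, D_Kmul _ _ sm_r2, D2_r2]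
    funext p
    simp only [Pi.add_apply, Pi.mul_apply, K_apply]; ring
  refine ⟨?_, ?_, ?_⟩
  · rw [h1, D_add _ (Pool.Agent.P.MP_2cea5e_gt.sm_mul (sm_K _) sm_x1) (sm_D _ h),
      D_Kmul _ _ sm_x1, D1_x1, mul_one]
  · rw [h2, D_add _ (Pool.Agent.P.MP_2cea5e_gt.sm_mul (sm_K _) sm_x2) (sm_D _ h),
      D_Kmul _ _ sm_x2, D1_x2, mul_zero, zero_add]
  · rw [h2, D_add _ (Pool.Agent.P.MP_2cea5e_gt.sm_mul (sm_K _) sm_x2) (sm_D _ h),
      D_Kmul _ _ sm_x2, D2_x2, mul_one]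

theorem D_addK (v : X) {f : Fx} (h : Sm f) (k : ℝ) : D v (f + K k) = D v f := by
  rw [D_add _ h (sm_K _), D_K, add_zero]

/-- The matrix of an invariant form. -/
def mx2 (c p x y : ℝ) : Matrix (Fin 2) (Fin 2) ℂ :=
  !![((c + p : ℝ) : ℂ), -conj ((x : ℂ) + (y : ℂ) * Complex.I);
     -((x : ℂ) + (y : ℂ) * Complex.I), (p : ℂ)]

theorem mt_det (c p x y : ℝ) : mx2 c p x y 0 0 * mx2 c p x y 1 1 - mx2 c p x y 0 1 * mx2 c p x y 1 0 =
    ((c * p + p ^ 2 - x ^ 2 - y ^ 2 : ℝ) : ℂ) := by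
  apply Complex.ext <;> simp [mx2, sq] <;> ring

theorem mt_tr (c p x y P Q R : ℝ) : ((mx2 c p x y)⁻¹ * mx2 0 P Q R).trace.re =
    ((c + 2 * p) * P - 2 * (x * Q + y * R)) * (c * p + p ^ 2 - x ^ 2 - y ^ 2)⁻¹ := by
  have h : mx2 c p x y 1 1 * mx2 0 P Q R 0 0 - mx2 c p x y 0 1 * mx2 0 P Q R 1 0 -
      mx2 c p x y 1 0 * mx2 0 P Q R 0 1 + mx2 c p x y 0 0 * mx2 0 P Q R 1 1 =
      (((c + 2 * p) * P - 2 * (x * Q + y * R) : ℝ) : ℂ) := by
    apply Complex.ext <;> simp [mx2] <;> ring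
  rw [tr_inv, mt_det, h, ← Complex.ofReal_inv, ← Complex.ofReal_mul, Complex.ofReal_re]

end BRP

open BRP in
theorem r_ok (h0 : StGa) (h4 : StPos) (hB : StB0) : StR := by
  intro c a f κ T φ hK hκ hF t₀ ht₀ hT
  obtain ⟨θ, τ, hθ, hτ, hτ0, hd, hmem, hsurj⟩ := MainB.exists_clock ht₀ hT
  set F : ℝ → Bool → Fn := fun s b => f b + φ (θ s) b with hFd
  have sF : ∀ b, ContDiff ℝ ∞ fun q : ℝ × C2 => F q.1 b q.2 := fun b =>
    ((hK.sm b).comp contDiff_snd).add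
      ((hF.smooth b).comp_contDiff (f := fun q : ℝ × C2 => (θ q.1, q.2))
        ((hθ.comp contDiff_fst).prodMk contDiff_snd) fun q => ⟨hmem q.1, mem_univ _⟩)
  have kF : ∀ s, SKp c a (F s) := fun s =>
    ⟨h0.add c a f _ hK.toSPt (hF.gl _ (hmem s)), hK.cpos, hF.pos _ (hmem s)⟩
  set Lf : ℝ → Bool → Fn := fun s b w => Real.log (vol (F s b) w) with hLd
  set Rf : ℝ → Bool → Fn := fun s b => scal (F s b) with hRd
  obtain ⟨sψ, wψ, hψ, -⟩ := hB c a F sF fun s => (kF s).toSPt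
  obtain ⟨sL, wL, hL, -⟩ := hB 0 (-2) Lf
    (fun b => sm_lv (F := fun s => F s b) (sF b) fun s => (kF s).pos b) fun s => spt_log h4 (kF s)
  obtain ⟨sR, wR, -, -⟩ := hB 0 0 Rf
    (fun b => sm_sc (F := fun s => F s b) (sF b) fun s => (kF s).pos b)
    fun s => spt_gl (h4.scal c a _ (kF s))
  set ψ := res F false with hψd
  set l := res Lf false with hld
  set R := res Rf false with hRd'
  have mψ : ∀ p : X, hess (F p.1 false) (pt p) = mx2 c (pp ψ p) (q1 ψ p) (q2 ψ p) :=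
    fun p => (hψ p.1 (pt p) p (cr_pt p)).2
  have mL : ∀ p : X, hess (Lf p.1 false) (pt p) = mx2 0 (pp l p) (q1 l p) (q2 l p) :=
    fun p => (hL p.1 (pt p) p (cr_pt p)).2
  have vψ : ∀ p : X, vol (F p.1 false) (pt p) =
      c * pp ψ p + pp ψ p ^ 2 - q1 ψ p ^ 2 - q2 ψ p ^ 2 := fun p => by
    rw [vol, Matrix.det_fin_two, mψ, mt_det, Complex.ofReal_re]
  have vpos : ∀ p : X, 0 < vol (F p.1 false) (pt p) := fun p => JS.vol_pos ((kF p.1).pos _ _)
  have ppos : ∀ p : X, 0 < pp ψ p := fun p => by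
    have h1 := ((kF p.1).pos false (pt p)).diag_pos (i := 1)
    rw [mψ] at h1
    simpa [mx2] using h1
  obtain ⟨u11, u12, u22⟩ := du c sψ
  set d : Dat := ⟨c, a, κ * T, ψ, l + K (Real.log 4) + K 2 * el, R, fun s => κ * θ s,
    fun s => κ * τ s⟩ with hdd
  have eu : d.u = K (c / 2) * r2 + ψ := rfl
  have eL : d.L = l + K (Real.log 4) := add_sub_cancel_right _ _
  have eV : ∀ p, d.V p = 4 * vol (F p.1 false) (pt p) := fun p => by
    rw [vψ]
    simp only [Dat.V, eu, W, u11, u12, u22, pp, q1, q2, Lp, Pi.add_apply, Pi.mul_apply,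
      Pi.sub_apply, K_apply]
    change _ - c * c = _
    ring
  have sel : ∀ k, Sm (K k * el) := fun k => Pool.Agent.P.MP_2cea5e_gt.sm_mul (sm_K k) sm_el
  refine ⟨d, θ, ⟨⟨hK.cpos, ⟨ContDiff.sub sψ (sel a), _, wψ⟩, ⟨?_, ?_⟩, ⟨sR, ?_⟩, fun p => ?_, ?_,
    ?_⟩, ⟨contDiff_const.mul hτ, fun s => mul_pos hκ (hτ0 s), fun s => (hd s).const_mul κ,
    fun s => (mul_pos hκ (hmem s).1).le, fun s => mul_le_mul_of_nonneg_left (hmem s).2.le hκ.le⟩,
    ?_⟩, rfl, rfl, fun _ => rfl, hmem, hsurj, sF, rfl⟩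
  · exact ContDiff.add (ContDiff.add sL (sm_K _)) (sel 2)
  · refine ⟨res Lf true - K (-2) * el + K (Real.log 4), ContDiff.add wL.sm (sm_K _),
      fun p hp => ?_⟩
    rw [Pi.add_apply, wL.eq p hp]
    change _ = (l + K (Real.log 4) + K 2 * el) (iv p)
    simp only [Pi.add_apply, Pi.mul_apply, Pi.sub_apply, K_apply]
    ring
  · refine ⟨_, wR.sm, fun p hp => ?_⟩
    rw [wR.eq p hp]
    change _ = R (iv p)
    simp only [Pi.mul_apply, Pi.sub_apply, K_apply]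
    ring
  · have h1 := vpos p
    have h2 := ppos p
    have h3 := hK.cpos
    rw [vψ] at h1
    have h5 : D e1 (D e1 d.u) p = c + 2 * pp ψ p + 2 * q1 ψ p := by
      simp only [eu, u11, pp, q1, Lp, Pi.add_apply, Pi.mul_apply, Pi.sub_apply, K_apply]
      ring
    rw [h5]
    by_contra hc
    nlinarith [sq_nonneg (q2 ψ p), sq_nonneg c]
  · funext p
    have h1 := rr_pos p
    rw [eV, Pi.mul_apply, Ex_apply, sg_apply]
    change _ = _ * Real.exp (Real.log (vol (F p.1 false) (pt p)) + Real.log 4 + 2 * el p)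
    rw [el_apply, Real.exp_add, Real.exp_add, Real.exp_log (vpos p), Real.exp_log (by norm_num),
      two_mul, Real.exp_add, Real.exp_log h1]
    field_simp
  · funext p
    have h1 := (vpos p).ne'
    have h2 : R p = -(((c + 2 * pp ψ p) * pp l p - 2 * (q1 ψ p * q1 l p + q2 ψ p * q2 l p)) *
        (vol (F p.1 false) (pt p))⁻¹) := by
      rw [vψ, ← mt_tr, ← mψ, ← mL]
      rfl
    rw [Pi.mul_apply, eV, eL, eu]
    change R p * _ = _
    rw [h2]
    simp only [DD, DDv, u11, u12, u22, D_addK _ sL, pp, q1, q2, Lp, Pi.add_apply, Pi.mul_apply,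
      Pi.sub_apply, Pi.neg_apply, K_apply]
    field_simp
    ring
  · funext ⟨s, ξ⟩
    have e1 := (((hF.flow _ (hmem s) false (pt (s, ξ))).comp s (hd s)).const_add
      (f false (pt (s, ξ)))).unique (hasDerivAt_time sψ s ξ)
    change D e0 ψ (s, ξ) = κ * τ s * scal (f false + φ (θ s) false) (pt (s, ξ))
    rw [← e1]
    ring

end Pool.Agent.P.MP_2cea5e_gt.Se
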