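import Pool.Agent.P.MP_2cea5e_gt.Se.ClsSt

/-!
Package C0.
-/

open scoped ContDiff ComplexOrder Manifold Matrix Topology ComplexConjugate
open Set Metric Filter MulAction

noncomputable section

namespace Pool.Agent.P.MP_2cea5e_gt.Se

open Abs

namespace C0P

variable {M : Type} [TopologicalSpace M] [ChartedSpace C2 M]

theorem DD_const (p : M) (y : C2) : Abs.DD (fun _ : C2 => p) y = 0 := mfderiv_const

theorem inj_of {N N' : Type} [TopologicalSpace N] [ChartedSpace C2 N] [TopologicalSpace N']
    [ChartedSpace C2 N'] {F : N → N'} {G : N' → N} {z : N}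
    (hF : MDifferentiableAt IC IC F z) (hG : MDifferentiableAt IC IC G (F z))
    (h : ∀ᶠ y in 𝓝 z, G (F y) = y) (v : C2) : Abs.DD G (F z) (Abs.DD F z v) = v := by
  rw [← DD_comp hG hF, DD_congr (G := id) h]
  exact congrFun (congrArg DFunLike.coe (mfderiv_id (I := IC) (x := z))) v

theorem li (F : C2 → M) (w : C2) (h : LI F w) :
    (∀ᶠ y in 𝓝 w, LI F y) ∧ Function.Bijective (Abs.DD F w) ∧ map F (𝓝 w) = 𝓝 (F w) := by
  obtain ⟨G, h1, h2⟩ := h
  have hF := h1.self_of_nhds.1
  have hG := h2.self_of_nhds.1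
  have e := h1.self_of_nhds.2
  have cF : Tendsto F (𝓝 w) (𝓝 (F w)) := hF.continuousAt
  have cG : Tendsto G (𝓝 (F w)) (𝓝 w) := by
    have := hG.continuousAt.tendsto
    rwa [e] at this
  refine ⟨?_, ⟨fun a b hab => ?_, fun v => ?_⟩, le_antisymm cF ?_⟩
  · filter_upwards [h1.eventually_nhds, cF.eventually h2.eventually_nhds] with y a b
    exact ⟨G, a, b⟩
  · rw [← inj_of hF hG (h1.mono fun y hy => hy.2) a, hab, inj_of hF hG (h1.mono fun y hy => hy.2) b]
  · have := inj_of hG (e.symm ▸ hF) (h2.mono fun y hy => hy.2) v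
    rw [e] at this
    exact ⟨_, this⟩
  · have : 𝓝 (F w) = map F (map G (𝓝 (F w))) := by
      rw [map_map, map_congr (m₁ := F ∘ G) (m₂ := id) (h2.mono fun y hy => hy.2), map_id]
    rw [this]
    exact map_mono cG

variable [IsManifold IC 1 M]

theorem const (F : C2 → M) (U : Set C2) (hU : IsOpen U) (hc : IsPreconnected U)
    (h : ∀ y ∈ U, MDifferentiableAt IC IC F y ∧ Abs.DD F y = 0) :
    ∀ y ∈ U, ∀ y' ∈ U, F y = F y' := by
  have loc : ∀ x ∈ U, ∀ᶠ z in 𝓝 x, F x = F z := fun x hx => by
    set e := chartAt C2 (F x)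
    have he : e ∈ atlas C2 M := chart_mem_atlas _ _
    have hs : ∀ᶠ z in 𝓝 x, F z ∈ e.source := (h x hx).1.continuousAt (chart_source_mem_nhds _ _)
    obtain ⟨r, hr, hb⟩ := Metric.eventually_nhds_iff_ball.1 (hs.and (hU.mem_nhds hx))
    filter_upwards [ball_mem_nhds x hr] with z hz
    refine e.injOn (hb x (mem_ball_self hr)).1 (hb z hz).1 ?_
    refine isOpen_ball.is_const_of_fderiv_eq_zero (𝕜 := ℂ) (f := fun y => e (F y))
      (convex_ball x r).isPreconnected
      (fun y hy => (md_chart he (hb y hy).1 (h y (hb y hy).2).1).differentiableWithinAt)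
      (fun y hy => ?_) (mem_ball_self hr) hz
    rw [← DD_eq]
    ext1 v
    rw [DD_comp (mdifferentiableAt_atlas he (hb y hy).1) (h y (hb y hy).2).1, (h y (hb y hy).2).2]
    simp
  intro y hy y' hy'
  exact hc.induction₂' (fun a b => F a = F b)
    (fun x hx => ((loc x hx).filter_mono nhdsWithin_le_nhds).mono fun z hz => ⟨hz, hz.symm⟩)
    (fun _ _ _ _ _ _ a b => a.trans b) hy hy'

theorem ift (F : C2 → M) (w : C2) (h : ∀ᶠ y in 𝓝 w, MDifferentiableAt IC IC F y)
    (hi : Function.Injective (Abs.DD F w)) : LI F w := by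
  set e := chartAt C2 (F w)
  have he : e ∈ atlas C2 M := chart_mem_atlas _ _
  have hw : F w ∈ e.source := mem_chart_source _ _
  have hsrc : e.source ∈ 𝓝 (F w) := chart_source_mem_nhds _ _
  have hF := h.self_of_nhds
  have hs : ∀ᶠ z in 𝓝 w, F z ∈ e.source := hF.continuousAt hsrc
  let f : C2 → C2 := fun y => e (F y)
  obtain ⟨r, hr, hb⟩ := Metric.eventually_nhds_iff_ball.1 (hs.and h)
  have hf : DifferentiableOn ℂ f (ball w r) := fun y hy =>
    (md_chart he (hb y hy).1 (hb y hy).2).differentiableWithinAt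
  have hf1 : ContDiffAt ℂ 1 f w :=
    (CLS.S0.contDiffOn_of_diffOn isOpen_ball hf).contDiffAt (ball_mem_nhds w hr)
  have hei : Function.Injective (Abs.DD e (F w)) := fun a b hab => by
    have k := inj_of (mdifferentiableAt_atlas he hw)
      (mdifferentiableAt_atlas_symm he (e.map_source hw))
      (eventually_of_mem hsrc fun y hy => e.left_inv hy)
    rw [← k a, hab, k b]
  have hfi : Function.Injective (fderiv ℂ f w) := fun a b hab => by
    rw [← DD_eq, DD_comp (mdifferentiableAt_atlas he hw) hF,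
      DD_comp (mdifferentiableAt_atlas he hw) hF] at hab
    exact hi (hei hab)
  let L : C2 ≃L[ℂ] C2 :=
    (LinearEquiv.ofInjectiveEndo (fderiv ℂ f w).toLinearMap hfi).toContinuousLinearEquiv
  have hL : HasFDerivAt f (L : C2 →L[ℂ] C2) w :=
    (hf1.differentiableAt one_ne_zero).hasFDerivAt.congr_fderiv (ContinuousLinearMap.ext fun v => rfl)
  set P := hf1.toOpenPartialHomeomorph f hL one_ne_zero
  have hPs : w ∈ P.source := hf1.mem_toOpenPartialHomeomorph_source hL one_ne_zero
  have hPt : f w ∈ P.target := hf1.image_mem_toOpenPartialHomeomorph_target hL one_ne_zero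
  have hP0 : P.symm (f w) = w := P.left_inv hPs
  have hPd : ∀ᶠ z in 𝓝 (f w), DifferentiableAt ℂ P.symm z :=
    ((hf1.to_localInverse hL one_ne_zero).eventually (by simp)).mono fun z hz =>
      hz.differentiableAt one_ne_zero
  have ce : Tendsto e (𝓝 (F w)) (𝓝 (f w)) := e.continuousAt hw
  have cP : Tendsto P.symm (𝓝 (f w)) (𝓝 w) := by
    have := (P.continuousAt_symm hPt).tendsto
    rwa [hP0] at this
  refine ⟨fun x => P.symm (e x), ?_, ?_⟩
  · filter_upwards [h, P.open_source.mem_nhds hPs] with y a b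
    exact ⟨a, P.left_inv b⟩
  · filter_upwards [hsrc, ce.eventually hPd, ce.eventually (P.open_target.mem_nhds hPt),
      (cP.comp ce).eventually hs] with x a b c d
    exact ⟨(mdifferentiableAt_iff_differentiableAt.2 b).comp x (mdifferentiableAt_atlas he a),
      e.injOn d a (P.right_inv c)⟩

omit [IsManifold IC 1 M]

variable [MulAction C2ˣ M] [ContMDiffSMul IC IC 1 C2ˣ M]

theorem md (p : M) (w : C2) : MDifferentiableAt IC IC (orb p) w :=
  md_smul (diff_ex w) mdifferentiableAt_const

omit [TopologicalSpace M] [ChartedSpace C2 M] [ContMDiffSMul IC IC 1 C2ˣ M] in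
theorem orb_zero (p : M) : orb p 0 = p := by rw [orb, ex_zero, one_smul]

theorem dd (p : M) (w : C2) : Abs.DD (orb p) w = AA (orb p w) := by
  have e : orb (orb p w) = fun y => orb p (y + w) := by
    funext y
    rw [orb, orb, orb, ex_add, mul_smul]
  have hd : DifferentiableAt ℂ (fun y : C2 => y + w) 0 := by fun_prop
  ext1 v
  rw [AA, e, DD_comp (md p _) (mdifferentiableAt_iff_differentiableAt.2 hd), DD_eq, zero_add,
    fderiv_add_const]
  simp

theorem eqv (g : C2ˣ) (p : M) (v : C2) :
    AA (g • p) v = Abs.DD (fun y : M => g • y) p (AA p v) := by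
  have e : orb (g • p) = fun y => g • orb p y := by
    funext y
    rw [orb, orb, smul_comm]
  rw [AA, e, DD_comp (md_act g _) (md p 0), orb_zero, AA]

theorem prod (W : C2 → C2) (F : C2 → M) (y d : C2) (hW : DifferentiableAt ℂ W y)
    (hF : MDifferentiableAt IC IC F y) :
    Abs.DD (fun z => ex (W z) • F z) y d = AA (ex (W y) • F y) (fderiv ℂ W y d) +
      Abs.DD (fun x : M => ex (W y) • x) (F y) (Abs.DD F y d) := by
  let H : C2 × M → M := fun q => ex q.1 • q.2
  have hH : MDifferentiableAt (IC.prod IC) IC H (W y, F y) :=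
    ((contMDiff_smul (I := IC) (I' := IC) (n := 1) (G := C2ˣ) (M := M)).mdifferentiable
      one_ne_zero (ex (W y), F y)).comp (W y, F y)
      (((md_units (diff_ex (W y))).comp (W y, F y) mdifferentiableAt_fst).prodMk
        mdifferentiableAt_snd)
  have hW' := mdifferentiableAt_iff_differentiableAt.2 hW
  have h1 := congrFun (congrArg DFunLike.coe (mfderiv_comp y hH (hW'.prodMk hF))) d
  rw [mfderiv_prodMk hW' hF] at h1
  have h2 := mfderiv_prod_eq_add_apply (v := (Abs.DD W y d, Abs.DD F y d)) hH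
  have h3 : Abs.DD (fun z => ex (W z) • F z) y d = Abs.DD (orb (F y)) (W y) (Abs.DD W y d) +
      Abs.DD (fun x : M => ex (W y) • x) (F y) (Abs.DD F y d) := h1.trans h2
  rw [h3, dd, DD_eq, orb]

theorem inj (g : C2ˣ) (p : M) : Function.Injective (Abs.DD (fun y : M => g • y) p) := fun a b hab => by
  have k := inj_of (F := fun y : M => g • y) (G := fun y : M => g⁻¹ • y) (md_act g p) (md_act _ _)
    (Eventually.of_forall fun y => inv_smul_smul g y)
  rw [← k a, hab, k b]

theorem ker [IsManifold IC 1 M] (p : M) (v : C2) :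
    AA p v = 0 ↔ ∀ s : ℂ, ex (s • v) • p = p := by
  let G : C2 →L[ℂ] C2 := (ContinuousLinearMap.proj (0 : Fin 2)).smulRight v
  have hG : ∀ y, G y = y 0 • v := fun y => rfl
  have key : ∀ y d, Abs.DD (fun z => orb p (G z)) y d = d 0 • AA (orb p (G y)) v := fun y d => by
    rw [DD_comp (md p _) (mdifferentiableAt_iff_differentiableAt.2 G.differentiableAt), DD_eq,
      G.fderiv, dd, hG d, map_smul]
  constructor
  · intro h s
    have := const (fun z => orb p (G z)) univ isOpen_univ isPreconnected_univ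
      (fun y _ => ⟨(md p _).comp y (mdifferentiableAt_iff_differentiableAt.2 G.differentiableAt), by
        ext1 d
        rw [key, orb, eqv, h]
        simp⟩) ![s, 0] (mem_univ _) 0 (mem_univ _)
    rw [map_zero, orb_zero] at this
    exact this
  · intro h
    have e : (fun z => orb p (G z)) = fun _ => p := funext fun z => h _
    have := key 0 ![1, 0]
    rw [e, DD_const, map_zero, orb_zero] at this
    simpa using this.symm

end C0P

variable {M : Type} [TopologicalSpace M] [T2Space M] [CompactSpace M] [ChartedSpace C2 M]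
  [IsManifold IC 1 M] [MulAction C2ˣ M] [ContMDiffSMul IC IC 1 C2ˣ M] [FaithfulSMul C2ˣ M]

theorem c0_ok : StC0 M :=
  ⟨C0P.md, C0P.dd, C0P.eqv, C0P.prod, C0P.const, C0P.ker, C0P.inj, C0P.ift, C0P.li⟩

end Pool.Agent.P.MP_2cea5e_gt.Se
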