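import Pool.Agent.P.MP_2cea5e_gt.Se.ClsSt

/-!
Package C0b.
-/

open scoped ContDiff ComplexOrder Manifold Matrix Topology ComplexConjugate
open Set Metric Filter MulAction

noncomputable section

namespace Pool.Agent.P.MP_2cea5e_gt.Se

open Abs

namespace C0bP

/-- The derivative of a map that is holomorphic near a point is continuous at the point. -/
theorem cont_fderiv {E : Type} [NormedAddCommGroup E] [NormedSpace ℂ E] [FiniteDimensional ℂ E]
    {f : E → C2} {z : E} (h : ∀ᶠ y in 𝓝 z, DifferentiableAt ℂ f y) :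
    ContinuousAt (fderiv ℂ f) z := by
  obtain ⟨W, hW, ho, hz⟩ := _root_.eventually_nhds_iff.1 h
  have h1 : ContDiffOn ℂ 1 f W :=
    CLS.S0.contDiffOn_of_diffOn ho fun y hy => (hW y hy).differentiableWithinAt
  exact (h1.continuousOn_fderiv_of_isOpen ho le_rfl).continuousAt (ho.mem_nhds hz)

variable {M : Type} [TopologicalSpace M] [ChartedSpace C2 M] [IsManifold IC 1 M]

theorem back {e : OpenPartialHomeomorph M C2} (he : e ∈ atlas C2 M) {y : M} (hy : y ∈ e.source)
    (X : C2) : Abs.DD e.symm (e y) (Abs.DD e y X) = X := by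
  rw [← DD_comp (mdifferentiableAt_atlas_symm he (e.map_source hy))
    (mdifferentiableAt_atlas he hy),
    DD_congr (F := fun w => e.symm (e w)) (G := id)
      (eventually_of_mem (e.open_source.mem_nhds hy) fun u hu => e.left_inv hu),
    DD_id]

theorem hh_chart (h : Met M) {e : OpenPartialHomeomorph M C2} (he : e ∈ atlas C2 M) {y : M}
    (hy : y ∈ e.source) (X Y : C2) :
    hh h y X Y = ∑ a, ∑ b, Abs.DD e y X a * pull h e.symm (e y) a b * star (Abs.DD e y Y b) := by
  rw [← hh_exp, back he hy, back he hy, e.left_inv hy]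

variable [MulAction C2ˣ M] [ContMDiffSMul IC IC 1 C2ˣ M]

omit [IsManifold IC 1 M] in
theorem md_ex {p : C2 × C2 → M} {q : C2 × C2} (hp : MDifferentiableAt 𝓘(ℂ, C2 × C2) IC p q) :
    MDifferentiableAt 𝓘(ℂ, C2 × C2) IC (fun r : C2 × C2 => ex r.2 • p r) q :=
  md_smul (f := fun r : C2 × C2 => ex r.2) ((diff_ex _).comp q differentiableAt_snd) hp

/-- The infinitesimal action read in a chart is continuous. -/
theorem cont_AA {e : OpenPartialHomeomorph M C2} (he : e ∈ atlas C2 M) {x : M}
    (hx : x ∈ e.source) (a : C2) : ContinuousAt (fun y => Abs.DD e y (AA y a)) x := by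
  set Φ : C2 × C2 → C2 := fun r => e (ex r.2 • e.symm r.1) with hΦ
  have key : ∀ r : C2 × C2, r.1 ∈ e.target → ex r.2 • e.symm r.1 ∈ e.source →
      DifferentiableAt ℂ Φ r := fun r h1 h2 =>
    md_chart (f := fun r : C2 × C2 => ex r.2 • e.symm r.1) he h2
      (md_ex (md_symm (f := fun r : C2 × C2 => r.1) he h1 differentiableAt_fst))
  have ht := e.map_source hx
  have h1 : ∀ᶠ r : C2 × C2 in 𝓝 (e x, 0), r.1 ∈ e.target :=
    continuousAt_fst.eventually_mem (e.open_target.mem_nhds ht)
  have h2 : ∀ᶠ r : C2 × C2 in 𝓝 (e x, 0), ex r.2 • e.symm r.1 ∈ e.source :=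
    (md_ex (q := (e x, 0)) (md_symm (f := fun r : C2 × C2 => r.1) he ht
      differentiableAt_fst)).continuousAt.eventually_mem (e.open_source.mem_nhds (by
        simp only [ex_zero, one_smul, e.left_inv hx, hx]))
  have hc := cont_fderiv ((h1.and h2).mono fun r hr => key r hr.1 hr.2)
  have h3 : ContinuousAt (fun y : M => fderiv ℂ Φ (e y, 0) (0, a)) x :=
    (ContinuousAt.comp (f := fun y : M => (e y, (0 : C2))) hc
      ((e.continuousAt hx).prodMk continuousAt_const)).clm_apply continuousAt_const
  refine h3.congr (eventually_of_mem (e.open_source.mem_nhds hx) fun y hy => ?_)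
  have h0 : orb y 0 = y := by simp only [orb, ex_zero, one_smul]
  have hd : DifferentiableAt ℂ Φ (e y, 0) := key _ (e.map_source hy) (by
    simp only [ex_zero, one_smul, e.left_inv hy, hy])
  have hm : MDifferentiableAt IC IC (orb y) 0 :=
    md_smul (f := ex) (p := fun _ => y) (diff_ex _) mdifferentiableAt_const
  have h4 := DD_comp (F := e) (G := orb y) (z := 0)
    (mdifferentiableAt_atlas he (by rw [h0]; exact hy)) hm a
  rw [h0, DD_eq] at h4
  have h5 : (fun w => e (orb y w)) = Φ ∘ fun w : C2 => (e y, w) := by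
    funext w
    simp only [hΦ, Function.comp, orb, e.left_inv hy]
  have h6 := (hd.hasFDerivAt.comp (0 : C2) (hasFDerivAt_prodMk_right (𝕜 := ℂ) (e y) (0 : C2))).fderiv
  simp only [AA]
  rw [← h4, h5, h6]
  rfl

omit [IsManifold IC 1 M] [ContMDiffSMul IC IC 1 C2ˣ M] in
theorem cont_pull {h : Met M} (hK : IsInvKaehler h) {e : OpenPartialHomeomorph M C2}
    (he : e ∈ atlas C2 M) {x : M} (hx : x ∈ e.source) (a b : Fin 2) :
    ContinuousAt (fun y => pull h e.symm (e y) a b) x :=
  ContinuousAt.comp (g := fun z => pull h e.symm z a b)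
    ((hK.smooth e he a b).continuousOn.continuousAt (e.open_target.mem_nhds (e.map_source hx)))
    (e.continuousAt hx)

theorem cont_sum {X : Type} [TopologicalSpace X] {x : X} {u v : X → C2}
    {G : X → Matrix (Fin 2) (Fin 2) ℂ} (hu : ContinuousAt u x) (hv : ContinuousAt v x)
    (hG : ∀ a b, ContinuousAt (fun y => G y a b) x) :
    ContinuousAt (fun y => ∑ a, ∑ b, u y a * G y a b * star (v y b)) x :=
  tendsto_finsetSum _ fun a _ => tendsto_finsetSum _ fun b _ =>
    ((((continuous_apply a).continuousAt.comp hu).mul (hG a b)).mul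
      ((continuous_apply b).continuousAt.comp hv).star)

end C0bP

open C0bP

variable {M : Type} [TopologicalSpace M] [T2Space M] [CompactSpace M] [ChartedSpace C2 M]
  [IsManifold IC 1 M] [MulAction C2ˣ M] [ContMDiffSMul IC IC 1 C2ˣ M] [FaithfulSMul C2ˣ M]

theorem c0b_ok (h0 : StC0 M) : StC0b M := by
  intro h hK
  refine ⟨fun x v hv => ?_, fun a b => continuous_iff_continuousAt.2 fun x => ?_,
    fun F w a d hF => ?_, fun F w hL => ?_⟩
  · set e := chartAt C2 x
    have he : e ∈ atlas C2 M := chart_mem_atlas _ _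
    have hx : x ∈ e.source := mem_chart_source _ _
    have hu : star (Abs.DD e x v) ≠ 0 := fun h1 => hv (by
      rw [← back he hx v, star_eq_zero.1 h1, map_zero])
    have h1 := (hK.pos e he _ (e.map_source hx)).dotProduct_mulVec_pos hu
    rw [hh_chart h he hx]
    convert (Complex.pos_iff.1 h1).1 using 2
    simp only [star_star, dotProduct, Matrix.mulVec, Fin.sum_univ_two, Pi.star_apply]
    ring
  · set e := chartAt C2 x
    have he : e ∈ atlas C2 M := chart_mem_atlas _ _
    have hx : x ∈ e.source := mem_chart_source _ _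
    exact (cont_sum (cont_AA he hx a) (cont_AA he hx b) (cont_pull hK he hx)).congr
      (eventually_of_mem (e.open_source.mem_nhds hx) fun y hy => (hh_chart h he hy _ _).symm)
  · set e := chartAt C2 (F w)
    have he : e ∈ atlas C2 M := chart_mem_atlas _ _
    have hx : F w ∈ e.source := mem_chart_source _ _
    have hc := hF.self_of_nhds.continuousAt
    have hs : ∀ᶠ y in 𝓝 w, F y ∈ e.source := hc.eventually_mem (e.open_source.mem_nhds hx)
    have h1 : ContinuousAt (fun y => fderiv ℂ (fun u => e (F u)) y d) w :=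
      (cont_fderiv ((hF.and hs).mono fun y hy => md_chart he hy.2 hy.1)).clm_apply
        continuousAt_const
    refine (cont_sum (G := fun y => pull h e.symm (e (F y)))
      (ContinuousAt.comp (f := F) (cont_AA he hx a) hc) h1
      fun j k => ContinuousAt.comp (f := F) (cont_pull hK he hx j k) hc).congr ?_
    filter_upwards [hF, hs] with y h2 h3
    rw [hh_chart h he h3, ← DD_comp (mdifferentiableAt_atlas he h3) h2, DD_eq]
    rfl
  · obtain ⟨G, h1, h2⟩ := hL
    set e := chartAt C2 (F w)
    have he : e ∈ atlas C2 M := chart_mem_atlas _ _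
    have hx : F w ∈ e.source := mem_chart_source _ _
    have hc := h1.self_of_nhds.1.continuousAt
    have hs : ∀ᶠ y in 𝓝 w, F y ∈ e.source := hc.eventually_mem (e.open_source.mem_nhds hx)
    obtain ⟨W, hW, ho, hw⟩ := _root_.eventually_nhds_iff.1 (h1.and hs)
    have hF : DifferentiableOn ℂ (fun y => e (F y)) W := fun y hy =>
      (md_chart he (hW y hy).2 (hW y hy).1.1).differentiableWithinAt
    have ht := e.map_source hx
    have hG : DifferentiableAt ℂ (fun y => G (e.symm y)) (e (F w)) :=
      mdifferentiableAt_iff_differentiableAt.1 (MDifferentiableAt.comp (e (F w))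
        (by rw [e.left_inv hx]; exact h2.self_of_nhds.1) (mdifferentiableAt_atlas_symm he ht))
    refine transfer tens_ok ho hF (g := pull h e.symm) (fun y hy => chg h ho
      (fun y hy => (e.left_inv (hW y hy).2).symm) hF
      (fun y hy => mdifferentiableAt_atlas_symm he (e.map_source (hW y hy).2)) hy) hw
      (JJ_det (F := fun y => G (e.symm y)) hG (hF.differentiableAt (ho.mem_nhds hw)) ?_)
      (fun j k => (hK.smooth e he j k).contDiffAt (e.open_target.mem_nhds ht)) (hK.pos e he _ ht)
      (hK.closed e he _ ht)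
    filter_upwards [ho.mem_nhds hw] with y hy
    rw [e.left_inv (hW y hy).2, (hW y hy).1.2, id]

end Pool.Agent.P.MP_2cea5e_gt.Se
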