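import Pool.Agent.P.MP_2cea5e_gt.Se.ClsSt

/-!
Package C0o.
-/

open scoped ContDiff ComplexOrder Manifold Matrix Topology ComplexConjugate
open Set Metric Filter MulAction

noncomputable section

namespace Pool.Agent.P.MP_2cea5e_gt.Se

open Abs

variable {M : Type} [TopologicalSpace M] [T2Space M] [CompactSpace M] [ChartedSpace C2 M]
  [IsManifold IC 1 M] [MulAction C2ˣ M] [ContMDiffSMul IC IC 1 C2ˣ M] [FaithfulSMul C2ˣ M]

namespace C0oP

omit [CompactSpace M] [IsManifold IC 1 M] in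
theorem free0 {x₀ : M} (hd : Dense (orbit C2ˣ x₀)) {g : C2ˣ} (h0 : g • x₀ = x₀) : g = 1 := by
  have : (fun y : M => g • y) = id := by
    refine Continuous.ext_on hd (cont_act g) continuous_id ?_
    rintro _ ⟨v, rfl⟩
    simp only [id]
    rw [smul_comm, h0]
  exact eq_of_smul_eq_smul (α := M) fun y => by rw [one_smul]; exact congrFun this y

omit [CompactSpace M] [IsManifold IC 1 M] in
theorem free1 {x₀ : M} (hd : Dense (orbit C2ˣ x₀)) {x : M} (hx : x ∈ orbit C2ˣ x₀) {g : C2ˣ}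
    (h : g • x = x) : g = 1 := by
  obtain ⟨u, rfl⟩ := hx
  refine free0 hd ?_
  have : u • g • x₀ = u • x₀ := by rw [smul_comm]; exact h
  exact smul_left_cancel u this

theorem zero_of_ex {v : C2} (h : ∀ s : ℂ, ex (s • v) = 1) : v = 0 := by
  funext j
  by_contra hv
  have hv' : v j ≠ 0 := hv
  have h1 := congrFun (congrArg (fun g : C2ˣ => (g : C2)) (h (1 / v j))) j
  simp only [ex_val, Pi.smul_apply, smul_eq_mul, Units.val_one, Pi.one_apply] at h1
  rw [one_div, inv_mul_cancel₀ hv'] at h1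
  have h2 := congrArg (fun z : ℂ => ‖z‖) h1
  simp only [Complex.norm_exp, Complex.one_re, norm_one] at h2
  exact one_ne_zero (Real.exp_eq_one_iff 1 |>.1 h2)

omit [TopologicalSpace M] [T2Space M] [CompactSpace M] [ChartedSpace C2 M] [IsManifold IC 1 M]
  [ContMDiffSMul IC IC 1 C2ˣ M] [FaithfulSMul C2ˣ M] in
theorem mem_iff (x₀ x : M) : x ∈ orbit C2ˣ x₀ ↔ ∃ w, orb x₀ w = x := by
  constructor
  · rintro ⟨g, rfl⟩
    exact ⟨fun j => Complex.log ((g : C2) j), by rw [orb, ex_log]⟩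
  · rintro ⟨w, rfl⟩
    exact ⟨ex w, rfl⟩

omit [CompactSpace M] [IsManifold IC 1 M] in
theorem inj_of_mem (h0 : StC0 M) {x₀ : M} (hd : Dense (orbit C2ˣ x₀)) {x : M}
    (hx : x ∈ orbit C2ˣ x₀) : Function.Injective (AA x) := by
  rw [injective_iff_map_eq_zero]
  intro v hv
  exact zero_of_ex fun s => free1 hd hx ((h0.ker x v).1 hv s)

omit [CompactSpace M] [IsManifold IC 1 M] in
theorem li_orb (h0 : StC0 M) {x₀ : M} (hd : Dense (orbit C2ˣ x₀)) (w : C2) : LI (orb x₀) w := by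
  refine h0.ift _ _ (Eventually.of_forall fun y => h0.md x₀ y) ?_
  rw [h0.dd]
  exact inj_of_mem h0 hd ⟨ex w, rfl⟩

omit [T2Space M] [CompactSpace M] [IsManifold IC 1 M] [ContMDiffSMul IC IC 1 C2ˣ M]
  [FaithfulSMul C2ˣ M] in
theorem mem_of_inj (h0 : StC0 M) {x₀ : M} (hd : Dense (orbit C2ˣ x₀)) {x : M}
    (hx : Function.Injective (AA x)) : x ∈ orbit C2ˣ x₀ := by
  have h1 : LI (orb x) 0 := h0.ift _ _ (Eventually.of_forall fun y => h0.md x y) hx
  have h2 := (h0.li _ _ h1).2.2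
  have h3 : orb x 0 = x := by rw [orb, ex_zero, one_smul]
  rw [h3] at h2
  have h4 : range (orb x) ∈ 𝓝 x := by rw [← h2]; exact range_mem_map
  obtain ⟨_, ⟨w, rfl⟩, u, hu⟩ := mem_closure_iff_nhds.1 (hd x) _ h4
  refine ⟨(ex w)⁻¹ * u, ?_⟩
  have hu' : u • x₀ = ex w • x := hu
  simp only [mul_smul, hu', inv_smul_smul]

omit [CompactSpace M] [IsManifold IC 1 M] in
theorem open_img (h0 : StC0 M) {x₀ : M} (hd : Dense (orbit C2ˣ x₀)) {U : Set C2} (hU : IsOpen U) :
    IsOpen (orb x₀ '' U) := by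
  rw [isOpen_iff_mem_nhds]
  rintro _ ⟨w, hw, rfl⟩
  rw [← (h0.li _ _ (li_orb h0 hd w)).2.2]
  exact image_mem_map (hU.mem_nhds hw)

omit [IsManifold IC 1 M] in
theorem not_all (h0 : StC0 M) {x₀ : M} (hd : Dense (orbit C2ˣ x₀)) : ∃ p : M, p ∉ orbit C2ˣ x₀ := by
  by_contra hc
  push Not at hc
  set U : ℕ → Set M := fun n => orb x₀ '' {w : C2 | (w 0).re < n} with hU
  have ho : ∀ n, IsOpen (U n) := fun n =>
    open_img h0 hd (isOpen_lt (by fun_prop) continuous_const)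
  have hcov : (univ : Set M) ⊆ ⋃ n, U n := by
    intro x _
    obtain ⟨w, rfl⟩ := (mem_iff x₀ x).1 (hc x)
    obtain ⟨n, hn⟩ := exists_nat_gt (w 0).re
    exact mem_iUnion.2 ⟨n, w, hn, rfl⟩
  have hdir : Directed (· ⊆ ·) U := by
    refine Monotone.directed_le fun a b hab => image_mono fun w hw => ?_
    have : (a : ℝ) ≤ b := by exact_mod_cast hab
    exact lt_of_lt_of_le hw this
  obtain ⟨n, hn⟩ := isCompact_univ.elim_directed_cover U ho hcov hdir
  obtain ⟨w, hw, he⟩ := hn (mem_univ (orb x₀ fun _ => (n : ℂ)))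
  have h1 : ((ex fun _ => (n : ℂ))⁻¹ * ex w) • x₀ = x₀ := by
    have he' : ex w • x₀ = (ex fun _ => (n : ℂ)) • x₀ := he
    rw [mul_smul, he', inv_smul_smul]
  have h2 : ex w = ex fun _ => (n : ℂ) := by
    have := free0 hd h1
    rw [inv_mul_eq_one] at this
    exact this.symm
  have h3 := congrArg (fun z : ℂ => ‖z‖) (congrFun (congrArg (fun g : C2ˣ => (g : C2)) h2) 0)
  simp only [ex_val, Complex.norm_exp, Complex.natCast_re, Real.exp_eq_exp] at h3
  have hw' : (w 0).re < n := hw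
  exact hw'.ne h3

end C0oP

open C0oP in
theorem c0o_ok (h0 : StC0 M) : StC0o M := by
  intro x₀ hd
  refine ⟨fun g hg => free0 hd hg, fun x => ⟨inj_of_mem h0 hd, mem_of_inj h0 hd⟩, ?_,
    li_orb h0 hd, mem_iff x₀, not_all h0 hd, fun hN p hp => ⟨?_, ?_⟩⟩
  · have : orbit C2ˣ x₀ = orb x₀ '' univ := by
      ext x
      rw [mem_iff, image_univ, mem_range]
    rw [this]
    exact open_img h0 hd isOpen_univ
  · by_contra hc
    push Not at hc
    refine hp (mem_of_inj h0 hd ?_)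
    rw [injective_iff_map_eq_zero]
    intro v hv
    by_contra h
    exact hc v h hv
  · by_contra hc
    push Not at hc
    obtain ⟨θ, -, hθ⟩ := hN p
    apply hθ
    have := (h0.ker p _).1 (hc fun j => Complex.log ((θ : C2) j)) 1
    rwa [one_smul, ex_log] at this

end Pool.Agent.P.MP_2cea5e_gt.Se
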