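import Pool.Agent.P.MP_2cea5e_gt.Se.ClsSt

/-!
Package C2: the flow box at a point outside the open orbit.
-/

open scoped ContDiff ComplexOrder Manifold Matrix Topology ComplexConjugate
open Set Metric Filter MulAction

noncomputable section

namespace Pool.Agent.P.MP_2cea5e_gt.Se

open Abs

variable {M : Type} [TopologicalSpace M] [T2Space M] [CompactSpace M] [ChartedSpace C2 M]
  [IsManifold IC 1 M] [MulAction C2ˣ M] [ContMDiffSMul IC IC 1 C2ˣ M] [FaithfulSMul C2ˣ M]

set_option linter.unusedSectionVars false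

namespace C2P

/-- The transversal. -/
def eta (p : M) (β : C2) (t : ℂ) : M := (chartAt C2 p).symm (chartAt C2 p p + t • β)

/-- The transversal moved in the direction `u`. -/
def Tb (p : M) (β u : C2) (y : C2) : M := ex (y 0 • u) • eta p β (y 1)

/-- The parameter lies in the chart. -/
def Ok (p : M) (β : C2) (t : ℂ) : Prop := chartAt C2 p p + t • β ∈ (chartAt C2 p).target

theorem eta0 (p : M) (β : C2) : eta p β 0 = p := by
  simp [eta]

theorem Tb0 (p : M) (β u : C2) (t : ℂ) : Tb p β u ![0, t] = eta p β t := by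
  simp [Tb, ex_zero]

theorem Tb00 (p : M) (β u : C2) : Tb p β u 0 = p := by
  simp [Tb, ex_zero, eta0]

theorem ev_ok (p : M) (β : C2) : ∀ᶠ t in 𝓝 (0 : ℂ), Ok p β t := by
  have hc : ContinuousAt (fun t : ℂ => chartAt C2 p p + t • β) 0 := by fun_prop
  refine hc.eventually_mem ?_
  simp only [zero_smul, add_zero]
  exact chart_target_mem_nhds C2 p

theorem md_eta {p : M} {β y : C2} (h : Ok p β (y 1)) :
    MDifferentiableAt IC IC (fun z : C2 => eta p β (z 1)) y :=
  md_symm (f := fun z : C2 => chartAt C2 p p + z 1 • β) (chart_mem_atlas _ _) h (by fun_prop)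

theorem md_Tb {p : M} {β y : C2} (u : C2) (h : Ok p β (y 1)) :
    MDifferentiableAt IC IC (Tb p β u) y :=
  md_smul (f := fun z : C2 => ex (z 0 • u)) ((diff_ex _).comp y (by fun_prop)) (md_eta h)

theorem fd_smul (i : Fin 2) (c u y d : C2) :
    fderiv ℂ (fun z : C2 => c + z i • u) y d = d i • u := by
  have h : HasFDerivAt (fun z : C2 => c + z i • u)
      ((ContinuousLinearMap.proj (R := ℂ) (φ := fun _ : Fin 2 => ℂ) i).smulRight u) y :=
    ((ContinuousLinearMap.proj (R := ℂ) (φ := fun _ : Fin 2 => ℂ) i).smulRight u).hasFDerivAt.const_add c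
  rw [h.fderiv]
  rfl

theorem DD_Tb (h0 : StC0 M) {p : M} {β y : C2} (u d : C2) (h : Ok p β (y 1)) :
    Abs.DD (Tb p β u) y d = d 0 • AA (Tb p β u y) u +
      d 1 • Abs.DD (fun x : M => ex (y 0 • u) • x) (eta p β (y 1))
        (Abs.DD (chartAt C2 p).symm (chartAt C2 p p + y 1 • β) β) := by
  have h1 := h0.prod (fun z : C2 => z 0 • u) (fun z : C2 => eta p β (z 1)) y d (by fun_prop)
    (md_eta h)
  have h2 : fderiv ℂ (fun z : C2 => z 0 • u) y d = d 0 • u := by
    simpa using fd_smul 0 0 u y d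
  have h3 : Abs.DD (fun z : C2 => eta p β (z 1)) y d =
      d 1 • Abs.DD (chartAt C2 p).symm (chartAt C2 p p + y 1 • β) β := by
    have := Abs.DD_comp (F := (chartAt C2 p).symm) (G := fun z : C2 => chartAt C2 p p + z 1 • β)
      (z := y) (mdifferentiableAt_atlas_symm (chart_mem_atlas _ _) h)
      (mdifferentiableAt_iff_differentiableAt.2 (by fun_prop)) d
    rw [Abs.DD_eq, fd_smul, map_smul] at this
    exact this
  rw [h2, h3, map_smul, map_smul] at h1
  exact h1

theorem DD_Tb1 (h0 : StC0 M) {p : M} {β y : C2} (u : C2) (h : Ok p β (y 1)) :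
    AA (Tb p β u y) u = Abs.DD (Tb p β u) y ![1, 0] := by
  rw [DD_Tb h0 u _ h]
  simp

theorem li_symm (p : M) : LI (chartAt C2 p).symm (chartAt C2 p p) := by
  refine ⟨chartAt C2 p, ?_, ?_⟩
  · filter_upwards [chart_target_mem_nhds C2 p] with y hy
    exact ⟨mdifferentiableAt_atlas_symm (chart_mem_atlas _ _) hy, (chartAt C2 p).right_inv hy⟩
  · rw [(chartAt C2 p).left_inv (mem_chart_source _ _)]
    filter_upwards [chart_source_mem_nhds C2 p] with x hx
    exact ⟨mdifferentiableAt_atlas (chart_mem_atlas _ _) hx, (chartAt C2 p).left_inv hx⟩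

theorem exists_ind {a : C2} (ha : a ≠ 0) :
    ∃ w : C2, ∀ s t : ℂ, s • a + t • w = 0 → s = 0 ∧ t = 0 := by
  by_cases h : a 0 = 0
  · have h1 : a 1 ≠ 0 := fun h1 => ha (by funext j; fin_cases j <;> simp [h, h1])
    refine ⟨![1, 0], fun s t e => ?_⟩
    have e0 := congrFun e 0
    have e1 := congrFun e 1
    simp [h, h1] at e0 e1
    exact ⟨e1, e0⟩
  · refine ⟨![0, 1], fun s t e => ?_⟩
    have e0 := congrFun e 0
    have e1 := congrFun e 1
    simp [h] at e0
    simp [e0] at e1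
    exact ⟨e0, e1⟩

theorem tend1 : Tendsto (fun y : C2 => y 1) (𝓝 0) (𝓝 0) :=
  (continuous_apply 1).tendsto' (0 : C2) 0 rfl

theorem tend0 : Tendsto (fun t : ℂ => (![0, t] : C2)) (𝓝 0) (𝓝 0) := by
  have : Continuous fun t : ℂ => (![0, t] : C2) := by fun_prop
  refine this.tendsto' 0 0 ?_
  funext j; fin_cases j <;> rfl

theorem exists_li (h0 : StC0 M) {p : M} {u : C2} (hu : AA p u ≠ 0) :
    ∃ β, LI (Tb p β u) 0 := by
  obtain ⟨w, hw⟩ := exists_ind hu
  obtain ⟨β, hβ⟩ := (h0.li _ _ (li_symm p)).2.1.2 w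
  refine ⟨β, h0.ift _ _ ((tend1.eventually (ev_ok p β)).mono fun y hy => md_Tb u hy) ?_⟩
  refine (injective_iff_map_eq_zero _).2 fun d hd => ?_
  rw [DD_Tb h0 u d (ev_ok p β).self_of_nhds, Tb00] at hd
  have e : (fun x : M => ex ((0 : C2) 0 • u) • x) = id := by
    funext x; simp [ex_zero]
  simp only [Pi.zero_apply, zero_smul, add_zero] at hd e
  rw [e, hβ, Abs.DD_id] at hd
  obtain ⟨e0, e1⟩ := hw _ _ hd
  funext j; fin_cases j
  · exact e0
  · exact e1

/-- The components of the vector field of `v` in the box. -/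
theorem exists_c (h0 : StC0 M) {p : M} {u v β : C2} (hv : AA p v = 0) (hl : LI (Tb p β u) 0) :
    ∃ c : ℂ → C2, AnalyticAt ℂ c 0 ∧ c 0 = 0 ∧
      ∀ᶠ t in 𝓝 (0 : ℂ), AA (eta p β t) v = Abs.DD (Tb p β u) ![0, t] (c t) := by
  obtain ⟨G, g1, g2⟩ := hl
  rw [Tb00] at g2
  have hok : ∀ᶠ y : C2 in 𝓝 0, Ok p β (y 1) := tend1.eventually (ev_ok p β)
  have ct : Tendsto (Tb p β v) (𝓝 0) (𝓝 p) := by
    have := (md_Tb v hok.self_of_nhds).continuousAt.tendsto
    rwa [Tb00] at this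
  have hH : ∀ᶠ y : C2 in 𝓝 0, DifferentiableAt ℂ (fun z => G (Tb p β v z)) y := by
    filter_upwards [hok, ct.eventually g2] with y h1 h2
    exact mdifferentiableAt_iff_differentiableAt.1 (h2.1.comp y (md_Tb v h1))
  obtain ⟨W, hW, Wo, W0⟩ := _root_.eventually_nhds_iff.1 hH
  have an : AnalyticAt ℂ (fun z => G (Tb p β v z)) 0 :=
    CLS.S0.analyticOnNhd_of_diffOn Wo (fun y hy => (hW y hy).differentiableWithinAt) 0 W0
  have key : ∀ᶠ t in 𝓝 (0 : ℂ), fderiv ℂ (fun z => G (Tb p β v z)) ![0, t] ![1, 0] =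
      Abs.DD G (eta p β t) (AA (eta p β t) v) := by
    filter_upwards [tend0.eventually hok, tend0.eventually (ct.eventually g2)] with t h1 h2
    rw [← Abs.DD_eq, Abs.DD_comp h2.1 (md_Tb v h1), ← DD_Tb1 h0 v h1, Tb0]
  refine ⟨fun t => fderiv ℂ (fun z => G (Tb p β v z)) ![0, t] ![1, 0], ?_, ?_, ?_⟩
  · have l : AnalyticAt ℂ (fun t : ℂ => (![0, t] : C2)) 0 := by
      refine analyticAt_pi_iff.2 fun j => ?_
      fin_cases j
      · exact analyticAt_const
      · exact analyticAt_id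
    have z : (fun t : ℂ => (![0, t] : C2)) 0 = 0 := by
      funext j; fin_cases j <;> rfl
    exact ((ContinuousLinearMap.apply ℂ C2 (![1, 0] : C2)).analyticAt _).comp
      (an.fderiv.comp_of_eq l z)
  · simp only []
    rw [key.self_of_nhds, eta0, hv, map_zero]
  · have ce : Tendsto (eta p β) (𝓝 0) (𝓝 p) := by
      have := ct.comp tend0
      refine this.congr fun t => ?_
      simp only [Function.comp, Tb0]
    filter_upwards [key, tend0.eventually g1, ce.eventually g2.eventually_nhds] with t k1 k2 k3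
    have e : G (eta p β t) = ![0, t] := by rw [← Tb0 p β u t]; exact k2.2
    have := Abs.DD_comp (F := Tb p β u) (G := G) (z := eta p β t) (e ▸ k2.1) k3.self_of_nhds.1
      (AA (eta p β t) v)
    rw [Abs.DD_congr (G := id) (k3.mono fun x hx => hx.2), Abs.DD_id, e] at this
    rw [k1]
    exact this

end C2P

open C2P in
theorem c2_ok (h0 : StC0 M) (ho : StC0o M) : StC2 M := by
  intro x₀ p u v hd hp hv0 hv hu
  obtain ⟨-, hinj, -⟩ := ho x₀ hd
  obtain ⟨β, hl⟩ := exists_li h0 hu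
  obtain ⟨c, ca, c0, hc⟩ := exists_c h0 hv hl
  obtain ⟨l1, -, l3⟩ := h0.li _ _ hl
  have horb : ∀ y : C2, Tb p β u y ∈ orbit C2ˣ x₀ ↔ eta p β (y 1) ∈ orbit C2ˣ x₀ := fun y => by
    constructor
    · rintro ⟨g, hg⟩
      refine ⟨(ex (y 0 • u))⁻¹ * g, ?_⟩
      simp only [mul_smul] at hg ⊢
      rw [hg, Tb, inv_smul_smul]
    · rintro ⟨g, hg⟩
      refine ⟨ex (y 0 • u) * g, ?_⟩
      simp only [mul_smul] at hg ⊢
      rw [hg, Tb]
  have hau : ∀ t, Ok p β t → AA (eta p β t) u = Abs.DD (Tb p β u) ![0, t] ![1, 0] := fun t ht => by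
    rw [← DD_Tb1 h0 (y := ![0, t]) u ht, Tb0]
  have cb : AnalyticAt ℂ (fun t => c t 1) 0 := analyticAt_pi_iff.1 ca 1
  have hb : ∀ᶠ t in 𝓝[≠] (0 : ℂ), c t 1 ≠ 0 := by
    refine cb.eventually_eq_zero_or_eventually_ne_zero.resolve_left fun hz => ?_
    have h1 : ∀ᶠ t in 𝓝 (0 : ℂ), eta p β t ∉ orbit C2ˣ x₀ := by
      filter_upwards [hz, hc, ev_ok p β] with t t1 t2 t3 hm
      have e : c t = c t 0 • (![1, 0] : C2) := by
        funext j; fin_cases j <;> simp [t1]
      rw [e, map_smul, ← hau t t3, ← map_smul] at t2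
      have e2 := (hinj _).1 hm t2
      rw [e2, map_smul, smul_eq_zero] at hv
      rcases hv with hv | hv
      · exact hv0 (by rw [e2, hv, zero_smul])
      · exact hu hv
    have h2 : ∀ᶠ x in 𝓝 p, x ∉ orbit C2ˣ x₀ := by
      rw [Tb00] at l3
      rw [← l3, eventually_map]
      exact (tend1.eventually h1).mono fun y hy hm => hy ((horb y).1 hm)
    obtain ⟨x, hx, hx'⟩ := mem_closure_iff_nhds.1 (hd p) _ h2
    exact hx hx'
  have hall := ((((ev_ok p β).and hc).and ca.eventually_analyticAt).and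
    (tend0.eventually l1)).and (eventually_nhdsWithin_iff.1 hb)
  obtain ⟨r, hr, hR⟩ := Metric.eventually_nhds_iff.1 hall
  simp only [dist_zero_right] at hR
  have ec : ∀ t, (![c t 0, c t 1] : C2) = c t := fun t => by
    funext j; fin_cases j <;> rfl
  refine ⟨⟨Tb p β u, r, fun t => c t 0, fun t => c t 1, hr, Tb00 p β u, fun s t => ?_,
    fun y hy => md_Tb u (hR hy).1.1.1.1, hl, fun t ht => ?_, fun t ht => ?_, by simp [c0],
    by simp [c0], fun t ht hr => (hR hr).2 ht, fun t ht => ?_,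
    fun y hy => DD_Tb1 h0 u (hR hy).1.1.1.1, fun y hy hr => ?_⟩⟩
  · rw [Tb0]; rfl
  · exact (analyticAt_pi_iff.1 (hR (mem_ball_zero_iff.1 ht)).1.1.2 0).differentiableAt.differentiableWithinAt
  · exact (analyticAt_pi_iff.1 (hR (mem_ball_zero_iff.1 ht)).1.1.2 1).differentiableAt.differentiableWithinAt
  · rw [Tb0, ec]; exact (hR ht).1.1.1.2
  · obtain ⟨⟨⟨⟨k1, k2⟩, -⟩, k3⟩, k4⟩ := hR hr
    have k5 : c (y 1) 1 ≠ 0 := k4 hy
    refine (horb y).2 ((hinj _).2 ?_)
    refine (LinearMap.injective_iff_surjective (f := (AA (eta p β (y 1))).toLinearMap)).2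
      fun x => ?_
    obtain ⟨d, rfl⟩ := (h0.li _ _ k3).2.1.2 x
    refine ⟨(d 0 - d 1 / c (y 1) 1 * c (y 1) 0) • u + (d 1 / c (y 1) 1) • v, ?_⟩
    simp only [ContinuousLinearMap.coe_coe, map_add, map_smul]
    rw [hau _ k1, k2, ← map_smul, ← map_smul, ← map_add]
    congr 1
    funext j; fin_cases j
    · simp
    · simp [k5]

end Pool.Agent.P.MP_2cea5e_gt.Se
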