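import Pool.Agent.P.MP_2cea5e_gt.Se.ClsSt

/-!
Package C3.
-/

open scoped ContDiff ComplexOrder Manifold Matrix Topology ComplexConjugate
open Set Metric Filter MulAction

noncomputable section

namespace Pool.Agent.P.MP_2cea5e_gt.Se

open Abs

namespace C3P

/-- The real part as a real linear map. -/
def reL : C2 →L[ℝ] (Fin 2 → ℝ) :=
  ContinuousLinearMap.pi fun j => Complex.reCLM.comp (ContinuousLinearMap.proj j)

theorem reL_apply (w : C2) : reL w = reV w := rfl

theorem reV_of_ex {w w' : C2} (h : ex w = ex w') : reV w = reV w' := by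
  funext j
  have := congrArg (fun g : C2ˣ => ‖(g : C2) j‖) h
  simp only [ex_val, Complex.norm_exp] at this
  exact Real.exp_injective this

theorem bdd_conv {Φ : C2 → ℝ} {S : Set C2} {ρ C : ℝ} (hS : Convex ℝ S) (hC : 0 ≤ C)
    (hb : S ⊆ ball 0 ρ) (hd : ∀ y ∈ S, DifferentiableAt ℝ Φ y ∧ ‖fderiv ℝ Φ y‖ ≤ C) :
    ∃ B : ℝ, ∀ y ∈ S, |Φ y| ≤ B := by
  rcases S.eq_empty_or_nonempty with rfl | ⟨y₀, h₀⟩
  · exact ⟨0, fun y hy => hy.elim⟩
  refine ⟨|Φ y₀| + C * (ρ + ρ), fun y hy => ?_⟩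
  have h1 := hS.norm_image_sub_le_of_norm_fderiv_le (fun y hy => (hd y hy).1)
    (fun y hy => (hd y hy).2) h₀ hy
  have h2 : ‖y - y₀‖ ≤ ρ + ρ := (norm_sub_le _ _).trans
    (add_le_add (mem_ball_zero_iff.1 (hb hy)).le (mem_ball_zero_iff.1 (hb h₀)).le)
  have h3 := mul_le_mul_of_nonneg_left h2 hC
  rw [Real.norm_eq_abs] at h1
  have h4 := abs_sub_abs_le_abs_sub (Φ y) (Φ y₀)
  linarith

theorem conv_half (c : ℂ) (ρ : ℝ) : Convex ℝ (ball (0 : C2) ρ ∩ {y | 0 < (c * y 1).re}) := by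
  refine (convex_ball _ _).inter (convex_halfSpace_gt (f := fun y : C2 => (c * y 1).re) ⟨?_, ?_⟩ 0)
  · intro x y
    simp [mul_add]
  · intro a x
    simp
    ring

theorem bdd_punct {Φ : C2 → ℝ} {ρ C : ℝ} (hC : 0 ≤ C)
    (hd : ∀ y ∈ ball (0 : C2) ρ, y 1 ≠ 0 → DifferentiableAt ℝ Φ y ∧ ‖fderiv ℝ Φ y‖ ≤ C) :
    ∃ B : ℝ, ∀ y ∈ ball (0 : C2) ρ, y 1 ≠ 0 → |Φ y| ≤ B := by
  have key : ∀ c : ℂ, ∃ B : ℝ, ∀ y ∈ ball (0 : C2) ρ ∩ {y | 0 < (c * y 1).re}, |Φ y| ≤ B :=
    fun c => bdd_conv (conv_half c ρ) hC inter_subset_left fun y hy => hd y hy.1 fun h => by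
      have := hy.2
      simp [h] at this
  obtain ⟨B1, h1⟩ := key 1
  obtain ⟨B2, h2⟩ := key (-1)
  obtain ⟨B3, h3⟩ := key Complex.I
  obtain ⟨B4, h4⟩ := key (-Complex.I)
  refine ⟨max (max B1 B2) (max B3 B4), fun y hy h => ?_⟩
  rcases lt_trichotomy (y 1).re 0 with a | a | a
  · exact (h2 y ⟨hy, by simpa using a⟩).trans ((le_max_right _ _).trans (le_max_left _ _))
  · rcases lt_trichotomy (y 1).im 0 with b | b | b
    · exact (h3 y ⟨hy, by simpa using b⟩).trans ((le_max_left _ _).trans (le_max_right _ _))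
    · exact absurd (Complex.ext a b) h
    · exact (h4 y ⟨hy, by simpa using b⟩).trans ((le_max_right _ _).trans (le_max_right _ _))
  · exact (h1 y ⟨hy, by simpa using a⟩).trans ((le_max_left _ _).trans (le_max_left _ _))

/-- The irrational direction. -/
def xi : Fin 2 → ℝ := ![1, Real.sqrt 2]

theorem smul_xi (s : ℂ) : s • cx xi = ![s, s * Real.sqrt 2] := by
  funext j; fin_cases j <;> simp [cx, xi]

variable {M : Type} [TopologicalSpace M] [T2Space M] [ChartedSpace C2 M]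
  [MulAction C2ˣ M] [ContMDiffSMul IC IC 1 C2ˣ M]

theorem fix_all {q : M} (h : ∀ s : ℂ, ex (s • cx xi) • q = q) (θ : C2ˣ) (hθ : IT θ) :
    θ • q = q := by
  let e2 : ℝ → C2 := fun β => ![0, β * Complex.I]
  have e2add : ∀ a b, e2 (a + b) = e2 a + e2 b := fun a b => by
    funext j; fin_cases j <;> simp [e2, add_mul]
  have e2neg : ∀ a, e2 (-a) = -e2 a := fun a => by
    funext j; fin_cases j <;> simp [e2]
  have e20 : e2 0 = 0 := by funext j; fin_cases j <;> simp [e2]
  let H : AddSubgroup ℝ :=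
    { carrier := {β | ex (e2 β) • q = q}
      add_mem' := fun {a b} ha hb => by
        simp only [mem_ofPred_eq] at ha hb ⊢
        rw [e2add, ex_add, mul_smul, hb, ha]
      zero_mem' := by simp only [mem_ofPred_eq]; rw [e20, ex_zero, one_smul]
      neg_mem' := fun {a} ha => by
        simp only [mem_ofPred_eq] at ha ⊢
        rw [e2neg, ex_neg, inv_smul_eq_iff, ha] }
  have hcl : IsClosed (H : Set ℝ) := by
    have c1 : Continuous e2 := continuous_pi fun j => by
      fin_cases j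
      · exact continuous_const
      · show Continuous fun β : ℝ => (β : ℂ) * Complex.I
        fun_prop
    have c2 : Continuous fun β => ex (e2 β) :=
      Units.isOpenEmbedding_val.isInducing.continuous_iff.2 (diff_ex.continuous.comp c1)
    exact isClosed_eq (cont_smul.comp (c2.prodMk continuous_const)) continuous_const
  have m1 : 2 * Real.pi ∈ H := by
    show ex (e2 _) • q = q
    have : ex (e2 (2 * Real.pi)) = 1 := by
      ext j
      fin_cases j
      · simp [e2]
      · simp [e2, Complex.exp_two_pi_mul_I]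
    rw [this, one_smul]
  have m2 : 2 * Real.pi * Real.sqrt 2 ∈ H := by
    show ex (e2 _) • q = q
    have : ex (e2 (2 * Real.pi * Real.sqrt 2)) = ex ((2 * Real.pi * Complex.I : ℂ) • cx xi) := by
      rw [smul_xi]
      ext j
      fin_cases j
      · simp [e2, Complex.exp_two_pi_mul_I]
      · simp only [ex_val]
        congr 1
        simp [e2]
        ring
    rw [this, h]
  have hd : Dense (AddSubgroup.closure {2 * Real.pi * Real.sqrt 2, 2 * Real.pi} : Set ℝ) := by
    rw [dense_addSubgroupClosure_pair_iff, mul_div_cancel_left₀ _ (by positivity)]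
    exact irrational_sqrt_two
  have hle : AddSubgroup.closure {2 * Real.pi * Real.sqrt 2, 2 * Real.pi} ≤ H := by
    rw [AddSubgroup.closure_le]
    rintro _ (rfl | rfl)
    exacts [m2, m1]
  have hall : ∀ β : ℝ, ex (e2 β) • q = q := fun β =>
    hcl.closure_subset_iff.2 hle (hd β)
  set a := Complex.arg ((θ : C2) 0)
  set b := Complex.arg ((θ : C2) 1)
  have ha : Complex.exp (a * Complex.I) = (θ : C2) 0 := by
    have := Complex.norm_mul_exp_arg_mul_I ((θ : C2) 0)
    rwa [hθ 0, Complex.ofReal_one, one_mul] at this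
  have hb : Complex.exp (b * Complex.I) = (θ : C2) 1 := by
    have := Complex.norm_mul_exp_arg_mul_I ((θ : C2) 1)
    rwa [hθ 1, Complex.ofReal_one, one_mul] at this
  have e : θ = ex ((a * Complex.I : ℂ) • cx xi + e2 (b - a * Real.sqrt 2)) := by
    rw [smul_xi]
    ext j
    fin_cases j
    · simp [e2, ha]
    · simp only [ex_val]
      refine hb.symm.trans ?_
      congr 1
      simp [e2]
      ring
  rw [e, ex_add, mul_smul, hall, h]

omit [TopologicalSpace M] [T2Space M] [ChartedSpace C2 M] [ContMDiffSMul IC IC 1 C2ˣ M] in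
theorem reV_eq {x₀ : M} (hf : ∀ g : C2ˣ, g • x₀ = x₀ → g = 1) {w w' : C2}
    (h : orb x₀ w = orb x₀ w') : reV w = reV w' := by
  refine reV_of_ex ?_
  have : ((ex w')⁻¹ * ex w) • x₀ = x₀ := by
    rw [mul_smul, inv_smul_eq_iff]; exact h
  exact (inv_mul_eq_one.1 (hf _ this)).symm

omit [T2Space M] [ContMDiffSMul IC IC 1 C2ˣ M] in
theorem deriv_lift (h0 : StC0 M) {h : Met M} {x₀ : M} {f : (Fin 2 → ℝ) → ℝ} {a : C2}
    (hfd : Differentiable ℝ f)
    (hf : ∀ w d : C2, (hh h (orb x₀ w) (AA (orb x₀ w) a) (AA (orb x₀ w) d)).re =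
      fderiv ℝ f (reV w) (reV d))
    {F : M → ℝ} (hF : ∀ w, F (orb x₀ w) = f (reV w)) {Th : C2 → M} {y w : C2}
    (hli : LI (orb x₀) w) (hw : orb x₀ w = Th y) (hT : MDifferentiableAt IC IC Th y) :
    DifferentiableAt ℝ (fun z => F (Th z)) y ∧ ∀ d, fderiv ℝ (fun z => F (Th z)) y d =
      (hh h (Th y) (AA (Th y) a) (Abs.DD Th y d)).re := by
  obtain ⟨G, -, hG⟩ := hli
  rw [hw] at hG
  have hG' : ∀ᶠ z in 𝓝 y, orb x₀ (G (Th z)) = Th z := (hT.continuousAt.eventually hG).mono
    fun z hz => hz.2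
  have hW' : MDifferentiableAt IC IC (fun z => G (Th z)) y := hG.self_of_nhds.1.comp y hT
  have hW : DifferentiableAt ℂ (fun z => G (Th z)) y :=
    mdifferentiableAt_iff_differentiableAt.1 hW'
  have e1 : (fun z => F (Th z)) =ᶠ[𝓝 y] fun z => f (reL (G (Th z))) :=
    hG'.mono fun z hz => by simp only [reL_apply]; rw [← hF, hz]
  have d1 : HasFDerivAt (fun z => f (reL (G (Th z)))) ((fderiv ℝ f (reL (G (Th y)))).comp
      (reL.comp ((fderiv ℂ (fun z => G (Th z)) y).restrictScalars ℝ))) y :=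
    (hfd _).hasFDerivAt.comp y (reL.hasFDerivAt.comp y (hW.hasFDerivAt.restrictScalars ℝ))
  have d2 := d1.congr_of_eventuallyEq e1
  refine ⟨d2.differentiableAt, fun d => ?_⟩
  rw [d2.fderiv]
  simp only [ContinuousLinearMap.comp_apply, ContinuousLinearMap.coe_restrictScalars', reL_apply]
  have e2 : Abs.DD Th y d = AA (Th y) (fderiv ℂ (fun z => G (Th z)) y d) := by
    rw [← DD_congr (F := fun z => orb x₀ (G (Th z))) hG', DD_comp (h0.md _ _) hW', h0.dd,
      hG'.self_of_nhds, DD_eq]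
  rw [← hf, hG'.self_of_nhds, e2]

end C3P

open C3P

variable {M : Type} [TopologicalSpace M] [T2Space M] [CompactSpace M] [ChartedSpace C2 M]
  [IsManifold IC 1 M] [MulAction C2ˣ M] [ContMDiffSMul IC IC 1 C2ˣ M] [FaithfulSMul C2ˣ M]

theorem c3_ok (h0 : StC0 M) (ho : StC0o M) (hb : StC0b M) (h2 : StC2 M) : StC3 M := by
  classical
  intro h x₀ hk hd hn hL
  obtain ⟨f, hfd, hf0⟩ := hL xi
  have hf : ∀ w d : C2, (hh h (orb x₀ w) (AA (orb x₀ w) (cx xi)) (AA (orb x₀ w) d)).re =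
      fderiv ℝ f (reV w) (reV d) := fun w d => by rw [hf0, zero_mul, add_zero]
  obtain ⟨o1, -, -, o4, o5, -, o7⟩ := ho x₀ hd
  obtain ⟨b1, b2, b3, -⟩ := hb h hk
  let F : M → ℝ := fun x => if hx : ∃ w, orb x₀ w = x then f (reV hx.choose) else 0
  have hF : ∀ w, F (orb x₀ w) = f (reV w) := fun w => by
    have hx : ∃ w', orb x₀ w' = orb x₀ w := ⟨w, rfl⟩
    simp only [F, dif_pos hx]
    rw [reV_eq o1 hx.choose_spec]
  have hF0 : ∀ x, x ∉ orbit C2ˣ x₀ → F x = 0 := fun x hx => by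
    simp only [F, dif_neg (fun hc => hx ((o5 x).2 hc))]
  have loc : ∀ p : M, ∃ B : ℝ, ∀ᶠ x in 𝓝 p, |F x| ≤ B := fun p => by
    by_cases hp : p ∈ orbit C2ˣ x₀
    · obtain ⟨w, rfl⟩ := (o5 p).1 hp
      refine ⟨|f (reV w)| + 1, ?_⟩
      rw [← (h0.li _ _ (o4 w)).2.2, eventually_map]
      have c : Continuous fun z : C2 => |f (reL z)| := (hfd.continuous.comp reL.continuous).abs
      filter_upwards [c.continuousAt.eventually_lt continuousAt_const
        (lt_add_one |f (reL w)|)] with z hz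
      rw [hF]
      exact hz.le
    · obtain ⟨⟨v, v0, hv⟩, u, hu⟩ := o7 hn p hp
      obtain ⟨B⟩ := h2 x₀ p u v hd hp v0 hv hu
      have hr : ∀ᶠ y : C2 in 𝓝 0, ‖y 1‖ < B.r :=
        ((continuous_apply 1).norm.continuousAt (x := (0 : C2))).eventually_lt continuousAt_const
          (by simpa using B.pos)
      have hm := hr.mono B.md
      set K : C2 → C2 → ℂ := fun d y => hh h (B.Th y) (AA (B.Th y) (cx xi)) (Abs.DD B.Th y d)
      have k : ∀ d, ∀ᶠ y in 𝓝 0, ‖K d y‖ < ‖K d 0‖ + 1 := fun d =>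
        (b3 B.Th 0 (cx xi) d hm).norm.eventually_lt continuousAt_const (lt_add_one _)
      obtain ⟨ρ, ρ0, hρ⟩ := Metric.eventually_nhds_iff_ball.1
        (hr.and ((k (Pi.single 0 1)).and (k (Pi.single 1 1))))
      obtain ⟨C, hC⟩ := bdd_punct (Φ := fun z => F (B.Th z)) (ρ := ρ)
        (C := ‖K (Pi.single 0 1) 0‖ + 1 + (‖K (Pi.single 1 1) 0‖ + 1)) (by positivity)
        fun y hy y1 => by
          obtain ⟨r1, r2, r3⟩ := hρ y hy
          obtain ⟨w, hw⟩ := (o5 _).1 (B.mem y y1 r1)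
          obtain ⟨d1, d2⟩ := deriv_lift h0 hfd hf hF (o4 w) hw (B.md y r1)
          refine ⟨d1, ContinuousLinearMap.opNorm_le_bound _ (by positivity) fun d => ?_⟩
          rw [d2, Real.norm_eq_abs]
          refine (Complex.abs_re_le_norm _).trans ?_
          have e : hh h (B.Th y) (AA (B.Th y) (cx xi)) (Abs.DD B.Th y d) =
              conj (d 0) * K (Pi.single 0 1) y + conj (d 1) * K (Pi.single 1 1) y := by
            conv_lhs => rw [dec d]
            simp only [K, map_add, map_smul, LinearMap.map_smulₛₗ, smul_eq_mul]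
          rw [e]
          refine (norm_add_le _ _).trans ?_
          rw [norm_mul, norm_mul, Complex.norm_conj, Complex.norm_conj]
          have n0 := norm_le_pi_norm d 0
          have n1 := norm_le_pi_norm d 1
          have t0 := mul_le_mul n0 r2.le (norm_nonneg _) (norm_nonneg _)
          have t1 := mul_le_mul n1 r3.le (norm_nonneg _) (norm_nonneg _)
          linarith
      refine ⟨max C 0, ?_⟩
      rw [← B.zero, ← (h0.li _ _ B.li).2.2, eventually_map]
      filter_upwards [ball_mem_nhds (0 : C2) ρ0] with y hy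
      by_cases y1 : y 1 = 0
      · have e : y = ![y 0, 0] := by
          funext j; fin_cases j <;> simp [y1]
        have z : (![0, 0] : C2) = 0 := by
          funext j; fin_cases j <;> simp
        have : B.Th y ∉ orbit C2ˣ x₀ := by
          rw [e, B.act, z, B.zero]
          rintro ⟨g, hg⟩
          refine hp ⟨(ex (y 0 • u))⁻¹ * g, ?_⟩
          simp only at hg ⊢
          rw [mul_smul, hg, inv_smul_smul]
        rw [hF0 _ this, abs_zero]
        exact le_max_right _ _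
      · exact (hC y hy y1).trans (le_max_left _ _)
  obtain ⟨B, hB⟩ : ∃ B : ℝ, ∀ x ∈ (univ : Set M), |F x| ≤ B := by
    refine isCompact_univ.induction_on (p := fun S => ∃ B : ℝ, ∀ x ∈ S, |F x| ≤ B)
      ⟨0, fun x hx => hx.elim⟩ (fun s t hst ⟨B, hB⟩ => ⟨B, fun x hx => hB x (hst hx)⟩)
      (fun s t ⟨B, hB⟩ ⟨B', hB'⟩ => ⟨max B B', fun x hx => hx.elim
        (fun a => (hB x a).trans (le_max_left _ _)) fun a => (hB' x a).trans (le_max_right _ _)⟩)
      fun p _ => ?_
    obtain ⟨B, hB⟩ := loc p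
    exact ⟨_, mem_nhdsWithin_of_mem_nhds hB, B, fun x hx => hx⟩
  have nz : ∀ q : M, AA q (cx xi) ≠ 0 := fun q hq => by
    obtain ⟨θ, t1, t2⟩ := hn q
    exact t2 (fix_all ((h0.ker q _).1 hq) θ t1)
  obtain ⟨q, -, hq⟩ := isCompact_univ.exists_isMinOn ⟨x₀, mem_univ _⟩
    (Complex.continuous_re.comp (b2 (cx xi) (cx xi))).continuousOn
  set m := (hh h q (AA q (cx xi)) (AA q (cx xi))).re
  have m0 : 0 < m := b1 q _ (nz q)
  have hg : ∀ s : ℝ, HasDerivAt (fun s : ℝ => f (s • xi)) (fderiv ℝ f (s • xi) xi) s := fun s => by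
    have := (hfd (s • xi)).hasFDerivAt.comp_hasDerivAt s ((hasDerivAt_id s).smul_const xi)
    rw [one_smul] at this
    exact this
  have r1 : ∀ s : ℝ, reV (cx (s • xi)) = s • xi := fun s => by funext j; simp [reV, cx]
  have r2 : reV (cx xi) = xi := by funext j; simp [reV, cx]
  have low : ∀ s : ℝ, m ≤ deriv (fun s : ℝ => f (s • xi)) s := fun s => by
    have := hf (cx (s • xi)) (cx xi)
    rw [r1, r2] at this
    rw [(hg s).deriv, ← this]
    exact hq (mem_univ _)
  have bd : ∀ s : ℝ, |f (s • xi)| ≤ B := fun s => by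
    rw [← r1, ← hF]; exact hB _ (mem_univ _)
  have B0 : 0 ≤ B := (abs_nonneg _).trans (bd 0)
  have grow := mul_sub_le_image_sub_of_le_deriv (f := fun s : ℝ => f (s • xi))
    (fun s => (hg s).differentiableAt) low (x := 0) (y := (2 * B + 1) / m) (by positivity)
  rw [sub_zero, mul_div_cancel₀ _ m0.ne'] at grow
  have a1 := abs_le.1 (bd 0)
  have a2 := abs_le.1 (bd ((2 * B + 1) / m))
  linarith [a1.1, a2.2]

end Pool.Agent.P.MP_2cea5e_gt.Se
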