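import Pool.Agent.P.MP_2cea5e_gt.Se.ClsSt

/-!
Package C4 (second proof).
-/

open scoped ContDiff ComplexOrder Manifold Matrix Topology ComplexConjugate
open Set Metric Filter MulAction

noncomputable section

namespace Pool.Agent.P.MP_2cea5e_gt.Se

open Abs

namespace C4bP

/-- The real part as a real linear map. -/
def reL : C2 →L[ℝ] (Fin 2 → ℝ) :=
  ContinuousLinearMap.pi fun j => Complex.reCLM.comp (ContinuousLinearMap.proj j)

theorem reL_apply (w : C2) : reL w = reV w := rfl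

theorem reV_of_ex {w w' : C2} (h : ex w = ex w') : reV w = reV w' := by
  funext j
  have := congrArg (fun g : C2ˣ => ‖(g : C2) j‖) h
  simp only [ex_val, Complex.norm_exp] at this
  exact Real.exp_injective this

/-- Primitives up to the residue. -/
theorem mer_res (hM : StMer) {B : ℂ → ℂ} {r : ℝ} (k : ℕ) (hr : 0 < r)
    (hB : DifferentiableOn ℂ B (ball 0 r)) :
    ∃ (Y : ℂ → ℂ) (ρ : ℂ), DifferentiableOn ℂ Y (ball 0 r) ∧ -(k : ℂ) * Y 0 = B 0 - ρ * 0 ^ k ∧
      ∀ t : ℂ, t ≠ 0 → ‖t‖ < r →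
        HasDerivAt (fun t => Y t / t ^ k) (B t / t ^ (k + 1) - ρ / t) t := by
  have h2 : 0 < r / 2 := by positivity
  have hne : ∀ t ∈ sphere (0 : ℂ) (r / 2), t ≠ 0 := fun t ht h => by
    rw [h, mem_sphere, dist_self] at ht
    exact h2.ne ht
  have hs : sphere (0 : ℂ) (r / 2) ⊆ ball 0 r := sphere_subset_ball (by linarith)
  set ρ : ℂ := (2 * Real.pi * Complex.I)⁻¹ * ∮ t in C(0, r / 2), B t / t ^ (k + 1) with hρ
  have i1 : CircleIntegrable (fun t => B t / t ^ (k + 1)) 0 (r / 2) :=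
    ContinuousOn.circleIntegrable h2.le ((hB.continuousOn.mono hs).div (by fun_prop)
      fun t ht => pow_ne_zero _ (hne t ht))
  have i2 : CircleIntegrable (fun t : ℂ => ρ * (t - 0)⁻¹) 0 (r / 2) :=
    ContinuousOn.circleIntegrable h2.le (continuousOn_const.mul
      (ContinuousOn.inv₀ (by fun_prop) fun t ht => by simpa using hne t ht))
  have e : (∮ t in C(0, r / 2), (B t - ρ * t ^ k) / t ^ (k + 1)) =
      ∮ t in C(0, r / 2), (B t / t ^ (k + 1) - ρ * (t - 0)⁻¹) :=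
    circleIntegral.integral_congr h2.le fun t ht => by
      have := hne t ht
      simp only [sub_zero]
      field_simp
      ring
  have z : (∮ t in C(0, r / 2), (B t - ρ * t ^ k) / t ^ (k + 1)) = 0 := by
    rw [e, circleIntegral.integral_sub i1 i2, circleIntegral.integral_const_mul,
      circleIntegral.integral_sub_center_inv _ h2.ne', hρ]
    have := Complex.two_pi_I_ne_zero
    field_simp
    ring
  obtain ⟨Y, y1, y2, y3⟩ := hM (fun t => B t - ρ * t ^ k) r (r / 2) k h2 (by linarith)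
    (hB.sub (by fun_prop)) z
  refine ⟨Y, ρ, y1, y2, fun t t0 tr => ?_⟩
  convert y3 t t0 tr using 1
  field_simp
  ring

theorem log_deriv {Y : ℂ → ℂ} {β ρ ζ : ℂ}
    (h : HasDerivAt Y (β - ρ / Complex.exp ζ) (Complex.exp ζ)) :
    HasDerivAt (fun ζ => Y (Complex.exp ζ) + ρ * ζ) (Complex.exp ζ * β) ζ := by
  have := (h.comp ζ (Complex.hasDerivAt_exp ζ)).add ((hasDerivAt_id ζ).const_mul ρ)
  refine HasDerivAt.congr_deriv this ?_
  have := Complex.exp_ne_zero ζ
  field_simp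
  ring

/-- The order of vanishing. -/
theorem order {b : ℂ → ℂ} {r : ℝ} (hr : 0 < r) (hb : DifferentiableOn ℂ b (ball 0 r))
    (b0 : b 0 = 0) (bne : ∀ t, t ≠ 0 → ‖t‖ < r → b t ≠ 0) :
    ∃ (m : ℕ) (g : ℂ → ℂ) (r' : ℝ), 0 < r' ∧ r' ≤ r ∧ DifferentiableOn ℂ g (ball 0 r') ∧
      ∀ t ∈ ball (0 : ℂ) r', g t ≠ 0 ∧ b t = t ^ (m + 1) * g t := by
  have ha : AnalyticAt ℂ b 0 := hb.analyticAt (ball_mem_nhds _ hr)
  have hn : ¬∀ᶠ z in 𝓝 (0 : ℂ), b z = 0 := fun h => by
    have h1 : ∀ᶠ z in 𝓝[≠] (0 : ℂ), b z = 0 ∧ z ∈ ball (0 : ℂ) r :=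
      (h.and (ball_mem_nhds _ hr)).filter_mono nhdsWithin_le_nhds
    obtain ⟨z, ⟨z1, z2⟩, z3⟩ := (h1.and self_mem_nhdsWithin).exists
    exact bne z z3 (mem_ball_zero_iff.1 z2) z1
  obtain ⟨n, g, g1, g2, g3⟩ := ha.exists_eventuallyEq_pow_smul_nonzero_iff.2 hn
  obtain ⟨ε, ε0, hε⟩ := Metric.eventually_nhds_iff_ball.1
    (g1.eventually_analyticAt.and ((g1.continuousAt.eventually_ne g2).and g3))
  cases n with
  | zero =>
    have := g3.self_of_nhds
    simp only [pow_zero, one_smul, b0] at this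
    exact absurd this.symm g2
  | succ m =>
    refine ⟨m, g, min ε r, lt_min ε0 hr, min_le_right _ _, fun t ht => ?_, fun t ht => ?_⟩
    · exact (hε t (ball_subset_ball (min_le_left _ _) ht)).1.differentiableAt.differentiableWithinAt
    · have := (hε t (ball_subset_ball (min_le_left _ _) ht)).2
      exact ⟨this.1, by simpa using this.2⟩

theorem vec01 (t : ℂ) : (![0, t] : C2) = t • ![0, 1] := by
  funext j; fin_cases j <;> simp

variable {M : Type} [TopologicalSpace M] [ChartedSpace C2 M] [MulAction C2ˣ M]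

theorem reV_eq {x₀ : M} (hf : ∀ g : C2ˣ, g • x₀ = x₀ → g = 1) {w w' : C2}
    (h : orb x₀ w = orb x₀ w') : reV w = reV w' := by
  refine reV_of_ex ?_
  have : ((ex w')⁻¹ * ex w) • x₀ = x₀ := by
    rw [mul_smul, inv_smul_eq_iff]; exact h
  exact (inv_mul_eq_one.1 (hf _ this)).symm

/-- No real vector lies in the kernel of the infinitesimal action. -/
theorem real_ker {h : Met M} {x₀ : M} {c : ℝ} (hd : Dense (orbit C2ˣ x₀))
    (o5 : ∀ x, x ∈ orbit C2ˣ x₀ ↔ ∃ w, orb x₀ w = x)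
    (b2 : ∀ a b, Continuous fun x : M => hh h x (AA x a) (AA x b)) (hc : c ≠ 0)
    (hL : LogF M h x₀ c) {p : M} {ξ : Fin 2 → ℝ} (hp : AA p (cx ξ) = 0) : ξ = 0 := by
  obtain ⟨f, -, hf⟩ := hL ξ
  have key : ∀ η : Fin 2 → ℝ, ξ 0 * η 1 - ξ 1 * η 0 = 0 := fun η => by
    have e : (fun x : M => (hh h x (AA x (cx ξ)) (AA x (Complex.I • cx η))).re) =
        fun _ => c * (ξ 0 * η 1 - ξ 1 * η 0) := by
      refine Continuous.ext_on hd (Complex.continuous_re.comp (b2 _ _)) continuous_const ?_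
      intro x hx
      obtain ⟨w, rfl⟩ := (o5 x).1 hx
      have r0 : reV (Complex.I • cx η) = 0 := by funext j; simp [reV, cx]
      simp only
      rw [hf, r0, map_zero, zero_add]
      simp [cx]
    have := congrFun e p
    simp only [hp, map_zero, LinearMap.zero_apply, Complex.zero_re] at this
    exact (mul_eq_zero.1 this.symm).resolve_left hc
  have k0 := key ![0, 1]
  have k1 := key ![1, 0]
  simp at k0 k1
  funext j
  fin_cases j
  exacts [k0, k1]

theorem beta {x₀ p : M} {v : C2} (B : FB x₀ p (-star v) v) {t : ℂ} (t0 : t ≠ 0) (tr : ‖t‖ < B.r) :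
    AA (B.Th ![0, t]) (lc v (-B.a t / B.b t) (1 / B.b t)) = Abs.DD B.Th ![0, t] ![0, 1] := by
  have hb := B.bne t t0 tr
  rw [lc, map_add, map_smul, map_smul, B.Av t tr, B.Au ![0, t] (by simpa using tr), ← map_smul,
    ← map_smul, ← map_add]
  congr 1
  funext j
  fin_cases j
  · simp
    field_simp
    ring
  · simp [hb]

variable [ContMDiffSMul IC IC 1 C2ˣ M]

/-- A primitive of the logarithmic derivative lifts the transversal. -/
theorem lift_const (h0 : StC0 M) {Th : C2 → M} {R : ℝ} {w β : ℂ → C2}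
    (md : ∀ ζ : ℂ, ζ.re < R → MDifferentiableAt IC IC Th ![0, Complex.exp ζ])
    (hβ : ∀ ζ : ℂ, ζ.re < R → AA (Th ![0, Complex.exp ζ]) (β ζ) =
      Abs.DD Th ![0, Complex.exp ζ] ![0, Complex.exp ζ])
    (hw : ∀ ζ : ℂ, ζ.re < R → HasDerivAt w (β ζ) ζ) :
    ∃ x₁ : M, ∀ ζ : ℂ, ζ.re < R → orb x₁ (w ζ) = Th ![0, Complex.exp ζ] := by
  let U : Set C2 := {y | (y 1).re < R}
  have Uo : IsOpen U := isOpen_lt (by fun_prop) continuous_const
  have Uc : Convex ℝ U :=
    convex_halfSpace_lt (f := fun y : C2 => (y 1).re) ⟨fun x y => by simp, fun a x => by simp⟩ R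
  let E : C2 → C2 := fun z => ![0, Complex.exp (z 1)]
  have hE : ∀ y : C2, HasFDerivAt E ((ContinuousLinearMap.proj 1 : C2 →L[ℂ] ℂ).smulRight
      ![0, Complex.exp (y 1)]) y := fun y => by
    have h1 : HasDerivAt (fun ζ : ℂ => Complex.exp ζ • (![0, 1] : C2))
        (Complex.exp (y 1) • ![0, 1]) (y 1) := (Complex.hasDerivAt_exp _).smul_const _
    simp only [← vec01] at h1
    exact h1.hasFDerivAt.comp y (ContinuousLinearMap.proj 1 : C2 →L[ℂ] ℂ).hasFDerivAt
  have hW : ∀ y ∈ U, HasFDerivAt (fun z : C2 => -w (z 1))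
      ((ContinuousLinearMap.proj 1 : C2 →L[ℂ] ℂ).smulRight (-β (y 1))) y := fun y hy => by
    have h1 : HasDerivAt (fun ζ => -w ζ) (-β (y 1)) (y 1) := (hw _ hy).neg
    exact h1.hasFDerivAt.comp y (ContinuousLinearMap.proj 1 : C2 →L[ℂ] ℂ).hasFDerivAt
  have mE : ∀ y : C2, MDifferentiableAt IC IC E y := fun y =>
    mdifferentiableAt_iff_differentiableAt.2 (hE y).differentiableAt
  have mF : ∀ y ∈ U, MDifferentiableAt IC IC (fun z => Th (E z)) y := fun y hy =>
    (md _ hy).comp y (mE y)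
  have cst := h0.const (fun z => ex (-w (z 1)) • Th (E z)) U Uo Uc.isPreconnected fun y hy => by
    refine ⟨md_smul ((diff_ex _).comp y (hW y hy).differentiableAt) (mF y hy), ?_⟩
    ext1 d
    rw [h0.prod (fun z : C2 => -w (z 1)) (fun z => Th (E z)) y d (hW y hy).differentiableAt
      (mF y hy), h0.eqv, ← map_add, DD_comp (F := Th) (G := E) (md _ hy) (mE y), DD_eq, (hE y).fderiv,
      (hW y hy).fderiv]
    simp only [ContinuousLinearMap.smulRight_apply, map_smul, map_neg, E, hβ _ hy, smul_neg,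
      neg_add_cancel, map_zero, ContinuousLinearMap.zero_apply]
  refine ⟨ex (-w (R - 1 : ℝ)) • Th ![0, Complex.exp (R - 1 : ℝ)], fun ζ hζ => ?_⟩
  have := cst ![0, (R - 1 : ℝ)] (by simp [U]) ![0, ζ] (by simpa [U] using hζ)
  simp only [E, Matrix.cons_val_one, Matrix.cons_val_fin_one] at this
  rw [orb, this, ex_neg, smul_inv_smul]

omit [ContMDiffSMul IC IC 1 C2ˣ M] in
/-- The period vanishes. -/
theorem period {h : Met M} {x₀ : M} {c : ℝ} (o1 : ∀ g : C2ˣ, g • x₀ = x₀ → g = 1) (hc : c ≠ 0)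
    (hL : LogF M h x₀ c) {Th : C2 → M} {R : ℝ} {w β : ℂ → C2} {P : C2}
    (b3 : ∀ a d, ContinuousAt (fun y => hh h (Th y) (AA (Th y) a) (Abs.DD Th y d)) 0)
    (hβ : ∀ ζ : ℂ, ζ.re < R → AA (Th ![0, Complex.exp ζ]) (β ζ) =
      Abs.DD Th ![0, Complex.exp ζ] ![0, Complex.exp ζ])
    (hw : ∀ ζ : ℂ, ζ.re < R → HasDerivAt w (β ζ) ζ)
    (hl : ∀ ζ : ℂ, ζ.re < R → orb x₀ (w ζ) = Th ![0, Complex.exp ζ])
    (hP : ∀ ζ, w (ζ + 2 * Real.pi * Complex.I) = w ζ + P) : P = 0 := by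
  have hre : ∀ ζ : ℂ, ζ.re < R → reV (w ζ + P) = reV (w ζ) := fun ζ hζ => by
    refine reV_eq o1 ?_
    rw [← hP, hl _ hζ, hl _ (by simpa using hζ), Complex.exp_periodic]
  have key : ∀ ξ : Fin 2 → ℝ, ξ 0 * (P 1).im - ξ 1 * (P 0).im = 0 := fun ξ => by
    obtain ⟨f, hfd, hf⟩ := hL ξ
    set K : C2 → ℂ := fun y => hh h (Th y) (AA (Th y) (cx ξ)) (Abs.DD Th y ![0, 1]) with hK
    obtain ⟨ε, ε0, hε⟩ := Metric.eventually_nhds_iff_ball.1
      ((b3 (cx ξ) ![0, 1]).norm.eventually_lt continuousAt_const (lt_add_one ‖K 0‖))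
    have bd : ∀ s : ℝ, s < R → Real.exp s < ε →
        |c * (ξ 0 * (P 1).im - ξ 1 * (P 0).im)| ≤
          Real.exp s * ((‖K 0‖ + 1) * (2 * Real.pi)) := fun s s1 s2 => by
      let ζ : ℝ → ℂ := fun φ => s + φ * Complex.I
      have ζr : ∀ φ, (ζ φ).re = s := fun φ => by simp [ζ]
      have ζn : ∀ φ, ‖Complex.exp (ζ φ)‖ = Real.exp s := fun φ => by rw [Complex.norm_exp, ζr]
      have dζ : ∀ φ, HasDerivAt ζ Complex.I φ := fun φ => by
        have := ((Complex.ofRealCLM.hasDerivAt (x := φ)).mul_const Complex.I).const_add (s : ℂ)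
        rw [Complex.ofRealCLM_apply, Complex.ofReal_one, one_mul] at this
        exact this
      have dw : ∀ φ, HasDerivAt (fun φ => w (ζ φ)) (Complex.I • β (ζ φ)) φ := fun φ =>
        (hw _ ((ζr φ).trans_lt s1)).scomp φ (dζ φ)
      let G : ℝ → ℝ := fun φ =>
        f (reL (w (ζ φ))) + c * (ξ 0 * (w (ζ φ) 1).im - ξ 1 * (w (ζ φ) 0).im)
      have dG : ∀ φ, HasDerivAt G (conj (Complex.I * Complex.exp (ζ φ)) *
          K ![0, Complex.exp (ζ φ)]).re φ := fun φ => by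
        have d1 := (hfd _).hasFDerivAt.comp_hasDerivAt φ
          (reL.hasFDerivAt.comp_hasDerivAt φ (dw φ))
        have d2 : ∀ j, HasDerivAt (fun φ => (w (ζ φ) j).im) ((Complex.I • β (ζ φ)) j).im φ :=
          fun j => Complex.imCLM.hasFDerivAt.comp_hasDerivAt φ (hasDerivAt_pi.1 (dw φ) j)
        have d3 := d1.add ((((d2 1).const_mul (ξ 0)).sub ((d2 0).const_mul (ξ 1))).const_mul c)
        refine HasDerivAt.congr_deriv d3 ?_
        simp only [Function.comp_apply, reL_apply]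
        have e : AA (Th ![0, Complex.exp (ζ φ)]) (Complex.I • β (ζ φ)) =
            (Complex.I * Complex.exp (ζ φ)) • Abs.DD Th ![0, Complex.exp (ζ φ)] ![0, 1] := by
          rw [map_smul, hβ _ ((ζr φ).trans_lt s1), mul_smul, ← map_smul _ (Complex.exp (ζ φ)),
            ← vec01]
        rw [← hf, hl _ ((ζr φ).trans_lt s1), e, LinearMap.map_smulₛₗ, smul_eq_mul]
      have mv := (convex_univ (𝕜 := ℝ) (E := ℝ)).norm_image_sub_le_of_norm_hasDerivWithin_le
        (C := Real.exp s * (‖K 0‖ + 1)) (fun φ _ => (dG φ).hasDerivWithinAt)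
        (fun φ _ => by
          rw [Real.norm_eq_abs]
          refine (Complex.abs_re_le_norm _).trans ?_
          rw [norm_mul, Complex.norm_conj, norm_mul, Complex.norm_I, one_mul, ζn]
          refine mul_le_mul_of_nonneg_left (hε _ ?_).le (Real.exp_pos s).le
          rw [mem_ball_zero_iff, pi_norm_lt_iff ε0]
          intro j
          fin_cases j
          · simpa using ε0
          · simpa [ζn] using s2) (mem_univ 0) (mem_univ (2 * Real.pi))
      have e1 : ζ (2 * Real.pi) = ζ 0 + 2 * Real.pi * Complex.I := by simp [ζ]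
      have e2 : G (2 * Real.pi) - G 0 = c * (ξ 0 * (P 1).im - ξ 1 * (P 0).im) := by
        simp only [G, e1, hP, reL_apply, hre _ ((ζr 0).trans_lt s1), Pi.add_apply, Complex.add_im]
        ring
      rw [e2, sub_zero, Real.norm_eq_abs, Real.norm_eq_abs, abs_of_pos Real.two_pi_pos,
        mul_assoc] at mv
      exact mv
    have lim : Tendsto (fun s : ℝ => Real.exp s * ((‖K 0‖ + 1) * (2 * Real.pi))) atBot (𝓝 0) := by
      simpa using Real.tendsto_exp_atBot.mul_const ((‖K 0‖ + 1) * (2 * Real.pi))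
    have := ge_of_tendsto lim (by
      filter_upwards [eventually_lt_atBot R, Real.tendsto_exp_atBot.eventually_lt_const ε0]
        with s s1 s2 using bd s s1 s2)
    exact (mul_eq_zero.1 (abs_nonpos_iff.1 this)).resolve_left hc
  have k0 := key ![0, 1]
  have k1 := key ![1, 0]
  simp at k0 k1
  have k2 := hre (R - 1 : ℝ) (by simp)
  funext j
  have k3 := congrFun k2 j
  simp only [reV, Pi.add_apply, Complex.add_re, add_eq_left] at k3
  refine Complex.ext k3 ?_
  fin_cases j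
  exacts [k0, k1]

end C4bP

open C4bP

variable {M : Type} [TopologicalSpace M] [T2Space M] [CompactSpace M] [ChartedSpace C2 M]
  [IsManifold IC 1 M] [MulAction C2ˣ M] [ContMDiffSMul IC IC 1 C2ˣ M] [FaithfulSMul C2ˣ M]

theorem c4_ok2 (h0 : StC0 M) (ho : StC0o M) (hb : StC0b M) (h2 : StC2 M) (hL : StCL)
    (hM : StMer) : StC4 M := by
  intro h x₀ c hk hd hn hc hF
  obtain ⟨o1, -, -, -, o5, ⟨p, hp⟩, o7⟩ := ho x₀ hd
  obtain ⟨-, b2, b3, -⟩ := hb h hk
  obtain ⟨⟨v, v0, hv⟩, -⟩ := o7 hn p hp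
  have hu : AA p (-star v) ≠ 0 := fun hu => by
    rw [map_neg, neg_eq_zero] at hu
    have e1 : cx (fun j => 2 * (v j).re) = v + star v := by
      funext j; simp [cx, Complex.add_conj]
    have e2 : cx (fun j => 2 * (v j).im) = Complex.I • (star v - v) := by
      funext j
      refine Complex.ext ?_ ?_ <;> simp [cx]
      ring
    have r1 := real_ker hd o5 b2 hc hF (p := p) (by rw [e1, map_add, hv, hu, add_zero])
    have r2 := real_ker hd o5 b2 hc hF (p := p)
      (by rw [e2, map_smul, map_sub, hv, hu, sub_zero, smul_zero])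
    refine v0 (funext fun j => Complex.ext ?_ ?_)
    · simpa using congrFun r1 j
    · simpa using congrFun r2 j
  have hi : Ind v := hL.ind v fun z y hzy => by
    have := congrArg (AA p) hzy
    rw [lc, map_add, map_smul, map_smul, hv, smul_zero, add_zero, map_zero] at this
    have z0 : z = 0 := (smul_eq_zero.1 this).resolve_right hu
    rw [lc, z0, zero_smul, zero_add] at hzy
    exact ⟨z0, (smul_eq_zero.1 hzy).resolve_right v0⟩
  obtain ⟨B⟩ := h2 x₀ p (-star v) v hd hp v0 hv hu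
  obtain ⟨m, g, r, r0, rr, gd, hg⟩ := order B.pos B.db B.b0 B.bne
  have gi : DifferentiableOn ℂ (fun t => 1 / g t) (ball 0 r) :=
    (differentiableOn_const _).div gd fun t ht => (hg t ht).1
  have ga : DifferentiableOn ℂ (fun t => -B.a t / g t) (ball 0 r) :=
    (B.da.mono (ball_subset_ball rr)).neg.div gd fun t ht => (hg t ht).1
  obtain ⟨Y, ρ₁, y1, y2, y3⟩ := mer_res hM m r0 gi
  obtain ⟨Z, ρ₂, z1, z2, z3⟩ := mer_res hM m r0 ga
  have lt : ∀ ζ : ℂ, ζ.re < Real.log r → ‖Complex.exp ζ‖ < r := fun ζ hζ => by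
    rw [Complex.norm_exp]; exact (Real.lt_log_iff_exp_lt r0).1 hζ
  let w : ℂ → C2 := fun ζ => lc v (Z (Complex.exp ζ) / Complex.exp ζ ^ m + ρ₂ * ζ)
    (Y (Complex.exp ζ) / Complex.exp ζ ^ m + ρ₁ * ζ)
  let β : ℂ → C2 := fun ζ => Complex.exp ζ •
    lc v (-B.a (Complex.exp ζ) / B.b (Complex.exp ζ)) (1 / B.b (Complex.exp ζ))
  have hβ : ∀ ζ : ℂ, ζ.re < Real.log r → AA (B.Th ![0, Complex.exp ζ]) (β ζ) =
      Abs.DD B.Th ![0, Complex.exp ζ] ![0, Complex.exp ζ] := fun ζ hζ => by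
    simp only [β]
    rw [map_smul, beta B (Complex.exp_ne_zero ζ) ((lt ζ hζ).trans_le rr), ← map_smul, ← vec01]
  have hw : ∀ ζ : ℂ, ζ.re < Real.log r → HasDerivAt w (β ζ) ζ := fun ζ hζ => by
    have d1 := log_deriv (y3 _ (Complex.exp_ne_zero ζ) (lt ζ hζ))
    have d2 := log_deriv (z3 _ (Complex.exp_ne_zero ζ) (lt ζ hζ))
    have d3 := (d2.smul_const (-star v)).add (d1.smul_const v)
    refine HasDerivAt.congr_deriv d3 ?_
    simp only [β, lc, smul_add, smul_smul, (hg _ (mem_ball_zero_iff.2 (lt ζ hζ))).2, div_div,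
      mul_comm (g _)]
  obtain ⟨x₁, hx⟩ := lift_const h0 (Th := B.Th) (R := Real.log r)
    (fun ζ hζ => B.md _ ((lt ζ hζ).trans_le rr)) hβ hw
  have m1 : x₁ ∈ orbit C2ˣ x₀ := by
    have a1 : ((Real.log r - 1 : ℝ) : ℂ).re < Real.log r := by simp
    obtain ⟨θ, hθ⟩ := B.mem ![0, Complex.exp (Real.log r - 1 : ℝ)] (Complex.exp_ne_zero _)
      ((lt _ a1).trans_le rr)
    refine ⟨(ex (w (Real.log r - 1 : ℝ)))⁻¹ * θ, ?_⟩
    simp only at hθ ⊢
    rw [mul_smul, hθ, ← hx _ a1, orb, inv_smul_smul]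
  have eo : orbit C2ˣ x₁ = orbit C2ˣ x₀ := orbit_eq_iff.2 m1
  obtain ⟨w₁, hw₁⟩ := (o5 x₁).1 m1
  have hr : ∀ᶠ y : C2 in 𝓝 0, ‖y 1‖ < B.r :=
    ((continuous_apply 1).norm.continuousAt (x := (0 : C2))).eventually_lt continuousAt_const
      (by simpa using B.pos)
  have hP := period o1 hc hF (Th := B.Th) (R := Real.log r) (w := fun ζ => w ζ + w₁)
    (P := lc v (ρ₂ * (2 * Real.pi * Complex.I)) (ρ₁ * (2 * Real.pi * Complex.I)))
    (fun a d => b3 B.Th 0 a d (hr.mono B.md)) hβ (fun ζ hζ => (hw ζ hζ).add_const w₁)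
    (fun ζ hζ => by rw [← hx ζ hζ, ← hw₁, orb, orb, orb, ex_add, mul_smul])
    (fun ζ => by
      simp only [w, lc, Complex.exp_periodic ζ, mul_add, add_smul]
      abel)
  obtain ⟨q2, q1⟩ := hL.inj v hi _ _ hP
  obtain rfl : ρ₁ = 0 := (mul_eq_zero.1 q1).resolve_right Complex.two_pi_I_ne_zero
  obtain rfl : ρ₂ = 0 := (mul_eq_zero.1 q2).resolve_right Complex.two_pi_I_ne_zero
  simp only [zero_mul, sub_zero, B.a0, neg_zero, zero_div] at y2 z2
  have y4 : -(m : ℂ) * Y 0 ≠ 0 := y2 ▸ one_div_ne_zero (hg 0 (mem_ball_self r0)).1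
  have mne : -(m : ℂ) ≠ 0 := left_ne_zero_of_mul y4
  have z0 : Z 0 = 0 := (mul_eq_zero.1 z2).resolve_left mne
  have mp : 1 ≤ m := Nat.pos_of_ne_zero fun h => mne (by simp [h])
  refine ⟨x₁, p, v, eo ▸ hd, ⟨⟨B.Th, r, m, Y, dslope Z 0, r0, B.zero, fun s t => ?_,
    fun y hy => B.md y (hy.trans_le rr), B.li, mp, y1,
    (Complex.differentiableOn_dslope (ball_mem_nhds _ r0)).2 z1, right_ne_zero_of_mul y4,
    fun t t0 tr => ?_, eo ▸ hp, (h0.ker p v).1 hv, hi⟩⟩⟩
  · rw [lc, zero_smul, add_zero]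
    exact B.act s t
  · have a1 : (Complex.log t).re < Real.log r := by
      rw [Complex.log_re]
      exact Real.log_lt_log (norm_pos_iff.2 t0) tr
    have a2 := hx _ a1
    simp only [w, Complex.exp_log t0, zero_mul, add_zero] at a2
    have a3 : dslope Z 0 t / t ^ (m - 1) = Z t / t ^ m := by
      have := sub_smul_dslope Z 0 t
      rw [sub_zero, z0, sub_zero, smul_eq_mul] at this
      obtain ⟨k, rfl⟩ := Nat.exists_eq_add_of_le' mp
      rw [← this, Nat.add_sub_cancel, pow_succ]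
      field_simp
    rw [a3, a2]

end Pool.Agent.P.MP_2cea5e_gt.Se
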