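import Pool.Agent.P.MP_2cea5e_gt.Se.ClsSt

/-!
Package C5a.
-/

open scoped ContDiff ComplexOrder Manifold Matrix Topology ComplexConjugate
open Set Metric Filter MulAction

noncomputable section

namespace Pool.Agent.P.MP_2cea5e_gt.Se

open Abs

namespace C5aP

/-- The lift of the flow box to the Lie algebra. -/
def WW (v : C2) (m : ℕ) (Y Z : ℂ → ℂ) (y : C2) : C2 :=
  lc v (y 0 + Z (y 1) / y 1 ^ (m - 1)) (Y (y 1) / y 1 ^ m)

theorem lc_add (v : C2) (a b c d : ℂ) : lc v (a + c) (b + d) = lc v a b + lc v c d := by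
  simp only [lc, add_smul]; abel

theorem vec_eta (y : C2) : ![y 0, y 1] = y := by
  funext j; fin_cases j <;> rfl

theorem WW_cont (v : C2) (m : ℕ) {Y Z : ℂ → ℂ} {r : ℝ} (hY : DifferentiableOn ℂ Y (ball 0 r))
    (hZ : DifferentiableOn ℂ Z (ball 0 r)) {y : C2} (h1 : y 1 ≠ 0) (hr : ‖y 1‖ < r) :
    ContinuousAt (WW v m Y Z) y := by
  have hm : ball (0 : ℂ) r ∈ 𝓝 (y 1) := isOpen_ball.mem_nhds (by simpa using hr)
  have c1 : ContinuousAt (fun y : C2 => y 1) y := (continuous_apply 1).continuousAt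
  have c0 : ContinuousAt (fun y : C2 => y 0) y := (continuous_apply 0).continuousAt
  have cY : ContinuousAt (fun y : C2 => Y (y 1)) y :=
    ContinuousAt.comp (f := fun y : C2 => y 1) (hY.continuousOn.continuousAt hm) c1
  have cZ : ContinuousAt (fun y : C2 => Z (y 1)) y :=
    ContinuousAt.comp (f := fun y : C2 => y 1) (hZ.continuousOn.continuousAt hm) c1
  unfold WW lc
  exact ((c0.add (cZ.div (c1.pow _) (pow_ne_zero _ h1))).smul continuousAt_const).add
    ((cY.div (c1.pow _) (pow_ne_zero _ h1)).smul continuousAt_const)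

theorem fib_count (θ : C2ˣ) : {w : C2 | ex w = θ}.Countable := by
  refine (countable_range fun n : Fin 2 → ℤ =>
    (fun j => Complex.log ((θ : C2) j) + n j * (2 * Real.pi * Complex.I) : C2)).mono ?_
  intro w hw
  have h : ∀ j, ∃ n : ℤ, w j = Complex.log ((θ : C2) j) + n * (2 * Real.pi * Complex.I) := by
    intro j
    rw [← Complex.exp_eq_exp_iff_exists_int, Complex.exp_log (unit_ne θ j), ← ex_val,
      show ex w = θ from hw]
  choose n hn using h
  exact ⟨n, funext fun j => (hn j).symm⟩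

theorem punct_conn {ε : ℝ} (hε : 0 < ε) :
    IsPreconnected {y : C2 | y ∈ ball (0 : C2) ε ∧ y 1 ≠ 0} := by
  have hc : Convex ℝ (ball (0 : ℂ) ε ×ˢ {ζ : ℂ | ζ.re < Real.log ε}) :=
    (convex_ball 0 ε).prod (convex_halfSpace_re_lt _)
  have hcont : Continuous fun q : ℂ × ℂ => (![q.1, Complex.exp q.2] : C2) := by
    refine continuous_pi fun j => ?_
    fin_cases j
    · exact continuous_fst
    · exact Complex.continuous_exp.comp continuous_snd
  have := hc.isPreconnected.image _ hcont.continuousOn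
  convert this using 1
  ext y
  simp only [mem_ofPred_eq, mem_image, mem_prod, mem_ball_zero_iff, pi_norm_lt_iff hε]
  constructor
  · rintro ⟨h, h1⟩
    refine ⟨(y 0, Complex.log (y 1)), ⟨h 0, ?_⟩, ?_⟩
    · rw [Complex.log_re]
      exact Real.log_lt_log (norm_pos_iff.2 h1) (h 1)
    · simp only [Complex.exp_log h1]
      exact vec_eta y
  · rintro ⟨q, ⟨h0, h1⟩, rfl⟩
    refine ⟨fun j => ?_, by simp⟩
    fin_cases j
    · exact h0
    · show ‖Complex.exp q.2‖ < ε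
      rw [Complex.norm_exp, ← Real.exp_log hε]
      exact Real.exp_lt_exp.2 h1

theorem IT_pow {θ : C2ˣ} (h : IT θ) (n : ℕ) : IT (θ ^ n) := by
  intro j
  rw [Units.val_pow_eq_pow_val, Pi.pow_apply, norm_pow, h j, one_pow]

end C5aP

open C5aP

variable {M : Type} [TopologicalSpace M] [T2Space M] [CompactSpace M] [ChartedSpace C2 M]
  [IsManifold IC 1 M] [MulAction C2ˣ M] [ContMDiffSMul IC IC 1 C2ˣ M] [FaithfulSMul C2ˣ M]

theorem c5a_ok (h0 : StC0 M) (ho : StC0o M) (hL : StCL) : StC5a M := by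
  intro x₀ p v hd B θ hθ hp
  obtain ⟨free, -⟩ := ho x₀ hd
  obtain ⟨G, hG1, hG2⟩ := B.li
  rw [B.zero] at hG2
  have hGp : G p = 0 := by
    have := hG1.self_of_nhds.2
    rwa [B.zero] at this
  have cG : ContinuousAt G p := hG2.self_of_nhds.1.continuousAt
  have cT : ContinuousAt B.Th 0 := hG1.self_of_nhds.1.continuousAt
  set W : C2 → C2 := WW v B.m B.Y B.Z with hW
  -- the lift
  have hlift : ∀ y : C2, y 1 ≠ 0 → ‖y 1‖ < B.r → orb x₀ (W y) = B.Th y := by
    intro y h1 hr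
    have e : W y = lc v (y 0) 0 + lc v (B.Z (y 1) / y 1 ^ (B.m - 1)) (B.Y (y 1) / y 1 ^ B.m) := by
      rw [← lc_add, zero_add]; rfl
    have l := B.lift (y 1) h1 hr
    rw [e, orb, ex_add, mul_smul]
    rw [orb] at l
    rw [l, ← B.act, vec_eta]
  have hzero : ∀ y : C2, y 1 = 0 → B.Th y ∉ orbit C2ˣ x₀ := by
    intro y h1 hm
    have e : B.Th y = ex (lc v (y 0) 0) • p := by
      have a := B.act (y 0) 0
      have z : (![0, 0] : C2) = 0 := by funext j; fin_cases j <;> rfl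
      rw [z, B.zero, ← h1, vec_eta] at a
      rw [a, h1]
    apply B.nmem
    rw [e] at hm
    have := MulAction.mem_orbit_of_mem_orbit (ex (lc v (y 0) 0))⁻¹ hm
    rwa [inv_smul_smul] at this
  -- the compact stabiliser
  set Γ : Set C2ˣ := {γ | IT γ ∧ γ • p = p} with hΓ
  have csm : Continuous fun q : C2ˣ × M => q.1 • q.2 := cont_smul
  have hΓc : IsCompact Γ := by
    have : IsClosed {γ : C2ˣ | γ • p = p} :=
      isClosed_eq (csm.comp (continuous_id.prodMk continuous_const)) continuous_const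
    exact hL.cpt.inter_right this
  have tube : ∀ N ∈ 𝓝 p, ∀ᶠ x in 𝓝 p, ∀ γ ∈ Γ, γ • x ∈ N := by
    intro N hN
    refine hΓc.eventually_forall_of_forall_eventually (P := fun x γ => γ • x ∈ N) fun γ hγ => ?_
    have c : ContinuousAt (fun z : M × C2ˣ => z.2 • z.1) (p, γ) :=
      (csm.comp (continuous_snd.prodMk continuous_fst)).continuousAt
    have e : γ • p = p := hγ.2
    exact c (show N ∈ 𝓝 (γ • p) from e.symm ▸ hN)
  have hN : ∀ ε : ℝ, 0 < ε → {x : M | ContinuousAt G x ∧ B.Th (G x) = x ∧ G x ∈ ball (0 : C2) ε}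
      ∈ 𝓝 p := by
    intro ε hε
    have : ∀ᶠ x in 𝓝 p, G x ∈ ball (0 : C2) ε := cG (hGp ▸ ball_mem_nhds _ hε)
    filter_upwards [hG2, this] with x h1 h2
    exact ⟨h1.1.continuousAt, h1.2, h2⟩
  have nr : ∀ y : C2, ∀ ε : ℝ, y ∈ ball (0 : C2) ε → ‖y 1‖ < ε := fun y ε h =>
    (norm_le_pi_norm y 1).trans_lt (by simpa using h)
  -- points of the orbit in the box
  have key : ∀ x ∈ orbit C2ˣ x₀, ContinuousAt G x → B.Th (G x) = x → G x ∈ ball (0 : C2) B.r →
      G x 1 ≠ 0 ∧ orb x₀ (W (G x)) = x ∧ ContinuousAt (fun x => W (G x)) x := by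
    intro x hx c e hb
    have h1 : G x 1 ≠ 0 := fun h => hzero _ h (e.symm ▸ hx)
    exact ⟨h1, (hlift _ h1 (nr _ _ hb)).trans e,
      ContinuousAt.comp (WW_cont v B.m B.dY B.dZ h1 (nr _ _ hb)) c⟩
  have t1 := tube _ (hN B.r B.pos)
  have t2 : ∀ᶠ y in 𝓝 (0 : C2), ∀ γ ∈ Γ, γ • B.Th y ∈
      {x : M | ContinuousAt G x ∧ B.Th (G x) = x ∧ G x ∈ ball (0 : C2) B.r} := by
    rw [ContinuousAt, B.zero] at cT
    exact cT t1
  obtain ⟨ε, hε, hball⟩ := Metric.eventually_nhds_iff_ball.1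
    (t2.and (ball_mem_nhds (0 : C2) B.pos))
  set P : Set C2 := {y : C2 | y ∈ ball (0 : C2) ε ∧ y 1 ≠ 0} with hP
  set lam : C2 → C2 := fun y => W (G (θ • B.Th y)) - W y with hlam
  have hθΓ : θ ∈ Γ := ⟨hθ, hp⟩
  have hPo : ∀ y ∈ P, ‖y 1‖ < B.r ∧ orb x₀ (W y) = B.Th y ∧ θ • B.Th y ∈ orbit C2ˣ x₀ := by
    intro y hy
    have hr := nr _ _ (hball y hy.1).2
    have l := hlift y hy.2 hr
    exact ⟨hr, l, MulAction.mem_orbit_of_mem_orbit θ (l ▸ MulAction.mem_orbit x₀ _)⟩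
  have lamc : ContinuousOn lam P := by
    intro y hy
    obtain ⟨hr, -, ho⟩ := hPo y hy
    obtain ⟨a, b, c⟩ := (hball y hy.1).1 θ hθΓ
    have c1 : ContinuousAt (fun y => θ • B.Th y) y :=
      ContinuousAt.comp (cont_act θ).continuousAt (B.md y hr).continuousAt
    exact ((ContinuousAt.comp (f := fun y => θ • B.Th y) (key _ ho a b c).2.2 c1).sub
      (WW_cont v B.m B.dY B.dZ hy.2 hr)).continuousWithinAt
  have lamx : ∀ y ∈ P, ex (lam y) = θ := by
    intro y hy
    obtain ⟨hr, l, ho⟩ := hPo y hy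
    obtain ⟨a, b, c⟩ := (hball y hy.1).1 θ hθΓ
    have k := (key _ ho a b c).2.1
    have : (θ⁻¹ * ex (lam y)) • x₀ = x₀ := by
      have e : ex (lam y) = (ex (W y))⁻¹ * ex (W (G (θ • B.Th y))) := by
        rw [← ex_neg, ← ex_add]; congr 1; simp only [hlam]; abel
      rw [orb] at k l
      rw [e, mul_smul, mul_smul, k, ← l, smul_comm θ, inv_smul_smul, inv_smul_smul]
    exact (inv_mul_eq_one.1 (free _ this)).symm
  have lamk : ∀ y ∈ P, ∀ y' ∈ P, lam y = lam y' := by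
    intro y hy y' hy'
    have sub : lam '' P ⊆ {w : C2 | ex w = θ} := by
      rintro _ ⟨z, hz, rfl⟩
      exact lamx z hz
    exact (fib_count θ).isTotallyDisconnected _ sub ((punct_conn hε).image _ lamc)
      (mem_image_of_mem _ hy) (mem_image_of_mem _ hy')
  -- a base point
  have t3 := (tube _ (hN ε hε)).and t1
  obtain ⟨q, hq, hqo⟩ := mem_closure_iff_nhds.1 (hd p) _ t3
  have hq1 := hq.1
  have hq2 := hq.2
  have oΓ : ∀ γ : C2ˣ, γ • q ∈ orbit C2ˣ x₀ := fun γ => MulAction.mem_orbit_of_mem_orbit γ hqo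
  have GP : ∀ γ ∈ Γ, G (γ • q) ∈ P := by
    intro γ hγ
    obtain ⟨a, b, c⟩ := hq2 γ hγ
    exact ⟨(hq1 γ hγ).2.2, (key _ (oΓ γ) a b c).1⟩
  have powΓ : ∀ n : ℕ, θ ^ n ∈ Γ := by
    intro n
    refine ⟨IT_pow hθ n, ?_⟩
    induction n with
    | zero => simp
    | succ n ih => rw [pow_succ, mul_smul, hp, ih]
  set l0 : C2 := lam (G (θ ^ 0 • q)) with hl0
  have step : ∀ n : ℕ, W (G (θ ^ n • q)) = W (G (θ ^ 0 • q)) + (n : ℝ) • l0 := by
    intro n
    induction n with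
    | zero => simp
    | succ n ih =>
      have e := lamk _ (GP _ (powΓ n)) _ (GP _ (powΓ 0))
      have b := (hq1 _ (powΓ n)).2.1
      rw [← hl0] at e
      simp only [hlam, b] at e
      rw [pow_succ', mul_smul, Nat.cast_succ, add_smul, one_smul, ← add_assoc, ← ih, ← e]
      abel
  have cW : ContinuousOn (fun γ : C2ˣ => W (G (γ • q))) Γ := by
    intro γ hγ
    obtain ⟨a, b, c⟩ := hq2 γ hγ
    have c1 : ContinuousAt (fun γ : C2ˣ => γ • q) γ :=
      (csm.comp (continuous_id.prodMk continuous_const)).continuousAt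
    exact (ContinuousAt.comp (f := fun γ : C2ˣ => γ • q) (key _ (oΓ γ) a b c).2.2
      c1).continuousWithinAt
  obtain ⟨C, hC⟩ := hΓc.exists_bound_of_continuousOn cW
  have hl : l0 = 0 := by
    by_contra hne
    have hpos : 0 < ‖l0‖ := norm_pos_iff.2 hne
    obtain ⟨n, hn⟩ := exists_nat_gt (2 * C / ‖l0‖)
    have h1 := hC _ (powΓ n)
    have h2 := hC _ (powΓ 0)
    have e : (n : ℝ) • l0 = W (G (θ ^ n • q)) - W (G (θ ^ 0 • q)) := by rw [step n]; abel
    have h3 : ‖(n : ℝ) • l0‖ ≤ 2 * C := by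
      rw [e]; exact (norm_sub_le _ _).trans (by linarith)
    rw [norm_smul, Real.norm_natCast] at h3
    rw [div_lt_iff₀ hpos] at hn
    linarith
  have := lamx _ (GP _ (powΓ 0))
  rw [← hl0, hl, ex_zero] at this
  exact this.symm

end Pool.Agent.P.MP_2cea5e_gt.Se
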