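import Pool.Agent.P.MP_2cea5e_gt.Se.ClsSt
import Pool.Agent.P.MP_443837_an.S0.Osg

/-!
Package C5b.
-/

open scoped ContDiff ComplexOrder Manifold Matrix Topology ComplexConjugate
open Set Metric Filter MulAction

noncomputable section

namespace Pool.Agent.P.MP_2cea5e_gt.Se

open Abs

namespace C5bP

/-- A holomorphic function vanishing on both axes is small compared with the first variable. -/
theorem small {g : ℂ × ℂ → ℂ} (hd : ∀ᶠ y in 𝓝 (0 : ℂ × ℂ), DifferentiableAt ℂ g y)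
    (h1 : ∀ᶠ r in 𝓝 (0 : ℂ), g (r, 0) = 0) (h2 : ∀ᶠ t in 𝓝 (0 : ℂ), g (0, t) = 0) :
    ∀ᶠ y in 𝓝 (0 : ℂ × ℂ), ‖g y‖ ≤ ‖y.1‖ / 2 := by
  obtain ⟨U, hU, ho, h0⟩ := _root_.eventually_nhds_iff.1 hd
  have hc : ContDiffAt ℂ 1 g 0 :=
    (CLS.S0.contDiffOn_of_diffOn ho (fun y hy => (hU y hy).differentiableWithinAt)
      (n := 1)).contDiffAt (ho.mem_nhds h0)
  have hs := hc.hasStrictFDerivAt one_ne_zero
  have hL : (fderiv ℂ g 0).comp (ContinuousLinearMap.inl ℂ ℂ ℂ) = 0 := by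
    have a : HasFDerivAt (fun r : ℂ => g (r, 0))
        ((fderiv ℂ g 0).comp (ContinuousLinearMap.inl ℂ ℂ ℂ)) 0 :=
      HasFDerivAt.comp (0 : ℂ) (g := g) (f := fun r : ℂ => ((r, 0) : ℂ × ℂ)) hs.hasFDerivAt
        (hasFDerivAt_prodMk_left (𝕜 := ℂ) (0 : ℂ) (0 : ℂ))
    have b : HasFDerivAt (fun r : ℂ => g (r, 0)) (0 : ℂ →L[ℂ] ℂ) 0 :=
      (hasFDerivAt_const (0 : ℂ) (0 : ℂ)).congr_of_eventuallyEq h1
    exact a.unique b
  have hb := hs.isLittleO.def (show (0 : ℝ) < 1 / 2 by norm_num)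
  have ht : Tendsto (fun y : ℂ × ℂ => (y, ((0, y.2) : ℂ × ℂ))) (𝓝 0) (𝓝 (0, 0)) := by
    have : Continuous fun y : ℂ × ℂ => (y, ((0, y.2) : ℂ × ℂ)) := by fun_prop
    exact this.tendsto' 0 _ rfl
  have h2' : ∀ᶠ y in 𝓝 (0 : ℂ × ℂ), g (0, y.2) = 0 :=
    (continuous_snd.tendsto' (0 : ℂ × ℂ) 0 rfl).eventually h2
  filter_upwards [ht.eventually hb, h2'] with y hy hy2
  have e : y - ((0, y.2) : ℂ × ℂ) = (y.1, 0) := by ext <;> simp
  have e2 : fderiv ℂ g 0 (y.1, 0) = 0 := by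
    have := congrArg (fun L : ℂ →L[ℂ] ℂ => L y.1) hL
    simpa using this
  simp only [e, hy2, e2, sub_zero] at hy
  have e3 : ‖((y.1, 0) : ℂ × ℂ)‖ = ‖y.1‖ := by simp [Prod.norm_def]
  rw [e3] at hy
  linarith

theorem lc_add (v : C2) (z y z' y' : ℂ) : lc v (z + z') (y + y') = lc v z y + lc v z' y' := by
  simp only [lc, add_smul]; abel

theorem cont2 : Continuous fun y : ℂ × ℂ => (![y.1, y.2] : C2) := by
  refine continuous_pi fun j => ?_
  fin_cases j <;> simp <;> fun_prop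

theorem diff0 : Differentiable ℂ fun y : ℂ × ℂ => (![0, y.2] : C2) := by
  refine differentiable_pi.2 fun j => ?_
  fin_cases j <;> simp

theorem vec0 : (![0, 0] : C2) = 0 := by
  funext j; fin_cases j <;> rfl

theorem vec_eta (w : C2) : (![w 0, w 1] : C2) = w := by
  funext j; fin_cases j <;> rfl

variable {M : Type} [TopologicalSpace M] [T2Space M] [ChartedSpace C2 M]
  [MulAction C2ˣ M] [ContMDiffSMul IC IC 1 C2ˣ M]

/-- Elements of the compact torus away from one move the points close to `p` away. -/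
theorem away (hL : StCL) {p : M} (hp : ∀ θ, IT θ → θ • p = p → θ = 1) {δ : ℝ} (hδ : 0 < δ) :
    ∀ᶠ q in 𝓝 ((p, p) : M × M), ∀ θ, IT θ → θ • q.1 = q.2 → ‖(θ : C2) - 1‖ < δ := by
  have hK : IsCompact ({θ : C2ˣ | IT θ} ∩ {θ : C2ˣ | δ ≤ ‖(θ : C2) - 1‖}) :=
    hL.cpt.inter_right (isClosed_le continuous_const (Units.continuous_val.sub continuous_const).norm)
  have hO : IsOpen {z : (M × M) × C2ˣ | z.2 • z.1.1 ≠ z.1.2} :=
    isOpen_ne_fun (cont_smul.comp (continuous_snd.prodMk (continuous_fst.comp continuous_fst)))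
      (continuous_snd.comp continuous_fst)
  have := hK.eventually_forall_of_forall_eventually (x₀ := ((p, p) : M × M))
    (P := fun q θ => θ • q.1 ≠ q.2) (fun θ hθ => hO.mem_nhds (by
      intro h
      have e := hp θ hθ.1 h
      have h2 := hθ.2
      rw [e] at h2
      simp only [mem_ofPred_eq, Units.val_one, sub_self, norm_zero] at h2
      linarith))
  filter_upwards [this] with q hq θ hθ h
  by_contra hn
  exact hq θ ⟨hθ, not_lt.1 hn⟩ h

omit [T2Space M] in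
/-- Small elements of the compact torus move the transversal off itself. -/
theorem near {x₀ p : M} {v : C2} (B : MB x₀ p v) :
    ∀ᶠ y in 𝓝 ((0, 0) : ℂ × ℂ × ℂ), elv v y.1 • B.Th ![0, y.2.1] = B.Th ![0, y.2.2] →
      y.2.1 = y.2.2 := by
  obtain ⟨G, hG1, hG2⟩ := B.li
  rw [B.zero] at hG2
  have hT0 : MDifferentiableAt IC IC B.Th 0 := hG1.self_of_nhds.1
  have hGp : G p = 0 := by have := hG1.self_of_nhds.2; rwa [B.zero] at this
  set S : ℂ × ℂ → M := fun y => ex (y.1 • v) • B.Th ![0, y.2] with hS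
  have hSd : ∀ y : ℂ × ℂ, ‖y.2‖ < B.r → MDifferentiableAt 𝓘(ℂ, ℂ × ℂ) IC S y := fun y hy => by
    refine md_smul ((diff_ex _).comp y (by fun_prop)) ?_
    exact (B.md ![0, y.2] (by simpa using hy)).comp y
      (mdifferentiableAt_iff_differentiableAt.2 (diff0 y))
  have hS1 : ∀ r : ℂ, S (r, 0) = p := fun r => by
    simp only [hS, vec0, B.zero, B.fix]
  have hS2 : ∀ t : ℂ, S (0, t) = B.Th ![0, t] := fun t => by
    simp only [hS, zero_smul, ex_zero, one_smul]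
  have hr : ∀ᶠ y in 𝓝 (0 : ℂ × ℂ), ‖y.2‖ < B.r :=
    (continuous_snd.norm.tendsto' (0 : ℂ × ℂ) 0 (by simp)).eventually (gt_mem_nhds B.pos)
  have hSc : Tendsto S (𝓝 0) (𝓝 p) := by
    have := (hSd 0 (by simpa using B.pos)).continuousAt
    rwa [ContinuousAt, show S 0 = p from hS1 0] at this
  have hd : ∀ᶠ y in 𝓝 (0 : ℂ × ℂ), DifferentiableAt ℂ (fun y => G (S y)) y := by
    filter_upwards [hr, hSc.eventually hG2] with y h1 h2
    exact mdifferentiableAt_iff_differentiableAt.1 (h2.1.comp y (hSd y h1))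
  have t0 : Tendsto (fun t : ℂ => (![0, t] : C2)) (𝓝 0) (𝓝 0) :=
    (cont2.comp (continuous_const.prodMk continuous_id)).tendsto' 0 _ vec0
  have hsm := small (g := fun y => G (S y) 0)
    (hd.mono fun y hy => differentiableAt_pi.1 hy 0)
    (Eventually.of_forall fun r => by simp only [hS1, hGp]; rfl)
    ((t0.eventually hG1).mono fun t ht => by simp only [hS2, ht.2]; rfl)
  have hΨ : Tendsto (fun y => G (S y)) (𝓝 0) (𝓝 0) := by
    have := hd.self_of_nhds.continuousAt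
    rwa [ContinuousAt, show G (S 0) = 0 by rw [show S 0 = p from hS1 0, hGp]] at this
  have c1 : Tendsto (fun y : ℂ × ℂ × ℂ => ((conj y.1, y.2.1) : ℂ × ℂ)) (𝓝 (0, 0)) (𝓝 0) := by
    have : Continuous fun y : ℂ × ℂ × ℂ => ((conj y.1, y.2.1) : ℂ × ℂ) := by fun_prop
    exact this.tendsto' _ _ (by simp)
  have c2 : Tendsto (fun y : ℂ × ℂ × ℂ => y.2.1) (𝓝 (0, 0)) (𝓝 0) :=
    (by fun_prop : Continuous fun y : ℂ × ℂ × ℂ => y.2.1).tendsto' _ _ rfl
  have c3 : Tendsto (fun y : ℂ × ℂ × ℂ => y.2.2) (𝓝 (0, 0)) (𝓝 0) :=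
    (by fun_prop : Continuous fun y : ℂ × ℂ × ℂ => y.2.2).tendsto' _ _ rfl
  have c4 : Tendsto (fun y : ℂ × ℂ × ℂ =>
      (![y.1 + G (S (conj y.1, y.2.1)) 0, G (S (conj y.1, y.2.1)) 1] : C2)) (𝓝 (0, 0)) (𝓝 0) := by
    have a0 := ((continuous_apply (0 : Fin 2)).tendsto' (0 : C2) 0 rfl).comp (hΨ.comp c1)
    have a1 := ((continuous_apply (1 : Fin 2)).tendsto' (0 : C2) 0 rfl).comp (hΨ.comp c1)
    have a2 : Tendsto (fun y : ℂ × ℂ × ℂ => y.1) (𝓝 (0, 0)) (𝓝 0) :=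
      continuous_fst.tendsto' _ _ rfl
    have a3 := a2.add a0
    rw [add_zero] at a3
    exact (cont2.tendsto' (0, 0) 0 vec0).comp (a3.prodMk_nhds a1)
  filter_upwards [c1.eventually hsm, c1.eventually (hSc.eventually hG2), c4.eventually hG1,
    (t0.comp c2).eventually hG1, (t0.comp c3).eventually hG1] with y h1 h2 h3 h4 h5 h
  set w := G (S (conj y.1, y.2.1)) with hw
  have e1 : B.Th ![y.1 + w 0, w 1] = elv v y.1 • B.Th ![0, y.2.1] := by
    have e : lc v y.1 (conj y.1) = lc v y.1 0 + conj y.1 • v := by simp [lc]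
    have e' : lc v (y.1 + w 0) 0 = lc v y.1 0 + lc v (w 0) 0 := by rw [← lc_add, add_zero]
    rw [B.act, e', ex_add, mul_smul, ← B.act, vec_eta, h2.2, elv, e, ex_add, mul_smul]
  have e2 : (![y.1 + w 0, w 1] : C2) = ![0, y.2.2] := by
    rw [← h3.2, e1, h]; exact h5.2
  have e3 : y.1 + w 0 = 0 := by simpa using congrFun e2 0
  have e4 : ‖w 0‖ = ‖y.1‖ := by rw [eq_neg_of_add_eq_zero_right e3, norm_neg]
  have e5 : y.1 = 0 := by
    have : ‖w 0‖ ≤ ‖conj y.1‖ / 2 := h1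
    rw [e4, Complex.norm_conj] at this
    exact norm_eq_zero.1 (by linarith [norm_nonneg y.1])
  have e6 : elv v y.1 = 1 := by simp [elv, e5, lc, ex_zero]
  rw [e6, one_smul] at h
  have e7 : (![0, y.2.1] : C2) = ![0, y.2.2] := by
    have a := h4.2
    have b := h5.2
    simp only [Function.comp] at a b
    rw [← a, h, b]
  simpa using congrFun e7 1

end C5bP

open C5bP

variable {M : Type} [TopologicalSpace M] [T2Space M] [CompactSpace M] [ChartedSpace C2 M]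
  [IsManifold IC 1 M] [MulAction C2ˣ M] [ContMDiffSMul IC IC 1 C2ˣ M] [FaithfulSMul C2ˣ M]

theorem c5b_ok (h0 : StC0 M) (ho : StC0o M) (hL : StCL) (h5 : StC5a M) : StC5b M := by
  intro x₀ p v B hd
  obtain ⟨C, hC⟩ := hL.onto v B.ind
  obtain ⟨ρ, hρ, hn⟩ := Metric.eventually_nhds_iff.1 (near B)
  have hδ : 0 < ρ / (|C| + 1) := by positivity
  have ha := away hL (h5 x₀ p v hd B) hδ
  have t0 : Tendsto (fun t : ℂ => B.Th ![0, t]) (𝓝 0) (𝓝 p) := by
    have a : Tendsto (fun t : ℂ => (![0, t] : C2)) (𝓝 0) (𝓝 0) :=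
      (cont2.comp (continuous_const.prodMk continuous_id)).tendsto' 0 _ vec0
    have b := (B.md 0 (by simpa using B.pos)).continuousAt
    rw [ContinuousAt, B.zero] at b
    exact b.comp a
  have t1 : Tendsto (fun y : ℂ × ℂ => (B.Th ![0, y.1], B.Th ![0, y.2])) (𝓝 (0, 0)) (𝓝 (p, p)) :=
    (t0.comp (continuous_fst.tendsto' _ _ rfl)).prodMk_nhds
      (t0.comp (continuous_snd.tendsto' _ _ rfl))
  obtain ⟨σ, hσ, hs⟩ := Metric.eventually_nhds_iff.1 (t1.eventually ha)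
  refine ⟨min B.r (min ρ σ), lt_min B.pos (lt_min hρ hσ), min_le_left _ _,
    fun t t' ht ht' h1 h2 hF => ?_⟩
  simp only [lt_min_iff] at h1 h2
  set s := B.Z t' / t' ^ (B.m - 1) - B.Z t / t ^ (B.m - 1) with hsd
  have e : elv v s • B.Th ![0, t] = B.Th ![0, t'] := by
    rw [← B.lift t ht h1.1, ← B.lift t' ht' h2.1, orb, orb, elv, ← mul_smul, ← ex_add, ← lc_add]
    congr 3
    · rw [hsd]; ring
    · rw [hsd, map_sub]
      simp only [FF] at hF
      linear_combination hF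
  have hθ := hs (y := (t, t')) (by simp [Prod.dist_eq, h1.2.2, h2.2.2]) _ (hL.inT v s) e
  obtain ⟨s₁, e1, b1⟩ := hC _ (hL.inT v s)
  have b2 : ‖s₁‖ < ρ := by
    have a1 : C * ‖(elv v s : C2) - 1‖ ≤ (|C| + 1) * ‖(elv v s : C2) - 1‖ :=
      mul_le_mul_of_nonneg_right (by linarith [le_abs_self C]) (norm_nonneg _)
    have a2 := (lt_div_iff₀' (by positivity : 0 < |C| + 1)).1 hθ
    linarith
  exact hn (y := (s₁, t, t')) (by
    simp [Prod.dist_eq, Prod.norm_def, b2, h1.2.1, h2.2.1]) (by rw [e1]; exact e)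

end Pool.Agent.P.MP_2cea5e_gt.Se
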