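import Pool.Agent.P.MP_2cea5e_gt.Se.ClsSt

/-!
Package C6.
-/

open scoped ContDiff ComplexOrder Manifold Matrix Topology ComplexConjugate
open Set Metric Filter MulAction

noncomputable section

namespace Pool.Agent.P.MP_2cea5e_gt.Se

open Abs

namespace C6P

/-- The rescaled invariant coordinate. -/
def Gc (m : ℕ) (Y Z : ℂ → ℂ) (p : ℝ × ℂ) : ℂ :=
  Y ((p.1 : ℂ) * p.2) / p.2 ^ m - (p.1 : ℂ) * conj (Z ((p.1 : ℂ) * p.2) / p.2 ^ (m - 1))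

/-- The map whose differential is invertible. -/
def Hc (m : ℕ) (Y Z : ℂ → ℂ) (p : ℝ × ℂ) : ℝ × ℂ := (p.1, Gc m Y Z p)

theorem cd_mul : ContDiff ℝ 1 fun p : ℝ × ℂ => (p.1 : ℂ) * p.2 :=
  (Complex.ofRealCLM.contDiff.comp contDiff_fst).mul contDiff_snd

theorem cd_comp {Y : ℂ → ℂ} {r : ℝ} (hr : 0 < r) (hY : DifferentiableOn ℂ Y (ball 0 r))
    (w : ℂ) : ContDiffAt ℝ 1 (fun p : ℝ × ℂ => Y ((p.1 : ℂ) * p.2)) (0, w) := by
  have h1 : ContDiffAt ℝ 1 Y 0 :=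
    ((hY.analyticAt (ball_mem_nhds 0 hr)).contDiffAt (n := 1)).restrict_scalars ℝ
  have h2 : ContDiffAt ℝ 1 Y ((fun p : ℝ × ℂ => (p.1 : ℂ) * p.2) (0, w)) := by
    simpa using h1
  exact h2.comp (0, w) cd_mul.contDiffAt

theorem cd_G {Y Z : ℂ → ℂ} {r : ℝ} (hr : 0 < r) (hY : DifferentiableOn ℂ Y (ball 0 r))
    (hZ : DifferentiableOn ℂ Z (ball 0 r)) (m : ℕ) {w : ℂ} (hw : w ≠ 0) :
    ContDiffAt ℝ 1 (Gc m Y Z) (0, w) := by
  have hp : ∀ k : ℕ, ContDiffAt ℝ 1 (fun p : ℝ × ℂ => (p.2 ^ k)⁻¹) (0, w) := fun k =>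
    (contDiff_snd.contDiffAt.pow k).inv (pow_ne_zero k hw)
  have h1 := (cd_comp hr hY w).mul (hp m)
  have h2 := (cd_comp hr hZ w).mul (hp (m - 1))
  have h3 := Complex.conjCLE.contDiff.contDiffAt.comp (0, w) h2
  have h4 : ContDiffAt ℝ 1 (fun p : ℝ × ℂ => (p.1 : ℂ)) (0, w) :=
    (Complex.ofRealCLM.contDiff.comp contDiff_fst).contDiffAt
  have h5 := h1.sub (h4.mul h3)
  refine h5.congr_of_eventuallyEq (Eventually.of_forall fun p => ?_)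
  simp [Gc, div_eq_mul_inv]

theorem map_H {Y Z : ℂ → ℂ} {r : ℝ} (hr : 0 < r) (hY : DifferentiableOn ℂ Y (ball 0 r))
    (hZ : DifferentiableOn ℂ Z (ball 0 r)) (h0 : Y 0 ≠ 0) {m : ℕ} (hm : 1 ≤ m) {w : ℂ}
    (hw : w ^ m = 1) : map (Hc m Y Z) (𝓝 (0, w)) = 𝓝 (0, Y 0) := by
  have hw0 : w ≠ 0 := by
    rintro rfl
    rw [zero_pow (by omega)] at hw
    exact zero_ne_one hw
  have hG := (cd_G hr hY hZ m hw0).hasStrictFDerivAt one_ne_zero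
  set L := fderiv ℝ (Gc m Y Z) (0, w) with hL
  have hH : HasStrictFDerivAt (Hc m Y Z) ((ContinuousLinearMap.fst ℝ ℝ ℂ).prod L) (0, w) :=
    hasStrictFDerivAt_fst.prodMk hG
  have hval : Hc m Y Z (0, w) = (0, Y 0) := by simp [Hc, Gc, hw]
  rw [← hval]
  refine hH.map_nhds_eq_of_surj ?_
  set k : ℂ := Y 0 * (-((m : ℂ) * w ^ (m - 1)) / (w ^ m) ^ 2) with hk
  have hk0 : k ≠ 0 := by
    refine mul_ne_zero h0 (div_ne_zero (neg_ne_zero.2 (mul_ne_zero ?_ (pow_ne_zero _ hw0))) ?_)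
    · exact_mod_cast (by omega : m ≠ 0)
    · rw [hw]; simp
  have hd : HasDerivAt (fun x : ℂ => Y 0 * (x ^ m)⁻¹) k w := by
    have := ((hasDerivAt_pow m w).inv (pow_ne_zero m hw0)).const_mul (Y 0)
    simpa [hk] using this
  have h1 : HasFDerivAt (fun x : ℂ => Gc m Y Z (0, x)) (L.comp (ContinuousLinearMap.inr ℝ ℝ ℂ))
      w := hG.hasFDerivAt.comp w (hasFDerivAt_prodMk_right (0 : ℝ) w)
  have h2 : (fun x : ℂ => Gc m Y Z (0, x)) = fun x : ℂ => Y 0 * (x ^ m)⁻¹ := by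
    funext x
    simp [Gc, div_eq_mul_inv]
  rw [h2] at h1
  have h3 := h1.unique (hd.hasFDerivAt.restrictScalars ℝ)
  have h4 : ∀ x : ℂ, L (0, x) = x * k := fun x => by
    have := congrArg (fun T : ℂ →L[ℝ] ℂ => T x) h3
    simpa using this
  refine LinearMap.range_eq_top.2 fun q => ⟨(q.1, (q.2 - L (q.1, 0)) / k), ?_⟩
  have h5 : L (q.1, (q.2 - L (q.1, 0)) / k) = q.2 := by
    have : ((q.1, (q.2 - L (q.1, 0)) / k) : ℝ × ℂ) = (q.1, 0) + (0, (q.2 - L (q.1, 0)) / k) := by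
      simp
    rw [this, map_add, h4]
    field_simp
    ring
  ext
  · simp
  · simpa using h5

theorem G_eq (m : ℕ) (hm : 1 ≤ m) (Y Z : ℂ → ℂ) {ρ : ℝ} (hρ : ρ ≠ 0) {x : ℂ} (hx : x ≠ 0) :
    Gc m Y Z (ρ, x) = (ρ : ℂ) ^ m * FF m Y Z ((ρ : ℂ) * x) := by
  obtain ⟨n, rfl⟩ : ∃ n, m = n + 1 := ⟨m - 1, by omega⟩
  have hρ' : (ρ : ℂ) ≠ 0 := by exact_mod_cast hρ
  have hx' : conj x ≠ 0 := by simpa using hx
  simp only [Gc, FF, Nat.add_sub_cancel, map_div₀, map_pow, map_mul, Complex.conj_ofReal, mul_pow]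
  field_simp
  ring

end C6P

open C6P

theorem c6_ok : StC6 := by
  intro m Y Z r hr hm hY hZ h0 hinj
  by_contra hne
  have hm0 : m ≠ 0 := by omega
  have hprim := Complex.isPrimitiveRoot_exp m hm0
  set w : ℂ := Complex.exp (2 * Real.pi * Complex.I / m) with hw
  have hw1 : w ≠ 1 := hprim.ne_one (by omega)
  have hwm : w ^ m = 1 := hprim.pow_eq_one
  have hw0 : w ≠ 0 := Complex.exp_ne_zero _
  obtain ⟨U, V, hU, hV, h1U, hwV, hUV⟩ := t2_separation hw1.symm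
  have key : ∀ (c : ℂ) (W : Set ℂ), c ^ m = 1 → c ≠ 0 → IsOpen W → c ∈ W →
      ∀ᶠ q in 𝓝 ((0 : ℝ), Y 0), ∃ x ∈ W, x ≠ 0 ∧ ‖(q.1 : ℂ) * x‖ < r ∧
        Gc m Y Z (q.1, x) = q.2 := by
    intro c W hc hc0 hW hcW
    have hS : {p : ℝ × ℂ | p.2 ∈ W ∧ p.2 ≠ 0 ∧ ‖(p.1 : ℂ) * p.2‖ < r} ∈ 𝓝 ((0 : ℝ), c) := by
      refine IsOpen.mem_nhds ?_ ⟨hcW, hc0, by simpa using hr⟩
      exact (hW.preimage continuous_snd).inter ((isOpen_ne.preimage continuous_snd).inter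
        (isOpen_lt cd_mul.continuous.norm continuous_const))
    have h2 := image_mem_map (m := Hc m Y Z) hS
    rw [map_H hr hY hZ h0 hm hc] at h2
    filter_upwards [h2] with q hq
    obtain ⟨p, ⟨hp1, hp2, hp3⟩, rfl⟩ := hq
    exact ⟨p.2, hp1, hp2, hp3, rfl⟩
  have hboth := (key 1 U (one_pow m) one_ne_zero hU h1U).and (key w V hwm hw0 hV hwV)
  have ht : Tendsto (fun ρ : ℝ => (ρ, Y 0)) (𝓝[≠] 0) (𝓝 ((0 : ℝ), Y 0)) :=
    (Continuous.prodMk_left (Y 0)).continuousAt.tendsto.mono_left nhdsWithin_le_nhds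
  obtain ⟨ρ, ⟨⟨x, hxU, hx0, hxr, hx⟩, ⟨x', hxV, hx0', hxr', hx'⟩⟩, hρ⟩ :=
    ((ht.eventually hboth).and self_mem_nhdsWithin).exists
  have hρ0 : ρ ≠ 0 := hρ
  have hρ' : (ρ : ℂ) ≠ 0 := by exact_mod_cast hρ0
  rw [G_eq m hm Y Z hρ0 hx0] at hx
  rw [G_eq m hm Y Z hρ0 hx0'] at hx'
  have h1 := hinj _ _ (mul_ne_zero hρ' hx0) (mul_ne_zero hρ' hx0') hxr hxr'
    (mul_left_cancel₀ (pow_ne_zero m hρ') (hx.trans hx'.symm))
  have h2 : x = x' := mul_left_cancel₀ hρ' h1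
  exact Set.disjoint_left.1 hUV hxU (h2 ▸ hxV)

end Pool.Agent.P.MP_2cea5e_gt.Se
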