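import Pool.Agent.P.MP_2cea5e_gt.Se.ClsSt

/-!
Package C7.
-/

open scoped ContDiff ComplexOrder Manifold Matrix Topology ComplexConjugate
open Set Metric Filter MulAction

noncomputable section

namespace Pool.Agent.P.MP_2cea5e_gt.Se

open Abs

variable {M : Type} [TopologicalSpace M] [T2Space M] [CompactSpace M] [ChartedSpace C2 M]
  [IsManifold IC 1 M] [MulAction C2ˣ M] [ContMDiffSMul IC IC 1 C2ˣ M] [FaithfulSMul C2ˣ M]

namespace C7P

theorem lc_add (v : C2) (a b c d : ℂ) : lc v (a + c) (b + d) = lc v a b + lc v c d := by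
  simp only [lc, add_smul]
  abel

theorem lc_zero (v : C2) (y : ℂ) : lc v 0 y = y • v := by
  simp only [lc, zero_smul, zero_add]

theorem ex_lc (v : C2) (a b c d : ℂ) :
    ex (lc v (a + c) (b + d)) = ex (lc v a b) * ex (lc v c d) := by
  rw [lc_add, ex_add]

/-- The linear coordinates as a continuous linear map. -/
def LL (v : C2) : C2 →L[ℂ] C2 :=
  (ContinuousLinearMap.proj (R := ℂ) (φ := fun _ : Fin 2 => ℂ) 0).smulRight (-star v) +
    (ContinuousLinearMap.proj (R := ℂ) (φ := fun _ : Fin 2 => ℂ) 1).smulRight v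

theorem LL_apply (v w : C2) : LL v w = lc v (w 0) (w 1) := rfl

theorem LL_inj (hL : StCL) {v : C2} (hv : Ind v) : Function.Injective (LL v) := by
  rw [injective_iff_map_eq_zero]
  intro w hw
  obtain ⟨h1, h2⟩ := hL.inj v hv _ _ hw
  funext j
  fin_cases j
  · exact h1
  · exact h2

theorem inj_of_left {H G : C2 → C2} {w : C2} (hH : DifferentiableAt ℂ H w)
    (hG : DifferentiableAt ℂ G (H w)) (e : (fun y => G (H y)) =ᶠ[𝓝 w] id) :
    Function.Injective (fderiv ℂ H w) := by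
  have h1 : fderiv ℂ (G ∘ H) w = (fderiv ℂ G (H w)).comp (fderiv ℂ H w) := fderiv_comp w hG hH
  have h2 : fderiv ℂ (G ∘ H) w = ContinuousLinearMap.id ℂ C2 := by
    rw [show fderiv ℂ (G ∘ H) w = fderiv ℂ id w from e.fderiv_eq, fderiv_id]
  intro a b hab
  have ha := congrFun (congrArg DFunLike.coe (h1.symm.trans h2)) a
  have hb := congrFun (congrArg DFunLike.coe (h1.symm.trans h2)) b
  simp only [ContinuousLinearMap.comp_apply, ContinuousLinearMap.id_apply] at ha hb
  rw [← ha, ← hb, hab]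

theorem diff_pair {f g : C2 → ℂ} {w : C2} (hf : DifferentiableAt ℂ f w)
    (hg : DifferentiableAt ℂ g w) : DifferentiableAt ℂ (fun y => (![f y, g y] : C2)) w := by
  refine differentiableAt_pi.2 fun j => ?_
  fin_cases j
  · exact hf
  · exact hg

theorem diff_inv2 {w : C2} (hw : w 1 ≠ 0) : DifferentiableAt ℂ inv2 w :=
  diff_pair (differentiableAt_apply 0 w) ((differentiableAt_apply 1 w).inv hw)

theorem inv2_inv2 (w : C2) : inv2 (inv2 w) = w := by
  funext j
  fin_cases j <;> simp [inv2]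

theorem ev_one {w : C2} (hw : w 1 ≠ 0) : ∀ᶠ y : C2 in 𝓝 w, y 1 ≠ 0 :=
  (continuous_apply 1).continuousAt.eventually_ne hw

omit [T2Space M] [CompactSpace M] [IsManifold IC 1 M] [MulAction C2ˣ M]
  [ContMDiffSMul IC IC 1 C2ˣ M] [FaithfulSMul C2ˣ M] in
theorem li_md {F : C2 → M} {w : C2} (h : LI F w) : ∀ᶠ y in 𝓝 w, MDifferentiableAt IC IC F y := by
  obtain ⟨G, h1, -⟩ := h
  exact h1.mono fun y hy => hy.1

omit [T2Space M] [CompactSpace M] [IsManifold IC 1 M]
  [ContMDiffSMul IC IC 1 C2ˣ M] [FaithfulSMul C2ˣ M] in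
theorem li_comp (h0 : StC0 M) {F : C2 → M} {H : C2 → C2} {w : C2} (hF : LI F (H w))
    (hH : ∀ᶠ y in 𝓝 w, DifferentiableAt ℂ H y) (hi : Function.Injective (fderiv ℂ H w)) :
    LI (fun y => F (H y)) w := by
  have hc : ContinuousAt H w := hH.self_of_nhds.continuousAt
  refine h0.ift _ w ?_ ?_
  · filter_upwards [hH, hc.eventually (li_md hF)] with y h1 h2
    exact h2.comp y (mdifferentiableAt_iff_differentiableAt.2 h1)
  · intro a b hab
    have hm := mdifferentiableAt_iff_differentiableAt.2 hH.self_of_nhds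
    rw [DD_comp (li_md hF).self_of_nhds hm, DD_comp (li_md hF).self_of_nhds hm, DD_eq] at hab
    exact hi ((h0.li F _ hF).2.1.1 hab)

omit [T2Space M] [CompactSpace M] [IsManifold IC 1 M]
  [ContMDiffSMul IC IC 1 C2ˣ M] [FaithfulSMul C2ˣ M] in
theorem li_congr (h0 : StC0 M) {F G : C2 → M} {w : C2} (hF : LI F w) (e : G =ᶠ[𝓝 w] F) :
    LI G w := by
  refine h0.ift _ w ?_ ?_
  · filter_upwards [li_md hF, e.eventuallyEq_nhds] with y h1 h2
    exact h1.congr_of_eventuallyEq h2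
  · rw [DD_congr e]
    exact (h0.li F _ hF).2.1.1

omit [T2Space M] [CompactSpace M] [IsManifold IC 1 M] [FaithfulSMul C2ˣ M] in
theorem li_smul (h0 : StC0 M) (g : C2ˣ) {F : C2 → M} {w : C2} (hF : LI F w) :
    LI (fun y => g • F y) w := by
  refine h0.ift _ w ?_ ?_
  · filter_upwards [li_md hF] with y h1
    exact (md_act g (F y)).comp y h1
  · intro a b hab
    have hm := (li_md hF).self_of_nhds
    rw [DD_comp (F := fun x : M => g • x) (md_act g (F w)) hm,
      DD_comp (F := fun x : M => g • x) (md_act g (F w)) hm] at hab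
    exact (h0.li F _ hF).2.1.1 (h0.inj g _ hab)

/-- The inverse of the coordinate at infinity. -/
theorem exists_sigma {Y : ℂ → ℂ} {r : ℝ} (hr : 0 < r) (hY : DifferentiableOn ℂ Y (ball 0 r))
    (h0 : Y 0 ≠ 0) : ∃ σ : ℂ → ℂ, AnalyticAt ℂ σ 0 ∧ σ 0 = 0 ∧
      ∀ᶠ η in 𝓝 (0 : ℂ), σ η / Y (σ η) = η := by
  have aY : AnalyticAt ℂ Y 0 := hY.analyticAt (ball_mem_nhds 0 hr)
  have hf : AnalyticAt ℂ (fun t : ℂ => t / Y t) 0 := analyticAt_id.div aY h0
  have hd : HasDerivAt (fun t : ℂ => t / Y t) ((1 * Y 0 - 0 * deriv Y 0) / Y 0 ^ 2) 0 :=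
    (hasDerivAt_id' (0 : ℂ)).div aY.differentiableAt.hasDerivAt h0
  have hf' : deriv (fun t : ℂ => t / Y t) 0 ≠ 0 := by
    rw [hd.deriv]
    simp [h0]
  have e0 : (0 : ℂ) / Y 0 = 0 := zero_div _
  refine ⟨hf.hasStrictDerivAt.localInverse _ _ _ hf', ?_, ?_, ?_⟩
  · have := hf.analyticAt_localInverse hf'
    rwa [e0] at this
  · have := (hf.hasStrictDerivAt.hasStrictFDerivAt_equiv hf').localInverse_apply_image
    rwa [e0] at this
  · have := hf.hasStrictDerivAt.eventually_right_inverse hf'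
    rwa [e0] at this

/-- The first chart. -/
def P0 (x₀ : M) (v : C2) (w : C2) : M := orb x₀ (lc v (w 0) (w 1))

open Classical in
/-- The second chart. -/
def P1 (x₀ p : M) (v : C2) (c : ℂ) (w : C2) : M :=
  if w 1 = 0 then ex (lc v (w 0 - c) 0) • p else P0 x₀ v (inv2 w)

omit [TopologicalSpace M] [T2Space M] [CompactSpace M] [ChartedSpace C2 M] [IsManifold IC 1 M]
  [ContMDiffSMul IC IC 1 C2ˣ M] [FaithfulSMul C2ˣ M] in
theorem P0_eqv (x₀ : M) (v : C2) (s : ℂ) (w : C2) :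
    P0 x₀ v (w + tr s) = elv v s • P0 x₀ v w := by
  have e0 : (w + tr s) 0 = s + w 0 := add_comm _ _
  have e1 : (w + tr s) 1 = conj s + w 1 := add_comm _ _
  rw [P0, P0, orb, orb, elv, e0, e1, ex_lc, mul_smul]

omit [T2Space M] [CompactSpace M] [IsManifold IC 1 M]
  [ContMDiffSMul IC IC 1 C2ˣ M] [FaithfulSMul C2ˣ M] in
theorem P0_li (h0 : StC0 M) (hL : StCL) {x₀ : M} (ho : ∀ w, LI (orb x₀) w) {v : C2} (hv : Ind v)
    (w : C2) : LI (P0 x₀ v) w := by
  refine li_comp h0 (F := orb x₀) (H := LL v) (ho _)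
    (Eventually.of_forall fun y => (LL v).differentiableAt) ?_
  rw [(LL v).fderiv]
  exact LL_inj hL hv

omit [T2Space M] [CompactSpace M] [IsManifold IC 1 M] [FaithfulSMul C2ˣ M] in
theorem P1_li (h0 : StC0 M) (hL : StCL) {x₀ p : M} (ho : ∀ w, LI (orb x₀) w) {v : C2}
    (B : MB x₀ p v) (hm : B.m = 1) (w : C2) : LI (P1 x₀ p v (B.Z 0)) w := by
  by_cases hw : w 1 = 0
  swap
  · refine li_congr h0 (li_comp h0 (F := P0 x₀ v) (H := inv2) (P0_li h0 hL ho B.ind _)
      ((ev_one hw).mono fun y hy => diff_inv2 hy) ?_) ?_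
    · refine inj_of_left (G := inv2) (diff_inv2 hw) (diff_inv2 ?_)
        (Eventually.of_forall inv2_inv2)
      exact inv_ne_zero hw
    · filter_upwards [ev_one hw] with y hy
      rw [P1, if_neg hy]
  obtain ⟨σ, aσ, σ0, hσ⟩ := exists_sigma B.pos B.dY B.Y0
  have aY : AnalyticAt ℂ B.Y 0 := B.dY.analyticAt (ball_mem_nhds 0 B.pos)
  have aZ : AnalyticAt ℂ B.Z 0 := B.dZ.analyticAt (ball_mem_nhds 0 B.pos)
  have t1 : Tendsto (fun y : C2 => y 1) (𝓝 w) (𝓝 0) := hw ▸ (continuous_apply 1).continuousAt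
  have tσ : Tendsto σ (𝓝 0) (𝓝 0) := by
    have := aσ.continuousAt.tendsto
    rwa [σ0] at this
  set s0 : ℂ := w 0 - B.Z 0 with hs0
  set K : C2 → C2 := fun y => ![y 0 - s0 - B.Z (σ (y 1)), σ (y 1)] with hK
  have K0 : K w = 0 := by
    funext j
    fin_cases j <;> simp [hK, hw, σ0, hs0]
  have dK : ∀ᶠ y in 𝓝 w, DifferentiableAt ℂ K y := by
    filter_upwards [t1.eventually aσ.eventually_analyticAt,
      (tσ.comp t1).eventually aZ.eventually_analyticAt] with y h1 h2
    have d1 : DifferentiableAt ℂ (fun y : C2 => σ (y 1)) y :=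
      h1.differentiableAt.comp y (differentiableAt_apply 1 y)
    exact diff_pair (((differentiableAt_apply 0 y).sub_const _).sub
      (h2.differentiableAt.comp y d1)) d1
  have iK : Function.Injective (fderiv ℂ K w) := by
    refine inj_of_left (G := fun y => ![y 0 + s0 + B.Z (y 1), y 1 / B.Y (y 1)])
      dK.self_of_nhds ?_ ?_
    · rw [K0]
      have dZ : DifferentiableAt ℂ (fun y : C2 => B.Z (y 1)) 0 :=
        DifferentiableAt.comp (0 : C2) (g := B.Z) aZ.differentiableAt (differentiableAt_apply 1 0)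
      have dY : DifferentiableAt ℂ (fun y : C2 => B.Y (y 1)) 0 :=
        DifferentiableAt.comp (0 : C2) (g := B.Y) aY.differentiableAt (differentiableAt_apply 1 0)
      have dI : DifferentiableAt ℂ (fun y : C2 => y 1 * (B.Y (y 1))⁻¹) 0 :=
        (differentiableAt_apply 1 0).mul (dY.inv B.Y0)
      exact diff_pair (((differentiableAt_apply 0 0).add_const _).add dZ) dI
    · filter_upwards [t1.eventually hσ] with y hy
      funext j
      fin_cases j
      · simp only [hK]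
        simp
        ring
      · simpa [hK] using hy
  have l1 : LI (fun y => ex (lc v s0 0) • B.Th (K y)) w :=
    li_smul h0 _ (li_comp h0 (F := B.Th) (H := K) (K0 ▸ B.li) dK iK)
  refine li_congr h0 l1 ?_
  have hb : ∀ᶠ t in 𝓝 (0 : ℂ), ‖t‖ < B.r := by
    filter_upwards [ball_mem_nhds (0 : ℂ) B.pos] with t ht
    simpa using ht
  filter_upwards [t1.eventually hσ, (tσ.comp t1).eventually hb] with y h1 h2
  simp only [hK]
  rw [B.act, smul_smul, ← ex_lc, add_zero]
  by_cases hy : y 1 = 0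
  · have z0 : (![0, 0] : C2) = 0 := by
      funext j
      fin_cases j <;> rfl
    rw [P1, if_pos hy, hy, σ0, z0, B.zero]
    congr 3
    ring
  · have hs : σ (y 1) ≠ 0 := by
      intro h
      rw [h, zero_div] at h1
      exact hy h1.symm
    rw [P1, if_neg hy, ← B.lift _ hs h2, hm, P0, orb, orb, smul_smul, ← ex_lc]
    have e1 : inv2 y 1 = B.Y (σ (y 1)) / σ (y 1) := by
      rw [← inv_div, h1]
      rfl
    have e0 : inv2 y 0 = y 0 := rfl
    rw [e0, e1]
    congr 3
    · simp only [Nat.sub_self, pow_zero, div_one]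
      ring
    · simp

end C7P

open C7P in
theorem c7_ok (h0 : StC0 M) (ho : StC0o M) (hL : StCL) : StC7 M := by
  intro x₀ p v B hd hm
  obtain ⟨hst, -, -, hli, horb, -⟩ := ho x₀ hd
  let Φ : Bool → C2 → M := fun b => bif b then P1 x₀ p v (B.Z 0) else P0 x₀ v
  have loc : ∀ b w, LI (Φ b) w := by
    intro b w
    cases b
    · exact P0_li h0 hL hli B.ind w
    · exact P1_li h0 hL hli B hm w
  have glue : ∀ w : C2, w 1 ≠ 0 → Φ true w = Φ false (inv2 w) := fun w hw => if_neg hw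
  have Tel : ∀ θ, IT θ → ∃ s, elv v s = θ := fun θ hθ => by
    obtain ⟨C, hC⟩ := hL.onto v B.ind
    obtain ⟨s, hs, -⟩ := hC θ hθ
    exact ⟨s, hs⟩
  have eqv : ∀ s w, Φ false (w + tr s) = elv v s • Φ false w := P0_eqv x₀ v
  refine ⟨⟨Φ, elv v, hL.inT v, Tel, eqv, ?_, glue, ?_, ?_, loc⟩⟩
  · intro w w' h
    have h1 : ex (lc v (w 0) (w 1)) • x₀ = ex (lc v (w' 0) (w' 1)) • x₀ := h
    have h2 : ex (lc v (w' 0) (w' 1)) =
        ex (lc v (w 0) (w 1)) * ex (lc v (w' 0 - w 0) (w' 1 - w 1)) := by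
      rw [← ex_lc, add_sub_cancel, add_sub_cancel]
    rw [h2, mul_smul] at h1
    have h3 := hst _ (smul_left_cancel _ h1).symm
    have h4 := hL.ker v B.ind (w' 0 - w 0) (w' 1 - w 1) (by rw [h3]; intro j; simp)
    refine ⟨w' 0 - w 0, ?_⟩
    funext j
    fin_cases j
    · simp [tr]
    · simp only [tr, ← h4]
      simp
  · intro w w' hw h
    have h1 : Φ true w = ex (lc v (w 0 - B.Z 0) 0) • p := if_pos hw
    rw [h1] at h
    refine B.nmem ⟨(ex (lc v (w 0 - B.Z 0) 0))⁻¹ * ex (lc v (w' 0) (w' 1)), ?_⟩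
    simp only [mul_smul]
    rw [inv_smul_eq_iff]
    exact h.symm
  · have hc : ∀ b, Continuous fun q : C2ˣ × ℂ => q.1 • Φ b ![0, q.2] := fun b => by
      have c1 : Continuous (Φ b) :=
        continuous_iff_continuousAt.2 fun w => (li_md (loc b w)).self_of_nhds.continuousAt
      have c2 : Continuous fun q : C2ˣ × ℂ => (![0, q.2] : C2) := by fun_prop
      exact cont_smul.comp (continuous_fst.prodMk (c1.comp c2))
    let S : Bool → Set M := fun b =>
      (fun q : C2ˣ × ℂ => q.1 • Φ b ![0, q.2]) '' ({θ | IT θ} ×ˢ closedBall 0 1)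
    have hS : ∀ b, IsClosed (S b) := fun b =>
      ((hL.cpt.prod (isCompact_closedBall 0 1)).image (hc b)).isClosed
    have hsub : orbit C2ˣ x₀ ⊆ S false ∪ S true := by
      intro x hx
      obtain ⟨u, rfl⟩ := (horb x).1 hx
      obtain ⟨z, y, rfl⟩ := hL.surj v B.ind u
      have e1 : orb x₀ (lc v z y) = elv v z • Φ false ![0, y - conj z] := by
        rw [← eqv]
        simp [Φ, P0, tr]
      rw [e1]
      by_cases hη : ‖y - conj z‖ ≤ 1
      · exact Or.inl ⟨(elv v z, y - conj z), ⟨hL.inT v z, by simpa using hη⟩, rfl⟩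
      · have h1 : 1 < ‖y - conj z‖ := not_le.1 hη
        have h2 : y - conj z ≠ 0 := norm_pos_iff.1 (one_pos.trans h1)
        refine Or.inr ⟨(elv v z, (y - conj z)⁻¹), ⟨hL.inT v z, ?_⟩, ?_⟩
        · rw [mem_closedBall_zero_iff, norm_inv]
          exact inv_le_one_of_one_le₀ h1.le
        · simp only
          rw [glue _ (inv_ne_zero h2)]
          simp [inv2]
    intro x
    have hx : x ∈ S false ∪ S true :=
      closure_minimal hsub ((hS false).union (hS true)) (hd x)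
    rcases hx with ⟨⟨θ, η⟩, ⟨hθ, -⟩, rfl⟩ | ⟨⟨θ, η⟩, ⟨hθ, -⟩, rfl⟩
    · obtain ⟨s, rfl⟩ := Tel θ hθ
      exact ⟨false, _, eqv s _⟩
    · obtain ⟨s, rfl⟩ := Tel θ hθ
      by_cases hη : η = 0
      · subst hη
        refine ⟨true, ![s, 0], ?_⟩
        have h1 : Φ true ![s, 0] = ex (lc v (s - B.Z 0) 0) • p := if_pos rfl
        have h2 : Φ true ![0, 0] = ex (lc v (0 - B.Z 0) 0) • p := if_pos rfl
        have h3 : ex (lc v 0 (conj s)) • p = p := by rw [lc_zero, B.fix]
        simp only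
        rw [h1, h2, elv, smul_smul, ← ex_lc,
          show s + (0 - B.Z 0) = s - B.Z 0 + 0 by ring, add_comm (conj s), ex_lc, mul_smul, h3]
      · refine ⟨false, inv2 ![0, η] + tr s, ?_⟩
        simp only
        rw [eqv, glue _ hη]

end Pool.Agent.P.MP_2cea5e_gt.Se
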