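import Pool.Agent.P.MP_2cea5e_gt.Se.ClsSt

/-!
Package CL.
-/

open scoped ContDiff ComplexOrder Manifold Matrix Topology ComplexConjugate
open Set Metric Filter MulAction

noncomputable section

namespace Pool.Agent.P.MP_2cea5e_gt.Se

open Abs

namespace CLP

theorem lc_ap (v : C2) (z y : ℂ) (j : Fin 2) : lc v z y j = -(z * conj (v j)) + y * v j := by
  simp [lc]

theorem it_ex (w : C2) : IT (ex w) ↔ ∀ j, (w j).re = 0 := by
  refine forall_congr' fun j => ?_
  rw [ex_val, Complex.norm_exp, Real.exp_eq_one_iff]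

/-- The determinant of the linear coordinates. -/
def dt (v : C2) : ℂ := v 0 * conj (v 1) - conj (v 0) * v 1

theorem dt_ne (v : C2) : dt v ≠ 0 ↔ Ind v := by
  have h : dt v = 2 * (v 0 * conj (v 1)).im * Complex.I := by
    have := Complex.sub_conj (v 0 * conj (v 1))
    rw [map_mul, Complex.conj_conj] at this
    rw [dt, this]; push_cast; ring
  rw [h, Ind]
  simp only [ne_eq, mul_eq_zero, Complex.I_ne_zero, or_false, OfNat.ofNat_ne_zero, false_or,
    Complex.ofReal_eq_zero]

theorem inj (v : C2) (hv : Ind v) (z y : ℂ) (h : lc v z y = 0) : z = 0 ∧ y = 0 := by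
  have h0 := congrFun h 0
  have h1 := congrFun h 1
  rw [lc_ap, Pi.zero_apply] at h0 h1
  have hd := (dt_ne v).2 hv
  constructor
  · refine (mul_eq_zero.1 (?_ : z * dt v = 0)).resolve_right hd
    rw [dt]; linear_combination v 1 * h0 - v 0 * h1
  · refine (mul_eq_zero.1 (?_ : y * dt v = 0)).resolve_right hd
    rw [dt]; linear_combination conj (v 1) * h0 - conj (v 0) * h1

theorem solve (v : C2) (hv : Ind v) (w : C2) :
    lc v ((w 0 * v 1 - w 1 * v 0) / dt v) ((conj (v 1) * w 0 - conj (v 0) * w 1) / dt v) = w := by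
  have hd := (dt_ne v).2 hv
  funext j
  rw [lc_ap]
  fin_cases j
  · simp only [Fin.zero_eta, Fin.isValue]
    field_simp
    rw [dt]; ring
  · simp only [Fin.mk_one, Fin.isValue]
    field_simp
    rw [dt]; ring

theorem re_lc (v : C2) (s : ℂ) (j : Fin 2) : (lc v s (conj s) j).re = 0 := by
  rw [lc_ap]; simp

theorem ker (v : C2) (hv : Ind v) (z y : ℂ) (h : IT (ex (lc v z y))) : y = conj z := by
  rw [it_ex] at h
  have key : lc v (-conj (y - conj z)) (y - conj z) = 0 := by
    funext j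
    have h1 := h j
    have h2 := re_lc v z j
    rw [lc_ap] at h1 h2
    have h3 : ((y - conj z) * v j).re = 0 := by
      have : (y - conj z) * v j = (-(z * conj (v j)) + y * v j) -
          (-(z * conj (v j)) + conj z * v j) := by ring
      rw [this, Complex.sub_re, h1, h2, sub_zero]
    have h4 := Complex.add_conj ((y - conj z) * v j)
    rw [h3, map_mul] at h4
    rw [lc_ap, Pi.zero_apply]
    simp only [mul_zero, Complex.ofReal_zero] at h4
    linear_combination h4
  exact sub_eq_zero.1 (inj v hv _ _ key).2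

theorem arg_le {x : ℂ} (hx : ‖x‖ = 1) : |Complex.arg x| ≤ 2 * ‖x - 1‖ := by
  have h0 : x ≠ 0 := by rintro rfl; simp at hx
  have h := Complex.angle_le_mul_norm_sub hx (norm_one (α := ℂ))
  rw [Complex.angle_one_right h0] at h
  refine h.trans (mul_le_mul_of_nonneg_right ?_ (norm_nonneg _))
  linarith [Real.pi_le_four]

theorem onto (v : C2) (hv : Ind v) :
    ∃ C : ℝ, ∀ θ, IT θ → ∃ s, elv v s = θ ∧ ‖s‖ ≤ C * ‖(θ : C2) - 1‖ := by
  refine ⟨2 * (‖v 1‖ + ‖v 0‖) / ‖dt v‖, fun θ hθ => ?_⟩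
  set w : C2 := fun j => (Complex.arg ((θ : C2) j) : ℂ) * Complex.I with hw
  have hex : ex w = θ := by
    ext j
    have := Complex.norm_mul_exp_arg_mul_I ((θ : C2) j)
    rw [hθ j] at this
    simpa [hw] using this
  have hs := solve v hv w
  have hk := ker v hv _ _ (by rw [hs, hex]; exact hθ)
  refine ⟨(w 0 * v 1 - w 1 * v 0) / dt v, by rw [elv, ← hk, hs, hex], ?_⟩
  have hn : ∀ j, ‖w j‖ ≤ 2 * ‖(θ : C2) - 1‖ := fun j => by
    have h1 : ‖w j‖ = |Complex.arg ((θ : C2) j)| := by simp [hw]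
    have h2 : ‖(θ : C2) j - 1‖ ≤ ‖(θ : C2) - 1‖ := norm_le_pi_norm ((θ : C2) - 1) j
    rw [h1]
    linarith [arg_le (hθ j)]
  have hd : 0 < ‖dt v‖ := norm_pos_iff.2 ((dt_ne v).2 hv)
  rw [norm_div, div_mul_eq_mul_div]
  refine div_le_div_of_nonneg_right ?_ hd.le
  calc ‖w 0 * v 1 - w 1 * v 0‖ ≤ ‖w 0‖ * ‖v 1‖ + ‖w 1‖ * ‖v 0‖ := by
        simpa only [norm_mul] using norm_sub_le (w 0 * v 1) (w 1 * v 0)
    _ ≤ 2 * ‖(θ : C2) - 1‖ * ‖v 1‖ + 2 * ‖(θ : C2) - 1‖ * ‖v 0‖ :=
        add_le_add (mul_le_mul_of_nonneg_right (hn 0) (norm_nonneg _))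
          (mul_le_mul_of_nonneg_right (hn 1) (norm_nonneg _))
    _ = _ := by ring

theorem ind (v : C2) (h : ∀ z y, lc v z y = 0 → z = 0 ∧ y = 0) : Ind v := by
  rw [← dt_ne]
  intro hd
  rw [dt] at hd
  have h0 : v 0 = 0 := (h (v 0) (conj (v 0)) (by
    funext j
    rw [lc_ap, Pi.zero_apply]
    fin_cases j
    · simp only [Fin.zero_eta, Fin.isValue]; ring
    · simp only [Fin.mk_one, Fin.isValue]; linear_combination -hd)).1
  have h1 : v 1 = 0 := (h (v 1) (conj (v 1)) (by
    funext j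
    rw [lc_ap, Pi.zero_apply]
    fin_cases j
    · simp only [Fin.zero_eta, Fin.isValue]; linear_combination hd
    · simp only [Fin.mk_one, Fin.isValue]; ring)).1
  have := (h 1 0 (by
    funext j
    rw [lc_ap, Pi.zero_apply]
    fin_cases j
    · simp [h0]
    · simp [h1])).1
  exact one_ne_zero this

theorem real (v : C2) (l : ℂ) (hv : v ≠ 0) (h : star v = l • v) :
    ∃ (ξ : Fin 2 → ℝ) (μ : ℂ), ξ ≠ 0 ∧ cx ξ = μ • v := by
  have hj : ∀ j, conj (v j) = l * v j := fun j => by
    simpa using congrFun h j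
  by_cases hr : (fun j => (v j).re) = 0
  · refine ⟨fun j => (v j).im, (1 - l) / (2 * Complex.I), fun hi => hv ?_, ?_⟩
    · funext j
      exact Complex.ext (congrFun hr j) (congrFun hi j)
    · funext j
      simp only [cx, Pi.smul_apply, smul_eq_mul]
      rw [Complex.im_eq_sub_conj, hj]
      ring
  · refine ⟨fun j => (v j).re, (1 + l) / 2, hr, ?_⟩
    funext j
    simp only [cx, Pi.smul_apply, smul_eq_mul]
    rw [Complex.re_eq_add_conj, hj]
    ring

theorem cpt : IsCompact {θ : C2ˣ | IT θ} := by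
  rw [Units.isOpenEmbedding_val.isInducing.isCompact_iff]
  have : (Units.val '' {θ : C2ˣ | IT θ}) = Set.pi univ fun _ : Fin 2 => sphere (0 : ℂ) 1 := by
    ext w
    simp only [mem_image, mem_ofPred_eq, Set.mem_pi, mem_univ, forall_true_left,
      mem_sphere_iff_norm, sub_zero]
    constructor
    · rintro ⟨θ, hθ, rfl⟩; exact hθ
    · intro hw
      have h0 : ∀ j, w j ≠ 0 := fun j e => by simpa [e] using hw j
      exact ⟨un w, fun j => by rw [un_val h0]; exact hw j, un_val h0⟩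
  rw [this]
  exact isCompact_univ_pi fun _ => isCompact_sphere _ _

end CLP

theorem cl_ok : StCL where
  inT v s := (CLP.it_ex _).2 (CLP.re_lc v s)
  add v s s' := by
    rw [elv, elv, elv, ← ex_add]
    congr 1
    funext j
    simp only [CLP.lc_ap, Pi.add_apply, map_add]
    ring
  onto := CLP.onto
  ker := CLP.ker
  surj v hv w := ⟨_, _, CLP.solve v hv w⟩
  inj := CLP.inj
  ind := CLP.ind
  real := CLP.real
  cpt := CLP.cpt

end Pool.Agent.P.MP_2cea5e_gt.Se
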