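import Pool.Agent.P.MP_2cea5e_gt.Se.Mod

/-!
Package E1.
-/

open scoped ContDiff ComplexOrder Matrix Topology ComplexConjugate
open MeasureTheory Set Filter

noncomputable section

namespace Pool.Agent.P.MP_2cea5e_gt.Se

open II III

namespace E1P

theorem cont_de (a b : Bool) : Continuous fun q : ℂ × C2 => de a b q.1 q.2 := by
  have h : Continuous fun q : ℂ × C2 => conj q.1 := Complex.continuous_conj.comp continuous_fst
  cases a <;> cases b <;> simp only [de, hN, hD, cond_true, cond_false] <;> fun_prop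

theorem cont_nu (a b : Bool) : Continuous fun q : ℂ × C2 => nu a b q.1 q.2 := by
  have h : Continuous fun q : ℂ × C2 => conj q.1 := Complex.continuous_conj.comp continuous_fst
  cases a <;> cases b <;> simp only [nu, hN, hD, cond_true, cond_false] <;> fun_prop

theorem de_ne {a b : Bool} {s : ℂ} {w : C2} (h : ‖nu a b s w‖ ≤ ‖de a b s w‖) :
    de a b s w ≠ 0 := by
  intro e
  rw [e, norm_zero, norm_le_zero_iff] at h
  cases a <;> cases b <;> simp only [nu, de, hN, hD, cond_true, cond_false] at h e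
  · exact one_ne_zero e
  · rw [e] at h
    simp at h
  · exact one_ne_zero h
  · rw [h] at e
    simp at e

theorem slice_le {u : Fn} (hu : SmC u) (n : ℕ) (s : ℂ) (z : C2) :
    ‖iteratedFDeriv ℝ n u z‖ ≤ ‖iteratedFDeriv ℝ n (fun q : ℂ × C2 => u q.2) (s, z)‖ := by
  have e : iteratedFDeriv ℝ n (fun q : ℂ × C2 => u q.2) (s, z) =
      (iteratedFDeriv ℝ n u z).compContinuousLinearMap fun _ => ContinuousLinearMap.snd ℝ ℂ C2 :=
    (ContinuousLinearMap.snd ℝ ℂ C2).iteratedFDeriv_comp_right hu (s, z)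
      (by exact_mod_cast le_top)
  refine ContinuousMultilinearMap.opNorm_le_bound (norm_nonneg _) fun m => ?_
  have := (iteratedFDeriv ℝ n (fun q : ℂ × C2 => u q.2) (s, z)).le_opNorm
    fun i => ((0 : ℂ), m i)
  rw [e] at this ⊢
  simpa [Prod.norm_def] using this

/-- Bounds of derivatives pass from the base points to all points. -/
theorem ga_comp (h0 : StGa) (a b : Bool) (R B : ℝ) (n : ℕ) : ∃ C : ℝ, ∀ u : Bool → Fn, SGl u →
    ∀ z : C2, ‖z‖ ≤ R → ‖nu a b (-z 0) z‖ ≤ ‖de a b (-z 0) z‖ →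
      (∀ i ≤ n, ‖iteratedFDeriv ℝ i (u a) (Ga a b (-z 0) z)‖ ≤ B) →
      ‖iteratedFDeriv ℝ n (u b) z‖ ≤ C := by
  set U : Set (ℂ × C2) := {q | de a b q.1 q.2 ≠ 0} with hU
  have oU : IsOpen U := isOpen_ne_fun (cont_de a b) continuous_const
  have cj : Continuous fun z : C2 => ((-z 0, z) : ℂ × C2) := by fun_prop
  set K : Set C2 := Metric.closedBall 0 R ∩ {z | ‖nu a b (-z 0) z‖ ≤ ‖de a b (-z 0) z‖} with hK
  have cK : IsCompact K := (isCompact_closedBall _ _).inter_right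
    (isClosed_le ((cont_nu a b).comp cj).norm ((cont_de a b).comp cj).norm)
  have bd : ∀ i : ℕ, ∃ D : ℝ, ∀ z ∈ K,
      ‖iteratedFDeriv ℝ i (fun q : ℂ × C2 => Ga a b q.1 q.2) (-z 0, z)‖ ≤ D := fun i =>
    cK.exists_bound_of_continuousOn
      (f := fun z : C2 => iteratedFDeriv ℝ i (fun q : ℂ × C2 => Ga a b q.1 q.2) (-z 0, z))
      fun z hz => (ContinuousAt.comp (f := fun z : C2 => ((-z 0, z) : ℂ × C2))
        (((h0.smG a b).contDiffAt (oU.mem_nhds (x := (-z 0, z))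
          (de_ne (s := -z 0) (w := z) hz.2))).continuousAt_iteratedFDeriv
          (by exact_mod_cast le_top)) cj.continuousAt).continuousWithinAt
  choose D hD using bd
  have s0 : 0 ≤ ∑ i ∈ Finset.range (n + 1), |D i| := Finset.sum_nonneg fun _ _ => abs_nonneg _
  refine ⟨n.factorial * B * (1 + ∑ i ∈ Finset.range (n + 1), |D i|) ^ n,
    fun u hu z h1 h2 hB => (slice_le (hu.sm b) n (-z 0) z).trans ?_⟩
  have hz : ((-z 0, z) : ℂ × C2) ∈ U := de_ne h2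
  have hzK : z ∈ K := ⟨by simpa using h1, h2⟩
  have ee : (fun q : ℂ × C2 => u b q.2) =ᶠ[𝓝 (-z 0, z)]
      u a ∘ fun q : ℂ × C2 => Ga a b q.1 q.2 := by
    filter_upwards [oU.mem_nhds hz] with q hq
    exact (h0.gl u hu a b q.1 q.2 hq).symm
  rw [(ee.iteratedFDeriv ℝ n).eq_of_nhds, ← iteratedFDerivWithin_of_isOpen n oU hz]
  refine norm_iteratedFDerivWithin_comp_le (N := ∞) (t := univ) (hu.sm a).contDiffOn
    (h0.smG a b) (by exact_mod_cast le_top) uniqueDiffOn_univ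
    oU.uniqueDiffOn (mapsTo_univ _ _) hz (fun i hi => ?_) fun i i1 i2 => ?_
  · rw [iteratedFDerivWithin_univ]
    exact hB i hi
  · rw [iteratedFDerivWithin_of_isOpen i oU hz]
    have h3 : |D i| ≤ ∑ i ∈ Finset.range (n + 1), |D i| :=
      Finset.single_le_sum (f := fun i => |D i|) (fun _ _ => abs_nonneg _)
        (Finset.mem_range.2 (by omega))
    refine le_trans ?_ (le_self_pow₀ (by linarith) (by omega))
    linarith [hD i z hzK, le_abs_self (D i)]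

theorem late (h0 : StGa) (h4 : StPos) (h : StOscS) {c e κ T : ℝ} {f : Bool → Fn}
    {φ : ℝ → Bool → Fn} (hK : SKp c e f) (hκ : 0 < κ) (hT : 0 < T) (hF : IsFlS f κ T φ) :
    ∃ τ : ℝ, 0 < τ ∧ τ < T ∧ ∀ b (R : ℝ),
    (∀ k : ℕ, ∃ C : ℝ, ∀ t ∈ Ico (T - τ) T, ∀ z : C2, ‖z‖ ≤ R →
      ‖iteratedFDeriv ℝ k (φ t b) z‖ ≤ C) ∧
    ∃ β : ℝ, 0 < β ∧ ∀ t ∈ Ico (T - τ) T, ∀ z : C2, ‖z‖ ≤ R → β ≤ vol (f b + φ t b) z := by
  obtain ⟨δ, hδ, hG⟩ := gain_ok
  obtain ⟨τ, ρ, Λ, hτ, hρ, hτρ, hO⟩ := h c e f κ T φ hK hκ hT hF δ hδ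
  choose Cg hCg using hG κ ρ Λ hκ hρ
  have hBi : ∀ i : ℕ, ∃ B : ℝ, ∀ σ y, ‖y‖ ≤ 1 → ‖iteratedFDeriv ℝ i (f σ) y‖ ≤ B := fun i =>
    late_bd (fun σ y => ‖iteratedFDeriv ℝ i (f σ) y‖) (fun σ =>
      ((hK.sm σ).continuous_iteratedFDeriv (by exact_mod_cast le_top)).norm) 1
  choose Bf hBf using hBi
  have hI : ∀ t ∈ Ico (T - τ) T, t ∈ Ioo 0 T := fun t ht => ⟨by linarith [ht.1], ht.2⟩
  have key : ∀ t ∈ Ico (T - τ) T, ∀ a (η : ℂ), ‖η‖ ≤ 1 →
      (∀ i, ‖iteratedFDeriv ℝ i (φ t a) ![0, η]‖ ≤ Cg i + Bf i) ∧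
      1 ≤ Λ ^ 2 * vol (f a + φ t a) ![0, η] := by
    intro t ht a η hη
    obtain ⟨h5, h6⟩ := hO t ht a η hη
    have hs := (hF.gl t (hI t ht)).sm a
    refine ⟨fun i => ?_, vol_low (II.sm_add (hK.sm a) hs) fun v => (h5 v).1⟩
    have h7 : ‖iteratedFDeriv ℝ i (f a + φ t a) ![0, η]‖ ≤ Cg i := by
      refine hCg i (fun s => f a + φ s a) (Ioo 0 T) 0 t ![0, η] isOpen_Ioo
        (fun s hs => ⟨by linarith [hs.1, ht.1], lt_of_le_of_lt hs.2 ht.2⟩) ?_
        (fun s hs y => hF.pos s hs a y) (fun s hs y => ?_) h5 h6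
      · exact (((hK.sm a).comp contDiff_snd).contDiffOn).add (hF.smooth a)
      · rw [sub_zero]
        exact (hF.flow s hs a y).const_add (f a y)
    have hle : ((i : ℕ) : WithTop ℕ∞) ≤ ∞ := by exact_mod_cast le_top
    rw [iteratedFDeriv_add_apply ((hK.sm a).of_le hle).contDiffAt (hs.of_le hle).contDiffAt] at h7
    have h8 := norm_sub_le (iteratedFDeriv ℝ i (f a) ![0, η] +
      iteratedFDeriv ℝ i (φ t a) ![0, η]) (iteratedFDeriv ℝ i (f a) ![0, η])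
    rw [add_sub_cancel_left] at h8
    have h9 : ‖(![0, η] : C2)‖ ≤ 1 := (pi_norm_le_iff_of_nonneg zero_le_one).2 fun j => by
      fin_cases j
      · simp
      · simpa using hη
    linarith [hBf i a _ h9]
  refine ⟨τ, hτ, by linarith, fun b R => ⟨fun k => ?_, ?_⟩⟩
  · choose C hC using fun a => ga_comp h0 a b R (∑ i ∈ Finset.range (k + 1), |Cg i + Bf i|) k
    obtain ⟨M, hM⟩ := (Set.finite_range C).bddAbove
    refine ⟨M, fun t ht z hR => ?_⟩
    obtain ⟨a, -, h2, η, hη, h3⟩ := h0.base b z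
    refine (hC a (φ t) (hF.gl t (hI t ht)) z hR h2 fun i hi => ?_).trans (hM ⟨a, rfl⟩)
    rw [h3]
    exact (((key t ht a η hη).1 i).trans (le_abs_self _)).trans
      (Finset.single_le_sum (f := fun i => |Cg i + Bf i|) (fun _ _ => abs_nonneg _)
        (Finset.mem_range.2 (Nat.lt_succ_of_le hi)))
  · have cj : Continuous fun z : C2 => ((-z 0, z) : ℂ × C2) := by fun_prop
    obtain ⟨M, hM⟩ := late_bd (fun a z => ‖de a b (-z 0) z‖ ^ 4)
      (fun a => ((cont_de a b).comp cj).norm.pow 4) R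
    have hd : 0 < Λ ^ 2 * |M| + 1 := by positivity
    refine ⟨1 / (Λ ^ 2 * |M| + 1), by positivity, fun t ht z hR => ?_⟩
    obtain ⟨a, h1, -, η, hη, h3⟩ := h0.base b z
    have hg := hF.gl t (hI t ht)
    have e1 : vol (f b + φ t b) z * ‖de a b (-z 0) z‖ ^ 4 = vol (f a + φ t a) ![0, η] := by
      rw [← h3]
      exact h4.vol c e _ (h0.add c e f (φ t) hK.toSPt hg) a b (-z 0) z h1
    have e2 : 0 < vol (f b + φ t b) z :=
      Adm.vol_pos ⟨II.sm_add (hK.sm b) (hg.sm b), hF.pos t (hI t ht) b⟩ _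
    have e3 := (key t ht a η hη).2
    have e4 : ‖de a b (-z 0) z‖ ^ 4 ≤ |M| := (hM a z hR).trans (le_abs_self M)
    rw [← e1] at e3
    rw [div_le_iff₀ hd]
    have e5 := mul_le_mul_of_nonneg_left (mul_le_mul_of_nonneg_left e4 e2.le) (sq_nonneg Λ)
    nlinarith

end E1P

theorem boundS_ok (h0 : StGa) (h4 : StPos) (h : StOscS) : StBoundS := by
  intro c e f κ T φ hK hκ hT hF σ R
  obtain ⟨τ, hτ, hτT, hl⟩ := E1P.late h0 h4 h hK hκ hT hF
  obtain ⟨hl1, b₁, hb₁, hl2⟩ := hl σ R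
  have hc : Cl (Ioo 0 T) fun t => φ t σ := cl_of_contDiffOn isOpen_Ioo.uniqueDiffOn (hF.smooth σ)
  have hS : Icc (T / 2) (T - τ) ⊆ Ioo 0 T := fun t ht => ⟨by linarith [ht.1], by linarith [ht.2]⟩
  have hI : ∀ t ∈ Ico (T / 2) T, t ∈ Ioo 0 T := fun t ht => ⟨by linarith [ht.1], ht.2⟩
  constructor
  · intro k
    obtain ⟨C₁, hC₁⟩ := hl1 k
    obtain ⟨C₂, -, hC₂⟩ := (jc_ns k (cl_mono hc hS)).bound isCompact_Icc R
    refine ⟨max C₁ (4 ^ k * (1 + C₂)), fun t ht z hz => ?_⟩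
    have hs := hc.sm t (hI t ht)
    rcases le_total t (T - τ) with h | h
    · refine le_trans (norm_ifd_le hs fun l hl => ?_) (le_max_right _ _)
      have e1 := sq_le_ns l (φ t σ) z
      rw [hl] at e1
      have e2 := e1.trans ((le_abs_self _).trans (hC₂ t ⟨ht.1, h⟩ z hz))
      nlinarith [sq_abs (pdl l (φ t σ) z), sq_nonneg (|pdl l (φ t σ) z| - 1),
        sq_nonneg (pdl l (φ t σ) z)]
    · exact (hC₁ t ⟨h, ht.2⟩ z hz).trans (le_max_left _ _)
  · have hc' : Cl (Icc (T / 2) (T - τ)) fun t => f σ + φ t σ :=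
      cl_add (cl_const (hK.sm σ)) (cl_mono hc hS)
    have had : ∀ t ∈ Ioo 0 T, Adm (f σ + φ t σ) := fun t ht =>
      ⟨II.sm_add (hK.sm σ) (hc.sm t ht), hF.pos t ht σ⟩
    obtain ⟨C₂, hC0, hC₂⟩ := (cl_jc ((Jet.iv 0 0).cl hc'
      fun t ht => hF.pos t (hS ht) σ)).bound isCompact_Icc R
    refine ⟨min b₁ (C₂ + 1)⁻¹, lt_min hb₁ (by positivity), fun t ht z hz => ?_⟩
    have ha := had t (hI t ht)
    rcases le_total t (T - τ) with h | h
    · refine le_trans (min_le_right _ _) (inv_le_of_inv_le₀ (ha.vol_pos z) ?_)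
      have := (le_abs_self _).trans (hC₂ t ⟨ht.1, h⟩ z hz)
      linarith
    · exact (min_le_left _ _).trans (hl2 t ⟨h, ht.2⟩ z hz)

end Pool.Agent.P.MP_2cea5e_gt.Se
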