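import Pool.Agent.P.MP_2cea5e_gt.Se.Mod

/-!
Package E2.
-/

open scoped ContDiff ComplexOrder Matrix Topology ComplexConjugate
open MeasureTheory Set Filter

noncomputable section

namespace Pool.Agent.P.MP_2cea5e_gt.Se

open II III

namespace E2P

theorem fl_of_sol {f : Bool → Fn} {κ T : ℝ} {φ : ℝ → Bool → Fn}
    (h : IsSolS f κ (Ico 0 T) φ) : IsFlS f κ T φ where
  smooth b := (h.smooth b).mono (prod_mono Ioo_subset_Ico_self le_rfl)
  gl t ht := h.gl t (Ioo_subset_Ico_self ht)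
  pos t ht := h.pos t (Ioo_subset_Ico_self ht)
  flow t ht b z := (h.flow t (Ioo_subset_Ico_self ht) b z).hasDerivAt (Ico_mem_nhds ht.1 ht.2)

theorem sgl_add {u v : Bool → Fn} (hu : SGl u) (hv : SGl v) : SGl fun b => u b + v b where
  sm b := (hu.sm b).add (hv.sm b)
  inv s w := by simp only [Pi.add_apply]; rw [hu.inv, hv.inv]
  glue w hw := by simp only [Pi.add_apply]; rw [hu.glue w hw, hv.glue w hw]

/-- The limit at the final time. -/
theorem lim (h2 : StBoundS) {c e : ℝ} {f : Bool → Fn} {κ T : ℝ} {φ : ℝ → Bool → Fn}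
    (hK : SKp c e f) (hκ : 0 < κ) (hT : 0 < T) (hs : IsSolS f κ (Ico 0 T) φ) :
    ∃ χ : Bool → Fn, (∀ b, Cl (Icc 0 T) fun t => if t < T then φ t b else χ b) ∧ SGl χ ∧
      ∀ b z, (hess (f b + χ b) z).PosDef := by
  have hfl := fl_of_sol hs
  have hb := h2 c e f κ T φ hK hκ hT hfl
  have hex : ∀ σ, ∃ G : C2 → ℝ, Cl (Icc 0 T) fun t => if t < T then φ t σ else G := fun σ =>
    lim_chart (F := fun t => φ t σ) (κ := κ) (c := 0) hT (hK.sm σ)
      (cl_of_contDiffOn (uniqueDiffOn_Ico 0 T) (hs.smooth σ)) (fun t ht => hs.pos t ht σ)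
      (fun t ht z => by simpa only [sub_zero] using hfl.flow t ht σ z) (hb σ)
  choose χ hχ using hex
  have hTT : ∀ σ, (if T < T then φ T σ else χ σ) = χ σ := fun σ => if_neg (lt_irrefl T)
  refine ⟨χ, hχ, ⟨fun σ => ?_, fun s w => ?_, fun w hw => ?_⟩, fun σ z => ?_⟩
  · simpa only [hTT] using (hχ σ).sm T (right_mem_Icc.2 hT.le)
  · have := eq_at_end hT ((cl_jc (hχ false)).time (w + tr s)) ((cl_jc (hχ false)).time w)
      fun t ht => by
        simp only [if_pos ht.2]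
        exact (hs.gl t ht).inv s w
    simpa only [hTT] using this
  · have := eq_at_end hT ((cl_jc (hχ true)).time w) ((cl_jc (hχ false)).time (inv2 w))
      fun t ht => by
        simp only [if_pos ht.2]
        exact (hs.gl t ht).glue w hw
    simpa only [hTT] using this
  · have hf : Cl (Icc 0 T) fun t => f σ + if t < T then φ t σ else χ σ :=
      cl_add (cl_const (hK.sm σ)) (hχ σ)
    have hsm : SmC (f σ + χ σ) := by
      simpa only [hTT] using hf.sm T (right_mem_Icc.2 hT.le)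
    have hE : ∀ a, ContinuousOn (fun t => Ee a (f σ + if t < T then φ t σ else χ σ) z)
        (Icc 0 T) := fun a => (cl_jc (cl_Ee a hf)).time z
    have hV : ContinuousOn (fun t => vol (f σ + if t < T then φ t σ else χ σ) z) (Icc 0 T) :=
      ((((hE 0).mul (hE 1)).sub ((hE 2).mul (hE 2))).sub ((hE 3).mul (hE 3))).congr
        fun t ht => by simp only [vol_eq (hf.sm t ht), Pi.sub_apply, Pi.mul_apply]
    obtain ⟨b, hb0, hv⟩ := (hb σ ‖z‖).2
    have hsub : Icc (T / 2) T ⊆ Icc 0 T := Icc_subset_Icc (by linarith) le_rfl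
    have h1 := le_at_end (g := fun _ => b) (by linarith : T / 2 < T) continuousOn_const
      (hV.mono hsub) fun t ht => by
        simp only [if_pos ht.2]
        exact hv t ht z le_rfl
    have h2 := le_at_end (g := fun _ => 0) hT continuousOn_const (hE 0) fun t ht => by
      have h3 := hf.sm t (Ico_subset_Icc_self ht)
      simp only [if_pos ht.2] at h3 ⊢
      exact ((posDef_iff h3 z).1 (hs.pos t ht σ z)).1.le
    simp only [hTT] at h1 h2
    refine (posDef_iff hsm z).2 ⟨lt_of_le_of_ne h2 fun h0 => ?_, hb0.trans_le h1⟩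
    rw [vol_eq hsm] at h1
    simp only [← h0] at h1
    nlinarith [mul_self_nonneg (Ee 2 (f σ + χ σ) z), mul_self_nonneg (Ee 3 (f σ + χ σ) z)]

/-- A solution on a finite interval extends to a longer one. -/
theorem ext (h0 : StGa) (h1 : StShortS) (h2 : StBoundS) {c e : ℝ} {f : Bool → Fn} {κ T : ℝ}
    {φ : ℝ → Bool → Fn} (hK : SKp c e f) (hκ : 0 < κ) (hT : 0 < T)
    (hS : IsSolS f κ (Ico 0 T) φ) :
    ∃ T' : ℝ, T < T' ∧ ∃ φ', IsSolS f κ (Ico 0 T') φ' ∧ ∀ t ∈ Ico 0 T, φ' t = φ t := by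
  obtain ⟨χ, hcl, hgl, hpos⟩ := lim h2 hK hκ hT hS
  have hχ : ∀ σ, SmC (χ σ) := hgl.sm
  have hK' : SKp c e fun b => f b + χ b := ⟨h0.add c e f χ hK.toSPt hgl, hK.cpos, hpos⟩
  obtain ⟨τ, hτ, φ', hS'⟩ := h1 c e _ κ hK' hκ
  set Φ : ℝ → Bool → Fn := fun t σ => if t < T then φ t σ else χ σ + φ' (t - T) σ with hΦ
  have e1 : ∀ t, t < T → ∀ σ, Φ t σ = φ t σ := fun t ht σ => by simp [hΦ, ht]
  have e2 : ∀ t, T ≤ t → ∀ σ, Φ t σ = χ σ + φ' (t - T) σ := fun t ht σ => by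
    simp [hΦ, not_lt.2 ht]
  have hsub : ∀ t, t ∈ Ico 0 (T + τ) → T ≤ t → t - T ∈ Ico 0 τ := fun t ht h =>
    ⟨by linarith, by linarith [ht.2]⟩
  have hun : Icc 0 T ∪ Ico T (T + τ) = Ico 0 (T + τ) :=
    Icc_union_Ico_eq_Ico hT.le (by linarith)
  have hCl : ∀ σ, Cl (Ico 0 (T + τ)) fun t => Φ t σ := fun σ => by
    rw [← hun]
    refine cl_union (cl_congr (hcl σ) fun t ht => ?_) ?_ (fun t ht hc => ?_) fun t ht hc => ?_
    · by_cases h : t < T
      · simp [hΦ, h]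
      · have : t = T := le_antisymm ht.2 (not_lt.1 h)
        subst this
        funext z
        simp [hΦ, hS'.init]
    · have a1 : Cl (Ico 0 τ) fun t => φ' t σ :=
        cl_of_contDiffOn (uniqueDiffOn_Ico 0 τ) (hS'.smooth σ)
      have a2 : Cl (Ico T (T + τ)) fun t => φ' (t - T) σ :=
        cl_comp_time (θ := fun t => t - T) a1 (by fun_prop)
          fun t ht => ⟨by linarith [ht.1], by linarith [ht.2]⟩
      exact cl_congr (cl_add (cl_const (hχ σ)) a2) fun t ht => e2 t ht.1 σ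
    · rwa [closure_Icc] at hc
    · rw [closure_Ico (by linarith)] at hc
      exact ⟨hc.1, by linarith [ht.2]⟩
  have hp : ∀ t ∈ Ico 0 (T + τ), ∀ σ z, (hess (f σ + Φ t σ) z).PosDef := fun t ht σ z => by
    by_cases h : t < T
    · rw [e1 t h]
      exact hS.pos t ⟨ht.1, h⟩ σ z
    · rw [e2 t (not_lt.1 h), ← add_assoc]
      exact hS'.pos _ (hsub t ht (not_lt.1 h)) σ z
  have key : ∀ σ, ContDiffOn ℝ ∞ (fun q : ℝ × C2 => (f σ + Φ q.1 σ) q.2) (Ico 0 (T + τ) ×ˢ univ) ∧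
      ∀ t ∈ Ico 0 (T + τ), ∀ z, HasDerivWithinAt (fun s => (f σ + Φ s σ) z)
        (κ * scal (f σ + Φ t σ) z - 0) (Ico 0 (T + τ)) t := fun σ => by
    refine js_ok (fun t => f σ + Φ t σ) 0 (T + τ) T κ 0 (by linarith)
      (cl_add (cl_const (hK.sm σ)) (hCl σ)) (fun t ht z => hp t ht σ z) fun t ht hne z => ?_
    rw [sub_zero]
    rcases lt_or_gt_of_ne hne with h | h
    · have a1 := (hS.flow t ⟨ht.1.le, h⟩ σ z).hasDerivAt (Ico_mem_nhds ht.1 h)
      rw [e1 t h]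
      refine (a1.const_add (f σ z)).congr_of_eventuallyEq ?_
      filter_upwards [Iio_mem_nhds h] with s hs
      rw [e1 s hs]
      rfl
    · have h4 := hsub t ⟨ht.1.le, ht.2⟩ h.le
      have a1 := (hS'.flow _ h4 σ z).hasDerivAt (Ico_mem_nhds (by linarith) h4.2)
      have a2 := a1.comp_sub_const t T
      rw [e2 t h.le, ← add_assoc]
      refine (a2.const_add (f σ z + χ σ z)).congr_of_eventuallyEq ?_
      filter_upwards [Ioi_mem_nhds h] with s hs
      rw [e2 s (le_of_lt hs), ← add_assoc]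
      rfl
  refine ⟨T + τ, by linarith, Φ, ⟨fun σ => ?_, fun σ z => ?_, fun t ht => ?_,
    hp, fun t ht σ z => ?_⟩, fun t ht => funext fun σ => e1 t ht.2 σ⟩
  · have a1 : ContDiffOn ℝ ∞ (fun q : ℝ × C2 => f σ q.2) (Ico 0 (T + τ) ×ˢ univ) :=
      ((hK.sm σ).comp contDiff_snd).contDiffOn
    exact ((key σ).1.sub a1).congr fun q _ => by simp
  · rw [e1 0 hT]
    exact hS.init σ z
  · by_cases h : t < T
    · rw [show Φ t = φ t from funext (e1 t h)]
      exact hS.gl t ⟨ht.1, h⟩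
    · rw [show Φ t = fun σ => χ σ + φ' (t - T) σ from funext (e2 t (not_lt.1 h))]
      exact sgl_add hgl (hS'.gl _ (hsub t ht (not_lt.1 h)))
  · have a1 := ((key σ).2 t ht z).sub_const (f σ z)
    rw [sub_zero] at a1
    refine a1.congr (fun s _ => by simp) (by simp)

/-- Being a solution is a local property in time. -/
theorem sol_of_local {f : Bool → Fn} {κ : ℝ}
    {U : Set ℝ} {Φ : ℝ → Bool → Fn} (hU : ∀ t ∈ U, 0 ≤ t) (h0 : (0 : ℝ) ∈ U)
    (h : ∀ t ∈ U, ∃ S φ, ZGood S ∧ IsSolS f κ S φ ∧ t ∈ S ∧ ∀ s ∈ S, Φ s = φ s) :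
    IsSolS f κ U Φ := by
  refine ⟨fun σ q hq => ?_, fun σ z => ?_, fun t ht => ?_,
    fun t ht σ z => ?_, fun t ht σ z => ?_⟩
  · obtain ⟨S, φ, hS, hφ, ht, he⟩ := h q.1 hq.1
    have h1 : ContDiffWithinAt ℝ ∞ (fun q : ℝ × C2 => Φ q.1 σ q.2) (S ×ˢ univ) q :=
      (hφ.smooth σ q ⟨ht, mem_univ _⟩).congr (fun y hy => by simp only [he y.1 hy.1])
        (by simp only [he q.1 ht])
    refine h1.mono_of_mem_nhdsWithin ?_
    rw [show q = (q.1, q.2) from rfl, nhdsWithin_prod_eq]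
    exact prod_mem_prod (hS.nhds hU ht) univ_mem
  · obtain ⟨S, φ, -, hφ, ht, he⟩ := h 0 h0
    rw [he 0 ht, hφ.init]
  · obtain ⟨S, φ, -, hφ, hs, he⟩ := h t ht
    rw [he t hs]; exact hφ.gl t hs
  · obtain ⟨S, φ, -, hφ, hs, he⟩ := h t ht
    rw [he t hs]; exact hφ.pos t hs σ z
  · obtain ⟨S, φ, hS, hφ, hs, he⟩ := h t ht
    rw [he t hs]
    exact ((hφ.flow t hs σ z).congr (fun s hs' => by simp only [he s hs'])
      (by simp only [he t hs])).mono_of_mem_nhdsWithin (hS.nhds hU hs)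

end E2P

open E2P in
theorem longS_ok (h0 : StGa) (h1 : StShortS) (h2 : StBoundS) : StLongS := by
  classical
  intro c e f κ hK hκ
  obtain ⟨τ, hτ, φ₀, hφ₀⟩ := h1 c e f κ hK hκ
  let X := {p : Set ℝ × (ℝ → Bool → Fn) // ZGood p.1 ∧ IsSolS f κ p.1 p.2}
  have : Nonempty X := ⟨⟨(Ico 0 τ, φ₀), zgood_Ico hτ, hφ₀⟩⟩
  let r : X → X → Prop := fun p q => p.1.1 ⊆ q.1.1 ∧ ∀ t ∈ p.1.1, q.1.2 t = p.1.2 t
  obtain ⟨⟨⟨S, φ⟩, hS, hφ⟩, hmax⟩ := exists_maximal_of_nonempty_chains_bounded (r := r)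
    (fun C hC hne => by
      let U : Set ℝ := {t | ∃ p ∈ C, t ∈ p.1.1}
      let Φ : ℝ → Bool → Fn := fun t => if h : t ∈ U then h.choose.1.2 t else 0
      have hΦ : ∀ p ∈ C, ∀ t ∈ p.1.1, Φ t = p.1.2 t := fun p hp t ht => by
        have hU : t ∈ U := ⟨p, hp, ht⟩
        simp only [Φ, dif_pos hU]
        obtain ⟨h3, h4⟩ := hU.choose_spec
        by_cases he : hU.choose = p
        · rw [he]
        · rcases hC h3 hp he with h | h
          · exact (h.2 t h4).symm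
          · exact h.2 t ht
      obtain ⟨p₀, hp₀⟩ := hne
      have hU : ZGood U := by
        refine ⟨?_, ⟨p₀, hp₀, p₀.2.1.zero⟩, ?_, ?_⟩
        · rintro t ⟨p, -, ht⟩
          exact p.2.1.nn t ht
        · rintro t ⟨p, hp, ht⟩
          obtain ⟨t', ht', hlt⟩ := p.2.1.up t ht
          exact ⟨t', ⟨p, hp, ht'⟩, hlt⟩
        · rintro t ⟨p, hp, ht⟩ s h0 hs
          exact ⟨p, hp, p.2.1.down t ht s h0 hs⟩
      refine ⟨⟨(U, Φ), hU, sol_of_local hU.nn hU.zero ?_⟩, fun p hp =>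
        ⟨fun t ht => ⟨p, hp, ht⟩, hΦ p hp⟩⟩
      rintro t ⟨p, hp, ht⟩
      exact ⟨p.1.1, p.1.2, p.2.1, p.2.2, ht, hΦ p hp⟩)
    (fun h h' => ⟨h.1.trans h'.1, fun t ht => (h'.2 t (h.1 ht)).trans (h.2 t ht)⟩)
  by_cases hb : BddAbove S
  · exfalso
    have hlt : ∀ t ∈ S, t < sSup S := fun t ht => by
      obtain ⟨t', ht', h⟩ := hS.up t ht
      exact h.trans_le (le_csSup hb ht')
    have e' : S = Ico 0 (sSup S) := by
      refine Subset.antisymm (fun t ht => ⟨hS.nn t ht, hlt t ht⟩) fun t ht => ?_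
      obtain ⟨s, hs, h⟩ := exists_lt_of_lt_csSup ⟨0, hS.zero⟩ ht.2
      exact hS.down s hs t ht.1 h.le
    have hT : 0 < sSup S := hlt 0 hS.zero
    obtain ⟨T', hT', φ', hφ', he⟩ := ext h0 h1 h2 (T := sSup S) (φ := φ) hK hκ hT (e' ▸ hφ)
    have h3 := (hmax ⟨(Ico 0 T', φ'), zgood_Ico (hT.trans hT'), hφ'⟩
      ⟨fun t ht => ⟨hS.nn t ht, (hlt t ht).trans hT'⟩, fun t ht => he t (e' ▸ ht)⟩).1
    exact lt_irrefl _ (hlt _ (h3 (show sSup S ∈ Ico 0 T' from ⟨hT.le, hT'⟩)))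
  · have e' : S = Ici 0 := by
      refine Subset.antisymm hS.nn fun t ht => ?_
      obtain ⟨s, hs, h⟩ := not_bddAbove_iff.1 hb t
      exact hS.down s hs t ht h.le
    exact ⟨φ, e' ▸ hφ⟩

end Pool.Agent.P.MP_2cea5e_gt.Se
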