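import Pool.Agent.P.MP_2cea5e_gt.Se.Mod
import Pool.Agent.P.MP_2cea5e_gt.IV.TH
import Pool.Agent.P.MP_2cea5e_gt.IV.Final

/-!
Package E3.
-/

open scoped ContDiff ComplexOrder Matrix Topology ComplexConjugate
open MeasureTheory Set Filter

noncomputable section

namespace Pool.Agent.P.MP_2cea5e_gt.Se

open II III

namespace E3P

theorem d_add {f g : C2 → ℝ} (hf : ContDiff ℝ ∞ f) (hg : ContDiff ℝ ∞ g) (v : C2) :
    Hess.d v (f + g) = Hess.d v f + Hess.d v g := by
  funext z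
  have := ((Hess.hfd hf z).add (Hess.hfd hg z)).fderiv
  show fderiv ℝ (f + g) z v = fderiv ℝ f z v + fderiv ℝ g z v
  rw [this]; rfl

theorem hess_add {f g : C2 → ℝ} (hf : ContDiff ℝ ∞ f) (hg : ContDiff ℝ ∞ g) (z : C2) :
    hess (f + g) z = hess f z + hess g z := by
  have hs : ContDiff ℝ ∞ (f + g) := hf.add hg
  ext j k
  rw [Matrix.add_apply, Hess.hess_eq hs, Hess.hess_eq hf, Hess.hess_eq hg]
  simp only [d_add hf hg, d_add (Hess.sm_d _ hf) (Hess.sm_d _ hg), Pi.add_apply]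
  push_cast
  ring

end E3P

open E3P in
theorem finS_ok (h0 : StGa) (h1 : StLongS) (h2 : StPotS) : StFinS := by
  intro g₀ κ hg hκ
  obtain ⟨c, e, f, hf, hfg⟩ := h2 g₀ hg
  obtain ⟨φ, hφ⟩ := h1 c e f κ hf hκ
  have H := fun b => IV.th_ok (fun t => φ t b) (fun t z => κ * scal (f b + φ t b) z - 0)
    (hφ.smooth b) fun t ht z => by simpa only [sub_zero] using hφ.flow t ht b z
  have e1 : ∀ t, 0 ≤ t → ∀ b, (fun w => g₀ b w + hess (φ t b) w) = hess (f b + φ t b) :=
    fun t ht b => funext fun w => by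
      rw [hess_add (hf.sm b) ((hφ.gl t ht).sm b), hfg]
  refine ⟨φ, funext fun b => funext (hφ.init b), fun t ht => ⟨hφ.gl t ht, ?_⟩,
    fun b j k => ((H b).2 j k).1, fun t ht b z j k => ?_⟩
  · have := h0.sm c e (fun b => f b + φ t b)
      ⟨h0.add c e f (φ t) hf.toSPt (hφ.gl t ht), hf.cpos, hφ.pos t ht⟩
    rwa [← funext (e1 t ht)] at this
  · have := ((H b).2 j k).2 t ht z
    rw [IV.hess_smul] at this
    rw [e1 t ht b]
    exact this

end Pool.Agent.P.MP_2cea5e_gt.Se
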