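import Pool.Agent.P.MP_2cea5e_gt.Se.Api

/-!
Package GNS: the inequalities of Gagliardo, Nirenberg and Ladyzhenskaya on the plane.
-/

open scoped ContDiff Topology ENNReal
open MeasureTheory Set Filter

noncomputable section

namespace Pool.Agent.P.MP_2cea5e_gt.Se

namespace GNSP

variable {f g v w : Fx} {s : ℝ}

/-- A function on the line that decays is bounded by the integral of its derivative. -/
theorem line {h h' : ℝ → ℝ} {C C' : ℝ} (hd : ∀ t, HasDerivAt h (h' t) t) (hc : Continuous h')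
    (b : ∀ t, |h t| ≤ C * (1 + t ^ 2)⁻¹) (b' : ∀ t, |h' t| ≤ C' * (1 + t ^ 2)⁻¹) (x : ℝ) :
    |h x| ≤ ∫ t, |h' t| := by
  have hi : Integrable h' :=
    (integrable_inv_one_add_sq.const_mul C').mono' hc.aestronglyMeasurable (ae_of_all _ b')
  have t0 : Tendsto (fun t : ℝ => C * (1 + t ^ 2)⁻¹) atBot (𝓝 0) := by
    have h1 : Tendsto (fun t : ℝ => 1 + t ^ 2) atBot atTop :=
      tendsto_atTop_add_const_left _ _ ((tendsto_pow_atTop two_ne_zero).comp tendsto_abs_atBot_atTop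
        |>.congr fun t => by simp)
    simpa using h1.inv_tendsto_atTop.const_mul C
  have t1 : Tendsto h atBot (𝓝 0) := squeeze_zero_norm b t0
  have e := integral_Iic_of_hasDerivAt_of_tendsto' (a := x) (fun t _ => hd t) hi.integrableOn t1
  rw [sub_zero] at e
  rw [← e]
  exact abs_integral_le_integral_abs.trans
    (setIntegral_le_integral hi.abs (ae_of_all _ fun t => abs_nonneg _))

theorem decay (hf : Sy (-2) f) (s : ℝ) : ∃ C : ℝ, ∀ x y : ℝ,
    |f (s, x, y)| ≤ C * (1 + x ^ 2)⁻¹ ∧ |f (s, x, y)| ≤ C * (1 + y ^ 2)⁻¹ := by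
  obtain ⟨C, hC⟩ := hf.oo |s|
  refine ⟨|C|, fun x y => ?_⟩
  have h1 := hC (s, x, y) le_rfl
  have e : jb (s, x, y) ^ (-2 : ℤ) = (1 + (x ^ 2 + y ^ 2))⁻¹ := by
    rw [zpow_neg, zpow_ofNat, jb_sq, rr_apply, r2_apply]
  rw [e] at h1
  have h2 := h1.trans (mul_le_mul_of_nonneg_right (le_abs_self C) (by positivity))
  constructor
  · exact h2.trans (mul_le_mul_of_nonneg_left
      (inv_anti₀ (by positivity) (by nlinarith [sq_nonneg y])) (abs_nonneg C))
  · exact h2.trans (mul_le_mul_of_nonneg_left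
      (inv_anti₀ (by positivity) (by nlinarith [sq_nonneg x])) (abs_nonneg C))

theorem pt1 (hf : Sy (-2) f) (s x y : ℝ) : |f (s, x, y)| ≤ ∫ t, |D e1 f (s, t, y)| := by
  obtain ⟨C, hC⟩ := decay hf s
  obtain ⟨C', hC'⟩ := decay (hf.D1.mono (by norm_num)) s
  refine line (h := fun t => f (s, t, y)) (fun t => ?_)
    ((sm_D e1 hf.sm).cont.comp (by fun_prop)) (fun t => (hC t y).1) (fun t => (hC' t y).1) x
  simpa [e1] using hasDerivAt_line hf.sm (s, 0, y) e1 t

theorem pt2 (hf : Sy (-2) f) (s x y : ℝ) : |f (s, x, y)| ≤ ∫ t, |D e2 f (s, x, t)| := by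
  obtain ⟨C, hC⟩ := decay hf s
  obtain ⟨C', hC'⟩ := decay (hf.D2.mono (by norm_num)) s
  refine line (h := fun t => f (s, x, t)) (fun t => ?_)
    ((sm_D e2 hf.sm).cont.comp (by fun_prop)) (fun t => (hC x t).2) (fun t => (hC' x t).2) y
  simpa [e2] using hasDerivAt_line hf.sm (s, x, 0) e2 t

theorem gns (hf : Sy (-2) f) (s : ℝ) :
    In (f * f) s ≤ In (Ab (D e1 f)) s * In (Ab (D e2 f)) s := by
  have i1 : Integrable (fun x : ℝ × ℝ => |D e1 f (s, x)|) (volume.prod volume) :=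
    (hf.D1.ig (by norm_num)).ab s
  have i2 : Integrable (fun x : ℝ × ℝ => |D e2 f (s, x)|) (volume.prod volume) :=
    (hf.D2.ig (by norm_num)).ab s
  have e1' : In (Ab (D e1 f)) s = ∫ y, ∫ t, |D e1 f (s, t, y)| := integral_prod_symm _ i1
  have e2' : In (Ab (D e2 f)) s = ∫ x, ∫ t, |D e2 f (s, x, t)| := integral_prod _ i2
  refine le_of_le_of_eq ?_ (mul_comm _ _)
  rw [e1', e2', ← integral_prod_mul]
  refine integral_mono (((hf.mul hf).ig (by norm_num)) s)
    (i2.integral_prod_left.mul_prod i1.integral_prod_right) fun z => ?_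
  have a := pt1 hf s z.1 z.2
  have b := pt2 hf s z.1 z.2
  have := mul_le_mul b a (abs_nonneg _) ((abs_nonneg _).trans b)
  rw [abs_mul_abs_self] at this
  exact this

/-- The inequality combined with the Cauchy-Schwarz inequality. -/
theorem gen (hf : Sy (-2) f) (hv : Sy (-2) v) (hw : Ig w) (w0 : ∀ x, 0 ≤ w (s, x))
    (h1 : ∀ x, D e1 f (s, x) ^ 2 ≤ w (s, x) * D e1 v (s, x) ^ 2)
    (h2 : ∀ x, D e2 f (s, x) ^ 2 ≤ w (s, x) * D e2 v (s, x) ^ 2) :
    2 * In (f * f) s ≤ In w s * In (gr v) s := by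
  have i1 : Ig (D e1 v * D e1 v) := (hv.D1.mul hv.D1).ig (by norm_num)
  have i2 : Ig (D e2 v * D e2 v) := (hv.D2.mul hv.D2).ig (by norm_num)
  have n1 : ∀ x, 0 ≤ (D e1 v * D e1 v) (s, x) := fun x => mul_self_nonneg _
  have n2 : ∀ x, 0 ≤ (D e2 v * D e2 v) (s, x) := fun x => mul_self_nonneg _
  have c1 := In_cs (f := Ab (D e1 f)) hw i1 w0 n1 fun x => by
    rw [Ab_apply, sq_abs, Pi.mul_apply, ← sq]; exact h1 x
  have c2 := In_cs (f := Ab (D e2 f)) hw i2 w0 n2 fun x => by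
    rw [Ab_apply, sq_abs, Pi.mul_apply, ← sq]; exact h2 x
  have e : In (gr v) s = In (D e1 v * D e1 v) s + In (D e2 v * D e2 v) s := In_add i1 i2 s
  have a := Real.sq_sqrt (In_nonneg n1)
  have b := Real.sq_sqrt (In_nonneg n2)
  have c := Real.sq_sqrt (In_nonneg w0)
  have d := (gns hf s).trans ((le_abs_self _).trans_eq (abs_mul _ _))
  have d' := d.trans (mul_le_mul c1 c2 (abs_nonneg _) (by positivity))
  rw [e, ← a, ← b, ← c]
  nlinarith [mul_nonneg (sq_nonneg √(In w s))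
    (sq_nonneg (√(In (D e1 v * D e1 v) s) - √(In (D e2 v * D e2 v) s)))]

theorem lady (hg : Sy (-2) g) (s : ℝ) :
    In (g * g * (g * g)) s ≤ 2 * In (g * g) s * In (gr g) s := by
  have key : ∀ u x, D u (g * g) (s, x) ^ 2 ≤ (K 4 * (g * g)) (s, x) * D u g (s, x) ^ 2 := by
    intro u x
    rw [D_mul u hg.sm hg.sm]
    simp only [Pi.add_apply, Pi.mul_apply, K_apply]
    exact le_of_eq (by ring)
  have := gen (s := s) (hg.mul' hg (by norm_num)) hg (((hg.mul hg).ig (by norm_num)).Kmul 4)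
    (fun x => mul_nonneg (by simp) (mul_self_nonneg _)) (key e1) (key e2)
  rw [In_Kmul] at this
  linarith

theorem eight (hv : Sy (-2) v) (s : ℝ) :
    In (v * v * (v * v) * (v * v * (v * v))) s ≤
      64 * In (gr v) s ^ 2 * In (v * v * (v * v)) s := by
  have s2 : Sy (-2) (v * v) := hv.mul' hv (by norm_num)
  have s4 : Sy (-2) (v * v * (v * v)) := s2.mul' s2 (by norm_num)
  have i4 : Ig (v * v * (v * v)) := (s2.mul s2).ig (by norm_num)
  have i6 : Ig (v * v * (v * v) * (v * v)) := (s4.mul s2).ig (by norm_num)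
  have i8 : Ig (v * v * (v * v) * (v * v * (v * v))) := (s4.mul s4).ig (by norm_num)
  have n4 : ∀ x, 0 ≤ (v * v * (v * v)) (s, x) := fun x => mul_self_nonneg _
  have n8 : ∀ x, 0 ≤ (v * v * (v * v) * (v * v * (v * v))) (s, x) := fun x => mul_self_nonneg _
  have key : ∀ u x, D u (v * v * (v * v)) (s, x) ^ 2 ≤
      (K 16 * (v * v * (v * v) * (v * v))) (s, x) * D u v (s, x) ^ 2 := by
    intro u x
    rw [D_mul u s2.sm s2.sm, D_mul u hv.sm hv.sm]
    simp only [Pi.add_apply, Pi.mul_apply, K_apply]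
    exact le_of_eq (by ring)
  have h1 := gen (s := s) s4 hv (i6.Kmul 16)
    (fun x => mul_nonneg (by simp) (mul_nonneg (n4 x) (mul_self_nonneg _))) (key e1) (key e2)
  rw [In_Kmul] at h1
  have h2 := (le_abs_self _).trans (In_cs (f := v * v * (v * v) * (v * v)) i4 i8 n4 n8 fun x => by
    simp only [Pi.mul_apply]; exact le_of_eq (by ring))
  have g0 : 0 ≤ In (gr v) s := In_nonneg fun x => gr_nonneg _ _
  have a := Real.sq_sqrt (In_nonneg n4)
  have b := Real.sq_sqrt (In_nonneg n8)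
  have h3 := mul_le_mul_of_nonneg_right h2 g0
  rw [← a]
  nlinarith [sq_nonneg (√(In (v * v * (v * v) * (v * v * (v * v))) s) -
    8 * In (gr v) s * √(In (v * v * (v * v)) s))]

/-- Functions supported in a fixed ball. -/
theorem two (hv : Sy (-2) v) {R : ℝ} (h : ∀ u x, R ≤ ‖x‖ → D u v (s, x) = 0) :
    2 * In (v * v) s ≤ (1 + 2 * R ^ 2) ^ 2 * s0 * In (gr v) s := by
  have key : ∀ u x, D u v (s, x) ^ 2 ≤ (K ((1 + 2 * R ^ 2) ^ 2) * sg) (s, x) * D u v (s, x) ^ 2 := by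
    intro u x
    by_cases hx : R ≤ ‖x‖
    · simp [h u x hx]
    · refine le_mul_of_one_le_left (sq_nonneg _) ?_
      have h1 := r2_le (s, x)
      have h2 : ‖x‖ ^ 2 ≤ R ^ 2 := pow_le_pow_left₀ (norm_nonneg _) (not_le.1 hx).le 2
      have h3 := rr_pos (s, x)
      have h4 : rr (s, x) ≤ 1 + 2 * R ^ 2 := by rw [rr_apply]; simp only at h1; linarith
      rw [Pi.mul_apply, K_apply, sg_apply, ← div_eq_mul_inv, one_le_div (by positivity)]
      exact pow_le_pow_left₀ h3.le h4 2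
  have := gen (s := s) hv hv ((sy_sg.ig (by norm_num)).Kmul _)
    (fun x => mul_nonneg (sq_nonneg _) (sg_pos _).le) (key e1) (key e2)
  rwa [In_Kmul, In_sg] at this

/-- A cut-off function. -/
theorem cut (ρ : ℝ) : ∃ (η : Fx) (R : ℝ), 0 ≤ R ∧ Sm η ∧ D e0 η = 0 ∧ (∀ p, 0 ≤ η p ∧ η p ≤ 1) ∧
    (∀ p : X, ‖p.2‖ ≤ ρ → η p = 1) ∧ ∀ p : X, R ≤ ‖p.2‖ → η p = 0 := by
  have hs : Sm (K (2 * ρ ^ 2 + 1) - r2) := sm_sub (sm_K _) sm_r2
  refine ⟨Real.smoothTransition ∘ (K (2 * ρ ^ 2 + 1) - r2), 2 * ρ ^ 2 + 1, by positivity,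
    Real.smoothTransition.contDiff.comp hs, ?_,
    fun p => ⟨Real.smoothTransition.nonneg _, Real.smoothTransition.le_one _⟩, fun p hp => ?_,
    fun p hp => ?_⟩
  · rw [D_comp e0 hs Real.smoothTransition.contDiff, D_sub e0 (sm_K _) sm_r2, D_K, D0_r2]
    simp
  · refine Real.smoothTransition.one_of_one_le ?_
    have h1 := r2_le p
    have h2 : ‖p.2‖ ^ 2 ≤ ρ ^ 2 := pow_le_pow_left₀ (norm_nonneg _) hp 2
    simp only [Pi.sub_apply, K_apply]
    linarith
  · refine Real.smoothTransition.zero_of_nonpos ?_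
    have h1 := norm_sq_le p
    simp only [Pi.sub_apply, K_apply]
    nlinarith [sq_nonneg ρ]

theorem l8 {F : Fx} (hF : Sm F) (hG : Ilb (gr F))
    (hb : ∃ C : ℝ, ∀ p : X, 0 ≤ p.1 → 1 ≤ ‖p.2‖ → |F p| ≤ C) :
    Ilb (F * F * (F * F) * (F * F * (F * F))) := by
  intro ρ
  obtain ⟨C, hC⟩ := hb
  obtain ⟨η, R, R0, sη, d0, b01, one, zero⟩ := cut (max ρ 1)
  have D1 : ∀ u p, η p = 1 → D u η p = 0 := fun u p hp => by
    have : IsLocalMax η p := Eventually.of_forall fun q => hp ▸ (b01 q).2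
    simp [D, this.fderiv_eq_zero]
  have D0 : ∀ u p, η p = 0 → D u η p = 0 := fun u p hp => by
    have : IsLocalMin η p := Eventually.of_forall fun q => hp ▸ (b01 q).1
    simp [D, this.fderiv_eq_zero]
  obtain ⟨B, hB⟩ := lb_const (sm_gr sη) (by
    unfold gr; rw [D0_ip2 sη sη, d0]; simp [ip2, D_zero]) R
  obtain ⟨A, hA⟩ := hG R
  have hv : Sy (-2) (η * F) := (Cs2.mul ⟨sη, fun _ => ⟨R, fun p _ hp => zero p hp⟩⟩ hF).sy _
  have dv : ∀ u p, D u (η * F) p = D u η p * F p + η p * D u F p := fun u p => by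
    rw [D_mul u sη hF]; rfl
  have out : ∀ s u x, R ≤ ‖x‖ → D u (η * F) (s, x) = 0 := fun s u x hx => by
    rw [dv, D0 u _ (zero (s, x) hx), zero (s, x) hx]; ring
  have lG : Loc (gr F) := loc_of_cont (sm_gr hF).cont
  have lK : Loc (K (2 * (C ^ 2 * |B|))) := loc_of_cont (sm_K _).cont
  have G1 : ∀ s, 0 ≤ s → In (gr (η * F)) s ≤ 2 * (C ^ 2 * |B|) * (4 * R ^ 2) + 2 * A := by
    intro s hs
    have e : Ib (gr (η * F)) s 0 R = In (gr (η * F)) s :=
      setIntegral_eq_integral_of_forall_compl_eq_zero fun x hx => by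
        have hx' : R ≤ ‖x‖ := by simpa using hx
        rw [gr_apply, out s _ x hx', out s _ x hx']; ring
    have h1 := Ib_mono (s := s) (x := 0) (r := R) (loc_of_cont (sm_gr hv.sm).cont)
      (lK.add (lG.Kmul 2)) fun y hy _ => by
        have hy' : ‖y‖ ≤ R := (mem_ball_zero_iff.1 hy).le
        have h2 : F (s, y) ^ 2 * gr η (s, y) ≤ C ^ 2 * |B| := by
          by_cases h1 : 1 ≤ ‖y‖
          · exact mul_le_mul (sq_le_sq' (abs_le.1 (hC (s, y) hs h1)).1 (abs_le.1 (hC (s, y) hs h1)).2)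
              ((le_abs_self _).trans ((hB (s, y) hs hy').trans (le_abs_self B))) (gr_nonneg _ _)
              (sq_nonneg _)
          · have h3 := one (s, y) ((not_le.1 h1).le.trans (le_max_right _ _))
            rw [gr_apply, D1 _ _ h3, D1 _ _ h3]
            simp only [ne_eq, OfNat.ofNat_ne_zero, not_false_eq_true, zero_pow, add_zero, mul_zero]
            positivity
        have h3 : η (s, y) ^ 2 * gr F (s, y) ≤ gr F (s, y) :=
          mul_le_of_le_one_left (gr_nonneg _ _) (pow_le_one₀ (b01 _).1 (b01 _).2)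
        simp only [Pi.add_apply, Pi.mul_apply, K_apply, gr_apply, dv] at h2 h3 ⊢
        nlinarith [sq_nonneg (D e1 η (s, y) * F (s, y) - η (s, y) * D e1 F (s, y)),
          sq_nonneg (D e2 η (s, y) * F (s, y) - η (s, y) * D e2 F (s, y))]
    rw [e, Ib_add lK (lG.Kmul 2), Ib_K _ _ _ R0, Ib_Kmul] at h1
    have := hA s hs
    linarith
  generalize 2 * (C ^ 2 * |B|) * (4 * R ^ 2) + 2 * A = G at G1
  refine ⟨64 * G ^ 2 * ((1 + 2 * R ^ 2) ^ 2 * s0 * G * G), fun s hs => ?_⟩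
  have s2 : Sy (-2) (η * F * (η * F)) := hv.mul' hv (by norm_num)
  have s4 : Sy (-2) (η * F * (η * F) * (η * F * (η * F))) := s2.mul' s2 (by norm_num)
  have i8 := (s4.mul s4).ig (by norm_num)
  have f2 := sm_mul hF hF
  have f4 := sm_mul f2 f2
  have h1 := Ib_mono (s := s) (x := 0) (r := ρ) (loc_of_cont (sm_mul f4 f4).cont) i8.loc
    fun y hy _ => by
      have := one (s, y) ((mem_ball_zero_iff.1 hy).le.trans (le_max_left _ _))
      simp only [Pi.mul_apply, this, one_mul, le_refl]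
  have h2 := Ib_le_In i8 (s := s) (fun y => mul_self_nonneg _) 0 ρ
  refine h1.trans (h2.trans ((eight hv s).trans ?_))
  have g0 : 0 ≤ In (gr (η * F)) s := In_nonneg fun x => gr_nonneg _ _
  have g1 := G1 s hs
  have h3 := lady hv s
  have h4 := mul_le_mul_of_nonneg_right (two hv (out s)) g0
  have c0 : 0 ≤ (1 + 2 * R ^ 2) ^ 2 * s0 := mul_nonneg (sq_nonneg _) s0_pos.le
  have h5 := mul_le_mul (mul_le_mul_of_nonneg_left g1 c0) g1 g0 (mul_nonneg c0 (g0.trans g1))
  exact mul_le_mul (mul_le_mul_of_nonneg_left (pow_le_pow_left₀ g0 g1 2) (by norm_num))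
    (by linarith) (In_nonneg fun x => mul_self_nonneg _) (by positivity)

end GNSP

theorem gns_ok : StGNS :=
  ⟨fun _ s hf => GNSP.gns hf s, fun _ s hg => GNSP.lady hg s, fun _ hF hG hb => GNSP.l8 hF hG hb⟩

end Pool.Agent.P.MP_2cea5e_gt.Se
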