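import Pool.Agent.P.MP_2cea5e_gt.Se.Api

/-!
Package Grow.
-/

open scoped ContDiff Topology ENNReal
open MeasureTheory Set Filter

noncomputable section

namespace Pool.Agent.P.MP_2cea5e_gt.Se

namespace GrowP

/-- Comparison of increments. -/
theorem abs_sub_le {f g f' g' : ℝ → ℝ} {a b : ℝ} (hab : a ≤ b)
    (hf : ∀ r ∈ Icc a b, HasDerivAt f (f' r) r) (hg : ∀ r ∈ Icc a b, HasDerivAt g (g' r) r)
    (h : ∀ r ∈ Ioo a b, |f' r| ≤ g' r) : |f b - f a| ≤ g b - g a := by
  have key : ∀ σ : ℝ, |σ| ≤ 1 → σ * (f b - f a) ≤ g b - g a := by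
    intro σ hσ
    have hd : ∀ r ∈ Icc a b, HasDerivAt (fun r => g r - σ * f r) (g' r - σ * f' r) r :=
      fun r hr => (hg r hr).sub ((hf r hr).const_mul σ)
    have hm : MonotoneOn (fun r => g r - σ * f r) (Icc a b) := by
      refine monotoneOn_of_deriv_nonneg (convex_Icc a b)
        (fun r hr => (hd r hr).continuousAt.continuousWithinAt) (fun r hr => ?_) (fun r hr => ?_)
      · exact (hd r (interior_subset hr)).differentiableAt.differentiableWithinAt
      · rw [(hd r (interior_subset hr)).deriv]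
        rw [interior_Icc] at hr
        have h1 := h r hr
        have h2 : σ * f' r ≤ |σ| * |f' r| := by rw [← abs_mul]; exact le_abs_self _
        have h3 : |σ| * |f' r| ≤ 1 * |f' r| := mul_le_mul_of_nonneg_right hσ (abs_nonneg _)
        linarith
    have := hm (left_mem_Icc.2 hab) (right_mem_Icc.2 hab) hab
    simp only at this
    linarith
  have h1 := key 1 (by simp)
  have h2 := key (-1) (by simp)
  rw [abs_le]
  constructor <;> linarith

theorem abs_sub_le_const {f f' : ℝ → ℝ} {c : ℝ} (hf : ∀ r, HasDerivAt f (f' r) r)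
    (h : ∀ r, |f' r| ≤ c) (b : ℝ) : |f b - f 0| ≤ c * |b| := by
  have hg : ∀ r : ℝ, HasDerivAt (fun r : ℝ => c * r) c r := fun r => by
    simpa using (hasDerivAt_id r).const_mul c
  rcases le_total 0 b with hb | hb
  · have := abs_sub_le (g' := fun _ => c) hb (fun r _ => hf r) (fun r _ => hg r) (fun r _ => h r)
    rw [abs_of_nonneg hb]
    linarith
  · have := abs_sub_le (g' := fun _ => c) hb (fun r _ => hf r) (fun r _ => hg r) (fun r _ => h r)
    rw [abs_of_nonpos hb, abs_sub_comm]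
    linarith

theorem line1 {f : Fx} (hf : Sm f) (r u v : ℝ) :
    HasDerivAt (fun u : ℝ => f (r, u, v)) (D e1 f (r, u, v)) u := by
  have h1 : HasDerivAt (fun u : ℝ => ((r, u, v) : X)) e1 u :=
    (hasDerivAt_const u r).prodMk ((hasDerivAt_id u).prodMk (hasDerivAt_const u v))
  exact (hf.diff _).hasFDerivAt.comp_hasDerivAt u h1

theorem line2 {f : Fx} (hf : Sm f) (r u v : ℝ) :
    HasDerivAt (fun v : ℝ => f (r, u, v)) (D e2 f (r, u, v)) v := by
  have h1 : HasDerivAt (fun v : ℝ => ((r, u, v) : X)) e2 v :=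
    (hasDerivAt_const v r).prodMk ((hasDerivAt_const v u).prodMk (hasDerivAt_id v))
  exact (hf.diff _).hasFDerivAt.comp_hasDerivAt v h1

/-- A weighted energy that increases with the scale. -/
def Ph (g : ℝ × ℝ → ℝ) (x : ℝ × ℝ) (r : ℝ) : ℝ := ∫ y, r / (r + ‖y - x‖) * g y

/-- Its derivative. -/
def Ps (g : ℝ × ℝ → ℝ) (x : ℝ × ℝ) (r : ℝ) : ℝ := ∫ y, ‖y - x‖ / (r + ‖y - x‖) ^ 2 * g y

variable {g : ℝ × ℝ → ℝ}

theorem int_Ph (hg : Integrable g) (x : ℝ × ℝ) {r : ℝ} (hr : 0 < r) :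
    Integrable fun y => r / (r + ‖y - x‖) * g y := by
  have hc : Continuous fun y : ℝ × ℝ => r / (r + ‖y - x‖) :=
    continuous_const.div (by fun_prop) fun y => by positivity
  refine hg.bdd_mul (c := 1) hc.aestronglyMeasurable (ae_of_all _ fun y => ?_)
  rw [Real.norm_eq_abs, abs_of_nonneg (by positivity), div_le_one (by positivity)]
  linarith [norm_nonneg (y - x)]

theorem Ph_nonneg (h0 : ∀ y, 0 ≤ g y) (x : ℝ × ℝ) {r : ℝ} (hr : 0 < r) : 0 ≤ Ph g x r :=
  integral_nonneg fun y => mul_nonneg (by positivity) (h0 y)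

theorem Ph_le (hg : Integrable g) (h0 : ∀ y, 0 ≤ g y) (x : ℝ × ℝ) {r : ℝ} (hr : 0 < r) :
    Ph g x r ≤ ∫ y, g y := by
  refine integral_mono (int_Ph hg x hr) hg fun y => ?_
  refine mul_le_of_le_one_left (h0 y) ?_
  rw [div_le_one (by positivity)]
  linarith [norm_nonneg (y - x)]

theorem der_Ph (hg : Integrable g) (x : ℝ × ℝ) {r : ℝ} (hr : 1 ≤ r) :
    (Integrable fun y => ‖y - x‖ / (r + ‖y - x‖) ^ 2 * g y) ∧
      HasDerivAt (Ph g x) (Ps g x r) r := by
  have hs : Ioi (1 / 2 : ℝ) ∈ 𝓝 r := Ioi_mem_nhds (by linarith)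
  refine hasDerivAt_integral_of_dominated_loc_of_deriv_le (μ := volume)
    (F := fun r y => r / (r + ‖y - x‖) * g y)
    (F' := fun r y => ‖y - x‖ / (r + ‖y - x‖) ^ 2 * g y) (bound := fun y => 2 * ‖g y‖) hs ?_
    (int_Ph hg x (by linarith)) ?_ (ae_of_all _ fun y t ht => ?_) (hg.norm.const_mul 2)
    (ae_of_all _ fun y t ht => ?_)
  · filter_upwards [hs] with t ht
    exact (int_Ph hg x (lt_trans (by norm_num) (mem_Ioi.1 ht))).aestronglyMeasurable
  · have hc : Continuous fun y : ℝ × ℝ => ‖y - x‖ / (r + ‖y - x‖) ^ 2 :=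
      Continuous.div (by fun_prop) (by fun_prop) fun y => by positivity
    exact hc.aestronglyMeasurable.mul hg.aestronglyMeasurable
  · have ht' : 1 / 2 < t := ht
    have hn := norm_nonneg (y - x)
    have h0 : 0 < t := by linarith
    rw [norm_mul]
    refine mul_le_mul_of_nonneg_right ?_ (norm_nonneg _)
    rw [Real.norm_eq_abs, abs_of_nonneg (by positivity), div_le_iff₀ (by positivity)]
    nlinarith
  · have ht' : 1 / 2 < t := ht
    have hn := norm_nonneg (y - x)
    have h0 : t + ‖y - x‖ ≠ 0 := by linarith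
    have h1 : HasDerivAt (fun t : ℝ => t / (t + ‖y - x‖))
        ((1 * (t + ‖y - x‖) - t * 1) / (t + ‖y - x‖) ^ 2) t :=
      (hasDerivAt_id t).div ((hasDerivAt_id t).add_const _) h0
    have h2 : (1 * (t + ‖y - x‖) - t * 1) = ‖y - x‖ := by ring
    rw [h2] at h1
    exact h1.mul_const (g y)

theorem pt_bound {G c t r q : ℝ} (hr : 0 < r) (ht : 0 ≤ t) (htr : t ≤ r) (hq : G ^ 2 ≤ q) :
    |G| * (c * (t / r)) ≤ r ^ 2 * (32 * c ^ 2 * (t / (r + t) ^ 2 * q)) + 1 / (32 * r) := by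
  have hq0 : 0 ≤ q := (sq_nonneg G).trans hq
  have h1 : c * |G| ≤ 8 * c ^ 2 * r * q + 1 / (32 * r) := by
    have h2 : 0 ≤ (16 * r * (c * |G|) - 1) ^ 2 / (32 * r) := by positivity
    have h3 : (16 * r * (c * |G|) - 1) ^ 2 / (32 * r) =
        8 * c ^ 2 * r * |G| ^ 2 - c * |G| + 1 / (32 * r) := by
      field_simp
      ring
    have h4 : 8 * c ^ 2 * r * |G| ^ 2 ≤ 8 * c ^ 2 * r * q := by
      rw [sq_abs]
      exact mul_le_mul_of_nonneg_left hq (by positivity)
    linarith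
  have h5 : t / r ≤ 1 := (div_le_one hr).2 htr
  have h6 : 0 ≤ t / r := by positivity
  have h7 : |G| * (c * (t / r)) ≤ (8 * c ^ 2 * r * q + 1 / (32 * r)) * (t / r) := by
    have : |G| * (c * (t / r)) = c * |G| * (t / r) := by ring
    rw [this]
    exact mul_le_mul_of_nonneg_right h1 h6
  have h8 : (8 * c ^ 2 * r * q + 1 / (32 * r)) * (t / r) =
      8 * c ^ 2 * (t * q) + 1 / (32 * r) * (t / r) := by
    field_simp
  have h9 : 1 / (32 * r) * (t / r) ≤ 1 / (32 * r) :=
    mul_le_of_le_one_right (by positivity) h5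
  have h10 : t ≤ 4 * r ^ 2 * (t / (r + t) ^ 2) := by
    have h11 : (r + t) ^ 2 ≤ 4 * r ^ 2 := by nlinarith
    have h12 : t = (r + t) ^ 2 * (t / (r + t) ^ 2) := by
      field_simp
    conv_lhs => rw [h12]
    exact mul_le_mul_of_nonneg_right h11 (by positivity)
  have h13 : 8 * c ^ 2 * (t * q) ≤ 8 * c ^ 2 * (4 * r ^ 2 * (t / (r + t) ^ 2) * q) :=
    mul_le_mul_of_nonneg_left (mul_le_mul_of_nonneg_right h10 hq0) (by positivity)
  have h14 : 8 * c ^ 2 * (4 * r ^ 2 * (t / (r + t) ^ 2) * q) =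
      r ^ 2 * (32 * c ^ 2 * (t / (r + t) ^ 2 * q)) := by ring
  linarith

/-- The radial derivative of an average at a large scale. -/
theorem mo_large {k G : Fx} {c s r : ℝ} (x : ℝ × ℝ) (hk : Ker 1 k)
    (hc : ∀ w : ℝ × ℝ, |k (0, w)| ≤ c * ‖w‖) (hg : Integrable g) (h0 : ∀ y, 0 ≤ g y)
    (hG : ∀ y, G (s, y) ^ 2 ≤ g y) (hr : 1 ≤ r) :
    |mo k G s (r, x)| ≤ 32 * c ^ 2 * Ps g x r + 1 / (8 * r) := by
  have hr0 : 0 < r := by linarith
  have hi1 := (der_Ph hg x hr).1
  have hi2 : Integrable ((Metric.ball x r).indicator fun _ : ℝ × ℝ => 1 / (32 * r)) := by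
    rw [integrable_indicator_iff measurableSet_ball]
    exact integrableOn_const (measure_ball_lt_top.ne)
  have hb : ∀ y : ℝ × ℝ, ‖G (s, y) * k (0, r⁻¹ • (y - x))‖ ≤
      r ^ 2 * (32 * c ^ 2 * (‖y - x‖ / (r + ‖y - x‖) ^ 2 * g y)) +
        (Metric.ball x r).indicator (fun _ : ℝ × ℝ => 1 / (32 * r)) y := by
    intro y
    have hn : ‖r⁻¹ • (y - x)‖ = ‖y - x‖ / r := by
      rw [norm_smul, Real.norm_eq_abs, abs_of_pos (inv_pos.2 hr0)]
      ring
    by_cases hy : y ∈ Metric.ball x r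
    · rw [indicator_of_mem hy, Real.norm_eq_abs, abs_mul]
      have h1 : ‖y - x‖ ≤ r := by
        rw [← dist_eq_norm]
        exact (Metric.mem_ball.1 hy).le
      refine le_trans ?_ (pt_bound (c := c) hr0 (norm_nonneg (y - x)) h1 (hG y))
      refine mul_le_mul_of_nonneg_left ?_ (abs_nonneg _)
      rw [← hn]
      exact hc _
    · have h1 : r ≤ ‖y - x‖ := by
        rw [← dist_eq_norm]
        exact not_lt.1 fun h => hy (Metric.mem_ball.2 h)
      have h2 : k (0, r⁻¹ • (y - x)) = 0 := by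
        refine hk.supp _ ?_
        show 1 ≤ ‖r⁻¹ • (y - x)‖
        rw [hn, le_div_iff₀ hr0]
        linarith
      rw [h2, indicator_of_notMem hy, mul_zero, norm_zero, add_zero]
      have := h0 y
      positivity
  have hI := norm_integral_le_of_norm_le
    (((hi1.const_mul (32 * c ^ 2)).const_mul (r ^ 2)).add hi2) (ae_of_all _ hb)
  have hK : (∫ y, (Metric.ball x r).indicator (fun _ : ℝ × ℝ => 1 / (32 * r)) y) =
      1 / (32 * r) * (4 * r ^ 2) := by
    rw [integral_indicator measurableSet_ball]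
    exact Ib_K (1 / (32 * r)) s x hr0.le
  simp only [Pi.add_apply] at hI
  rw [integral_add ((hi1.const_mul (32 * c ^ 2)).const_mul (r ^ 2)) hi2, hK, integral_const_mul,
    integral_const_mul, Real.norm_eq_abs] at hI
  rw [mo_eq k G s hr0, abs_mul, abs_of_pos (by positivity : 0 < (r ^ 2)⁻¹)]
  refine (mul_le_mul_of_nonneg_left hI (by positivity)).trans (le_of_eq ?_)
  unfold Ps
  field_simp
  ring

theorem sqrt_Ib {G H : Fx} {s A : ℝ} (hG : Continuous G) (hH : Ig H)
    (h : ∀ y, G (s, y) ^ 2 ≤ H (s, y)) (hA : In H s ≤ A) (x : ℝ × ℝ) (r : ℝ) :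
    √(Ib (G * G) s x r) ≤ √A := by
  refine Real.sqrt_le_sqrt (le_trans ?_ hA)
  refine le_trans (Ib_mono (loc_of_cont (hG.mul hG)) hH.loc fun y _ _ => ?_)
    (Ib_le_In hH (fun y => (sq_nonneg _).trans (h y)) x r)
  have := h y
  rw [sq] at this
  exact this

end GrowP

open GrowP in
theorem grow_ok : StGrow := by
  intro A
  obtain ⟨k, κ, hk, hκ, -, hk1, e1', e2'⟩ := exists_rad
  obtain ⟨c, hc0, hc⟩ := hk.bd
  obtain ⟨C1, hC10, hC1⟩ := mo_L2 hκ
  obtain ⟨C2, hC20, hC2⟩ := mo_L2 hk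
  refine ⟨2 * (C1 * √A) + 2 * (64 * c ^ 2 * A) + 2 * (C2 * √A), fun F s hF hA hL x => ?_⟩
  have hs := sm_mo hk hF.sm s
  have ig1 : Ig (gr F) := hF.gr.ig (by norm_num)
  have ig2 : Ig (Lp F * Lp F) := (hF.h2.Lp.mul hF.h2.Lp).ig (by norm_num)
  have hsA := Real.sqrt_nonneg A
  have small : ∀ z : ℝ × ℝ, |mo k F s (1, z) - F (s, z)| ≤ C1 * √A := by
    intro z
    have hg : ∀ r : ℝ, HasDerivAt (fun r : ℝ => C1 * √A * r) (C1 * √A) r := fun r => by
      simpa using (hasDerivAt_id r).const_mul (C1 * √A)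
    have h := abs_sub_le (f := fun r => mo k F s (r, z)) (g' := fun _ => C1 * √A) zero_le_one
      (fun r _ => hasDerivAt_time hs r z) (fun r _ => hg r) (fun r hr => by
        rw [D0_mo_rad hk hκ e1' e2' hF.sm, abs_mul]
        show |r| * _ ≤ _
        rw [abs_of_pos hr.1]
        refine (hC1 (Lp F) s r z (sm_Lp hF.sm).cont hr.1).trans ?_
        refine mul_le_mul_of_nonneg_left ?_ hC10
        exact sqrt_Ib (sm_Lp hF.sm).cont ig2 (fun y => by rw [sq]; exact le_rfl) hL z r)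
    simp only [mo_zero, hk1, mul_one, mul_zero, sub_zero] at h
    exact h
  have large : ∀ (z : ℝ × ℝ) (R : ℝ), 1 ≤ R →
      |mo k F s (R, z) - mo k F s (1, z)| ≤ 64 * c ^ 2 * A + Real.log R / 4 := by
    intro z R hR
    have hg : Integrable fun y => gr F (s, y) := ig1 s
    have h0 : ∀ y, 0 ≤ gr F (s, y) := fun y => gr_nonneg F _
    have h := abs_sub_le (f := fun r => mo k F s (r, z))
      (g := fun r => 64 * c ^ 2 * Ph (fun y => gr F (s, y)) z r + Real.log r / 4)
      (g' := fun r => 64 * c ^ 2 * Ps (fun y => gr F (s, y)) z r + r⁻¹ / 4) hR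
      (fun r _ => hasDerivAt_time hs r z)
      (fun r hr => ((der_Ph hg z hr.1).2.const_mul _).add
        ((Real.hasDerivAt_log (by linarith [hr.1])).div_const 4))
      (fun r hr => by
        rw [D0_mo hk hF.sm, Pi.add_apply]
        have b1 := mo_large (c := c) (G := D e1 F) (s := s) z (hk.mul sm_x1) (fun w => by
          rw [Pi.mul_apply, abs_mul, x1_apply, mul_comm]
          exact mul_le_mul (hc w) (norm_fst_le w) (abs_nonneg _) hc0) hg h0 (fun y => by
          rw [gr_apply]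
          linarith [sq_nonneg (D e2 F (s, y))]) hr.1.le
        have b2 := mo_large (c := c) (G := D e2 F) (s := s) z (hk.mul sm_x2) (fun w => by
          rw [Pi.mul_apply, abs_mul, x2_apply, mul_comm]
          exact mul_le_mul (hc w) (norm_snd_le w) (abs_nonneg _) hc0) hg h0 (fun y => by
          rw [gr_apply]
          linarith [sq_nonneg (D e1 F (s, y))]) hr.1.le
        have e : 1 / (8 * r) = r⁻¹ / 8 := by ring
        refine (abs_add_le _ _).trans ?_
        linarith)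
    have p1 := Ph_nonneg h0 z zero_lt_one
    have p2 : Ph (fun y => gr F (s, y)) z R ≤ A := (Ph_le hg h0 z (by linarith)).trans hA
    have p3 : 64 * c ^ 2 * Ph (fun y => gr F (s, y)) z R ≤ 64 * c ^ 2 * A :=
      mul_le_mul_of_nonneg_left p2 (by positivity)
    have p4 : 0 ≤ 64 * c ^ 2 * Ph (fun y => gr F (s, y)) z 1 := by positivity
    simp only [Real.log_one, zero_div, add_zero] at h
    linarith
  set R := jb (s, x) with hRdef
  have hR : 1 ≤ R := one_le_jb _
  have hR0 : 0 < R := by linarith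
  have hxR : ‖x‖ ≤ R := by
    have h1 := norm_sq_le (s, x)
    have h2 := jb_sq (s, x)
    rw [rr_apply] at h2
    refine abs_le_of_sq_le_sq' ?_ hR0.le |>.2
    simp only at h1
    linarith
  have hlog : Real.log R = el (s, x) / 2 := by
    rw [el_apply, ← jb_sq, Real.log_pow]
    push_cast
    ring
  have flat : ∀ G : Fx, Continuous G → (∀ y, G (s, y) ^ 2 ≤ gr F (s, y)) → ∀ z,
      |mo k G s (R, z)| ≤ C2 * √A / R := by
    intro G hG h z
    rw [le_div_iff₀ hR0, mul_comm]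
    exact (hC2 G s R z hG hR0).trans
      (mul_le_mul_of_nonneg_left (sqrt_Ib hG ig1 h hA z R) hC20)
  have hb : ∀ u : ℝ, |u| ≤ ‖x‖ → C2 * √A / R * |u| ≤ C2 * √A := by
    intro u hu
    rw [div_mul_eq_mul_div, div_le_iff₀ hR0]
    exact mul_le_mul_of_nonneg_left (hu.trans hxR) (by positivity)
  have f1 : |mo k F s (R, x.1, x.2) - mo k F s (R, 0, x.2)| ≤ C2 * √A := by
    refine le_trans (abs_sub_le_const (f := fun u => mo k F s (R, u, x.2))
      (fun u => line1 hs R u x.2) (fun u => ?_) x.1) (hb x.1 (norm_fst_le x))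
    rw [D1_mo hk hF.sm]
    exact flat _ hF.d1.sm.cont (fun y => by
      rw [gr_apply]
      linarith [sq_nonneg (D e2 F (s, y))]) _
  have f2 : |mo k F s (R, 0, x.2) - mo k F s (R, 0, 0)| ≤ C2 * √A := by
    refine le_trans (abs_sub_le_const (f := fun u => mo k F s (R, 0, u))
      (fun u => line2 hs R 0 u) (fun u => ?_) x.2) (hb x.2 (norm_snd_le x))
    rw [D2_mo hk hF.sm]
    exact flat _ hF.d2.sm.cont (fun y => by
      rw [gr_apply]
      linarith [sq_nonneg (D e1 F (s, y))]) _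
  have a1 := abs_le.1 (small x)
  have a2 := abs_le.1 (small 0)
  have a3 := abs_le.1 (large x R hR)
  have a4 := abs_le.1 (large 0 R hR)
  have a5 : |mo k F s (R, x) - mo k F s (R, 0, x.2)| ≤ C2 * √A := f1
  have a6 : |mo k F s (R, 0, x.2) - mo k F s (R, 0)| ≤ C2 * √A := f2
  rw [abs_le] at a5 a6 ⊢
  constructor <;> linarith [a1.1, a1.2, a2.1, a2.2, a3.1, a3.2, a4.1, a4.2, a5.1, a5.2, a6.1, a6.2]

end Pool.Agent.P.MP_2cea5e_gt.Se
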