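import Pool.Agent.P.MP_2cea5e_gt.Se.ClsSt

/-!
Package Mer.
-/

open scoped ContDiff ComplexOrder Manifold Matrix Topology ComplexConjugate
open Set Metric Filter MulAction

noncomputable section

namespace Pool.Agent.P.MP_2cea5e_gt.Se

open Abs

namespace MerP

theorem split (B : ℂ → ℂ) (t : ℂ) : B t = B 0 + t * dslope B 0 t := by
  have := sub_smul_dslope B 0 t
  rw [sub_zero, smul_eq_mul] at this
  rw [this]; ring

theorem zero_case (B : ℂ → ℂ) (r ρ : ℝ) (h0 : 0 < ρ) (h1 : ρ < r)
    (hB : DifferentiableOn ℂ B (ball 0 r)) (hI : (∮ t in C(0, ρ), B t / t ^ (0 + 1)) = 0) :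
    B 0 = 0 := by
  have h2 : DifferentiableOn ℂ B (closedBall 0 ρ) := hB.mono (closedBall_subset_ball h1)
  have h3 := h2.circleIntegral_sub_inv_smul (w := 0) (mem_ball_self h0)
  have h4 : (fun t : ℂ => (t - 0)⁻¹ • B t) = fun t => B t / t ^ (0 + 1) := by
    funext t; rw [sub_zero, smul_eq_mul, zero_add, pow_one, div_eq_mul_inv, mul_comm]
  rw [h4, hI, smul_eq_mul] at h3
  exact (mul_eq_zero.1 h3.symm).resolve_left Complex.two_pi_I_ne_zero

theorem step_int (B : ℂ → ℂ) (r ρ : ℝ) (k : ℕ) (h0 : 0 < ρ) (h1 : ρ < r)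
    (hB : DifferentiableOn ℂ B (ball 0 r))
    (hI : (∮ t in C(0, ρ), B t / t ^ (k + 1 + 1)) = 0) :
    (∮ t in C(0, ρ), dslope B 0 t / t ^ (k + 1)) = 0 := by
  have hne : ∀ t ∈ sphere (0 : ℂ) ρ, t ≠ 0 := fun t ht => ne_of_mem_sphere ht h0.ne'
  have hs : sphere (0 : ℂ) ρ ⊆ ball 0 r := sphere_subset_closedBall.trans (closedBall_subset_ball h1)
  have c1 : CircleIntegrable (fun t : ℂ => B t / t ^ (k + 1 + 1)) 0 ρ :=
    ContinuousOn.circleIntegrable h0.le ((hB.continuousOn.mono hs).div (by fun_prop)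
      fun t ht => pow_ne_zero _ (hne t ht))
  have c2 : CircleIntegrable (fun t : ℂ => B 0 * (t - 0) ^ (-((k : ℤ) + 2))) 0 ρ :=
    ContinuousOn.circleIntegrable h0.le (continuousOn_const.mul
      ((continuousOn_id.sub continuousOn_const).zpow₀ _
        fun t ht => Or.inl (by simpa using hne t ht)))
  have e : (∮ t in C(0, ρ), dslope B 0 t / t ^ (k + 1)) =
      ∮ t in C(0, ρ), (B t / t ^ (k + 1 + 1) - B 0 * (t - 0) ^ (-((k : ℤ) + 2))) := by
    refine circleIntegral.integral_congr h0.le fun t ht => ?_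
    have ht0 := hne t ht
    have e2 : (t - 0) ^ (-((k : ℤ) + 2)) = (t ^ (k + 1 + 1))⁻¹ := by
      rw [sub_zero, zpow_neg, ← zpow_natCast]; congr 2
    simp only [e2]
    rw [split B t]
    field_simp
    ring
  rw [e, circleIntegral.integral_sub c1 c2, hI, circleIntegral.integral_const_mul,
    circleIntegral.integral_sub_zpow_of_ne (by omega)]
  simp

end MerP

theorem mer_ok : StMer := by
  intro B r ρ k h0 h1
  have hr : ball (0 : ℂ) r ∈ 𝓝 (0 : ℂ) := ball_mem_nhds _ (h0.trans h1)
  induction k generalizing B with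
  | zero =>
    intro hB hI
    have b0 := MerP.zero_case B r ρ h0 h1 hB hI
    obtain ⟨Y, hY⟩ := ((Complex.differentiableOn_dslope hr).2 hB).isExactOn_ball
    refine ⟨Y, fun z hz => (hY z hz).differentiableAt.differentiableWithinAt, by simp [b0], ?_⟩
    intro t ht htr
    have e : B t / t ^ (0 + 1) = dslope B 0 t := by
      rw [MerP.split B t, b0]; field_simp; ring
    rw [e]
    simpa using hY t (mem_ball_zero_iff.2 htr)
  | succ k ih =>
    intro hB hI
    obtain ⟨Y, y1, -, y3⟩ := ih (dslope B 0) ((Complex.differentiableOn_dslope hr).2 hB)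
      (MerP.step_int B r ρ k h0 h1 hB hI)
    have hk : (k : ℂ) + 1 ≠ 0 := Nat.cast_add_one_ne_zero k
    refine ⟨fun t => -B 0 / (k + 1) + t * Y t,
      (differentiableOn_const _).add (differentiableOn_id.mul y1), ?_, ?_⟩
    · push_cast; field_simp; ring
    · intro t ht htr
      have d1 : HasDerivAt (fun t : ℂ => -B 0 / (k + 1) / t ^ (k + 1))
          (B 0 / t ^ (k + 1 + 1)) t := by
        have := (hasDerivAt_const t (-B 0 / ((k : ℂ) + 1))).fun_div (hasDerivAt_pow (k + 1) t)
          (pow_ne_zero _ ht)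
        refine this.congr_deriv ?_
        rw [Nat.add_sub_cancel]
        push_cast
        field_simp
        ring
      have d2 := d1.add (y3 t ht htr)
      have e : B t / t ^ (k + 1 + 1) = B 0 / t ^ (k + 1 + 1) + dslope B 0 t / t ^ (k + 1) := by
        rw [MerP.split B t]; field_simp; ring
      rw [e]
      refine d2.congr_of_eventuallyEq ?_
      filter_upwards [isOpen_ne.mem_nhds ht] with z hz
      simp only [Pi.add_apply]
      field_simp
      ring

end Pool.Agent.P.MP_2cea5e_gt.Se
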