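import Pool.Agent.P.MP_2cea5e_gt.Se.Api

/-!
Package Mod2.
-/

open scoped ContDiff Topology ENNReal
open MeasureTheory Set Filter

noncomputable section

namespace Pool.Agent.P.MP_2cea5e_gt.Se

namespace Mod2P

/-- Mean value inequality on an interval starting at zero. -/
theorem mv {h h' : ℝ → ℝ} {C b : ℝ} (hb : 0 ≤ b) (hd : ∀ u, HasDerivAt h (h' u) u)
    (hC : ∀ u, 0 ≤ u → u ≤ b → |h' u| ≤ C) : |h b - h 0| ≤ C * b := by
  have := norm_image_sub_le_of_norm_deriv_le_segment' (f := h) (f' := h') (C := C) (a := 0) (b := b)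
    (fun x _ => (hd x).hasDerivWithinAt) (fun x hx => hC x hx.1 hx.2.le) b ⟨hb, le_rfl⟩
  simpa using this

theorem ball_sub {x : ℝ × ℝ} {ρ r : ℝ} (hx : ‖x‖ ≤ ρ) (hr : r ≤ 1) :
    Metric.ball x r ⊆ Metric.ball (0 : ℝ × ℝ) (ρ + 1) := by
  intro y hy
  rw [mem_ball_iff_norm] at hy
  rw [mem_ball_zero_iff]
  have : ‖y‖ ≤ ‖y - x‖ + ‖x‖ := by
    calc ‖y‖ = ‖(y - x) + x‖ := by rw [sub_add_cancel]
      _ ≤ ‖y - x‖ + ‖x‖ := norm_add_le _ _
  linarith

/-- Radial estimate. -/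
theorem rad {k κ F : Fx} (hk : Ker 1 k) (hκ : Ker 1 κ) (h1 : In k 0 = 1)
    (e1' : D e1 κ = -(x1 * k)) (e2' : D e2 κ = -(x2 * k)) (hF : Sm F) (hS : Sq (Ab (Lp F)))
    (ρ : ℝ) : ∃ C : ℝ, 0 ≤ C ∧ ∀ s, 0 ≤ s → ∀ x : ℝ × ℝ, ‖x‖ ≤ ρ → ∀ u, 0 ≤ u → u ≤ 1 →
      |mo k F s (u ^ 2, x) - F (s, x)| ≤ C * u := by
  obtain ⟨C1, hC1, H1⟩ := mo_L1 hκ
  obtain ⟨C2, H2⟩ := hS ρ
  refine ⟨2 * (C1 * |C2|), by positivity, fun s hs x hx u hu hu1 => ?_⟩
  have hd : ∀ v : ℝ, HasDerivAt (fun v : ℝ => mo k F s (v ^ 2, x))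
      (D e0 (mo k F s) (v ^ 2, x) * (2 * v)) v := by
    intro v
    have a1 := hasDerivAt_time (sm_mo hk hF s) (v ^ 2) x
    have a2 : HasDerivAt (fun v : ℝ => v ^ 2) (2 * v) v := by
      simpa using hasDerivAt_pow 2 v
    exact HasDerivAt.comp (h₂ := fun r : ℝ => mo k F s (r, x)) (h := fun v : ℝ => v ^ 2) v a1 a2
  have := mv hu hd (C := 2 * (C1 * |C2|)) (fun v hv hvu => by
    rcases hv.eq_or_lt with rfl | hv
    · simp only [mul_zero, abs_zero]; positivity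
    · rw [D0_mo_rad hk hκ e1' e2' hF]
      have hv1 : v ≤ 1 := hvu.trans hu1
      have hr : 0 < v ^ 2 := by positivity
      have hr1 : v ^ 2 ≤ 1 := by nlinarith
      have b1 := H1 (Lp F) s (v ^ 2) x (sm_Lp hF).cont hr
      have b2 := H2 s hs x hx (v ^ 2) hr hr1
      rw [Real.sqrt_sq hv.le] at b2
      have b3 : C2 * v ≤ |C2| * v := mul_le_mul_of_nonneg_right (le_abs_self _) hv.le
      have b4 : (v ^ 2) ^ 2 * |mo κ (Lp F) s (v ^ 2, x)| ≤ C1 * (|C2| * v) :=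
        b1.trans (mul_le_mul_of_nonneg_left (b2.trans b3) hC1)
      have b5 : v ^ 3 * |mo κ (Lp F) s (v ^ 2, x)| ≤ C1 * |C2| := by
        refine le_of_mul_le_mul_right ?_ hv
        calc v ^ 3 * |mo κ (Lp F) s (v ^ 2, x)| * v
            = (v ^ 2) ^ 2 * |mo κ (Lp F) s (v ^ 2, x)| := by ring
          _ ≤ C1 * (|C2| * v) := b4
          _ = C1 * |C2| * v := by ring
      simp only [abs_mul, abs_of_pos hr, abs_of_pos hv, abs_two]
      calc v ^ 2 * |mo κ (Lp F) s (v ^ 2, x)| * (2 * v)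
          = 2 * (v ^ 3 * |mo κ (Lp F) s (v ^ 2, x)|) := by ring
        _ ≤ 2 * (C1 * |C2|) := by linarith)
  have e : mo k F s ((0 : ℝ) ^ 2, x) = F (s, x) := by
    rw [show (0 : ℝ) ^ 2 = 0 by norm_num, mo_zero, h1, mul_one]
  rwa [e] at this

/-- Spatial estimate. -/
theorem spa {k F : Fx} (hk : Ker 1 k) (hF : Sm F) (hI : Ilb (gr F)) (ρ : ℝ) :
    ∃ C : ℝ, 0 ≤ C ∧ ∀ s, 0 ≤ s → ∀ x y : ℝ × ℝ, ‖x‖ ≤ ρ → ‖y‖ ≤ ρ → ∀ r, 0 < r → r ≤ 1 →
      |mo k F s (r, x) - mo k F s (r, y)| ≤ C / r * ‖x - y‖ := by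
  obtain ⟨C1, hC1, H1⟩ := mo_L2 hk
  obtain ⟨C2, H2⟩ := hI (ρ + 1)
  refine ⟨2 * (C1 * √C2), by positivity, fun s hs x y hx hy r hr hr1 => ?_⟩
  have hlg : Loc (gr F) := loc_of_cont (sm_gr hF).cont
  have key : ∀ G : Fx, Sm G → (∀ p, G p ^ 2 ≤ gr F p) → ∀ z : ℝ × ℝ, ‖z‖ ≤ ρ →
      |mo k G s (r, z)| ≤ C1 * √C2 / r := by
    intro G hG hle z hz
    have b1 := H1 G s r z hG.cont hr
    have b2 : Ib (G * G) s z r ≤ Ib (gr F) s z r :=
      Ib_mono (loc_of_cont (sm_mul hG hG).cont) hlg fun w _ _ => by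
        have := hle (s, w)
        simp only [Pi.mul_apply]
        nlinarith
    have b3 : Ib (gr F) s z r ≤ Ib (gr F) s 0 (ρ + 1) :=
      Ib_sub_ball hlg (fun w => gr_nonneg F _) (ball_sub hz hr1)
    have b4 : √(Ib (G * G) s z r) ≤ √C2 := Real.sqrt_le_sqrt (b2.trans (b3.trans (H2 s hs)))
    rw [le_div_iff₀ hr, mul_comm]
    exact b1.trans (mul_le_mul_of_nonneg_left b4 hC1)
  have hd : ∀ v : ℝ, HasDerivAt (fun v : ℝ => mo k F s (((r, y) : X) + v • ((0, x - y) : X)))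
      (D ((0, x - y) : X) (mo k F s) (((r, y) : X) + v • ((0, x - y) : X))) v :=
    fun v => hasDerivAt_line (sm_mo hk hF s) _ _ v
  have := mv zero_le_one hd (C := 2 * (C1 * √C2) / r * ‖x - y‖) (fun v hv hv1 => by
    have ep : ((r, y) : X) + v • ((0, x - y) : X) = (r, y + v • (x - y)) := by
      ext <;> simp
    have hz : ‖y + v • (x - y)‖ ≤ ρ := by
      have e : y + v • (x - y) = (1 - v) • y + v • x := by
        rw [smul_sub, sub_smul, one_smul]; abel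
      rw [e]
      calc ‖(1 - v) • y + v • x‖ ≤ ‖(1 - v) • y‖ + ‖v • x‖ := norm_add_le _ _
        _ = (1 - v) * ‖y‖ + v * ‖x‖ := by
          rw [norm_smul, norm_smul, Real.norm_of_nonneg hv, Real.norm_of_nonneg (by linarith)]
        _ ≤ (1 - v) * ρ + v * ρ :=
          add_le_add (mul_le_mul_of_nonneg_left hy (by linarith)) (mul_le_mul_of_nonneg_left hx hv)
        _ = ρ := by ring
    rw [ep, D_dir3, D1_mo hk hF, D2_mo hk hF]
    simp only [Pi.add_apply, Pi.mul_apply, K_apply, zero_mul, zero_add]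
    have k1 := key (D e1 F) (sm_D _ hF) (fun p => by
      rw [gr_apply]; nlinarith [sq_nonneg (D e2 F p)]) _ hz
    have k2 := key (D e2 F) (sm_D _ hF) (fun p => by
      rw [gr_apply]; nlinarith [sq_nonneg (D e1 F p)]) _ hz
    have n1 : |(x - y).1| ≤ ‖x - y‖ := norm_fst_le (x - y)
    have n2 : |(x - y).2| ≤ ‖x - y‖ := norm_snd_le (x - y)
    refine (abs_add_le _ _).trans ?_
    rw [abs_mul, abs_mul]
    have m1 := mul_le_mul n1 k1 (abs_nonneg _) (norm_nonneg _)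
    have m2 := mul_le_mul n2 k2 (abs_nonneg _) (norm_nonneg _)
    calc _ ≤ ‖x - y‖ * (C1 * √C2 / r) + ‖x - y‖ * (C1 * √C2 / r) := add_le_add m1 m2
      _ = 2 * (C1 * √C2) / r * ‖x - y‖ := by ring)
  have e1 : ((r, y) : X) + (1 : ℝ) • ((0, x - y) : X) = (r, x) := by ext <;> simp
  have e0 : ((r, y) : X) + (0 : ℝ) • ((0, x - y) : X) = (r, y) := by ext <;> simp
  simp only [e1, e0, mul_one] at this
  exact this

/-- The time derivative of the average at scale one. -/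
theorem dtime {k f : Fx} (hk : Ker 1 k) (hf : Sm f) (x : ℝ × ℝ) (s : ℝ) :
    HasDerivAt (fun s => mo k f s (1, x)) (mo k (D e0 f) s (1, x)) s := by
  set H : Fx := fun p => f (p.1, x + p.2) * k (0, p.2) with hH
  have hs : Sm H := by
    have a1 : ContDiff ℝ ∞ fun p : X => ((p.1, x + p.2) : X) :=
      contDiff_fst.prodMk (contDiff_const.add contDiff_snd)
    have a2 : ContDiff ℝ ∞ fun p : X => (((0 : ℝ), p.2) : X) :=
      contDiff_const.prodMk contDiff_snd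
    exact (ContDiff.comp hf a1).mul (ContDiff.comp hk.sm a2)
  have hc : Cs2 H := ⟨hs, fun _ => ⟨1, fun p _ hp => by
    have : k (0, p.2) = 0 := hk.supp (0, p.2) hp
    simp only [hH, this, mul_zero]⟩⟩
  have hD : ∀ s (y : ℝ × ℝ), D e0 H (s, y) = D e0 f (s, x + y) * k (0, y) := fun s y =>
    (hasDerivAt_time hs s y).unique ((hasDerivAt_time hf s (x + y)).mul_const (k (0, y)))
  have := (hc.sy (-3)).hasDerivAt le_rfl s
  have e1 : In H = fun s => mo k f s (1, x) := by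
    funext s
    simp only [In, mo, hH, one_smul]
  have e2 : In (D e0 H) s = mo k (D e0 f) s (1, x) := by
    simp only [In, mo, hD, one_smul]
  rwa [e1, e2] at this

end Mod2P

open Mod2P

theorem mod2_ok : StMod2 := by
  intro F hF hI hS ρ ε hε
  obtain ⟨k, κ, hk, hκ, -, h1, e1', e2'⟩ := exists_rad
  obtain ⟨A, hA, HA⟩ := rad hk hκ h1 e1' e2' hF hS ρ
  obtain ⟨B, hB, HB⟩ := spa hk hF hI ρ
  set u : ℝ := min 1 (ε / (4 * (A + 1))) with hu
  have u0 : 0 < u := lt_min one_pos (by positivity)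
  have u1 : u ≤ 1 := min_le_left _ _
  have uA : A * u ≤ ε / 4 := by
    have h : u ≤ ε / (4 * (A + 1)) := min_le_right _ _
    rw [le_div_iff₀ (by positivity)] at h
    nlinarith
  have hr : 0 < u ^ 2 := by positivity
  have hr1 : u ^ 2 ≤ 1 := by nlinarith
  refine ⟨ε / 2 / (B / u ^ 2 + 1), by positivity, fun s hs x y hx hy hxy => ?_⟩
  have a1 := HA s hs x hx u u0.le u1
  have a2 := HA s hs y hy u u0.le u1
  have a3 := HB s hs x y hx hy (u ^ 2) hr hr1
  have hq : 0 ≤ B / u ^ 2 := by positivity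
  have a4 : B / u ^ 2 * ‖x - y‖ ≤ ε / 2 := by
    rw [le_div_iff₀ (by positivity)] at hxy
    nlinarith [norm_nonneg (x - y)]
  rw [abs_le] at a1 a2 a3 ⊢
  constructor <;> linarith [a1.1, a1.2, a2.1, a2.2, a3.1, a3.2]

theorem sup_ok : StSup := by
  intro f g t τ T hc hf hg e hI hL ρ
  obtain ⟨k, κ, hk, hκ, -, h1, e1', e2'⟩ := exists_rad
  obtain ⟨C1, hC1, H1⟩ := mo_sup hκ
  obtain ⟨C2, hC2, H2⟩ := mo_L1 hk
  obtain ⟨A, HA⟩ := hL (ρ + 1)
  obtain ⟨B, HB⟩ := hI (ρ + 1)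
  obtain ⟨M, HM⟩ := (isCompact_closedBall (0 : ℝ × ℝ) ρ).exists_bound_of_continuousOn
    (f := fun x : ℝ × ℝ => mo k f 0 (1, x))
    ((sm_mo hk hf 0).cont.comp (continuous_const.prodMk continuous_id)).continuousOn
  refine ⟨C1 * |A| + C2 * |B| * T + M, ?_⟩
  rintro ⟨s, x⟩ hs hx
  simp only at hs hx
  have a1 : |mo k f s (1, x) - f (s, x)| ≤ C1 * |A| := by
    have := mv zero_le_one (fun r => hasDerivAt_time (sm_mo hk hf s) r x) (C := C1 * |A|)
      (fun r hr hr1 => by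
        rw [D0_mo_rad hk hκ e1' e2' hf]
        have b1 := H1 (Lp f) s r x |A| hr fun y hy => by
          refine (HA (s, y) hs ?_).trans (le_abs_self _)
          have : ‖y‖ ≤ ‖y - x‖ + ‖x‖ := by
            calc ‖y‖ = ‖(y - x) + x‖ := by rw [sub_add_cancel]
              _ ≤ ‖y - x‖ + ‖x‖ := norm_add_le _ _
          simp only
          linarith
        rw [abs_mul, abs_of_nonneg hr]
        have := mul_le_mul hr1 b1 (abs_nonneg _) zero_le_one
        simpa using this)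
    rw [mo_zero, h1, mul_one, mul_one] at this
    exact this
  have hb : ∀ σ, 0 ≤ σ → |mo k (D e0 f) σ (1, x)| ≤ C2 * |B| * τ σ := by
    intro σ hσ
    have e3 : mo k (D e0 f) σ (1, x) = τ σ * mo k g σ (1, x) := by
      simp only [e, mo, Pi.mul_apply, Tm_apply, mul_assoc]
      exact integral_const_mul _ _
    have b1 := H2 g σ 1 x hg.cont one_pos
    have b2 : Ib (Ab g) σ x 1 ≤ Ib (Ab g) σ 0 (ρ + 1) :=
      Ib_sub_ball (loc_of_cont (cont_Ab hg.cont)) (fun w => abs_nonneg _) (ball_sub hx le_rfl)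
    have b3 : |mo k g σ (1, x)| ≤ C2 * |B| := by
      have := b1.trans (mul_le_mul_of_nonneg_left
        (b2.trans ((HB σ hσ).trans (le_abs_self _))) hC2)
      simpa using this
    rw [e3, abs_mul, abs_of_pos (hc.pos σ), mul_comm]
    exact mul_le_mul_of_nonneg_right b3 (hc.pos σ).le
  have mono : ∀ c : ℝ, |c| = 1 →
      c * mo k f 0 (1, x) + C2 * |B| * t 0 ≤ c * mo k f s (1, x) + C2 * |B| * t s := by
    intro c hc1
    have hd : ∀ σ, HasDerivAt (fun σ => c * mo k f σ (1, x) + C2 * |B| * t σ)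
        (c * mo k (D e0 f) σ (1, x) + C2 * |B| * τ σ) σ := fun σ =>
      ((dtime hk hf x σ).const_mul c).add ((hc.dt σ).const_mul _)
    have := monotoneOn_of_deriv_nonneg (convex_Ici (0 : ℝ))
      (f := fun σ => c * mo k f σ (1, x) + C2 * |B| * t σ)
      (fun σ _ => (hd σ).continuousAt.continuousWithinAt)
      (fun σ _ => (hd σ).differentiableAt.differentiableWithinAt)
      (fun σ hσ => by
        rw [(hd σ).deriv]
        have b1 := hb σ (interior_subset hσ)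
        have b2 : |c * mo k (D e0 f) σ (1, x)| = |mo k (D e0 f) σ (1, x)| := by
          rw [abs_mul, hc1, one_mul]
        have b3 := neg_abs_le (c * mo k (D e0 f) σ (1, x))
        linarith)
    exact this (mem_Ici.2 le_rfl) (mem_Ici.2 hs) hs
  have m1 := mono 1 abs_one
  have m2 := mono (-1) (by simp)
  have t0 := hc.nn 0
  have ts := hc.le s
  have hCB : 0 ≤ C2 * |B| := by positivity
  have t1 : C2 * |B| * t s ≤ C2 * |B| * T := mul_le_mul_of_nonneg_left ts hCB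
  have t2 : 0 ≤ C2 * |B| * t 0 := mul_nonneg hCB t0
  have a3 : |mo k f 0 (1, x)| ≤ M := HM x (mem_closedBall_zero_iff.2 hx)
  rw [abs_le] at a1 a3 ⊢
  constructor <;> linarith [a1.1, a1.2, a3.1, a3.2]

end Pool.Agent.P.MP_2cea5e_gt.Se
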