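import Pool.Agent.P.MP_2cea5e_gt.Se.Mod

/-!
Package P1.
-/

open scoped ContDiff ComplexOrder Matrix Topology ComplexConjugate
open MeasureTheory Set Filter

noncomputable section

namespace Pool.Agent.P.MP_2cea5e_gt.Se

open II III

namespace P1P

/-- Complex conjugation as a real linear map. -/
def cj : ℂ →L[ℝ] ℂ := Complex.conjCLE

theorem cj_apply (v : ℂ) : cj v = conj v := rfl

/-- The real linear map `v ↦ A v + B conj v`. -/
def lin (A B : ℂ) : ℂ →L[ℝ] ℂ := A • ContinuousLinearMap.id ℝ ℂ + B • cj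

theorem lin_apply (A B v : ℂ) : lin A B v = A * v + B * conj v := rfl

theorem clm_eq (L : ℂ →L[ℝ] ℂ) (v : ℂ) :
    L v = (L 1 - Complex.I * L Complex.I) / 2 * v +
      (L 1 + Complex.I * L Complex.I) / 2 * conj v := by
  have e : v = v.re • (1 : ℂ) + v.im • Complex.I := by
    simp [Complex.re_add_im]
  have h : L v = v.re * L 1 + v.im * L Complex.I := by
    conv_lhs => rw [e]
    rw [map_add, map_smul, map_smul]; simp
  have e1 : v = v.re + v.im * Complex.I := (Complex.re_add_im v).symm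
  have e2 : conj v = v.re - v.im * Complex.I := by
    apply Complex.ext <;> simp
  rw [h, e2]
  generalize (v.re : ℂ) = a at *
  generalize (v.im : ℂ) = b at *
  rw [e1]
  linear_combination (b * L Complex.I) * Complex.I_mul_I

theorem fd (f : ℂ → ℂ) (z v : ℂ) : fderiv ℝ f z v = d1 f z * v + db1 f z * conj v :=
  clm_eq _ v

theorem of_fd {f : ℂ → ℂ} {z A B : ℂ} (h : ∀ v, fderiv ℝ f z v = A * v + B * conj v) :
    d1 f z = A ∧ db1 f z = B := by
  unfold d1 db1
  rw [h, h, Complex.conj_I, map_one]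
  constructor
  · linear_combination (-(A - B) / 2) * Complex.I_mul_I
  · linear_combination ((A - B) / 2) * Complex.I_mul_I

theorem sm_app {F : ℂ → ℂ} (h : ContDiff ℝ ∞ F) (v : ℂ) : ContDiff ℝ ∞ fun z => fderiv ℝ F z v :=
  (h.fderiv_right (m := ∞) (by simp)).clm_apply contDiff_const

theorem sm_d1 {F : ℂ → ℂ} (h : ContDiff ℝ ∞ F) : ContDiff ℝ ∞ (d1 F) :=
  ((sm_app h 1).sub (contDiff_const.mul (sm_app h _))).div_const 2

theorem sm_db1 {F : ℂ → ℂ} (h : ContDiff ℝ ∞ F) : ContDiff ℝ ∞ (db1 F) :=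
  ((sm_app h 1).add (contDiff_const.mul (sm_app h _))).div_const 2

theorem mul (F G : ℂ → ℂ) (z : ℂ) (hF : DifferentiableAt ℝ F z) (hG : DifferentiableAt ℝ G z) :
    d1 (fun y => F y * G y) z = d1 F z * G z + F z * d1 G z ∧
    db1 (fun y => F y * G y) z = db1 F z * G z + F z * db1 G z := by
  refine of_fd fun v => ?_
  rw [(hF.hasFDerivAt.fun_mul hG.hasFDerivAt).fderiv]
  simp only [add_apply, smul_apply, smul_eq_mul]
  rw [fd F, fd G]; ring

theorem cnj (F : ℂ → ℂ) (z : ℂ) (hF : DifferentiableAt ℝ F z) :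
    d1 (fun y => conj (F y)) z = conj (db1 F z) ∧ db1 (fun y => conj (F y)) z = conj (d1 F z) := by
  refine of_fd fun v => ?_
  have h : HasFDerivAt (fun y => conj (F y)) (cj.comp (fderiv ℝ F z)) z :=
    cj.hasFDerivAt.comp z hF.hasFDerivAt
  rw [h.fderiv, ContinuousLinearMap.comp_apply, cj_apply, fd F]
  simp only [map_add, map_mul, Complex.conj_conj]; ring

theorem inv (F : ℂ → ℂ) (z : ℂ) (hz : z ≠ 0) (hF : DifferentiableAt ℝ F z⁻¹) :
    d1 (fun y => F y⁻¹) z = -(d1 F z⁻¹ / z ^ 2) ∧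
    db1 (fun y => F y⁻¹) z = -(db1 F z⁻¹ / conj z ^ 2) := by
  refine of_fd fun v => ?_
  have h : HasFDerivAt (fun y => F y⁻¹) _ z :=
    hF.hasFDerivAt.comp z (hasDerivAt_inv hz).complexToReal_fderiv
  rw [h.fderiv, ContinuousLinearMap.comp_apply, fd F]
  simp only [smul_apply, one_apply_eq_self, smul_eq_mul, map_mul,
    map_neg, map_inv₀, map_pow]
  ring

theorem const (F : ℂ → ℂ) (h : ∀ z, z ≠ 0 → DifferentiableAt ℝ F z ∧ d1 F z = 0 ∧ db1 F z = 0) :
    ∃ k, ∀ z, z ≠ 0 → F z = k := by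
  have c : IsPreconnected ({0}ᶜ : Set ℂ) :=
    (isConnected_compl_singleton_of_one_lt_rank (by simp) 0).isPreconnected
  refine isOpen_compl_singleton.exists_is_const_of_fderiv_eq_zero (𝕜 := ℝ) c
    (fun z hz => (h z hz).1.differentiableWithinAt) fun z hz => ?_
  refine ContinuousLinearMap.ext fun v => ?_
  rw [fd, (h z hz).2.1, (h z hz).2.2]; simp

theorem comm {F : ℂ → ℂ} (h : ContDiff ℝ ∞ F) : d1 (db1 F) = db1 (d1 F) := by
  funext z
  have hd : DifferentiableAt ℝ (fderiv ℝ F) z :=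
    ((h.fderiv_right (m := ∞) (by simp)).differentiable (by simp)) z
  have hs := (h.contDiffAt (x := z)).isSymmSndFDerivAt (by simp; decide)
  have ha : ∀ w, HasFDerivAt (fun y => fderiv ℝ F y w) ((fderiv ℝ (fderiv ℝ F) z).flip w) z :=
    fun w => by simpa using hd.hasFDerivAt.clm_apply (hasFDerivAt_const w z)
  have h1 : ∀ v, fderiv ℝ (d1 F) z v = (fderiv ℝ (fderiv ℝ F) z v 1 -
      Complex.I * fderiv ℝ (fderiv ℝ F) z v Complex.I) / 2 := fun v => by
    have := (((ha 1).fun_sub ((ha Complex.I).const_mul Complex.I)).mul_const (2⁻¹ : ℂ)).fderiv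
    have e : d1 F = fun y => (fderiv ℝ F y 1 - Complex.I * fderiv ℝ F y Complex.I) * 2⁻¹ :=
      funext fun y => div_eq_mul_inv _ _
    rw [e, this]; simp; ring
  have h2 : ∀ v, fderiv ℝ (db1 F) z v = (fderiv ℝ (fderiv ℝ F) z v 1 +
      Complex.I * fderiv ℝ (fderiv ℝ F) z v Complex.I) / 2 := fun v => by
    have := (((ha 1).fun_add ((ha Complex.I).const_mul Complex.I)).mul_const (2⁻¹ : ℂ)).fderiv
    have e : db1 F = fun y => (fderiv ℝ F y 1 + Complex.I * fderiv ℝ F y Complex.I) * 2⁻¹ :=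
      funext fun y => div_eq_mul_inv _ _
    rw [e, this]; simp; ring
  rw [d1, db1, h1, h1, h2, h2, hs.eq 1 Complex.I]
  ring

theorem poin (A B : ℂ → ℂ) (hA : ContDiff ℝ ∞ A) (hB : ContDiff ℝ ∞ B) (h : db1 A = d1 B) :
    ∃ h : ℂ → ℂ, ContDiff ℝ ∞ h ∧ d1 h = A ∧ db1 h = B := by
  have hω : ContDiff ℝ ∞ fun z => lin (A z) (B z) :=
    (hA.smul contDiff_const).add (hB.smul contDiff_const)
  have hd : ∀ a x y, fderiv ℝ (fun z => lin (A z) (B z)) a x y =
      fderiv ℝ A a x * y + fderiv ℝ B a x * conj y := by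
    intro a x y
    have := (((hA.differentiable (by simp)) a).hasFDerivAt.smul_const
      (ContinuousLinearMap.id ℝ ℂ)).fun_add
        (((hB.differentiable (by simp)) a).hasFDerivAt.smul_const cj)
    have e := this.fderiv
    unfold lin
    rw [e]; rfl
  obtain ⟨f, hf⟩ := (convex_univ (𝕜 := ℝ) (E := ℂ)).exists_forall_hasFDerivAt_of_fderiv_symmetric
    isOpen_univ (hω.differentiable (by simp)).differentiableOn fun a _ x y => by
      rw [hd, hd, fd A, fd A, fd B, fd B, h]; ring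
  have e : fderiv ℝ f = fun z => lin (A z) (B z) := funext fun z => (hf z trivial).fderiv
  refine ⟨f, contDiff_infty_iff_fderiv.2 ⟨fun z => (hf z trivial).differentiableAt, e ▸ hω⟩,
    funext fun z => (of_fd (B := B z) fun v => ?_).1,
    funext fun z => (of_fd (A := A z) fun v => ?_).2⟩ <;> rw [e, lin_apply]

theorem hfd_int {F : Type} [NormedAddCommGroup F] [NormedSpace ℝ F] {G : ℂ × ℝ → F}
    (hG : ContDiff ℝ ∞ G) (p₀ : ℂ) :
    HasFDerivAt (fun p : ℂ => ∫ s in (0 : ℝ)..1, G (p, s))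
      (∫ s in (0 : ℝ)..1, (fderiv ℝ G (p₀, s)).comp (ContinuousLinearMap.inl ℝ ℂ ℝ)) p₀ := by
  have sG' : Continuous fun q : ℂ × ℝ => (fderiv ℝ G q).comp (ContinuousLinearMap.inl ℝ ℂ ℝ) :=
    (hG.continuous_fderiv (by simp)).clm_comp continuous_const
  obtain ⟨C, hC⟩ := ((isCompact_closedBall p₀ 1).prod
    (isCompact_uIcc (a := (0 : ℝ)) (b := 1))).exists_bound_of_continuousOn sG'.continuousOn
  have c1 : ∀ p : ℂ, Continuous fun s : ℝ => G (p, s) := fun p =>
    hG.continuous.comp (continuous_const.prodMk continuous_id)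
  refine intervalIntegral.hasFDerivAt_integral_of_dominated_of_fderiv_le (μ := volume)
    (F := fun p s => G (p, s))
    (F' := fun p s => (fderiv ℝ G (p, s)).comp (ContinuousLinearMap.inl ℝ ℂ ℝ))
    (bound := fun _ => C) (Metric.closedBall_mem_nhds p₀ one_pos)
    (Eventually.of_forall fun p => (c1 p).aestronglyMeasurable)
    ((c1 p₀).intervalIntegrable _ _)
    (sG'.comp (continuous_const.prodMk continuous_id)).aestronglyMeasurable
    (Eventually.of_forall fun s hs p hp => hC (p, s) ⟨hp, uIoc_subset_uIcc hs⟩)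
    intervalIntegrable_const (Eventually.of_forall fun s _ p _ => ?_)
  exact ((hG.differentiable (by simp)) (p, s)).hasFDerivAt.comp p (hasFDerivAt_prodMk_left p s)

theorem sm_int (n : ℕ) : ∀ (F : Type) [NormedAddCommGroup F] [NormedSpace ℝ F]
    (G : ℂ × ℝ → F), ContDiff ℝ ∞ G →
    ContDiff ℝ n fun p : ℂ => ∫ s in (0 : ℝ)..1, G (p, s) := by
  induction n with
  | zero =>
    intro F _ _ G hG
    rw [Nat.cast_zero, contDiff_zero]
    exact intervalIntegral.continuous_parametric_intervalIntegral_of_continuous'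
      (f := fun p s => G (p, s)) hG.continuous 0 1
  | succ n ih =>
    intro F _ _ G hG
    rw [Nat.cast_succ, contDiff_succ_iff_hasFDerivAt]
    exact ⟨fun p => ∫ s in (0 : ℝ)..1, (fderiv ℝ G (p, s)).comp (ContinuousLinearMap.inl ℝ ℂ ℝ),
      ih _ (fun q => (fderiv ℝ G q).comp (ContinuousLinearMap.inl ℝ ℂ ℝ))
        ((hG.fderiv_right (m := ∞) (by simp)).clm_comp contDiff_const), hfd_int hG⟩

theorem divi (ρ γ : ℂ → ℂ) (hρ : ContDiff ℝ ∞ ρ) (hγ : ContDiff ℝ ∞ γ) (h0 : ρ 0 = 0)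
    (h : ∀ z, db1 ρ z = z * γ z) :
    ∃ ρ₁ : ℂ → ℂ, ContDiff ℝ ∞ ρ₁ ∧ (∀ z, ρ z = z * ρ₁ z) ∧ db1 ρ₁ = γ := by
  have hs : ContDiff ℝ ∞ fun q : ℂ × ℝ => q.2 • q.1 := contDiff_snd.smul contDiff_fst
  have hG : ContDiff ℝ ∞ fun q : ℂ × ℝ => d1 ρ (q.2 • q.1) + q.2 • (γ (q.2 • q.1) * cj q.1) :=
    ((sm_d1 hρ).comp hs).add
      (contDiff_snd.smul ((hγ.comp hs).mul (cj.contDiff.comp contDiff_fst)))
  have h1 : ContDiff ℝ ∞ fun p : ℂ =>
      ∫ s in (0 : ℝ)..1, (d1 ρ (s • p) + s • (γ (s • p) * cj p)) :=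
    contDiff_infty.2 fun n => sm_int n ℂ _ hG
  have h2 : ∀ z, ρ z = z * ∫ s in (0 : ℝ)..1, (d1 ρ (s • z) + s • (γ (s • z) * cj z)) := by
    intro z
    have hd : ∀ s ∈ uIcc (0 : ℝ) 1, HasDerivAt (fun t : ℝ => ρ (t • z))
        (z * (d1 ρ (s • z) + s • (γ (s • z) * cj z))) s := by
      intro s _
      have := ((hρ.differentiable (by simp)) (s • z)).hasFDerivAt.comp_hasDerivAt s
        ((hasDerivAt_id s).smul_const z)
      refine this.congr_deriv ?_
      rw [one_smul, fd, h, cj_apply]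
      simp only [Complex.real_smul]; ring
    have hc : Continuous fun s : ℝ => z * (d1 ρ (s • z) + s • (γ (s • z) * cj z)) :=
      have c1 := (sm_d1 hρ).continuous
      have c2 := hγ.continuous
      by fun_prop
    have := intervalIntegral.integral_eq_sub_of_hasDerivAt hd (hc.intervalIntegrable _ _)
    rw [intervalIntegral.integral_const_mul] at this
    rw [this]; simp [h0]
  refine ⟨_, h1, h2, ?_⟩
  generalize hr : (fun p : ℂ => ∫ s in (0 : ℝ)..1, (d1 ρ (s • p) + s • (γ (s • p) * cj p))) = r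
    at h1 ⊢
  have h3 : ρ = fun z => z * r z := funext fun z => by rw [h2, ← hr]
  have h4 : ∀ z, db1 (fun y : ℂ => y) z = 0 := fun z =>
    (of_fd (A := 1) fun v => by simp).2
  refine Continuous.ext_on (dense_compl_singleton (0 : ℂ)) (sm_db1 h1).continuous hγ.continuous
    fun z hz => mul_left_cancel₀ (a := z) hz ?_
  rw [← h, h3, (mul (fun y => y) r z differentiableAt_id (h1.differentiable (by simp) z)).2, h4]
  simp

end P1P

theorem p1_ok : StP1 :=
  ⟨P1P.poin, P1P.divi, P1P.const, fun _ h => ⟨P1P.sm_d1 h, P1P.sm_db1 h, P1P.comm h⟩, P1P.inv,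
    P1P.mul, P1P.cnj⟩

end Pool.Agent.P.MP_2cea5e_gt.Se
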