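import Pool.Agent.P.MP_2cea5e_gt.Se.S0

/-!
Package P3: every invariant metric on the model has potentials.
-/

open scoped ContDiff ComplexOrder Matrix Topology ComplexConjugate
open MeasureTheory Set Filter

noncomputable section

namespace Pool.Agent.P.MP_2cea5e_gt.Se

open II III

namespace P3bP

/-- The invariant coordinate. -/
def ze : C2 →L[ℝ] ℂ :=
  (ContinuousLinearMap.proj (R := ℝ) (φ := fun _ : Fin 2 => ℂ) 1) -
    (Complex.conjCLE : ℂ →L[ℝ] ℂ).comp (ContinuousLinearMap.proj (R := ℝ) (φ := fun _ : Fin 2 => ℂ) 0)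

theorem ze_apply (w : C2) : ze w = w 1 - conj (w 0) := rfl

theorem d_ze {G : ℂ → ℂ} {w : C2} (hG : DifferentiableAt ℝ G (ze w)) :
    dz 0 (fun y => G (ze y)) w = -db1 G (ze w) ∧ dz 1 (fun y => G (ze y)) w = d1 G (ze w) ∧
    dzb 0 (fun y => G (ze y)) w = -d1 G (ze w) ∧ dzb 1 (fun y => G (ze y)) w = db1 G (ze w) := by
  have h := (hG.hasFDerivAt.comp w ze.hasFDerivAt).fderiv
  have h1 : ∀ v, fderiv ℝ (fun y => G (ze y)) w v = fderiv ℝ G (ze w) (ze v) := fun v => by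
    rw [show (fun y => G (ze y)) = G ∘ ze from rfl, h]
    rfl
  have a0 : ze (Pi.single 0 1) = -1 := by simp [ze_apply]
  have a1 : ze (Pi.single 0 Complex.I) = Complex.I := by simp [ze_apply]
  have a2 : ze (Pi.single 1 1) = 1 := by simp [ze_apply]
  have a3 : ze (Pi.single 1 Complex.I) = Complex.I := by simp [ze_apply]
  simp only [dz, dzb, d1, db1, h1, a0, a1, a2, a3, map_neg]
  refine ⟨by ring, trivial, by ring, trivial⟩

theorem d1_neg (F : ℂ → ℂ) (z : ℂ) :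
    d1 (fun y => -F y) z = -d1 F z ∧ db1 (fun y => -F y) z = -db1 F z := by
  simp only [d1, db1, fderiv_fun_neg, neg_apply]
  constructor <;> ring

theorem d1_sub {F G : ℂ → ℂ} {z : ℂ} (hF : DifferentiableAt ℝ F z) (hG : DifferentiableAt ℝ G z) :
    d1 (fun y => F y - G y) z = d1 F z - d1 G z := by
  simp only [d1, fderiv_fun_sub hF hG, sub_apply]
  ring

theorem d_sq (c : ℂ) (w : C2) :
    dzb 0 (fun y : C2 => c * (y 0 * conj (y 0))) w = c * w 0 ∧
      dzb 1 (fun y : C2 => c * (y 0 * conj (y 0))) w = 0 := by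
  let P : C2 →L[ℝ] ℂ := ContinuousLinearMap.proj (R := ℝ) (φ := fun _ : Fin 2 => ℂ) 0
  let Q : C2 →L[ℝ] ℂ := (Complex.conjCLE : ℂ →L[ℝ] ℂ).comp P
  have h := ((P.hasFDerivAt (x := w)).fun_mul Q.hasFDerivAt |>.const_mul c).fderiv
  have h1 : (fun y : C2 => c * (y 0 * conj (y 0))) = fun y => c * (P y * Q y) := rfl
  rw [h1, dzb, dzb, h]
  constructor
  · simp [P, Q]
    linear_combination (c * (conj (w 0) - w 0) / 2) * Complex.I_mul_I
  · simp [P, Q]

theorem d_lin (c : ℂ) (w : C2) :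
    dz 0 (fun y : C2 => c * y 0) w = c ∧ dz 1 (fun y : C2 => c * y 0) w = 0 := by
  let P : C2 →L[ℝ] ℂ := ContinuousLinearMap.proj (R := ℝ) (φ := fun _ : Fin 2 => ℂ) 0
  have h := ((P.hasFDerivAt (x := w)).const_mul c).fderiv
  have h1 : (fun y : C2 => c * y 0) = fun y => c * P y := rfl
  rw [h1, dz, dz, h]
  constructor
  · simp [P]
    linear_combination (-c / 2) * Complex.I_mul_I
  · simp [P]

theorem sm_co (i : Fin 2) : ContDiff ℝ ∞ fun y : C2 => y i := contDiff_apply ℝ ℂ i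

theorem sm_cj : ContDiff ℝ ∞ fun y : C2 => conj (y 0) := Complex.conjCLE.contDiff.comp (sm_co 0)

/-- The complex Hessian of `c |w₀|² + ψ (w₁ - conj w₀)`. -/
theorem hess0 (h1 : StP1) (c : ℝ) {ψ : ℂ → ℝ} (hψ : ContDiff ℝ ∞ ψ) (w : C2) :
    hess (fun y => c * ‖y 0‖ ^ 2 + ψ (ze y)) w =
      !![c + d1 (db1 fun z => (ψ z : ℂ)) (ze w), -conj (d1 (d1 fun z => (ψ z : ℂ)) (ze w));
        -d1 (d1 fun z => (ψ z : ℂ)) (ze w), d1 (db1 fun z => (ψ z : ℂ)) (ze w)] := by
  have hΨ : ContDiff ℝ ∞ fun z => (ψ z : ℂ) := Complex.ofRealCLM.contDiff.comp hψ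
  generalize hd : (fun z => (ψ z : ℂ)) = Ψ at hΨ
  have hr : ∀ z, conj (Ψ z) = Ψ z := fun z => by rw [← hd]; exact Complex.conj_ofReal _
  have df : ∀ {G : ℂ → ℂ}, ContDiff ℝ ∞ G → ∀ z, DifferentiableAt ℝ G z := fun hG z =>
    hG.differentiable (by simp) z
  have dc : ∀ {G : ℂ → ℂ}, ContDiff ℝ ∞ G → ∀ y : C2, DifferentiableAt ℝ (fun y => G (ze y)) y :=
    fun hG y => (df hG _).comp y ze.differentiableAt
  obtain ⟨s1, s2, s3⟩ := h1.sm Ψ hΨ
  have e : (fun y : C2 => ((c * ‖y 0‖ ^ 2 + ψ (ze y) : ℝ) : ℂ)) =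
      fun y => (c : ℂ) * (y 0 * conj (y 0)) + Ψ (ze y) := by
    funext y
    rw [← hd, Complex.mul_conj']
    push_cast
    rfl
  have dq : ∀ y : C2, DifferentiableAt ℝ (fun y : C2 => (c : ℂ) * (y 0 * conj (y 0))) y := fun y =>
    (contDiff_const.mul ((sm_co 0).mul sm_cj)).differentiable (by simp) y
  have e0 : dzb 0 (fun y : C2 => (c : ℂ) * (y 0 * conj (y 0)) + Ψ (ze y)) =
      fun y => (c : ℂ) * y 0 + (fun z => -d1 Ψ z) (ze y) := by
    funext y
    rw [Abs.Tens.dzb_add (dq y) (dc hΨ y), (d_sq c y).1, (d_ze (df hΨ _)).2.2.1]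
  have e1 : dzb 1 (fun y : C2 => (c : ℂ) * (y 0 * conj (y 0)) + Ψ (ze y)) =
      fun y => db1 Ψ (ze y) := by
    funext y
    rw [Abs.Tens.dzb_add (dq y) (dc hΨ y), (d_sq c y).2, (d_ze (df hΨ _)).2.2.2, zero_add]
  have dl : DifferentiableAt ℝ (fun y : C2 => (c : ℂ) * y 0) w :=
    (contDiff_const.mul (sm_co 0)).differentiable (by simp) w
  have e2 : db1 Ψ = fun z => conj (d1 Ψ z) := by
    funext z
    rw [← (h1.cnj Ψ z (df hΨ z)).2]
    simp only [hr]
  ext j k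
  rw [hess, Matrix.of_apply, e]
  fin_cases j <;> fin_cases k
  · change dz 0 (dzb 0 _) w = c + d1 (db1 Ψ) (ze w)
    rw [e0, Abs.Tens.dz_add dl (dc s1.neg w), (d_lin c w).1, (d_ze (df s1.neg _)).1,
      (d1_neg _ _).2, neg_neg, s3]
  · change dz 0 (dzb 1 _) w = -conj (d1 (d1 Ψ) (ze w))
    rw [e1, (d_ze (df s2 _)).1, e2, (h1.cnj _ _ (df s1 _)).2]
  · change dz 1 (dzb 0 _) w = -d1 (d1 Ψ) (ze w)
    rw [e0, Abs.Tens.dz_add dl (dc s1.neg w), (d_lin c w).2, (d_ze (df s1.neg _)).2.1,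
      (d1_neg _ _).1, zero_add]
  · change dz 1 (dzb 1 _) w = d1 (db1 Ψ) (ze w)
    rw [e1, (d_ze (df s2 _)).2.1]

theorem sm_ax : ContDiff ℝ ∞ fun z : ℂ => (![0, z] : C2) := by
  refine contDiff_pi.2 fun i => ?_
  fin_cases i
  · exact contDiff_const
  · exact contDiff_id

theorem ze_tr (s : ℂ) (w : C2) : ze (w + tr s) = ze w := by
  change w 1 + conj s - conj (w 0 + s) = w 1 - conj (w 0)
  rw [map_add]
  ring

/-- The potential in the chart at infinity. -/
theorem sm_inf (c a : ℝ) {ψ F : ℂ → ℝ} (hψ : ContDiff ℝ ∞ ψ) (hF : ContDiff ℝ ∞ F)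
    (h : ∀ τ : ℂ, τ ≠ 0 → ψ τ⁻¹ + a * Real.log (‖τ‖ ^ 2) = F τ) :
    ContDiff ℝ ∞ fun w : C2 => if w 1 = 0 then c * ‖w 0‖ ^ 2 + F 0 else
      c * ‖w 0‖ ^ 2 + ψ (ze (inv2 w)) + a * Real.log (‖w 1‖ ^ 2) := by
  have hq : ContDiff ℝ ∞ fun w : C2 => c * ‖w 0‖ ^ 2 := contDiff_const.mul ((sm_co 0).norm_sq ℝ)
  refine contDiff_iff_contDiffAt.2 fun w => ?_
  by_cases hw : w 1 = 0
  · have hn : ContDiff ℝ ∞ fun y : C2 => 1 - y 1 * conj (y 0) :=
      contDiff_const.sub ((sm_co 1).mul sm_cj)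
    have h0 : 1 - w 1 * conj (w 0) ≠ 0 := by simp [hw]
    have h1 : ContDiffAt ℝ ∞ (fun y : C2 => c * ‖y 0‖ ^ 2 +
        F (y 1 * (1 - y 1 * conj (y 0))⁻¹) + a * Real.log (‖1 - y 1 * conj (y 0)‖ ^ 2)) w :=
      (hq.contDiffAt.add (hF.contDiffAt.comp w ((sm_co 1).contDiffAt.mul
        (hn.contDiffAt.inv h0)))).add (contDiffAt_const.mul
          ((hn.norm_sq ℝ).contDiffAt.log (pow_ne_zero 2 (norm_ne_zero_iff.2 h0))))
    refine h1.congr_of_eventuallyEq ?_
    filter_upwards [hn.continuous.continuousAt.eventually_ne h0] with y hy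
    split_ifs with h2
    · simp [h2]
    · have h3 : ze (inv2 y) = (y 1 * (1 - y 1 * conj (y 0))⁻¹)⁻¹ := by
        rw [ze_apply]
        simp only [inv2, Matrix.cons_val_one, Matrix.cons_val_zero, Matrix.cons_val_fin_one]
        field_simp
      rw [← h _ (mul_ne_zero h2 (inv_ne_zero hy)), h3, norm_mul, norm_inv, Real.log_pow,
        Real.log_pow, Real.log_pow, Real.log_mul (norm_ne_zero_iff.2 h2)
          (inv_ne_zero (norm_ne_zero_iff.2 hy)), Real.log_inv]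
      ring
  · have h1 : ContDiffAt ℝ ∞ (fun y : C2 => c * ‖y 0‖ ^ 2 + ψ (ze (inv2 y)) +
        a * Real.log (‖y 1‖ ^ 2)) w :=
      (hq.contDiffAt.add ((hψ.comp ze.contDiff).contDiffAt.comp w
        (((S0P.an_inv hw).contDiffAt (n := ∞)).restrict_scalars ℝ))).add (contDiffAt_const.mul
          (((sm_co 1).norm_sq ℝ).contDiffAt.log (pow_ne_zero 2 (norm_ne_zero_iff.2 hw))))
    refine h1.congr_of_eventuallyEq ?_
    filter_upwards [(sm_co 1).continuous.continuousAt.eventually_ne hw] with y hy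
    rw [if_neg hy]

theorem dens1 {F G : ℂ → ℂ} (hF : Continuous F) (hG : Continuous G) (h : ∀ z, z ≠ 0 → F z = G z)
    (z : ℂ) : F z = G z :=
  congrFun (Continuous.ext_on (dense_compl_singleton (0 : ℂ)) hF hG fun z hz => h z hz) z

end P3bP

open P3bP

theorem potS_ok2 (_h0 : StGa) (h1 : StP1) (h2 : StP2) : StPotS := by
  intro g hg
  have df : ∀ {G : ℂ → ℂ}, ContDiff ℝ ∞ G → ∀ z, DifferentiableAt ℝ G z := fun hG z =>
    hG.differentiable (by simp) z
  obtain ⟨m, hm⟩ : ∃ m : Bool → Fin 2 → Fin 2 → ℂ → ℂ, ∀ b j k z, m b j k z = g b ![0, z] j k :=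
    ⟨_, fun _ _ _ _ => rfl⟩
  have sm : ∀ b j k, ContDiff ℝ ∞ (m b j k) := fun b j k => by
    rw [show m b j k = fun z => g b ![0, z] j k from funext (hm b j k)]
    exact (hg.smooth b j k).comp sm_ax
  have he : ∀ b j k z, conj (m b j k z) = m b k j z := fun b j k z => by
    rw [hm, hm]
    exact (hg.pos b _).isHermitian.apply k j
  have re : ∀ b j z, ((m b j j z).re : ℂ) = m b j j z := fun b j z =>
    Complex.conj_eq_iff_re.1 (he b j j z)
  have e0 : ∀ w j k, g false w j k = m false j k (ze w) := fun w j k => by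
    rw [hm, ← hg.inv (-w 0) w]
    congr 1
    funext i
    fin_cases i <;> simp [tr, ze_apply, sub_eq_add_neg]
  have cl : ∀ k z, d1 (m false 0 k) z = -db1 (m false 1 k) z := fun k z => by
    have h := hg.closed false ![0, z] 0 k 1
    have hz : ze ![0, z] = z := by simp [ze_apply]
    simp only [e0] at h
    rwa [(d_ze (df (sm _ _ _) _)).1, (d_ze (df (sm _ _ _) _)).2.1, hz] at h
  have cj : ∀ j k, (fun z => conj (m false j k z)) = m false k j := fun j k => funext (he _ j k)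
  have c1 : ∀ z, db1 (m false 1 0) z = -d1 (m false 1 1) z := fun z => by
    have a := (h1.cnj _ z (df (sm false 0 1) z)).2
    have b := (h1.cnj _ z (df (sm false 1 1) z)).1
    rw [cj] at a b
    rw [a, b, cl, map_neg]
  -- the constant
  obtain ⟨k, hk⟩ := h1.const (fun z => m false 0 0 z - m false 1 1 z) fun z _ => by
    have hd := df ((sm false 0 0).sub (sm false 1 1)) z
    have a : d1 (fun z => m false 0 0 z - m false 1 1 z) z = 0 := by
      rw [d1_sub (df (sm _ _ _) z) (df (sm _ _ _) z), cl, c1, neg_neg, sub_self]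
    refine ⟨hd, a, ?_⟩
    have b := (h1.cnj _ z hd).2
    simp only [map_sub, he] at b
    rw [b, a, map_zero]
  have hk' := dens1 ((sm false 0 0).sub (sm false 1 1)).continuous continuous_const hk
  have gl : ∀ τ : ℂ, τ ≠ 0 → m true 0 0 τ = m false 0 0 τ⁻¹ ∧
      m true 1 0 τ = -(τ ^ 2)⁻¹ * m false 1 0 τ⁻¹ ∧
      m true 1 1 τ = -(τ ^ 2)⁻¹ * m false 1 1 τ⁻¹ * conj (-(τ ^ 2)⁻¹) := fun τ hτ => by
    have h := hg.glue ![0, τ] hτ
    rw [S0P.pb_inv hτ, S0P.pbd_eq] at h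
    simp only [hm, h]
    exact ⟨rfl, rfl, rfl⟩
  have g11 : ∀ τ : ℂ, τ ≠ 0 → m false 1 1 τ⁻¹ = (‖τ‖ ^ 4 : ℝ) * m true 1 1 τ := fun τ hτ => by
    have h3 : conj τ ≠ 0 := (map_ne_zero _).2 hτ
    have h4 : ((‖τ‖ ^ 4 : ℝ) : ℂ) = (τ * conj τ) ^ 2 := by
      rw [Complex.mul_conj']
      push_cast
      ring
    rw [(gl τ hτ).2.2, h4, map_neg, map_inv₀, map_pow]
    field_simp
  have k0 : m true 0 0 0 = k := by
    have h := dens1 (F := m true 0 0) (G := fun τ => k + (‖τ‖ ^ 4 : ℝ) * m true 1 1 τ)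
      (sm _ _ _).continuous (continuous_const.add ((Complex.continuous_ofReal.comp
        (continuous_norm.pow 4)).mul (sm _ _ _).continuous)) (fun τ hτ => by
          rw [(gl τ hτ).1, ← g11 τ hτ, ← hk' τ⁻¹]
          ring) 0
    simpa using h
  have kp : 0 < k := by
    rw [← k0, hm]
    exact (hg.pos true _).diag_pos
  have kr : (k.re : ℂ) = k := by rw [← k0]; exact re _ _ _
  obtain ⟨ψ, F, a, hψ, hF, p1, p2, p3⟩ := h2 (fun z => (m false 1 1 z).re)
    (fun z => (m true 1 1 z).re) (fun z => -m false 1 0 z) (m true 1 0)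
    (Complex.reCLM.contDiff.comp (sm _ _ _)) (Complex.reCLM.contDiff.comp (sm _ _ _))
    (sm _ _ _).neg (sm _ _ _)
    (by
      funext z
      simp only [re]
      rw [(d1_neg _ _).2, c1, neg_neg])
    (fun τ hτ => ⟨by simp only [g11 τ hτ, Complex.re_ofReal_mul], by
      rw [(gl τ hτ).2.1]
      field_simp⟩)
  let f : Bool → Fn := fun b => bif b then fun w : C2 => if w 1 = 0 then k.re * ‖w 0‖ ^ 2 + F 0 else
      k.re * ‖w 0‖ ^ 2 + ψ (ze (inv2 w)) + a * Real.log (‖w 1‖ ^ 2)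
    else fun w => k.re * ‖w 0‖ ^ 2 + ψ (ze w)
  have hp : SPt k.re a f := by
    refine ⟨fun b => ?_, fun s w => ?_, fun w hw => if_neg hw⟩
    · cases b
      · exact (contDiff_const.mul ((sm_co 0).norm_sq ℝ)).add (hψ.comp ze.contDiff)
      · exact sm_inf _ _ hψ hF p3
    · simp only [f, cond_false, ze_tr]
      simp [tr]
  have H0 : hess (f false) = g false := by
    funext w
    have := hk' (ze w)
    rw [show hess (f false) w = _ from hess0 h1 k.re hψ w, p1, p2, kr]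
    ext j l
    rw [e0]
    fin_cases j <;> fin_cases l
    · change k + ((m false 1 1 (ze w)).re : ℂ) = m false 0 0 (ze w)
      rw [re]
      linear_combination -this
    · change -conj (-m false 1 0 (ze w)) = m false 0 1 (ze w)
      rw [map_neg, neg_neg, he]
    · exact neg_neg _
    · exact re _ _ _
  have H1 : hess (f true) = g true := by
    funext w
    refine S0P.dens (continuous_matrix fun j l => (S0P.sm_hess (hp.sm true) j l).continuous).continuousAt
      (continuous_matrix fun j l => (hg.smooth true j l).continuous).continuousAt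
      (Eventually.of_forall fun y hy => ?_)
    rw [S0P.hess_glue hp y hy, H0, hg.glue y hy]
  have H : ∀ b, hess (f b) = g b := fun b => by
    cases b
    · exact H0
    · exact H1
  exact ⟨k.re, a, f, ⟨hp, (Complex.pos_iff.1 kp).1, fun b w => H b ▸ hg.pos b w⟩, H⟩

end Pool.Agent.P.MP_2cea5e_gt.Se
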