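import Pool.Agent.P.MP_2cea5e_gt.Se.Api

/-!
Package QR: decay of the energy of a quasiregular map by hole filling on squares.
-/

open scoped ContDiff Topology ENNReal
open MeasureTheory Set Filter

noncomputable section

namespace Pool.Agent.P.MP_2cea5e_gt.Se

namespace QRP

theorem cs1 {g e : ℝ → ℝ} (hg : Continuous g) (he : Continuous e) (h : ∀ y, g y ^ 2 ≤ e y)
    {lo hi L B : ℝ} (hl : lo ≤ hi) (hL : 0 < L) (hd : hi - lo ≤ L)
    (hB : ∫ y in lo..hi, e y ≤ B) : ∫ y in lo..hi, |g y| ≤ √(L * B) := by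
  set I := ∫ y in lo..hi, |g y| with hI
  apply Real.le_sqrt_of_sq_le
  have h1 : ∫ y in lo..hi, 2 * (I / L) * |g y| ≤ ∫ y in lo..hi, (e y + (I / L) ^ 2) := by
    refine intervalIntegral.integral_mono_on hl ?_ ?_ fun y _ => ?_
    · exact (continuous_const.mul hg.abs).intervalIntegrable _ _
    · exact (he.add continuous_const).intervalIntegrable _ _
    · have := h y
      have h2 := sq_abs (g y)
      nlinarith [sq_nonneg (|g y| - I / L)]
  rw [intervalIntegral.integral_const_mul, intervalIntegral.integral_add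
    (he.intervalIntegrable _ _) (continuous_const.intervalIntegrable _ _),
    intervalIntegral.integral_const, smul_eq_mul, ← hI] at h1
  have h3 : (hi - lo) * (I / L) ^ 2 ≤ L * (I / L) ^ 2 :=
    mul_le_mul_of_nonneg_right hd (sq_nonneg _)
  have h4 : L * (I / L) ^ 2 = I ^ 2 / L := by field_simp
  have h5 : 2 * (I / L) * I = 2 * (I ^ 2 / L) := by ring
  have h6 : I ^ 2 / L ≤ B := by linarith
  rw [div_le_iff₀ hL] at h6
  linarith

theorem side {φ g : ℝ → ℝ} (hg : Continuous g) {lo hi M N : ℝ} (hl : lo ≤ hi) (hM : 0 ≤ M)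
    (h : ∀ y ∈ Icc lo hi, |φ y| ≤ M) (hN : ∫ y in lo..hi, |g y| ≤ N) :
    |∫ y in lo..hi, φ y * g y| ≤ M * N := by
  have h1 : ‖∫ y in lo..hi, φ y * g y‖ ≤ ∫ y in lo..hi, M * |g y| := by
    refine intervalIntegral.norm_integral_le_of_norm_le hl (Eventually.of_forall fun y hy => ?_)
      ((continuous_const.mul hg.abs).intervalIntegrable _ _)
    rw [Real.norm_eq_abs, abs_mul]
    exact mul_le_mul_of_nonneg_right (h y (Ioc_subset_Icc_self hy)) (abs_nonneg _)
  rw [intervalIntegral.integral_const_mul, Real.norm_eq_abs] at h1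
  exact h1.trans (mul_le_mul_of_nonneg_left hN hM)

theorem osc {φ g : ℝ → ℝ} (hg : Continuous g) (hφ : ∀ y, HasDerivAt φ (g y) y) {lo hi N : ℝ}
    (hN : ∫ y in lo..hi, |g y| ≤ N) {y : ℝ} (hy : y ∈ Icc lo hi) : |φ y - φ lo| ≤ N := by
  rw [← intervalIntegral.integral_eq_sub_of_hasDerivAt (fun z _ => hφ z)
    (hg.intervalIntegrable _ _)]
  refine (intervalIntegral.abs_integral_le_integral_abs hy.1).trans (le_trans ?_ hN)
  exact intervalIntegral.integral_mono_interval le_rfl hy.1 hy.2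
    (Eventually.of_forall fun z => abs_nonneg _) (hg.abs.intervalIntegrable _ _)

theorem rect {f : ℝ × ℝ → ℝ} (hf : Continuous f) {p q v w : ℝ} (h1 : p ≤ q) (h2 : v ≤ w) :
    ∫ z in Ioo p q ×ˢ Ioo v w, f z = ∫ u in p..q, ∫ y in v..w, f (u, y) := by
  have hi : IntegrableOn f (Ioo p q ×ˢ Ioo v w) (Measure.prod volume volume) :=
    (hf.continuousOn.integrableOn_compact (isCompact_Icc.prod isCompact_Icc)).mono_set
      (prod_mono Ioo_subset_Icc_self Ioo_subset_Icc_self)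
  rw [Measure.volume_eq_prod, setIntegral_prod f hi]
  simp only [intervalIntegral.integral_of_le h1, intervalIntegral.integral_of_le h2,
    integral_Ioc_eq_integral_Ioo]

theorem rect' {f : ℝ × ℝ → ℝ} (hf : Continuous f) {p q v w : ℝ} (h1 : p ≤ q) (h2 : v ≤ w) :
    ∫ z in Ioo p q ×ˢ Ioo v w, f z = ∫ y in v..w, ∫ u in p..q, f (u, y) := by
  rw [rect hf h1 h2]
  refine intervalIntegral_intervalIntegral_swap (F := fun u y => f (u, y)) ?_
  exact (hf.continuousOn.integrableOn_compact (isCompact_uIcc.prod isCompact_uIcc)).mono_set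
    (prod_mono uIoc_subset_uIcc uIoc_subset_uIcc)

theorem ball_eq (a b r : ℝ) :
    Metric.ball ((a, b) : ℝ × ℝ) r = Ioo (a - r) (a + r) ×ˢ Ioo (b - r) (b + r) := by
  rw [← ball_prod_same, Real.ball_eq_Ioo, Real.ball_eq_Ioo]

theorem ion {f : ℝ × ℝ → ℝ} (hf : Continuous f) (x : ℝ × ℝ) (r : ℝ) :
    IntegrableOn f (Metric.ball x r) :=
  (hf.continuousOn.integrableOn_compact (isCompact_closedBall x r)).mono_set
    Metric.ball_subset_closedBall

theorem strip {E : ℝ × ℝ → ℝ} (hE : Continuous E) (h0 : ∀ z, 0 ≤ E z) {x : ℝ × ℝ} {ρ R : ℝ}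
    (hρ : ρ ≤ R) {S : Set (ℝ × ℝ)} (hS : MeasurableSet S) (h1 : S ⊆ Metric.ball x R)
    (h2 : Disjoint (Metric.ball x ρ) S) :
    ∫ z in S, E z ≤ (∫ z in Metric.ball x R, E z) - ∫ z in Metric.ball x ρ, E z := by
  have h3 := setIntegral_union h2 hS (ion hE x ρ) ((ion hE x R).mono_set h1)
  have h4 : ∫ z in Metric.ball x ρ ∪ S, E z ≤ ∫ z in Metric.ball x R, E z :=
    setIntegral_mono_set (ion hE x R) (Eventually.of_forall h0)
      (union_subset (Metric.ball_subset_ball hρ) h1).eventuallyLE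
  linarith

theorem cs {f : Fx} (hf : Continuous f) (s : ℝ) : Continuous fun z : ℝ × ℝ => f (s, z) :=
  hf.comp (continuous_const.prodMk continuous_id)

theorem ch {f : Fx} (hf : Continuous f) (s v : ℝ) : Continuous fun u : ℝ => f (s, u, v) :=
  hf.comp (continuous_const.prodMk (continuous_id.prodMk continuous_const))

theorem cv {f : Fx} (hf : Continuous f) (s u : ℝ) : Continuous fun v : ℝ => f (s, u, v) :=
  hf.comp (continuous_const.prodMk (continuous_const.prodMk continuous_id))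

theorem dh {f : Fx} (hf : Sm f) (s v u : ℝ) :
    HasDerivAt (fun u : ℝ => f (s, u, v)) (D e1 f (s, u, v)) u := by
  have h1 : HasDerivAt (fun u : ℝ => ((s, u, v) : X)) e1 u :=
    (hasDerivAt_const u s).prodMk ((hasDerivAt_id u).prodMk (hasDerivAt_const u v))
  exact (hf.diff (s, u, v)).hasFDerivAt.comp_hasDerivAt u h1

theorem dw {f : Fx} (hf : Sm f) (s u v : ℝ) :
    HasDerivAt (fun v : ℝ => f (s, u, v)) (D e2 f (s, u, v)) v := by
  have h1 : HasDerivAt (fun v : ℝ => ((s, u, v) : X)) e2 v :=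
    (hasDerivAt_const v s).prodMk ((hasDerivAt_const v u).prodMk (hasDerivAt_id v))
  exact (hf.diff (s, u, v)).hasFDerivAt.comp_hasDerivAt v h1

theorem smJ {P Q : Fx} (hP : Sm P) (hQ : Sm Q) : Sm (Jc P Q) :=
  sm_sub (sm_mul (sm_D _ hP) (sm_D _ hQ)) (sm_mul (sm_D _ hP) (sm_D _ hQ))

theorem smE {P Q : Fx} (hP : Sm P) (hQ : Sm Q) : Sm (EE P Q) :=
  sm_add (sm_add (sm_mul (sm_D _ hP) (sm_D _ hP)) (sm_mul (sm_D _ hP) (sm_D _ hP)))
    (sm_add (sm_mul (sm_D _ hQ) (sm_D _ hQ)) (sm_mul (sm_D _ hQ) (sm_D _ hQ)))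

theorem EE_eq (P Q : Fx) (p : X) :
    EE P Q p = D e1 P p ^ 2 + D e2 P p ^ 2 + D e1 Q p ^ 2 + D e2 Q p ^ 2 := by
  simp only [EE, gr, ip2, Pi.add_apply, Pi.mul_apply]; ring

theorem EE0 (P Q : Fx) (p : X) : 0 ≤ EE P Q p := by rw [EE_eq]; positivity

theorem green {P Q : Fx} (hP : Sm P) (hQ : Sm Q) (s c u0 u1 v0 v1 : ℝ) :
    ∫ u in u0..u1, ∫ y in v0..v1, Jc P Q (s, u, y) =
      (∫ u in u0..u1, (P (s, u, v0) - c) * D e1 Q (s, u, v0)) -
      (∫ u in u0..u1, (P (s, u, v1) - c) * D e1 Q (s, u, v1)) +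
      (∫ y in v0..v1, (P (s, u1, y) - c) * D e2 Q (s, u1, y)) -
      ∫ y in v0..v1, (P (s, u0, y) - c) * D e2 Q (s, u0, y) := by
  have hc : Sm (P - K c) := sm_sub hP (sm_K c)
  have h1 : Sm ((P - K c) * D e2 Q) := sm_mul hc (sm_D _ hQ)
  have h2' : Sm ((P - K c) * D e1 Q) := sm_mul hc (sm_D _ hQ)
  have h2 : Sm (-((P - K c) * D e1 Q)) := sm_neg h2'
  have key : D e1 ((P - K c) * D e2 Q) + D e2 (-((P - K c) * D e1 Q)) = Jc P Q := by
    rw [D_neg, D_mul _ hc (sm_D _ hQ), D_mul _ hc (sm_D _ hQ), D_sub _ hP (sm_K c),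
      D_sub _ hP (sm_K c), D_K, D_K, D_comm e2 e1 hQ]
    funext p
    simp only [Jc, Pi.add_apply, Pi.mul_apply, Pi.sub_apply, Pi.neg_apply, Pi.zero_apply]
    ring
  have e : ∀ x : ℝ × ℝ,
      ((fderiv ℝ ((P - K c) * D e2 Q) (s, x)).comp (ContinuousLinearMap.inr ℝ ℝ (ℝ × ℝ))) (1, 0) +
      ((fderiv ℝ (-((P - K c) * D e1 Q)) (s, x)).comp (ContinuousLinearMap.inr ℝ ℝ (ℝ × ℝ))) (0, 1)
        = Jc P Q (s, x) := fun x => by rw [← key]; rfl
  have H := integral2_divergence_prod_of_hasFDerivAt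
    (fun x : ℝ × ℝ => ((P - K c) * D e2 Q) (s, x))
    (fun x : ℝ × ℝ => (-((P - K c) * D e1 Q)) (s, x)) _ _ u0 v0 u1 v1
    (cs h1.cont s).continuousOn (cs h2.cont s).continuousOn
    (fun x _ => hasFDerivAt_space h1 s x) (fun x _ => hasFDerivAt_space h2 s x)
    (by
      simp only [e]
      exact (cs (smJ hP hQ).cont s).continuousOn.integrableOn_compact
        (isCompact_uIcc.prod isCompact_uIcc))
  simp only [e] at H
  simp only [Pi.mul_apply, Pi.sub_apply, Pi.neg_apply, K_apply, intervalIntegral.integral_neg] at H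
  rw [H]; ring

theorem jac {P Q : Fx} (hP : Sm P) (hQ : Sm Q) (s : ℝ) {u0 u1 v0 v1 L B : ℝ} (hu : u0 ≤ u1)
    (hv : v0 ≤ v1) (hL : 0 < L) (hB : 0 ≤ B) (du : u1 - u0 ≤ L) (dv' : v1 - v0 ≤ L)
    (b0 : ∫ u in u0..u1, EE P Q (s, u, v0) ≤ B) (b1 : ∫ u in u0..u1, EE P Q (s, u, v1) ≤ B)
    (b2 : ∫ y in v0..v1, EE P Q (s, u0, y) ≤ B) (b3 : ∫ y in v0..v1, EE P Q (s, u1, y) ≤ B) :
    |∫ u in u0..u1, ∫ y in v0..v1, Jc P Q (s, u, y)| ≤ 6 * (L * B) := by
  have hE := (smE hP hQ).cont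
  have P1 := (sm_D e1 hP).cont
  have P2 := (sm_D e2 hP).cont
  have Q1 := (sm_D e1 hQ).cont
  have Q2 := (sm_D e2 hQ).cont
  have l1 : ∀ p, D e1 P p ^ 2 ≤ EE P Q p := fun p => by
    rw [EE_eq]; nlinarith [sq_nonneg (D e2 P p), sq_nonneg (D e1 Q p), sq_nonneg (D e2 Q p)]
  have l2 : ∀ p, D e2 P p ^ 2 ≤ EE P Q p := fun p => by
    rw [EE_eq]; nlinarith [sq_nonneg (D e1 P p), sq_nonneg (D e1 Q p), sq_nonneg (D e2 Q p)]
  have l3 : ∀ p, D e1 Q p ^ 2 ≤ EE P Q p := fun p => by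
    rw [EE_eq]; nlinarith [sq_nonneg (D e2 P p), sq_nonneg (D e1 P p), sq_nonneg (D e2 Q p)]
  have l4 : ∀ p, D e2 Q p ^ 2 ≤ EE P Q p := fun p => by
    rw [EE_eq]; nlinarith [sq_nonneg (D e2 P p), sq_nonneg (D e1 Q p), sq_nonneg (D e1 P p)]
  set m := √(L * B) with hm
  have m0 : 0 ≤ m := Real.sqrt_nonneg _
  have mm : m * m = L * B := Real.mul_self_sqrt (mul_nonneg hL.le hB)
  have p0 := cs1 (ch P1 s v0) (ch hE s v0) (fun _ => l1 _) hu hL du b0
  have p1 := cs1 (ch P1 s v1) (ch hE s v1) (fun _ => l1 _) hu hL du b1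
  have p2 := cs1 (cv P2 s u0) (cv hE s u0) (fun _ => l2 _) hv hL dv' b2
  have p3 := cs1 (cv P2 s u1) (cv hE s u1) (fun _ => l2 _) hv hL dv' b3
  have q0 := cs1 (ch Q1 s v0) (ch hE s v0) (fun _ => l3 _) hu hL du b0
  have q1 := cs1 (ch Q1 s v1) (ch hE s v1) (fun _ => l3 _) hu hL du b1
  have q2 := cs1 (cv Q2 s u0) (cv hE s u0) (fun _ => l4 _) hv hL dv' b2
  have q3 := cs1 (cv Q2 s u1) (cv hE s u1) (fun _ => l4 _) hv hL dv' b3
  have o0 : ∀ u ∈ Icc u0 u1, |P (s, u, v0) - P (s, u0, v0)| ≤ m := fun u h =>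
    osc (ch P1 s v0) (dh hP s v0) p0 h
  have o2 : ∀ y ∈ Icc v0 v1, |P (s, u0, y) - P (s, u0, v0)| ≤ m := fun y h =>
    osc (cv P2 s u0) (dw hP s u0) p2 h
  have o1 : ∀ u ∈ Icc u0 u1, |P (s, u, v1) - P (s, u0, v0)| ≤ 2 * m := fun u h => by
    have a1 : |P (s, u, v1) - P (s, u0, v1)| ≤ m := osc (ch P1 s v1) (dh hP s v1) p1 h
    have a2 := o2 v1 ⟨hv, le_rfl⟩
    have := abs_sub_le (P (s, u, v1)) (P (s, u0, v1)) (P (s, u0, v0))
    linarith
  have o3 : ∀ y ∈ Icc v0 v1, |P (s, u1, y) - P (s, u0, v0)| ≤ 2 * m := fun y h => by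
    have a1 : |P (s, u1, y) - P (s, u1, v0)| ≤ m := osc (cv P2 s u1) (dw hP s u1) p3 h
    have a2 := o0 u1 ⟨hu, le_rfl⟩
    have := abs_sub_le (P (s, u1, y)) (P (s, u1, v0)) (P (s, u0, v0))
    linarith
  have m2 : 0 ≤ 2 * m := by linarith
  have s0 := abs_le.1 (side (ch Q1 s v0) hu m0 o0 q0)
  have s1 := abs_le.1 (side (ch Q1 s v1) hu m2 o1 q1)
  have s2 := abs_le.1 (side (cv Q2 s u0) hv m0 o2 q2)
  have s3 := abs_le.1 (side (cv Q2 s u1) hv m2 o3 q3)
  rw [green hP hQ s (P (s, u0, v0)), abs_le]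
  constructor <;> nlinarith [s0.1, s0.2, s1.1, s1.2, s2.1, s2.2, s3.1, s3.2]

theorem step {P Q F : Fx} {k : ℝ} (hP : Sm P) (hQ : Sm Q) (hF : Loc F) {s : ℝ}
    (h : ∀ z : ℝ × ℝ, z ≠ 0 → EE P Q (s, z) ≤ k * Jc P Q (s, z) + F (s, z)) (x : ℝ × ℝ) (r : ℝ) :
    Ib (EE P Q) s x r ≤ k * Ib (Jc P Q) s x r + Ib F s x r := by
  have i1 := ion (cs (smE hP hQ).cont s) x r
  have i2 := (ion (cs (smJ hP hQ).cont s) x r).const_mul k
  have i3 := hF s x r
  have n0 : ∀ᵐ z : ℝ × ℝ, z ≠ 0 := by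
    rw [ae_iff]; simp
  unfold Ib
  rw [← integral_const_mul, ← integral_add i2 i3]
  exact integral_mono_ae i1 (i2.add i3) (ae_restrict_of_ae (n0.mono h))

theorem hole {P Q F : Fx} {k : ℝ} (hP : Sm P) (hQ : Sm Q) (hF : Loc F) {s : ℝ}
    (h : ∀ z : ℝ × ℝ, z ≠ 0 → EE P Q (s, z) ≤ k * Jc P Q (s, z) + F (s, z)) (x : ℝ × ℝ) {ρ A : ℝ}
    (hρ : 0 < ρ) (hA : ∀ r ∈ Icc ρ (2 * ρ), Ib F s x r ≤ A) :
    Ib (EE P Q) s x ρ ≤ 96 * |k| * (Ib (EE P Q) s x (2 * ρ) - Ib (EE P Q) s x ρ) + A := by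
  obtain ⟨a, b⟩ := x
  have hE := (smE hP hQ).cont
  have hEs := cs hE s
  have E0 : ∀ z : ℝ × ℝ, 0 ≤ EE P Q (s, z) := fun z => EE0 _ _ _
  set H := Ib (EE P Q) s (a, b) (2 * ρ) - Ib (EE P Q) s (a, b) ρ with hH
  let V : ℝ → ℝ := fun u => ∫ y in (b - 2 * ρ)..(b + 2 * ρ), EE P Q (s, u, y)
  let U : ℝ → ℝ := fun y => ∫ u in (a - 2 * ρ)..(a + 2 * ρ), EE P Q (s, u, y)
  have cV : Continuous V :=
    intervalIntegral.continuous_parametric_intervalIntegral_of_continuous'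
      (f := fun u y => EE P Q (s, u, y)) hEs _ _
  have cU : Continuous U :=
    intervalIntegral.continuous_parametric_intervalIntegral_of_continuous'
      (f := fun y u => EE P Q (s, u, y)) (hEs.comp continuous_swap) _ _
  have V0 : ∀ u, 0 ≤ V u := fun u =>
    intervalIntegral.integral_nonneg (by linarith) fun y _ => E0 _
  have U0 : ∀ y, 0 ≤ U y := fun y =>
    intervalIntegral.integral_nonneg (by linarith) fun u _ => E0 _
  have st : ∀ p q v w : ℝ, a - 2 * ρ ≤ p → q ≤ a + 2 * ρ → b - 2 * ρ ≤ v → w ≤ b + 2 * ρ →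
      (a + ρ ≤ p ∨ q ≤ a - ρ ∨ b + ρ ≤ v ∨ w ≤ b - ρ) →
      ∫ z in Ioo p q ×ˢ Ioo v w, EE P Q (s, z) ≤ H := by
    intro p q v w h1 h2 h3 h4 h5
    refine strip hEs E0 (by linarith) (measurableSet_Ioo.prod measurableSet_Ioo) ?_ ?_
    · rw [ball_eq]
      exact prod_mono (Ioo_subset_Ioo h1 h2) (Ioo_subset_Ioo h3 h4)
    · rw [ball_eq, Set.disjoint_left]
      rintro z ⟨⟨z1, z2⟩, z3, z4⟩ ⟨⟨y1, y2⟩, y3, y4⟩
      rcases h5 with h5 | h5 | h5 | h5 <;> linarith
  have t1 : ∫ r in ρ..2 * ρ, V (a + r) ≤ H := by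
    rw [intervalIntegral.integral_comp_add_left V a]
    have := st (a + ρ) (a + 2 * ρ) (b - 2 * ρ) (b + 2 * ρ) (by linarith) le_rfl le_rfl le_rfl
      (Or.inl le_rfl)
    rwa [rect hEs (by linarith) (by linarith)] at this
  have t2 : ∫ r in ρ..2 * ρ, V (a - r) ≤ H := by
    rw [intervalIntegral.integral_comp_sub_left V a]
    have := st (a - 2 * ρ) (a - ρ) (b - 2 * ρ) (b + 2 * ρ) le_rfl (by linarith) le_rfl le_rfl
      (Or.inr (Or.inl le_rfl))
    rwa [rect hEs (by linarith) (by linarith)] at this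
  have t3 : ∫ r in ρ..2 * ρ, U (b + r) ≤ H := by
    rw [intervalIntegral.integral_comp_add_left U b]
    have := st (a - 2 * ρ) (a + 2 * ρ) (b + ρ) (b + 2 * ρ) le_rfl le_rfl (by linarith) le_rfl
      (Or.inr (Or.inr (Or.inl le_rfl)))
    rwa [rect' hEs (by linarith) (by linarith)] at this
  have t4 : ∫ r in ρ..2 * ρ, U (b - r) ≤ H := by
    rw [intervalIntegral.integral_comp_sub_left U b]
    have := st (a - 2 * ρ) (a + 2 * ρ) (b - 2 * ρ) (b - ρ) le_rfl le_rfl le_rfl (by linarith)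
      (Or.inr (Or.inr (Or.inr le_rfl)))
    rwa [rect' hEs (by linarith) (by linarith)] at this
  have c1 : Continuous fun r => V (a + r) := cV.comp (continuous_const.add continuous_id)
  have c2 : Continuous fun r => V (a - r) := cV.comp (continuous_const.sub continuous_id)
  have c3 : Continuous fun r => U (b + r) := cU.comp (continuous_const.add continuous_id)
  have c4 : Continuous fun r => U (b - r) := cU.comp (continuous_const.sub continuous_id)
  let B : ℝ → ℝ := fun r => V (a + r) + V (a - r) + U (b + r) + U (b - r)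
  have cB : Continuous B := ((c1.add c2).add c3).add c4
  have tB : ∫ r in ρ..2 * ρ, B r ≤ 4 * H := by
    have e : ∫ r in ρ..2 * ρ, B r = (∫ r in ρ..2 * ρ, V (a + r)) + (∫ r in ρ..2 * ρ, V (a - r)) +
        (∫ r in ρ..2 * ρ, U (b + r)) + ∫ r in ρ..2 * ρ, U (b - r) := by
      have c12 : Continuous fun r => V (a + r) + V (a - r) := c1.add c2
      have c13 : Continuous fun r => V (a + r) + V (a - r) + U (b + r) := c12.add c3
      rw [← intervalIntegral.integral_add (c1.intervalIntegrable _ _) (c2.intervalIntegrable _ _),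
        ← intervalIntegral.integral_add (c12.intervalIntegrable _ _) (c3.intervalIntegrable _ _),
        ← intervalIntegral.integral_add (c13.intervalIntegrable _ _) (c4.intervalIntegrable _ _)]
    rw [e]; linarith
  have pt : ∀ r ∈ Icc ρ (2 * ρ), Ib (EE P Q) s (a, b) ρ - A ≤ 24 * |k| * ρ * B r := by
    intro r hr
    obtain ⟨r1, r2⟩ := hr
    have mU : ∀ y, ∫ u in (a - r)..(a + r), EE P Q (s, u, y) ≤ U y := fun y =>
      intervalIntegral.integral_mono_interval (by linarith) (by linarith) (by linarith)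
        (Eventually.of_forall fun u => E0 _) ((ch hE s y).intervalIntegrable _ _)
    have mV : ∀ u, ∫ y in (b - r)..(b + r), EE P Q (s, u, y) ≤ V u := fun u =>
      intervalIntegral.integral_mono_interval (by linarith) (by linarith) (by linarith)
        (Eventually.of_forall fun y => E0 _) ((cv hE s u).intervalIntegrable _ _)
    have w1 := V0 (a + r)
    have w2 := V0 (a - r)
    have w3 := U0 (b + r)
    have w4 := U0 (b - r)
    have eB : B r = V (a + r) + V (a - r) + U (b + r) + U (b - r) := rfl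
    have J := jac hP hQ s (u0 := a - r) (u1 := a + r) (v0 := b - r) (v1 := b + r) (L := 4 * ρ)
      (B := B r) (by linarith) (by linarith) (by linarith) (by linarith) (by linarith) (by linarith)
      ((mU _).trans (by linarith)) ((mU _).trans (by linarith)) ((mV _).trans (by linarith))
      ((mV _).trans (by linarith))
    have J2 : Ib (Jc P Q) s (a, b) r =
        ∫ u in (a - r)..(a + r), ∫ y in (b - r)..(b + r), Jc P Q (s, u, y) := by
      unfold Ib
      rw [ball_eq, rect (cs (smJ hP hQ).cont s) (by linarith) (by linarith)]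
    rw [← J2] at J
    have m1 : Ib (EE P Q) s (a, b) ρ ≤ Ib (EE P Q) s (a, b) r :=
      setIntegral_mono_set (ion hEs _ _) (Eventually.of_forall E0)
        (Metric.ball_subset_ball r1).eventuallyLE
    have m2 := step hP hQ hF h (a, b) r
    have m3 := hA r ⟨r1, r2⟩
    have m4 : k * Ib (Jc P Q) s (a, b) r ≤ |k| * (6 * (4 * ρ * B r)) :=
      (le_abs_self _).trans (by rw [abs_mul]; exact mul_le_mul_of_nonneg_left J (abs_nonneg k))
    linarith
  have cB' : Continuous fun r => 24 * |k| * ρ * B r := continuous_const.mul cB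
  have I := intervalIntegral.integral_mono_on (μ := volume) (by linarith : ρ ≤ 2 * ρ)
    (continuous_const.intervalIntegrable _ _) (cB'.intervalIntegrable _ _) pt
  rw [intervalIntegral.integral_const, intervalIntegral.integral_const_mul, smul_eq_mul] at I
  have I2 : 24 * |k| * ρ * ∫ r in ρ..2 * ρ, B r ≤ 24 * |k| * ρ * (4 * H) :=
    mul_le_mul_of_nonneg_left tB (by positivity)
  have I3 : ρ * (Ib (EE P Q) s (a, b) ρ - A) ≤ ρ * (96 * |k| * H) := by linarith
  have := le_of_mul_le_mul_left I3 hρ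
  linarith

theorem iter {d : ℕ → ℝ} {κ A A0 : ℝ} (hκ : 3 ≤ κ) (hA : 0 ≤ A) (h0 : d 0 ≤ A0)
    (h : ∀ n, d (n + 1) ≤ κ * (d n - d (n + 1)) + A * (3 / 4) ^ n) (n : ℕ) :
    d n ≤ max A0 (2 * A) * ((2 * κ + 1) / (2 * κ + 2)) ^ n := by
  set θ := (2 * κ + 1) / (2 * κ + 2) with hθ
  set C := max A0 (2 * A) with hC
  have eθ : θ * (2 * κ + 2) = 2 * κ + 1 := by rw [hθ]; field_simp
  have θ1 : 3 / 4 ≤ θ := by rw [hθ, le_div_iff₀ (by linarith)]; linarith
  have C1 : 2 * A ≤ C := le_max_right _ _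
  induction n with
  | zero => rw [pow_zero, mul_one]; exact h0.trans (le_max_left _ _)
  | succ n ih =>
    have a1 : (3 / 4 : ℝ) ^ n ≤ θ ^ n := pow_le_pow_left₀ (by norm_num) θ1 n
    have a2 : 0 ≤ θ ^ n := le_trans (by positivity) a1
    have a3 : A * (3 / 4) ^ n ≤ A * θ ^ n := mul_le_mul_of_nonneg_left a1 hA
    have a4 : κ * d n ≤ κ * (C * θ ^ n) := mul_le_mul_of_nonneg_left ih (by linarith)
    have a5 : 2 * A * θ ^ n ≤ C * θ ^ n := mul_le_mul_of_nonneg_right C1 a2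
    have a6 : (2 * κ + 2) * (C * θ ^ (n + 1)) = (2 * κ + 1) * (C * θ ^ n) := by
      rw [pow_succ, ← eθ]; ring_nf
    have a7 := h n
    refine le_of_mul_le_mul_left ?_ (by linarith : 0 < 2 * κ + 2)
    rw [a6]
    linarith

end QRP

open QRP in
theorem qr_ok : StQR := by
  intro P Q F k hP hQ hF h hI hS ρ0
  obtain ⟨A0, hA0⟩ := hI (ρ0 + 1)
  obtain ⟨A, hA⟩ := hS ρ0
  have k0 := abs_nonneg k
  refine ⟨max A0 (2 * |A|), (2 * (96 * |k| + 3) + 1) / (2 * (96 * |k| + 3) + 2), by positivity,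
    by rw [div_lt_one (by positivity)]; linarith, fun s hs x hx n => ?_⟩
  have hEs := cs (smE hP hQ).cont s
  have E0 : ∀ z : ℝ × ℝ, 0 ≤ EE P Q (s, z) := fun z => EE0 _ _ _
  refine iter (d := fun n => Ib (EE P Q) s x ((1 / 2) ^ n)) (by linarith) (abs_nonneg A) ?_
    (fun n => ?_) n
  · refine le_trans ?_ (hA0 s hs)
    refine setIntegral_mono_set (ion hEs _ _) (Eventually.of_forall E0)
      (LE.le.eventuallyLE (Metric.ball_subset_ball' ?_))
    rw [dist_zero_right, pow_zero]; linarith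
  · have p0 : (0 : ℝ) < (1 / 2) ^ (n + 1) := by positivity
    have e2 : 2 * (1 / 2 : ℝ) ^ (n + 1) = (1 / 2) ^ n := by rw [pow_succ]; ring
    have p1 : (1 / 2 : ℝ) ^ n ≤ 1 := pow_le_one₀ (by norm_num) (by norm_num)
    have H := hole hP hQ hF (fun z hz => h (s, z) hs hz) x (A := |A| * (3 / 4) ^ n) p0
      (fun r hr => by
        rw [e2] at hr
        have r0 : 0 < r := p0.trans_le hr.1
        refine (hA s hs x hx r r0 (hr.2.trans p1)).trans ?_
        refine (mul_le_mul_of_nonneg_right (le_abs_self A) (Real.sqrt_nonneg r)).trans ?_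
        refine mul_le_mul_of_nonneg_left (Real.sqrt_le_iff.2 ⟨by positivity, hr.2.trans ?_⟩)
          (abs_nonneg A)
        rw [← pow_mul, mul_comm, pow_mul]
        exact pow_le_pow_left₀ (by norm_num) (by norm_num) n)
    rw [e2] at H
    have m : Ib (EE P Q) s x ((1 / 2) ^ (n + 1)) ≤ Ib (EE P Q) s x ((1 / 2) ^ n) :=
      setIntegral_mono_set (ion hEs _ _) (Eventually.of_forall E0)
        (Metric.ball_subset_ball (by linarith)).eventuallyLE
    show Ib (EE P Q) s x ((1 / 2) ^ (n + 1)) ≤ (96 * |k| + 3) *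
      (Ib (EE P Q) s x ((1 / 2) ^ n) - Ib (EE P Q) s x ((1 / 2) ^ (n + 1))) + |A| * (3 / 4) ^ n
    linarith

end Pool.Agent.P.MP_2cea5e_gt.Se
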