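import Pool.Agent.P.MP_2cea5e_gt.Se.Mod

/-!
Package S1.
-/

open scoped ContDiff ComplexOrder Matrix Topology ComplexConjugate
open MeasureTheory Set Filter

noncomputable section

namespace Pool.Agent.P.MP_2cea5e_gt.Se

open II III

namespace S1P

variable {a b : Bool} {m m' : ℂ → Fn} {X : Fn} {R₀ : ℝ}

theorem cont_de (a b : Bool) : Continuous fun q : ℂ × C2 => de a b q.1 q.2 := by
  cases a <;> cases b <;> simp only [de, hN, hD, cond_true, cond_false] <;> fun_prop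

theorem op (a b : Bool) : IsOpen {q : ℂ × C2 | de a b q.1 q.2 ≠ 0} :=
  isOpen_ne_fun (cont_de a b) continuous_const

theorem tg_zero {s : ℂ} {w : C2} (h : de a b s w = 0) : Tg a b X s w = 0 := if_pos h

theorem tg_ne {s : ℂ} {w : C2} (h : de a b s w ≠ 0) : Tg a b X s w = X (Ga a b s w) := if_neg h

theorem ev_zero (h0 : StGa) (hc : Cs R₀ X) {q : ℂ × C2} (h : de a b q.1 q.2 = 0) :
    ∀ᶠ r : ℂ × C2 in 𝓝 q, Tg a b X r.1 r.2 = 0 := by
  filter_upwards [h0.far a b q.1 q.2 R₀ h] with r hr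
  by_cases c : de a b r.1 r.2 = 0
  · exact tg_zero c
  · rw [tg_ne c]; exact hc _ (hr c)

theorem smq (h0 : StGa) (hm : Wt a b m) (hX : SmC X) (hc : Cs R₀ X) :
    ContDiff ℝ ∞ fun q : ℂ × C2 => m q.1 q.2 * Tg a b X q.1 q.2 := by
  refine contDiff_iff_contDiffAt.2 fun q => ?_
  by_cases c : de a b q.1 q.2 = 0
  · refine (contDiffAt_const (c := (0 : ℝ))).congr_of_eventuallyEq ?_
    filter_upwards [ev_zero h0 hc c] with r hr
    rw [hr, mul_zero]
  · have hU := (op a b).mem_nhds (show q ∈ {q : ℂ × C2 | de a b q.1 q.2 ≠ 0} from c)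
    have h1 : ContDiffAt ℝ ∞ (fun q : ℂ × C2 => X (Ga a b q.1 q.2)) q :=
      (ContDiff.contDiffAt hX).comp q ((h0.smG a b).contDiffAt hU)
    refine ((ContDiffOn.contDiffAt hm hU).mul h1).congr_of_eventuallyEq ?_
    filter_upwards [hU] with r hr
    rw [tg_ne hr]

theorem supp {s : ℂ} {w : C2} (hc : Cs R₀ X) (h : R₀ < ‖w 0 + s‖) : Tg a b X s w = 0 := by
  by_cases c : de a b s w = 0
  · exact tg_zero c
  · rw [tg_ne c]
    exact hc _ (h.trans_le (norm_le_pi_norm (Ga a b s w) 0))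

theorem slice (s : ℂ) (w : C2) :
    HasFDerivAt (fun y : C2 => ((s, y) : ℂ × C2)) (ContinuousLinearMap.inr ℝ ℂ C2) w :=
  hasFDerivAt_prodMk_right s w

theorem joint {U : Set (ℂ × C2)} (hU : IsOpen U) (p : Fin 4)
    (h : ContDiffOn ℝ ∞ (fun q : ℂ × C2 => m q.1 q.2) U) :
    ContDiffOn ℝ ∞ (fun q : ℂ × C2 => pd p (m q.1) q.2) U := by
  have h1 : ContDiffOn ℝ ∞ (fderiv ℝ fun q : ℂ × C2 => m q.1 q.2) U :=
    h.fderiv_of_isOpen hU (by simp)
  refine (h1.clm_apply (contDiffOn_const (c := ((0, dir p) : ℂ × C2)))).congr fun q hq => ?_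
  have h2 := ((h.contDiffAt (hU.mem_nhds hq)).differentiableAt (by simp)).hasFDerivAt
  have h3 := (HasFDerivAt.comp q.2 (f := fun y : C2 => ((q.1, y) : ℂ × C2)) h2
    (slice q.1 q.2)).fderiv
  exact congrArg (fun L : C2 →L[ℝ] ℝ => L (dir p)) h3

theorem jointl (h : ContDiff ℝ ∞ fun q : ℂ × C2 => m q.1 q.2) (l : List (Fin 4)) :
    ContDiff ℝ ∞ fun q : ℂ × C2 => pdl l (m q.1) q.2 := by
  induction l with
  | nil => exact h
  | cons p l ih =>
    exact contDiffOn_univ.1 (joint (m := fun s => pdl l (m s)) isOpen_univ p ih.contDiffOn)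

theorem sms (h0 : StGa) (hm : Wt a b m) (hX : SmC X) (hc : Cs R₀ X) (s : ℂ) :
    SmC fun y => m s y * Tg a b X s y :=
  (smq h0 hm hX hc).comp (contDiff_prodMk_right s)

theorem suppl (hc : Cs R₀ X) (l : List (Fin 4)) {s : ℂ} {w : C2} (h : R₀ < ‖w 0 + s‖) :
    pdl l (fun y => m s y * Tg a b X s y) w = 0 := by
  have h1 : IsOpen {y : C2 | R₀ < ‖y 0 + s‖} := isOpen_lt continuous_const (by fun_prop)
  have h2 : (fun y => m s y * Tg a b X s y) =ᶠ[𝓝 w] fun _ => 0 := by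
    filter_upwards [h1.mem_nhds h] with y hy
    rw [supp hc hy, mul_zero]
  rw [(pdl_congr l h2).eq_of_nhds, pdl_zero]

/-- The indicator function of a disc. -/
def ind (r : ℝ) : ℂ → ℝ := (Metric.closedBall (0 : ℂ) r).indicator fun _ => 1

theorem ind_int (r : ℝ) : Integrable (ind r) :=
  (continuous_const.continuousOn.integrableOn_compact
    (isCompact_closedBall (0 : ℂ) r)).integrable_indicator measurableSet_closedBall

theorem ind_nonneg (r : ℝ) (s : ℂ) : 0 ≤ ind r s :=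
  indicator_nonneg (fun _ _ => zero_le_one) s

theorem le_ind {R C x : ℝ} {s : ℂ} {w : C2} (hw : ‖w‖ ≤ R) (h1 : ‖s‖ ≤ R + R₀ → |x| ≤ C)
    (h2 : R₀ < ‖w 0 + s‖ → x = 0) : |x| ≤ ind (R + R₀) s * C := by
  by_cases c : ‖s‖ ≤ R + R₀
  · rw [ind, indicator_of_mem (mem_closedBall_zero_iff.2 c), one_mul]
    exact h1 c
  · rw [ind, indicator_of_notMem (fun e => c (mem_closedBall_zero_iff.1 e)), zero_mul, h2,
      abs_zero]
    have h3 := norm_sub_le (w 0 + s) (w 0)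
    rw [add_sub_cancel_left] at h3
    have h4 := norm_le_pi_norm w 0
    linarith [not_le.1 c]

theorem bnd (h0 : StGa) (hm : Wt a b m) (hX : SmC X) (hc : Cs R₀ X) (l : List (Fin 4)) (R : ℝ) :
    ∃ C, 0 ≤ C ∧ ∀ s (w : C2), ‖w‖ ≤ R →
      |pdl l (fun y => m s y * Tg a b X s y) w| ≤ ind (R + R₀) s * C := by
  obtain ⟨C, hC⟩ := ((isCompact_closedBall (0 : ℂ) (R + R₀)).prod
    (isCompact_closedBall (0 : C2) R)).exists_bound_of_continuousOn
    (jointl (m := fun s y => m s y * Tg a b X s y) (smq h0 hm hX hc) l).continuous.continuousOn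
  refine ⟨max C 0, le_max_right _ _, fun s w hw => le_ind hw (fun hs => ?_) (suppl hc l)⟩
  exact (hC (s, w) ⟨mem_closedBall_zero_iff.2 hs, mem_closedBall_zero_iff.2 hw⟩).trans
    (le_max_left _ _)

theorem meas (h0 : StGa) (hm : Wt a b m) (hX : SmC X) (hc : Cs R₀ X) (l : List (Fin 4)) (w : C2) :
    AEStronglyMeasurable (fun s : ℂ => pdl l (fun y => m s y * Tg a b X s y) w) volume :=
  ((jointl (m := fun s y => m s y * Tg a b X s y) (smq h0 hm hX hc) l).continuous.comp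
    (continuous_id.prodMk continuous_const)).aestronglyMeasurable

theorem int (h0 : StGa) (hm : Wt a b m) (hX : SmC X) (hc : Cs R₀ X) (l : List (Fin 4)) (w : C2) :
    Integrable fun s : ℂ => pdl l (fun y => m s y * Tg a b X s y) w := by
  obtain ⟨C, -, hC⟩ := bnd h0 hm hX hc l ‖w‖
  exact ((ind_int _).mul_const C).mono' (meas h0 hm hX hc l w)
    (Eventually.of_forall fun s => hC s w le_rfl)

theorem aw_par (h0 : StGa) (hm : Wt a b m) (hX : SmC X) (hc : Cs R₀ X) : SmC (Aw m a b X) ∧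
    ∀ l, pdl l (Aw m a b X) = fun w => ∫ s : ℂ, pdl l (fun y => m s y * Tg a b X s y) w :=
  III.par ℂ volume (fun s y => m s y * Tg a b X s y) (Eventually.of_forall (sms h0 hm hX hc))
    (meas h0 hm hX hc) fun l R => by
      obtain ⟨C, -, hC⟩ := bnd h0 hm hX hc l R
      exact ⟨_, (ind_int _).mul_const C, Eventually.of_forall hC⟩

theorem wpd (p : Fin 4) (hm : Wt a b m) : Wt a b fun s => pd p (m s) := joint (op a b) p hm

/-- The weights of the chain rule. -/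
def wt (a b : Bool) (m : ℂ → Fn) (p q : Fin 4) : ℂ → Fn :=
  fun s y => m s y * pd p (fun y => co q (Ga a b s y)) y

theorem wt_ok (h0 : StGa) (hm : Wt a b m) (p q : Fin 4) : Wt a b (wt a b m p q) :=
  ContDiffOn.mul hm (wpd (m := fun s y => co q (Ga a b s y)) p
    ((co q).contDiff.comp_contDiffOn (h0.smG a b)))

theorem pd_tg (h0 : StGa) (hm : Wt a b m) (hX : SmC X) (hc : Cs R₀ X) (p : Fin 4) (s : ℂ) :
    pd p (fun y => m s y * Tg a b X s y) = fun y => pd p (m s) y * Tg a b X s y +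
      ∑ q, wt a b m p q s y * Tg a b (pd q X) s y := by
  funext w
  have t : Tendsto (fun y : C2 => ((s, y) : ℂ × C2)) (𝓝 w) (𝓝 (s, w)) :=
    (slice s w).continuousAt
  by_cases c : de a b s w = 0
  · have h2 : (fun y => m s y * Tg a b X s y) =ᶠ[𝓝 w] fun _ => 0 := by
      filter_upwards [t.eventually (ev_zero (q := (s, w)) h0 hc c)] with y hy
      rw [hy, mul_zero]
    rw [(pd_congr p h2).eq_of_nhds, pd_const]
    simp [tg_zero c]
  · have hU := (op a b).mem_nhds (show (s, w) ∈ {q : ℂ × C2 | de a b q.1 q.2 ≠ 0} from c)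
    have h2 : (fun y => m s y * Tg a b X s y) =ᶠ[𝓝 w] fun y => m s y * X (Ga a b s y) := by
      filter_upwards [t.eventually hU] with y hy
      rw [tg_ne hy]
    have d1 : DifferentiableAt ℝ (m s) w :=
      ((ContDiffOn.contDiffAt hm hU).differentiableAt (by simp)).comp w
        (f := fun y : C2 => ((s, y) : ℂ × C2)) (slice s w).differentiableAt
    have d2 : DifferentiableAt ℝ (Ga a b s) w :=
      (((h0.smG a b).contDiffAt hU).differentiableAt (by simp)).comp w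
        (f := fun y : C2 => ((s, y) : ℂ × C2)) (slice s w).differentiableAt
    have h3 : ∀ q, pd p (fun y => co q (Ga a b s y)) w = co q (fderiv ℝ (Ga a b s) w (dir p)) :=
      fun q => congrArg (fun L : C2 →L[ℝ] ℝ => L (dir p))
        ((co q).hasFDerivAt.comp w d2.hasFDerivAt).fderiv
    have h4 := (d1.hasFDerivAt.fun_mul ((hX.hfd (Ga a b s w)).comp w d2.hasFDerivAt)).fderiv
    have h5 : pd p (fun y => m s y * X (Ga a b s y)) w =
        m s w * fderiv ℝ X (Ga a b s w) (fderiv ℝ (Ga a b s) w (dir p)) +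
          X (Ga a b s w) * pd p (m s) w :=
      congrArg (fun L : C2 →L[ℝ] ℝ => L (dir p)) h4
    rw [(pd_congr p h2).eq_of_nhds, h5, fderiv_apply, Finset.mul_sum]
    simp only [tg_ne c, wt, h3, mul_assoc]
    ring

theorem cut (R₀ : ℝ) : ∃ ζ R₁, SmC ζ ∧ Cs R₁ ζ ∧ ∀ X, Cs R₀ X → ζ * X = X := by
  obtain ⟨ζ, z1, -, z3, z4⟩ := exists_cut (K := cb R₀) (isCompact_closedBall _ _)
    (Metric.isOpen_ball (x := (0 : C2)) (ε := R₀ + 1)) (Metric.closedBall_subset_ball (by linarith))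
  refine ⟨ζ, R₀ + 1, z1, fun z hz => ?_, fun X hX => funext fun z => ?_⟩
  · refine image_eq_zero_of_notMem_tsupport fun e => ?_
    have := mem_ball_zero_iff.1 (z3 e)
    linarith
  · rcases le_or_gt ‖z‖ R₀ with c | c
    · rw [Pi.mul_apply, (z4 z (mem_cb.2 c)).eq_of_nhds, one_mul]
    · rw [Pi.mul_apply, hX z c, mul_zero]

theorem est (h0 : StGa) (R₀ R : ℝ) (l : List (Fin 4)) : ∀ m, Wt a b m → ∃ C, 0 ≤ C ∧
    ∀ X A, SmC X → Cs R₀ X → Nb univ l.length X A → ∀ s (w : C2), ‖w‖ ≤ R →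
      |pdl l (fun y => m s y * Tg a b X s y) w| ≤ C * A := by
  induction l using List.reverseRecOn with
  | nil =>
    intro m hm
    obtain ⟨ζ, R₁, z1, z2, z3⟩ := cut R₀
    obtain ⟨C, c0, hC⟩ := bnd h0 hm z1 z2 [] R
    refine ⟨C, c0, fun X A _ hc hA s w hw => ?_⟩
    have h1 : |m s w * Tg a b ζ s w| ≤ C := (hC s w hw).trans (mul_le_of_le_one_left c0
      (indicator_le_self' (f := fun _ => (1 : ℝ)) (fun _ _ => zero_le_one) s))
    rw [pdl_nil]
    by_cases c : de a b s w = 0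
    · rw [tg_zero c, mul_zero, abs_zero]
      exact mul_nonneg c0 hA.nonneg
    · rw [tg_ne c] at h1 ⊢
      rw [← congrFun (z3 X hc) (Ga a b s w), Pi.mul_apply, ← mul_assoc, abs_mul]
      exact mul_le_mul h1 (hA.zero' (mem_univ _)) (abs_nonneg _) c0
  | append_singleton l p ih =>
    intro m hm
    obtain ⟨C, c0, hC⟩ := ih _ (wpd p hm)
    choose D d0 hD using fun q => ih _ (wt_ok h0 hm p q)
    refine ⟨C + ∑ q, D q, add_nonneg c0 (Finset.sum_nonneg fun q _ => d0 q),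
      fun X A hX hc hA s w hw => ?_⟩
    rw [List.length_append, List.length_singleton] at hA
    have s1 := fun q => sms h0 (wt_ok h0 hm p q) (sm_pd q hX) (hc.pd q) s
    rw [pdl_concat, pd_tg h0 hm hX hc, pdl_add' l (sms h0 (wpd p hm) hX hc s)
      (sm_sum _ fun q _ => s1 q), pdl_sum' l _ fun q _ => s1 q, add_mul, Finset.sum_mul]
    exact (abs_add_le _ _).trans (add_le_add (hC X A hX hc (hA.ord (Nat.le_succ _)) s w hw)
      ((Finset.abs_sum_le_sum_abs _ _).trans (Finset.sum_le_sum fun q _ =>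
        hD q _ A (sm_pd q hX) (hc.pd q) (hA.pd q) s w hw)))

theorem aw_nb (h0 : StGa) (hm : Wt a b m) (R₀ R : ℝ) (k : ℕ) : ∃ C, 0 ≤ C ∧
    ∀ X A, SmC X → Cs R₀ X → Nb univ k X A → Nb (cb R) k (Aw m a b X) (C * A) := by
  obtain ⟨C, c0, hC⟩ := unif_list k (p := fun l C => ∀ X A, SmC X → Cs R₀ X →
    Nb univ l.length X A → ∀ s (w : C2), ‖w‖ ≤ R →
      |pdl l (fun y => m s y * Tg a b X s y) w| ≤ C * A)
    (fun l C C' e h X A h1 h2 h3 s w hw =>
      (h X A h1 h2 h3 s w hw).trans (mul_le_mul_of_nonneg_right e h3.nonneg))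
    fun l => (est h0 R₀ R l m hm).imp fun _ h => h.2
  refine ⟨(∫ s, ind (R + R₀) s) * C, mul_nonneg (integral_nonneg (ind_nonneg _)) c0,
    fun X A hX hc hA l hl w hw => ?_⟩
  rw [(aw_par h0 hm hX hc).2, mul_assoc, ← integral_mul_const]
  exact norm_integral_le_of_norm_le (f := fun s => pdl l (fun y => m s y * Tg a b X s y) w)
    ((ind_int (R + R₀)).mul_const (C * A)) (Eventually.of_forall fun s =>
    le_ind (mem_cb.1 hw) (fun _ => hC l hl X A hX hc (hA.ord hl) s w (mem_cb.1 hw)) (suppl hc l))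

theorem aw_sub (h0 : StGa) (hm : Wt a b m) {Y : Fn} (hX : SmC X) (hY : SmC Y) (hc : Cs R₀ X)
    (hd : Cs R₀ Y) : Aw m a b (X - Y) = Aw m a b X - Aw m a b Y := by
  funext w
  refine Eq.trans ?_ (integral_sub (int h0 hm hX hc [] w) (int h0 hm hY hd [] w))
  refine integral_congr_ae (Eventually.of_forall fun s => ?_)
  by_cases c : de a b s w = 0
  · simp [tg_zero c]
  · simp [tg_ne c, mul_sub]

theorem ol (h0 : StGa) {α : Type} {𝒰 : Set (α → Fn)} {k : ℕ} {F : (α → Fn) → Fn} (hm : Wt a b m)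
    (hF : OL 𝒰 k F) (hc : ∀ V ∈ 𝒰, Cs R₀ (F V)) : OL 𝒰 k fun V => Aw m a b (F V) := fun R => by
  obtain ⟨ζ, R₁, z1, z2, z3⟩ := cut R₀
  refine (Ord.lin (L := fun X => Aw m a b (ζ * X))
    (fun X hX => (aw_par h0 hm (II.sm_mul z1 hX) (z2.mul_right X)).1) (fun X Y hX hY => ?_)
    (fun n => ?_) (Ord.of_OL hF hc)).congr' fun V hV => by rw [z3 _ (hc V hV)]
  · rw [mul_sub]
    exact aw_sub h0 hm (II.sm_mul z1 hX) (II.sm_mul z1 hY) (z2.mul_right X) (z2.mul_right Y)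
  · obtain ⟨C, c0, hC⟩ := aw_nb h0 hm R₁ R n
    obtain ⟨B, b0, hB⟩ := exists_nb_cb z1 R₁ n
    refine ⟨C * (2 ^ n * B), by positivity, fun X A hX hA h => ?_⟩
    exact (hC _ _ (II.sm_mul z1 hX) (z2.mul_right X)
      ((hB.of_cs z2 b0).mul z1 hX b0 hA h)).le (le_of_eq (by ring))

end S1P

theorem aw_ok (h0 : StGa) : StAw :=
  ⟨fun _ _ _ _ _ => S1P.smq h0, fun _ _ _ _ _ _ => S1P.supp, fun _ _ _ _ _ => S1P.int h0,
    fun _ _ _ _ _ hm hX hc => (S1P.aw_par h0 hm hX hc).1,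
    fun _ _ _ _ _ hm hX hc => (S1P.aw_par h0 hm hX hc).2, fun _ _ _ => S1P.wpd,
    fun _ _ _ _ _ _ _ _ => S1P.ol h0⟩

end Pool.Agent.P.MP_2cea5e_gt.Se
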