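import Pool.Agent.P.MP_2cea5e_gt.Se.Mod

/-!
Package S2: the patch operators and the partition of unity.
-/

open scoped ContDiff ComplexOrder Matrix Topology ComplexConjugate
open MeasureTheory Set Filter

noncomputable section

namespace Pool.Agent.P.MP_2cea5e_gt.Se

open II III

namespace S2P

theorem wt (a b : Bool) : Wt a b fun _ _ => 1 := contDiffOn_const

theorem av_eq (a b : Bool) (X : Fn) (w : C2) : Av a b X w = ∫ s : ℂ, Tg a b X s w := by
  simp only [Av, Aw, one_mul]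

theorem av_int (h1 : StAw) (a b : Bool) {X : Fn} {R : ℝ} (hX : SmC X) (hc : Cs R X) (w : C2) :
    Integrable fun s : ℂ => Tg a b X s w := by
  have := h1.int a b _ X R (wt a b) hX hc [] w
  simpa only [pdl, one_mul] using this

theorem av_cont (h1 : StAw) (a b : Bool) {X : Fn} {R : ℝ} (hX : SmC X) (hc : Cs R X) (w : C2) :
    Continuous fun s : ℂ => Tg a b X s w := by
  have := (h1.smq a b _ X R (wt a b) hX hc).continuous.comp
    (continuous_id.prodMk continuous_const : Continuous fun s : ℂ => (s, w))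
  simpa only [Function.comp_def, one_mul, id] using this

theorem av_add (h1 : StAw) (a b : Bool) {X Y : Fn} {R : ℝ} (hX : SmC X) (hc : Cs R X)
    (hY : SmC Y) (hd : Cs R Y) : Av a b (X + Y) = Av a b X + Av a b Y := by
  funext w
  rw [Pi.add_apply, av_eq, av_eq, av_eq,
    ← integral_add (av_int h1 a b hX hc w) (av_int h1 a b hY hd w)]
  refine integral_congr_ae (Eventually.of_forall fun s => ?_)
  simp only [Tg, Pi.add_apply]
  split_ifs <;> simp

theorem av_sub (h1 : StAw) (a b : Bool) {X Y : Fn} {R : ℝ} (hX : SmC X) (hc : Cs R X)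
    (hY : SmC Y) (hd : Cs R Y) : Av a b (X - Y) = Av a b X - Av a b Y := by
  funext w
  rw [Pi.sub_apply, av_eq, av_eq, av_eq,
    ← integral_sub (av_int h1 a b hX hc w) (av_int h1 a b hY hd w)]
  refine integral_congr_ae (Eventually.of_forall fun s => ?_)
  simp only [Tg, Pi.sub_apply]
  split_ifs <;> simp

theorem av_smul (a b : Bool) (X : Fn) (c : ℝ) : Av a b (c • X) = c • Av a b X := by
  funext w
  rw [Pi.smul_apply, av_eq, av_eq, smul_eq_mul, ← integral_const_mul]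
  refine integral_congr_ae (Eventually.of_forall fun s => ?_)
  simp only [Tg, Pi.smul_apply, smul_eq_mul]
  split_ifs <;> simp

theorem av_mul (h0 : StGa) (a b : Bool) (X : Fn) {u : Bool → Fn} (hu : SGl u) (w : C2) :
    Av a b (X * u a) w = Av a b X w * u b w := by
  rw [av_eq, av_eq, ← integral_mul_const]
  refine integral_congr_ae (Eventually.of_forall fun s => ?_)
  simp only [Tg, Pi.mul_apply]
  split_ifs with h
  · simp
  · rw [h0.gl u hu a b s w h]

theorem av_abs (h1 : StAw) (a b : Bool) {X : Fn} {R A : ℝ} (hc : Cs R X) (hA : ∀ y, |X y| ≤ A)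
    (w : C2) : |Av a b X w| ≤ (volume : Measure ℂ).real (Metric.closedBall 0 R) * A := by
  have h0 : 0 ≤ A := (abs_nonneg _).trans (hA 0)
  rw [av_eq, ← setIntegral_eq_integral_of_forall_compl_eq_zero
    (s := Metric.closedBall (-w 0) R) fun s hs => h1.supp a b X R s w hc (by
      rw [Metric.mem_closedBall, dist_eq_norm, not_le, sub_neg_eq_add, add_comm] at hs
      exact hs), ← Real.norm_eq_abs, mul_comm]
  refine (norm_setIntegral_le_of_norm_le_const (C := A) measure_closedBall_lt_top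
    fun s _ => ?_).trans_eq ?_
  · simp only [Tg, Real.norm_eq_abs]
    split_ifs
    · rwa [abs_zero]
    · exact hA _
  · simp only [Measure.real]
    rw [Measure.addHaar_closedBall_center]

theorem av_gl (h0 : StGa) (h1 : StAw) (a : Bool) {X : Fn} {R : ℝ} (hX : SmC X) (hc : Cs R X) :
    SGl fun b => Av a b X := by
  refine h0.gl' _ (fun b => h1.sm a b _ X R (wt a b) hX hc) fun b s' w hw => ?_
  rw [av_eq, av_eq, ← integral_add_right_eq_self (fun s : ℂ => Tg a b X s w) s']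
  refine integral_congr_ae (Eventually.of_forall fun s => ?_)
  obtain ⟨e1, e2⟩ := h0.comp a b s s' w hw
  simp only [Tg]
  by_cases h : de a b (s + s') w = 0
  · rw [if_pos h, if_pos ((mul_eq_zero.1 (e1.trans h)).resolve_right hw)]
  · rw [if_neg h, if_neg (left_ne_zero_of_mul (e1 ▸ h)), e2 h]

theorem tg_nn (a b : Bool) {X : Fn} (hX : ∀ y, 0 ≤ X y) (s : ℂ) (w : C2) : 0 ≤ Tg a b X s w := by
  simp only [Tg]
  split_ifs
  · exact le_rfl
  · exact hX _

variable {α : Type} [Fintype α] {f : Bool → Fn} {d : ℝ} (P : Pat f d α)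

/-- From a patch to global functions. -/
def EE (b : α) (X : Fn) (τ : Bool) : Fn := Av (P.σ b) τ ((P.β b * X) ∘ P.Ai b)
def Th (τ : Bool) : Fn := fun z => ∑ b, EE P b (P.β b) τ z
/-- From global functions to a patch. -/
def Rs (a : α) (u : Bool → Fn) : Fn :=
  P.β a * (fun z => u (P.σ a) z * (Th P (P.σ a) z)⁻¹) ∘ P.A a

omit [Fintype α] in
theorem gl (h0 : StGa) (h1 : StAw) (b : α) {X : Fn} (hX : SmC X) : SGl (EE P b X) := by
  obtain ⟨R, hR⟩ := Sys1P.cs_patch P b
  exact av_gl h0 h1 (P.σ b) (Sys1P.sm_patch P b hX) (hR X)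

theorem gl_Th (h0 : StGa) (h1 : StAw) : SGl (Th P) := by
  have g := fun b => gl P h0 h1 b (P.smβ b)
  refine ⟨fun σ => sm_sum _ fun b _ => (g b).sm σ, fun s w => ?_, fun w hw => ?_⟩
  · exact Finset.sum_congr rfl fun b _ => (g b).inv s w
  · exact Finset.sum_congr rfl fun b _ => (g b).glue w hw

theorem Th_pos (h0 : StGa) (h1 : StAw) (τ : Bool) (z : C2) : 0 < Th P τ z := by
  have nn : ∀ b y, 0 ≤ ((P.β b * P.β b) ∘ P.Ai b) y := fun b y => mul_self_nonneg _
  obtain ⟨a, ha, -, η, hη, e⟩ := h0.base τ z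
  obtain ⟨b, hb, hβ⟩ := P.cover a ![0, η] ((pi_norm_le_iff_of_nonneg zero_le_one).2 fun j => by
    fin_cases j
    · simp
    · simpa using hη)
  refine Finset.sum_pos' (fun b _ => ?_) ⟨b, Finset.mem_univ _, ?_⟩
  · rw [EE, av_eq]
    exact integral_nonneg fun s => tg_nn _ _ (nn b) s z
  · obtain ⟨R, hR⟩ := Sys1P.cs_patch P b
    have sm := Sys1P.sm_patch P b (P.smβ b)
    rw [EE, av_eq]
    refine integral_pos_of_integrable_nonneg_nonzero (x := -z 0) (av_cont h1 _ _ sm (hR _) z)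
      (av_int h1 _ _ sm (hR _) z) (fun s => tg_nn _ _ (nn b) s z) ?_
    simp only [Tg, hb, if_neg ha, e, Function.comp_apply, Pi.mul_apply, Pat.Ai, hβ, mul_one]
    exact one_ne_zero

theorem gl_div (h0 : StGa) (h1 : StAw) {u : Bool → Fn} (hu : SGl u) :
    SGl fun σ z => u σ z * (Th P σ z)⁻¹ := by
  have g := gl_Th P h0 h1
  refine ⟨fun σ => ContDiff.mul (hu.sm σ) (sm_inv (g.sm σ) fun z => (Th_pos P h0 h1 σ z).ne'),
    fun s w => ?_, fun w hw => ?_⟩
  · simp only [hu.inv s w, g.inv s w]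
  · simp only [hu.glue w hw, g.glue w hw]

omit [Fintype α] in
theorem com (h1 : StAw) (h3 : StCom) (c e : ℝ) (b : α) (τ : Bool) (𝒰 : Set (α → Fn))
    (g : (α → Fn) → Bool → Fn) (X : (α → Fn) → Fn) (hK : ∀ V ∈ 𝒰, SKp c e (g V))
    (hf : ∀ σ i, OL 𝒰 2 fun V => cf i (g V σ)) (hX : OL 𝒰 0 X) :
    OL 𝒰 3 fun V => EE P b (PiO (g V (P.σ b) ∘ P.A b) (X V)) τ - PiO (g V τ) (EE P b (X V) τ) := by
  obtain ⟨R, hR⟩ := Sys2P.cs_ai P b
  have sI : ContDiff ℝ ∞ (P.Ai b) := sm_affi _ _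
  have sb : SmC (P.β b ∘ P.Ai b) := (P.smβ b).comp sI
  have oX := hX.comp sI
  have oK := Sys2P.ol_com sb (hf (P.σ b)) oX
  have oY := (OL.const sb).mul oX
  refine ((h3 c e (P.σ b) τ R α 𝒰 g _ hK (hf τ) oY fun V _ => hR.mul_right _).sub
    (h1.ol (P.σ b) τ _ R α 𝒰 3 _ (wt _ _) oK fun V _ =>
      ((hR.mul_right _).PiO _).sub (hR.mul_right _))).congr' fun V hV => ?_
  have sX := oX.sm V hV
  have sc := fun i => (hf (P.σ b) i).sm V hV
  have e1 : (P.β b * PiO (g V (P.σ b) ∘ P.A b) (X V)) ∘ P.Ai b =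
      P.β b ∘ P.Ai b * PiO (g V (P.σ b)) (X V ∘ P.Ai b) := by
    have e := (affT real' mx (hol mx) (P.z b) (P.J b) (P.det b) _ _ ((hK V hV).sm (P.σ b)) sX).2.2
    have e' : (X V ∘ P.Ai b) ∘ aff (P.z b) (P.J b) = X V :=
      funext fun y => congrArg (X V) (affi_aff _ (P.det b) y)
    rw [e'] at e
    funext z
    simp only [Pat.A, e, Function.comp_apply, Pi.mul_apply, Pat.Ai, aff_affi _ (P.det b)]
  have e2 := av_sub h1 (P.σ b) τ (Sys2P.sm_piO sc (III.sm_mul sb sX)) ((hR.mul_right _).PiO _)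
    (III.sm_mul sb (Sys2P.sm_piO sc sX)) (hR.mul_right _)
  change _ = _ - Av _ _ _
  rw [e2, EE, e1]
  change _ - PiO _ (Av _ τ (P.β b ∘ P.Ai b * X V ∘ P.Ai b)) = _
  abel

end S2P

open S2P in
theorem sys_ok (h0 : StGa) (h1 : StAw) (h3 : StCom) : StSys := by
  intro α _ f d P
  choose R hR using Sys1P.cs_patch P
  have sm := fun b (X : Fn) (hX : SmC X) => Sys1P.sm_patch P b hX
  refine ⟨EE P, Rs P, fun b X hX => gl P h0 h1 b hX, fun b X Y τ hX hY => ?_,
    fun b X Y τ hX hY => ?_, fun b X τ c => ?_,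
    ⟨∑ b, (volume : Measure ℂ).real (Metric.closedBall 0 (R b)), fun b X τ A _ hX z => ?_⟩,
    fun b X Y e => ?_, fun b τ 𝒰 k F hF => ?_, fun a u hu => ?_, fun u hu τ z => ?_,
    fun a 𝒰 k H hH => ?_, fun c e b τ 𝒰 g X => com P h1 h3 c e b τ 𝒰 g X⟩
  · simp only [EE]
    rw [← av_add h1 _ _ (sm b X hX) (hR b X) (sm b Y hY) (hR b Y), mul_add]
    rfl
  · simp only [EE]
    rw [← av_sub h1 _ _ (sm b X hX) (hR b X) (sm b Y hY) (hR b Y), mul_sub]
    rfl
  · simp only [EE]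
    rw [← av_smul, mul_smul_comm]
    rfl
  · have hA0 : 0 ≤ A := (abs_nonneg _).trans (hX 0)
    refine (av_abs h1 _ _ (A := A) (hR b X) (fun y => ?_) z).trans
      (mul_le_mul_of_nonneg_right (Finset.single_le_sum
        (f := fun b => (volume : Measure ℂ).real (Metric.closedBall 0 (R b)))
        (fun _ _ => measureReal_nonneg) (Finset.mem_univ b)) hA0)
    rw [Function.comp_apply, Pi.mul_apply, abs_mul]
    exact (mul_le_mul (P.absβ _ _) (hX _) (abs_nonneg _) zero_le_one).trans_eq (one_mul _)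
  · funext τ
    simp only [EE, e]
  · exact h1.ol (P.σ b) τ _ (R b) α 𝒰 k (fun V => (P.β b * F V) ∘ P.Ai b) (wt _ _)
      (((OL.const (P.smβ b)).mul hF).comp (sm_affi _ _)) fun V _ => hR b _
  · exact III.sm_mul (P.smβ a) (ContDiff.comp ((gl_div P h0 h1 hu).sm _) (sm_aff' _ _))
  · have g := gl_div P h0 h1 hu
    have e : ∀ a, EE P a (Rs P a u) τ z = EE P a (P.β a) τ z * (u τ z * (Th P τ z)⁻¹) := fun a => by
      have e1 : (P.β a * Rs P a u) ∘ P.Ai a = (P.β a * P.β a) ∘ P.Ai a *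
          fun z => u (P.σ a) z * (Th P (P.σ a) z)⁻¹ := by
        funext y
        simp only [Rs, Pat.A, Pat.Ai, Function.comp_apply, Pi.mul_apply,
          aff_affi _ (P.det a), mul_assoc]
      rw [EE, e1]
      exact av_mul h0 (P.σ a) τ _ g z
    simp only [e]
    rw [← Finset.sum_mul]
    change Th P τ z * _ = _
    rw [mul_comm, inv_mul_cancel_right₀ (Th_pos P h0 h1 τ z).ne']
  · refine Ord.of_OL (R := 1) ?_ fun V _ => (P.csβ a).mul_right _
    exact (OL.const (P.smβ a)).mul ((hH.mul' (OL.const (sm_inv ((gl_Th P h0 h1).sm _)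
      fun z => (Th_pos P h0 h1 _ z).ne'))).comp (sm_aff' _ _))

end Pool.Agent.P.MP_2cea5e_gt.Se
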