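import Pool.Agent.P.MP_2cea5e_gt.Se.Mod

/-!
Package S3.
-/

open scoped ContDiff ComplexOrder Matrix Topology ComplexConjugate
open MeasureTheory Set Filter

noncomputable section

namespace Pool.Agent.P.MP_2cea5e_gt.Se

open II III

namespace S3P

variable {a b : Bool} {m : ℂ → Fn} {X : Fn} {R₀ : ℝ} {s : ℂ} {w : C2}

theorem open_de (a b : Bool) (s : ℂ) : IsOpen {w : C2 | de a b s w ≠ 0} := by
  have h : Continuous fun w : C2 => de a b s w := by
    cases a <;> cases b <;> simp only [de, hN, hD, cond_true, cond_false] <;> fun_prop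
  exact isOpen_ne_fun h continuous_const

theorem tg_mem (X : Fn) (h : de a b s w ≠ 0) : Tg a b X s w = X (Ga a b s w) := if_neg h

theorem tg_pole (X : Fn) (h : de a b s w = 0) : Tg a b X s w = 0 := if_pos h

theorem tg_ev (h0 : StGa) (hc : Cs R₀ X) (h : de a b s w = 0) :
    Tg a b X s =ᶠ[𝓝 w] fun _ => 0 := by
  have c : Tendsto (fun y : C2 => (s, y)) (𝓝 w) (𝓝 (s, w)) :=
    (continuous_const.prodMk continuous_id).tendsto w
  filter_upwards [c.eventually (h0.far a b s w R₀ h)] with y hy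
  by_cases e : de a b s y = 0
  · exact tg_pole X e
  · rw [tg_mem X e]; exact hc _ (hy e)

theorem wt_one : Wt a b fun _ _ => 1 := contDiffOn_const

theorem sm_T (h1 : StAw) (hm : Wt a b m) (hX : SmC X) (hc : Cs R₀ X) (s : ℂ) :
    SmC fun y => m s y * Tg a b X s y :=
  (h1.smq a b m X R₀ hm hX hc).comp (contDiff_const.prodMk contDiff_id)

theorem sm_T1 (h1 : StAw) (hX : SmC X) (hc : Cs R₀ X) (s : ℂ) : SmC (Tg a b X s) := by
  have := sm_T h1 (wt_one (a := a) (b := b)) hX hc s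
  simpa only [one_mul] using this

theorem ext_wt (hm : Wt a b m) (h : de a b s w ≠ 0) : ∃ u, SmC u ∧ m s =ᶠ[𝓝 w] u := by
  obtain ⟨ζ, hζ, -, hs, h1⟩ := exists_cut (K := {w}) isCompact_singleton (open_de a b s)
    (singleton_subset_iff.2 h)
  have hon : ContDiffOn ℝ ∞ (m s) {y | de a b s y ≠ 0} :=
    hm.comp (contDiff_const.prodMk contDiff_id).contDiffOn fun y hy => hy
  refine ⟨fun y => ζ y * m s y, contDiff_iff_contDiffAt.2 fun z => ?_, ?_⟩
  · by_cases hz : z ∈ tsupport ζ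
    · exact hζ.contDiffAt.mul (hon.contDiffAt ((open_de a b s).mem_nhds (hs hz)))
    · refine (contDiffAt_const (c := (0 : ℝ))).congr_of_eventuallyEq ?_
      filter_upwards [notMem_tsupport_iff_eventuallyEq.1 hz] with y hy
      simp [hy]
  · filter_upwards [h1 w rfl] with y hy
    rw [hy, one_mul]

theorem pd_ev0 {g : Fn} (p : Fin 4) (h : g =ᶠ[𝓝 w] fun _ => 0) : pd p g =ᶠ[𝓝 w] fun _ => 0 := by
  have := pd_congr p h
  rwa [pd_const] at this

theorem mul_ev0 {g : Fn} (u : Fn) (h : g =ᶠ[𝓝 w] fun _ => 0) :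
    (fun y => u y * g y) =ᶠ[𝓝 w] fun _ => 0 := h.mono fun y hy => by simp only [hy, mul_zero]

theorem loc2 (h0 : StGa) (h1 : StAw) (hm : Wt a b m) (hX : SmC X) (hc : Cs R₀ X) (p q : Fin 4)
    (s : ℂ) (w : C2) : m s w * pd p (pd q (Tg a b X s)) w =
      pd p (pd q fun y => m s y * Tg a b X s y) w -
        (pd p (fun y => pd q (m s) y * Tg a b X s y) w +
          pd q (fun y => pd p (m s) y * Tg a b X s y) w -
          pd q (pd p (m s)) w * Tg a b X s w) := by
  by_cases h : de a b s w = 0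
  · have e := tg_ev h0 hc h
    rw [(pd_ev0 p (pd_ev0 q e)).eq_of_nhds, (pd_ev0 p (pd_ev0 q (mul_ev0 _ e))).eq_of_nhds,
      (pd_ev0 p (mul_ev0 _ e)).eq_of_nhds, (pd_ev0 q (mul_ev0 _ e)).eq_of_nhds, tg_pole X h]
    ring
  · obtain ⟨u, hu, e⟩ := ext_wt hm h
    have hZ := sm_T1 (a := a) (b := b) h1 hX hc s
    have k : ∀ {v v' : Fn}, v =ᶠ[𝓝 w] v' →
        (fun y => v y * Tg a b X s y) =ᶠ[𝓝 w] fun y => v' y * Tg a b X s y :=
      fun hv => hv.mono fun y hy => by simp only [hy]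
    rw [(pd_congr p (pd_congr q (k e))).eq_of_nhds, (pd_congr p (k (pd_congr q e))).eq_of_nhds,
      (pd_congr q (k (pd_congr p e))).eq_of_nhds, (pd_congr q (pd_congr p e)).eq_of_nhds,
      e.eq_of_nhds, pd_mul' q hu hZ,
      pd_add' p (ContDiff.mul (sm_pd q hu) hZ) (ContDiff.mul hu (sm_pd q hZ)),
      pd_mul' p (sm_pd q hu) hZ, pd_mul' p hu (sm_pd q hZ), pd_mul' q (sm_pd p hu) hZ]
    ring

/-- The commutator of `Ee i` with a weighted average. -/
def Cm (m : ℂ → Fn) (a b : Bool) (X : Fn) (i : Fin 4) : Fn := fun w => ∑ p, ∑ q, ec i p q *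
  (pd p (Aw (fun s => pd q (m s)) a b X) w + pd q (Aw (fun s => pd p (m s)) a b X) w -
    Aw (fun s => pd q (pd p (m s))) a b X w)

theorem int_ee (h1 : StAw) (hm : Wt a b m) (hX : SmC X) (hc : Cs R₀ X) (i : Fin 4) (w : C2) :
    Integrable fun s : ℂ => Ee i (fun y => m s y * Tg a b X s y) w :=
  integrable_finsetSum _ fun p _ => integrable_finsetSum _ fun q _ =>
    (h1.int a b m X R₀ hm hX hc [p, q] w).const_mul _

theorem ee_aw (h1 : StAw) (hm : Wt a b m) (hX : SmC X) (hc : Cs R₀ X) (i : Fin 4) (w : C2) :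
    Ee i (Aw m a b X) w = ∫ s : ℂ, Ee i (fun y => m s y * Tg a b X s y) w := by
  have hi := fun p q => h1.int a b m X R₀ hm hX hc [p, q] w
  have e := fun p q => congrFun (h1.pdl a b m X R₀ hm hX hc [p, q]) w
  simp only [pdl_cons, pdl_nil] at hi e
  simp only [Ee]
  rw [integral_finsetSum _ fun p _ => integrable_finsetSum _ fun q _ => (hi p q).const_mul _]
  refine Finset.sum_congr rfl fun p _ => ?_
  rw [integral_finsetSum _ fun q _ => (hi p q).const_mul _]
  exact Finset.sum_congr rfl fun q _ => by rw [integral_const_mul, e]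

theorem com (h0 : StGa) (h1 : StAw) (hm : Wt a b m) (hX : SmC X) (hc : Cs R₀ X) (i : Fin 4)
    (w : C2) : (Integrable fun s : ℂ => m s w * Ee i (Tg a b X s) w) ∧
      ∫ s : ℂ, m s w * Ee i (Tg a b X s) w = Ee i (Aw m a b X) w - Cm m a b X i w := by
  have i1 := fun p q => h1.int a b _ X R₀ (h1.wpd a b m q hm) hX hc [p] w
  have e1 := fun p q => congrFun (h1.pdl a b _ X R₀ (h1.wpd a b m q hm) hX hc [p]) w
  have i0 := fun p q => h1.int a b _ X R₀ (h1.wpd a b _ q (h1.wpd a b m p hm)) hX hc [] w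
  simp only [pdl_cons, pdl_nil] at i1 e1 i0
  have i2 : ∀ p q, Integrable fun s : ℂ => ec i p q *
      (pd p (fun y => pd q (m s) y * Tg a b X s y) w +
        pd q (fun y => pd p (m s) y * Tg a b X s y) w - pd q (pd p (m s)) w * Tg a b X s w) :=
    fun p q => (((i1 p q).add (i1 q p)).sub (i0 p q)).const_mul _
  have i3 := integrable_finsetSum Finset.univ fun p _ =>
    integrable_finsetSum Finset.univ fun q _ => i2 p q
  have e : (fun s : ℂ => m s w * Ee i (Tg a b X s) w) = fun s =>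
      Ee i (fun y => m s y * Tg a b X s y) w - ∑ p, ∑ q, ec i p q *
        (pd p (fun y => pd q (m s) y * Tg a b X s y) w +
          pd q (fun y => pd p (m s) y * Tg a b X s y) w -
          pd q (pd p (m s)) w * Tg a b X s w) := by
    funext s
    simp only [Ee, Finset.mul_sum, ← Finset.sum_sub_distrib]
    refine Finset.sum_congr rfl fun p _ => Finset.sum_congr rfl fun q _ => ?_
    rw [mul_left_comm, loc2 h0 h1 hm hX hc p q s w]
    ring
  rw [e]
  refine ⟨(int_ee h1 hm hX hc i w).sub i3, ?_⟩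
  rw [integral_sub (int_ee h1 hm hX hc i w) i3, ← ee_aw h1 hm hX hc,
    integral_finsetSum _ fun p _ => integrable_finsetSum Finset.univ fun q _ => i2 p q]
  congr 1
  refine Finset.sum_congr rfl fun p _ => ?_
  rw [integral_finsetSum _ fun q _ => i2 p q]
  refine Finset.sum_congr rfl fun q _ => ?_
  have i4 : Integrable fun s : ℂ => pd p (fun y => pd q (m s) y * Tg a b X s y) w +
      pd q (fun y => pd p (m s) y * Tg a b X s y) w := (i1 p q).add (i1 q p)
  rw [integral_const_mul, integral_sub i4 (i0 p q), integral_add (i1 p q) (i1 q p), e1, e1]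
  rfl

theorem ol_cm (h1 : StAw) (hm : Wt a b m) {α : Type} {𝒰 : Set (α → Fn)} {k : ℕ}
    {F : (α → Fn) → Fn} (hF : OL 𝒰 k F) (hc : ∀ V ∈ 𝒰, Cs R₀ (F V)) (i : Fin 4) :
    OL 𝒰 (k + 1) fun V => Cm m a b (F V) i :=
  OL.sum Finset.univ fun p _ => OL.sum Finset.univ fun q _ => OL.cmul _
    ((((h1.ol a b _ R₀ α 𝒰 k F (h1.wpd a b m q hm) hF hc).pd p).add'
      ((h1.ol a b _ R₀ α 𝒰 k F (h1.wpd a b m p hm) hF hc).pd q)).sub'
      ((h1.ol a b _ R₀ α 𝒰 k F (h1.wpd a b _ q (h1.wpd a b m p hm)) hF hc).mono k.le_succ))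

/-- The Jacobian weights. -/
def Mw (a b : Bool) (j k : Fin 4) : ℂ → Fn := fun s w => Mx (III.jac (Ga a b s) w) j k

theorem wt_Mw (h0 : StGa) (a b : Bool) (i j : Fin 4) : Wt a b (Mw a b i j) := by
  have key : ∀ p q, ContDiffOn ℝ ∞ (fun y : ℂ × C2 => ((III.jac (Ga a b y.1) y.2)ᵀ *
      hm (Pi.single j 1) * (III.jac (Ga a b y.1) y.2).map (starRingEnd ℂ)) p q)
      {q | de a b q.1 q.2 ≠ 0} := by
    intro p q
    simp only [Matrix.mul_apply, Matrix.transpose_apply, Matrix.map_apply]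
    exact ContDiffOn.sum fun s _ => (ContDiffOn.sum fun r _ =>
      (h0.smJ a b r p).mul contDiffOn_const).mul
      (Complex.conjCLE.contDiff.comp_contDiffOn (h0.smJ a b s q))
  fin_cases i
  · exact Complex.reCLM.contDiff.comp_contDiffOn (key 0 0)
  · exact Complex.reCLM.contDiff.comp_contDiffOn (key 1 1)
  · exact Complex.reCLM.contDiff.comp_contDiffOn (key 0 1)
  · exact Complex.imCLM.contDiff.comp_contDiffOn (key 0 1)

theorem ee_tg (h0 : StGa) (hX : SmC X) (hc : Cs R₀ X) (j : Fin 4) (s : ℂ) (w : C2) :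
    Ee j (Tg a b X s) w = ∑ k, Mw a b j k s w * Tg a b (Ee k X) s w := by
  by_cases h : de a b s w = 0
  · rw [(Ee_congr j (tg_ev h0 hc h)).eq_of_nhds, TrPiP.Ee_zero']
    simp only [tg_pole _ h, mul_zero, Finset.sum_const_zero]
  · have e : Tg a b X s =ᶠ[𝓝 w] X ∘ Ga a b s :=
      ((open_de a b s).eventually_mem h).mono fun y hy => tg_mem X hy
    rw [(Ee_congr j e).eq_of_nhds]
    refine (congrFun (III.hol III.mx X _ w hX (h0.an a b s w h)) j).trans ?_
    simp only [Matrix.mulVec, dotProduct, Eg, tg_mem _ h, Mw]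

theorem cf_tg (h0 : StGa) {c e : ℝ} {f : Bool → Fn} (hf : SKp c e f) (h : de a b s w ≠ 0)
    (k : Fin 4) : ∑ i, cf i (f b) w * Mw a b i k s w = cf k (f a) (Ga a b s w) := by
  have hE := (h0.pt c e f hf.toSPt a b s w h).2
  have x := (III.real' _ (hf.sm b)).1 w
  have y := (III.real' _ (hf.sm a)).1 (Ga a b s w)
  rw [y.2.2.1, ← III.mx.2.2.2.2.2.1 _ _ k (h0.det a b s w h), ← hE]
  simp only [x.2.2.1, Mw]

theorem pio_tg (h0 : StGa) {c e : ℝ} {f : Bool → Fn} (hf : SKp c e f) (hX : SmC X)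
    (hc : Cs R₀ X) (s : ℂ) (w : C2) : Tg a b (PiO (f a) X) s w = ∑ i, ∑ j, ∑ k,
      cf i (f b) w * cf j (f b) w * (Mw a b j k s w * Ee i (Tg a b (Ee k X) s) w) := by
  have e3 : Tg a b (PiO (f a) X) s w = ∑ l, ∑ k, (∑ i, cf i (f b) w * Mw a b i l s w) *
      (∑ j, cf j (f b) w * Mw a b j k s w) * Tg a b (Ee l (Ee k X)) s w := by
    by_cases h : de a b s w = 0
    · simp only [tg_pole _ h, mul_zero, Finset.sum_const_zero]
    · simp only [cf_tg h0 hf h, tg_mem _ h]
      rfl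
  simp only [e3, fun i k => ee_tg (a := a) (b := b) h0 (sm_Ee k hX) (hc.Ee k) i s w,
    Fin.sum_univ_four]
  ring

theorem ee_av (h0 : StGa) (h1 : StAw) (hX : SmC X) (hc : Cs R₀ X) (j : Fin 4) :
    Ee j (Av a b X) = fun w => ∑ k, Aw (Mw a b j k) a b (Ee k X) w := by
  funext w
  have hi := fun k => h1.int a b _ _ R₀ (wt_Mw h0 a b j k) (sm_Ee k hX) (hc.Ee k) [] w
  simp only [pdl_nil] at hi
  rw [Av, ee_aw h1 wt_one hX hc]
  simp only [one_mul, Aw]
  rw [← integral_finsetSum _ fun k _ => hi k]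
  exact integral_congr_ae (Eventually.of_forall fun s => ee_tg h0 hX hc j s w)

theorem main (h0 : StGa) (h1 : StAw) {c e : ℝ} {f : Bool → Fn} (hf : SKp c e f) (hX : SmC X)
    (hc : Cs R₀ X) : Av a b (PiO (f a) X) - PiO (f b) (Av a b X) = -fun w => ∑ i, ∑ j, ∑ k,
      cf i (f b) w * cf j (f b) w * Cm (Mw a b j k) a b (Ee k X) i w := by
  funext w
  have hk := fun i j k => com h0 h1 (wt_Mw h0 a b j k) (sm_Ee k hX) (hc.Ee k) i w
  have i1 := fun i j k => (hk i j k).1.const_mul (cf i (f b) w * cf j (f b) w)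
  have e1 : Av a b (PiO (f a) X) w = ∑ i, ∑ j, ∑ k, cf i (f b) w * cf j (f b) w *
      (Ee i (Aw (Mw a b j k) a b (Ee k X)) w - Cm (Mw a b j k) a b (Ee k X) i w) := by
    simp only [Av, Aw, one_mul, pio_tg h0 hf hX hc]
    rw [integral_finsetSum _ fun i _ => integrable_finsetSum _ fun j _ =>
      integrable_finsetSum _ fun k _ => i1 i j k]
    refine Finset.sum_congr rfl fun i _ => ?_
    rw [integral_finsetSum _ fun j _ => integrable_finsetSum _ fun k _ => i1 i j k]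
    refine Finset.sum_congr rfl fun j _ => ?_
    rw [integral_finsetSum _ fun k _ => i1 i j k]
    refine Finset.sum_congr rfl fun k _ => ?_
    rw [integral_const_mul, (hk i j k).2]
  have e2 : ∀ i j, Ee i (Ee j (Av a b X)) w = ∑ k, Ee i (Aw (Mw a b j k) a b (Ee k X)) w :=
    fun i j => by
      rw [ee_av h0 h1 hX hc, Ee_sum i _ fun k _ =>
        h1.sm a b _ _ R₀ (wt_Mw h0 a b j k) (sm_Ee k hX) (hc.Ee k)]
  simp only [Pi.sub_apply, Pi.neg_apply, e1, PiO, e2, Finset.mul_sum, mul_sub,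
    Finset.sum_sub_distrib]
  ring

end S3P

theorem com_ok (h0 : StGa) (h1 : StAw) : StCom := by
  intro c e a b R₀ α 𝒰 f Y hf hcf hY hc
  refine OL.congr' ?_ fun V hV => S3P.main h0 h1 (hf V hV) (hY.sm V hV) (hc V hV)
  exact (OL.sum Finset.univ fun i _ => OL.sum Finset.univ fun j _ => OL.sum Finset.univ fun k _ =>
    (((hcf i).mono (by norm_num)).mul' ((hcf j).mono (by norm_num))).mul'
      (S3P.ol_cm h1 (S3P.wt_Mw h0 a b j k) (hY.Ee k) (fun V hV => (hc V hV).Ee k) i)).neg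

end Pool.Agent.P.MP_2cea5e_gt.Se
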