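import Pool.Agent.P.MP_2cea5e_gt.Se.Mod

/-!
Package S4.
-/

open scoped ContDiff ComplexOrder Matrix Topology ComplexConjugate
open MeasureTheory Set Filter

noncomputable section

namespace Pool.Agent.P.MP_2cea5e_gt.Se

open II III

namespace S4P

theorem det_mob (s α β γ δ : ℂ) (w : C2) (h : γ * w 1 + δ ≠ 0) :
    (III.jac (fun y : C2 => (![y 0 + s, (α * y 1 + β) / (γ * y 1 + δ)] : C2)) w).det =
      (α * δ - β * γ) / (γ * w 1 + δ) ^ 2 := by
  have p0 : HasFDerivAt (fun y : C2 => y 0)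
      (ContinuousLinearMap.proj (R := ℂ) (φ := fun _ : Fin 2 => ℂ) 0) w :=
    (ContinuousLinearMap.proj (R := ℂ) (φ := fun _ : Fin 2 => ℂ) 0).hasFDerivAt
  have p1 : HasFDerivAt (fun y : C2 => y 1)
      (ContinuousLinearMap.proj (R := ℂ) (φ := fun _ : Fin 2 => ℂ) 1) w :=
    (ContinuousLinearMap.proj (R := ℂ) (φ := fun _ : Fin 2 => ℂ) 1).hasFDerivAt
  have m : HasDerivAt (fun x : ℂ => (α * x + β) / (γ * x + δ))
      ((α * δ - β * γ) / (γ * w 1 + δ) ^ 2) (w 1) := by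
    have a1 : HasDerivAt (fun x : ℂ => α * x + β) α (w 1) := by
      simpa using ((hasDerivAt_id (w 1)).const_mul α).add_const β
    have a2 : HasDerivAt (fun x : ℂ => γ * x + δ) γ (w 1) := by
      simpa using ((hasDerivAt_id (w 1)).const_mul γ).add_const δ
    refine (a1.div a2 h).congr_deriv ?_
    congr 1
    ring
  have q1 := m.comp_hasFDerivAt w p1
  have q : HasFDerivAt (fun y : C2 => (![y 0 + s, (α * y 1 + β) / (γ * y 1 + δ)] : C2))
      (ContinuousLinearMap.pi ![ContinuousLinearMap.proj (R := ℂ) (φ := fun _ : Fin 2 => ℂ) 0,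
        ((α * δ - β * γ) / (γ * w 1 + δ) ^ 2) •
          ContinuousLinearMap.proj (R := ℂ) (φ := fun _ : Fin 2 => ℂ) 1]) w := by
    rw [hasFDerivAt_pi']
    intro i
    fin_cases i
    · exact p0.add_const s
    · exact q1
  rw [Matrix.det_fin_two]
  simp [III.jac, q.fderiv]

theorem det_Ga (a b : Bool) (s : ℂ) (w : C2) (h : de a b s w ≠ 0) :
    Complex.normSq (III.jac (Ga a b s) w).det * ‖de a b s w‖ ^ 4 = 1 := by
  have key : ∀ α β γ δ : ℂ, (∀ y : C2, nu a b s y = α * y 1 + β) →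
      (∀ y : C2, de a b s y = γ * y 1 + δ) → ‖α * δ - β * γ‖ = 1 →
      Complex.normSq (III.jac (Ga a b s) w).det * ‖de a b s w‖ ^ 4 = 1 := by
    intro α β γ δ h1 h2 h3
    have e : Ga a b s = fun y : C2 => (![y 0 + s, (α * y 1 + β) / (γ * y 1 + δ)] : C2) :=
      funext fun y => by rw [Ga, h1, h2]
    rw [h2] at h
    rw [e, det_mob s α β γ δ w h, h2, Complex.normSq_eq_norm_sq, norm_div, h3, norm_pow]
    have := norm_ne_zero_iff.2 h
    field_simp
  cases a <;> cases b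
  · exact key 1 (conj s) 0 1 (fun y => by simp [nu, hN, hD]) (fun y => by simp [de, hD]) (by simp)
  · exact key (conj s) 1 1 0 (fun y => by simp [nu, hN, hD, add_comm])
      (fun y => by simp [de, hD]) (by simp)
  · exact key 0 1 1 (conj s) (fun y => by simp [nu, hD]) (fun y => by simp [de, hN, hD]) (by simp)
  · exact key 1 0 (conj s) 1 (fun y => by simp [nu, hD])
      (fun y => by simp [de, hN, hD, add_comm]) (by simp)

theorem cont_de (a b : Bool) (s : ℂ) : Continuous (de a b s) := by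
  unfold de hN hD
  cases a <;> cases b <;> simp only [cond_true, cond_false] <;> fun_prop

theorem spt {φ : Bool → Fn} (h : SGl φ) : SPt 0 0 φ :=
  ⟨h.sm, fun s w => by simp [h.inv], fun w hw => by simp [h.glue w hw]⟩

end S4P

open S4P PosP

theorem posS_ok (h0 : StGa) : StPos := by
  have hR := III.real'
  have h1 := III.mx
  refine ⟨?_, ?_, ?_⟩
  · intro c e ψ hK
    have hvol : ∀ σ z, vol (ψ σ) z = Vq (Eg (ψ σ) z) := fun σ z => ((hR _ (hK.sm σ)).1 z).2.1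
    have hp : ∀ σ z, 0 < Ee 0 (ψ σ) z ∧ 0 < vol (ψ σ) z := fun σ z =>
      ((hR _ (hK.sm σ)).1 z).2.2.2.1 (hK.pos σ z)
    obtain ⟨U, hU0, hU⟩ := bd (fun σ y => (vol (ψ σ) y)⁻¹) fun σ =>
      (hR _ (hK.sm σ)).2.1.continuous.inv₀ fun y => (hp σ y).2.ne'
    obtain ⟨B, hB0, hB⟩ := bd (fun (q : Bool × Fin 4) y => |Ee q.2 (ψ q.1) y|) fun q =>
      (sm_Ee q.2 (hK.sm q.1)).continuous.abs
    obtain ⟨ε, hε0, hε1, hε2⟩ : ∃ ε : ℝ, 0 < ε ∧ ε ≤ 1 ∧ 4 * (6 * B + 3) * (U + 1) * ε ≤ 1 := by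
      have hd : 0 < 4 * (6 * B + 3) * (U + 1) := by positivity
      refine ⟨min 1 (4 * (6 * B + 3) * (U + 1))⁻¹, lt_min one_pos (inv_pos.2 hd),
        min_le_left _ _, ?_⟩
      calc _ ≤ 4 * (6 * B + 3) * (U + 1) * (4 * (6 * B + 3) * (U + 1))⁻¹ :=
            mul_le_mul_of_nonneg_left (min_le_right _ _) hd.le
        _ = 1 := mul_inv_cancel₀ hd.ne'
    refine ⟨ε, hε0, fun φ hφ hN => ?_⟩
    have loc : ∀ σ, ∀ y ∈ cb 1, |bq (Eg (ψ σ) y) (Eg (φ σ) y)| ≤ Vq (Eg (ψ σ) y) / 4 ∧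
        |Vq (Eg (φ σ) y)| ≤ Vq (Eg (ψ σ) y) / 4 := by
      intro σ y hy
      have e1 : ∀ i, |Eg (φ σ) y i| ≤ ε := abs_Ee fun p q => hN σ [p, q] le_rfl y hy
      have e2 := abs_bq (g := Eg (ψ σ) y) (fun i => hB (σ, i) y hy) e1
      have e3 := abs_Vq e1
      have e4 := (hp σ y).2
      have e5 : 1 ≤ (U + 1) * vol (ψ σ) y := by
        have := hU σ y hy
        rw [inv_le_iff_one_le_mul₀ e4] at this
        nlinarith
      have e6 : (6 * B + 3) * ε ≤ vol (ψ σ) y / 4 := by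
        have e7 : 0 ≤ (6 * B + 3) * ε := by positivity
        have e8 := mul_le_mul_of_nonneg_left e5 e7
        have e9 := mul_le_mul_of_nonneg_left hε2 e4.le
        nlinarith
      rw [← hvol]
      constructor <;> nlinarith [mul_nonneg hB0 hε0.le]
    intro σ z
    obtain ⟨a, hD, -, η, hη, hG⟩ := h0.base σ z
    have hy : Ga a σ (-z 0) z ∈ cb 1 := by
      rw [hG, cb, mem_closedBall_zero_iff, pi_norm_le_iff_of_nonneg zero_le_one]
      intro j
      fin_cases j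
      · simp
      · simpa using hη
    obtain ⟨d1, d2⟩ := loc a _ hy
    have e12 : |bq (Eg (ψ σ) z) (Eg (φ σ) z)| ≤ Vq (Eg (ψ σ) z) / 4 ∧
        |Vq (Eg (φ σ) z)| ≤ Vq (Eg (ψ σ) z) / 4 := by
      rw [(h0.pt c e ψ hK.toSPt a σ _ z hD).2, (h0.pt 0 0 φ (spt hφ) a σ _ z hD).2,
        h1.2.2.2.2.1, h1.2.2.2.1, h1.2.2.2.1, abs_mul, abs_mul,
        abs_of_nonneg (Complex.normSq_nonneg _), mul_div_assoc]
      exact ⟨mul_le_mul_of_nonneg_left d1 (Complex.normSq_nonneg _),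
        mul_le_mul_of_nonneg_left d2 (Complex.normSq_nonneg _)⟩
    obtain ⟨e1, e2⟩ := e12
    obtain ⟨e3, e4⟩ := h1.2.2.2.2.2.2.2.2 _ _ (hp σ z).1 (hvol σ z ▸ (hp σ z).2) e1 e2
    have hs : SmC (ψ σ + φ σ) := ContDiff.add (hK.sm σ) (hφ.sm σ)
    have e5 : Eg (ψ σ + φ σ) z = Eg (ψ σ) z + Eg (φ σ) z :=
      funext fun i => congrFun (Ee_add' i (hK.sm σ) (hφ.sm σ)) z
    have e6 := ((hR _ hs).1 z).2.1
    rw [← e5] at e3 e4
    rw [← e6, ← hvol] at e4
    exact ⟨((hR _ hs).1 z).2.2.2.2 ⟨e3, by linarith [(hp σ z).2]⟩, e4⟩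
  · intro c e f hK
    have hM := h0.sm c e f hK
    refine h0.gl' _ (fun b => ?_) fun b s w hD => ?_
    · exact contDiff_iff_contDiffAt.2 fun z =>
        Abs.Tens.sm_scal (g := hess (f b)) (fun j k => (hM.smooth b j k).contDiffAt) (hK.pos b z)
    · have e1 : hess (f b) =ᶠ[𝓝 w] Abs.pbF (Ga false b s) (hess (f false)) :=
        ((cont_de false b s).continuousAt.eventually_ne hD).mono fun y hy =>
          (h0.pt c e f hK.toSPt false b s y hy).1
      have e2 := Abs.Tens.scal_pb (g := hess (f false)) (h0.an false b s w hD)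
        (fun j k => (hM.smooth false j k).contDiffAt) (h0.det false b s w hD) (hK.pos false _)
      exact ((Abs.scalG_congr e1).trans e2).symm
  · intro c e f hP a b s w hD
    rw [((hR _ (hP.sm b)).1 w).2.1, ((hR _ (hP.sm a)).1 _).2.1, (h0.pt c e f hP a b s w hD).2,
      h1.2.2.2.1, mul_right_comm, det_Ga a b s w hD, one_mul]

end Pool.Agent.P.MP_2cea5e_gt.Se
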