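import Pool.Agent.P.MP_2cea5e_gt.Se.Mod

/-!
Package S5.
-/

open scoped ContDiff ComplexOrder Matrix Topology ComplexConjugate
open MeasureTheory Set Filter

noncomputable section

namespace Pool.Agent.P.MP_2cea5e_gt.Se

open II III

namespace S5P

open FinP

theorem gl_sum {α : Type} [Fintype α] {u : α → Bool → Fn} (h : ∀ b, SGl (u b)) :
    SGl fun τ z => ∑ b, u b τ z :=
  ⟨fun τ => sm_sum _ fun b _ => (h b).sm τ,
    fun s w => Finset.sum_congr rfl fun b _ => (h b).inv s w,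
    fun w hw => Finset.sum_congr rfl fun b _ => (h b).glue w hw⟩

theorem gl_comb {u v : Bool → Fn} (h : SGl u) (h' : SGl v) :
    SGl fun τ z => 16 * (u τ z + v τ z) :=
  ⟨fun τ => contDiff_const.mul ((h.sm τ).add (h'.sm τ)),
    fun s w => by simp only [h.inv s w, h'.inv s w],
    fun w hw => by simp only [h.glue w hw, h'.glue w hw]⟩

theorem hI : S_Iter :=
  have a1 := p1 par
  have b1 := g1 par g0
  iter (sg ker a1 (p2 a1) (p3 a1)) b1 (g2 g0 b1) (g3 g0 b1) phi i1 i2 i3 (i4 lim)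

theorem hP : S_Pat := pat real' mx (affT real' mx (hol mx))

theorem endS {f : Bool → Fn} {κ τ : ℝ} {φ : ℝ → Bool → Fn} (hf : ∀ b, SmC (f b)) (hτ : 0 < τ)
    (h0 : φ 0 = 0) (hg : ∀ t ∈ Icc 0 τ, SGl (φ t) ∧ ∀ σ z, (hess (f σ + φ t σ) z).PosDef)
    (hl : ∀ σ R k, ∃ C, ∀ s ∈ Icc 0 τ, ∀ t ∈ Icc 0 τ, Nb (cb R) k (φ t σ - φ s σ) (C * |t - s|))
    {C : ℝ} (hC : ∀ t ∈ Icc 0 τ, ∀ t' ∈ Icc 0 τ, t ≤ t' → ∀ σ z,
      |φ t' σ z - φ t σ z - (t' - t) * (κ * scal (f σ + φ t σ) z)| ≤ C * (t' - t) ^ 2) :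
    IsSolS f κ (Ico 0 τ) φ := by
  have key : ∀ σ, ContDiffOn ℝ ∞ (fun q : ℝ × C2 => (f σ + φ q.1 σ) q.2) (Ico 0 τ ×ˢ univ) ∧
      ∀ t ∈ Ico 0 τ, ∀ z, HasDerivWithinAt (fun s => (f σ + φ s σ) z)
        (κ * scal (f σ + φ t σ) z - 0) (Ico 0 τ) t := by
    intro σ
    refine II.js_ok (fun t => f σ + φ t σ) 0 τ 0 κ 0 hτ (IterP.cl ?_ ?_) ?_ ?_
    · exact fun t ht => III.sm_add (hf σ) ((hg t ht).1.sm σ)
    · intro R k
      obtain ⟨D, hD⟩ := hl σ R k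
      refine ⟨D, fun s hs t ht => ?_⟩
      rw [add_sub_add_left_eq_sub]
      exact hD s hs t ht
    · exact fun t ht z => (hg t (Ico_subset_Icc_self ht)).2 σ z
    · intro t ht _ z
      have := der_of_taylor (u := fun s => φ s σ z)
        (w := fun s => κ * scal (f σ + φ s σ) z) (C := C)
        (fun s hs s' hs' hss => hC s hs s' hs' hss σ z) ht
      rw [sub_zero]
      exact this.const_add (f σ z)
  refine ⟨fun σ => ?_, fun σ z => by rw [h0]; rfl,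
    fun t ht => (hg t (Ico_subset_Icc_self ht)).1,
    fun t ht => (hg t (Ico_subset_Icc_self ht)).2, fun t ht σ z => ?_⟩
  · have e : ContDiffOn ℝ ∞ (fun q : ℝ × C2 => f σ q.2) (Ico 0 τ ×ˢ univ) :=
      ((hf σ).comp contDiff_snd).contDiffOn
    refine ((key σ).1.sub e).congr fun q _ => ?_
    simp
  · have := ((key σ).2 t ht z).sub_const (f σ z)
    simpa using this

theorem finS (h0 : StGa) (h2 : StSys) (h4 : StPos) {c₀ e₀ : ℝ} {ψ : Bool → Fn}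
    (hK : SKp c₀ e₀ ψ) : ∃ τ : ℝ, 0 < τ ∧ ∃ φ, IsSolS ψ 16 (Ico 0 τ) φ := by
  obtain ⟨d', hd', HI⟩ := hI
  obtain ⟨d, hd, HC⟩ := coef real' d' hd'
  have hAdm : ∀ σ, Adm (ψ σ) := fun σ => ⟨hK.sm σ, hK.pos σ⟩
  obtain ⟨α, _, ⟨P⟩⟩ := hP Bool ψ (d / 2) (half_pos hd) hAdm
  obtain ⟨E, Rs, Sy⟩ := h2 α ψ _ P
  obtain ⟨ε, hε, Hp⟩ := h4.pos c₀ e₀ ψ hK
  obtain ⟨φ, hφ⟩ : ∃ φ : (α → Fn) → Bool → Fn, φ = fun V τ z => ∑ b, E b (V b) τ z := ⟨_, rfl⟩
  have sA : ∀ a, ContDiff ℝ ∞ (P.A a) := fun a => sm_aff' _ _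
  have o0 : ∀ η τ, OL (US α η) 0 fun V => φ V τ := fun η τ => by
    rw [hφ]
    exact OL.sum _ fun b _ => Sy.ol b τ _ 0 _ (OL.coord (fun _ h => US.sm h) b)
  have z0 : φ 0 = 0 := by
    rw [hφ]
    funext τ z
    refine Finset.sum_eq_zero fun b _ => ?_
    have := congrFun (Sy.smul b 0 τ 0) z
    simpa using this
  have g0 : ∀ η, ∀ V ∈ US α η, SGl (φ V) := fun η V hV => by
    rw [hφ]
    exact gl_sum fun b => Sy.gl b _ (US.sm hV b)
  have e1 : ∀ᶠ η in 𝓝[>] (0 : ℝ), ∀ τ, ∀ V ∈ US α η, Nb (cb 1) 2 (φ V τ) ε :=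
    eventually_all.2 fun τ => small (o0 1 τ 1) le_rfl (by rw [z0]; rfl) hε
  have e2 : ∀ᶠ η in 𝓝[>] (0 : ℝ), ∀ a i, ∀ V ∈ US α η,
      Nb (cb 1) 0 (Ee i (φ V (P.σ a) ∘ P.A a)) (d / 2) :=
    eventually_all.2 fun a => eventually_all.2 fun i =>
      small ((((o0 1 _).comp (sA a)).Ee i) 1) le_rfl (by rw [z0]; exact Ee_const i 0) (half_pos hd)
  obtain ⟨η, ⟨E1, E2⟩, hη⟩ := ((e1.and e2).and self_mem_nhdsWithin).exists
  replace hη : 0 < η := hη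
  have pos := fun V hV => Hp (φ V) (g0 η V hV) fun σ => E1 σ V hV
  have tk : ∀ V ∈ US α η, SKp c₀ e₀ fun σ => ψ σ + φ V σ := fun V hV =>
    ⟨h0.add c₀ e₀ ψ (φ V) hK.toSPt (g0 η V hV), hK.cpos, fun σ z => (pos V hV σ z).1⟩
  have Sc := fun τ => scP real' α (US α η) (ψ τ) (fun V => φ V τ) (hAdm τ) (o0 η τ) fun V hV =>
    ⟨⟨(tk V hV).sm τ, (tk V hV).pos τ⟩, fun z => (pos V hV τ z).2⟩
  have Co := fun a => HC α (US α η) (P.ρ a) (fun V => (ψ (P.σ a) + φ V (P.σ a)) ∘ P.A a)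
    (P.smρ a) (P.csρ a) (P.ρ0 a) (P.ρ1 a)
    (((OL.const (hK.sm _)).add (o0 η _)).comp (sA a)) fun V hV y hy i => by
      have b1 := P.flat a y hy i
      have b2 := (E2 a i V hV).zero' (mem_cb.2 (not_lt.1 fun h => hy (P.csρ a y h)))
      have e := congrFun (Ee_add i ((hK.sm (P.σ a)).comp (sA a))
        (((g0 η V hV).sm (P.σ a)).comp (sA a))) y
      change Ee i ((ψ (P.σ a) + φ V (P.σ a)) ∘ P.A a) y = _ at e
      rw [e, Pi.add_apply, add_sub_right_comm]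
      exact (abs_add_le _ _).trans ((add_le_add b1 b2).trans_eq (add_halves d))
  obtain ⟨T, hT⟩ : ∃ T : (α → Fn) → α → Fn,
    T = fun V b => At (P.ρ b) ((ψ (P.σ b) + φ V (P.σ b)) ∘ P.A b) (V b) := ⟨_, rfl⟩
  have sT : ∀ V ∈ US α η, ∀ b, SmC (T V b) := fun V hV b => by
    rw [hT]; exact ((Co b).2.2 V hV _ (US.sm hV b)).1
  obtain ⟨H, hH⟩ : ∃ H : (α → Fn) → Bool → Fn, H = fun V τ z =>
    16 * (scal (ψ τ + φ V τ) z + ∑ b, E b (T V b) τ z) := ⟨_, rfl⟩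
  have gH : ∀ V ∈ US α η, SGl (H V) := fun V hV => by
    rw [hH]
    exact gl_comb (h4.scal c₀ e₀ _ (tk V hV)) (gl_sum fun b => Sy.gl b _ (sT V hV b))
  have oH : ∀ τ, OL (US α η) 3 fun V => H V τ := fun τ => by
    refine (((Sc τ).2.add' (OL.sum Finset.univ fun b _ => Sy.com c₀ e₀ b τ _
      (fun V σ => ψ σ + φ V σ) (fun V => V b) tk (fun σ => (Sc σ).1)
      (OL.coord (fun _ h => US.sm h) b))).cmul 16).congr' fun V hV => ?_
    funext z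
    have e : ∀ b, E b (T V b) τ =
        E b (PiO ((ψ (P.σ b) + φ V (P.σ b)) ∘ P.A b) (V b)) τ := fun b => by
      refine congrFun (Sy.dep b _ _ ?_) τ
      funext y
      by_cases hy : P.β b y = 0
      · simp only [Pi.mul_apply, hy, zero_mul]
      · rw [hT, Pi.mul_apply, Pi.mul_apply]
        exact congrArg _ (((Co b).2.2 V hV _ (US.sm hV b)).2.2 y (P.βρ b y hy))
    have e' : PiO (ψ τ + φ V τ) (φ V τ) z = ∑ b, PiO (ψ τ + φ V τ) (E b (V b) τ) z := by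
      rw [← piO_sum _ fun b => (Sy.gl b _ (US.sm hV b)).sm τ, hφ]
    simp only [hH, e, Pi.add_apply, Pi.sub_apply, Finset.sum_sub_distrib, e']
    ring
  obtain ⟨τ, hτ, V, hV⟩ := HI α η
    (fun b p V => ac (P.ρ b) ((ψ (P.σ b) + φ V (P.σ b)) ∘ P.A b) p)
    (fun b V => Rs b (H V)) hη (fun b => (Co b).1) (fun b => (Co b).2.1)
    fun b => Sy.ord b _ 3 H (oH _)
  obtain ⟨C, hC⟩ := hV.tay
  obtain ⟨B, hB⟩ := Sy.abs
  refine ⟨τ, hτ, fun t => φ (V t), endS (C := Fintype.card α * (B * C)) hK.sm hτ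
    (by rw [hV.zero, z0])
    (fun t ht => ⟨g0 η _ (hV.mem t ht), fun σ z => (pos _ (hV.mem t ht) σ z).1⟩)
    (fun σ R k => ((o0 η σ R).curve hV.toGood k).2) fun t ht t' ht' htt σ z => ?_⟩
  have m1 := hV.mem t ht
  have m2 := hV.mem t' ht'
  have sR := fun b => Sy.smR b _ (gH _ m1)
  have s16 : ∀ b, SmC ((16 : ℝ) • T (V t) b) := fun b => (sT _ m1 b).const_smul (16 : ℝ)
  have s : ∀ b, SmC ((t' - t) • (Rs b (H (V t)) - (16 : ℝ) • T (V t) b)) := fun b =>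
    (III.sm_sub (sR b) (s16 b)).const_smul (t' - t)
  have key : ∀ b, |E b (V t' b - V t b - (t' - t) •
      (Rs b (H (V t)) - (16 : ℝ) • T (V t) b)) σ z| ≤ B * (C * (t' - t) ^ 2) := fun b =>
    hB b _ σ _ (III.sm_sub (III.sm_sub (US.sm m2 b) (US.sm m1 b)) (s b)) (fun y => by
      have a := hC t ht t' ht' htt b y
      rw [Phi, ((Co b).2.2 _ m1 _ (US.sm m1 b)).2.1 y] at a
      refine le_of_eq_of_le (congrArg _ ?_) a
      simp only [hT, Pi.sub_apply, Pi.smul_apply, smul_eq_mul]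
      ring) z
  have e : φ (V t') σ z - φ (V t) σ z - (t' - t) * (16 * scal (ψ σ + φ (V t) σ) z) =
      ∑ b, E b (V t' b - V t b - (t' - t) • (Rs b (H (V t)) - (16 : ℝ) • T (V t) b)) σ z := by
    have e0 : ∀ b, E b (V t' b - V t b - (t' - t) •
        (Rs b (H (V t)) - (16 : ℝ) • T (V t) b)) σ z =
        E b (V t' b) σ z - E b (V t b) σ z - (t' - t) *
          (E b (Rs b (H (V t))) σ z - 16 * E b (T (V t) b) σ z) := fun b => by
      rw [Sy.sub b _ _ σ (III.sm_sub (US.sm m2 b) (US.sm m1 b)) (s b),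
        Sy.sub b _ _ σ (US.sm m2 b) (US.sm m1 b), Sy.smul, Sy.sub b _ _ σ (sR b) (s16 b), Sy.smul]
      rfl
    simp only [e0, Finset.sum_sub_distrib, ← Finset.mul_sum, Sy.part _ (gH _ m1) σ z]
    rw [hH]
    conv_lhs => enter [1]; rw [hφ]
    ring
  rw [e]
  refine (Finset.abs_sum_le_sum_abs _ _).trans ((Finset.sum_le_sum fun b _ => key b).trans_eq ?_)
  rw [Finset.sum_const, Finset.card_univ, nsmul_eq_mul]
  ring

end S5P

theorem shortS_ok (h0 : StGa) (h2 : StSys) (h4 : StPos) : StShortS := by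
  intro c e ψ κ hψ hκ
  obtain ⟨τ, hτ, φ, hφ⟩ := S5P.finS h0 h2 h4 hψ
  have hmap : MapsTo (fun t : ℝ => κ / 16 * t) (Ico 0 (16 * τ / κ)) (Ico 0 τ) := by
    intro t ht
    refine ⟨mul_nonneg (by positivity) ht.1, ?_⟩
    have h2 := (lt_div_iff₀ hκ).1 ht.2
    show κ / 16 * t < τ
    linarith
  refine ⟨16 * τ / κ, by positivity, fun t => φ (κ / 16 * t), ?_, ?_, ?_, ?_, ?_⟩
  · intro σ
    have hs : ContDiff ℝ ∞ fun q : ℝ × C2 => ((κ / 16 * q.1, q.2) : ℝ × C2) :=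
      (contDiff_const.mul contDiff_fst).prodMk contDiff_snd
    exact (hφ.smooth σ).comp hs.contDiffOn fun q hq => ⟨hmap hq.1, mem_univ _⟩
  · intro σ z
    simpa using hφ.init σ z
  · exact fun t ht => hφ.gl _ (hmap ht)
  · exact fun t ht => hφ.pos _ (hmap ht)
  · intro t ht σ z
    have hl : HasDerivWithinAt (fun t : ℝ => κ / 16 * t) (κ / 16) (Ico 0 (16 * τ / κ)) t := by
      simpa using ((hasDerivAt_id t).const_mul (κ / 16)).hasDerivWithinAt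
    have h2 := (hφ.flow _ (hmap ht) σ z).comp t hl hmap
    have e : 16 * scal (ψ σ + φ (κ / 16 * t) σ) z * (κ / 16) =
        κ * scal (ψ σ + φ (κ / 16 * t) σ) z := by
      ring
    rw [e] at h2
    exact h2

end Pool.Agent.P.MP_2cea5e_gt.Se
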