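import Pool.Agent.P.MP_2cea5e_gt.Se.ClsSt

/-!
Package T1.
-/

open scoped ContDiff ComplexOrder Manifold Matrix Topology ComplexConjugate
open Set Metric Filter MulAction

noncomputable section

namespace Pool.Agent.P.MP_2cea5e_gt.Se

open Abs

variable {M : Type} [TopologicalSpace M] [T2Space M] [CompactSpace M] [ChartedSpace C2 M]
  [IsManifold IC 1 M] [MulAction C2ˣ M] [ContMDiffSMul IC IC 1 C2ˣ M] [FaithfulSMul C2ˣ M]

namespace T1P

omit [T2Space M] [CompactSpace M] [IsManifold IC 1 M] [MulAction C2ˣ M]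
  [ContMDiffSMul IC IC 1 C2ˣ M] [FaithfulSMul C2ˣ M] in
theorem LI.md {F : C2 → M} {w : C2} (h : LI F w) : MDifferentiableAt IC IC F w :=
  h.choose_spec.1.self_of_nhds.1

theorem diff_inv2 {w : C2} (hw : w 1 ≠ 0) : DifferentiableAt ℂ inv2 w := by
  refine differentiableAt_pi.2 fun j => ?_
  fin_cases j
  · exact differentiableAt_apply 0 w
  · exact (differentiableAt_apply 1 w).inv hw

theorem ev1 {w : C2} (hw : w 1 ≠ 0) : ∀ᶠ y : C2 in 𝓝 w, y 1 ≠ 0 :=
  (continuous_apply 1).continuousAt.eventually_ne hw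

theorem dense1 : Dense {y : C2 | y 1 ≠ 0} := by
  have := dense_pi (s := fun _ : Fin 2 => ({0}ᶜ : Set ℂ)) univ fun _ _ => dense_compl_singleton 0
  exact this.mono fun y hy => mem_univ_pi.1 hy 1

theorem inv2_inv2 (w : C2) : inv2 (inv2 w) = w := by
  funext j; fin_cases j <;> simp [inv2]

theorem Ga_ff (s : ℂ) (w : C2) : Ga false false s w = w + tr s := by
  funext j; fin_cases j <;> simp [Ga, nu, de, hN, hD, tr]

theorem Ga_ft (s : ℂ) {w : C2} (hw : w 1 ≠ 0) : Ga false true s w = inv2 w + tr s := by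
  funext j
  fin_cases j
  · simp [Ga, inv2, tr]
  · simp [Ga, nu, de, hN, hD, tr, inv2]; field_simp

theorem Ga_t (b : Bool) (s : ℂ) (w : C2) : inv2 (Ga true b s w) = Ga false b s w := by
  funext j; fin_cases j <;> simp [Ga, nu, de, inv2]

omit [T2Space M] [CompactSpace M] [IsManifold IC 1 M] [ContMDiffSMul IC IC 1 C2ˣ M]
  [FaithfulSMul C2ˣ M] in
theorem act_f (C : SC M) (s : ℂ) (b : Bool) (w : C2) (h : de false b s w ≠ 0) :
    C.Φ false (Ga false b s w) = C.el s • C.Φ b w := by
  cases b
  · rw [Ga_ff, C.eqv]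
  · have hw : w 1 ≠ 0 := h
    rw [Ga_ft s hw, C.eqv, C.glue w hw]

omit [T2Space M] [CompactSpace M] [IsManifold IC 1 M] [ContMDiffSMul IC IC 1 C2ˣ M]
  [FaithfulSMul C2ˣ M] in
theorem act_t (C : SC M) (s : ℂ) (b : Bool) (w : C2) (h : de true b s w ≠ 0)
    (h' : de false b s w ≠ 0) : C.Φ true (Ga true b s w) = C.el s • C.Φ b w := by
  rw [C.glue _ (show Ga true b s w 1 ≠ 0 from div_ne_zero h' h), Ga_t, act_f C s b w h']

omit [CompactSpace M] [IsManifold IC 1 M] [FaithfulSMul C2ˣ M] in
theorem act (hG : StGa) (C : SC M) (s : ℂ) (a b : Bool) (w : C2) (h : de a b s w ≠ 0) :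
    C.Φ a (Ga a b s w) = C.el s • C.Φ b w := by
  cases a
  · exact act_f C s b w h
  cases b
  · exact act_t C s false w h one_ne_zero
  have c1 : ContinuousAt (fun y => C.Φ true (Ga true true s y)) w :=
    (LI.md (C.loc true _)).continuousAt.comp (hG.an true true s w h).continuousAt
  have c2 : ContinuousAt (fun y => C.el s • C.Φ true y) w :=
    (cont_act (C.el s)).continuousAt.comp (LI.md (C.loc true w)).continuousAt
  have c3 : Continuous fun y : C2 => de true true s y := by
    simp only [de, hN, hD, cond_true]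
    fun_prop
  refine tendsto_nhds_unique_of_frequently_eq c1 c2 ?_
  refine ((mem_closure_iff_frequently.1 (dense1 w)).and_eventually
    (c3.continuousAt.eventually_ne h)).mono fun y hy => act_t C s true y hy.2 hy.1

theorem pbF_add (v : C2) (g : Fld) (z : C2) : pbF (fun w => w + v) g z = g (z + v) := by
  have : JJ (fun w => w + v) z = 1 := by
    rw [← JJ_id z]
    simp only [JJ, fderiv_add_const]
    rfl
  simp [pbF, this]

end T1P

open T1P

theorem t1_ok (_h0 : StC0 M) (hb : StC0b M) (hG : StGa) : StT1 M := by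
  intro C
  refine ⟨fun h hK => ?_, fun u hu => ?_, fun s a b w => act hG C s a b w⟩
  · have I := fun b w => (hb h hK).2.2.2 (C.Φ b) w (C.loc b w)
    refine ⟨fun b j k => contDiff_iff_contDiffAt.2 fun w => (I b w).1 j k, fun b w => (I b w).2.1,
      fun b w => (I b w).2.2, fun s w => ?_, fun w hw => ?_⟩
    · rw [← pbF_add (tr s) (pull h (C.Φ false)) w, ← pull_comp h (F := fun w => w + tr s) (LI.md (C.loc false _))
        (differentiableAt_id.add_const _)]
      simp only [C.eqv]
      ext j k
      rw [pull_apply, pull_apply, DD_comp (md_act _ _) (LI.md (C.loc false w)),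
        DD_comp (md_act _ _) (LI.md (C.loc false w))]
      exact hK.inv _ (C.elT s) _ _ _
    · rw [← pull_comp h (LI.md (C.loc false _)) (diff_inv2 hw)]
      exact pull_congr h ((ev1 hw).mono fun y hy => C.glue y hy)
  · choose b z hz using C.cov
    have k1 : ∀ w w', C.Φ false w = C.Φ false w' → u false w = u false w' := fun w w' e => by
      obtain ⟨s, rfl⟩ := C.free w w' e
      exact (hu.inv s w).symm
    have k2 : ∀ w w', C.Φ true w = C.Φ false w' → u true w = u false w' := fun w w' e => by
      have hw : w 1 ≠ 0 := fun h0 => C.sep w w' h0 e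
      rw [hu.glue w hw]
      exact k1 _ _ ((C.glue w hw).symm.trans e)
    have k3 : ∀ w w', C.Φ true w = C.Φ true w' → u true w = u true w' := fun w w' e => by
      by_cases hw' : w' 1 = 0
      · by_cases hw : w 1 = 0
        · have h1 := hG.gl u hu true true (w' 0 - w 0) w (by simp [de, hN, hD, hw])
          rw [← h1]
          congr 1
          funext j
          fin_cases j <;> simp [Ga, nu, hD, hw, hw']
        · exact absurd (e.symm.trans (C.glue w hw)) (C.sep w' _ hw')
      · rw [hu.glue w' hw']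
        exact k2 _ _ (e.trans (C.glue w' hw'))
    have k : ∀ a a' w w', C.Φ a w = C.Φ a' w' → u a w = u a' w' := fun a a' w w' e => by
      cases a <;> cases a'
      · exact k1 _ _ e
      · exact (k2 _ _ e.symm).symm
      · exact k2 _ _ e
      · exact k3 _ _ e
    exact ⟨fun x => u (b x) (z x), fun a w => k _ _ _ _ (hz _)⟩

end Pool.Agent.P.MP_2cea5e_gt.Se
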