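import Pool.Agent.P.MP_2cea5e_gt.Se.ClsSt

/-!
Package T2.
-/

open scoped ContDiff ComplexOrder Manifold Matrix Topology ComplexConjugate
open Set Metric Filter MulAction

noncomputable section

namespace Pool.Agent.P.MP_2cea5e_gt.Se

open Abs

namespace T2P

variable {M : Type} [TopologicalSpace M] [ChartedSpace C2 M] [MulAction C2ˣ M]

theorem md (C : SC M) (b : Bool) (w : C2) : MDifferentiableAt IC IC (C.Φ b) w := by
  obtain ⟨G, h, -⟩ := C.loc b w
  exact h.self_of_nhds.1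

theorem cts (C : SC M) (b : Bool) : Continuous (C.Φ b) :=
  continuous_iff_continuousAt.2 fun z => (md C b z).continuousAt

theorem cov' (C : SC M) (x : M) (s : ℂ) :
    ∃ b w, C.Φ b w = x ∧ ∀ᶠ y in 𝓝 w, de b b s y ≠ 0 := by
  have f1 : ∀ w : C2, ∀ᶠ y in 𝓝 w, de false false s y ≠ 0 := fun w =>
    Eventually.of_forall fun y => by simp [de, hD]
  obtain ⟨b, w, h⟩ := C.cov x
  cases b
  · exact ⟨false, w, h, f1 w⟩
  · by_cases hw : w 1 = 0
    · refine ⟨true, w, h, ?_⟩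
      have c : Continuous fun y : C2 => de true true s y := by
        simp only [de, hN, hD, cond_true]
        fun_prop
      exact c.continuousAt.eventually_ne (by simp [de, hN, hD, hw])
    · exact ⟨false, inv2 w, (C.glue w hw).symm.trans h, f1 _⟩

variable [IsManifold IC 1 M]

theorem loc (C : SC M) {e : OpenPartialHomeomorph M C2} (he : e ∈ atlas C2 M) {y : C2}
    (hy : y ∈ e.target) : ∃ (b : Bool) (F : C2 → C2) (W : Set C2), IsOpen W ∧ y ∈ W ∧
      DifferentiableOn ℂ F W ∧ (∀ u ∈ W, (JJ F u).det ≠ 0) ∧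
      ∀ u ∈ W, e.symm u = C.Φ b (F u) := by
  obtain ⟨b, w, hw⟩ := C.cov (e.symm y)
  obtain ⟨G, -, h2⟩ := C.loc b w
  obtain ⟨O, hO, oO, mO⟩ := eventually_nhds_iff.1 h2
  have hW := e.isOpen_inter_preimage_symm oO
  have hF : DifferentiableOn ℂ (fun u => G (e.symm u)) (e.target ∩ e.symm ⁻¹' O) := fun u hu =>
    (mdifferentiableAt_iff_differentiableAt.1
      ((hO _ hu.2).1.comp u (mdifferentiableAt_atlas_symm he hu.1))).differentiableWithinAt
  refine ⟨b, _, _, hW, ⟨hy, by rw [mem_preimage, ← hw]; exact mO⟩, hF,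
    fun u hu => JJ_det (F := fun v => e (C.Φ b v))
      (md_chart he (by rw [(hO _ hu.2).2]; exact e.map_target hu.1) (md C b _))
      (hF.differentiableAt (hW.mem_nhds hu)) ?_, fun u hu => (hO _ hu.2).2.symm⟩
  filter_upwards [hW.mem_nhds hu] with v hv
  rw [(hO _ hv.2).2, e.right_inv hv.1, id]

/-- The metric with an added potential. -/
def addP (h : Met M) (U : M → ℝ) : Met M := fun x =>
  hh h x + frm (hess (fun z => U ((chartAt C2 x).symm z)) (chartAt C2 x x))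
    (Abs.DD (chartAt C2 x) x)

theorem pull_addP (C : SC M) (h : Met M) {U : M → ℝ} {u : Bool → C2 → ℝ}
    (hu : ∀ b, ContDiff ℝ ∞ (u b)) (hU : ∀ b w, U (C.Φ b w) = u b w) (b : Bool) :
    pull (addP h U) (C.Φ b) = fun w => pull h (C.Φ b) w + hess (u b) w := by
  funext y
  set e := chartAt C2 (C.Φ b y) with he'
  have he : e ∈ atlas C2 M := chart_mem_atlas _ _
  have hz : C.Φ b y ∈ e.source := mem_chart_source _ _
  have hW : IsOpen (C.Φ b ⁻¹' e.source) := e.open_source.preimage (cts C b)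
  have hF : DifferentiableOn ℂ (fun v => e (C.Φ b v)) (C.Φ b ⁻¹' e.source) := fun v hv =>
    (md_chart he hv (md C b v)).differentiableWithinAt
  have sm : ContDiffAt ℝ ∞ (fun z => U (e.symm z)) (e (C.Φ b y)) := by
    obtain ⟨a, F, W, oW, mW, dF, -, hp⟩ := loc C he (e.map_source hz)
    refine ((hu a).contDiffAt.comp _ (sm_F oW dF mW)).congr_of_eventuallyEq ?_
    filter_upwards [oW.mem_nhds mW] with v hv
    rw [hp v hv, hU]
    rfl
  have t2 := (tens_ok _ _ hW hF).2.1 _ y hz sm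
  have e1 : (fun w => U (e.symm (e (C.Φ b w)))) =ᶠ[𝓝 y] u b := by
    filter_upwards [hW.mem_nhds hz] with v hv
    rw [e.left_inv hv, hU]
  rw [hess_congr e1] at t2
  rw [t2]
  ext j k
  rw [Matrix.add_apply, pbF_apply, pull_apply, pull_apply]
  simp only [JJ, Matrix.of_apply, ← DD_eq,
    DD_comp (F := e) (G := C.Φ b) (mdifferentiableAt_atlas he hz) (md C b y)]
  rfl

theorem hess_zero (z : C2) : hess (0 : C2 → ℝ) z = 0 := by
  ext j k
  have : dzb k (fun _ : C2 => (0 : ℂ)) = fun _ => 0 := by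
    funext w
    simp [dzb]
  simp [hess, this, dz]

end T2P

open T2P

variable {M : Type} [TopologicalSpace M] [T2Space M] [CompactSpace M] [ChartedSpace C2 M]
  [IsManifold IC 1 M] [MulAction C2ˣ M] [ContMDiffSMul IC IC 1 C2ˣ M] [FaithfulSMul C2ˣ M]

theorem t2_ok (h0 : StC0 M) (hG : StGa) (h1 : StT1 M) (hF : StFinS) : StT2 M := by
  intro h₀ κ C hK hκ
  obtain ⟨a1, a2, a3⟩ := h1 C
  have hg₀ := a1 h₀ hK
  obtain ⟨φ, p0, p1, p2, p3⟩ := hF _ κ hg₀ hκ
  have hU : ∀ t : ℝ, ∃ U : M → ℝ, 0 ≤ t → ∀ b w, U (C.Φ b w) = φ t b w := fun t => by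
    by_cases ht : 0 ≤ t
    · obtain ⟨U, hU⟩ := a2 _ (p1 t ht).1
      exact ⟨U, fun _ => hU⟩
    · exact ⟨0, fun h => absurd h ht⟩
  choose U hU using hU
  obtain ⟨g, hg⟩ : ∃ g : ℝ → Bool → Fld,
      g = fun t b w => pull h₀ (C.Φ b) w + hess (φ t b) w := ⟨_, rfl⟩
  have g1 : ∀ t, 0 ≤ t → SM (g t) := fun t ht => by rw [hg]; exact (p1 t ht).2
  have g2 : ∀ b j k, ContDiffOn ℝ ∞ (fun q : ℝ × C2 => g q.1 b q.2 j k) (Ici 0 ×ˢ univ) :=
    fun b j k => by
      rw [hg]
      exact ((hg₀.smooth b j k).comp contDiff_snd).contDiffOn.add (p2 b j k)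
  have g3 : ∀ t, 0 ≤ t → ∀ b z j k, HasDerivWithinAt (fun s => g s b z j k)
      (κ * hess (scalG (g t b)) z j k) (Ici 0) t := fun t ht b z j k => by
    rw [hg]
    exact (p3 t ht b z j k).const_add (pull h₀ (C.Φ b) z j k)
  obtain ⟨h, hh'⟩ : ∃ h : ℝ → Met M, h = fun t => addP h₀ (U t) := ⟨_, rfl⟩
  have key : ∀ t, 0 ≤ t → ∀ b, pull (h t) (C.Φ b) = g t b := fun t ht b => by
    rw [hh', hg]
    exact pull_addP C h₀ (p1 t ht).1.sm (hU t ht) b
  have hT := tens_ok
  have loc' : ∀ e ∈ atlas C2 M, ∀ y ∈ e.target, ∃ (σ : Bool) (F : C2 → C2) (W : Set C2),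
      IsOpen W ∧ y ∈ W ∧ DifferentiableOn ℂ F W ∧ (∀ u ∈ W, (JJ F u).det ≠ 0) ∧
      ∀ t, 0 ≤ t → ∀ u ∈ W, pull (h t) e.symm u = pbF F (g t σ) u := fun e he y hy => by
    obtain ⟨b, F, W, oW, mW, dF, hd, hp⟩ := loc C he hy
    refine ⟨b, F, W, oW, mW, dF, hd, fun t ht u hu => ?_⟩
    rw [← key t ht]
    exact chg _ oW hp dF (fun v _ => md C b _) hu
  have surj : ∀ b w, Function.Surjective (Abs.DD (C.Φ b) w) := fun b w =>
    (h0.li _ _ (C.loc b w)).2.1.2
  refine ⟨h, ?_, fun t ht => ?_, fun e he => ⟨fun j k p hp => ?_, fun t ht y hy j k => ?_⟩⟩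
  · funext x
    refine LinearMap.ext fun v => LinearMap.ext fun w => ?_
    obtain ⟨b, z, hs⟩ := C.cov x
    obtain ⟨v', hv⟩ := surj b z v
    obtain ⟨w', hw⟩ := surj b z w
    have g0 : g 0 b = pull h₀ (C.Φ b) := by
      funext y
      simp only [hg, p0, Pi.zero_apply, hess_zero, add_zero]
    have h1 := hh_exp (h 0) (C.Φ b) z v' w'
    rw [key 0 le_rfl, g0, ← hh_exp, hv, hw, hs] at h1
    exact h1
  · have tr : ∀ e ∈ atlas C2 M, ∀ y ∈ e.target,
        (∀ j k, ContDiffAt ℝ ∞ (fun w => pull (h t) e.symm w j k) y) ∧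
        (pull (h t) e.symm y).PosDef ∧ ∀ j k l, dz l (fun w => pull (h t) e.symm w j k) y =
          dz j (fun w => pull (h t) e.symm w l k) y := fun e he y hy => by
      obtain ⟨σ, F, W, hW, hy, hF, hd, hp⟩ := loc' e he y hy
      exact transfer hT hW hF (hp t ht) hy (hd y hy)
        (fun j k => ((g1 t ht).smooth σ j k).contDiffAt) ((g1 t ht).pos σ _)
        ((g1 t ht).closed σ _)
    refine ⟨fun e he j k y hy => ((tr e he y hy).1 j k).contDiffWithinAt,
      fun e he y hy => (tr e he y hy).2.1, fun e he y hy => (tr e he y hy).2.2,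
      fun θ hθ x v w => ?_⟩
    obtain ⟨s, rfl⟩ := C.Tel θ hθ
    obtain ⟨b, z, hs, hde⟩ := cov' C x s
    obtain ⟨v', hv⟩ := surj b z v
    obtain ⟨w', hw⟩ := surj b z w
    have e1 : pull (h t) (fun y => C.el s • C.Φ b y) z = pull (h t) (C.Φ b) z := by
      rw [pull_congr (h t) (G := fun y => C.Φ b (Ga b b s y))
        (hde.mono fun y hy => (a3 s b b y hy).symm),
        pull_comp (h t) (md C b _) (hG.an b b s z hde.self_of_nhds).differentiableAt, key t ht]
      exact (hG.met _ (g1 t ht) b b s z hde.self_of_nhds).symm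
    have h1 := hh_exp (h t) (C.Φ b) z v' w'
    have h2 := hh_exp (h t) (fun y => C.el s • C.Φ b y) z v' w'
    rw [e1, ← h1, DD_comp (md_act (C.el s) _) (md C b z), DD_comp (md_act (C.el s) _) (md C b z),
      hv, hw, hs] at h2
    exact h2
  · obtain ⟨σ, F, W, hW, hy, hF, -, hp'⟩ := loc' e he p.2 hp.2
    have t1 := (hT F W hW hF).1
    have c : ContDiffWithinAt ℝ ∞ (fun r : ℝ × C2 => (r.1, F r.2)) (Ici 0 ×ˢ e.target) p :=
      (contDiffAt_fst.prodMk ((sm_F hW hF hy).comp p contDiffAt_snd)).contDiffWithinAt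
    refine (sm_sum (J := fun r : ℝ × C2 => JJ F r.2) (G := fun r => g r.1 σ (F r.2))
      (fun a j => (((t1 a j).contDiffAt (hW.mem_nhds hy)).comp p contDiffAt_snd).contDiffWithinAt)
      (fun a b => ContDiffWithinAt.comp (g := fun r : ℝ × C2 => g r.1 σ r.2 a b) p
        (g2 σ a b (p.1, F p.2) ⟨hp.1, mem_univ _⟩) c
        fun r hr => mk_mem_prod hr.1 (mem_univ _)) j k).congr_of_eventuallyEq_of_mem ?_ hp
    filter_upwards [self_mem_nhdsWithin, mem_nhdsWithin_of_mem_nhds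
      (continuous_snd.continuousAt.eventually_mem (hW.mem_nhds hy))] with r h1 h2
    rw [hp' r.1 h1.1 r.2 h2, pbF_apply]
  · obtain ⟨σ, F, W, hW, hy, hF, hd, hp⟩ := loc' e he y hy
    obtain ⟨-, t2, t3⟩ := hT F W hW hF
    have t4 := fun u hu => (t3 (g t σ) u hu fun j k => ((g1 t ht).smooth σ j k).contDiffAt).2
      (hd u hu) ((g1 t ht).pos σ _)
    have e1 : scalG (pull (h t) e.symm) =ᶠ[𝓝 y] fun u => scalG (g t σ) (F u) :=
      eventually_of_mem (hW.mem_nhds hy) fun u hu =>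
        (scalG_congr (eventually_of_mem (hW.mem_nhds hu) (hp t ht))).trans (t4 u hu).2.1
    rw [hess_congr e1, t2 _ y hy (t4 y hy).2.2, pbF_apply]
    have := HasDerivWithinAt.fun_sum (u := Finset.univ) fun a _ =>
      HasDerivWithinAt.fun_sum (u := Finset.univ) fun b _ =>
        ((g3 t ht σ (F y) a b).const_mul (JJ F y a j)).mul_const (star (JJ F y b k))
    refine (this.congr (fun r hr => ?_) ?_).congr_deriv ?_
    · rw [hp r hr y hy, pbF_apply]
    · rw [hp t ht y hy, pbF_apply]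
    · simp only [Fin.sum_univ_two]; ring

end Pool.Agent.P.MP_2cea5e_gt.Se
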