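import Pool.Agent.P.MP_2cea5e_gt.Se.Api

/-!
Package W1: the Wente type inequality from the cubic estimate for ball averages.
-/

open scoped ContDiff Topology ENNReal
open MeasureTheory Set Filter

noncomputable section

namespace Pool.Agent.P.MP_2cea5e_gt.Se

namespace W1P

/-- The ball average of the square root of `S`. -/
def Gs (S : Fx) (s : ℝ) (p : X) : ℝ :=
  ∫ y in Metric.ball (0 : ℝ × ℝ) 1, √(S (s, p.2 + p.1 • y))

theorem Gs_nonneg (S : Fx) (s : ℝ) (p : X) : 0 ≤ Gs S s p :=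
  integral_nonneg fun _ => Real.sqrt_nonneg _

theorem intOn {F : Fx} (hF : Continuous F) (s : ℝ) (p : X) :
    IntegrableOn (fun y : ℝ × ℝ => F (s, p.2 + p.1 • y)) (Metric.ball (0 : ℝ × ℝ) 1) := by
  have h : Continuous fun y : ℝ × ℝ => F (s, p.2 + p.1 • y) := hF.comp (by fun_prop)
  exact (h.continuousOn.integrableOn_compact (isCompact_closedBall (0 : ℝ × ℝ) 1)).mono_set
    Metric.ball_subset_closedBall

theorem mo_le {k : Fx} (h : Ker 1 k) : ∃ C : ℝ, 0 ≤ C ∧ ∀ (F S : Fx) (s : ℝ) (p : X),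
    Continuous F → Continuous S → (∀ q, F q ^ 2 ≤ S q) → |mo k F s p| ≤ C * Gs S s p := by
  obtain ⟨C, hC, H⟩ := mo_ball h
  refine ⟨C, hC, fun F S s p hF hS e => (H F s p hF).trans ?_⟩
  refine mul_le_mul_of_nonneg_left ?_ hC
  refine setIntegral_mono (intOn (F := fun q => |F q|) hF.abs s p)
    (intOn (F := fun q => √(S q)) hS.sqrt s p) fun y => ?_
  exact Real.abs_le_sqrt (e _)

theorem tri {u v1 v2 w1 w2 B : ℝ} (hu : |u| ≤ 2 * B) (h1 : |v1| ≤ B) (h2 : |v2| ≤ B)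
    (h3 : |w1| ≤ B) (h4 : |w2| ≤ B) : |u * (v1 * w2 - v2 * w1)| ≤ 4 * B ^ 3 := by
  have hB : 0 ≤ B := (abs_nonneg _).trans h1
  have a1 : |v1 * w2| ≤ B * B := by
    rw [abs_mul]; exact mul_le_mul h1 h4 (abs_nonneg _) hB
  have a2 : |v2 * w1| ≤ B * B := by
    rw [abs_mul]; exact mul_le_mul h2 h3 (abs_nonneg _) hB
  have a3 : |v1 * w2 - v2 * w1| ≤ 2 * (B * B) := by
    have := abs_sub (v1 * w2) (v2 * w1)
    linarith
  rw [abs_mul]
  calc |u| * |v1 * w2 - v2 * w1| ≤ 2 * B * (2 * (B * B)) :=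
        mul_le_mul hu a3 (abs_nonneg _) (by positivity)
    _ = 4 * B ^ 3 := by ring

/-- The integrand of the cubic estimate. -/
def Gl3 (S : Fx) (s r : ℝ) : ℝ≥0∞ :=
  ∫⁻ x : ℝ × ℝ, (∫⁻ y in Metric.ball (0 : ℝ × ℝ) 1, ENNReal.ofReal √(S (s, x + r • y))) ^ 3

theorem In_le {H S : Fx} (hS : Continuous S) {s r c : ℝ} (hc : 0 ≤ c)
    (h : ∀ x, |H (r, x)| ≤ c * Gs S s (r, x) ^ 3) :
    ‖In H r‖ₑ ≤ ENNReal.ofReal c * Gl3 S s r := by
  unfold In Gl3
  refine (enorm_integral_le_lintegral_enorm _).trans ?_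
  rw [← lintegral_const_mul' _ _ ENNReal.ofReal_ne_top]
  refine lintegral_mono fun x => ?_
  have e : ENNReal.ofReal (Gs S s (r, x)) =
      ∫⁻ y in Metric.ball (0 : ℝ × ℝ) 1, ENNReal.ofReal √(S (s, x + r • y)) :=
    ofReal_integral_eq_lintegral_ofReal (intOn (F := fun q => √(S q)) hS.sqrt s (r, x))
      (Eventually.of_forall fun _ => Real.sqrt_nonneg _)
  show ‖H (r, x)‖ₑ ≤ _
  rw [← e, ← ENNReal.ofReal_pow (Gs_nonneg _ _ _), ← ENNReal.ofReal_mul hc, Real.enorm_eq_ofReal_abs]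
  exact ENNReal.ofReal_le_ofReal (h x)

theorem D0_Jc {A B : Fx} (hA : Sm A) (hB : Sm B) :
    D e0 (Jc A B) = Jc (D e0 A) B - Jc (D e0 B) A := by
  unfold Jc
  rw [D_sub _ (sm_mul (sm_D _ hA) (sm_D _ hB)) (sm_mul (sm_D _ hA) (sm_D _ hB)),
    D_mul _ (sm_D _ hA) (sm_D _ hB), D_mul _ (sm_D _ hA) (sm_D _ hB), D_comm e0 e1 hA,
    D_comm e0 e2 hA, D_comm e0 e1 hB, D_comm e0 e2 hB]
  ring

theorem Jc_swap (A B : Fx) : Jc A B = -Jc B A := by
  unfold Jc; ring

theorem deriv_eq {F A B : Fx} (hF : Sy 0 F) (hA : Sy (-2) A) (hB : Sy (-2) B)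
    (r : ℝ) : In (D e0 (F * Jc A B)) r =
      In (D e0 F * Jc A B) r + In (D e0 A * Jc B F) r + In (D e0 B * Jc F A) r := by
  have i1 : Ig (D e0 F * Jc A B) := (hF.D0.mul (hA.h1.Jc hB.h1)).ig (by norm_num)
  have i2 : Ig (F * Jc (D e0 A) B) := (hF.mul (hA.D0.h1.Jc hB.h1)).ig (by norm_num)
  have i3 : Ig (F * Jc (D e0 B) A) := (hF.mul (hB.D0.h1.Jc hA.h1)).ig (by norm_num)
  have e : D e0 (F * Jc A B) = D e0 F * Jc A B + F * Jc (D e0 A) B - F * Jc (D e0 B) A := by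
    rw [D_mul _ hF.sm (sm_Jc hA.sm hB.sm), D0_Jc hA.sm hB.sm]; ring
  have e3 : D e0 B * Jc F A = -(D e0 B * Jc A F) := by rw [Jc_swap F A]; ring
  rw [e, In_sub (i1.add i2) i3, In_add i1 i2, ibp_Jc hF hA.D0 hB.h1 (by norm_num),
    ibp_Jc hF hB.D0 hA.h1 (by norm_num), e3, In_neg]
  ring

theorem bounds {k : Fx} (hk : Ker 1 k) : ∃ C : ℝ, 0 ≤ C ∧ ∀ (f S : Fx) (s : ℝ) (p : X), Sm f →
    Continuous S → (∀ q, gr f q ≤ S q) → |D e0 (mo k f s) p| ≤ 2 * (C * Gs S s p) ∧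
      |D e1 (mo k f s) p| ≤ C * Gs S s p ∧ |D e2 (mo k f s) p| ≤ C * Gs S s p := by
  obtain ⟨C0, h0, H0⟩ := mo_le hk
  obtain ⟨C1, h1, H1⟩ := mo_le (hk.mul sm_x1)
  obtain ⟨C2, h2, H2⟩ := mo_le (hk.mul sm_x2)
  refine ⟨C0 + C1 + C2, by positivity, fun f S s p hf hS e => ?_⟩
  have q1 : ∀ q, D e1 f q ^ 2 ≤ S q := fun q => by
    have := e q; rw [gr_apply] at this; nlinarith [sq_nonneg (D e2 f q)]
  have q2 : ∀ q, D e2 f q ^ 2 ≤ S q := fun q => by
    have := e q; rw [gr_apply] at this; nlinarith [sq_nonneg (D e1 f q)]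
  have c1 := (sm_D e1 hf).cont
  have c2 := (sm_D e2 hf).cont
  have g := Gs_nonneg S s p
  have m0 := mul_nonneg h0 g
  have m1 := mul_nonneg h1 g
  have m2 := mul_nonneg h2 g
  refine ⟨?_, ?_, ?_⟩
  · rw [D0_mo hk hf, Pi.add_apply]
    have a := H1 _ S s p c1 hS q1
    have b := H2 _ S s p c2 hS q2
    have := abs_add_le (mo (x1 * k) (D e1 f) s p) (mo (x2 * k) (D e2 f) s p)
    nlinarith
  · rw [D1_mo hk hf]
    have a := H0 _ S s p c1 hS q1
    nlinarith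
  · rw [D2_mo hk hf]
    have a := H0 _ S s p c2 hS q2
    nlinarith

theorem decay {k f a b : Fx} (hk : Ker 1 k) (hf : Sy 0 f) (ha : Sy (-2) a) (hb : Sy (-2) b)
    (s : ℝ) : ∃ c : ℝ, ∀ r, 0 < r →
      r ^ 2 * |In (mo k f s * Jc (mo k a s) (mo k b s)) r| ≤ c := by
  obtain ⟨C0, h0, H0⟩ := mo_sup hk
  have k1 : Ker 1 (D e1 k) := hk.D e1 rfl
  have k2 : Ker 1 (D e2 k) := hk.D e2 rfl
  obtain ⟨C1, h1, H1⟩ := mo_In k1
  obtain ⟨C2, h2, H2⟩ := mo_In k2
  obtain ⟨M, hM⟩ := hf.oo |s|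
  have hM' : ∀ y, |f (s, y)| ≤ M := fun y => by simpa using hM (s, y) le_rfl
  have M0 : 0 ≤ M := (abs_nonneg _).trans (hM' 0)
  refine ⟨C0 * M * (C1 * In (a * a) s + C2 * In (a * a) s + C1 * In (b * b) s +
    C2 * In (b * b) s), fun r hr => ?_⟩
  have i : ∀ {k' g : Fx}, Ker 1 k' → Sy (-2) g → Ig (mo k' g s * mo k' g s) := fun h g =>
    ((g.mo h s).mul (g.mo h s)).ig (by norm_num)
  have e : r ^ 2 * |In (mo k f s * Jc (mo k a s) (mo k b s)) r| =
      |In (K (r ^ 2) * (mo k f s * Jc (mo k a s) (mo k b s))) r| := by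
    rw [In_Kmul, abs_mul, abs_of_nonneg (sq_nonneg r)]
  have I := (((i k1 ha).add (i k2 ha)).add (i k1 hb)).add (i k2 hb)
  rw [e]
  refine (In_abs (I.Kmul (C0 * M)) fun x => ?_).trans ?_
  · have a1 := mo_ibp1 hk ha.sm s (r, x)
    have a2 := mo_ibp2 hk ha.sm s (r, x)
    have b1 := mo_ibp1 hk hb.sm s (r, x)
    have b2 := mo_ibp2 hk hb.sm s (r, x)
    have f0 := H0 f s r x M hr.le fun y _ => hM' y
    simp only [Jc, D1_mo hk ha.sm, D2_mo hk ha.sm, D1_mo hk hb.sm, D2_mo hk hb.sm, Pi.mul_apply,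
      Pi.add_apply, Pi.sub_apply, K_apply] at a1 a2 b1 b2 ⊢
    have e2' : r ^ 2 * (mo k f s (r, x) * (mo k (D e1 a) s (r, x) * mo k (D e2 b) s (r, x) -
        mo k (D e2 a) s (r, x) * mo k (D e1 b) s (r, x))) = mo k f s (r, x) *
        ((r * mo k (D e1 a) s (r, x)) * (r * mo k (D e2 b) s (r, x)) -
          (r * mo k (D e2 a) s (r, x)) * (r * mo k (D e1 b) s (r, x))) := by ring
    rw [e2', a1, a2, b1, b2, abs_mul]
    refine mul_le_mul f0 ?_ (abs_nonneg _) (mul_nonneg h0 M0)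
    generalize mo (D e1 k) a s (r, x) = u1
    generalize mo (D e2 k) a s (r, x) = u2
    generalize mo (D e1 k) b s (r, x) = v1
    generalize mo (D e2 k) b s (r, x) = v2
    rw [abs_le]
    constructor <;> nlinarith [sq_nonneg (u1 + v2), sq_nonneg (u1 - v2), sq_nonneg (u2 + v1),
      sq_nonneg (u2 - v1)]
  · rw [In_Kmul, In_add (((i k1 ha).add (i k2 ha)).add (i k1 hb)) (i k2 hb),
      In_add ((i k1 ha).add (i k2 ha)) (i k1 hb), In_add (i k1 ha) (i k2 ha)]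
    refine mul_le_mul_of_nonneg_left ?_ (mul_nonneg h0 M0)
    have := H1 a s r ha
    have := H2 a s r ha
    have := H1 b s r hb
    have := H2 b s r hb
    linarith

theorem core (h : StW2) : ∃ C : ℝ, ∀ f a b s, Sy 0 f → H1 (-2) f → Sy (-2) a → Sy (-2) b →
    In (gr f + gr a + gr b) s ≤ 1 → |In (f * Jc a b) s| ≤ C := by
  obtain ⟨C2, hC2, H2⟩ := h
  obtain ⟨k, κ, hk, -, -, hk1, -, -⟩ := exists_rad
  obtain ⟨C, hC, HB⟩ := bounds hk
  refine ⟨(ENNReal.ofReal (4 * C ^ 3) * 3 * C2).toReal, fun f a b s hf hf' ha hb hS => ?_⟩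
  set S : Fx := gr f + gr a + gr b with hSd
  have S0 : ∀ q, 0 ≤ S q := fun q =>
    add_nonneg (add_nonneg (gr_nonneg f q) (gr_nonneg a q)) (gr_nonneg b q)
  have sS : Sm S := sm_add (sm_add (sm_gr hf.sm) (sm_gr ha.sm)) (sm_gr hb.sm)
  have cS := sS.cont
  have iS : Ig S := ((hf'.gr.ig (by norm_num)).add (ha.h1.gr.ig (by norm_num))).add
    (hb.h1.gr.ig (by norm_num))
  have gf : ∀ q, gr f q ≤ S q := fun q => by
    have := gr_nonneg a q; have := gr_nonneg b q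
    simp only [hSd, Pi.add_apply]; linarith
  have ga : ∀ q, gr a q ≤ S q := fun q => by
    have := gr_nonneg f q; have := gr_nonneg b q
    simp only [hSd, Pi.add_apply]; linarith
  have gb : ∀ q, gr b q ≤ S q := fun q => by
    have := gr_nonneg f q; have := gr_nonneg a q
    simp only [hSd, Pi.add_apply]; linarith
  have hW : ∫⁻ r in Ioi (0 : ℝ), Gl3 S s r ≤ C2 := by
    refine H2 (fun x => ENNReal.ofReal √(S (s, x))) ?_ ?_
    · have : Continuous fun x : ℝ × ℝ => √(S (s, x)) := (cS.comp (by fun_prop)).sqrt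
      exact this.measurable.ennreal_ofReal
    · have e : ∀ x : ℝ × ℝ, ENNReal.ofReal √(S (s, x)) ^ 2 = ENNReal.ofReal (S (s, x)) := fun x => by
        rw [← ENNReal.ofReal_pow (Real.sqrt_nonneg _), Real.sq_sqrt (S0 _)]
      simp only [e]
      rw [← ofReal_integral_eq_lintegral_ofReal (iS s) (Eventually.of_forall fun x => S0 _)]
      exact ENNReal.ofReal_le_one.2 hS
  set F := mo k f s with hF
  set A := mo k a s with hA
  set B := mo k b s with hB
  have sF : Sy 0 F := hf.mo hk s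
  have sA : Sy (-2) A := ha.mo hk s
  have sB : Sy (-2) B := hb.mo hk s
  have sH := sF.mul (sA.h1.Jc sB.h1)
  have hd : ∀ r, HasDerivAt (In (F * Jc A B)) (In (D e0 (F * Jc A B)) r) r := fun r =>
    sH.hasDerivAt (by norm_num) r
  have hc : Continuous (In (D e0 (F * Jc A B))) :=
    continuous_iff_continuousAt.2 fun r => (sH.D0.hasDerivAt (by norm_num) r).continuousAt
  have c4 : 0 ≤ 4 * C ^ 3 := by positivity
  have key : ∀ {u v w : Fx}, Sm u → Sm v → Sm w → (∀ q, gr u q ≤ S q) → (∀ q, gr v q ≤ S q) →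
      (∀ q, gr w q ≤ S q) → ∀ r, ‖In (D e0 (mo k u s) * Jc (mo k v s) (mo k w s)) r‖ₑ ≤
        ENNReal.ofReal (4 * C ^ 3) * Gl3 S s r := by
    intro u v w su sv sw gu gv gw r
    refine In_le cS c4 fun x => ?_
    have b1 := HB u S s (r, x) su cS gu
    have b2 := HB v S s (r, x) sv cS gv
    have b3 := HB w S s (r, x) sw cS gw
    have := tri b1.1 b2.2.1 b2.2.2 b3.2.1 b3.2.2
    rw [mul_assoc, ← mul_pow]
    exact this
  have hT : ∀ r, ‖In (D e0 (F * Jc A B)) r‖ₑ ≤ ENNReal.ofReal (4 * C ^ 3) * 3 * Gl3 S s r := by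
    intro r
    rw [deriv_eq sF sA sB]
    have k1 := key hf.sm ha.sm hb.sm gf ga gb r
    have k2 := key ha.sm hb.sm hf.sm ga gb gf r
    have k3 := key hb.sm hf.sm ha.sm gb gf ga r
    refine (enorm_add_le _ _).trans ((add_le_add ((enorm_add_le _ _).trans (add_le_add k1 k2))
      k3).trans (le_of_eq ?_))
    ring
  have fin : ENNReal.ofReal (4 * C ^ 3) * 3 ≠ ⊤ :=
    ENNReal.mul_ne_top ENNReal.ofReal_ne_top (by norm_num)
  have hR : ∀ R, 0 < R → |In (F * Jc A B) R - In (F * Jc A B) 0| ≤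
      (ENNReal.ofReal (4 * C ^ 3) * 3 * C2).toReal := by
    intro R hR
    rw [← intervalIntegral.integral_eq_sub_of_hasDerivAt (fun r _ => hd r)
      (hc.intervalIntegrable 0 R), intervalIntegral.integral_of_le hR.le]
    refine (ENNReal.ofReal_le_iff_le_toReal (ENNReal.mul_ne_top fin hC2)).1 ?_
    rw [← Real.enorm_eq_ofReal_abs]
    refine (enorm_integral_le_lintegral_enorm _).trans ?_
    refine (lintegral_mono_set Ioc_subset_Ioi_self).trans ?_
    refine (lintegral_mono hT).trans ?_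
    rw [lintegral_const_mul' _ _ fin]
    exact mul_le_mul_right hW _
  have T0 : In (F * Jc A B) 0 = In (f * Jc a b) s := by
    unfold In
    refine integral_congr_ae (Eventually.of_forall fun x => ?_)
    simp only [hF, hA, hB, Jc, D1_mo hk ha.sm, D2_mo hk ha.sm, D1_mo hk hb.sm, D2_mo hk hb.sm,
      Pi.mul_apply, Pi.sub_apply, mo_zero, hk1, mul_one]
  obtain ⟨c, hc'⟩ := decay hk hf ha hb s
  rw [← T0]
  refine le_of_forall_pos_le_add fun ε hε => ?_
  have hpos : 0 < |c| / ε + 1 := by positivity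
  have d1 := hc' _ hpos
  have d2 := hR _ hpos
  have d3 : |In (F * Jc A B) (|c| / ε + 1)| ≤ ε := by
    by_contra hn
    push Not at hn
    have q : 0 ≤ |c| / ε := by positivity
    have q2 : |c| / ε * ε = |c| := div_mul_cancel₀ _ hε.ne'
    have q3 : |c| / ε + 1 ≤ (|c| / ε + 1) ^ 2 := by nlinarith
    have q4 : (|c| / ε + 1) * ε ≤ (|c| / ε + 1) ^ 2 * |In (F * Jc A B) (|c| / ε + 1)| :=
      mul_le_mul q3 hn.le hε.le (sq_nonneg _)
    have := le_abs_self c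
    nlinarith
  have := abs_sub_abs_le_abs_sub (In (F * Jc A B) 0) (In (F * Jc A B) (|c| / ε + 1))
  rw [abs_sub_comm] at this
  linarith

theorem In_gr_Kmul (c : ℝ) {f : Fx} (hf : Sm f) (s : ℝ) :
    In (gr (K c * f)) s = c ^ 2 * In (gr f) s := by
  have : gr (K c * f) = K (c ^ 2) * gr f := funext fun p => gr_Kmul c hf p
  rw [this, In_Kmul]

end W1P

open W1P in
theorem w_ok (h : StW2) : StW := by
  obtain ⟨C, H⟩ := core h
  intro A
  have hA : 0 < 3 * max A 1 := by positivity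
  refine ⟨C * √3 * (3 * max A 1), fun f a b s hf hf' ha hb gA gB => ?_⟩
  set μ : ℝ := (√(3 * max A 1))⁻¹ with hμ
  have μ2 : μ ^ 2 * (3 * max A 1) = 1 := by
    rw [hμ, inv_pow, Real.sq_sqrt hA.le]; exact inv_mul_cancel₀ hA.ne'
  have mA : A ≤ max A 1 := le_max_left _ _
  have key : ∀ l : ℝ, 0 ≤ l → l ^ 2 * In (gr f) s ≤ 1 / 3 →
      l * |In (f * Jc a b) s| ≤ C * (3 * max A 1) := by
    intro l hl e
    have s1 := hf'.Kmul l
    have s2 := ha.Kmul μ
    have s3 := hb.Kmul μ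
    have i1 := s1.gr.ig (by norm_num)
    have i2 := s2.h1.gr.ig (by norm_num)
    have i3 := s3.h1.gr.ig (by norm_num)
    have := H _ _ _ s (hf.Kmul l) s1 s2 s3 (by
      rw [In_add (i1.add i2) i3, In_add i1 i2, In_gr_Kmul l hf.sm, In_gr_Kmul μ ha.sm,
        In_gr_Kmul μ hb.sm]
      have := mul_le_mul_of_nonneg_left (gA.trans mA) (sq_nonneg μ)
      have := mul_le_mul_of_nonneg_left (gB.trans mA) (sq_nonneg μ)
      nlinarith)
    have e2' : K l * f * Jc (K μ * a) (K μ * b) = K (l * μ ^ 2) * (f * Jc a b) := by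
      unfold Jc
      rw [D_Kmul _ _ ha.sm, D_Kmul _ _ ha.sm, D_Kmul _ _ hb.sm, D_Kmul _ _ hb.sm]
      funext p
      simp only [Pi.mul_apply, Pi.sub_apply, K_apply]; ring
    rw [e2', In_Kmul, abs_mul, abs_of_nonneg (mul_nonneg hl (sq_nonneg μ))] at this
    calc l * |In (f * Jc a b) s|
        = l * μ ^ 2 * |In (f * Jc a b) s| * (3 * max A 1) := by
          rw [mul_right_comm, mul_assoc l, μ2, mul_one]
      _ ≤ C * (3 * max A 1) := mul_le_mul_of_nonneg_right this hA.le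
  have g0 : 0 ≤ In (gr f) s := In_nonneg fun x => gr_nonneg f _
  rcases g0.eq_or_lt with g | g
  · rw [← g, Real.sqrt_zero, mul_zero]
    by_contra hn
    push Not at hn
    have := key ((|C * (3 * max A 1)| + 1) / |In (f * Jc a b) s|) (by positivity)
      (by rw [← g]; norm_num)
    rw [div_mul_cancel₀ _ hn.ne'] at this
    have := le_abs_self (C * (3 * max A 1))
    linarith
  · have q : 0 < √3 * √(In (gr f) s) := by positivity
    have := key (√3 * √(In (gr f) s))⁻¹ (by positivity) (by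
      rw [inv_pow, mul_pow, Real.sq_sqrt (by norm_num), Real.sq_sqrt g.le]
      field_simp
      exact le_rfl)
    rw [inv_mul_le_iff₀ q] at this
    calc _ ≤ _ := this
      _ = _ := by ring

end Pool.Agent.P.MP_2cea5e_gt.Se
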