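import Pool.Agent.P.MP_2cea5e_gt.Se.RedSt

/-!
Package W2.
-/

open scoped ContDiff Topology ENNReal
open MeasureTheory Set Filter

noncomputable section

namespace Pool.Agent.P.MP_2cea5e_gt.Se

namespace W2P

theorem vol_ball : volume (Metric.ball (0 : ℝ × ℝ) 1) = 4 := by
  have h : Metric.ball (0 : ℝ × ℝ) 1 = Metric.ball (0 : ℝ) 1 ×ˢ Metric.ball (0 : ℝ) 1 :=
    (ball_prod_same (0 : ℝ) (0 : ℝ) 1).symm
  rw [h, Measure.volume_eq_prod, Measure.prod_prod, Real.volume_ball, ← ENNReal.ofReal_mul (by norm_num)]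
  norm_num

theorem scale (F : ℝ × ℝ → ℝ≥0∞) (hF : Measurable F) (x : ℝ × ℝ) {r : ℝ} (hr : 0 < r) :
    ∫⁻ y, F (x + r • y) = ENNReal.ofReal ((r ^ 2)⁻¹) * ∫⁻ y, F y := by
  have h1 : Measurable fun z : ℝ × ℝ => F (x + z) := hF.comp (measurable_const_add x)
  have h2 := lintegral_map (μ := (volume : Measure (ℝ × ℝ))) h1 (measurable_const_smul r)
  rw [Measure.map_addHaar_smul _ hr.ne', lintegral_smul_measure, lintegral_add_left_eq_self] at h2
  rw [← h2, abs_of_pos (by positivity)]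
  simp

theorem amgm (h : ℝ≥0∞) {r : ℝ} (hr : 0 < r) :
    h ≤ ENNReal.ofReal r * h ^ 2 + ENNReal.ofReal r⁻¹ := by
  rcases le_total h (ENNReal.ofReal r⁻¹) with a | a
  · exact a.trans le_add_self
  · refine le_trans ?_ le_self_add
    have e : ENNReal.ofReal r * ENNReal.ofReal r⁻¹ = 1 := by
      rw [← ENNReal.ofReal_mul hr.le, mul_inv_cancel₀ hr.ne', ENNReal.ofReal_one]
    calc h = ENNReal.ofReal r * ENNReal.ofReal r⁻¹ * h := by rw [e, one_mul]
      _ ≤ ENNReal.ofReal r * h * h := by gcongr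
      _ = _ := by ring

/-- The uniform bound for the averages. -/
theorem sup_le {g : ℝ × ℝ → ℝ≥0∞} (hg : Measurable g) (h1 : ∫⁻ x, g x ^ 2 ≤ 1) (x : ℝ × ℝ)
    {r : ℝ} (hr : 0 < r) :
    ∫⁻ y in Metric.ball (0 : ℝ × ℝ) 1, g (x + r • y) ≤ ENNReal.ofReal (5 / r) := by
  have hm : Measurable fun y : ℝ × ℝ => g (x + r • y) ^ 2 := by fun_prop
  calc ∫⁻ y in Metric.ball (0 : ℝ × ℝ) 1, g (x + r • y)
      ≤ ∫⁻ y in Metric.ball (0 : ℝ × ℝ) 1,
          (ENNReal.ofReal r * g (x + r • y) ^ 2 + ENNReal.ofReal r⁻¹) :=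
        lintegral_mono fun y => amgm _ hr
    _ = ENNReal.ofReal r * (∫⁻ y in Metric.ball (0 : ℝ × ℝ) 1, g (x + r • y) ^ 2) +
          ENNReal.ofReal r⁻¹ * 4 := by
        rw [lintegral_add_right _ measurable_const, lintegral_const_mul _ hm, setLIntegral_const,
          vol_ball]
    _ ≤ ENNReal.ofReal r * (ENNReal.ofReal ((r ^ 2)⁻¹) * 1) + ENNReal.ofReal r⁻¹ * 4 := by
        gcongr
        refine (setLIntegral_le_lintegral _ _).trans ?_
        rw [scale (fun z => g z ^ 2) (hg.pow_const 2) x hr]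
        gcongr
    _ = _ := by
        rw [mul_one, ← ENNReal.ofReal_mul hr.le, ← ENNReal.ofReal_ofNat 4,
          ← ENNReal.ofReal_mul (by positivity), ← ENNReal.ofReal_add (by positivity) (by positivity)]
        congr 1
        field_simp
        norm_num

/-- The cube of an average is controlled by the large values. -/
theorem cube_le {h : ℝ × ℝ → ℝ≥0∞} (hh : Measurable h) {a : ℝ≥0∞} (ha : a ≠ ⊤)
    (hG : ∫⁻ y in Metric.ball (0 : ℝ × ℝ) 1, h y ≤ a) :
    (∫⁻ y in Metric.ball (0 : ℝ × ℝ) 1, h y) ^ 3 ≤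
      2 * ∫⁻ y in Metric.ball (0 : ℝ × ℝ) 1, h y * min a (8 * h y) ^ 2 := by
  set G := ∫⁻ y in Metric.ball (0 : ℝ × ℝ) 1, h y with hGd
  have hGt : G ≠ ⊤ := ne_top_of_le_ne_top ha hG
  set u := G / 8 with hu
  have e8 : 8 * u = G := ENNReal.mul_div_cancel (by norm_num) (by norm_num)
  have hut : u ≠ ⊤ := ENNReal.div_ne_top hGt (by norm_num)
  set Y := ∫⁻ y in Metric.ball (0 : ℝ × ℝ) 1, {y | u < h y}.indicator h y with hY
  have a1 : G ≤ Y + u * 4 := by
    rw [hGd, hY, ← vol_ball, ← setLIntegral_const, ← lintegral_add_right _ measurable_const]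
    refine lintegral_mono fun y => ?_
    by_cases c : u < h y
    · rw [indicator_of_mem (show y ∈ {y | u < h y} from c)]; exact le_self_add
    · exact (not_lt.1 c).trans le_add_self
  have a2 : u * 4 ≤ Y := by
    refine ENNReal.le_of_add_le_add_right (a := u * 4) (ENNReal.mul_ne_top hut (by norm_num)) ?_
    calc u * 4 + u * 4 = 8 * u := by ring
      _ ≤ _ := e8 ▸ a1
  have a3 : G ≤ 2 * Y := by
    calc G = 2 * (u * 4) := by rw [← e8]; ring
      _ ≤ _ := by gcongr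
  have hm : Measurable ({y | u < h y}.indicator h) :=
    hh.indicator (measurableSet_lt measurable_const hh)
  calc G ^ 3 = G ^ 2 * G := by ring
    _ ≤ G ^ 2 * (2 * Y) := by gcongr
    _ = 2 * (G ^ 2 * Y) := by ring
    _ ≤ _ := by
      gcongr
      rw [hY, ← lintegral_const_mul _ hm]
      refine lintegral_mono fun y => ?_
      by_cases c : u < h y
      · rw [indicator_of_mem (show y ∈ {y | u < h y} from c), mul_comm]
        have : G ≤ min a (8 * h y) := le_min hG (by rw [← e8]; gcongr)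
        gcongr
      · rw [indicator_of_notMem (show y ∉ {y | u < h y} from c), mul_zero]
        exact zero_le

/-- The integral over the scales. -/
theorem rad_le (t : ℝ≥0∞) :
    ∫⁻ r in Ioi (0 : ℝ), min (ENNReal.ofReal (5 / r)) (8 * t) ^ 2 ≤ 89 * t := by
  rcases eq_or_ne t ⊤ with rfl | ht
  · rw [ENNReal.mul_top (by norm_num : (89 : ℝ≥0∞) ≠ 0)]; exact le_top
  rcases eq_or_ne t 0 with rfl | h0
  · simp
  lift t to NNReal using ht
  have tp : (0 : ℝ) < t := by
    have : t ≠ 0 := fun h => h0 (by rw [h]; rfl)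
    positivity
  have cp : (0 : ℝ) < (t : ℝ)⁻¹ := inv_pos.2 tp
  have et : (t : ℝ≥0∞) = ENNReal.ofReal t := ENNReal.ofReal_coe_nnreal.symm
  have b1 : ∫⁻ r in Ioc (0 : ℝ) (t : ℝ)⁻¹, min (ENNReal.ofReal (5 / r)) (8 * (t : ℝ≥0∞)) ^ 2 ≤
      64 * t := by
    calc _ ≤ ∫⁻ _ in Ioc (0 : ℝ) (t : ℝ)⁻¹, (8 * (t : ℝ≥0∞)) ^ 2 :=
          lintegral_mono fun r => by gcongr; exact min_le_right _ _
      _ = 64 * t * (ENNReal.ofReal t * ENNReal.ofReal (t : ℝ)⁻¹) := by
          rw [setLIntegral_const, Real.volume_Ioc, sub_zero, ← et]; ring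
      _ = _ := by
          rw [← ENNReal.ofReal_mul tp.le, mul_inv_cancel₀ tp.ne', ENNReal.ofReal_one, mul_one]
  have b2 : ∫⁻ r in Ioi (t : ℝ)⁻¹, min (ENNReal.ofReal (5 / r)) (8 * (t : ℝ≥0∞)) ^ 2 ≤
      25 * t := by
    have i1 := integrableOn_Ioi_rpow_of_lt (by norm_num : (-2 : ℝ) < -1) cp
    have i2 := integral_Ioi_rpow_of_lt (by norm_num : (-2 : ℝ) < -1) cp
    calc _ ≤ ∫⁻ r in Ioi (t : ℝ)⁻¹, 25 * ENNReal.ofReal (r ^ (-2 : ℝ)) := by
          refine setLIntegral_mono' measurableSet_Ioi fun r hr => ?_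
          have rp : 0 < r := cp.trans hr
          calc _ ≤ ENNReal.ofReal (5 / r) ^ 2 := by gcongr; exact min_le_left _ _
            _ = _ := by
              rw [← ENNReal.ofReal_pow (by positivity), ← ENNReal.ofReal_ofNat 25,
                ← ENNReal.ofReal_mul (by norm_num), Real.rpow_neg rp.le, Real.rpow_two]
              congr 1
              field_simp
              norm_num
      _ = 25 * ENNReal.ofReal (∫ r in Ioi (t : ℝ)⁻¹, r ^ (-2 : ℝ)) := by
          rw [lintegral_const_mul' _ _ (by norm_num), ofReal_integral_eq_lintegral_ofReal i1]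
          filter_upwards [ae_restrict_mem measurableSet_Ioi] with r hr
          exact Real.rpow_nonneg (cp.trans hr).le _
      _ = _ := by
          rw [i2, et]
          congr 2
          rw [show (-2 : ℝ) + 1 = -1 by norm_num, Real.rpow_neg_one, inv_inv]
          ring
  calc _ ≤ ∫⁻ r in Ioc (0 : ℝ) (t : ℝ)⁻¹ ∪ Ioi (t : ℝ)⁻¹,
        min (ENNReal.ofReal (5 / r)) (8 * (t : ℝ≥0∞)) ^ 2 := by rw [Ioc_union_Ioi_eq_Ioi cp.le]
    _ ≤ _ := lintegral_union_le _ _ _
    _ ≤ 64 * t + 25 * t := add_le_add b1 b2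
    _ = _ := by ring

end W2P

open W2P in
theorem w2_ok : StW2 := by
  refine ⟨8 * 89, by norm_num, fun g hg h1 => ?_⟩
  have s1 : ∀ r ∈ Ioi (0 : ℝ),
      ∫⁻ x : ℝ × ℝ, (∫⁻ y in Metric.ball (0 : ℝ × ℝ) 1, g (x + r • y)) ^ 3 ≤
        8 * ∫⁻ x : ℝ × ℝ, g x * min (ENNReal.ofReal (5 / r)) (8 * g x) ^ 2 := by
    intro r hr
    have hm : Measurable fun p : (ℝ × ℝ) × (ℝ × ℝ) =>
        g (p.1 + r • p.2) * min (ENNReal.ofReal (5 / r)) (8 * g (p.1 + r • p.2)) ^ 2 := by
      fun_prop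
    calc _ ≤ ∫⁻ x : ℝ × ℝ, 2 * ∫⁻ y in Metric.ball (0 : ℝ × ℝ) 1,
            g (x + r • y) * min (ENNReal.ofReal (5 / r)) (8 * g (x + r • y)) ^ 2 :=
          lintegral_mono fun x =>
            cube_le (h := fun y => g (x + r • y)) (by fun_prop) ENNReal.ofReal_ne_top
              (sup_le hg h1 x hr)
      _ = 2 * ∫⁻ y in Metric.ball (0 : ℝ × ℝ) 1, ∫⁻ x : ℝ × ℝ,
            g (x + r • y) * min (ENNReal.ofReal (5 / r)) (8 * g (x + r • y)) ^ 2 := by
          rw [lintegral_const_mul' _ _ (by norm_num), lintegral_lintegral_swap hm.aemeasurable]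
      _ = 2 * ∫⁻ _ in Metric.ball (0 : ℝ × ℝ) 1, ∫⁻ x : ℝ × ℝ,
            g x * min (ENNReal.ofReal (5 / r)) (8 * g x) ^ 2 := by
          congr 1
          refine lintegral_congr fun y => ?_
          exact lintegral_add_right_eq_self
            (fun z : ℝ × ℝ => g z * min (ENNReal.ofReal (5 / r)) (8 * g z) ^ 2) (r • y)
      _ = _ := by rw [setLIntegral_const, vol_ball]; ring
  have hm : Measurable fun p : ℝ × (ℝ × ℝ) =>
      g p.2 * min (ENNReal.ofReal (5 / p.1)) (8 * g p.2) ^ 2 := by fun_prop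
  calc _ ≤ ∫⁻ r in Ioi (0 : ℝ),
          8 * ∫⁻ x : ℝ × ℝ, g x * min (ENNReal.ofReal (5 / r)) (8 * g x) ^ 2 :=
        setLIntegral_mono' measurableSet_Ioi s1
    _ = 8 * ∫⁻ x : ℝ × ℝ, ∫⁻ r in Ioi (0 : ℝ),
          g x * min (ENNReal.ofReal (5 / r)) (8 * g x) ^ 2 := by
        rw [lintegral_const_mul' _ _ (by norm_num), lintegral_lintegral_swap hm.aemeasurable]
    _ ≤ 8 * ∫⁻ x : ℝ × ℝ, 89 * g x ^ 2 := by
        gcongr with x
        rw [lintegral_const_mul _ (by fun_prop)]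
        calc _ ≤ g x * (89 * g x) := by gcongr; exact rad_le _
          _ = _ := by ring
    _ ≤ _ := by
        rw [lintegral_const_mul' _ _ (by norm_num)]
        calc _ ≤ 8 * (89 * (1 : ℝ≥0∞)) := by gcongr
          _ = _ := by rw [mul_one]

end Pool.Agent.P.MP_2cea5e_gt.Se
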