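import Pool.Agent.P.MP_2cea5e_gt.Se.S0
import Pool.Agent.P.MP_2cea5e_gt.Se.S1
import Pool.Agent.P.MP_2cea5e_gt.Se.S2
import Pool.Agent.P.MP_2cea5e_gt.Se.S3
import Pool.Agent.P.MP_2cea5e_gt.Se.S4
import Pool.Agent.P.MP_2cea5e_gt.Se.S5
import Pool.Agent.P.MP_2cea5e_gt.Se.E1
import Pool.Agent.P.MP_2cea5e_gt.Se.E2
import Pool.Agent.P.MP_2cea5e_gt.Se.E3
import Pool.Agent.P.MP_2cea5e_gt.Se.P1
import Pool.Agent.P.MP_2cea5e_gt.Se.P2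
import Pool.Agent.P.MP_2cea5e_gt.Se.P3b
import Pool.Agent.P.MP_2cea5e_gt.Se.B0
import Pool.Agent.P.MP_2cea5e_gt.Se.BR
import Pool.Agent.P.MP_2cea5e_gt.Se.B1
import Pool.Agent.P.MP_2cea5e_gt.Se.CL
import Pool.Agent.P.MP_2cea5e_gt.Se.Mer
import Pool.Agent.P.MP_2cea5e_gt.Se.C6
import Pool.Agent.P.MP_2cea5e_gt.Se.C0
import Pool.Agent.P.MP_2cea5e_gt.Se.C0o
import Pool.Agent.P.MP_2cea5e_gt.Se.C0b
import Pool.Agent.P.MP_2cea5e_gt.Se.C1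
import Pool.Agent.P.MP_2cea5e_gt.Se.C2
import Pool.Agent.P.MP_2cea5e_gt.Se.C3
import Pool.Agent.P.MP_2cea5e_gt.Se.C4b
import Pool.Agent.P.MP_2cea5e_gt.Se.C5a
import Pool.Agent.P.MP_2cea5e_gt.Se.C5b
import Pool.Agent.P.MP_2cea5e_gt.Se.C7
import Pool.Agent.P.MP_2cea5e_gt.Se.T1
import Pool.Agent.P.MP_2cea5e_gt.Se.T2
import Pool.Agent.P.MP_2cea5e_gt.Se.GNS
import Pool.Agent.P.MP_2cea5e_gt.Se.Grow
import Pool.Agent.P.MP_2cea5e_gt.Se.Mod1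
import Pool.Agent.P.MP_2cea5e_gt.Se.Mod2
import Pool.Agent.P.MP_2cea5e_gt.Se.QR
import Pool.Agent.P.MP_2cea5e_gt.Se.W2
import Pool.Agent.P.MP_2cea5e_gt.Se.W1
import Pool.Agent.P.MP_2cea5e_gt.Se.A1a
import Pool.Agent.P.MP_2cea5e_gt.Se.A1c
import Pool.Agent.P.MP_2cea5e_gt.Se.A1b
import Pool.Agent.P.MP_2cea5e_gt.Se.A1d
import Pool.Agent.P.MP_2cea5e_gt.Se.A2
import Pool.Agent.P.MP_2cea5e_gt.Se.A3a
import Pool.Agent.P.MP_2cea5e_gt.Se.A3b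
import Pool.Agent.P.MP_2cea5e_gt.Se.A3c
import Pool.Agent.P.MP_2cea5e_gt.Se.A4a
import Pool.Agent.P.MP_2cea5e_gt.Se.A4b
import Pool.Agent.P.MP_2cea5e_gt.Se.A5
import Pool.Agent.P.MP_2cea5e_gt.Se.A6a
import Pool.Agent.P.MP_2cea5e_gt.Se.A6b
import Pool.Agent.P.MP_2cea5e_gt.Se.A7
import Pool.Agent.P.MP_2cea5e_gt.Se.A8
import Pool.Agent.P.MP_2cea5e_gt.Se.A9
import Pool.Agent.P.MP_2cea5e_gt.Se.A10
import Pool.Agent.P.MP_2cea5e_gt.IV.TH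

/-!
The surface without fixed point: assembly.
-/

open scoped ContDiff ComplexOrder Manifold Matrix Topology
open Set MulAction

noncomputable section

namespace Pool.Agent.P.MP_2cea5e_gt.Se

open Abs

theorem stA : StA :=
  stA_of a1a_ok (a1d_ok (a1b_ok a1c_ok)) (a3c_ok a2_ok a3a_ok a3b_ok) (a3e_ok a2_ok)
    (a4c_ok (a4a_ok (w_ok w2_ok)) a4b_ok) (a5_ok gns_ok grow_ok) (a6b_ok gns_ok a6a_ok)
    (a7_ok a6a_ok qr_ok mod1_ok) (a8_ok gns_ok a6a_ok qr_ok mod1_ok) (a9_ok mod2_ok)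
    (a10_ok sup_ok)

theorem finS : StFinS :=
  have g := ga_ok
  have p := posS_ok g
  have b := b0_ok g
  finS_ok g (longS_ok g (shortS_ok g (sys_ok g (aw_ok g) (com_ok g (aw_ok g))) p)
    (boundS_ok g p (oscS_ok g b (r_ok g p b) stA))) (potS_ok2 g p1_ok (p2_ok p1_ok))

variable {M : Type} [TopologicalSpace M] [T2Space M] [CompactSpace M] [ChartedSpace C2 M]
  [IsManifold IC 1 M] [MulAction C2ˣ M] [ContMDiffSMul IC IC 1 C2ˣ M] [FaithfulSMul C2ˣ M]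

theorem serre (h₀ : Met M) (κ : ℝ) (hd : ∃ x : M, Dense (orbit C2ˣ x)) (hn : NoFix M)
    (hK : IsInvKaehler h₀) (hκ : 0 < κ) : Concl M h₀ κ := by
  obtain ⟨x₀, hd⟩ := hd
  have h0 : StC0 M := c0_ok
  have ho := c0o_ok h0
  have hb := c0b_ok h0
  have h2 := c2_ok h0 ho
  obtain ⟨c, hc⟩ := c1_ok h0 ho hb h₀ x₀ hK hd
  have hc0 : c ≠ 0 := fun e => c3_ok h0 ho hb h2 h₀ x₀ hK hd hn (e ▸ hc)
  obtain ⟨x₁, p, v, hd₁, ⟨B⟩⟩ := c4_ok2 h0 ho hb h2 cl_ok mer_ok h₀ x₀ c hK hd hn hc0 hc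
  obtain ⟨ε, e0, e1, e2⟩ := c5b_ok h0 ho cl_ok (c5a_ok h0 ho cl_ok) x₁ p v B hd₁
  have hm : B.m = 1 := c6_ok B.m B.Y B.Z ε e0 B.m1 (B.dY.mono (Metric.ball_subset_ball e1))
    (B.dZ.mono (Metric.ball_subset_ball e1)) B.Y0 e2
  obtain ⟨C⟩ := c7_ok h0 ho cl_ok x₁ p v B hd₁ hm
  exact t2_ok h0 ga_ok (t1_ok h0 hb ga_ok) finS h₀ κ C hK hκ

end Pool.Agent.P.MP_2cea5e_gt.Se
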