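import Pool.Agent.P.MP_2cea5e_gt.Se.Red

/-!
The basic functions on the plane.
-/

open scoped ContDiff Topology
open MeasureTheory Set Filter

set_option linter.unusedSimpArgs false

noncomputable section

namespace Pool.Agent.P.MP_2cea5e_gt.Se

variable {f g h k : Fx} {a b c m : ℤ} {p : X} {s : ℝ}

/-! ### The basic functions -/

theorem x1_apply (p : X) : x1 p = p.2.1 := by simp [x1, Li]
theorem x2_apply (p : X) : x2 p = p.2.2 := by simp [x2, Li]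
theorem r2_apply (p : X) : r2 p = p.2.1 ^ 2 + p.2.2 ^ 2 := by
  simp only [r2, Pi.add_apply, Pi.mul_apply, x1_apply, x2_apply]; ring
theorem rr_apply (p : X) : rr p = 1 + r2 p := rfl
theorem sg_apply (p : X) : sg p = (rr p ^ 2)⁻¹ := by
  simp only [sg, Iv_apply, Pi.mul_apply]; rw [sq]
theorem el_apply (p : X) : el p = Real.log (rr p) := rfl
theorem z1_apply (p : X) : z1 p = p.2.1 ^ 2 - p.2.2 ^ 2 := by
  simp only [z1, Pi.sub_apply, Pi.mul_apply, x1_apply, x2_apply]; ring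
theorem z2_apply (p : X) : z2 p = 2 * p.2.1 * p.2.2 := by
  simp only [z2, Pi.mul_apply, x1_apply, x2_apply, K_apply]
theorem z_sq (p : X) : z1 p ^ 2 + z2 p ^ 2 = r2 p ^ 2 := by
  rw [z1_apply, z2_apply, r2_apply]; ring
theorem r2_nonneg (p : X) : 0 ≤ r2 p := by rw [r2_apply]; positivity
theorem r2_pos (h : p.2 ≠ 0) : 0 < r2 p := by
  rw [r2_apply]
  by_cases h1 : p.2.1 = 0
  · have h2 : p.2.2 ≠ 0 := fun h2 => h (Prod.ext h1 h2)
    positivity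
  · positivity
theorem one_le_rr (p : X) : 1 ≤ rr p := by rw [rr_apply]; linarith [r2_nonneg p]
theorem rr_pos (p : X) : 0 < rr p := by linarith [one_le_rr p]
theorem sg_pos (p : X) : 0 < sg p := by rw [sg_apply]; have := rr_pos p; positivity
theorem sg_le (p : X) : sg p ≤ 1 := by
  rw [sg_apply]; exact inv_le_one_of_one_le₀ (one_le_pow₀ (one_le_rr p))
theorem el_nonneg (p : X) : 0 ≤ el p := Real.log_nonneg (one_le_rr p)
theorem one_le_jb (p : X) : 1 ≤ jb p := Real.one_le_sqrt.2 (one_le_rr p)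
theorem jb_pos (p : X) : 0 < jb p := by linarith [one_le_jb p]
theorem jb_sq (p : X) : jb p ^ 2 = rr p := Real.sq_sqrt (rr_pos p).le
theorem sg_eq (p : X) : sg p = jb p ^ (-4 : ℤ) := by
  rw [sg_apply, ← jb_sq, ← pow_mul, zpow_neg]
  rfl
theorem el_le (p : X) : el p ≤ 2 * jb p := by
  rw [el_apply, ← jb_sq, Real.log_pow]
  have := Real.log_le_sub_one_of_pos (jb_pos p)
  push_cast
  linarith
theorem norm_sq_le (p : X) : ‖p.2‖ ^ 2 ≤ r2 p := by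
  rw [r2_apply, Prod.norm_def, Real.norm_eq_abs, Real.norm_eq_abs]
  rcases le_total |p.2.1| |p.2.2| with h | h
  · rw [max_eq_right h, sq_abs]; nlinarith [sq_nonneg p.2.1]
  · rw [max_eq_left h, sq_abs]; nlinarith [sq_nonneg p.2.2]
theorem r2_le (p : X) : r2 p ≤ 2 * ‖p.2‖ ^ 2 := by
  have h1 : p.2.1 ^ 2 ≤ ‖p.2‖ ^ 2 := by
    rw [← sq_abs]; exact pow_le_pow_left₀ (abs_nonneg _) (norm_fst_le p.2) 2
  have h2 : p.2.2 ^ 2 ≤ ‖p.2‖ ^ 2 := by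
    rw [← sq_abs]; exact pow_le_pow_left₀ (abs_nonneg _) (norm_snd_le p.2) 2
  rw [r2_apply]; linarith
theorem cont_jb : Continuous jb := by
  have h : Sm rr := sm_add (sm_K 1) (sm_add (sm_mul (sm_Li 1 0) (sm_Li 1 0))
    (sm_mul (sm_Li 0 1) (sm_Li 0 1)))
  exact h.cont.sqrt
theorem Ab_apply (f : Fx) (p : X) : Ab f p = |f p| := rfl
theorem cont_Ab (h : Continuous f) : Continuous (Ab f) := h.abs

theorem sm_x1 : Sm x1 := sm_Li 1 0
theorem sm_x2 : Sm x2 := sm_Li 0 1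
theorem sm_r2 : Sm r2 := sm_add (sm_mul sm_x1 sm_x1) (sm_mul sm_x2 sm_x2)
theorem sm_rr : Sm rr := sm_add (sm_K 1) sm_r2
theorem sm_irr : Sm (Iv rr) := sm_Iv sm_rr fun p => (rr_pos p).ne'
theorem sm_el : Sm el := sm_Lg sm_rr fun p => (rr_pos p).ne'
theorem sm_sg : Sm sg :=
  sm_Iv (sm_mul sm_rr sm_rr) fun p => mul_ne_zero (rr_pos p).ne' (rr_pos p).ne'
theorem sm_z1 : Sm z1 := sm_sub (sm_mul sm_x1 sm_x1) (sm_mul sm_x2 sm_x2)
theorem sm_z2 : Sm z2 := sm_mul (sm_mul (sm_K 2) sm_x1) sm_x2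
theorem sm_Lp (hf : Sm f) : Sm (Lp f) := sm_add (sm_D _ (sm_D _ hf)) (sm_D _ (sm_D _ hf))
theorem sm_ip2 (hf : Sm f) (hg : Sm g) : Sm (ip2 f g) :=
  sm_add (sm_mul (sm_D _ hf) (sm_D _ hg)) (sm_mul (sm_D _ hf) (sm_D _ hg))
theorem sm_gr (hf : Sm f) : Sm (gr f) := sm_ip2 hf hf
theorem sm_hs (hf : Sm f) : Sm (hs f) := sm_add (sm_gr (sm_D _ hf)) (sm_gr (sm_D _ hf))
theorem sm_Jc (hf : Sm f) (hg : Sm g) : Sm (Jc f g) :=
  sm_sub (sm_mul (sm_D _ hf) (sm_D _ hg)) (sm_mul (sm_D _ hf) (sm_D _ hg))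
theorem sm_EE (hf : Sm f) (hg : Sm g) : Sm (EE f g) := sm_add (sm_gr hf) (sm_gr hg)
theorem sm_q1 (hf : Sm f) : Sm (q1 f) :=
  sm_mul (sm_K _) (sm_sub (sm_D _ (sm_D _ hf)) (sm_D _ (sm_D _ hf)))
theorem sm_q2 (hf : Sm f) : Sm (q2 f) := sm_mul (sm_K _) (sm_D _ (sm_D _ hf))
theorem sm_pp (hf : Sm f) : Sm (pp f) := sm_mul (sm_K _) (sm_Lp hf)
theorem sm_qq (hf : Sm f) : Sm (qq f) :=
  sm_add (sm_mul (sm_q1 hf) (sm_q1 hf)) (sm_mul (sm_q2 hf) (sm_q2 hf))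
theorem sm_hq1 (h1 : Sm g) (h2 : Sm h) (hf : Sm f) : Sm (hq1 g h f) :=
  sm_sub (sm_mul h1 (sm_q1 hf)) (sm_mul h2 (sm_q2 hf))
theorem sm_hq2 (h1 : Sm g) (h2 : Sm h) (hf : Sm f) : Sm (hq2 g h f) :=
  sm_add (sm_mul h1 (sm_q2 hf)) (sm_mul h2 (sm_q1 hf))
theorem sm_Q1 (hf : Sm f) : Sm (Q1 f) := sm_hq1 sm_z1 sm_z2 hf
theorem sm_Q2 (hf : Sm f) : Sm (Q2 f) := sm_hq2 sm_z1 sm_z2 hf
theorem sm_O1 (hf : Sm f) : Sm (O1 f) :=
  sm_add (sm_Q1 hf) (sm_add (sm_mul sm_x1 (sm_D _ hf)) (sm_mul sm_x2 (sm_D _ hf)))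
theorem sm_O2 (hf : Sm f) : Sm (O2 f) :=
  sm_add (sm_Q2 hf) (sm_sub (sm_mul sm_x2 (sm_D _ hf)) (sm_mul sm_x1 (sm_D _ hf)))

theorem D0_x1 : D e0 x1 = 0 := by rw [x1, D_Li]; funext p; simp [e0]
theorem D0_x2 : D e0 x2 = 0 := by rw [x2, D_Li]; funext p; simp [e0]
theorem D1_x1 : D e1 x1 = 1 := by rw [x1, D_Li]; funext p; simp [e1]
theorem D2_x1 : D e2 x1 = 0 := by rw [x1, D_Li]; funext p; simp [e2]
theorem D1_x2 : D e1 x2 = 0 := by rw [x2, D_Li]; funext p; simp [e1]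
theorem D2_x2 : D e2 x2 = 1 := by rw [x2, D_Li]; funext p; simp [e2]
theorem D0_r2 : D e0 r2 = 0 := by
  rw [r2, D_add _ (sm_mul sm_x1 sm_x1) (sm_mul sm_x2 sm_x2), D_mul _ sm_x1 sm_x1,
    D_mul _ sm_x2 sm_x2, D0_x1, D0_x2]
  funext p
  simp only [Pi.add_apply, Pi.mul_apply, Pi.sub_apply, Pi.neg_apply, Pi.zero_apply, Pi.one_apply, K_apply]
  ring
theorem D1_r2 : D e1 r2 = K 2 * x1 := by
  rw [r2, D_add _ (sm_mul sm_x1 sm_x1) (sm_mul sm_x2 sm_x2), D_mul _ sm_x1 sm_x1,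
    D_mul _ sm_x2 sm_x2, D1_x1, D1_x2]
  funext p
  simp only [Pi.add_apply, Pi.mul_apply, Pi.sub_apply, Pi.neg_apply, Pi.zero_apply, Pi.one_apply, K_apply]
  ring
theorem D2_r2 : D e2 r2 = K 2 * x2 := by
  rw [r2, D_add _ (sm_mul sm_x1 sm_x1) (sm_mul sm_x2 sm_x2), D_mul _ sm_x1 sm_x1,
    D_mul _ sm_x2 sm_x2, D2_x1, D2_x2]
  funext p
  simp only [Pi.add_apply, Pi.mul_apply, Pi.sub_apply, Pi.neg_apply, Pi.zero_apply, Pi.one_apply, K_apply]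
  ring
theorem D0_rr : D e0 rr = 0 := by rw [rr, D_add _ (sm_K 1) sm_r2, D_K, D0_r2, zero_add]
theorem D1_rr : D e1 rr = K 2 * x1 := by rw [rr, D_add _ (sm_K 1) sm_r2, D_K, D1_r2, zero_add]
theorem D2_rr : D e2 rr = K 2 * x2 := by rw [rr, D_add _ (sm_K 1) sm_r2, D_K, D2_r2, zero_add]
theorem D0_el : D e0 el = 0 := by rw [el, D_Lg _ sm_rr fun p => (rr_pos p).ne', D0_rr, zero_mul]
theorem D1_el : D e1 el = K 2 * x1 * Iv rr := by
  rw [el, D_Lg _ sm_rr fun p => (rr_pos p).ne', D1_rr]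
theorem D2_el : D e2 el = K 2 * x2 * Iv rr := by
  rw [el, D_Lg _ sm_rr fun p => (rr_pos p).ne', D2_rr]
theorem D11_el : D e1 (D e1 el) = K 2 * Iv rr - K 4 * (x1 * x1) * sg := by
  rw [D1_el, D_mul _ (sm_mul (sm_K 2) sm_x1) sm_irr, D_mul _ (sm_K 2) sm_x1, D_K, D1_x1,
    D_Iv _ sm_rr fun p => (rr_pos p).ne', D1_rr]
  funext p
  simp only [Pi.add_apply, Pi.mul_apply, Pi.sub_apply, Pi.neg_apply, Pi.zero_apply, Pi.one_apply,
    K_apply, Iv_apply, sg_apply]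
  ring
theorem D12_el : D e1 (D e2 el) = -(K 4 * (x1 * x2) * sg) := by
  rw [D2_el, D_mul _ (sm_mul (sm_K 2) sm_x2) sm_irr, D_mul _ (sm_K 2) sm_x2, D_K, D1_x2,
    D_Iv _ sm_rr fun p => (rr_pos p).ne', D1_rr]
  funext p
  simp only [Pi.add_apply, Pi.mul_apply, Pi.sub_apply, Pi.neg_apply, Pi.zero_apply, Pi.one_apply,
    K_apply, Iv_apply, sg_apply]
  ring
theorem D22_el : D e2 (D e2 el) = K 2 * Iv rr - K 4 * (x2 * x2) * sg := by
  rw [D2_el, D_mul _ (sm_mul (sm_K 2) sm_x2) sm_irr, D_mul _ (sm_K 2) sm_x2, D_K, D2_x2,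
    D_Iv _ sm_rr fun p => (rr_pos p).ne', D2_rr]
  funext p
  simp only [Pi.add_apply, Pi.mul_apply, Pi.sub_apply, Pi.neg_apply, Pi.zero_apply, Pi.one_apply,
    K_apply, Iv_apply, sg_apply]
  ring
theorem D0_sg : D e0 sg = 0 := by
  rw [sg, D_Iv _ (sm_mul sm_rr sm_rr) fun p => mul_ne_zero (rr_pos p).ne' (rr_pos p).ne',
    D_mul _ sm_rr sm_rr, D0_rr]
  simp
theorem D0_z1 : D e0 z1 = 0 := by
  rw [z1, D_sub _ (sm_mul sm_x1 sm_x1) (sm_mul sm_x2 sm_x2), D_mul _ sm_x1 sm_x1,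
    D_mul _ sm_x2 sm_x2, D0_x1, D0_x2]
  funext p
  simp only [Pi.add_apply, Pi.mul_apply, Pi.sub_apply, Pi.neg_apply, Pi.zero_apply, Pi.one_apply, K_apply]
  ring
theorem D0_z2 : D e0 z2 = 0 := by
  rw [z2, D_mul _ (sm_mul (sm_K 2) sm_x1) sm_x2, D_mul _ (sm_K 2) sm_x1, D_K, D0_x1, D0_x2]
  funext p
  simp only [Pi.add_apply, Pi.mul_apply, Pi.sub_apply, Pi.neg_apply, Pi.zero_apply, Pi.one_apply, K_apply]
  ring
theorem D1_z1 : D e1 z1 = K 2 * x1 := by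
  rw [z1, D_sub _ (sm_mul sm_x1 sm_x1) (sm_mul sm_x2 sm_x2), D_mul _ sm_x1 sm_x1,
    D_mul _ sm_x2 sm_x2, D1_x1, D1_x2]
  funext p
  simp only [Pi.add_apply, Pi.mul_apply, Pi.sub_apply, Pi.neg_apply, Pi.zero_apply, Pi.one_apply, K_apply]
  ring
theorem D2_z1 : D e2 z1 = -(K 2 * x2) := by
  rw [z1, D_sub _ (sm_mul sm_x1 sm_x1) (sm_mul sm_x2 sm_x2), D_mul _ sm_x1 sm_x1,
    D_mul _ sm_x2 sm_x2, D2_x1, D2_x2]
  funext p
  simp only [Pi.add_apply, Pi.mul_apply, Pi.sub_apply, Pi.neg_apply, Pi.zero_apply, Pi.one_apply, K_apply]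
  ring
theorem D1_z2 : D e1 z2 = K 2 * x2 := by
  rw [z2, D_mul _ (sm_mul (sm_K 2) sm_x1) sm_x2, D_mul _ (sm_K 2) sm_x1, D_K, D1_x1, D1_x2]
  funext p
  simp only [Pi.add_apply, Pi.mul_apply, Pi.sub_apply, Pi.neg_apply, Pi.zero_apply, Pi.one_apply, K_apply]
  ring
theorem D2_z2 : D e2 z2 = K 2 * x1 := by
  rw [z2, D_mul _ (sm_mul (sm_K 2) sm_x1) sm_x2, D_mul _ (sm_K 2) sm_x1, D_K, D2_x1, D2_x2]
  funext p
  simp only [Pi.add_apply, Pi.mul_apply, Pi.sub_apply, Pi.neg_apply, Pi.zero_apply, Pi.one_apply, K_apply]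
  ring
theorem D_Kmul (v : X) (c : ℝ) (hf : Sm f) : D v (K c * f) = K c * D v f := by
  rw [D_mul v (sm_K c) hf, D_K, zero_mul, zero_add]
theorem D_comp (v : X) (hf : Sm f) {φ : ℝ → ℝ} (hφ : ContDiff ℝ ∞ φ) :
    D v (φ ∘ f) = deriv φ ∘ f * D v f := by
  funext p
  have h1 : HasDerivAt φ (deriv φ (f p)) (f p) :=
    (ContDiff.differentiable hφ (by simp) (f p)).hasDerivAt
  have h2 := h1.hasFDerivAt.comp p (hf.diff p).hasFDerivAt
  simp only [D, Pi.mul_apply, Function.comp_apply]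
  rw [h2.fderiv]
  simp [mul_comm]
theorem Lp_el : Lp el = K 4 * sg := by
  rw [Lp, D11_el, D22_el]
  funext p
  have h := (rr_pos p).ne'
  have h2 : x1 p * x1 p + x2 p * x2 p = rr p - 1 := by
    rw [rr_apply, r2_apply, x1_apply, x2_apply]; ring
  simp only [Pi.add_apply, Pi.mul_apply, Pi.sub_apply, K_apply, Iv_apply, sg_apply]
  field_simp
  linear_combination (-4) * h2
theorem gr_el (p : X) : gr el p = 4 * r2 p * sg p := by
  simp only [gr, ip2, D1_el, D2_el, Pi.add_apply, Pi.mul_apply, K_apply, Iv_apply, sg_apply,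
    r2_apply, x1_apply, x2_apply]
  ring
theorem gr_el_le (p : X) : gr el p ≤ 1 := by
  have h := rr_pos p
  rw [gr_el, sg_apply, ← div_eq_mul_inv, div_le_one (by positivity), rr_apply]
  nlinarith [sq_nonneg (r2 p - 1)]
theorem gr_el_rr (p : X) : gr el p * rr p ≤ 4 := by
  have h := rr_pos p
  have e : 4 * r2 p * sg p * rr p = 4 * r2 p / rr p := by rw [sg_apply]; field_simp
  rw [gr_el, e, div_le_iff₀ h, rr_apply]
  linarith
theorem hs_el_le (p : X) : hs el p ≤ 8 * sg p := by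
  have h := rr_pos p
  have h0 := r2_nonneg p
  have h2 : x1 p * x1 p + x2 p * x2 p = r2 p := rfl
  have h3 : rr p = 1 + r2 p := rfl
  have e : hs el p = 8 * sg p - 16 * r2 p * (sg p * sg p) := by
    simp only [hs, gr, ip2, D_comm e2 e1 sm_el, D11_el, D12_el, D22_el, Pi.add_apply,
      Pi.mul_apply, Pi.sub_apply, Pi.neg_apply, K_apply, Iv_apply, sg_apply]
    have h4 : (rr p)⁻¹ = (1 + r2 p) * (rr p ^ 2)⁻¹ := by rw [← h3]; field_simp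
    have h5 : (rr p)⁻¹ * (rr p)⁻¹ = (rr p ^ 2)⁻¹ := by field_simp
    rw [← h2] at h4 ⊢
    generalize (rr p ^ 2)⁻¹ = σ at h4 h5 ⊢
    generalize (rr p)⁻¹ = ι at h4 h5 ⊢
    linear_combination 8 * h5 - 16 * (x1 p * x1 p + x2 p * x2 p) * σ * h4
  have := mul_nonneg h0 (mul_self_nonneg (sg p))
  rw [e]
  linarith

end Pool.Agent.P.MP_2cea5e_gt.Se
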