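import Pool.Agent.P.MP_2cea5e_gt.Se.ApiA

/-!
Pointwise algebra on the plane.
-/

open scoped ContDiff Topology
open MeasureTheory Set Filter

noncomputable section

namespace Pool.Agent.P.MP_2cea5e_gt.Se

variable {f g h k : Fx} {a b c m : ℤ} {p : X} {s : ℝ}

namespace ApiBP

theorem dK (v : X) (c : ℝ) (hf : Sm f) : D v (K c * f) = K c * D v f := by
  rw [D_mul v (sm_K c) hf, D_K]
  funext p; simp only [Pi.add_apply, Pi.mul_apply, Pi.zero_apply]; ring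

theorem dcomp (v : X) (hf : Sm f) {φ : ℝ → ℝ} (hφ : ContDiff ℝ ∞ φ) :
    D v (φ ∘ f) = deriv φ ∘ f * D v f := by
  funext p
  have h1 : HasDerivAt φ (deriv φ (f p)) (f p) :=
    (ContDiff.differentiable hφ (by simp) (f p)).hasDerivAt
  have h2 := h1.comp_hasFDerivAt p (hf.diff p).hasFDerivAt
  simp only [D, Pi.mul_apply, Function.comp_apply]
  rw [h2.fderiv]; simp

theorem smderiv {φ : ℝ → ℝ} (hφ : ContDiff ℝ ∞ φ) : ContDiff ℝ ∞ (deriv φ) :=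
  (contDiff_infty_iff_deriv.mp hφ).2

theorem smcomp (hf : Sm f) {φ : ℝ → ℝ} (hφ : ContDiff ℝ ∞ φ) : Sm (φ ∘ f) := hφ.comp hf

theorem dT {τ : ℝ → ℝ} {v : X} (hv : v.1 = 0) (hτ : ContDiff ℝ ∞ τ) (hf : Sm f) :
    D v (Tm τ * f) = Tm τ * D v f := by
  rw [D_mul v (sm_Tm hτ) hf, D_Tm_sp hv hτ]
  funext p; simp only [Pi.add_apply, Pi.mul_apply, Pi.zero_apply]; ring

theorem dd_add (u v : X) (hf : Sm f) (hg : Sm g) :
    D u (D v (f + g)) = D u (D v f) + D u (D v g) := by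
  rw [D_add v hf hg, D_add u (sm_D v hf) (sm_D v hg)]

theorem dd_sub (u v : X) (hf : Sm f) (hg : Sm g) :
    D u (D v (f - g)) = D u (D v f) - D u (D v g) := by
  rw [D_sub v hf hg, D_sub u (sm_D v hf) (sm_D v hg)]

theorem dd_K (u v : X) (c : ℝ) (hf : Sm f) :
    D u (D v (K c * f)) = K c * D u (D v f) := by
  rw [dK v c hf, dK u c (sm_D v hf)]

theorem dd_T {τ : ℝ → ℝ} {u v : X} (hu : u.1 = 0) (hv : v.1 = 0) (hτ : ContDiff ℝ ∞ τ)
    (hf : Sm f) : D u (D v (Tm τ * f)) = Tm τ * D u (D v f) := by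
  rw [dT hv hτ hf, dT hu hτ (sm_D v hf)]

theorem dd_mul (u v : X) (hf : Sm f) (hg : Sm g) :
    D u (D v (f * g)) =
      D u (D v f) * g + D v f * D u g + (D u f * D v g + f * D u (D v g)) := by
  rw [D_mul v hf hg, D_add u (sm_mul (sm_D v hf) hg) (sm_mul hf (sm_D v hg)),
    D_mul u (sm_D v hf) hg, D_mul u hf (sm_D v hg)]

theorem dd_comp (u v : X) (hf : Sm f) {φ : ℝ → ℝ} (hφ : ContDiff ℝ ∞ φ) :
    D u (D v (φ ∘ f)) =
      deriv (deriv φ) ∘ f * D u f * D v f + deriv φ ∘ f * D u (D v f) := by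
  rw [dcomp v hf hφ, D_mul u (smcomp hf (smderiv hφ)) (sm_D v hf), dcomp u hf (smderiv hφ)]

theorem d_dd (w u v : X) (hf : Sm f) : D w (D u (D v f)) = D u (D v (D w f)) := by
  rw [D_comm w u (sm_D v hf), D_comm w v hf]

theorem bb_ineq (A B C g1 g2 h1 h2 : ℝ) :
    (C * g1 * h1 + A * g2 * h2 - B * (g1 * h2 + g2 * h1)) ^ 2 ≤
      (A ^ 2 + 2 * B ^ 2 + C ^ 2) * (g1 ^ 2 + g2 ^ 2) * (h1 ^ 2 + h2 ^ 2) := by
  have e : C * g1 * h1 + A * g2 * h2 - B * (g1 * h2 + g2 * h1) =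
      (C * g1 - B * g2) * h1 + (A * g2 - B * g1) * h2 := by ring
  have c1 : ((C * g1 - B * g2) * h1 + (A * g2 - B * g1) * h2) ^ 2 ≤
      ((C * g1 - B * g2) ^ 2 + (A * g2 - B * g1) ^ 2) * (h1 ^ 2 + h2 ^ 2) := by
    nlinarith [sq_nonneg ((C * g1 - B * g2) * h2 - (A * g2 - B * g1) * h1)]
  have c2 : (C * g1 - B * g2) ^ 2 + (A * g2 - B * g1) ^ 2 ≤
      (A ^ 2 + 2 * B ^ 2 + C ^ 2) * (g1 ^ 2 + g2 ^ 2) := by
    nlinarith [sq_nonneg (C * g2 + B * g1), sq_nonneg (A * g1 + B * g2)]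
  rw [e]
  exact c1.trans (mul_le_mul_of_nonneg_right c2 (by positivity))

theorem dd_ineq (A B C A' B' C' : ℝ) :
    (A * C' + C * A' - 2 * B * B') ^ 2 ≤
      (A ^ 2 + 2 * B ^ 2 + C ^ 2) * (A' ^ 2 + 2 * B' ^ 2 + C' ^ 2) := by
  nlinarith [sq_nonneg (A * A' - C * C'), sq_nonneg (A * B' + B * C'), sq_nonneg (C * B' + B * A')]

end ApiBP

open ApiBP

/-! ### Pointwise algebra -/

theorem gr_apply (f : Fx) (p : X) : gr f p = D e1 f p ^ 2 + D e2 f p ^ 2 := by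
  simp only [gr, ip2, Pi.add_apply, Pi.mul_apply]; ring
theorem hs_apply (hf : Sm f) (p : X) :
    hs f p = D e1 (D e1 f) p ^ 2 + 2 * D e1 (D e2 f) p ^ 2 + D e2 (D e2 f) p ^ 2 := by
  simp only [hs, Pi.add_apply, gr_apply]
  rw [D_comm e2 e1 hf]; ring
theorem hs_eq (hf : Sm f) (p : X) : hs f p = 8 * pp f p ^ 2 + 8 * qq f p := by
  rw [hs_apply hf]
  simp only [pp, qq, q1, q2, Lp, Pi.add_apply, Pi.mul_apply, Pi.sub_apply, K_apply]; ring
theorem gr_nonneg (f : Fx) (p : X) : 0 ≤ gr f p := by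
  rw [gr_apply]; positivity
theorem hs_nonneg (f : Fx) (p : X) : 0 ≤ hs f p :=
  add_nonneg (gr_nonneg _ p) (gr_nonneg _ p)
theorem EE_nonneg (f g : Fx) (p : X) : 0 ≤ EE f g p :=
  add_nonneg (gr_nonneg _ p) (gr_nonneg _ p)
theorem qq_nonneg (f : Fx) (p : X) : 0 ≤ qq f p :=
  add_nonneg (mul_self_nonneg _) (mul_self_nonneg _)
theorem ip2_sq (f g : Fx) (p : X) : ip2 f g p ^ 2 ≤ gr f p * gr g p := by
  simp only [gr_apply, ip2, Pi.add_apply, Pi.mul_apply]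
  nlinarith [sq_nonneg (D e1 f p * D e2 g p - D e2 f p * D e1 g p)]
theorem Jc_sq (f g : Fx) (p : X) : Jc f g p ^ 2 ≤ gr f p * gr g p := by
  simp only [gr_apply, Jc, Pi.sub_apply, Pi.mul_apply]
  nlinarith [sq_nonneg (D e1 f p * D e1 g p + D e2 f p * D e2 g p)]
theorem BB_sq (hf : Sm f) (g h : Fx) (p : X) : BB f g h p ^ 2 ≤ hs f p * gr g p * gr h p := by
  rw [hs_apply hf]
  simp only [gr_apply, BB, BBv, Pi.add_apply, Pi.sub_apply, Pi.mul_apply]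
  exact bb_ineq _ _ _ _ _ _ _
theorem DD_sq (hf : Sm f) (hg : Sm g) (p : X) : DD f g p ^ 2 ≤ hs f p * hs g p := by
  rw [hs_apply hf, hs_apply hg]
  simp only [DD, DDv, Pi.add_apply, Pi.sub_apply, Pi.mul_apply, K_apply]
  exact dd_ineq _ _ _ _ _ _
theorem Lp_sq (hf : Sm f) (p : X) : Lp f p ^ 2 ≤ 2 * hs f p := by
  rw [hs_apply hf]
  simp only [Lp, Pi.add_apply]
  nlinarith [sq_nonneg (D e1 (D e1 f) p - D e2 (D e2 f) p), sq_nonneg (D e1 (D e2 f) p)]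
theorem gr_add_le (hf : Sm f) (hg : Sm g) (p : X) : gr (f + g) p ≤ 2 * gr f p + 2 * gr g p := by
  simp only [gr_apply, D_add _ hf hg, Pi.add_apply]
  nlinarith [sq_nonneg (D e1 f p - D e1 g p), sq_nonneg (D e2 f p - D e2 g p)]
theorem gr_sub_le (hf : Sm f) (hg : Sm g) (p : X) : gr (f - g) p ≤ 2 * gr f p + 2 * gr g p := by
  simp only [gr_apply, D_sub _ hf hg, Pi.sub_apply]
  nlinarith [sq_nonneg (D e1 f p + D e1 g p), sq_nonneg (D e2 f p + D e2 g p)]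
theorem hs_add_le (hf : Sm f) (hg : Sm g) (p : X) : hs (f + g) p ≤ 2 * hs f p + 2 * hs g p := by
  have h1 := gr_add_le (sm_D e1 hf) (sm_D e1 hg) p
  have h2 := gr_add_le (sm_D e2 hf) (sm_D e2 hg) p
  simp only [hs, D_add _ hf hg, Pi.add_apply]
  linarith
theorem hs_sub_le (hf : Sm f) (hg : Sm g) (p : X) : hs (f - g) p ≤ 2 * hs f p + 2 * hs g p := by
  have h1 := gr_sub_le (sm_D e1 hf) (sm_D e1 hg) p
  have h2 := gr_sub_le (sm_D e2 hf) (sm_D e2 hg) p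
  simp only [hs, D_sub _ hf hg, Pi.add_apply]
  linarith
theorem gr_Kmul (c : ℝ) (hf : Sm f) (p : X) : gr (K c * f) p = c ^ 2 * gr f p := by
  simp only [gr_apply, dK _ c hf, Pi.mul_apply, K_apply]; ring
theorem hs_Kmul (c : ℝ) (hf : Sm f) (p : X) : hs (K c * f) p = c ^ 2 * hs f p := by
  simp only [hs, dK _ c hf, Pi.add_apply, gr_Kmul c (sm_D _ hf)]; ring
theorem W_eq_Jc (hf : Sm f) : W f = Jc (D e1 f) (D e2 f) := by
  simp only [W, Jc]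
  rw [D_comm e2 e1 hf]
theorem hq_sq (g h f : Fx) (p : X) :
    hq1 g h f p ^ 2 + hq2 g h f p ^ 2 = (g p ^ 2 + h p ^ 2) * qq f p := by
  simp only [hq1, hq2, qq, Pi.add_apply, Pi.sub_apply, Pi.mul_apply]; ring
theorem D0_DD (hf : Sm f) (hg : Sm g) : D e0 (DD f g) = DD (D e0 f) g + DD f (D e0 g) := by
  have sf : ∀ u v : X, Sm (D u (D v f)) := fun u v => sm_D u (sm_D v hf)
  have sg' : ∀ u v : X, Sm (D u (D v g)) := fun u v => sm_D u (sm_D v hg)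
  simp only [DD, DDv]
  rw [D_sub _ (sm_add (sm_mul (sf _ _) (sg' _ _)) (sm_mul (sf _ _) (sg' _ _)))
      (sm_mul (sm_mul (sm_K _) (sf _ _)) (sg' _ _)),
    D_add _ (sm_mul (sf _ _) (sg' _ _)) (sm_mul (sf _ _) (sg' _ _)),
    D_mul _ (sf _ _) (sg' _ _), D_mul _ (sf _ _) (sg' _ _),
    D_mul _ (sm_mul (sm_K _) (sf _ _)) (sg' _ _), dK _ _ (sf _ _)]
  simp only [d_dd e0 _ _ hf, d_dd e0 _ _ hg]
  funext p; simp only [Pi.add_apply, Pi.sub_apply, Pi.mul_apply, K_apply]; ring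
theorem D0_BB (hf : Sm f) (hg : Sm g) (hh : Sm h) :
    D e0 (BB f g h) = BB (D e0 f) g h + BB f (D e0 g) h + BB f g (D e0 h) := by
  have sf : ∀ u v : X, Sm (D u (D v f)) := fun u v => sm_D u (sm_D v hf)
  have sg' : ∀ u : X, Sm (D u g) := fun u => sm_D u hg
  have sh : ∀ u : X, Sm (D u h) := fun u => sm_D u hh
  simp only [BB, BBv]
  rw [D_sub _ (sm_add (sm_mul (sm_mul (sf _ _) (sg' _)) (sh _))
        (sm_mul (sm_mul (sf _ _) (sg' _)) (sh _)))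
      (sm_mul (sf _ _) (sm_add (sm_mul (sg' _) (sh _)) (sm_mul (sg' _) (sh _)))),
    D_add _ (sm_mul (sm_mul (sf _ _) (sg' _)) (sh _)) (sm_mul (sm_mul (sf _ _) (sg' _)) (sh _)),
    D_mul _ (sm_mul (sf _ _) (sg' _)) (sh _), D_mul _ (sm_mul (sf _ _) (sg' _)) (sh _),
    D_mul _ (sf _ _) (sg' _), D_mul _ (sf _ _) (sg' _),
    D_mul _ (sf _ _) (sm_add (sm_mul (sg' _) (sh _)) (sm_mul (sg' _) (sh _))),
    D_add _ (sm_mul (sg' _) (sh _)) (sm_mul (sg' _) (sh _)),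
    D_mul _ (sg' _) (sh _), D_mul _ (sg' _) (sh _),
    d_dd e0 e1 e1 hf, d_dd e0 e1 e2 hf, d_dd e0 e2 e2 hf,
    D_comm e0 e1 hg, D_comm e0 e2 hg, D_comm e0 e1 hh, D_comm e0 e2 hh]
  funext p; simp only [Pi.add_apply, Pi.sub_apply, Pi.mul_apply]; ring
theorem D0_ip2 (hf : Sm f) (hg : Sm g) : D e0 (ip2 f g) = ip2 (D e0 f) g + ip2 f (D e0 g) := by
  simp only [ip2]
  rw [D_add _ (sm_mul (sm_D _ hf) (sm_D _ hg)) (sm_mul (sm_D _ hf) (sm_D _ hg)),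
    D_mul _ (sm_D _ hf) (sm_D _ hg), D_mul _ (sm_D _ hf) (sm_D _ hg),
    D_comm e0 e1 hf, D_comm e0 e2 hf, D_comm e0 e1 hg, D_comm e0 e2 hg]
  funext p; simp only [Pi.add_apply, Pi.mul_apply]; ring
theorem DD_Tm {τ : ℝ → ℝ} (hτ : ContDiff ℝ ∞ τ) (hf : Sm f) (g : Fx) :
    DD (Tm τ * f) g = Tm τ * DD f g := by
  simp only [DD, DDv]
  rw [dd_T (u := e1) (v := e1) rfl rfl hτ hf, dd_T (u := e1) (v := e2) rfl rfl hτ hf,
    dd_T (u := e2) (v := e2) rfl rfl hτ hf]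
  funext p; simp only [Pi.add_apply, Pi.sub_apply, Pi.mul_apply, K_apply]; ring
theorem BB_Tm {τ : ℝ → ℝ} (hτ : ContDiff ℝ ∞ τ) (hf : Sm f) (g h : Fx) :
    BB (Tm τ * f) g h = Tm τ * BB f g h := by
  simp only [BB, BBv]
  rw [dd_T (u := e1) (v := e1) rfl rfl hτ hf, dd_T (u := e1) (v := e2) rfl rfl hτ hf,
    dd_T (u := e2) (v := e2) rfl rfl hτ hf]
  funext p; simp only [Pi.add_apply, Pi.sub_apply, Pi.mul_apply]; ring
theorem BB_Tm' {τ : ℝ → ℝ} (hτ : ContDiff ℝ ∞ τ) (f g : Fx) (hh : Sm h) :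
    BB f g (Tm τ * h) = Tm τ * BB f g h := by
  simp only [BB, BBv]
  rw [dT (v := e1) rfl hτ hh, dT (v := e2) rfl hτ hh]
  funext p; simp only [Pi.add_apply, Pi.sub_apply, Pi.mul_apply]; ring
theorem ip2_Tm {τ : ℝ → ℝ} (hτ : ContDiff ℝ ∞ τ) (f : Fx) (hg : Sm g) :
    ip2 f (Tm τ * g) = Tm τ * ip2 f g := by
  simp only [ip2]
  rw [dT (v := e1) rfl hτ hg, dT (v := e2) rfl hτ hg]
  funext p; simp only [Pi.add_apply, Pi.mul_apply]; ring
theorem ip2_comm (f g : Fx) : ip2 f g = ip2 g f := by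
  funext p; simp only [ip2, Pi.add_apply, Pi.mul_apply]; ring
theorem DD_add (f : Fx) (hg : Sm g) (hh : Sm h) : DD f (g + h) = DD f g + DD f h := by
  simp only [DD, DDv, dd_add _ _ hg hh]
  funext p; simp only [Pi.add_apply, Pi.sub_apply, Pi.mul_apply, K_apply]; ring
theorem DD_sub (f : Fx) (hg : Sm g) (hh : Sm h) : DD f (g - h) = DD f g - DD f h := by
  simp only [DD, DDv, dd_sub _ _ hg hh]
  funext p; simp only [Pi.add_apply, Pi.sub_apply, Pi.mul_apply, K_apply]; ring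
theorem DD_Kmul (f : Fx) (c : ℝ) (hg : Sm g) : DD f (K c * g) = K c * DD f g := by
  simp only [DD, DDv, dd_K _ _ c hg]
  funext p; simp only [Pi.add_apply, Pi.sub_apply, Pi.mul_apply, K_apply]; ring
theorem DD_mul (f : Fx) (hg : Sm g) (hh : Sm h) :
    DD f (g * h) = g * DD f h + K 2 * BB f g h + h * DD f g := by
  simp only [DD, DDv, BB, BBv, dd_mul _ _ hg hh]
  funext p; simp only [Pi.add_apply, Pi.sub_apply, Pi.mul_apply, K_apply]; ring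
theorem DD_comp (f : Fx) (hg : Sm g) {φ : ℝ → ℝ} (hφ : ContDiff ℝ ∞ φ) :
    DD f (φ ∘ g) = deriv φ ∘ g * DD f g + deriv (deriv φ) ∘ g * BB f g g := by
  simp only [DD, DDv, BB, BBv, dd_comp _ _ hg hφ]
  funext p; simp only [Pi.add_apply, Pi.sub_apply, Pi.mul_apply, K_apply]; ring
theorem BB_add (f g : Fx) (hh : Sm h) (hk : Sm k) : BB f g (h + k) = BB f g h + BB f g k := by
  simp only [BB, BBv, D_add _ hh hk]
  funext p; simp only [Pi.add_apply, Pi.sub_apply, Pi.mul_apply]; ring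
theorem BB_comp (f g : Fx) (hh : Sm h) {φ : ℝ → ℝ} (hφ : ContDiff ℝ ∞ φ) :
    BB f g (φ ∘ h) = deriv φ ∘ h * BB f g h := by
  simp only [BB, BBv, dcomp _ hh hφ]
  funext p; simp only [Pi.add_apply, Pi.sub_apply, Pi.mul_apply]; ring
theorem Lp_add (hf : Sm f) (hg : Sm g) : Lp (f + g) = Lp f + Lp g := by
  simp only [Lp, dd_add _ _ hf hg]
  funext p; simp only [Pi.add_apply]; ring
theorem Lp_sub (hf : Sm f) (hg : Sm g) : Lp (f - g) = Lp f - Lp g := by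
  simp only [Lp, dd_sub _ _ hf hg]
  funext p; simp only [Pi.add_apply, Pi.sub_apply]; ring
theorem Lp_Kmul (c : ℝ) (hf : Sm f) : Lp (K c * f) = K c * Lp f := by
  simp only [Lp, dd_K _ _ c hf]
  funext p; simp only [Pi.add_apply, Pi.mul_apply, K_apply]; ring

end Pool.Agent.P.MP_2cea5e_gt.Se
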