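import Pool.Agent.P.MP_2cea5e_gt.Se.ApiI

/-!
Uniform bounds and moduli of continuity.
-/

open scoped ContDiff Topology
open MeasureTheory Set Filter

noncomputable section

namespace Pool.Agent.P.MP_2cea5e_gt.Se

variable {f g h : Fx} {t τ : ℝ → ℝ} {T : ℝ}

namespace ApiFP

theorem tind (hf : Sm f) (h : D e0 f = 0) (s : ℝ) (x : ℝ × ℝ) : f (s, x) = f (0, x) := by
  have h1 : ∀ s : ℝ, HasDerivAt (fun s : ℝ => f (s, x)) 0 s := fun s => by
    have := hasDerivAt_time hf s x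
    rwa [h] at this
  exact is_const_of_deriv_eq_zero (f := fun s : ℝ => f (s, x))
    (fun s => (h1 s).differentiableAt) (fun s => (h1 s).deriv) s 0

theorem exp_lip {a b C : ℝ} (ha : a ≤ C) (hb : b ≤ C) :
    |Real.exp a - Real.exp b| ≤ Real.exp C * |a - b| := by
  have key : ∀ u v : ℝ, u ≤ C → v ≤ u → Real.exp u - Real.exp v ≤ Real.exp C * (u - v) := by
    intro u v hu hv
    have h1 : v - u + 1 ≤ Real.exp (v - u) := Real.add_one_le_exp _
    have h2 : Real.exp v = Real.exp u * Real.exp (v - u) := by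
      rw [← Real.exp_add]; congr 1; ring
    have h3 : Real.exp u ≤ Real.exp C := Real.exp_le_exp.2 hu
    have h4 : 0 < Real.exp u := Real.exp_pos u
    have h5 : Real.exp u * (v - u + 1) ≤ Real.exp u * Real.exp (v - u) :=
      mul_le_mul_of_nonneg_left h1 h4.le
    have h6 : Real.exp u * (u - v) ≤ Real.exp C * (u - v) :=
      mul_le_mul_of_nonneg_right h3 (by linarith)
    rw [h2]; nlinarith
  rcases le_total b a with hab | hab
  · rw [abs_of_nonneg (sub_nonneg.2 (Real.exp_le_exp.2 hab)), abs_of_nonneg (sub_nonneg.2 hab)]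
    exact key a b ha hab
  · rw [abs_sub_comm, abs_sub_comm a b, abs_of_nonneg (sub_nonneg.2 (Real.exp_le_exp.2 hab)),
      abs_of_nonneg (sub_nonneg.2 hab)]
    exact key b a hb hab

theorem vol_ball (x : ℝ × ℝ) {r : ℝ} (hr : 0 ≤ r) :
    (volume : Measure (ℝ × ℝ)).real (Metric.ball x r) = 4 * r ^ 2 := by
  obtain ⟨a, b⟩ := x
  rw [← ball_prod_same, Measure.volume_eq_prod, measureReal_def, Measure.prod_prod,
    Real.volume_ball, Real.volume_ball, ← ENNReal.ofReal_mul (by linarith),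
    ENNReal.toReal_ofReal (by positivity)]
  ring

theorem ball_norm {x y : ℝ × ℝ} {r ρ : ℝ} (hx : ‖x‖ ≤ ρ) (hr : r ≤ 1)
    (hy : y ∈ Metric.ball x r) : ‖y‖ < ρ + 1 := by
  have h1 : ‖y - x‖ < r := by simpa [dist_eq_norm] using hy
  have h2 : ‖y‖ ≤ ‖y - x‖ + ‖x‖ := by simpa using norm_add_le (y - x) x
  linarith

theorem le_sqrt {r : ℝ} (h0 : 0 < r) (h1 : r ≤ 1) : r ≤ √r := by
  apply Real.le_sqrt_of_sq_le
  nlinarith

theorem ae_ne0 : ∀ᵐ y : ℝ × ℝ, y ≠ 0 := by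
  rw [ae_iff]
  simp

end ApiFP

open ApiFP

theorem Ub.add {F G : ℝ → ℝ} (h : Ub F) (h' : Ub G) : Ub fun s => F s + G s := by
  obtain ⟨C, hC⟩ := h
  obtain ⟨C', hC'⟩ := h'
  exact ⟨C + C', fun s hs => add_le_add (hC s hs) (hC' s hs)⟩

theorem Ub.cmul {F : ℝ → ℝ} {c : ℝ} (hc : 0 ≤ c) (h : Ub F) : Ub fun s => c * F s := by
  obtain ⟨C, hC⟩ := h
  exact ⟨c * C, fun s hs => mul_le_mul_of_nonneg_left (hC s hs) hc⟩

theorem Ub.mono {F G : ℝ → ℝ} (h : Ub G) (e : ∀ s, 0 ≤ s → F s ≤ G s) : Ub F := by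
  obtain ⟨C, hC⟩ := h
  exact ⟨C, fun s hs => (e s hs).trans (hC s hs)⟩

theorem ub_const (c : ℝ) : Ub fun _ => c := ⟨c, fun _ _ => le_rfl⟩

theorem Pb.lb (h : Pb f) : Lb f := by
  obtain ⟨C, hC⟩ := h
  exact fun _ => ⟨C, fun p hp _ => hC p hp⟩

theorem Lb.add (h : Lb f) (h' : Lb g) : Lb (f + g) := by
  intro ρ
  obtain ⟨C, hC⟩ := h ρ
  obtain ⟨C', hC'⟩ := h' ρ
  exact ⟨C + C', fun p hp hq => (abs_add_le _ _).trans (add_le_add (hC p hp hq) (hC' p hp hq))⟩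

theorem Lb.sub (h : Lb f) (h' : Lb g) : Lb (f - g) := by
  intro ρ
  obtain ⟨C, hC⟩ := h ρ
  obtain ⟨C', hC'⟩ := h' ρ
  exact ⟨C + C', fun p hp hq => (abs_sub _ _).trans (add_le_add (hC p hp hq) (hC' p hp hq))⟩

theorem Lb.mul (h : Lb f) (h' : Lb g) : Lb (f * g) := by
  intro ρ
  obtain ⟨C, hC⟩ := h ρ
  obtain ⟨C', hC'⟩ := h' ρ
  refine ⟨C * C', fun p hp hq => ?_⟩
  rw [Pi.mul_apply, abs_mul]
  exact mul_le_mul (hC p hp hq) (hC' p hp hq) (abs_nonneg _) ((abs_nonneg _).trans (hC p hp hq))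

theorem Lb.Kmul (c : ℝ) (h : Lb f) : Lb (K c * f) :=
  Lb.mul (fun _ => ⟨|c|, fun _ _ _ => le_rfl⟩) h

theorem Lb.ex (h : Lb f) : Lb (Ex f) := by
  intro ρ
  obtain ⟨C, hC⟩ := h ρ
  refine ⟨Real.exp C, fun p hp hq => ?_⟩
  show |Real.exp (f p)| ≤ _
  rw [abs_of_pos (Real.exp_pos _)]
  exact Real.exp_le_exp.2 ((le_abs_self _).trans (hC p hp hq))

theorem Lb.of_sq (h : Lb g) (e : ∀ p : X, 0 ≤ p.1 → f p ^ 2 ≤ g p) : Lb f := by
  intro ρ
  obtain ⟨C, hC⟩ := h ρ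
  refine ⟨√C, fun p hp hq => ?_⟩
  exact Real.abs_le_sqrt ((e p hp).trans ((le_abs_self _).trans (hC p hp hq)))

theorem lb_const (hf : Sm f) (h : D e0 f = 0) : Lb f := by
  intro ρ
  have hc : Continuous fun y : ℝ × ℝ => f (0, y) :=
    hf.continuous.comp (continuous_const.prodMk continuous_id)
  obtain ⟨C, hC⟩ := (isCompact_closedBall (0 : ℝ × ℝ) ρ).exists_bound_of_continuousOn
    hc.continuousOn
  refine ⟨C, fun p _ hq => ?_⟩
  have e1 : f p = f (0, p.2) := tind hf h p.1 p.2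
  rw [e1]
  exact hC p.2 (by simpa using hq)

theorem eqc_const (hf : Sm f) (h : D e0 f = 0) : Eqc f := by
  intro ρ ε hε
  have hc : Continuous fun y : ℝ × ℝ => f (0, y) :=
    hf.continuous.comp (continuous_const.prodMk continuous_id)
  have hu := (isCompact_closedBall (0 : ℝ × ℝ) ρ).uniformContinuousOn_of_continuous
    hc.continuousOn
  obtain ⟨δ, hδ, H⟩ := Metric.uniformContinuousOn_iff_le.1 hu ε hε
  refine ⟨δ, hδ, fun s _ x y hx hy hxy => ?_⟩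
  rw [tind hf h s x, tind hf h s y]
  have := H x (by simpa using hx) y (by simpa using hy) (by rwa [dist_eq_norm])
  rwa [Real.dist_eq] at this

theorem Eqc.add (h : Eqc f) (h' : Eqc g) : Eqc (f + g) := by
  intro ρ ε hε
  obtain ⟨δ, hδ, H⟩ := h ρ (ε / 2) (by linarith)
  obtain ⟨δ', hδ', H'⟩ := h' ρ (ε / 2) (by linarith)
  refine ⟨min δ δ', lt_min hδ hδ', fun s hs x y hx hy hxy => ?_⟩
  have a1 := H s hs x y hx hy (hxy.trans (min_le_left _ _))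
  have a2 := H' s hs x y hx hy (hxy.trans (min_le_right _ _))
  simp only [Pi.add_apply]
  rw [abs_le] at a1 a2 ⊢
  constructor <;> linarith [a1.1, a1.2, a2.1, a2.2]

theorem Eqc.sub (h : Eqc f) (h' : Eqc g) : Eqc (f - g) := by
  intro ρ ε hε
  obtain ⟨δ, hδ, H⟩ := h ρ (ε / 2) (by linarith)
  obtain ⟨δ', hδ', H'⟩ := h' ρ (ε / 2) (by linarith)
  refine ⟨min δ δ', lt_min hδ hδ', fun s hs x y hx hy hxy => ?_⟩
  have a1 := H s hs x y hx hy (hxy.trans (min_le_left _ _))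
  have a2 := H' s hs x y hx hy (hxy.trans (min_le_right _ _))
  simp only [Pi.sub_apply]
  rw [abs_le] at a1 a2 ⊢
  constructor <;> linarith [a1.1, a1.2, a2.1, a2.2]

theorem Eqc.mul (h : Eqc f) (h' : Eqc g) (b : Lb f) (b' : Lb g) : Eqc (f * g) := by
  intro ρ ε hε
  obtain ⟨C, hC⟩ := b ρ
  obtain ⟨C', hC'⟩ := b' ρ
  have hA : 0 < |C| + |C'| + 1 := by positivity
  obtain ⟨δ, hδ, H⟩ := h ρ (ε / (|C| + |C'| + 1)) (by positivity)
  obtain ⟨δ', hδ', H'⟩ := h' ρ (ε / (|C| + |C'| + 1)) (by positivity)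
  refine ⟨min δ δ', lt_min hδ hδ', fun s hs x y hx hy hxy => ?_⟩
  have a1 := H s hs x y hx hy (hxy.trans (min_le_left _ _))
  have a2 := H' s hs x y hx hy (hxy.trans (min_le_right _ _))
  have b1 : |f (s, x)| ≤ |C| := (hC (s, x) hs hx).trans (le_abs_self _)
  have b2 : |g (s, y)| ≤ |C'| := (hC' (s, y) hs hy).trans (le_abs_self _)
  simp only [Pi.mul_apply]
  set η := ε / (|C| + |C'| + 1) with hη
  have hη0 : 0 < η := by positivity
  have e1 : f (s, x) * g (s, x) - f (s, y) * g (s, y) =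
      f (s, x) * (g (s, x) - g (s, y)) + (f (s, x) - f (s, y)) * g (s, y) := by ring
  have e2 : η * (|C| + |C'| + 1) = ε := by rw [hη]; field_simp
  calc |f (s, x) * g (s, x) - f (s, y) * g (s, y)|
      ≤ |f (s, x)| * |g (s, x) - g (s, y)| + |f (s, x) - f (s, y)| * |g (s, y)| := by
        rw [e1, ← abs_mul, ← abs_mul]; exact abs_add_le _ _
    _ ≤ |C| * η + η * |C'| :=
        add_le_add (mul_le_mul b1 a2 (abs_nonneg _) (abs_nonneg _))
          (mul_le_mul a1 b2 (abs_nonneg _) hη0.le)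
    _ ≤ ε := by nlinarith

theorem Eqc.Kmul (c : ℝ) (h : Eqc f) : Eqc (K c * f) := by
  intro ρ ε hε
  have hA : 0 < |c| + 1 := by positivity
  obtain ⟨δ, hδ, H⟩ := h ρ (ε / (|c| + 1)) (by positivity)
  refine ⟨δ, hδ, fun s hs x y hx hy hxy => ?_⟩
  have a1 := H s hs x y hx hy hxy
  show |c * f (s, x) - c * f (s, y)| ≤ ε
  set η := ε / (|c| + 1) with hη
  have hη0 : 0 < η := by positivity
  have e2 : η * (|c| + 1) = ε := by rw [hη]; field_simp
  rw [← mul_sub, abs_mul]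
  have := mul_le_mul_of_nonneg_left a1 (abs_nonneg c)
  nlinarith

theorem Eqc.ex (h : Eqc f) (b : Lb f) : Eqc (Ex f) := by
  intro ρ ε hε
  obtain ⟨C, hC⟩ := b ρ
  have hA : 0 < Real.exp C := Real.exp_pos C
  obtain ⟨δ, hδ, H⟩ := h ρ (ε / Real.exp C) (by positivity)
  refine ⟨δ, hδ, fun s hs x y hx hy hxy => ?_⟩
  have a1 := H s hs x y hx hy hxy
  have b1 : f (s, x) ≤ C := (le_abs_self _).trans (hC (s, x) hs hx)
  have b2 : f (s, y) ≤ C := (le_abs_self _).trans (hC (s, y) hs hy)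
  show |Real.exp (f (s, x)) - Real.exp (f (s, y))| ≤ ε
  refine (exp_lip b1 b2).trans ?_
  have := mul_le_mul_of_nonneg_left a1 hA.le
  rwa [mul_div_cancel₀ _ hA.ne'] at this

theorem Eqc.lb (h : Eqc f) (x : ℝ × ℝ) (b : ∃ C, ∀ s, 0 ≤ s → |f (s, x)| ≤ C) : Lb f := by
  intro ρ
  obtain ⟨C, hC⟩ := b
  set R := max ρ ‖x‖ with hR
  have hR0 : 0 ≤ R := (norm_nonneg x).trans (le_max_right _ _)
  obtain ⟨δ, hδ, H⟩ := h R 1 one_pos
  obtain ⟨N, hN⟩ := exists_nat_gt (2 * R / δ)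
  have hN0 : (0 : ℝ) < N := lt_of_le_of_lt (by positivity) hN
  refine ⟨C + N, fun p hp hq => ?_⟩
  obtain ⟨s, y⟩ := p
  have hy : ‖y‖ ≤ R := hq.trans (le_max_left _ _)
  have hx : ‖x‖ ≤ R := le_max_right _ _
  have hz : ∀ k : ℕ, k ≤ N → ‖x + ((k : ℝ) / N) • (y - x)‖ ≤ R := by
    intro k hk
    have k0 : (0 : ℝ) ≤ (k : ℝ) / N := by positivity
    have k1 : (k : ℝ) / N ≤ 1 := by
      rw [div_le_one hN0]; exact_mod_cast hk
    have e : x + ((k : ℝ) / N) • (y - x) = (1 - (k : ℝ) / N) • x + ((k : ℝ) / N) • y := by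
      rw [smul_sub, sub_smul, one_smul]; abel
    rw [e]
    refine (norm_add_le _ _).trans ?_
    rw [norm_smul, norm_smul, Real.norm_of_nonneg k0, Real.norm_of_nonneg (by linarith)]
    nlinarith [mul_le_mul_of_nonneg_left hx (show 0 ≤ 1 - (k : ℝ) / N by linarith),
      mul_le_mul_of_nonneg_left hy k0]
  have hstep : ∀ k : ℕ, k ≤ N → |f (s, x + ((k : ℝ) / N) • (y - x))| ≤ C + k := by
    intro k
    induction k with
    | zero => intro _; simpa using hC s hp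
    | succ k ih =>
      intro hk
      have a0 := ih (by omega)
      have hd : ‖(x + (((k + 1 : ℕ) : ℝ) / N) • (y - x)) - (x + ((k : ℝ) / N) • (y - x))‖ ≤ δ := by
        have e : (x + (((k + 1 : ℕ) : ℝ) / N) • (y - x)) - (x + ((k : ℝ) / N) • (y - x)) =
            ((1 : ℝ) / N) • (y - x) := by
          rw [add_sub_add_left_eq_sub, ← sub_smul]
          congr 1
          push_cast
          ring
        rw [e, norm_smul, Real.norm_of_nonneg (by positivity)]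
        have a2 : ‖y - x‖ ≤ 2 * R := (norm_sub_le _ _).trans (by linarith)
        rw [div_lt_iff₀ hδ] at hN
        rw [div_mul_eq_mul_div, one_mul, div_le_iff₀ hN0]
        nlinarith
      have a1 := H s hp _ _ (hz (k + 1) hk) (hz k (by omega)) hd
      have a3 := abs_sub_abs_le_abs_sub (f (s, x + (((k + 1 : ℕ) : ℝ) / N) • (y - x)))
        (f (s, x + ((k : ℝ) / N) • (y - x)))
      have a4 : ((k + 1 : ℕ) : ℝ) = k + 1 := by push_cast; ring
      linarith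
  have := hstep N le_rfl
  rwa [div_self hN0.ne', one_smul, add_sub_cancel] at this

theorem loc_of_cont (h : Continuous f) : Loc f := by
  intro s x r
  have hc : Continuous fun y : ℝ × ℝ => f (s, y) :=
    h.comp (continuous_const.prodMk continuous_id)
  exact (hc.continuousOn.integrableOn_compact (isCompact_closedBall x r)).mono_set
    Metric.ball_subset_closedBall

theorem Ig.loc (h : Ig f) : Loc f := fun s _ _ => (h s).integrableOn

theorem Loc.add (h : Loc f) (h' : Loc g) : Loc (f + g) := fun s x r => (h s x r).add (h' s x r)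

theorem Loc.Kmul (c : ℝ) (h : Loc f) : Loc (K c * f) := fun s x r => (h s x r).const_mul c

theorem Ib_add (h : Loc f) (h' : Loc g) (s : ℝ) (x : ℝ × ℝ) (r : ℝ) :
    Ib (f + g) s x r = Ib f s x r + Ib g s x r := integral_add (h s x r) (h' s x r)

theorem Ib_Kmul (c : ℝ) (f : Fx) (s : ℝ) (x : ℝ × ℝ) (r : ℝ) :
    Ib (K c * f) s x r = c * Ib f s x r := integral_const_mul c _

theorem Ib_K (c s : ℝ) (x : ℝ × ℝ) {r : ℝ} (hr : 0 ≤ r) : Ib (K c) s x r = c * (4 * r ^ 2) := by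
  show ∫ _ in Metric.ball x r, c = _
  rw [setIntegral_const, vol_ball x hr, smul_eq_mul, mul_comm]

theorem Ib_nonneg {s : ℝ} (h : ∀ y, 0 ≤ f (s, y)) (x : ℝ × ℝ) (r : ℝ) : 0 ≤ Ib f s x r :=
  integral_nonneg fun y => h y

theorem Ib_mono (h : Loc f) (h' : Loc g) {s : ℝ} {x : ℝ × ℝ} {r : ℝ}
    (e : ∀ y ∈ Metric.ball x r, y ≠ 0 → f (s, y) ≤ g (s, y)) : Ib f s x r ≤ Ib g s x r := by
  refine setIntegral_mono_on_ae (h s x r) (h' s x r) measurableSet_ball ?_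
  filter_upwards [ae_ne0] with y hy hb using e y hb hy

theorem Ib_sub_ball (h : Loc f) {s : ℝ} (h0 : ∀ y, 0 ≤ f (s, y)) {x y : ℝ × ℝ} {r R : ℝ}
    (e : Metric.ball x r ⊆ Metric.ball y R) : Ib f s x r ≤ Ib f s y R :=
  setIntegral_mono_set (h s y R) (Eventually.of_forall fun z => h0 z) e.eventuallyLE

theorem Ib_le_In (h : Ig f) {s : ℝ} (h0 : ∀ y, 0 ≤ f (s, y)) (x : ℝ × ℝ) (r : ℝ) :
    Ib f s x r ≤ In f s :=
  setIntegral_le_integral (h s) (Eventually.of_forall fun z => h0 z)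

theorem Ib_cs (hg : Loc g) (hh : Loc h) {s : ℝ} (g0 : ∀ y, 0 ≤ g (s, y)) (h0 : ∀ y, 0 ≤ h (s, y))
    (H : ∀ y, f (s, y) ^ 2 ≤ g (s, y) * h (s, y)) (x : ℝ × ℝ) (r : ℝ) :
    |Ib f s x r| ≤ √(Ib g s x r) * √(Ib h s x r) :=
  cs_int (μ := volume.restrict (Metric.ball x r)) (F := fun y => f (s, y))
    (A := fun y => g (s, y)) (B := fun y => h (s, y)) (hg s x r) (hh s x r) g0 h0 H

theorem Ub.ilb (h : Ub (In f)) (hi : Ig f) (h0 : ∀ p, 0 ≤ f p) : Ilb f := by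
  obtain ⟨C, hC⟩ := h
  exact fun ρ => ⟨C, fun s hs => (Ib_le_In hi (fun _ => h0 _) 0 ρ).trans (hC s hs)⟩

theorem Lb.ilb (h : Lb f) (hl : Loc f) : Ilb f := by
  intro ρ
  obtain ⟨C, hC⟩ := h ρ
  refine ⟨Ib (K C) 0 0 ρ, fun s hs => ?_⟩
  have : Ib f s 0 ρ ≤ Ib (K C) s 0 ρ := by
    refine Ib_mono hl (loc_of_cont continuous_const) fun y hy _ => ?_
    exact (le_abs_self _).trans (hC (s, y) hs (by simpa using (mem_ball_zero_iff.1 hy).le))
  exact this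

theorem Ilb.add (h : Ilb f) (h' : Ilb g) (l : Loc f) (l' : Loc g) : Ilb (f + g) := by
  intro ρ
  obtain ⟨C, hC⟩ := h ρ
  obtain ⟨C', hC'⟩ := h' ρ
  refine ⟨C + C', fun s hs => ?_⟩
  rw [Ib_add l l']
  exact add_le_add (hC s hs) (hC' s hs)

theorem Ilb.Kmul {c : ℝ} (hc : 0 ≤ c) (h : Ilb f) : Ilb (K c * f) := by
  intro ρ
  obtain ⟨C, hC⟩ := h ρ
  refine ⟨c * C, fun s hs => ?_⟩
  rw [Ib_Kmul]
  exact mul_le_mul_of_nonneg_left (hC s hs) hc

theorem Ilb.mono (h : Ilb g) (l : Loc f) (l' : Loc g)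
    (e : ∀ ρ : ℝ, ∃ C : ℝ, 0 ≤ C ∧ ∀ p : X, 0 ≤ p.1 → ‖p.2‖ ≤ ρ → f p ≤ C * g p) : Ilb f := by
  intro ρ
  obtain ⟨C, hC⟩ := h ρ
  obtain ⟨A, hA, H⟩ := e ρ
  refine ⟨A * C, fun s hs => ?_⟩
  have : Ib f s 0 ρ ≤ Ib (K A * g) s 0 ρ :=
    Ib_mono l (l'.Kmul A) fun y hy _ => H (s, y) hs (mem_ball_zero_iff.1 hy).le
  rw [Ib_Kmul] at this
  exact this.trans (mul_le_mul_of_nonneg_left (hC s hs) hA)

theorem Lb.sq (h : Lb f) (l : Loc f) : Sq f := by
  intro ρ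
  obtain ⟨C, hC⟩ := h (ρ + 1)
  refine ⟨4 * |C|, fun s hs x hx r hr hr1 => ?_⟩
  have a1 : Ib f s x r ≤ Ib (K |C|) s x r := by
    refine Ib_mono l (loc_of_cont continuous_const) fun y hy _ => ?_
    exact (le_abs_self _).trans ((hC (s, y) hs (ball_norm hx hr1 hy).le).trans (le_abs_self _))
  rw [Ib_K _ _ _ hr.le] at a1
  have a2 := le_sqrt hr hr1
  have a3 : r ^ 2 ≤ √r := by nlinarith
  have a4 := mul_le_mul_of_nonneg_left a3 (abs_nonneg C)
  linarith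

theorem Ilb.sq (h : Ilb (f * f)) (hf : Continuous f) : Sq f := by
  intro ρ
  obtain ⟨C, hC⟩ := h (ρ + 1)
  refine ⟨2 * √C, fun s hs x hx r hr hr1 => ?_⟩
  have l : Loc (f * f) := loc_of_cont (hf.mul hf)
  have f0 : ∀ y, 0 ≤ (f * f) (s, y) := fun y => mul_self_nonneg _
  have a1 : |Ib f s x r| ≤ √(Ib (f * f) s x r) * √(Ib (K 1) s x r) :=
    Ib_cs l (loc_of_cont continuous_const) f0 (fun _ => zero_le_one)
      (fun y => by
        show f (s, y) ^ 2 ≤ f (s, y) * f (s, y) * 1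
        rw [mul_one, pow_two]) x r
  have a2 : Ib (f * f) s x r ≤ C := by
    refine (Ib_sub_ball l f0 (y := 0) (R := ρ + 1) fun y hy => ?_).trans (hC s hs)
    exact mem_ball_zero_iff.2 (ball_norm hx hr1 hy)
  have a3 : √(Ib (K 1) s x r) = 2 * r := by
    rw [Ib_K _ _ _ hr.le, show (1 : ℝ) * (4 * r ^ 2) = (2 * r) ^ 2 by ring,
      Real.sqrt_sq (by linarith)]
  rw [a3] at a1
  have a4 : √(Ib (f * f) s x r) ≤ √C := Real.sqrt_le_sqrt a2
  have a5 := le_sqrt hr hr1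
  have a6 : √(Ib (f * f) s x r) * (2 * r) ≤ √C * (2 * √r) :=
    mul_le_mul a4 (by linarith) (by linarith) (Real.sqrt_nonneg _)
  have a7 := le_abs_self (Ib f s x r)
  linarith

theorem Sq.add (h : Sq f) (h' : Sq g) (l : Loc f) (l' : Loc g) : Sq (f + g) := by
  intro ρ
  obtain ⟨C, hC⟩ := h ρ
  obtain ⟨C', hC'⟩ := h' ρ
  refine ⟨C + C', fun s hs x hx r hr hr1 => ?_⟩
  rw [Ib_add l l', add_mul]
  exact add_le_add (hC s hs x hx r hr hr1) (hC' s hs x hx r hr hr1)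

theorem Sq.Kmul {c : ℝ} (hc : 0 ≤ c) (h : Sq f) : Sq (K c * f) := by
  intro ρ
  obtain ⟨C, hC⟩ := h ρ
  refine ⟨c * C, fun s hs x hx r hr hr1 => ?_⟩
  rw [Ib_Kmul, mul_assoc]
  exact mul_le_mul_of_nonneg_left (hC s hs x hx r hr hr1) hc

theorem Sq.mono (h : Sq g) (l : Loc f) (l' : Loc g) (e : ∀ ρ : ℝ, ∃ C : ℝ, 0 ≤ C ∧
    ∀ p : X, 0 ≤ p.1 → ‖p.2‖ ≤ ρ → p.2 ≠ 0 → f p ≤ C * g p) : Sq f := by
  intro ρ
  obtain ⟨C, hC⟩ := h ρ
  obtain ⟨A, hA, H⟩ := e (ρ + 1)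
  refine ⟨A * C, fun s hs x hx r hr hr1 => ?_⟩
  have : Ib f s x r ≤ Ib (K A * g) s x r :=
    Ib_mono l (l'.Kmul A) fun y hy hy0 => H (s, y) hs (ball_norm hx hr1 hy).le hy0
  rw [Ib_Kmul] at this
  rw [mul_assoc]
  exact this.trans (mul_le_mul_of_nonneg_left (hC s hs x hx r hr hr1) hA)

theorem Dec.mono (h : Dec g) (l : Loc f) (l' : Loc g) {C : ℝ} (hC : 0 ≤ C)
    (e : ∀ p : X, 0 ≤ p.1 → f p ≤ C * g p) : Dec f := by
  intro ρ
  obtain ⟨A, θ, h0, h1, H⟩ := h ρ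
  refine ⟨C * A, θ, h0, h1, fun s hs x hx n => ?_⟩
  have : Ib f s x ((1 / 2) ^ n) ≤ Ib (K C * g) s x ((1 / 2) ^ n) :=
    Ib_mono l (l'.Kmul C) fun y _ _ => e (s, y) hs
  rw [Ib_Kmul] at this
  rw [mul_assoc]
  exact this.trans (mul_le_mul_of_nonneg_left (H s hs x hx n) hC)

end Pool.Agent.P.MP_2cea5e_gt.Se
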