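import Pool.Agent.P.MP_2cea5e_gt.Se.ApiS

/-!
Integrals over the plane.
-/

open scoped ContDiff Topology
open MeasureTheory Set Filter

noncomputable section

namespace Pool.Agent.P.MP_2cea5e_gt.Se

variable {f g h k : Fx} {a b c m : ℤ} {p : X} {s : ℝ}

namespace ApiIP

theorem jb_time (s : ℝ) (ξ : ℝ × ℝ) : jb (s, ξ) = jb (0, ξ) := by
  simp only [jb, rr_apply, r2_apply]

theorem zpow_le (p : X) (h : a ≤ b) : jb p ^ a ≤ jb p ^ b := zpow_le_zpow_right₀ (one_le_jb p) h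

theorem jb_two (p : X) : jb p ^ (-2 : ℤ) = (rr p)⁻¹ := by
  rw [← jb_sq p, zpow_neg]; norm_cast

/-- A symbol of order at most `-2` is bounded by `C / rr`. -/
theorem bd_two (hf : Sy m f) (h : m ≤ -2) (s : ℝ) :
    ∃ C : ℝ, 0 ≤ C ∧ ∀ x y : ℝ, |f (s, x, y)| ≤ C * (1 + (x ^ 2 + y ^ 2))⁻¹ := by
  obtain ⟨C, hC⟩ := (hf.mono h).oo |s|
  refine ⟨|C|, abs_nonneg C, fun x y => (hC (s, x, y) le_rfl).trans ?_⟩
  rw [jb_two, rr_apply, r2_apply]
  exact mul_le_mul_of_nonneg_right (le_abs_self C) (by positivity)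

theorem int_line1 (hf : Sy m f) (h : m ≤ -2) (s y : ℝ) : Integrable fun x : ℝ => f (s, x, y) := by
  obtain ⟨C, hC0, hC⟩ := bd_two hf h s
  have hc : Continuous fun x : ℝ => f (s, x, y) := hf.sm.cont.comp (by fun_prop)
  refine (integrable_inv_one_add_sq.const_mul C).mono' hc.aestronglyMeasurable
    (Eventually.of_forall fun x => (hC x y).trans ?_)
  refine mul_le_mul_of_nonneg_left (inv_anti₀ (by positivity) ?_) hC0
  nlinarith [sq_nonneg y]

theorem int_line2 (hf : Sy m f) (h : m ≤ -2) (s x : ℝ) : Integrable fun y : ℝ => f (s, x, y) := by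
  obtain ⟨C, hC0, hC⟩ := bd_two hf h s
  have hc : Continuous fun y : ℝ => f (s, x, y) := hf.sm.cont.comp (by fun_prop)
  refine (integrable_inv_one_add_sq.const_mul C).mono' hc.aestronglyMeasurable
    (Eventually.of_forall fun y => (hC x y).trans ?_)
  refine mul_le_mul_of_nonneg_left (inv_anti₀ (by positivity) ?_) hC0
  nlinarith [sq_nonneg x]

theorem der1 (hf : Sm f) (s x y : ℝ) :
    HasDerivAt (fun x : ℝ => f (s, x, y)) (D e1 f (s, x, y)) x := by
  have h1 : HasDerivAt (fun x : ℝ => ((s, x, y) : X)) e1 x :=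
    (hasDerivAt_const x s).prodMk ((hasDerivAt_id x).prodMk (hasDerivAt_const x y))
  exact (hf.diff (s, x, y)).hasFDerivAt.comp_hasDerivAt x h1

theorem der2 (hf : Sm f) (s x y : ℝ) :
    HasDerivAt (fun y : ℝ => f (s, x, y)) (D e2 f (s, x, y)) y := by
  have h1 : HasDerivAt (fun y : ℝ => ((s, x, y) : X)) e2 y :=
    (hasDerivAt_const y s).prodMk ((hasDerivAt_const y x).prodMk (hasDerivAt_id y))
  exact (hf.diff (s, x, y)).hasFDerivAt.comp_hasDerivAt y h1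

theorem le_sqrt_mul {x a b : ℝ} (ha : 0 ≤ a) (hb : 0 ≤ b)
    (h : ∀ e : ℝ, 0 < e → x ≤ (e * a + b / e) / 2) : x ≤ √a * √b := by
  have key : ∀ δ : ℝ, 0 < δ → x ≤ √(a + δ) * √(b + δ) := by
    intro δ hδ
    have hu : 0 < √(a + δ) := Real.sqrt_pos.2 (by linarith)
    have hv : 0 < √(b + δ) := Real.sqrt_pos.2 (by linarith)
    have hu2 : √(a + δ) ^ 2 = a + δ := Real.sq_sqrt (by linarith)
    have hv2 : √(b + δ) ^ 2 = b + δ := Real.sq_sqrt (by linarith)
    generalize √(a + δ) = u at *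
    generalize √(b + δ) = v at *
    have h1 := h (v / u) (by positivity)
    have h2 : v / u * a ≤ u * v := by
      rw [div_mul_eq_mul_div, div_le_iff₀ hu]; nlinarith
    have h3 : b / (v / u) ≤ u * v := by
      rw [div_div_eq_mul_div, div_le_iff₀ hv]; nlinarith
    linarith
  have hc : Continuous fun δ : ℝ => √(a + δ) * √(b + δ) := by fun_prop
  have ht : Tendsto (fun δ : ℝ => √(a + δ) * √(b + δ)) (𝓝[>] 0) (𝓝 (√a * √b)) := by
    have := hc.tendsto 0
    simp only [add_zero] at this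
    exact this.mono_left nhdsWithin_le_nhds
  exact ge_of_tendsto ht (eventually_nhdsWithin_of_forall fun δ hδ => key δ hδ)

end ApiIP

open ApiIP

/-! ### Integrals -/

theorem ig_jb : Ig fun p => jb p ^ (-3 : ℤ) := by
  intro s
  have h3 : ((Module.finrank ℝ (ℝ × ℝ) : ℕ) : ℝ) < 3 := by simp; norm_num
  have hi := integrable_rpow_neg_one_add_norm_sq (E := ℝ × ℝ) (μ := volume) h3
  have hc : Continuous fun x : ℝ × ℝ => jb (s, x) ^ (-3 : ℤ) :=
    (cont_slice cont_jb s).zpow₀ _ fun x => Or.inl (jb_pos _).ne'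
  refine hi.mono' hc.aestronglyMeasurable (Eventually.of_forall fun x => ?_)
  have h0 : (0 : ℝ) < 1 + ‖x‖ ^ 2 := by positivity
  have h1 : 1 + ‖x‖ ^ 2 ≤ rr (s, x) := by
    rw [rr_apply]; linarith [norm_sq_le (s, x)]
  rw [Real.norm_eq_abs, abs_of_pos (zpow_pos (jb_pos _) _)]
  have h2 : jb (s, x) ^ (-3 : ℤ) = rr (s, x) ^ (-(3 : ℝ) / 2) := by
    rw [jb, Real.sqrt_eq_rpow, ← Real.rpow_intCast, ← Real.rpow_mul (rr_pos _).le]
    norm_num
  rw [h2]
  exact Real.rpow_le_rpow_of_nonpos h0 h1 (by norm_num)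

theorem Sy.dom (hf : Sy m f) (h : m ≤ -3) : Dom f := by
  intro M
  obtain ⟨C, hC⟩ := (hf.mono h).oo M
  refine ⟨fun ξ => C * jb (0, ξ) ^ (-3 : ℤ), (ig_jb 0).const_mul C, fun s ξ hs => ?_⟩
  have h1 := hC (s, ξ) hs
  rwa [jb_time s ξ] at h1

theorem Sy.ig (hf : Sy m f) (h : m ≤ -3) : Ig f := fun s =>
  (hf.dom h).integrable hf.sm.cont s
theorem Ig.add (hf : Ig f) (hg : Ig g) : Ig (f + g) := fun s => (hf s).add (hg s)
theorem Ig.sub (hf : Ig f) (hg : Ig g) : Ig (f - g) := fun s => (hf s).sub (hg s)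
theorem Ig.neg (hf : Ig f) : Ig (-f) := fun s => (hf s).neg
theorem Ig.Kmul (c : ℝ) (hf : Ig f) : Ig (K c * f) := fun s => (hf s).const_mul c
theorem Ig.ab (hf : Ig f) : Ig (Ab f) := fun s => (hf s).abs
theorem In_add (hf : Ig f) (hg : Ig g) (s : ℝ) : In (f + g) s = In f s + In g s :=
  integral_add (hf s) (hg s)
theorem In_sub (hf : Ig f) (hg : Ig g) (s : ℝ) : In (f - g) s = In f s - In g s :=
  integral_sub (hf s) (hg s)
theorem In_neg (f : Fx) (s : ℝ) : In (-f) s = -In f s := integral_neg _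
theorem In_zero (s : ℝ) : In 0 s = 0 := by simp [In]
theorem In_Kmul (c : ℝ) (f : Fx) (s : ℝ) : In (K c * f) s = c * In f s :=
  integral_const_mul c _
theorem In_Tm (τ : ℝ → ℝ) (f : Fx) (s : ℝ) : In (Tm τ * f) s = τ s * In f s :=
  integral_const_mul (τ s) _
theorem In_mono (hf : Ig f) (hg : Ig g) (h : ∀ x, f (s, x) ≤ g (s, x)) : In f s ≤ In g s :=
  integral_mono (hf s) (hg s) h
theorem In_nonneg (h : ∀ x, 0 ≤ f (s, x)) : 0 ≤ In f s := integral_nonneg h
theorem In_abs (hg : Ig g) (h : ∀ x, |f (s, x)| ≤ g (s, x)) : |In f s| ≤ In g s :=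
  norm_integral_le_of_norm_le (f := fun x : ℝ × ℝ => f (s, x)) (hg s) (Eventually.of_forall h)
/-- Functions of the space variable only. -/
theorem time_indep (hf : Sm f) (h : D e0 f = 0) (s : ℝ) (x : ℝ × ℝ) : f (s, x) = f (0, x) := by
  refine is_const_of_deriv_eq_zero (f := fun s : ℝ => f (s, x))
    (fun r => (hasDerivAt_time hf r x).differentiableAt) (fun r => ?_) s 0
  rw [(hasDerivAt_time hf r x).deriv, h]; rfl
theorem In_const (hf : Sm f) (h : D e0 f = 0) (s : ℝ) : In f s = In f 0 := by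
  simp only [In, time_indep hf h s]
theorem In_sg (s : ℝ) : In sg s = s0 := In_const sm_sg D0_sg s
theorem s0_pos : 0 < s0 := by
  have hs : Function.support (fun x : ℝ × ℝ => sg (0, x)) = univ :=
    eq_univ_of_forall fun x => (sg_pos _).ne'
  refine (integral_pos_iff_support_of_nonneg (fun x => (sg_pos _).le)
    (sy_sg.ig (by norm_num) 0)).2 ?_
  rw [hs]
  exact isOpen_univ.measure_pos _ univ_nonempty
/-- The Cauchy-Schwarz inequality. -/
theorem cs_int {μ : Measure (ℝ × ℝ)} {F A B : ℝ × ℝ → ℝ} (hA : Integrable A μ)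
    (hB : Integrable B μ) (hA0 : ∀ x, 0 ≤ A x) (hB0 : ∀ x, 0 ≤ B x)
    (h : ∀ x, F x ^ 2 ≤ A x * B x) : |∫ x, F x ∂μ| ≤ √(∫ x, A x ∂μ) * √(∫ x, B x ∂μ) := by
  refine le_sqrt_mul (integral_nonneg hA0) (integral_nonneg hB0) fun e he => ?_
  have hi : Integrable (fun x => (e * A x + B x / e) / 2) μ :=
    ((hA.const_mul e).add (hB.div_const e)).div_const 2
  have hb : ∀ x, ‖F x‖ ≤ (e * A x + B x / e) / 2 := fun x => by
    have h1 : 0 ≤ e * A x := mul_nonneg he.le (hA0 x)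
    have h2 : 0 ≤ B x / e := div_nonneg (hB0 x) he.le
    have h3 : e * A x * (B x / e) = A x * B x := by field_simp
    refine abs_le_of_sq_le_sq ?_ (by linarith)
    nlinarith [h x, sq_nonneg (e * A x - B x / e)]
  refine (norm_integral_le_of_norm_le hi (Eventually.of_forall hb)).trans (le_of_eq ?_)
  rw [integral_div, integral_add (hA.const_mul e) (hB.div_const e), integral_const_mul,
    integral_div]
theorem In_cs (hg : Ig g) (hh : Ig h) (g0 : ∀ x, 0 ≤ g (s, x)) (h0 : ∀ x, 0 ≤ h (s, x))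
    (H : ∀ x, f (s, x) ^ 2 ≤ g (s, x) * h (s, x)) : |In f s| ≤ √(In g s) * √(In h s) :=
  cs_int (hg s) (hh s) g0 h0 H
theorem Sy.hasDerivAt (hf : Sy m f) (h : m ≤ -3) (s : ℝ) :
    HasDerivAt (In f) (In (D e0 f) s) s :=
  Gron.hasDerivAt_int hf.sm (hf.dom h) (hf.D0.dom h) s
theorem Sy.ibp1 (hf : Sy m f) (h : m ≤ -2) (s : ℝ) : In (D e1 f) s = 0 := by
  have hi : Integrable (fun x : ℝ × ℝ => D e1 f (s, x)) (volume.prod volume) :=
    hf.D1.ig (by omega) s
  have e : In (D e1 f) s = ∫ y : ℝ, ∫ x : ℝ, D e1 f (s, x, y) := integral_prod_symm _ hi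
  have z : ∀ y : ℝ, ∫ x : ℝ, D e1 f (s, x, y) = 0 := fun y =>
    integral_eq_zero_of_hasDerivAt_of_integrable (fun x => der1 hf.sm s x y)
      (int_line1 hf.D1 (by omega) s y) (int_line1 hf h s y)
  simp [e, z]
theorem Sy.ibp2 (hf : Sy m f) (h : m ≤ -2) (s : ℝ) : In (D e2 f) s = 0 := by
  have hi : Integrable (fun x : ℝ × ℝ => D e2 f (s, x)) (volume.prod volume) :=
    hf.D2.ig (by omega) s
  have e : In (D e2 f) s = ∫ x : ℝ, ∫ y : ℝ, D e2 f (s, x, y) := integral_prod _ hi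
  have z : ∀ x : ℝ, ∫ y : ℝ, D e2 f (s, x, y) = 0 := fun x =>
    integral_eq_zero_of_hasDerivAt_of_integrable (fun y => der2 hf.sm s x y)
      (int_line2 hf.D2 (by omega) s x) (int_line2 hf h s x)
  simp [e, z]
/-- The integral of a divergence vanishes. -/
theorem In_div (hf : Sy m f) (hg : Sy m g) (h : m ≤ -2) (s : ℝ) :
    In (D e1 f + D e2 g) s = 0 := by
  rw [In_add (hf.D1.ig (by omega)) (hg.D2.ig (by omega)), hf.ibp1 h, hg.ibp2 h, add_zero]
theorem ibp_DD (hf : H2 a f) (hg : H1 b g) (hh : Sy c h) (H : a + b + c ≤ -2) (s : ℝ) :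
    In (h * DD f g) s = -In (BB f g h) s := by
  have y1 : Sy (c + (a + b)) (IBP.Y1 f g h) :=
    hh.mul ((hf.d22.mul hg.d1).sub (hf.d12.mul hg.d2))
  have y2 : Sy (c + (a + b)) (IBP.Y2 f g h) :=
    hh.mul ((hf.d11.mul hg.d2).sub (hf.d12.mul hg.d1))
  have z := In_div y1 y2 (by omega) s
  rw [← IBP.dv_eq hf.sm hg.sm hh.sm, dv, In_add ((hh.mul (hf.DD hg.h2)).ig (by omega))
    ((hf.BB hg hh.h1).ig (by omega))] at z
  linarith
theorem ibp_Lp (hg : H1 b g) (hh : Sy c h) (H : b + c ≤ -2) (s : ℝ) :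
    In (h * Lp g) s = -In (ip2 g h) s := by
  have z := In_div (hh.mul hg.d1) (hh.mul hg.d2) (by omega) s
  have e : D e1 (h * D e1 g) + D e2 (h * D e2 g) = h * Lp g + ip2 g h := by
    rw [D_mul _ hh.sm hg.d1.sm, D_mul _ hh.sm hg.d2.sm, Lp, ip2]; ring
  rw [e, In_add ((hh.mul hg.h2.Lp).ig (by omega)) ((hg.ip2 hh.h1).ig (by omega))] at z
  linarith
theorem In_Lp (hg : H1 b g) (H : b ≤ -2) (s : ℝ) : In (Lp g) s = 0 :=
  In_div hg.d1 hg.d2 H s
theorem In_Jc (hf : Sy a f) (hg : H1 b g) (H : a + b ≤ -2) (s : ℝ) : In (Jc f g) s = 0 := by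
  have z := In_div (hf.mul hg.d2) (hf.mul hg.d1).neg H s
  have e : D e1 (f * D e2 g) + D e2 (-(f * D e1 g)) = Jc f g := by
    rw [D_neg, D_mul _ hf.sm hg.d2.sm, D_mul _ hf.sm hg.d1.sm, D_comm e2 e1 hg.sm, Jc]; ring
  rwa [e] at z
theorem In_W (hf : H1 (-1) f) (s : ℝ) : In (W f) s = 0 := by
  rw [W_eq_Jc hf.sm]
  exact In_Jc hf.d1 hf.d2.h1 (by norm_num) s
theorem ibp_Jc (hf : Sy a f) (hg : Sy b g) (hh : H1 c h) (H : a + b + c ≤ -2) (s : ℝ) :
    In (f * Jc g h) s = In (g * Jc h f) s := by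
  have z := In_Jc (hf.mul hg) hh H s
  have e : Jc (f * g) h = f * Jc g h - g * Jc h f := by
    rw [Jc, Jc, Jc, D_mul _ hf.sm hg.sm, D_mul _ hf.sm hg.sm]; ring
  rw [e, In_sub ((hf.mul (hg.h1.Jc hh)).ig (by omega))
    ((hg.mul (hh.Jc hf.h1)).ig (by omega))] at z
  linarith
theorem Clk.gron {t τ Y : ℝ → ℝ} {T C : ℝ} (h : Clk t τ T) (hC : 0 ≤ C)
    (hY : ∀ s, 0 ≤ s → ∃ Y', HasDerivAt Y Y' s ∧ Y' ≤ τ s * (C * Y s)) : Ub Y := by
  have hJ : ∀ s, 0 ≤ s → ∃ J', HasDerivAt (fun s => Y s * Real.exp (-(C * t s))) J' s ∧ J' ≤ 0 := by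
    intro s hs
    obtain ⟨Y', h1, h2⟩ := hY s hs
    refine ⟨_, h1.mul ((h.dt s).const_mul C).neg.exp, ?_⟩
    have h4 := Real.exp_pos (-(C * t s))
    show Y' * Real.exp (-(C * t s)) + Y s * (Real.exp (-(C * t s)) * -(C * τ s)) ≤ 0
    nlinarith [mul_le_mul_of_nonneg_right h2 h4.le]
  have hanti : AntitoneOn (fun s => Y s * Real.exp (-(C * t s))) (Ici 0) := by
    refine antitoneOn_of_deriv_nonpos (convex_Ici 0) (fun s hs => ?_) (fun s hs => ?_)
      fun s hs => ?_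
    · exact (hJ s hs).choose_spec.1.continuousAt.continuousWithinAt
    · exact (hJ s (interior_subset hs)).choose_spec.1.differentiableAt.differentiableWithinAt
    · obtain ⟨J', h1, h2⟩ := hJ s (interior_subset hs)
      rwa [h1.deriv]
  refine ⟨|Y 0| * Real.exp (C * T), fun s hs => ?_⟩
  have h5 : Y s * Real.exp (-(C * t s)) ≤ Y 0 * Real.exp (-(C * t 0)) :=
    hanti (mem_Ici.2 le_rfl) hs hs
  have h6 : Y s = Y s * Real.exp (-(C * t s)) * Real.exp (C * t s) := by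
    rw [mul_assoc, ← Real.exp_add]; simp
  have h7 : Real.exp (-(C * t 0)) * Real.exp (C * t s) ≤ Real.exp (C * T) := by
    rw [← Real.exp_add]
    apply Real.exp_le_exp.mpr
    nlinarith [mul_le_mul_of_nonneg_left (h.le s) hC, mul_nonneg hC (h.nn 0)]
  calc Y s = Y s * Real.exp (-(C * t s)) * Real.exp (C * t s) := h6
    _ ≤ Y 0 * Real.exp (-(C * t 0)) * Real.exp (C * t s) :=
        mul_le_mul_of_nonneg_right h5 (Real.exp_pos _).le
    _ = Y 0 * (Real.exp (-(C * t 0)) * Real.exp (C * t s)) := by ring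
    _ ≤ |Y 0| * (Real.exp (-(C * t 0)) * Real.exp (C * t s)) :=
        mul_le_mul_of_nonneg_right (le_abs_self _) (by positivity)
    _ ≤ |Y 0| * Real.exp (C * T) := mul_le_mul_of_nonneg_left h7 (abs_nonneg _)

end Pool.Agent.P.MP_2cea5e_gt.Se
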