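import Pool.Agent.P.MP_2cea5e_gt.Se.ApiF

/-!
Averages at scale `r`.
-/

open scoped ContDiff Topology
open MeasureTheory Set Filter

noncomputable section

namespace Pool.Agent.P.MP_2cea5e_gt.Se

variable {k k' F G : Fx} {s R : ℝ}

namespace ApiKP

theorem D_of_line {f : Fx} (hf : Sm f) {q v : X} {c : ℝ}
    (h : HasDerivAt (fun r : ℝ => f (q + r • v)) c 0) : D v f q = c := by
  have h1 := hasDerivAt_line hf q v 0
  rw [zero_smul, add_zero] at h1
  exact h1.unique h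

/-- Chain rule along a line. -/
theorem D_aff (hF : Sm F) {a : X → X} (ha : ContDiff ℝ ∞ a) {q v w : X}
    (h : ∀ r : ℝ, a (q + r • v) = a q + r • w) : D v (fun x => F (a x)) q = D w F (a q) := by
  apply D_of_line (ContDiff.comp hF ha)
  have h1 := hasDerivAt_line hF (a q) w 0
  rw [zero_smul, add_zero] at h1
  simp only [Function.comp_def, h]
  exact h1

theorem cpt (h : Ker R k) (A : ℝ × ℝ → ℝ) :
    HasCompactSupport fun y : ℝ × ℝ => A y * k (0, y) := by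
  refine HasCompactSupport.intro (isCompact_closedBall (0 : ℝ × ℝ) R) fun y hy => ?_
  rw [mem_closedBall_zero_iff, not_le] at hy
  rw [h.supp (0, y) hy.le, mul_zero]

theorem ig (h : Ker R k) (hF : Continuous F) (s : ℝ) (p : X) :
    Integrable fun y : ℝ × ℝ => F (s, p.2 + p.1 • y) * k (0, y) := by
  refine Continuous.integrable_of_hasCompactSupport ?_ (cpt h _)
  have h1 : Continuous fun y : ℝ × ℝ => ((s, p.2 + p.1 • y) : X) := by fun_prop
  have h2 : Continuous fun y : ℝ × ℝ => ((0, y) : X) := by fun_prop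
  exact (hF.comp h1).mul (h.sm.cont.comp h2)

/-- The kernel read at time zero. -/
def k0 (k : Fx) : Fx := fun q => k (0, q.2)

theorem sm_k0 (h : Sm k) : Sm (k0 k) := by
  have : ContDiff ℝ ∞ fun q : X => ((0, q.2) : X) := by fun_prop
  exact ContDiff.comp h this

theorem cs_k0 (h : Ker R k) : Cs2 (k0 k) :=
  ⟨sm_k0 h.sm, fun _ => ⟨R, fun p _ hp => h.supp (0, p.2) hp⟩⟩

theorem D_k0 (h : Sm k) (v : X) (y : ℝ × ℝ) : D v (k0 k) (0, y) = D (0, v.2) k (0, y) := by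
  have ha : ContDiff ℝ ∞ fun q : X => ((0, q.2) : X) := by fun_prop
  exact D_aff h ha (q := (0, y)) (v := v) (w := (0, v.2)) fun r => by ext <;> simp

theorem D_zero_dir (f : Fx) (p : X) : D (0 : X) f p = 0 := by simp [D]

theorem sm_mo (h : Ker R k) (hF : Sm F) (s : ℝ) : Sm (mo k F s) := by
  have hk := h.sm
  have hg : ContDiff ℝ ∞ fun q : X × (ℝ × ℝ) =>
      F (s, q.1.2 + q.1.1 • (-q.2)) * k (0, -q.2) := by
    have h1 : ContDiff ℝ ∞ fun q : X × (ℝ × ℝ) => ((s, q.1.2 + q.1.1 • (-q.2)) : X) := by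
      fun_prop
    have h2 : ContDiff ℝ ∞ fun q : X × (ℝ × ℝ) => ((0, -q.2) : X) := by fun_prop
    exact (ContDiff.comp hF h1).mul (ContDiff.comp hk h2)
  have H := contDiffOn_convolution_right_with_param_comp (𝕜 := ℝ) (n := (⊤ : ℕ∞))
    (μ := (volume : Measure (ℝ × ℝ))) (ContinuousLinearMap.mul ℝ ℝ) (s := (univ : Set X))
    (v := fun _ => (0 : ℝ × ℝ)) contDiffOn_const (f := fun _ => (1 : ℝ))
    (g := fun (p : X) (y : ℝ × ℝ) => F (s, p.2 + p.1 • (-y)) * k (0, -y))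
    (k := Metric.closedBall 0 R) isOpen_univ (isCompact_closedBall _ _)
    (fun p y _ hy => by
      rw [mem_closedBall_zero_iff, not_le] at hy
      rw [h.supp (0, -y) (by simpa using hy.le), mul_zero])
    (locallyIntegrable_const 1) hg.contDiffOn
  rw [contDiffOn_univ] at H
  convert H using 1
  funext p
  simp [mo, convolution_def]

/-- The derivative of an average in an arbitrary direction. -/
theorem D_mo (h : Ker R k) (hF : Sm F) (s : ℝ) (v p : X) :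
    D v (mo k F s) p =
      ∫ y : ℝ × ℝ, D (0, v.2 + v.1 • y) F (s, p.2 + p.1 • y) * k (0, y) := by
  apply D_of_line (sm_mo h hF s)
  have ha : ContDiff ℝ ∞ fun q : X =>
      ((s, p.2 + q.1 • v.2 + (p.1 + q.1 * v.1) • q.2) : X) := by fun_prop
  have hA : Sm fun q : X => F (s, p.2 + q.1 • v.2 + (p.1 + q.1 * v.1) • q.2) :=
    ContDiff.comp hF ha
  have hc := Cs2.mul' hA (cs_k0 h)
  have H := Sy.hasDerivAt (hc.sy (-3)) le_rfl 0
  convert H using 1
  · funext r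
    simp [mo, In, k0]
  · unfold In
    congr 1
    funext y
    rw [D_mul e0 hA (sm_k0 h.sm)]
    simp only [Pi.add_apply, Pi.mul_apply]
    rw [D_k0 h.sm, D_aff hF ha (q := (0, y)) (v := e0) (w := (0, v.2 + v.1 • y))]
    · have : ((0, e0.2) : X) = 0 := rfl
      rw [this, D_zero_dir]
      simp [k0]
    · intro r
      ext <;> simp [e0] <;> ring

theorem ibp (h : Ker R k) (hF : Sm F) (s : ℝ) (p : X) {e : X} (he : e.1 = 0)
    (H : ∀ g : Fx, Cs2 g → In (D e g) 0 = 0) (h' : Ker R (D e k)) :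
    p.1 * mo k (D e F) s p = -mo (D e k) F s p := by
  have ha : ContDiff ℝ ∞ fun q : X => ((s, p.2 + p.1 • q.2) : X) := by fun_prop
  have hA : Sm fun q : X => F (s, p.2 + p.1 • q.2) := ContDiff.comp hF ha
  have H1 := H _ (Cs2.mul' hA (cs_k0 h))
  have e0' : ((0, e.2) : X) = e := by ext <;> simp [he]
  have key : ∀ y : ℝ × ℝ, D e ((fun q : X => F (s, p.2 + p.1 • q.2)) * k0 k) (0, y) =
      p.1 * (D e F (s, p.2 + p.1 • y) * k (0, y)) + F (s, p.2 + p.1 • y) * D e k (0, y) := by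
    intro y
    rw [D_mul e hA (sm_k0 h.sm)]
    simp only [Pi.add_apply, Pi.mul_apply]
    rw [D_k0 h.sm, e0', D_aff hF ha (q := (0, y)) (v := e) (w := p.1 • e)]
    · have : D (p.1 • e) F (s, p.2 + p.1 • y) = p.1 * D e F (s, p.2 + p.1 • y) := by simp [D]
      rw [this]
      simp only [k0]
      ring
    · intro r
      ext <;> simp [he] <;> ring
  unfold In at H1
  simp only [key] at H1
  rw [integral_add ((ig h (sm_D e hF).cont s p).const_mul _) (ig h' hF.cont s p),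
    integral_const_mul] at H1
  unfold mo
  linarith

end ApiKP

theorem Ker.D (v : X) (hv : v.1 = 0) (h : Ker R k) : Ker R (D v k) := by
  have _ := hv
  refine ⟨sm_D v h.sm, fun p hp => ?_⟩
  have op : ∀ q : X, R < ‖q.2‖ → MP_2cea5e_gt.D v k q = 0 := by
    intro q hq
    have h1 : ∀ᶠ x in 𝓝 q, R < ‖x.2‖ :=
      (isOpen_lt continuous_const (by fun_prop)).mem_nhds hq
    have h2 : k =ᶠ[𝓝 q] fun _ => 0 := h1.mono fun x hx => h.supp x hx.le
    simp [MP_2cea5e_gt.D, h2.fderiv_eq]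
  obtain ⟨u, hu⟩ : ∃ u : ℝ × ℝ, ∀ t : ℝ, 0 < t → ‖p.2‖ < ‖p.2 + t • u‖ := by
    by_cases h0 : p.2 = 0
    · refine ⟨(1, 0), fun t ht => ?_⟩
      rw [h0, zero_add, norm_zero, norm_pos_iff]
      intro e
      have := congrArg Prod.fst e
      simp at this
      exact ht.ne' this
    · refine ⟨p.2, fun t ht => ?_⟩
      have e : p.2 + t • p.2 = (1 + t) • p.2 := by rw [add_smul, one_smul]
      have := norm_pos_iff.2 h0
      rw [e, norm_smul, Real.norm_eq_abs, abs_of_pos (by linarith)]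
      nlinarith
  have hc : Continuous fun t : ℝ => MP_2cea5e_gt.D v k (p.1, p.2 + t • u) := by
    have := (sm_D v h.sm).cont
    fun_prop
  have hS : IsClosed {t : ℝ | MP_2cea5e_gt.D v k (p.1, p.2 + t • u) = 0} :=
    isClosed_eq hc continuous_const
  have hI : Ioi (0 : ℝ) ⊆ {t : ℝ | MP_2cea5e_gt.D v k (p.1, p.2 + t • u) = 0} :=
    fun t ht => op _ (lt_of_le_of_lt hp (hu t ht))
  have h0 : (0 : ℝ) ∈ {t : ℝ | MP_2cea5e_gt.D v k (p.1, p.2 + t • u) = 0} :=
    hS.closure_subset_iff.2 hI (by simp)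
  simpa using h0

theorem Ker.mul (h : Ker R k) (hF : Sm F) : Ker R (F * k) :=
  ⟨sm_mul hF h.sm, fun p hp => by rw [Pi.mul_apply, h.supp p hp, mul_zero]⟩

theorem Ker.add (h : Ker R k) (h' : Ker R k') : Ker R (k + k') :=
  ⟨sm_add h.sm h'.sm, fun p hp => by rw [Pi.add_apply, h.supp p hp, h'.supp p hp, add_zero]⟩

theorem Ker.bd (h : Ker R k) : ∃ C : ℝ, 0 ≤ C ∧ ∀ y : ℝ × ℝ, |k (0, y)| ≤ C := by
  have hc : Continuous fun y : ℝ × ℝ => 1 * k (0, y) := by
    have h2 : Continuous fun y : ℝ × ℝ => ((0, y) : X) := by fun_prop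
    exact continuous_const.mul (h.sm.cont.comp h2)
  obtain ⟨C, hC⟩ := hc.bounded_above_of_compact_support (ApiKP.cpt h fun _ => 1)
  refine ⟨C, (norm_nonneg _).trans (hC 0), fun y => ?_⟩
  simpa using hC y

/-- A radial kernel `k` and the kernel `κ` with `∇ κ = - y k`. -/
theorem exists_rad : ∃ k κ : Fx, Ker 1 k ∧ Ker 1 κ ∧ (∀ p, 0 ≤ k p) ∧ In k 0 = 1 ∧
    D e1 κ = -(x1 * k) ∧ D e2 κ = -(x2 * k) := by
  obtain ⟨g, hg, g0, ga, g1, gp⟩ : ∃ g : ℝ → ℝ, ContDiff ℝ ∞ g ∧ (∀ x, 0 ≤ g x) ∧ Antitone g ∧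
      (∀ x, 1 ≤ x → g x = 0) ∧ 0 < g 0 := by
    refine ⟨fun x => expNegInvGlue (1 - x), ?_, fun x => expNegInvGlue.nonneg _,
      fun x y hxy => expNegInvGlue.monotone (by linarith),
      fun x hx => expNegInvGlue.zero_of_nonpos (by linarith),
      expNegInvGlue.pos_of_pos (by norm_num)⟩
    exact (expNegInvGlue.contDiff (n := ⊤)).comp (contDiff_const.sub contDiff_id)
  have hd : ContDiff ℝ ∞ (deriv g) := (contDiff_infty_iff_deriv.1 hg).2
  have d1 : ∀ x, 1 ≤ x → deriv g x = 0 := fun x hx =>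
    IsLocalMin.deriv_eq_zero (Eventually.of_forall fun y => by rw [g1 x hx]; exact g0 y)
  have big : ∀ p : X, 1 ≤ ‖p.2‖ → 1 ≤ r2 p := fun p hp => by
    have := norm_sq_le p
    nlinarith
  have sκ : Sm (g ∘ r2) := ContDiff.comp hg sm_r2
  have sk : Sm (deriv g ∘ r2) := ContDiff.comp hd sm_r2
  have Kκ : Ker 1 (g ∘ r2) := ⟨sκ, fun p hp => g1 _ (big p hp)⟩
  have Kk : Ker 1 (K (-2) * (deriv g ∘ r2)) :=
    Ker.mul ⟨sk, fun p hp => d1 _ (big p hp)⟩ (sm_K _)
  have nn : ∀ p, 0 ≤ (K (-2) * (deriv g ∘ r2)) p := fun p => by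
    have : deriv g (r2 p) ≤ 0 := ga.deriv_nonpos
    simp only [Pi.mul_apply, K_apply, Function.comp_apply]
    linarith
  obtain ⟨ξ, hξ, hξ'⟩ := exists_deriv_eq_slope g (a := 0) (b := 1) one_pos
    hg.continuous.continuousOn (hg.differentiable (by simp)).differentiableOn
  have pos : 0 < In (K (-2) * (deriv g ∘ r2)) 0 := by
    have hc : Continuous fun y : ℝ × ℝ => (K (-2) * (deriv g ∘ r2)) (0, y) := by
      have := Kk.sm.cont
      fun_prop
    have hs : HasCompactSupport fun y : ℝ × ℝ => (K (-2) * (deriv g ∘ r2)) (0, y) := by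
      simpa using ApiKP.cpt Kk fun _ => 1
    refine hc.integral_pos_of_hasCompactSupport_nonneg_nonzero (x := (√ξ, 0)) hs
      (fun y => nn _) ?_
    have e : r2 ((0, (√ξ, 0)) : X) = ξ := by
      rw [r2_apply]; simp [Real.sq_sqrt hξ.1.le]
    simp only [Pi.mul_apply, K_apply, Function.comp_apply, e, hξ', g1 1 le_rfl]
    simp [gp.ne']
  refine ⟨K (In (K (-2) * (deriv g ∘ r2)) 0)⁻¹ * (K (-2) * (deriv g ∘ r2)),
    K (In (K (-2) * (deriv g ∘ r2)) 0)⁻¹ * (g ∘ r2), Kk.mul (sm_K _), Kκ.mul (sm_K _),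
    fun p => mul_nonneg (inv_nonneg.2 pos.le) (nn p), ?_, ?_, ?_⟩
  · rw [In_Kmul, inv_mul_cancel₀ pos.ne']
  · rw [D_Kmul _ _ sκ, D_comp _ sm_r2 hg, D1_r2]
    funext p
    simp only [Pi.mul_apply, Pi.neg_apply, K_apply, Function.comp_apply]
    ring
  · rw [D_Kmul _ _ sκ, D_comp _ sm_r2 hg, D2_r2]
    funext p
    simp only [Pi.mul_apply, Pi.neg_apply, K_apply, Function.comp_apply]
    ring

theorem sm_mo (h : Ker R k) (hF : Sm F) (s : ℝ) : Sm (mo k F s) := ApiKP.sm_mo h hF s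

theorem D1_mo (h : Ker R k) (hF : Sm F) (s : ℝ) : D e1 (mo k F s) = mo k (D e1 F) s := by
  funext p
  rw [ApiKP.D_mo h hF]
  have : ∀ y : ℝ × ℝ, ((0, e1.2 + e1.1 • y) : X) = e1 := fun y => by ext <;> simp [e1]
  simp only [this]
  rfl

theorem D2_mo (h : Ker R k) (hF : Sm F) (s : ℝ) : D e2 (mo k F s) = mo k (D e2 F) s := by
  funext p
  rw [ApiKP.D_mo h hF]
  have : ∀ y : ℝ × ℝ, ((0, e2.2 + e2.1 • y) : X) = e2 := fun y => by ext <;> simp [e2]
  simp only [this]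
  rfl

theorem D0_mo (h : Ker R k) (hF : Sm F) (s : ℝ) :
    D e0 (mo k F s) = mo (x1 * k) (D e1 F) s + mo (x2 * k) (D e2 F) s := by
  funext p
  rw [ApiKP.D_mo h hF, Pi.add_apply]
  unfold mo
  rw [← integral_add (ApiKP.ig (h.mul sm_x1) (sm_D e1 hF).cont s p)
    (ApiKP.ig (h.mul sm_x2) (sm_D e2 hF).cont s p)]
  congr 1
  funext y
  rw [D_dir3]
  simp only [Pi.add_apply, Pi.mul_apply, K_apply, x1_apply, x2_apply]
  simp [e0]
  ring

theorem mo_ibp1 (h : Ker R k) (hF : Sm F) (s : ℝ) (p : X) :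
    p.1 * mo k (D e1 F) s p = -mo (D e1 k) F s p :=
  ApiKP.ibp h hF s p rfl (fun _ hg => Sy.ibp1 (hg.sy (-2)) le_rfl 0) (h.D e1 rfl)

theorem mo_ibp2 (h : Ker R k) (hF : Sm F) (s : ℝ) (p : X) :
    p.1 * mo k (D e2 F) s p = -mo (D e2 k) F s p :=
  ApiKP.ibp h hF s p rfl (fun _ hg => Sy.ibp2 (hg.sy (-2)) le_rfl 0) (h.D e2 rfl)

theorem mo_zero (k F : Fx) (s : ℝ) (x : ℝ × ℝ) : mo k F s (0, x) = F (s, x) * In k 0 := by
  simp only [mo, In, zero_smul, add_zero]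
  exact integral_const_mul _ _

theorem mo_add (h : Ker R k) (hF : Continuous F) (hG : Continuous G) (s : ℝ) :
    mo k (F + G) s = mo k F s + mo k G s := by
  funext p
  simp only [mo, Pi.add_apply, add_mul]
  exact integral_add (ApiKP.ig h hF s p) (ApiKP.ig h hG s p)

theorem mo_neg (k F : Fx) (s : ℝ) : mo (-k) F s = -mo k F s := by
  funext p
  simp only [mo, Pi.neg_apply, mul_neg]
  exact integral_neg _

theorem D0_mo_rad {κ : Fx} (h : Ker 1 k) (h' : Ker 1 κ) (e1' : D e1 κ = -(x1 * k))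
    (e2' : D e2 κ = -(x2 * k)) (hF : Sm F) (s : ℝ) (p : X) :
    D e0 (mo k F s) p = p.1 * mo κ (Lp F) s p := by
  have a1 := mo_ibp1 h' (sm_D e1 hF) s p
  have a2 := mo_ibp2 h' (sm_D e2 hF) s p
  rw [e1', mo_neg] at a1
  rw [e2', mo_neg] at a2
  rw [D0_mo h hF, Lp, mo_add h' (sm_D e1 (sm_D e1 hF)).cont (sm_D e2 (sm_D e2 hF)).cont]
  simp only [Pi.add_apply, Pi.neg_apply, neg_neg] at a1 a2 ⊢
  rw [mul_add, a1, a2]

end Pool.Agent.P.MP_2cea5e_gt.Se
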