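import Pool.Agent.P.MP_2cea5e_gt.Se.ApiV

/-!
The reduced metric: identities, symbol classes, evolution.
-/

open scoped ContDiff Topology
open MeasureTheory Set Filter

noncomputable section

namespace Pool.Agent.P.MP_2cea5e_gt.Se

namespace ApiMP

theorem quad_low {a b c x y : ℝ} : (a * c - b * b) * (x ^ 2 + y ^ 2) ≤
    (a + c) * (c * x * x - b * x * y - b * y * x + a * y * y) := by
  nlinarith [sq_nonneg (c * x - b * y), sq_nonneg (a * y - b * x)]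

theorem quad_up {a b c x y : ℝ} (ha : 0 < a) (hw : 0 < a * c - b * b) :
    c * x * x - b * x * y - b * y * x + a * y * y ≤ (a + c) * (x ^ 2 + y ^ 2) := by
  have h1 : 0 ≤ a * (a * x ^ 2 + 2 * b * x * y + c * y ^ 2) := by
    nlinarith [sq_nonneg (a * x + b * y), mul_nonneg hw.le (sq_nonneg y)]
  have h2 := nonneg_of_mul_nonneg_right h1 ha
  nlinarith

theorem quad_nn {a b c x y : ℝ} (ha : 0 < a) (hw : 0 < a * c - b * b) :
    0 ≤ c * x * x - b * x * y - b * y * x + a * y * y := by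
  have h1 : 0 ≤ a * (c * x * x - b * x * y - b * y * x + a * y * y) := by
    nlinarith [sq_nonneg (a * y - b * x), mul_nonneg hw.le (sq_nonneg x)]
  exact nonneg_of_mul_nonneg_right h1 ha

end ApiMP

namespace Dat

variable {d : Dat} {f g χ : Fx}

theorem ψ_eq (d : Dat) : d.ψ = d.φ + K d.a * el := by
  unfold φ; ring
theorem w_eq (d : Dat) : d.w = d.L + K 2 * el := by
  unfold L; ring
theorem W_eq (d : Dat) : W d.u = K (d.c * d.c) + d.V := by
  unfold V; ring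
theorem Met.smφ (h : d.Met) : Sm d.φ := h.φS.sm
theorem Met.smw (h : d.Met) : Sm d.w := h.wS.sm
theorem Met.smR (h : d.Met) : Sm d.R := h.RS.sm
theorem Met.smψ (h : d.Met) : Sm d.ψ := by
  rw [ψ_eq]; exact sm_add h.smφ (sm_mul (sm_K _) sm_el)
theorem Met.smu (h : d.Met) : Sm d.u := sm_add (sm_mul (sm_K _) sm_r2) h.smψ
theorem Met.smV (h : d.Met) : Sm d.V := sm_sub (sm_W h.smu) (sm_K _)
theorem Met.smL (h : d.Met) : Sm d.L := sm_sub h.smw (sm_mul (sm_K _) sm_el)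
theorem Met.smtS (h : d.Met) : Sm d.tS := sm_Lp h.smu
theorem Met.smnn (h : d.Met) : Sm d.nn :=
  sm_add (sm_add (sm_K _) (sm_mul (sm_K _) h.smtS)) (sm_W h.smu)
theorem Met.Vpos (h : d.Met) (p : X) : 0 < d.V p := by
  rw [h.hV]; exact mul_pos (sg_pos p) (Real.exp_pos _)
theorem Met.smiV (h : d.Met) : Sm (Iv d.V) := sm_Iv h.smV fun p => (h.Vpos p).ne'
theorem Met.V_ex (h : d.Met) : d.V = Ex d.L := by
  rw [h.hV]
  funext p
  have h1 := rr_pos p
  simp only [L, Pi.mul_apply, Pi.sub_apply, Ex_apply, K_apply, sg_apply, el_apply]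
  rw [Real.exp_sub, show 2 * Real.log (rr p) = Real.log (rr p ^ 2) by
    rw [Real.log_pow]; norm_num, Real.exp_log (by positivity)]
  rw [div_eq_inv_mul]
theorem Met.L_eq (h : d.Met) : d.L = Lg d.V := by
  rw [h.V_ex]
  funext p
  simp only [Lg_apply, Ex_apply, Real.log_exp]
theorem Met.D_V (h : d.Met) (v : X) : D v d.V = d.V * D v d.L := by
  rw [h.V_ex, D_Ex v h.smL]
theorem Met.gr_V (h : d.Met) : gr d.V = d.V * d.V * gr d.L := by
  unfold gr ip2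
  rw [h.D_V, h.D_V]; ring
theorem Met.pot (h : d.Met) : Pot d.u := by
  refine ⟨h.smu, h.p11, fun p => ?_⟩
  rw [W_eq]
  have := h.Vpos p
  have := h.hc
  simp only [Pi.add_apply, K_apply]
  positivity
theorem Met.du1 (h : d.Met) : D e1 d.u = K d.c * x1 + D e1 d.ψ := by
  unfold u
  rw [D_add _ (sm_mul (sm_K _) sm_r2) h.smψ, D_Kmul _ _ sm_r2, D1_r2]
  funext p
  simp only [Pi.add_apply, Pi.mul_apply, K_apply]; ring
theorem Met.du2 (h : d.Met) : D e2 d.u = K d.c * x2 + D e2 d.ψ := by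
  unfold u
  rw [D_add _ (sm_mul (sm_K _) sm_r2) h.smψ, D_Kmul _ _ sm_r2, D2_r2]
  funext p
  simp only [Pi.add_apply, Pi.mul_apply, K_apply]; ring
theorem Met.u11 (h : d.Met) : D e1 (D e1 d.u) = K d.c + D e1 (D e1 d.ψ) := by
  rw [h.du1, D_add _ (sm_mul (sm_K _) sm_x1) (sm_D _ h.smψ), D_Kmul _ _ sm_x1, D1_x1, mul_one]
theorem Met.u12 (h : d.Met) : D e1 (D e2 d.u) = D e1 (D e2 d.ψ) := by
  rw [h.du2, D_add _ (sm_mul (sm_K _) sm_x2) (sm_D _ h.smψ), D_Kmul _ _ sm_x2, D1_x2, mul_zero,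
    zero_add]
theorem Met.u22 (h : d.Met) : D e2 (D e2 d.u) = K d.c + D e2 (D e2 d.ψ) := by
  rw [h.du2, D_add _ (sm_mul (sm_K _) sm_x2) (sm_D _ h.smψ), D_Kmul _ _ sm_x2, D2_x2, mul_one]
theorem Met.u21 (h : d.Met) : D e2 (D e1 d.u) = D e1 (D e2 d.u) := D_comm _ _ h.smu
theorem Met.ψ21 (h : d.Met) : D e2 (D e1 d.ψ) = D e1 (D e2 d.ψ) := D_comm _ _ h.smψ
theorem Met.DDu (h : d.Met) (f : Fx) : DD d.u f = K d.c * Lp f + DD d.ψ f := by
  simp only [DD, DDv, Lp, h.u21, h.ψ21, h.u11, h.u12, h.u22]; ring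
theorem Met.BBu (h : d.Met) (f g : Fx) : BB d.u f g = K d.c * ip2 f g + BB d.ψ f g := by
  simp only [BB, BBv, ip2, h.u21, h.ψ21, h.u11, h.u12, h.u22]; ring
theorem Met.V_eq (h : d.Met) : d.V = K d.c * Lp d.ψ + W d.ψ := by
  simp only [V, W, Lp, h.u11, h.u12, h.u22]
  funext p
  simp only [Pi.add_apply, Pi.mul_apply, Pi.sub_apply, K_apply]; ring
theorem Met.V_pq (h : d.Met) (p : X) :
    d.V p = 4 * (d.c * pp d.ψ p + pp d.ψ p ^ 2 - qq d.ψ p) := by
  rw [h.V_eq]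
  simp only [W, Lp, pp, qq, q1, q2, Pi.add_apply, Pi.mul_apply, Pi.sub_apply, K_apply]; ring
theorem Met.tS_eq (h : d.Met) : d.tS = K (2 * d.c) + Lp d.ψ := by
  simp only [tS, Lp, h.u11, h.u22]
  funext p
  simp only [Pi.add_apply, K_apply]; ring
theorem Met.W_le (h : d.Met) (p : X) : 4 * W d.u p ≤ d.tS p ^ 2 := by
  simp only [tS, W, Lp, Pi.add_apply, Pi.mul_apply, Pi.sub_apply]
  nlinarith [sq_nonneg (D e1 (D e1 d.u) p - D e2 (D e2 d.u) p), sq_nonneg (D e1 (D e2 d.u) p)]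
theorem Met.tS_pos (h : d.Met) (p : X) : 0 < d.tS p := add_pos (h.p11 p) (h.pot.p22 p)
theorem Met.tS_gt (h : d.Met) (p : X) : 2 * d.c < d.tS p := by
  have h1 := h.W_le p
  have h2 := h.Vpos p
  have h3 : W d.u p = d.c * d.c + d.V p := by rw [W_eq]; rfl
  have h4 := h.tS_pos p
  have h5 := h.hc
  by_contra hn
  push Not at hn
  nlinarith
theorem Met.Lp_pos (h : d.Met) (p : X) : 0 < Lp d.ψ p := by
  have h1 := h.tS_gt p
  rw [h.tS_eq] at h1
  simp only [Pi.add_apply, K_apply] at h1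
  linarith
theorem Met.hs_le (h : d.Met) (p : X) : hs d.ψ p ≤ Lp d.ψ p * d.tS p := by
  have h1 := h.Vpos p
  rw [h.V_eq] at h1
  rw [hs_apply h.smψ, h.tS_eq]
  simp only [W, Lp, Pi.add_apply, Pi.mul_apply, Pi.sub_apply, K_apply] at h1 ⊢
  nlinarith
theorem Met.BB_apply (h : d.Met) (f : Fx) (p : X) : BB d.u f f p =
    D e2 (D e2 d.u) p * D e1 f p * D e1 f p - D e1 (D e2 d.u) p * D e1 f p * D e2 f p -
      D e1 (D e2 d.u) p * D e2 f p * D e1 f p + D e1 (D e1 d.u) p * D e2 f p * D e2 f p := by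
  simp only [BB, BBv, h.u21, Pi.add_apply, Pi.mul_apply, Pi.sub_apply, K_apply]; ring
theorem Met.BB_low (h : d.Met) (f : Fx) (p : X) : W d.u p * gr f p ≤ d.tS p * BB d.u f f p := by
  rw [h.BB_apply, gr_apply]
  exact ApiMP.quad_low
theorem Met.BB_up (h : d.Met) (f : Fx) (p : X) : BB d.u f f p ≤ d.tS p * gr f p := by
  rw [h.BB_apply, gr_apply]
  exact ApiMP.quad_up (h.p11 p) (h.pot.pw p)
theorem Met.BB_nonneg (h : d.Met) (f : Fx) (p : X) : 0 ≤ BB d.u f f p := by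
  rw [h.BB_apply]
  exact ApiMP.quad_nn (h.p11 p) (h.pot.pw p)
theorem Met.nn_eq (h : d.Met) (p : X) : d.nn p =
    (d.c + D e1 (D e1 d.u) p) * (d.c + D e2 (D e2 d.u) p) - D e1 (D e2 d.u) p ^ 2 := by
  simp only [nn, tS, W, Lp, Pi.add_apply, Pi.mul_apply, Pi.sub_apply, K_apply]; ring
theorem Met.V_le_nn (h : d.Met) (p : X) : d.V p ≤ d.nn p := by
  have h3 : W d.u p = d.c * d.c + d.V p := by rw [W_eq]; rfl
  have h4 := h.tS_pos p
  have h5 := h.hc
  simp only [nn, Pi.add_apply, Pi.mul_apply, K_apply]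
  rw [h3]
  nlinarith [mul_pos h5 h4, mul_pos h5 h5]
theorem Met.Lp_L (h : d.Met) : Lp d.L = Lp d.w - K 8 * sg := by
  unfold L
  rw [Lp_sub h.smw (sm_mul (sm_K _) sm_el), Lp_Kmul _ sm_el, Lp_el]
  funext p
  simp only [Pi.mul_apply, Pi.sub_apply, K_apply]; ring
theorem Met.Lp_w (h : d.Met) :
    K d.c * Lp d.w = -(d.R * d.V) - DD d.ψ d.L + K (8 * d.c) * sg := by
  rw [h.hR, h.DDu, h.Lp_L]
  funext p
  simp only [Pi.add_apply, Pi.mul_apply, Pi.sub_apply, Pi.neg_apply, K_apply]; ring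
theorem Met.DD_el (h : d.Met) : DD d.u el = K (4 * d.c) * sg + DD d.ψ el := by
  rw [h.DDu, Lp_el]
  funext p
  simp only [Pi.add_apply, Pi.mul_apply, K_apply]; ring

end Dat

end Pool.Agent.P.MP_2cea5e_gt.Se
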