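import Pool.Agent.P.MP_2cea5e_gt.Se.ApiM

/-!
The reduced metric: symbol classes, evolution, the chart at infinity.
-/

open scoped ContDiff Topology
open MeasureTheory Set Filter

noncomputable section

namespace Pool.Agent.P.MP_2cea5e_gt.Se

namespace ApiNP

variable {f g : Fx}

theorem DD2_add (u v : X) (hf : Sm f) (hg : Sm g) :
    D u (D v (f + g)) = D u (D v f) + D u (D v g) := by
  rw [D_add v hf hg, D_add u (sm_D v hf) (sm_D v hg)]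

theorem DD2_Kmul (u v : X) (c : ℝ) (hf : Sm f) : D u (D v (K c * f)) = K c * D u (D v f) := by
  rw [D_Kmul v c hf, D_Kmul u c (sm_D v hf)]

theorem sm_Kmul (c : ℝ) (hf : Sm f) : Sm (K c * f) := sm_mul (sm_K c) hf

theorem Q1_lin (c : ℝ) (hf : Sm f) (hg : Sm g) : Q1 (f + K c * g) = Q1 f + K c * Q1 g := by
  have h2 := sm_Kmul c hg
  funext p
  simp only [Q1, hq1, q1, q2, DD2_add _ _ hf h2, DD2_Kmul _ _ c hg, Pi.add_apply, Pi.mul_apply,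
    Pi.sub_apply, K_apply]
  ring

theorem Q2_lin (c : ℝ) (hf : Sm f) (hg : Sm g) : Q2 (f + K c * g) = Q2 f + K c * Q2 g := by
  have h2 := sm_Kmul c hg
  funext p
  simp only [Q2, hq2, q1, q2, DD2_add _ _ hf h2, DD2_Kmul _ _ c hg, Pi.add_apply, Pi.mul_apply,
    Pi.sub_apply, K_apply]
  ring

theorem O1_lin (c : ℝ) (hf : Sm f) (hg : Sm g) : O1 (f + K c * g) = O1 f + K c * O1 g := by
  have h2 := sm_Kmul c hg
  rw [O1, O1, O1, Q1_lin c hf hg, D_add e1 hf h2, D_add e2 hf h2, D_Kmul e1 c hg, D_Kmul e2 c hg]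
  funext p
  simp only [Pi.add_apply, Pi.mul_apply, K_apply]
  ring

theorem O2_lin (c : ℝ) (hf : Sm f) (hg : Sm g) : O2 (f + K c * g) = O2 f + K c * O2 g := by
  have h2 := sm_Kmul c hg
  rw [O2, O2, O2, Q2_lin c hf hg, D_add e1 hf h2, D_add e2 hf h2, D_Kmul e1 c hg, D_Kmul e2 c hg]
  funext p
  simp only [Pi.add_apply, Pi.mul_apply, Pi.sub_apply, K_apply]
  ring

theorem Lp_lin (c : ℝ) (hf : Sm f) : Lp (f + K c * el) = Lp f + K (4 * c) * sg := by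
  rw [Lp_add hf (sm_Kmul c sm_el), Lp_Kmul c sm_el, Lp_el]
  funext p
  simp only [Pi.add_apply, Pi.mul_apply, K_apply]
  ring

theorem In_pos (hf : Continuous f) (hi : Ig f) (hp : ∀ p, 0 < f p) (s : ℝ) : 0 < In f s := by
  have hc : Continuous fun x : ℝ × ℝ => f (s, x) := hf.comp (by fun_prop)
  exact integral_pos_of_integrable_nonneg_nonzero hc (hi s) (fun x => (hp _).le) (hp (s, 0)).ne'

end ApiNP

open ApiNP

namespace Dat

variable {d : Dat} {f g χ : Fx}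

theorem Met.h1ψ (h : d.Met) : H1 (-1) d.ψ := by
  rw [ψ_eq d]
  exact (h.φS.h1.mono (by norm_num)).add (h1_el.Kmul d.a)
theorem Met.h2ψ (h : d.Met) : H2 (-2) d.ψ := h.h1ψ.h2
theorem Met.lpψ (h : d.Met) : Sy (-4) (Lp d.ψ) := by
  rw [ψ_eq d, Lp_lin d.a h.smφ]
  exact h.φS.lp.add (sy_sg.Kmul _)
theorem Met.h2u (h : d.Met) : H2 0 d.u := by
  have h2 : H2 0 d.ψ := h.h2ψ.mono (by norm_num)
  refine ⟨h.smu, ?_, ?_, ?_⟩
  · rw [h.u11]; exact (sy_K _).add h2.d11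
  · rw [h.u12]; exact h2.d12
  · rw [h.u22]; exact (sy_K _).add h2.d22
theorem Met.h1L (h : d.Met) : H1 (-1) d.L :=
  (h.wS.h1.mono (by norm_num)).sub (h1_el.Kmul 2)
theorem Met.h2L (h : d.Met) : H2 (-2) d.L := h.h1L.h2
theorem Met.lpL (h : d.Met) : Sy (-4) (Lp d.L) := by
  rw [h.Lp_L]
  exact h.wS.lp.sub (sy_sg.Kmul 8)
theorem Met.syV (h : d.Met) : Sy (-4) d.V := by
  rw [h.hV]
  exact sy_sg.mul' h.wS.sy.ex (by norm_num)
theorem Met.syiV (h : d.Met) : Sy 4 (Iv d.V) := by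
  have e : Iv d.V = rr * rr * Ex (-d.w) := by
    rw [h.hV]
    funext p
    simp only [Iv_apply, Pi.mul_apply, Ex_apply, Pi.neg_apply, sg_apply, Real.exp_neg, mul_inv,
      inv_inv]
    ring
  rw [e]
  exact (sy_rr.mul sy_rr).mul' h.wS.sy.neg.ex (by norm_num)
theorem Met.syiW (h : d.Met) : Sy 0 (Iv (W d.u)) := by
  refine Sy.iv ?_ fun M => ⟨d.c * d.c, mul_pos h.hc h.hc, fun p _ => ?_⟩
  · rw [W_eq d]
    exact (sy_K _).add (h.syV.mono (by norm_num))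
  · rw [W_eq d]
    have := h.Vpos p
    simp only [Pi.add_apply, K_apply]
    linarith
theorem Met.syDD (h : d.Met) (hf : H1 (-1) f) (hl : Sy (-4) (Lp f)) : Sy (-4) (DD d.u f) := by
  rw [h.DDu]
  exact (hl.Kmul _).add ((h.h2ψ.DD hf.h2).mono (by norm_num))
theorem Met.syDDs (h : d.Met) (hf : Sph f) : Sy (-4) (DD d.u f) :=
  h.syDD (hf.h1.mono (by norm_num)) hf.lp
theorem Met.InLp (h : d.Met) (s : ℝ) : In (Lp d.ψ) s = 4 * d.a * s0 := by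
  rw [ψ_eq d, Lp_lin d.a h.smφ, In_add (h.φS.lp.ig (by norm_num))
    ((sy_sg.Kmul _).ig (by norm_num)), In_Lp h.φS.h1 le_rfl, In_Kmul, In_sg, zero_add]
theorem Met.InV (h : d.Met) (s : ℝ) : In d.V s = 4 * d.a * d.c * s0 := by
  rw [h.V_eq, In_add ((h.lpψ.Kmul _).ig (by norm_num)) (h.h2ψ.W.ig (by norm_num)), In_Kmul,
    h.InLp, In_W h.h1ψ]
  ring
theorem Met.a_pos (h : d.Met) : 0 < d.a := by
  have h1 := In_pos (sm_Lp h.smψ).cont (h.lpψ.ig (by norm_num)) h.Lp_pos 0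
  rw [h.InLp] at h1
  have h2 := s0_pos
  by_contra hn
  have h3 : d.a ≤ 0 := not_lt.mp hn
  nlinarith [mul_nonneg (neg_nonneg.mpr h3) h2.le]
theorem Met.Ca_nonneg (h : d.Met) (s : ℝ) : 0 ≤ d.Ca s :=
  In_nonneg fun _ => mul_nonneg (mul_self_nonneg _) (h.Vpos _).le

theorem Flo.dφ (h : d.Flo) : D e0 d.φ = Tm d.τ * d.R := by
  rw [Dat.φ, D_sub e0 h.toMet.smψ (sm_Kmul _ sm_el), D_Kmul e0 _ sm_el, D0_el, mul_zero, sub_zero,
    h.eq]
theorem Flo.du (h : d.Flo) : D e0 d.u = Tm d.τ * d.R := by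
  rw [Dat.u, D_add e0 (sm_Kmul _ sm_r2) h.toMet.smψ, D_Kmul e0 _ sm_r2, D0_r2, mul_zero, zero_add,
    h.eq]
theorem Flo.dV (h : d.Flo) : D e0 d.V = Tm d.τ * DD d.u d.R := by
  have hu := h.toMet.smu
  have h1 : D e0 (DD d.u d.u) = K 2 * D e0 (W d.u) := by
    rw [DD_self, D_Kmul e0 2 (sm_W hu)]
  rw [D0_DD hu hu, DD_comm d.u (D e0 d.u), h.du, DD_Tm h.clk.sm h.toMet.smR,
    DD_comm d.R d.u] at h1
  rw [Dat.V, D_sub e0 (sm_W hu) (sm_K _), D_K, sub_zero]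
  funext p
  have h2 := congrFun h1 p
  simp only [Pi.add_apply, Pi.mul_apply, K_apply] at h2 ⊢
  linarith
theorem Flo.dL (h : d.Flo) : D e0 d.L = Tm d.τ * (DD d.u d.R * Iv d.V) := by
  rw [h.toMet.L_eq, D_Lg e0 h.toMet.smV (fun p => (h.toMet.Vpos p).ne'), h.dV, mul_assoc]
theorem Flo.dw (h : d.Flo) : D e0 d.w = Tm d.τ * (DD d.u d.R * Iv d.V) := by
  rw [w_eq d, D_add e0 h.toMet.smL (sm_Kmul _ sm_el), D_Kmul e0 _ sm_el, D0_el, mul_zero,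
    add_zero, h.dL]
theorem Flo.sphw (h : d.Flo) : Sph (DD d.u d.R * Iv d.V) := by
  have hi : ContDiff ℝ ∞ fun s => (d.τ s)⁻¹ := h.clk.sm.inv fun s => (h.clk.pos s).ne'
  have e : DD d.u d.R * Iv d.V = Tm (fun s => (d.τ s)⁻¹) * D e0 d.w := by
    rw [h.dw]
    funext p
    have := (h.clk.pos p.1).ne'
    simp only [Pi.mul_apply, Tm_apply]
    field_simp
  rw [e]
  exact (sph_Tm hi).mul h.toMet.wS.D0

theorem Wc.sm (h : d.Wc χ) : Sm χ := by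
  have h1 : Sm (χ - K d.a * el) := Wit.sm h
  have e : χ = χ - K d.a * el + K d.a * el := (sub_add_cancel _ _).symm
  rw [e]
  exact sm_add h1 (sm_Kmul _ sm_el)
theorem Wc.Q1 (h : d.Wc χ) (m : d.Met) : Wit (Q1 d.ψ) (O1 χ - K d.a) := by
  have h1 : Sm (χ - K d.a * el) := Wit.sm h
  have e : O1 χ - K d.a = O1 (χ - K d.a * el) + K d.a * (O1 el - K 1) := by
    have e1 := O1_lin d.a h1 sm_el
    rw [sub_add_cancel] at e1
    rw [e1]
    funext p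
    simp only [Pi.add_apply, Pi.mul_apply, Pi.sub_apply, K_apply]
    ring
  rw [e, ψ_eq d, Q1_lin d.a m.smφ sm_el]
  exact (Wit.Q1 h m.smφ).add (wit_Q1_el.Kmul _)
theorem Wc.Q2 (h : d.Wc χ) (m : d.Met) : Wit (Q2 d.ψ) (O2 χ) := by
  have h1 : Sm (χ - K d.a * el) := Wit.sm h
  have e : O2 χ = O2 (χ - K d.a * el) + K d.a * O2 el := by
    have e1 := O2_lin d.a h1 sm_el
    rwa [sub_add_cancel] at e1
  rw [e, ψ_eq d, Q2_lin d.a m.smφ sm_el]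
  exact (Wit.Q2 h m.smφ).add (wit_Q2_el.Kmul _)
theorem Wc.Lp (h : d.Wc χ) (m : d.Met) : Wit (r2 * r2 * Lp d.ψ) (Lp χ) := by
  have h1 : Sm (χ - K d.a * el) := Wit.sm h
  have e : Se.Lp χ = Se.Lp (χ - K d.a * el) + K (4 * d.a) * sg := by
    have e1 := Lp_lin d.a h1
    rwa [sub_add_cancel] at e1
  have e' : r2 * r2 * Se.Lp d.ψ = r2 * r2 * Se.Lp d.φ + K (4 * d.a) * (r2 * r2 * sg) := by
    rw [ψ_eq d, Lp_lin d.a m.smφ]
    ring
  rw [e, e']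
  exact (Wit.Lp h m.smφ).add (wit_sg'.Kmul _)
theorem Wc.Lp_nonneg (h : d.Wc χ) (m : d.Met) (p : X) : 0 ≤ Se.Lp χ p := by
  have h1 := le_of_ne_zero (f := 0) (g := Se.Lp χ) (s := p.1) continuous_zero (sm_Lp h.sm).cont
    (fun x hx => by
      rw [(h.Lp m).eq (p.1, x) hx]
      exact mul_nonneg (mul_self_nonneg _) (m.Lp_pos _).le) p.2
  exact h1
theorem Wc.V (h : d.Wc χ) (m : d.Met) : Wit (r2 * r2 * d.V) (d.Vi χ) := by
  have hl := sm_Lp h.sm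
  have h1 := (h.Q1 m).sm
  have h2 := (h.Q2 m).sm
  refine ⟨sm_sub (sm_add (sm_Kmul _ hl) (sm_Kmul _ (sm_mul (sm_mul sm_r2 sm_r2) (sm_mul hl hl))))
    (sm_Kmul _ (sm_add (sm_mul h1 h1) (sm_mul h2 h2))), fun p hp => ?_⟩
  have e1 := (h.Q1 m).eq p hp
  have e2 := (h.Q2 m).eq p hp
  have e3 := (h.Lp m).eq p hp
  have e4 := hq_sq z1 z2 d.ψ (iv p)
  have e5 := z_sq (iv p)
  have e6 := m.V_pq (iv p)
  have e7 : r2 p * r2 (iv p) = 1 := by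
    rw [r2_iv]; exact mul_inv_cancel₀ (r2_pos hp).ne'
  rw [e5] at e4
  change Se.Q1 d.ψ (iv p) ^ 2 + Se.Q2 d.ψ (iv p) ^ 2 = _ at e4
  simp only [Dat.Vi, pp, Pi.add_apply, Pi.mul_apply, Pi.sub_apply, K_apply] at e1 e2 e3 e6 ⊢
  rw [e1, e2, e3, e6]
  generalize Se.Lp d.ψ (iv p) = l at *
  generalize Se.Q1 d.ψ (iv p) = A at *
  generalize Se.Q2 d.ψ (iv p) = B at *
  generalize qq d.ψ (iv p) = q at *
  generalize r2 (iv p) = r at *
  generalize r2 p = t at *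
  linear_combination (-4) * e4 + (1 / 4 * l ^ 2 * r ^ 2 * (t * r + 1)) * e7
theorem Wc.Vi (h : d.Wc χ) (m : d.Met) (hw : Wit d.w g) : d.Vi χ = sg * Ex g := by
  have e : r2 * r2 * d.V = r2 * r2 * sg * Ex d.w := by rw [m.hV, mul_assoc (r2 * r2)]
  have h1 := h.V m
  rw [e] at h1
  exact h1.unique (wit_sg'.mul hw.ex)
theorem Wc.dχ (h : d.Wc χ) (m : d.Flo) (hR : Wit d.R g) : D e0 χ = Tm d.τ * g := by
  have h1 := Wit.D0 h m.toMet.smφ
  rw [m.dφ, D_sub e0 h.sm (sm_Kmul _ sm_el), D_Kmul e0 _ sm_el, D0_el, mul_zero, sub_zero] at h1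
  exact h1.unique ((wit_Tm m.clk.sm).mul hR)
theorem Met.sphQ1 (h : d.Met) : Sph (Q1 d.ψ) := by
  obtain ⟨g, hg⟩ := h.φS.wit
  have hw : d.Wc (g + K d.a * el) := by
    unfold Dat.Wc
    rwa [add_sub_cancel_right]
  exact ⟨sm_Q1 h.smψ, _, hw.Q1 h⟩
theorem Met.sphQ2 (h : d.Met) : Sph (Q2 d.ψ) := by
  obtain ⟨g, hg⟩ := h.φS.wit
  have hw : d.Wc (g + K d.a * el) := by
    unfold Dat.Wc
    rwa [add_sub_cancel_right]
  exact ⟨sm_Q2 h.smψ, _, hw.Q2 h⟩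

end Dat

end Pool.Agent.P.MP_2cea5e_gt.Se
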