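import Pool.Agent.P.MP_2cea5e_gt.Se.ApiK

/-!
Bounds for averages.
-/

open scoped ContDiff Topology
open MeasureTheory Set Filter

noncomputable section

namespace Pool.Agent.P.MP_2cea5e_gt.Se

variable {k k' F G : Fx} {s R : ℝ}

namespace ApiQP

theorem cont_k (h : Ker R k) : Continuous fun y : ℝ × ℝ => k (0, y) :=
  h.sm.cont.comp (by fun_prop)

theorem int_mul (h : Ker R k) {g : ℝ × ℝ → ℝ} (hg : Continuous g) :
    Integrable fun y : ℝ × ℝ => g y * |k (0, y)| := by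
  refine Continuous.integrable_of_hasCompactSupport (hg.mul (cont_k h).abs) ?_
  refine HasCompactSupport.intro (isCompact_closedBall (0 : ℝ × ℝ) R) ?_
  intro y hy
  have h1 : R ≤ ‖y‖ := by
    simp only [mem_closedBall_zero_iff, not_le] at hy
    exact hy.le
  rw [h.supp (0, y) h1]
  simp

theorem int_abs (h : Ker R k) : Integrable fun y : ℝ × ℝ => |k (0, y)| := by
  simpa using int_mul h (g := fun _ => 1) continuous_const

theorem abs_nonneg_int (k : Fx) : 0 ≤ ∫ y : ℝ × ℝ, |k (0, y)| :=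
  integral_nonneg fun _ => abs_nonneg _

theorem mo_bd (h : Ker R k) (F : Fx) (s : ℝ) (p : X) (A : ℝ)
    (hA : ∀ y : ℝ × ℝ, ‖y‖ < R → |F (s, p.2 + p.1 • y)| ≤ A) :
    |mo k F s p| ≤ (∫ y : ℝ × ℝ, |k (0, y)|) * A := by
  rw [← integral_mul_const]
  have h1 := norm_integral_le_of_norm_le (f := fun y : ℝ × ℝ => F (s, p.2 + p.1 • y) * k (0, y))
    ((int_abs h).mul_const A) (Eventually.of_forall fun y => ?_)
  · exact h1
  · rw [Real.norm_eq_abs, abs_mul]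
    rcases lt_or_ge ‖y‖ R with hy | hy
    · rw [mul_comm]
      exact mul_le_mul_of_nonneg_left (hA y hy) (abs_nonneg _)
    · rw [h.supp (0, y) hy]
      simp

theorem zpow_cmp {a b L : ℝ} (ha : 0 < a) (hb : 0 < b) (h1 : a ≤ L * b) (h2 : b ≤ L * a)
    (m : ℤ) : a ^ m ≤ L ^ m.natAbs * b ^ m := by
  rcases Int.eq_nat_or_neg m with ⟨n, rfl | rfl⟩
  · rw [Int.natAbs_natCast, zpow_natCast, zpow_natCast, ← mul_pow]
    exact pow_le_pow_left₀ ha.le h1 n
  · rw [Int.natAbs_neg, Int.natAbs_natCast, zpow_neg, zpow_neg, zpow_natCast, zpow_natCast,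
      ← div_eq_mul_inv, le_div_iff₀ (pow_pos hb n), inv_mul_le_iff₀ (pow_pos ha n), ← mul_pow,
      mul_comm]
    exact pow_le_pow_left₀ hb.le h2 n

theorem jb_shift (s t : ℝ) (x z : ℝ × ℝ) {B : ℝ} (hz : ‖z‖ ≤ B) :
    jb (s, x + z) ≤ √(2 * (1 + 2 * B ^ 2)) * jb (t, x) := by
  have h0 : (0 : ℝ) ≤ 2 * (1 + 2 * B ^ 2) := by positivity
  show √(rr (s, x + z)) ≤ _ * √(rr (t, x))
  rw [← Real.sqrt_mul h0]
  refine Real.sqrt_le_sqrt ?_
  have h1 := r2_le (0, z)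
  have h2 : ‖z‖ ^ 2 ≤ B ^ 2 := pow_le_pow_left₀ (norm_nonneg _) hz 2
  rw [r2_apply] at h1
  simp only [rr_apply, r2_apply, Prod.fst_add, Prod.snd_add] at h1 ⊢
  have h3 : z.1 ^ 2 + z.2 ^ 2 ≤ 2 * B ^ 2 := by linarith
  have h4 : 0 ≤ B ^ 2 * (x.1 ^ 2 + x.2 ^ 2) := by positivity
  nlinarith [sq_nonneg (x.1 - z.1), sq_nonneg (x.2 - z.2)]

theorem oo_mo {m : ℤ} (hF : OO m F) (h : Ker R k) (s : ℝ) : OO m (mo k F s) := by
  intro M
  obtain ⟨C, hC⟩ := hF |s|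
  refine ⟨(∫ y : ℝ × ℝ, |k (0, y)|) * (|C| * √(2 * (1 + 2 * (M * R) ^ 2)) ^ m.natAbs),
    fun p hp => ?_⟩
  rw [mul_assoc]
  refine mo_bd h F s p _ fun y hy => ?_
  have hz : ‖p.1 • y‖ ≤ M * R := by
    rw [norm_smul, Real.norm_eq_abs]
    exact mul_le_mul hp hy.le (norm_nonneg _) ((abs_nonneg _).trans hp)
  have h1 := jb_shift s p.1 p.2 (p.1 • y) hz
  have h2 := jb_shift p.1 s (p.2 + p.1 • y) (-(p.1 • y)) ((norm_neg _).le.trans hz)
  rw [add_neg_cancel_right] at h2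
  have h3 := zpow_cmp (jb_pos _) (jb_pos _) h1 h2 m
  have h4 := hC (s, p.2 + p.1 • y) le_rfl
  have h5 : 0 < jb (s, p.2 + p.1 • y) ^ m := zpow_pos (jb_pos _) m
  calc |F (s, p.2 + p.1 • y)| ≤ C * jb (s, p.2 + p.1 • y) ^ m := h4
    _ ≤ |C| * jb (s, p.2 + p.1 • y) ^ m := mul_le_mul_of_nonneg_right (le_abs_self C) h5.le
    _ ≤ |C| * (√(2 * (1 + 2 * (M * R) ^ 2)) ^ m.natAbs * jb p ^ m) :=
      mul_le_mul_of_nonneg_left h3 (abs_nonneg C)
    _ = _ := by ring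

theorem oo_add {m : ℤ} (hF : OO m F) (hG : OO m G) : OO m (F + G) := by
  intro M
  obtain ⟨C, hC⟩ := hF M
  obtain ⟨C', hC'⟩ := hG M
  refine ⟨C + C', fun p hp => ?_⟩
  have h1 := hC p hp
  have h2 := hC' p hp
  have h3 := abs_add_le (F p) (G p)
  rw [Pi.add_apply, add_mul]
  linarith

theorem syN_add (n : ℕ) : ∀ (m : ℤ) (F G : Fx), Sm F → Sm G → SyN n m F → SyN n m G →
    SyN n m (F + G) := by
  induction n with
  | zero => exact fun m F G _ _ h h' => oo_add h h'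
  | succ n ih =>
    intro m F G hF hG h h'
    refine ⟨oo_add h.1 h'.1, ?_, ?_, ?_⟩
    · rw [D_add _ hF hG]
      exact ih _ _ _ (sm_D _ hF) (sm_D _ hG) h.2.1 h'.2.1
    · rw [D_add _ hF hG]
      exact ih _ _ _ (sm_D _ hF) (sm_D _ hG) h.2.2.1 h'.2.2.1
    · rw [D_add _ hF hG]
      exact ih _ _ _ (sm_D _ hF) (sm_D _ hG) h.2.2.2 h'.2.2.2

theorem syN_mo (R s : ℝ) (n : ℕ) : ∀ (m : ℤ) (k F : Fx), Ker R k → Sy m F →
    SyN n m (mo k F s) := by
  induction n with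
  | zero => exact fun m k F h hF => oo_mo hF.oo h s
  | succ n ih =>
    intro m k F h hF
    refine ⟨oo_mo hF.oo h s, ?_, ?_, ?_⟩
    · rw [D0_mo h hF.sm]
      have h1 := h.mul sm_x1
      have h2 := h.mul sm_x2
      exact syN_add n m _ _ (sm_mo h1 (sm_D _ hF.sm) s) (sm_mo h2 (sm_D _ hF.sm) s)
        (ih _ _ _ h1 (hF.D1.mono (by omega))) (ih _ _ _ h2 (hF.D2.mono (by omega)))
    · rw [D1_mo h hF.sm]
      exact ih _ _ _ h hF.D1
    · rw [D2_mo h hF.sm]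
      exact ih _ _ _ h hF.D2

theorem intOn_ball {g : ℝ × ℝ → ℝ} (hg : Continuous g) (x : ℝ × ℝ) (r : ℝ) :
    IntegrableOn g (Metric.ball x r) :=
  (hg.continuousOn.integrableOn_compact (isCompact_closedBall x r)).mono_set
    Metric.ball_subset_closedBall

/-- A bound by an integral over a ball. -/
theorem le_ball {f g : ℝ × ℝ → ℝ} (hg : Continuous g) (x : ℝ × ℝ) (r C : ℝ)
    (h1 : ∀ y ∈ Metric.ball x r, |f y| ≤ C * g y) (h2 : ∀ y ∉ Metric.ball x r, f y = 0) :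
    |∫ y, f y| ≤ C * ∫ y in Metric.ball x r, g y := by
  rw [← setIntegral_eq_integral_of_forall_compl_eq_zero h2, ← integral_const_mul]
  refine norm_integral_le_of_norm_le (f := f) ((intOn_ball hg x r).const_mul C) ?_
  exact (ae_restrict_iff' measurableSet_ball).2 (Eventually.of_forall h1)

end ApiQP

open ApiQP

theorem Sy.mo {m : ℤ} (hF : Sy m F) (h : Ker R k) (s : ℝ) : Sy m (mo k F s) :=
  ⟨sm_mo h hF.sm s, fun n => syN_mo R s n m k F h hF⟩

theorem mo_eq (k F : Fx) (s : ℝ) {r : ℝ} (hr : 0 < r) (x : ℝ × ℝ) :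
    mo k F s (r, x) = (r ^ 2)⁻¹ * ∫ y : ℝ × ℝ, F (s, y) * k (0, r⁻¹ • (y - x)) := by
  have h1 := Measure.integral_comp_smul_of_nonneg (volume : Measure (ℝ × ℝ))
    (fun w : ℝ × ℝ => F (s, x + w) * k (0, r⁻¹ • w)) r (hR := hr.le)
  have h2 := integral_add_left_eq_self (μ := (volume : Measure (ℝ × ℝ)))
    (fun y : ℝ × ℝ => F (s, y) * k (0, r⁻¹ • (y - x))) x
  simp only [add_sub_cancel_left] at h2
  have h3 : Module.finrank ℝ (ℝ × ℝ) = 2 := by simp
  rw [h2, h3, smul_eq_mul] at h1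
  rw [← h1]
  simp only [mo, inv_smul_smul₀ hr.ne']

theorem mo_sup (h : Ker 1 k) : ∃ C : ℝ, 0 ≤ C ∧ ∀ (F : Fx) s r (x : ℝ × ℝ) (A : ℝ), 0 ≤ r →
    (∀ y, ‖y - x‖ ≤ r → |F (s, y)| ≤ A) → |mo k F s (r, x)| ≤ C * A := by
  refine ⟨_, abs_nonneg_int k, fun F s r x A hr hA => mo_bd h F s (r, x) A fun y hy => hA _ ?_⟩
  simp only [add_sub_cancel_left, norm_smul, Real.norm_eq_abs, abs_of_nonneg hr]
  exact mul_le_of_le_one_right hr hy.le

theorem mo_ball (h : Ker 1 k) : ∃ C : ℝ, 0 ≤ C ∧ ∀ (F : Fx) (s : ℝ) (p : X), Continuous F →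
    |mo k F s p| ≤ C * ∫ y in Metric.ball (0 : ℝ × ℝ) 1, |F (s, p.2 + p.1 • y)| := by
  obtain ⟨C, hC0, hC⟩ := h.bd
  refine ⟨C, hC0, fun F s p hF => ?_⟩
  have hc : Continuous fun y : ℝ × ℝ => |F (s, p.2 + p.1 • y)| := (hF.comp (by fun_prop)).abs
  refine le_ball hc 0 1 C (fun y _ => ?_) (fun y hy => ?_)
  · rw [abs_mul, mul_comm]
    exact mul_le_mul_of_nonneg_right (hC y) (abs_nonneg _)
  · rw [mem_ball_zero_iff, not_lt] at hy
    rw [h.supp (0, y) hy, mul_zero]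

theorem mo_L1 (h : Ker 1 k) : ∃ C : ℝ, 0 ≤ C ∧ ∀ (F : Fx) s r (x : ℝ × ℝ), Continuous F → 0 < r →
    r ^ 2 * |mo k F s (r, x)| ≤ C * Ib (Ab F) s x r := by
  obtain ⟨C, hC0, hC⟩ := h.bd
  refine ⟨C, hC0, fun F s r x hF hr => ?_⟩
  have hr2 : 0 < r ^ 2 := by positivity
  rw [mo_eq k F s hr, abs_mul, abs_of_pos (inv_pos.2 hr2), ← mul_assoc, mul_inv_cancel₀ hr2.ne',
    one_mul]
  have hc : Continuous fun y : ℝ × ℝ => |F (s, y)| := (hF.comp (by fun_prop)).abs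
  refine le_ball hc x r C (fun y _ => ?_) (fun y hy => ?_)
  · rw [abs_mul, mul_comm]
    exact mul_le_mul_of_nonneg_right (hC _) (abs_nonneg _)
  · rw [mem_ball_iff_norm, not_lt] at hy
    have h1 : (1 : ℝ) ≤ ‖r⁻¹ • (y - x)‖ := by
      rw [norm_smul, Real.norm_eq_abs, abs_of_pos (inv_pos.2 hr), le_inv_mul_iff₀ hr, mul_one]
      exact hy
    rw [h.supp (0, r⁻¹ • (y - x)) h1, mul_zero]

theorem mo_L2 (h : Ker 1 k) : ∃ C : ℝ, 0 ≤ C ∧ ∀ (F : Fx) s r (x : ℝ × ℝ), Continuous F → 0 < r →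
    r * |mo k F s (r, x)| ≤ C * √(Ib (F * F) s x r) := by
  obtain ⟨C, hC0, hC⟩ := mo_L1 h
  refine ⟨2 * C, by positivity, fun F s r x hF hr => ?_⟩
  have h1 := hC F s r x hF hr
  have h2 := Ib_cs (f := Ab F) (g := F * F) (h := K 1) (loc_of_cont (hF.mul hF))
    (loc_of_cont (sm_K 1).cont) (s := s) (fun y => mul_self_nonneg _) (fun y => zero_le_one)
    (fun y => by simp only [Ab_apply, sq_abs, Pi.mul_apply, K_apply]; exact le_of_eq (by ring)) x r
  have h3 : √(Ib (K 1) s x r) = 2 * r := by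
    rw [Ib_K 1 s x hr.le, show (1 : ℝ) * (4 * r ^ 2) = (2 * r) ^ 2 by ring]
    exact Real.sqrt_sq (by positivity)
  rw [h3] at h2
  have h4 := mul_le_mul_of_nonneg_left ((le_abs_self _).trans h2) hC0
  refine le_of_mul_le_mul_left ?_ hr
  calc r * (r * |mo k F s (r, x)|) = r ^ 2 * |mo k F s (r, x)| := by ring
    _ ≤ C * (√(Ib (F * F) s x r) * (2 * r)) := h1.trans h4
    _ = _ := by ring

theorem mo_In (h : Ker 1 k) : ∃ C : ℝ, 0 ≤ C ∧ ∀ (F : Fx) s r, Sy (-2) F →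
    In (mo k F s * mo k F s) r ≤ C * In (F * F) s := by
  refine ⟨(∫ y : ℝ × ℝ, |k (0, y)|) * ∫ y : ℝ × ℝ, |k (0, y)|,
    mul_self_nonneg _, fun F s r hF => ?_⟩
  have hI : Integrable fun x : ℝ × ℝ => (F * F) (s, x) := (hF.mul hF).ig (by norm_num) s
  have hc : Continuous (F * F) := (sm_mul hF.sm hF.sm).cont
  have h0 : ∀ p, 0 ≤ (F * F) p := fun p => mul_self_nonneg _
  have hy : ∀ y : ℝ × ℝ, ∫ x : ℝ × ℝ, (F * F) (s, x + r • y) * |k (0, y)| =
      In (F * F) s * |k (0, y)| := fun y => by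
    rw [integral_mul_const,
      integral_add_right_eq_self (fun x : ℝ × ℝ => (F * F) (s, x)) (r • y)]
    rfl
  have hP : Integrable (fun q : (ℝ × ℝ) × (ℝ × ℝ) => (F * F) (s, q.1 + r • q.2) * |k (0, q.2)|)
      ((volume : Measure (ℝ × ℝ)).prod volume) := by
    have hcq : Continuous fun q : (ℝ × ℝ) × (ℝ × ℝ) =>
        (F * F) (s, q.1 + r • q.2) * |k (0, q.2)| :=
      (hc.comp (by fun_prop)).mul ((cont_k h).abs.comp continuous_snd)
    rw [integrable_prod_iff' hcq.aestronglyMeasurable]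
    refine ⟨Eventually.of_forall fun y => (hI.comp_add_right (r • y)).mul_const |k (0, y)|, ?_⟩
    refine ((int_abs h).const_mul (In (F * F) s)).congr (Eventually.of_forall fun y => ?_)
    show In (F * F) s * |k (0, y)| = ∫ x : ℝ × ℝ, ‖(F * F) (s, x + r • y) * |k (0, y)|‖
    rw [← hy y]
    refine integral_congr_ae (Eventually.of_forall fun x => ?_)
    exact (Real.norm_of_nonneg (mul_nonneg (h0 _) (abs_nonneg _))).symm
  have hs := integral_integral_swap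
    (f := fun x y : ℝ × ℝ => (F * F) (s, x + r • y) * |k (0, y)|) hP
  simp only [hy] at hs
  rw [integral_const_mul] at hs
  have hm : In (mo k F s * mo k F s) r ≤ ∫ x : ℝ × ℝ, (∫ y : ℝ × ℝ, |k (0, y)|) *
      ∫ y : ℝ × ℝ, (F * F) (s, x + r • y) * |k (0, y)| := by
    refine integral_mono_of_nonneg (Eventually.of_forall fun x => mul_self_nonneg _)
      (hP.integral_prod_left.const_mul _) (Eventually.of_forall fun x => ?_)
    have hB : Integrable fun y : ℝ × ℝ => (F * F) (s, x + r • y) * |k (0, y)| :=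
      int_mul h (hc.comp (by fun_prop))
    have h1 := cs_int (F := fun y : ℝ × ℝ => F (s, x + r • y) * k (0, y)) (int_abs h) hB
      (fun y => abs_nonneg _) (fun y => mul_nonneg (h0 _) (abs_nonneg _)) (fun y => by
        have e := abs_mul_abs_self (k (0, y))
        simp only [Pi.mul_apply]
        refine le_of_eq ?_
        linear_combination (-(F (s, x + r • y)) ^ 2) * e)
    have h2 := mul_self_le_mul_self (abs_nonneg _) h1
    rw [abs_mul_abs_self, mul_mul_mul_comm, Real.mul_self_sqrt (abs_nonneg_int k),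
      Real.mul_self_sqrt (integral_nonneg fun y => mul_nonneg (h0 _) (abs_nonneg _))] at h2
    exact h2
  rw [integral_const_mul, hs] at hm
  calc _ ≤ _ := hm
    _ = _ := by ring

end Pool.Agent.P.MP_2cea5e_gt.Se
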