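import Pool.Agent.P.MP_2cea5e_gt.Se.ApiB

/-!
Calculus of symbols on the plane.
-/

open scoped ContDiff Topology
open MeasureTheory Set Filter

noncomputable section

namespace Pool.Agent.P.MP_2cea5e_gt.Se

variable {f g h k : Fx} {a b c m : ℤ} {p : X} {s : ℝ}

namespace ApiSP

theorem jbz (p : X) (m : ℤ) : 0 < jb p ^ m := zpow_pos (jb_pos p) m

theorem oo_pos (hf : OO m f) (M : ℝ) :
    ∃ C : ℝ, 0 ≤ C ∧ ∀ p : X, |p.1| ≤ M → |f p| ≤ C * jb p ^ m := by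
  obtain ⟨C, hC⟩ := hf M
  refine ⟨|C|, abs_nonneg C, fun p hp => (hC p hp).trans ?_⟩
  exact mul_le_mul_of_nonneg_right (le_abs_self C) (jbz p m).le

theorem oo_mono (hf : OO a f) (h : a ≤ b) : OO b f := by
  intro M
  obtain ⟨C, h0, hC⟩ := oo_pos hf M
  exact ⟨C, fun p hp => (hC p hp).trans
    (mul_le_mul_of_nonneg_left (zpow_le_zpow_right₀ (one_le_jb p) h) h0)⟩

theorem oo_zero : OO m (0 : Fx) := fun _ => ⟨0, fun p _ => by simp⟩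

theorem oo_add (hf : OO m f) (hg : OO m g) : OO m (f + g) := by
  intro M
  obtain ⟨C, hC⟩ := hf M
  obtain ⟨C', hC'⟩ := hg M
  refine ⟨C + C', fun p hp => ?_⟩
  have h1 := hC p hp
  have h2 := hC' p hp
  have h3 := abs_add_le (f p) (g p)
  rw [Pi.add_apply, add_mul]
  linarith

theorem oo_neg (hf : OO m f) : OO m (-f) := by
  intro M
  obtain ⟨C, hC⟩ := hf M
  exact ⟨C, fun p hp => by rw [Pi.neg_apply, abs_neg]; exact hC p hp⟩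

theorem oo_mul (hf : OO a f) (hg : OO b g) : OO (a + b) (f * g) := by
  intro M
  obtain ⟨C, h0, hC⟩ := oo_pos hf M
  obtain ⟨C', hC'⟩ := hg M
  refine ⟨C * C', fun p hp => ?_⟩
  rw [Pi.mul_apply, abs_mul, zpow_add₀ (jb_pos p).ne']
  calc |f p| * |g p| ≤ (C * jb p ^ a) * (C' * jb p ^ b) :=
        mul_le_mul (hC p hp) (hC' p hp) (abs_nonneg _) (mul_nonneg h0 (jbz p a).le)
    _ = C * C' * (jb p ^ a * jb p ^ b) := by ring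

theorem bd_Icc {φ : ℝ → ℝ} (hφ : Continuous φ) (M : ℝ) :
    ∃ C : ℝ, ∀ x : ℝ, |x| ≤ M → |φ x| ≤ C := by
  obtain ⟨C, hC⟩ := (isCompact_Icc (a := -M) (b := M)).exists_bound_of_continuousOn
    hφ.continuousOn
  exact ⟨C, fun x hx => hC x (abs_le.1 hx)⟩

theorem oo_comp (hf : OO 0 f) {φ : ℝ → ℝ} (hφ : Continuous φ) : OO 0 (φ ∘ f) := by
  intro M
  obtain ⟨C, hC⟩ := hf M
  obtain ⟨C', hC'⟩ := bd_Icc hφ C
  refine ⟨C', fun p hp => ?_⟩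
  have h1 := hC p hp
  rw [zpow_zero, mul_one] at h1 ⊢
  exact hC' _ h1

theorem oo_Tm {τ : ℝ → ℝ} (hτ : Continuous τ) : OO 0 (Tm τ) := by
  intro M
  obtain ⟨C, hC⟩ := bd_Icc hτ M
  exact ⟨C, fun p hp => by rw [zpow_zero, mul_one]; exact hC _ hp⟩

theorem syN_oo : ∀ {n : ℕ} {m : ℤ} {f : Fx}, SyN n m f → OO m f
  | 0, _, _, h => h
  | _ + 1, _, _, h => h.1

theorem syN_succ : ∀ {n : ℕ} {m : ℤ} {f : Fx}, SyN (n + 1) m f → SyN n m f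
  | 0, _, _, h => h.1
  | _ + 1, _, _, h => ⟨h.1, syN_succ h.2.1, syN_succ h.2.2.1, syN_succ h.2.2.2⟩

theorem syN_mono : ∀ {n : ℕ} {a b : ℤ} {f : Fx}, SyN n a f → a ≤ b → SyN n b f
  | 0, _, _, _, h, hab => oo_mono h hab
  | _ + 1, _, _, _, h, hab => ⟨oo_mono h.1 hab, syN_mono h.2.1 hab,
      syN_mono h.2.2.1 (by omega), syN_mono h.2.2.2 (by omega)⟩

theorem syN_zero : ∀ {n : ℕ} {m : ℤ}, SyN n m (0 : Fx)
  | 0, _ => oo_zero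
  | _ + 1, _ => ⟨oo_zero, by rw [D_zero]; exact syN_zero, by rw [D_zero]; exact syN_zero,
      by rw [D_zero]; exact syN_zero⟩

theorem syN_add : ∀ {n : ℕ} {m : ℤ} {f g : Fx}, Sm f → Sm g → SyN n m f → SyN n m g →
    SyN n m (f + g)
  | 0, _, _, _, _, _, hf, hg => oo_add hf hg
  | _ + 1, _, _, _, sf, sg', hf, hg => ⟨oo_add hf.1 hg.1,
      by rw [D_add _ sf sg']; exact syN_add (sm_D _ sf) (sm_D _ sg') hf.2.1 hg.2.1,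
      by rw [D_add _ sf sg']; exact syN_add (sm_D _ sf) (sm_D _ sg') hf.2.2.1 hg.2.2.1,
      by rw [D_add _ sf sg']; exact syN_add (sm_D _ sf) (sm_D _ sg') hf.2.2.2 hg.2.2.2⟩

theorem syN_neg : ∀ {n : ℕ} {m : ℤ} {f : Fx}, SyN n m f → SyN n m (-f)
  | 0, _, _, hf => oo_neg hf
  | _ + 1, _, _, hf => ⟨oo_neg hf.1, by rw [D_neg]; exact syN_neg hf.2.1,
      by rw [D_neg]; exact syN_neg hf.2.2.1, by rw [D_neg]; exact syN_neg hf.2.2.2⟩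

theorem syN_mul : ∀ {n : ℕ} {a b : ℤ} {f g : Fx}, Sm f → Sm g → SyN n a f → SyN n b g →
    SyN n (a + b) (f * g)
  | 0, _, _, _, _, _, _, hf, hg => oo_mul hf hg
  | _ + 1, _, _, _, _, sf, sg', hf, hg => ⟨oo_mul hf.1 hg.1,
      by
        rw [D_mul _ sf sg']
        exact syN_add (sm_mul (sm_D _ sf) sg') (sm_mul sf (sm_D _ sg'))
          (syN_mul (sm_D _ sf) sg' hf.2.1 (syN_succ hg))
          (syN_mul sf (sm_D _ sg') (syN_succ hf) hg.2.1),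
      by
        rw [D_mul _ sf sg']
        exact syN_add (sm_mul (sm_D _ sf) sg') (sm_mul sf (sm_D _ sg'))
          (syN_mono (syN_mul (sm_D _ sf) sg' hf.2.2.1 (syN_succ hg)) (by omega))
          (syN_mono (syN_mul sf (sm_D _ sg') (syN_succ hf) hg.2.2.1) (by omega)),
      by
        rw [D_mul _ sf sg']
        exact syN_add (sm_mul (sm_D _ sf) sg') (sm_mul sf (sm_D _ sg'))
          (syN_mono (syN_mul (sm_D _ sf) sg' hf.2.2.2 (syN_succ hg)) (by omega))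
          (syN_mono (syN_mul sf (sm_D _ sg') (syN_succ hf) hg.2.2.2) (by omega))⟩

theorem syN_comp (hf : Sy 0 f) :
    ∀ (n : ℕ) {φ : ℝ → ℝ}, ContDiff ℝ ∞ φ → SyN n 0 (φ ∘ f)
  | 0, _, hφ => oo_comp (hf.bd 0) hφ.continuous
  | n + 1, φ, hφ => by
    have s1 : Sm (deriv φ ∘ f) := ApiBP.smcomp hf.sm (ApiBP.smderiv hφ)
    have i1 := syN_comp hf n (ApiBP.smderiv hφ)
    have h1 := hf.bd (n + 1)
    refine ⟨oo_comp (hf.bd 0) hφ.continuous, ?_, ?_, ?_⟩ <;> rw [ApiBP.dcomp _ hf.sm hφ]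
    · exact syN_mono (syN_mul s1 (sm_D _ hf.sm) i1 h1.2.1) (by omega)
    · exact syN_mono (syN_mul s1 (sm_D _ hf.sm) i1 h1.2.2.1) (by omega)
    · exact syN_mono (syN_mul s1 (sm_D _ hf.sm) i1 h1.2.2.2) (by omega)

theorem syN_iv (hf : Sy a f) (h0 : ∀ p, f p ≠ 0) (ho : OO (-a) (Iv f)) :
    ∀ n : ℕ, SyN n (-a) (Iv f)
  | 0 => ho
  | n + 1 => by
    have s1 : Sm (Iv f) := sm_Iv hf.sm h0
    have i1 := syN_iv hf h0 ho n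
    have h1 := hf.bd (n + 1)
    have key : ∀ (v : X) (j : ℤ), SyN n j (D v f) → SyN n (j + -a + -a) (D v (Iv f)) := by
      intro v j hj
      rw [D_Iv v hf.sm h0]
      exact syN_neg (syN_mul (sm_mul (sm_D _ hf.sm) s1) s1 (syN_mul (sm_D _ hf.sm) s1 hj i1) i1)
    exact ⟨ho, syN_mono (key _ _ h1.2.1) (by omega), syN_mono (key _ _ h1.2.2.1) (by omega),
      syN_mono (key _ _ h1.2.2.2) (by omega)⟩

theorem sy_iv (hf : Sy a f) (h0 : ∀ p, f p ≠ 0) (ho : OO (-a) (Iv f)) : Sy (-a) (Iv f) :=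
  ⟨sm_Iv hf.sm h0, syN_iv hf h0 ho⟩

theorem sy_mk (sf : Sm f) (ho : OO m f) (h0 : Sy m (D e0 f)) (h1 : Sy (m - 1) (D e1 f))
    (h2 : Sy (m - 1) (D e2 f)) : Sy m f :=
  ⟨sf, fun n => match n with
    | 0 => ho
    | n + 1 => ⟨ho, h0.bd n, h1.bd n, h2.bd n⟩⟩

theorem closedN (P : ℤ → Fx → Prop) (h0 : ∀ m f, P m f → Sm f ∧ OO m f ∧
    (P m (D e0 f) ∨ Sy m (D e0 f)) ∧ (P (m - 1) (D e1 f) ∨ Sy (m - 1) (D e1 f)) ∧
    (P (m - 1) (D e2 f) ∨ Sy (m - 1) (D e2 f))) :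
    ∀ (n : ℕ) (m : ℤ) (f : Fx), P m f ∨ Sy m f → SyN n m f := by
  intro n
  induction n with
  | zero =>
    rintro m f (h | h)
    · exact (h0 m f h).2.1
    · exact h.bd 0
  | succ n ih =>
    rintro m f (h | h)
    · obtain ⟨_, h1, h2, h3, h4⟩ := h0 m f h
      exact ⟨h1, ih _ _ h2, ih _ _ h3, ih _ _ h4⟩
    · exact h.bd _

theorem closed (P : ℤ → Fx → Prop) (h0 : ∀ m f, P m f → Sm f ∧ OO m f ∧
    (P m (D e0 f) ∨ Sy m (D e0 f)) ∧ (P (m - 1) (D e1 f) ∨ Sy (m - 1) (D e1 f)) ∧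
    (P (m - 1) (D e2 f) ∨ Sy (m - 1) (D e2 f))) (h : P m f) : Sy m f :=
  ⟨(h0 m f h).1, fun n => closedN P h0 n m f (Or.inl h)⟩

theorem syTm {τ : ℝ → ℝ} (hτ : ContDiff ℝ ∞ τ) : Sy 0 (Tm τ) := by
  refine closed (fun m f => m = 0 ∧ ∃ σ : ℝ → ℝ, ContDiff ℝ ∞ σ ∧ f = Tm σ) ?_ ⟨rfl, τ, hτ, rfl⟩
  rintro m f ⟨rfl, σ, hσ, rfl⟩
  refine ⟨sm_Tm hσ, oo_Tm hσ.continuous, Or.inl ⟨rfl, deriv σ, ApiBP.smderiv hσ, ?_⟩,
    Or.inr ?_, Or.inr ?_⟩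
  · rw [D_Tm _ hσ]
    funext p
    simp [e0]
  · rw [D_Tm_sp rfl hσ]; exact ⟨sm_zero, fun _ => syN_zero⟩
  · rw [D_Tm_sp rfl hσ]; exact ⟨sm_zero, fun _ => syN_zero⟩

theorem abs_le_jb {t : ℝ} (p : X) (ht : t ^ 2 ≤ r2 p) : |t| ≤ 1 * jb p ^ (1 : ℤ) := by
  rw [zpow_one, one_mul]
  refine abs_le_of_sq_le_sq' ?_ (jb_pos p).le |> abs_le.2
  rw [jb_sq, rr_apply]
  linarith

theorem oo_x1 : OO 1 x1 := fun _ => ⟨1, fun p _ => abs_le_jb p (by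
  rw [x1_apply, r2_apply]; nlinarith [sq_nonneg p.2.2])⟩

theorem oo_x2 : OO 1 x2 := fun _ => ⟨1, fun p _ => abs_le_jb p (by
  rw [x2_apply, r2_apply]; nlinarith [sq_nonneg p.2.1])⟩

theorem oo_irr : OO (-2) (Iv rr) := fun _ => ⟨1, fun p _ => by
  rw [Iv_apply, one_mul, zpow_neg, abs_of_pos (inv_pos.2 (rr_pos p)), ← jb_sq]
  exact le_of_eq rfl⟩

theorem oo_el : OO 1 el := fun _ => ⟨2, fun p _ => by
  rw [zpow_one, abs_of_nonneg (el_nonneg p)]; exact el_le p⟩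

theorem cs_D (v : X) (hf : Cs2 f) : Cs2 (D v f) := by
  refine ⟨sm_D v hf.sm, fun M => ?_⟩
  obtain ⟨ρ, hρ⟩ := hf.supp (M + 1)
  refine ⟨ρ + 1, fun p h1 h2 => ?_⟩
  have ho : IsOpen {q : X | |q.1| < M + 1 ∧ ρ < ‖q.2‖} :=
    (isOpen_lt continuous_fst.abs continuous_const).inter
      (isOpen_lt continuous_const continuous_snd.norm)
  have he : f =ᶠ[𝓝 p] fun _ => 0 := by
    filter_upwards [ho.mem_nhds (show p ∈ {q : X | |q.1| < M + 1 ∧ ρ < ‖q.2‖} from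
      ⟨by linarith, by linarith⟩)] with q hq
    exact hρ q hq.1.le hq.2.le
  show fderiv ℝ f p v = 0
  rw [he.fderiv_eq]
  simp

theorem cs_oo (hf : Cs2 f) (m : ℤ) : OO m f := by
  intro M
  obtain ⟨ρ, hρ⟩ := hf.supp M
  have hc : Continuous fun p : X => f p * jb p ^ (-m) :=
    hf.sm.cont.mul (cont_jb.zpow₀ _ fun p => Or.inl (jb_pos p).ne')
  have hK : IsCompact (Icc (-M) M ×ˢ Metric.closedBall (0 : ℝ × ℝ) ρ) :=
    isCompact_Icc.prod (isCompact_closedBall _ _)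
  obtain ⟨C, hC⟩ := hK.exists_bound_of_continuousOn hc.continuousOn
  refine ⟨|C|, fun p hp => ?_⟩
  by_cases h : ρ ≤ ‖p.2‖
  · rw [hρ p hp h, abs_zero]
    exact mul_nonneg (abs_nonneg C) (jbz p m).le
  · have h1 := hC p ⟨abs_le.1 hp, by rw [mem_closedBall_zero_iff]; exact (not_le.1 h).le⟩
    rw [Real.norm_eq_abs, abs_mul, abs_of_pos (jbz p (-m)), zpow_neg,
      mul_inv_le_iff₀ (jbz p m)] at h1
    exact h1.trans (mul_le_mul_of_nonneg_right (le_abs_self C) (jbz p m).le)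

theorem cs_sy (hf : Cs2 f) (m : ℤ) : Sy m f :=
  closed (fun _ f => Cs2 f) (fun m _ h => ⟨h.sm, cs_oo h m, Or.inl (cs_D _ h), Or.inl (cs_D _ h),
    Or.inl (cs_D _ h)⟩) hf

end ApiSP

open ApiSP

/-! ### Symbols -/

theorem Sy.oo (hf : Sy m f) : OO m f := hf.bd 0
theorem Sy.mono (hf : Sy a f) (h : a ≤ b) : Sy b f := ⟨hf.sm, fun n => syN_mono (hf.bd n) h⟩
theorem Sy.D0 (hf : Sy m f) : Sy m (D e0 f) := ⟨sm_D _ hf.sm, fun n => (hf.bd (n + 1)).2.1⟩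
theorem Sy.D1 (hf : Sy m f) : Sy (m - 1) (D e1 f) :=
  ⟨sm_D _ hf.sm, fun n => (hf.bd (n + 1)).2.2.1⟩
theorem Sy.D2 (hf : Sy m f) : Sy (m - 1) (D e2 f) :=
  ⟨sm_D _ hf.sm, fun n => (hf.bd (n + 1)).2.2.2⟩
theorem Sy.add (hf : Sy m f) (hg : Sy m g) : Sy m (f + g) :=
  ⟨sm_add hf.sm hg.sm, fun n => syN_add hf.sm hg.sm (hf.bd n) (hg.bd n)⟩
theorem Sy.sub (hf : Sy m f) (hg : Sy m g) : Sy m (f - g) := by
  rw [sub_eq_add_neg]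
  exact hf.add ⟨sm_neg hg.sm, fun n => syN_neg (hg.bd n)⟩
theorem Sy.neg (hf : Sy m f) : Sy m (-f) := ⟨sm_neg hf.sm, fun n => syN_neg (hf.bd n)⟩
theorem Sy.mul (hf : Sy a f) (hg : Sy b g) : Sy (a + b) (f * g) :=
  ⟨sm_mul hf.sm hg.sm, fun n => syN_mul hf.sm hg.sm (hf.bd n) (hg.bd n)⟩
theorem Sy.mul' (hf : Sy a f) (hg : Sy b g) (h : a + b ≤ c) : Sy c (f * g) := (hf.mul hg).mono h
theorem Sy.Kmul (c : ℝ) (hf : Sy m f) : Sy m (K c * f) :=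
  (syTm (τ := fun _ => c) contDiff_const).mul' hf (by omega)
theorem Sy.Tmul {τ : ℝ → ℝ} (hτ : ContDiff ℝ ∞ τ) (hf : Sy m f) : Sy m (Tm τ * f) :=
  (syTm hτ).mul' hf (by omega)
theorem sy_zero : Sy m (0 : Fx) := ⟨sm_zero, fun _ => syN_zero⟩
theorem sy_one : Sy 0 (1 : Fx) := syTm (τ := fun _ => 1) contDiff_const
theorem sy_K (c : ℝ) : Sy 0 (K c) := syTm (τ := fun _ => c) contDiff_const
theorem sy_Tm {τ : ℝ → ℝ} (hτ : ContDiff ℝ ∞ τ) : Sy 0 (Tm τ) := syTm hτ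
theorem sy_x1 : Sy 1 x1 :=
  sy_mk sm_x1 oo_x1 (D0_x1 ▸ sy_zero) (D1_x1 ▸ sy_one) (D2_x1 ▸ sy_zero)
theorem sy_x2 : Sy 1 x2 :=
  sy_mk sm_x2 oo_x2 (D0_x2 ▸ sy_zero) (D1_x2 ▸ sy_zero) (D2_x2 ▸ sy_one)
theorem sy_r2 : Sy 2 r2 := (sy_x1.mul sy_x1).add (sy_x2.mul sy_x2)
theorem sy_rr : Sy 2 rr := ((sy_K 1).mono (by omega)).add sy_r2
theorem sy_z1 : Sy 2 z1 := (sy_x1.mul sy_x1).sub (sy_x2.mul sy_x2)
theorem sy_z2 : Sy 2 z2 := (sy_x1.Kmul 2).mul sy_x2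
theorem sy_irr : Sy (-2) (Iv rr) := sy_iv sy_rr (fun p => (rr_pos p).ne') oo_irr
theorem sy_sg : Sy (-4) sg := by
  have e : sg = Iv rr * Iv rr := by
    funext p
    simp only [sg, Iv_apply, Pi.mul_apply, mul_inv]
  rw [e]
  exact sy_irr.mul sy_irr
theorem h1_el : H1 (-1) el :=
  ⟨sm_el, D1_el ▸ (sy_x1.Kmul 2).mul sy_irr, D2_el ▸ (sy_x2.Kmul 2).mul sy_irr⟩
theorem sy_el : Sy 1 el :=
  sy_mk sm_el oo_el (D0_el ▸ sy_zero) (h1_el.d1.mono (by omega)) (h1_el.d2.mono (by omega))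
/-- A coinduction principle. -/
theorem Sy.of_closed (P : ℤ → Fx → Prop) (h0 : ∀ m f, P m f → Sm f ∧ OO m f ∧
    (P m (D e0 f) ∨ Sy m (D e0 f)) ∧ (P (m - 1) (D e1 f) ∨ Sy (m - 1) (D e1 f)) ∧
    (P (m - 1) (D e2 f) ∨ Sy (m - 1) (D e2 f))) (h : P m f) : Sy m f := closed P h0 h
theorem Sy.comp (hf : Sy 0 f) {φ : ℝ → ℝ} (hφ : ContDiff ℝ ∞ φ) : Sy 0 (φ ∘ f) :=
  ⟨ApiBP.smcomp hf.sm hφ, fun n => syN_comp hf n hφ⟩
theorem Sy.ex (hf : Sy 0 f) : Sy 0 (Ex f) := hf.comp (φ := Real.exp) Real.contDiff_exp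
theorem Sy.iv (hf : Sy 0 f) (h : ∀ M : ℝ, ∃ β : ℝ, 0 < β ∧ ∀ p : X, |p.1| ≤ M → β ≤ f p) :
    Sy 0 (Iv f) := by
  have hp : ∀ p : X, 0 < f p := fun p => by
    obtain ⟨β, h0, hβ⟩ := h |p.1|
    exact h0.trans_le (hβ p le_rfl)
  refine sy_iv hf (fun p => (hp p).ne') fun M => ?_
  obtain ⟨β, h0, hβ⟩ := h M
  refine ⟨β⁻¹, fun p hM => ?_⟩
  rw [neg_zero, zpow_zero, mul_one, Iv_apply, abs_of_pos (inv_pos.2 (hp p))]
  exact inv_anti₀ h0 (hβ p hM)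
theorem Cs2.sy (hf : Cs2 f) (m : ℤ) : Sy m f := cs_sy hf m
theorem Cs2.mul (hf : Cs2 f) (hg : Sm g) : Cs2 (f * g) :=
  ⟨sm_mul hf.sm hg, fun M => (hf.supp M).imp fun _ hρ p h1 h2 => by
    rw [Pi.mul_apply, hρ p h1 h2, zero_mul]⟩
theorem Cs2.mul' (hf : Sm f) (hg : Cs2 g) : Cs2 (f * g) := mul_comm g f ▸ hg.mul hf
theorem Cs2.add (hf : Cs2 f) (hg : Cs2 g) : Cs2 (f + g) := by
  refine ⟨sm_add hf.sm hg.sm, fun M => ?_⟩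
  obtain ⟨ρ, hρ⟩ := hf.supp M
  obtain ⟨ρ', hρ'⟩ := hg.supp M
  refine ⟨max ρ ρ', fun p h1 h2 => ?_⟩
  rw [Pi.add_apply, hρ p h1 ((le_max_left _ _).trans h2), hρ' p h1 ((le_max_right _ _).trans h2),
    add_zero]
theorem Cs2.sub (hf : Cs2 f) (hg : Cs2 g) : Cs2 (f - g) := by
  refine ⟨sm_sub hf.sm hg.sm, fun M => ?_⟩
  obtain ⟨ρ, hρ⟩ := hf.supp M
  obtain ⟨ρ', hρ'⟩ := hg.supp M
  refine ⟨max ρ ρ', fun p h1 h2 => ?_⟩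
  rw [Pi.sub_apply, hρ p h1 ((le_max_left _ _).trans h2), hρ' p h1 ((le_max_right _ _).trans h2),
    sub_zero]
theorem Cs2.D (v : X) (hf : Cs2 f) : Cs2 (D v f) := cs_D v hf
theorem Sy.h1 (hf : Sy m f) : H1 (m - 1) f := ⟨hf.sm, hf.D1, hf.D2⟩
theorem H1.h2 (hf : H1 m f) : H2 (m - 1) f := ⟨hf.sm, hf.d1.D1, hf.d2.D1, hf.d2.D2⟩
theorem H1.mono (hf : H1 a f) (h : a ≤ b) : H1 b f := ⟨hf.sm, hf.d1.mono h, hf.d2.mono h⟩
theorem H2.mono (hf : H2 a f) (h : a ≤ b) : H2 b f :=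
  ⟨hf.sm, hf.d11.mono h, hf.d12.mono h, hf.d22.mono h⟩
theorem H1.add (hf : H1 m f) (hg : H1 m g) : H1 m (f + g) :=
  ⟨sm_add hf.sm hg.sm, by rw [D_add _ hf.sm hg.sm]; exact hf.d1.add hg.d1,
    by rw [D_add _ hf.sm hg.sm]; exact hf.d2.add hg.d2⟩
theorem H1.sub (hf : H1 m f) (hg : H1 m g) : H1 m (f - g) :=
  ⟨sm_sub hf.sm hg.sm, by rw [D_sub _ hf.sm hg.sm]; exact hf.d1.sub hg.d1,
    by rw [D_sub _ hf.sm hg.sm]; exact hf.d2.sub hg.d2⟩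
theorem H1.Kmul (c : ℝ) (hf : H1 m f) : H1 m (K c * f) :=
  ⟨sm_mul (sm_K c) hf.sm, by rw [ApiBP.dK _ c hf.sm]; exact hf.d1.Kmul c,
    by rw [ApiBP.dK _ c hf.sm]; exact hf.d2.Kmul c⟩
theorem H2.g1 (hf : H2 m f) : H1 m (D e1 f) :=
  ⟨sm_D _ hf.sm, hf.d11, by rw [D_comm e2 e1 hf.sm]; exact hf.d12⟩
theorem H2.g2 (hf : H2 m f) : H1 m (D e2 f) := ⟨sm_D _ hf.sm, hf.d12, hf.d22⟩
theorem H1.ip2 (hf : H1 a f) (hg : H1 b g) : Sy (a + b) (ip2 f g) :=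
  (hf.d1.mul hg.d1).add (hf.d2.mul hg.d2)
theorem H1.gr (hf : H1 a f) : Sy (a + a) (gr f) := hf.ip2 hf
theorem H1.Jc (hf : H1 a f) (hg : H1 b g) : Sy (a + b) (Jc f g) :=
  (hf.d1.mul hg.d2).sub (hf.d2.mul hg.d1)
theorem H1.EE (hf : H1 a f) (hg : H1 a g) : Sy (a + a) (EE f g) := hf.gr.add hg.gr
theorem H2.Lp (hf : H2 a f) : Sy a (Lp f) := hf.d11.add hf.d22
theorem H2.hs (hf : H2 a f) : Sy (a + a) (hs f) := hf.g1.gr.add hf.g2.gr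
theorem H2.W (hf : H2 a f) : Sy (a + a) (W f) := (hf.d11.mul hf.d22).sub (hf.d12.mul hf.d12)
theorem H2.DD (hf : H2 a f) (hg : H2 b g) : Sy (a + b) (DD f g) :=
  ((hf.d11.mul hg.d22).add (hf.d22.mul hg.d11)).sub ((hf.d12.Kmul 2).mul hg.d12)
theorem H2.BB (hf : H2 a f) (hg : H1 b g) (hh : H1 c h) : Sy (a + b + c) (BB f g h) :=
  (((hf.d22.mul hg.d1).mul hh.d1).add ((hf.d11.mul hg.d2).mul hh.d2)).sub
    (hf.d12.mul' ((hg.d1.mul hh.d2).add (hg.d2.mul hh.d1)) (by omega))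
theorem H2.q1 (hf : H2 a f) : Sy a (q1 f) := (hf.d11.sub hf.d22).Kmul _
theorem H2.q2 (hf : H2 a f) : Sy a (q2 f) := hf.d12.Kmul _
theorem H2.pp (hf : H2 a f) : Sy a (pp f) := hf.Lp.Kmul _
theorem H2.qq (hf : H2 a f) : Sy (a + a) (qq f) := (hf.q1.mul hf.q1).add (hf.q2.mul hf.q2)

end Pool.Agent.P.MP_2cea5e_gt.Se
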