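import Pool.Agent.P.MP_2cea5e_gt.Se.ApiW

/-!
Change of variables under the inversion.
-/

open scoped ContDiff Topology
open MeasureTheory Set Filter

noncomputable section

namespace Pool.Agent.P.MP_2cea5e_gt.Se

namespace ApiVP

def ρ (y : ℝ × ℝ) : ℝ := y.1 * y.1 + y.2 * y.2

def J (y : ℝ × ℝ) : ℝ × ℝ := (y.1 / ρ y, -y.2 / ρ y)

def J' (y : ℝ × ℝ) : ℝ × ℝ →L[ℝ] ℝ × ℝ :=
  (Matrix.toLin (.finTwoProd ℝ) (.finTwoProd ℝ)
    !![(y.2 * y.2 - y.1 * y.1) / ρ y ^ 2, -(2 * y.1 * y.2) / ρ y ^ 2;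
      2 * y.1 * y.2 / ρ y ^ 2, (y.2 * y.2 - y.1 * y.1) / ρ y ^ 2]).toContinuousLinearMap

theorem r2_eq (s : ℝ) (y : ℝ × ℝ) : r2 (s, y) = ρ y := by
  simp [r2, x1, x2, Li, ρ]

theorem iv_eq (s : ℝ) (y : ℝ × ℝ) : iv (s, y) = (s, J y) := by
  simp only [iv, r2_eq, J]

theorem ρ_nonneg (y : ℝ × ℝ) : 0 ≤ ρ y := add_nonneg (mul_self_nonneg _) (mul_self_nonneg _)

theorem ρ_ne {y : ℝ × ℝ} (h : y ≠ 0) : ρ y ≠ 0 := fun h0 => by
  rw [ρ, mul_self_add_mul_self_eq_zero] at h0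
  exact h (Prod.ext h0.1 h0.2)

theorem ρ_J (y : ℝ × ℝ) : ρ (J y) = (ρ y)⁻¹ := by
  by_cases h : ρ y = 0
  · simp only [J, h, div_zero, inv_zero]
    simp [ρ]
  · have : ρ (J y) = (y.1 * y.1 + y.2 * y.2) / (ρ y * ρ y) := by
      simp only [J]
      rw [ρ]
      field_simp
    rw [this]
    change ρ y / (ρ y * ρ y) = _
    field_simp

theorem J_J {y : ℝ × ℝ} (h : y ≠ 0) : J (J y) = y := by
  have h0 := ρ_ne h
  refine Prod.ext ?_ ?_
  · change (J y).1 / ρ (J y) = y.1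
    rw [ρ_J]
    simp only [J]
    field_simp
  · change -(J y).2 / ρ (J y) = y.2
    rw [ρ_J]
    simp only [J]
    field_simp

theorem J_ne {y : ℝ × ℝ} (h : y ≠ 0) : J y ≠ 0 := fun h0 => by
  have h1 := ρ_J y
  rw [h0] at h1
  have h2 : ρ 0 = 0 := by simp [ρ]
  rw [h2] at h1
  exact inv_ne_zero (ρ_ne h) h1.symm

theorem det_J' {y : ℝ × ℝ} (h : y ≠ 0) : (J' y).det = (ρ y)⁻¹ * (ρ y)⁻¹ := by
  have h0 := ρ_ne h
  unfold J'
  simp only [LinearMap.det_toContinuousLinearMap, LinearMap.det_toLin, Matrix.det_fin_two_of]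
  field_simp
  rw [ρ]
  ring

theorem hasFDerivAt_J {y : ℝ × ℝ} (h : y ≠ 0) : HasFDerivAt J (J' y) y := by
  have h0 := ρ_ne h
  have hρ : HasFDerivAt ρ _ y :=
    ((hasFDerivAt_fst (𝕜 := ℝ) (p := y)).mul hasFDerivAt_fst).add
      ((hasFDerivAt_snd (𝕜 := ℝ) (p := y)).mul hasFDerivAt_snd)
  have hi := (hasDerivAt_inv h0).comp_hasFDerivAt y hρ
  have h1 := ((hasFDerivAt_fst (𝕜 := ℝ) (p := y)).mul hi).prodMk
    ((hasFDerivAt_snd (𝕜 := ℝ) (p := y)).neg.mul hi)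
  have e : J = fun z : ℝ × ℝ => (z.1 * (ρ z)⁻¹, -z.2 * (ρ z)⁻¹) := by
    funext z
    simp only [J, div_eq_mul_inv]
  rw [e]
  refine h1.congr_fderiv ?_
  unfold J'
  rw [Matrix.toLin_finTwoProd_toContinuousLinearMap]
  refine ContinuousLinearMap.ext fun v => Prod.ext ?_ ?_
  · simp
    field_simp
    rw [ρ]
    ring
  · simp
    field_simp
    rw [ρ]
    ring

theorem iB_eq (x : ℝ × ℝ) (r : ℝ) : iB x r = J '' (Metric.ball x r \ {0}) := by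
  ext y
  constructor
  · rintro ⟨h1, h2⟩
    rw [iv_eq] at h2
    exact ⟨J y, ⟨h2, J_ne h1⟩, J_J h1⟩
  · rintro ⟨z, ⟨h1, h2⟩, rfl⟩
    refine ⟨J_ne h2, ?_⟩
    rw [iv_eq]
    change J (J z) ∈ _
    rwa [J_J h2]

theorem ms (x : ℝ × ℝ) (r : ℝ) : MeasurableSet (Metric.ball x r \ {0}) :=
  measurableSet_ball.diff (measurableSet_singleton _)

theorem inj (x : ℝ × ℝ) (r : ℝ) : InjOn J (Metric.ball x r \ {0}) := fun a ha b hb e => by
  rw [← J_J ha.2, e, J_J hb.2]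

theorem der (x : ℝ × ℝ) (r : ℝ) : ∀ y ∈ Metric.ball x r \ {0},
    HasFDerivWithinAt J (J' y) (Metric.ball x r \ {0}) y := fun _ hy =>
  (hasFDerivAt_J hy.2).hasFDerivWithinAt

theorem ae (x : ℝ × ℝ) (r : ℝ) :
    (Metric.ball x r \ {0} : Set (ℝ × ℝ)) =ᵐ[volume] Metric.ball x r :=
  sdiff_null_ae_eq_self (measure_singleton _)

theorem val (f : Fx) (s : ℝ) {y : ℝ × ℝ} (h : y ≠ 0) :
    |(J' y).det| • f (s, J y) = (r2 * r2 * f) (iv (s, y)) := by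
  rw [det_J' h, iv_eq, abs_mul_self, smul_eq_mul]
  simp only [Pi.mul_apply, r2_eq, ρ_J]

end ApiVP

variable {f g f' g' : Fx} {p : X}

theorem measurableSet_iB (x : ℝ × ℝ) (r : ℝ) : MeasurableSet (iB x r) := by
  rw [ApiVP.iB_eq]
  exact measurable_image_of_fderivWithin (ApiVP.ms x r) (ApiVP.der x r) (ApiVP.inj x r)
/-- Change of variables. -/
theorem integrableOn_iv (f : Fx) (s : ℝ) (x : ℝ × ℝ) (r : ℝ) :
    IntegrableOn (fun y : ℝ × ℝ => (r2 * r2 * f) (iv (s, y))) (Metric.ball x r) ↔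
      IntegrableOn (fun y : ℝ × ℝ => f (s, y)) (iB x r) := by
  rw [ApiVP.iB_eq, integrableOn_image_iff_integrableOn_abs_det_fderiv_smul volume (ApiVP.ms x r)
    (ApiVP.der x r) (ApiVP.inj x r), ← integrableOn_congr_set_ae (ApiVP.ae x r)]
  exact integrableOn_congr_fun (fun y hy => (ApiVP.val f s hy.2).symm) (ApiVP.ms x r)
theorem Ib_iv (f : Fx) (s : ℝ) (x : ℝ × ℝ) (r : ℝ) :
    Ib (fun p => (r2 * r2 * f) (iv p)) s x r = Ii f s x r := by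
  rw [Ib, Ii, ApiVP.iB_eq, integral_image_eq_integral_abs_det_fderiv_smul volume (ApiVP.ms x r)
    (ApiVP.der x r) (ApiVP.inj x r), ← setIntegral_congr_set (ApiVP.ae x r)]
  exact setIntegral_congr_fun (ApiVP.ms x r) fun y hy => (ApiVP.val f s hy.2).symm
theorem Ib_wit (h : ∀ p : X, p.2 ≠ 0 → g p = (r2 * r2 * f) (iv p)) (s : ℝ) (x : ℝ × ℝ) (r : ℝ) :
    Ib g s x r = Ii f s x r := by
  rw [← Ib_iv, Ib, Ib, ← setIntegral_congr_set (ApiVP.ae x r),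
    ← setIntegral_congr_set (ApiVP.ae x r)]
  exact setIntegral_congr_fun (ApiVP.ms x r) fun y hy => h (s, y) hy.2
theorem Ig.loc_iv (h : Ig f) : Loc fun p => (r2 * r2 * f) (iv p) := fun s x r =>
  (integrableOn_iv f s x r).2 (h s).integrableOn
theorem Ii_sg (s : ℝ) (x : ℝ × ℝ) {r : ℝ} (hr : 0 ≤ r) : Ii sg s x r ≤ 4 * r ^ 2 := by
  have hv : (volume : Measure (ℝ × ℝ)).real (Metric.ball x r) = 4 * r ^ 2 := by
    rw [← ball_prod_same, Measure.real, Measure.volume_eq_prod, Measure.prod_prod,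
      Real.volume_ball, Real.volume_ball, ENNReal.toReal_mul,
      ENNReal.toReal_ofReal (by positivity)]
    ring
  have h1 := norm_setIntegral_le_of_norm_le_const (μ := volume) (s := Metric.ball x r)
    (f := fun y : ℝ × ℝ => (r2 * r2 * sg) (iv (s, y))) (C := 1) measure_ball_lt_top
    fun y _ => by
      rw [ApiVP.iv_eq]
      have h0 := ApiVP.ρ_nonneg (ApiVP.J y)
      have e : (r2 * r2 * sg) (s, ApiVP.J y) = ApiVP.ρ (ApiVP.J y) * ApiVP.ρ (ApiVP.J y) *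
          ((1 + ApiVP.ρ (ApiVP.J y)) * (1 + ApiVP.ρ (ApiVP.J y)))⁻¹ := by
        simp only [Pi.mul_apply, sg, Iv, rr, Pi.add_apply, K, ApiVP.r2_eq]
      rw [e, Real.norm_eq_abs, abs_of_nonneg (by positivity), ← div_eq_mul_inv,
        div_le_one (by positivity)]
      nlinarith
  rw [← Ib_iv, Ib]
  rw [hv, one_mul, Real.norm_eq_abs] at h1
  exact (le_abs_self _).trans h1
theorem Ii_le_In (h : Ig f) {s : ℝ} (h0 : ∀ y, 0 ≤ f (s, y)) (x : ℝ × ℝ) (r : ℝ) :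
    Ii f s x r ≤ In f s :=
  setIntegral_le_integral (h s) (Eventually.of_forall h0)
theorem Ii_mono (hf : Ig f) (hg : Ig g) {s : ℝ} {x : ℝ × ℝ} {r : ℝ}
    (h : ∀ y ∈ iB x r, f (s, y) ≤ g (s, y)) : Ii f s x r ≤ Ii g s x r :=
  setIntegral_mono_on (hf s).integrableOn (hg s).integrableOn (measurableSet_iB x r) h
theorem Ii_add (hf : Ig f) (hg : Ig g) (s : ℝ) (x : ℝ × ℝ) (r : ℝ) :
    Ii (f + g) s x r = Ii f s x r + Ii g s x r :=
  integral_add (hf s).integrableOn (hg s).integrableOn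
theorem Ii_Kmul (c : ℝ) (f : Fx) (s : ℝ) (x : ℝ × ℝ) (r : ℝ) :
    Ii (K c * f) s x r = c * Ii f s x r :=
  integral_const_mul c fun y : ℝ × ℝ => f (s, y)
theorem Ii_cs {h : Fx} (hg : Ig g) (hh : Ig h) {s : ℝ} (g0 : ∀ y, 0 ≤ g (s, y))
    (h0 : ∀ y, 0 ≤ h (s, y)) (H : ∀ y, f (s, y) ^ 2 ≤ g (s, y) * h (s, y)) (x : ℝ × ℝ) (r : ℝ) :
    |Ii f s x r| ≤ √(Ii g s x r) * √(In h s) :=
  (cs_int (μ := volume.restrict (iB x r)) (hg s).integrableOn (hh s).integrableOn g0 h0 H).trans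
    (mul_le_mul_of_nonneg_left (Real.sqrt_le_sqrt (Ii_le_In hh h0 x r)) (Real.sqrt_nonneg _))

end Pool.Agent.P.MP_2cea5e_gt.Se
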