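import Pool.Agent.P.MP_2cea5e_gt.Se.ApiI

/-!
The chart at infinity.
-/

open scoped ContDiff Topology
open MeasureTheory Set Filter

noncomputable section

namespace Pool.Agent.P.MP_2cea5e_gt.Se

variable {f g f' g' : Fx} {p : X}

theorem iv_fst (p : X) : (iv p).1 = p.1 := rfl
theorem iv_snd (s : ℝ) (x : ℝ × ℝ) : (iv (s, x)).2 = (iv (0, x)).2 := rfl
theorem ApiWP.iv21 (p : X) : (iv p).2.1 = p.2.1 / r2 p := rfl
theorem ApiWP.iv22 (p : X) : (iv p).2.2 = -p.2.2 / r2 p := rfl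
theorem ApiWP.r2_iv (p : X) : r2 (iv p) = (r2 p)⁻¹ := by
  rw [r2_apply (iv p), ApiWP.iv21, ApiWP.iv22]
  by_cases h : r2 p = 0
  · simp [h]
  · have e := r2_apply p
    field_simp
    linarith
theorem ApiWP.ne_of_r2 (h : r2 p ≠ 0) : p.2 ≠ 0 := by
  intro e
  apply h
  rw [r2_apply, e]; simp
theorem iv_ne (h : p.2 ≠ 0) : (iv p).2 ≠ 0 := by
  apply ApiWP.ne_of_r2
  rw [ApiWP.r2_iv]
  exact inv_ne_zero (r2_pos h).ne'
theorem iv_iv (h : p.2 ≠ 0) : iv (iv p) = p := by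
  have h0 := (r2_pos h).ne'
  refine Prod.ext rfl (Prod.ext ?_ ?_)
  · rw [ApiWP.iv21, ApiWP.iv21, ApiWP.r2_iv]; field_simp
  · rw [ApiWP.iv22, ApiWP.iv22, ApiWP.r2_iv]; field_simp
theorem r2_iv (p : X) : r2 (iv p) = (r2 p)⁻¹ := ApiWP.r2_iv p
theorem x1_iv (p : X) : x1 (iv p) = x1 p / r2 p := by
  rw [x1_apply, x1_apply, ApiWP.iv21]
theorem x2_iv (p : X) : x2 (iv p) = -x2 p / r2 p := by
  rw [x2_apply, x2_apply, ApiWP.iv22]
theorem rr_iv (h : p.2 ≠ 0) : rr (iv p) = rr p / r2 p := by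
  have h0 := (r2_pos h).ne'
  rw [rr_apply, rr_apply, r2_iv]; field_simp; ring
theorem sg_iv (h : p.2 ≠ 0) : sg (iv p) = r2 p ^ 2 * sg p := by
  have h0 := (r2_pos h).ne'
  have h1 := (rr_pos p).ne'
  rw [sg_apply, sg_apply, rr_iv h]; field_simp
theorem el_iv (h : p.2 ≠ 0) : el (iv p) = el p - Real.log (r2 p) := by
  rw [el_apply, el_apply, rr_iv h, Real.log_div (rr_pos p).ne' (r2_pos h).ne']
theorem contDiffAt_iv (h : p.2 ≠ 0) : ContDiffAt ℝ ∞ iv p := by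
  have h0 := (r2_pos h).ne'
  have a : ContDiffAt ℝ ∞ (fun q : X => q.2.1 / r2 q) p :=
    ContDiffAt.div (by fun_prop) sm_r2.contDiffAt h0
  have b : ContDiffAt ℝ ∞ (fun q : X => -q.2.2 / r2 q) p :=
    ContDiffAt.div (by fun_prop) sm_r2.contDiffAt h0
  exact contDiffAt_fst.prodMk (a.prodMk b)
/-- Closed conditions extend to the origin. -/
theorem le_of_ne_zero (hf : Continuous f) (hg : Continuous g) {s : ℝ}
    (h : ∀ x : ℝ × ℝ, x ≠ 0 → f (s, x) ≤ g (s, x)) (x : ℝ × ℝ) : f (s, x) ≤ g (s, x) := by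
  have hc : IsClosed {y : ℝ × ℝ | f (s, y) ≤ g (s, y)} :=
    isClosed_le (hf.comp (by fun_prop)) (hg.comp (by fun_prop))
  have hd : Dense ({(0 : ℝ × ℝ)}ᶜ : Set (ℝ × ℝ)) := dense_compl_singleton 0
  have : closure ({(0 : ℝ × ℝ)}ᶜ : Set (ℝ × ℝ)) ⊆ {y : ℝ × ℝ | f (s, y) ≤ g (s, y)} :=
    hc.closure_subset_iff.2 fun y hy => h y hy
  exact this (hd x)
theorem eq_of_ne_zero (hf : Continuous f) (hg : Continuous g)
    (h : ∀ p : X, p.2 ≠ 0 → f p = g p) : f = g := by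
  funext p
  exact le_antisymm (le_of_ne_zero hf hg (s := p.1) (fun x hx => (h (p.1, x) hx).le) p.2)
    (le_of_ne_zero hg hf (s := p.1) (fun x hx => (h (p.1, x) hx).ge) p.2)

theorem ApiWP.z1_iv (p : X) : z1 (iv p) = z1 p / r2 p ^ 2 := by
  rw [z1_apply, z1_apply, ApiWP.iv21, ApiWP.iv22]; ring
theorem ApiWP.z2_iv (p : X) : z2 (iv p) = -z2 p / r2 p ^ 2 := by
  rw [z2_apply, z2_apply, ApiWP.iv21, ApiWP.iv22]; ring

theorem Wit.eq' (h : Wit f g) (hp : p.2 ≠ 0) : f p = g (iv p) := by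
  rw [h.eq _ (iv_ne hp), iv_iv hp]
theorem Wit.symm (h : Wit f g) (hf : Sm f) : Wit g f := ⟨hf, fun _ hp => h.eq' hp⟩
theorem Wit.unique (h : Wit f g) (h' : Wit f g') : g = g' :=
  eq_of_ne_zero h.sm.cont h'.sm.cont fun p hp => by rw [h.eq p hp, h'.eq p hp]
theorem Wit.congr (h : Wit f g) (e : ∀ p : X, p.2 ≠ 0 → f' p = f p) : Wit f' g :=
  ⟨h.sm, fun p hp => by rw [h.eq p hp, e _ (iv_ne hp)]⟩
theorem Wit.add (h : Wit f g) (h' : Wit f' g') : Wit (f + f') (g + g') :=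
  ⟨sm_add h.sm h'.sm, fun p hp => by simp only [Pi.add_apply, h.eq p hp, h'.eq p hp]⟩
theorem Wit.sub (h : Wit f g) (h' : Wit f' g') : Wit (f - f') (g - g') :=
  ⟨sm_sub h.sm h'.sm, fun p hp => by simp only [Pi.sub_apply, h.eq p hp, h'.eq p hp]⟩
theorem Wit.mul (h : Wit f g) (h' : Wit f' g') : Wit (f * f') (g * g') :=
  ⟨sm_mul h.sm h'.sm, fun p hp => by simp only [Pi.mul_apply, h.eq p hp, h'.eq p hp]⟩
theorem Wit.neg (h : Wit f g) : Wit (-f) (-g) :=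
  ⟨sm_neg h.sm, fun p hp => by simp only [Pi.neg_apply, h.eq p hp]⟩
theorem Wit.Kmul (c : ℝ) (h : Wit f g) : Wit (K c * f) (K c * g) :=
  ⟨sm_mul (sm_K c) h.sm, fun p hp => by simp only [Pi.mul_apply, K_apply, h.eq p hp]⟩
theorem Wit.ex (h : Wit f g) : Wit (Ex f) (Ex g) :=
  ⟨sm_Ex h.sm, fun p hp => by simp only [Ex_apply, h.eq p hp]⟩
theorem wit_K (c : ℝ) : Wit (K c) (K c) := ⟨sm_K c, fun _ _ => rfl⟩
theorem wit_Tm {τ : ℝ → ℝ} (hτ : ContDiff ℝ ∞ τ) : Wit (Tm τ) (Tm τ) :=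
  ⟨sm_Tm hτ, fun _ _ => rfl⟩
theorem wit_irr : Wit (Iv rr) (r2 * Iv rr) :=
  ⟨sm_mul sm_r2 sm_irr, fun p hp => by
    simp only [Pi.mul_apply, Iv_apply, rr_iv hp, inv_div]
    rw [div_eq_mul_inv]⟩
theorem wit_sg : Wit sg (r2 * r2 * sg) :=
  ⟨sm_mul (sm_mul sm_r2 sm_r2) sm_sg, fun p hp => by
    simp only [Pi.mul_apply, sg_iv hp]; ring⟩
theorem wit_sg' : Wit (r2 * r2 * sg) sg := wit_sg.symm sm_sg

namespace ApiWP

/-- The derivative of the inversion along a line. -/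
theorem line_iv (q v : X) (h : q.2 ≠ 0) :
    HasDerivAt (fun r : ℝ => iv (q + r • v))
      ((v.1, -(z1 (iv q) * v.2.1 - z2 (iv q) * v.2.2), -(z1 (iv q) * v.2.2 + z2 (iv q) * v.2.1)) : X)
      0 := by
  have h0 := (r2_pos h).ne'
  have l : HasDerivAt (fun r : ℝ => q + r • v) v 0 := by
    simpa using ((hasDerivAt_id (0 : ℝ)).smul_const v).const_add q
  have l0 : HasDerivAt (fun r : ℝ => (q + r • v).1) v.1 0 := l.fst
  have l1 : HasDerivAt (fun r : ℝ => (q + r • v).2.1) v.2.1 0 := l.snd.fst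
  have l2 : HasDerivAt (fun r : ℝ => (q + r • v).2.2) v.2.2 0 := l.snd.snd
  have lr : HasDerivAt (fun r : ℝ => r2 (q + r • v)) (2 * q.2.1 * v.2.1 + 2 * q.2.2 * v.2.2) 0 := by
    have e : (fun r : ℝ => r2 (q + r • v)) =
        fun r : ℝ => (q + r • v).2.1 * (q + r • v).2.1 + (q + r • v).2.2 * (q + r • v).2.2 := by
      funext r; rw [r2_apply]; ring
    rw [e]
    refine ((l1.mul l1).add (l2.mul l2)).congr_deriv ?_
    simp only [zero_smul, add_zero]; ring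
  have h1 : r2 (q + (0 : ℝ) • v) ≠ 0 := by simpa using h0
  have a := l1.div lr h1
  have b := l2.neg.div lr h1
  have e := r2_apply q
  refine HasDerivAt.prodMk l0 (HasDerivAt.prodMk ?_ ?_)
  · refine a.congr_deriv ?_
    rw [z1_iv, z2_iv]
    simp only [zero_smul, add_zero, z1_apply, z2_apply]
    field_simp
    rw [e]; ring
  · refine b.congr_deriv ?_
    rw [z1_iv, z2_iv]
    simp only [zero_smul, add_zero, z1_apply, z2_apply, Pi.neg_apply]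
    field_simp
    rw [e]; ring

theorem D_wit (h : Wit f g) (hf : Sm f) (v : X) (hp : p.2 ≠ 0) :
    D v f (iv p) = v.1 * D e0 g p - (z1 p * v.2.1 - z2 p * v.2.2) * D e1 g p -
      (z1 p * v.2.2 + z2 p * v.2.1) * D e2 g p := by
  have hq := iv_ne hp
  have h1 := hasDerivAt_line hf (iv p) v 0
  have h2 := line_iv (iv p) v hq
  rw [iv_iv hp] at h2
  have e0' : iv (iv p + (0 : ℝ) • v) = p := by simpa using iv_iv hp
  have h3 : HasFDerivAt g (fderiv ℝ g p) (iv (iv p + (0 : ℝ) • v)) := by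
    rw [e0']; exact (h.sm.diff p).hasFDerivAt
  have h4 := h3.comp_hasDerivAt (0 : ℝ) h2
  have hev : ∀ᶠ r in 𝓝 (0 : ℝ), (iv p + r • v).2 ≠ 0 := by
    have hc : Continuous fun r : ℝ => (iv p + r • v).2 := by fun_prop
    exact hc.continuousAt.eventually_ne (by simpa using hq)
  have h5 : (fun r : ℝ => f (iv p + r • v)) =ᶠ[𝓝 0] g ∘ fun r : ℝ => iv (iv p + r • v) :=
    hev.mono fun r hr => h.eq' hr
  have h6 := h1.unique (h4.congr_of_eventuallyEq h5)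
  simp only [zero_smul, add_zero] at h6
  rw [h6]
  have h7 := congrFun (D_dir3
    ((v.1, -(z1 p * v.2.1 - z2 p * v.2.2), -(z1 p * v.2.2 + z2 p * v.2.1)) : X) g) p
  simp only [Pi.add_apply, Pi.mul_apply, K_apply] at h7
  refine Eq.trans h7 ?_
  ring

end ApiWP

theorem Wit.D0 (h : Wit f g) (hf : Sm f) : Wit (D e0 f) (D e0 g) :=
  ⟨sm_D _ h.sm, fun p hp => by rw [ApiWP.D_wit h hf e0 hp]; simp [e0]⟩
theorem Wit.D1 (h : Wit f g) (hf : Sm f) : Wit (D e1 f) (-(z1 * D e1 g + z2 * D e2 g)) :=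
  ⟨sm_neg (sm_add (sm_mul sm_z1 (sm_D _ h.sm)) (sm_mul sm_z2 (sm_D _ h.sm))), fun p hp => by
    rw [ApiWP.D_wit h hf e1 hp]
    simp only [Pi.neg_apply, Pi.add_apply, Pi.mul_apply]
    have a : e1.1 = 0 := rfl
    have b : e1.2.1 = 1 := rfl
    have c : e1.2.2 = 0 := rfl
    rw [a, b, c]; ring⟩
theorem Wit.D2 (h : Wit f g) (hf : Sm f) : Wit (D e2 f) (z2 * D e1 g - z1 * D e2 g) :=
  ⟨sm_sub (sm_mul sm_z2 (sm_D _ h.sm)) (sm_mul sm_z1 (sm_D _ h.sm)), fun p hp => by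
    rw [ApiWP.D_wit h hf e2 hp]
    simp only [Pi.sub_apply, Pi.mul_apply]
    have a : e2.1 = 0 := rfl
    have b : e2.2.1 = 0 := rfl
    have c : e2.2.2 = 1 := rfl
    rw [a, b, c]; ring⟩

namespace ApiWP

theorem v1 (h : Wit f g) (hf : Sm f) (hp : p.2 ≠ 0) :
    D e1 f (iv p) = -(z1 p * D e1 g p + z2 p * D e2 g p) := ((h.D1 hf).eq p hp).symm
theorem v2 (h : Wit f g) (hf : Sm f) (hp : p.2 ≠ 0) :
    D e2 f (iv p) = z2 p * D e1 g p - z1 p * D e2 g p := ((h.D2 hf).eq p hp).symm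

theorem dG1 (v : X) (hg : Sm g) (p : X) : D v (-(z1 * D e1 g + z2 * D e2 g)) p =
    -(D v z1 p * D e1 g p + z1 p * D v (D e1 g) p + (D v z2 p * D e2 g p + z2 p * D v (D e2 g) p)) := by
  rw [D_neg, D_add v (sm_mul sm_z1 (sm_D _ hg)) (sm_mul sm_z2 (sm_D _ hg)),
    D_mul v sm_z1 (sm_D _ hg), D_mul v sm_z2 (sm_D _ hg)]
  rfl
theorem dG2 (v : X) (hg : Sm g) (p : X) : D v (z2 * D e1 g - z1 * D e2 g) p =
    D v z2 p * D e1 g p + z2 p * D v (D e1 g) p - (D v z1 p * D e2 g p + z1 p * D v (D e2 g) p) := by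
  rw [D_sub v (sm_mul sm_z2 (sm_D _ hg)) (sm_mul sm_z1 (sm_D _ hg)),
    D_mul v sm_z1 (sm_D _ hg), D_mul v sm_z2 (sm_D _ hg)]
  rfl

theorem v11 (h : Wit f g) (hf : Sm f) (hp : p.2 ≠ 0) :
    D e1 (D e1 f) (iv p) = z1 p ^ 2 * D e1 (D e1 g) p + 2 * z1 p * z2 p * D e1 (D e2 g) p +
      z2 p ^ 2 * D e2 (D e2 g) p + 2 * (z1 p * x1 p - z2 p * x2 p) * D e1 g p +
      2 * (z1 p * x2 p + z2 p * x1 p) * D e2 g p := by
  rw [v1 (h.D1 hf) (sm_D _ hf) hp, dG1 e1 h.sm, dG1 e2 h.sm, D1_z1, D2_z1, D1_z2, D2_z2,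
    D_comm e2 e1 h.sm]
  simp only [Pi.mul_apply, Pi.neg_apply, K_apply]; ring
theorem v12 (h : Wit f g) (hf : Sm f) (hp : p.2 ≠ 0) :
    D e1 (D e2 f) (iv p) = -(z1 p * z2 p) * D e1 (D e1 g) p +
      (z1 p ^ 2 - z2 p ^ 2) * D e1 (D e2 g) p + z1 p * z2 p * D e2 (D e2 g) p -
      2 * (z1 p * x2 p + z2 p * x1 p) * D e1 g p + 2 * (z1 p * x1 p - z2 p * x2 p) * D e2 g p := by
  rw [v1 (h.D2 hf) (sm_D _ hf) hp, dG2 e1 h.sm, dG2 e2 h.sm, D1_z1, D2_z1, D1_z2, D2_z2,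
    D_comm e2 e1 h.sm]
  simp only [Pi.mul_apply, Pi.neg_apply, K_apply]; ring
theorem v22 (h : Wit f g) (hf : Sm f) (hp : p.2 ≠ 0) :
    D e2 (D e2 f) (iv p) = z2 p ^ 2 * D e1 (D e1 g) p - 2 * z1 p * z2 p * D e1 (D e2 g) p +
      z1 p ^ 2 * D e2 (D e2 g) p - 2 * (z1 p * x1 p - z2 p * x2 p) * D e1 g p -
      2 * (z1 p * x2 p + z2 p * x1 p) * D e2 g p := by
  rw [v2 (h.D2 hf) (sm_D _ hf) hp, dG2 e1 h.sm, dG2 e2 h.sm, D1_z1, D2_z1, D1_z2, D2_z2,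
    D_comm e2 e1 h.sm]
  simp only [Pi.mul_apply, Pi.neg_apply, K_apply]; ring

theorem Q1_el (p : X) : Q1 el p = -(r2 p ^ 2 * sg p) := by
  simp only [Q1, hq1, q1, q2, D11_el, D12_el, D22_el, Pi.mul_apply, Pi.sub_apply, Pi.neg_apply,
    K_apply, z1_apply, z2_apply, x1_apply, x2_apply, r2_apply]
  ring
theorem Q2_el (p : X) : Q2 el p = 0 := by
  simp only [Q2, hq2, q1, q2, D11_el, D12_el, D22_el, Pi.mul_apply, Pi.sub_apply, Pi.neg_apply,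
    Pi.add_apply, K_apply, z1_apply, z2_apply, x1_apply, x2_apply]
  ring

end ApiWP

theorem Wit.ip2 (h : Wit f g) (hf : Sm f) (h' : Wit f' g') (hf' : Sm f') :
    Wit (r2 * r2 * ip2 f f') (ip2 g g') :=
  ⟨sm_ip2 h.sm h'.sm, fun p hp => by
    have h0 := (r2_pos hp).ne'
    have e := z_sq p
    simp only [Se.ip2, Pi.mul_apply, Pi.add_apply, r2_iv, ApiWP.v1 h hf hp, ApiWP.v2 h hf hp,
      ApiWP.v1 h' hf' hp, ApiWP.v2 h' hf' hp]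
    field_simp
    rw [← e]; ring⟩
theorem Wit.gr (h : Wit f g) (hf : Sm f) : Wit (r2 * r2 * gr f) (gr g) := h.ip2 hf h hf
theorem Wit.EE (h : Wit f g) (hf : Sm f) (h' : Wit f' g') (hf' : Sm f') :
    Wit (r2 * r2 * EE f f') (EE g g') := by
  have := (h.gr hf).add (h'.gr hf')
  rw [← mul_add] at this
  exact this
theorem Wit.Jc (h : Wit f g) (hf : Sm f) (h' : Wit f' g') (hf' : Sm f') :
    Wit (r2 * r2 * Jc f f') (Jc g g') :=
  ⟨sm_Jc h.sm h'.sm, fun p hp => by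
    have h0 := (r2_pos hp).ne'
    have e := z_sq p
    simp only [Se.Jc, Pi.mul_apply, Pi.sub_apply, r2_iv, ApiWP.v1 h hf hp, ApiWP.v2 h hf hp,
      ApiWP.v1 h' hf' hp, ApiWP.v2 h' hf' hp]
    field_simp
    rw [← e]; ring⟩
theorem Wit.Lp (h : Wit f g) (hf : Sm f) : Wit (r2 * r2 * Lp f) (Lp g) :=
  ⟨sm_Lp h.sm, fun p hp => by
    have h0 := (r2_pos hp).ne'
    have e := z_sq p
    simp only [Se.Lp, Pi.mul_apply, Pi.add_apply, r2_iv, ApiWP.v11 h hf hp, ApiWP.v22 h hf hp]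
    field_simp
    rw [← e]; ring⟩
theorem Wit.Q1 (h : Wit f g) (hf : Sm f) : Wit (Q1 f) (O1 g) :=
  ⟨sm_O1 h.sm, fun p hp => by
    have h0 := (r2_pos hp).ne'
    have e := z_sq p
    simp only [O1, Se.Q1, hq1, q1, q2, Pi.mul_apply, Pi.add_apply, Pi.sub_apply, K_apply,
      ApiWP.z1_iv, ApiWP.z2_iv, ApiWP.v11 h hf hp, ApiWP.v12 h hf hp, ApiWP.v22 h hf hp]
    field_simp
    rw [← e]; ring⟩
theorem Wit.Q2 (h : Wit f g) (hf : Sm f) : Wit (Q2 f) (O2 g) :=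
  ⟨sm_O2 h.sm, fun p hp => by
    have h0 := (r2_pos hp).ne'
    have e := z_sq p
    simp only [O2, Se.Q2, hq2, q1, q2, Pi.mul_apply, Pi.add_apply, Pi.sub_apply, K_apply,
      ApiWP.z1_iv, ApiWP.z2_iv, ApiWP.v11 h hf hp, ApiWP.v12 h hf hp, ApiWP.v22 h hf hp]
    field_simp
    rw [← e]; ring⟩
theorem wit_Q1_el : Wit (Q1 el) (O1 el - K 1) :=
  ⟨sm_sub (sm_O1 sm_el) (sm_K 1), fun p hp => by
    have h0 := (r2_pos hp).ne'
    have h1 := (rr_pos p).ne'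
    have e := rr_apply p
    have e2 := r2_apply p
    simp only [O1, Pi.mul_apply, Pi.add_apply, Pi.sub_apply, K_apply, ApiWP.Q1_el, D1_el, D2_el,
      r2_iv, sg_iv hp, Iv_apply, x1_apply, x2_apply]
    rw [sg_apply]
    field_simp
    rw [e, e2]; ring⟩
theorem wit_Q2_el : Wit (Q2 el) (O2 el) :=
  ⟨sm_O2 sm_el, fun p _ => by
    simp only [O2, Pi.mul_apply, Pi.add_apply, Pi.sub_apply, K_apply, ApiWP.Q2_el, D1_el, D2_el]
    ring⟩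

theorem sph_K (c : ℝ) : Sph (K c) := ⟨sm_K c, _, wit_K c⟩
theorem sph_Tm {τ : ℝ → ℝ} (hτ : ContDiff ℝ ∞ τ) : Sph (Tm τ) := ⟨sm_Tm hτ, _, wit_Tm hτ⟩
theorem Sph.add (h : Sph f) (h' : Sph g) : Sph (f + g) := by
  obtain ⟨_, w⟩ := h.wit
  obtain ⟨_, w'⟩ := h'.wit
  exact ⟨sm_add h.sm h'.sm, _, w.add w'⟩
theorem Sph.sub (h : Sph f) (h' : Sph g) : Sph (f - g) := by
  obtain ⟨_, w⟩ := h.wit
  obtain ⟨_, w'⟩ := h'.wit
  exact ⟨sm_sub h.sm h'.sm, _, w.sub w'⟩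
theorem Sph.mul (h : Sph f) (h' : Sph g) : Sph (f * g) := by
  obtain ⟨_, w⟩ := h.wit
  obtain ⟨_, w'⟩ := h'.wit
  exact ⟨sm_mul h.sm h'.sm, _, w.mul w'⟩
theorem Sph.Kmul (c : ℝ) (h : Sph f) : Sph (K c * f) := (sph_K c).mul h
theorem Sph.ex (h : Sph f) : Sph (Ex f) := by
  obtain ⟨_, w⟩ := h.wit
  exact ⟨sm_Ex h.sm, _, w.ex⟩
theorem Sph.D0 (h : Sph f) : Sph (D e0 f) := by
  obtain ⟨_, w⟩ := h.wit
  exact ⟨sm_D _ h.sm, _, w.D0 h.sm⟩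
theorem Sph.D1 (h : Sph f) : Sph (D e1 f) := by
  obtain ⟨_, w⟩ := h.wit
  exact ⟨sm_D _ h.sm, _, w.D1 h.sm⟩
theorem Sph.D2 (h : Sph f) : Sph (D e2 f) := by
  obtain ⟨_, w⟩ := h.wit
  exact ⟨sm_D _ h.sm, _, w.D2 h.sm⟩

namespace ApiWP

/-- Vanishing of order `k` at the origin of the plane. -/
def Van : ℕ → Fx → Prop
  | 0, g => Sm g
  | k + 1, g => ∃ a b, Van k a ∧ Van k b ∧ g = x1 * a + x2 * b

theorem Van.sm : ∀ {k : ℕ} {g : Fx}, Van k g → Sm g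
  | 0, _, h => h
  | _ + 1, _, ⟨_, _, ha, hb, e⟩ => by
    rw [e]; exact sm_add (sm_mul sm_x1 ha.sm) (sm_mul sm_x2 hb.sm)

theorem Van.add : ∀ {k : ℕ} {g h : Fx}, Van k g → Van k h → Van k (g + h)
  | 0, _, _, h, h' => sm_add h h'
  | _ + 1, _, _, ⟨a, b, ha, hb, e⟩, ⟨a', b', ha', hb', e'⟩ =>
    ⟨a + a', b + b', ha.add ha', hb.add hb', by rw [e, e']; ring⟩

theorem Van.smul {u : Fx} (hu : Sm u) : ∀ {k : ℕ} {g : Fx}, Van k g → Van k (u * g)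
  | 0, _, h => sm_mul hu h
  | _ + 1, _, ⟨a, b, ha, hb, e⟩ =>
    ⟨u * a, u * b, Van.smul hu ha, Van.smul hu hb, by rw [e]; ring⟩

theorem Van.neg {k : ℕ} (h : Van k g) : Van k (-g) := by
  have := Van.smul (sm_neg sm_one) h
  rwa [neg_one_mul] at this

theorem Van.sub {k : ℕ} (h : Van k g) (h' : Van k g') : Van k (g - g') := by
  rw [sub_eq_add_neg]; exact h.add h'.neg

theorem Van.m1 {k : ℕ} (h : Van k g) : Van (k + 1) (x1 * g) :=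
  ⟨g, 0 * g, h, Van.smul sm_zero h, by ring⟩
theorem Van.m2 {k : ℕ} (h : Van k g) : Van (k + 1) (x2 * g) :=
  ⟨0 * g, g, Van.smul sm_zero h, h, by ring⟩

theorem Van.xD (v : X) : ∀ {k : ℕ} {g : Fx}, Van k g →
    Van k (x1 * D v g) ∧ Van k (x2 * D v g)
  | 0, _, h => ⟨sm_mul sm_x1 (sm_D v h), sm_mul sm_x2 (sm_D v h)⟩
  | k + 1, _, ⟨a, b, ha, hb, e⟩ => by
    have : Van k (D v (x1 * a + x2 * b)) := by
      rw [D_add v (sm_mul sm_x1 ha.sm) (sm_mul sm_x2 hb.sm), D_mul v sm_x1 ha.sm,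
        D_mul v sm_x2 hb.sm]
      exact ((Van.smul (sm_D v sm_x1) ha).add (Van.xD v ha).1).add
        ((Van.smul (sm_D v sm_x2) hb).add (Van.xD v hb).2)
    rw [e]
    exact ⟨this.m1, this.m2⟩

theorem Van.d0 : ∀ {k : ℕ} {g : Fx}, Van k g → Van k (D e0 g)
  | 0, _, h => sm_D e0 h
  | _ + 1, _, ⟨a, b, ha, hb, e⟩ =>
    ⟨D e0 a, D e0 b, ha.d0, hb.d0, by
      rw [e, D_add e0 (sm_mul sm_x1 ha.sm) (sm_mul sm_x2 hb.sm), D_mul e0 sm_x1 ha.sm,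
        D_mul e0 sm_x2 hb.sm, D0_x1, D0_x2]
      ring⟩

theorem van_z1 {k : ℕ} (h : Van k (x1 * g) ∧ Van k (x2 * g)) : Van (k + 1) (z1 * g) := by
  have e : z1 * g = x1 * (x1 * g) - x2 * (x2 * g) := by unfold z1; ring
  rw [e]; exact h.1.m1.sub h.2.m2
theorem van_z2 {k : ℕ} (h : Van k (x1 * g) ∧ Van k (x2 * g)) : Van (k + 1) (z2 * g) := by
  have e : z2 * g = K 2 * (x1 * (x2 * g)) := by unfold z2; ring
  rw [e]; exact Van.smul (sm_K 2) h.2.m1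
theorem Van.r2 {k : ℕ} (h : Van k g) : Van (k + 2) (r2 * g) := by
  have e : Se.r2 * g = x1 * (x1 * g) + x2 * (x2 * g) := by unfold Se.r2; ring
  rw [e]; exact h.m1.m1.add h.m2.m2

/-- The closed cylinder. -/
def Cy (M : ℝ) : Set X := Icc (-M) M ×ˢ Metric.closedBall (0 : ℝ × ℝ) 1

theorem cpt_Cy (M : ℝ) : IsCompact (Cy M) := isCompact_Icc.prod (isCompact_closedBall _ _)
theorem cvx_Cy (M : ℝ) : Convex ℝ (Cy M) := (convex_Icc _ _).prod (convex_closedBall _ _)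
theorem mem_Cy {M : ℝ} (h : |p.1| ≤ M) (h' : ‖p.2‖ ≤ 1) : p ∈ Cy M :=
  ⟨abs_le.1 h, by simpa using h'⟩

/-- The bound of order `k` near the origin. -/
def Bd (k : ℕ) (g : Fx) : Prop :=
  ∀ M : ℝ, ∃ C : ℝ, 0 ≤ C ∧ ∀ p : X, |p.1| ≤ M → ‖p.2‖ ≤ 1 → |g p| ≤ C * ‖p.2‖ ^ k

theorem bd0 (hg : Continuous g) : Bd 0 g := fun M => by
  obtain ⟨C, hC⟩ := (cpt_Cy M).exists_bound_of_continuousOn hg.continuousOn
  refine ⟨max C 0, le_max_right _ _, fun p h h' => ?_⟩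
  have := hC p (mem_Cy h h')
  rw [Real.norm_eq_abs] at this
  simpa using Or.inl this

theorem Van.bd : ∀ {k : ℕ} {g : Fx}, Van k g → Bd k g
  | 0, _, h => bd0 (Sm.cont h)
  | k + 1, _, ⟨a, b, ha, hb, e⟩ => fun M => by
    obtain ⟨C, hC, h1⟩ := ha.bd M
    obtain ⟨C', hC', h2⟩ := hb.bd M
    refine ⟨C + C', by positivity, fun p h h' => ?_⟩
    have a1 : |x1 p| ≤ ‖p.2‖ := by rw [x1_apply]; exact norm_fst_le p.2
    have a2 : |x2 p| ≤ ‖p.2‖ := by rw [x2_apply]; exact norm_snd_le p.2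
    have b1 := mul_le_mul a1 (h1 p h h') (abs_nonneg _) (norm_nonneg _)
    have b2 := mul_le_mul a2 (h2 p h h') (abs_nonneg _) (norm_nonneg _)
    rw [e]
    simp only [Pi.add_apply, Pi.mul_apply]
    calc |x1 p * a p + x2 p * b p| ≤ |x1 p| * |a p| + |x2 p| * |b p| := by
          rw [← abs_mul, ← abs_mul]; exact abs_add_le _ _
      _ ≤ _ := by rw [pow_succ]; linarith

theorem oo_of_wit {k : ℕ} (hf : Continuous f) (h : Wit f g) (hb : Bd k g) : OO (-(k : ℤ)) f := by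
  intro M
  obtain ⟨C, hC, h1⟩ := bd0 hf M
  obtain ⟨C', hC', h2⟩ := hb M
  refine ⟨(C + C') * 2 ^ k, fun p hp => ?_⟩
  have hj := jb_pos p
  have hs := jb_sq p
  have hr := rr_apply p
  rw [zpow_neg, zpow_natCast, ← div_eq_mul_inv, mul_div_assoc, ← div_pow]
  have hpos : 0 ≤ (2 / jb p) ^ k := by positivity
  by_cases c : r2 p ≤ 1
  · have n1 : ‖p.2‖ ≤ 1 := by
      have := norm_sq_le p
      nlinarith [norm_nonneg p.2]
    have n2 : 1 ≤ 2 / jb p := by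
      rw [le_div_iff₀ hj]; nlinarith
    have n3 : 1 ≤ (2 / jb p) ^ k := one_le_pow₀ n2
    have n4 := h1 p hp n1
    rw [pow_zero] at n4
    nlinarith [mul_nonneg hC' hpos]
  · push Not at c
    have hp2 : p.2 ≠ 0 := ne_of_r2 (by linarith)
    have n0 : ‖(iv p).2‖ ^ 2 * r2 p ≤ 1 := by
      have := norm_sq_le (iv p)
      rw [r2_iv] at this
      calc _ ≤ (r2 p)⁻¹ * r2 p := by gcongr
        _ = 1 := inv_mul_cancel₀ (by linarith)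
    have nn := norm_nonneg (iv p).2
    have n1 : ‖(iv p).2‖ ≤ 1 := by nlinarith [sq_nonneg ‖(iv p).2‖]
    have n2 : ‖(iv p).2‖ ≤ 2 / jb p := by
      rw [le_div_iff₀ hj]
      have : (‖(iv p).2‖ * jb p) ^ 2 ≤ 2 ^ 2 := by
        rw [mul_pow, hs, hr]; nlinarith
      exact (abs_le_of_sq_le_sq' this (by norm_num)).2
    have n3 : ‖(iv p).2‖ ^ k ≤ (2 / jb p) ^ k := pow_le_pow_left₀ nn n2 k
    have n4 := h2 (iv p) hp n1
    rw [h.eq' hp2]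
    nlinarith [mul_nonneg hC hpos, mul_le_mul_of_nonneg_left n3 hC']

theorem sy_of_van {k : ℕ} (hf : Sm f) (h : Wit f g) (hv : Van k g) : Sy (-(k : ℤ)) f := by
  refine Sy.of_closed (fun m f => ∃ k : ℕ, m = -(k : ℤ) ∧ Sm f ∧ ∃ g, Wit f g ∧ Van k g) ?_
    ⟨k, rfl, hf, g, h, hv⟩
  rintro m f ⟨k, rfl, hf, g, h, hv⟩
  refine ⟨hf, oo_of_wit hf.cont h hv.bd, Or.inl ⟨k, rfl, sm_D _ hf, _, h.D0 hf, hv.d0⟩,
    Or.inl ⟨k + 1, by push_cast; ring, sm_D _ hf, _, h.D1 hf, ?_⟩,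
    Or.inl ⟨k + 1, by push_cast; ring, sm_D _ hf, _, h.D2 hf, ?_⟩⟩
  · exact ((van_z1 (hv.xD e1)).add (van_z2 (hv.xD e2))).neg
  · exact (van_z2 (hv.xD e1)).sub (van_z1 (hv.xD e2))

theorem bd1 (hg : Sm g) : Bd 1 (g - Tm fun s => g (s, 0)) := fun M => by
  have hc : Continuous (fderiv ℝ g) := hg.continuous_fderiv (by simp)
  obtain ⟨C, hC⟩ := (cpt_Cy M).exists_bound_of_continuousOn hc.continuousOn
  refine ⟨max C 0, le_max_right _ _, fun p h h' => ?_⟩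
  have m0 : ((p.1, 0) : X) ∈ Cy M := mem_Cy (p := (p.1, 0)) h (by simp)
  have := (cvx_Cy M).norm_image_sub_le_of_norm_fderiv_le (𝕜 := ℝ) (fun x _ => hg.diff x)
    (fun x hx => (hC x hx).trans (le_max_left C 0)) m0 (mem_Cy h h')
  have e : ‖p - ((p.1, 0) : X)‖ = ‖p.2‖ := by
    rw [Prod.norm_def]; simp
  rw [e, Real.norm_eq_abs] at this
  rw [pow_one]
  exact this

theorem sm_at0 (hg : Sm g) : ContDiff ℝ ∞ fun s : ℝ => g (s, 0) :=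
  hg.comp (contDiff_id.prodMk contDiff_const)

end ApiWP

theorem Sph.sy (h : Sph f) : Sy 0 f := by
  obtain ⟨g, w⟩ := h.wit
  exact ApiWP.sy_of_van (k := 0) h.sm w w.sm
theorem Sph.h1 (h : Sph f) : H1 (-2) f := by
  obtain ⟨g, w⟩ := h.wit
  have a : ApiWP.Van 0 (D e1 g) := sm_D _ w.sm
  have b : ApiWP.Van 0 (D e2 g) := sm_D _ w.sm
  exact ⟨h.sm, ApiWP.sy_of_van (k := 2) (sm_D _ h.sm) (w.D1 h.sm)
      ((ApiWP.van_z1 ⟨a.m1, a.m2⟩).add (ApiWP.van_z2 ⟨b.m1, b.m2⟩)).neg,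
    ApiWP.sy_of_van (k := 2) (sm_D _ h.sm) (w.D2 h.sm)
      ((ApiWP.van_z2 ⟨a.m1, a.m2⟩).sub (ApiWP.van_z1 ⟨b.m1, b.m2⟩))⟩
theorem Sph.lp (h : Sph f) : Sy (-4) (Lp f) := by
  obtain ⟨g, w⟩ := h.wit
  have a : ApiWP.Van 0 (Lp g) := sm_Lp w.sm
  have w' : Wit (Lp f) (r2 * (r2 * Lp g)) :=
    ⟨a.r2.r2.sm, fun p hp => by
      have h0 := (r2_pos hp).ne'
      have := (w.Lp h.sm).eq p hp
      simp only [Pi.mul_apply, r2_iv] at this ⊢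
      rw [this]; field_simp⟩
  exact ApiWP.sy_of_van (k := 4) (sm_Lp h.sm) w' a.r2.r2
theorem Sph.fin (h : Sph f) : ∃ k : ℝ → ℝ, ContDiff ℝ ∞ k ∧ Sy (-1) (f - Tm k) := by
  obtain ⟨g, w⟩ := h.wit
  refine ⟨fun s => g (s, 0), ApiWP.sm_at0 w.sm, ?_⟩
  refine Sy.of_closed
    (fun m u => m = -1 ∧ ∃ F G, Sm F ∧ Wit F G ∧ u = F - Tm fun s => G (s, 0)) ?_
    ⟨rfl, f, g, h.sm, w, rfl⟩
  rintro m u ⟨rfl, F, G, hF, w, rfl⟩
  have hk := ApiWP.sm_at0 w.sm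
  have hH : H1 (-2) F := Sph.h1 ⟨hF, G, w⟩
  have hs : Sm (F - Tm fun s => G (s, 0)) := sm_sub hF (sm_Tm hk)
  refine ⟨hs, ApiWP.oo_of_wit (k := 1) hs.cont (w.sub (wit_Tm hk)) (ApiWP.bd1 w.sm),
    Or.inl ⟨rfl, D e0 F, D e0 G, sm_D _ hF, w.D0 hF, ?_⟩, Or.inr ?_, Or.inr ?_⟩
  · rw [D_sub _ hF (sm_Tm hk), D_Tm _ hk]
    funext p
    have := (hasDerivAt_time w.sm p.1 0).deriv
    simp only [Pi.sub_apply, Pi.mul_apply, K_apply, Tm_apply, this]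
    have a : e0.1 = 1 := rfl
    rw [a, one_mul]
  · rw [D_sub _ hF (sm_Tm hk), D_Tm_sp rfl hk, sub_zero]; exact hH.d1
  · rw [D_sub _ hF (sm_Tm hk), D_Tm_sp rfl hk, sub_zero]; exact hH.d2

end Pool.Agent.P.MP_2cea5e_gt.Se
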