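import Pool.Agent.P.MP_2cea5e_gt.Se.Mod
import Pool.Agent.P.MP_2cea5e_gt.Se.RedSt

/-!
The surface without fixed point: from the model to the plane and back, statements.
-/

open scoped ContDiff ComplexOrder Matrix Topology ComplexConjugate
open MeasureTheory Set Filter

noncomputable section

namespace Pool.Agent.P.MP_2cea5e_gt.Se

open II III

/-- The point `(0, x₁ + i x₂)`. -/
def pt (p : X) : C2 := ![0, (p.2.1 : ℂ) + (p.2.2 : ℂ) * Complex.I]
def cr (s : ℝ) (ζ : ℂ) : X := (s, ζ.re, ζ.im)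
/-- The restriction to the plane `z = 0`. -/
def res (F : ℝ → Bool → Fn) (b : Bool) : Fx := fun p => F p.1 b (pt p)
def cq (f g : Fx) (p : X) : ℂ := (f p : ℂ) + (g p : ℂ) * Complex.I
def nw (w : C2) : ℂ := 1 - w 1 * conj (w 0)

/-- Package B0: invariant potentials in terms of their restrictions. -/
def StB0 : Prop := ∀ (c a : ℝ) (F : ℝ → Bool → Fn),
  (∀ b, ContDiff ℝ ∞ fun q : ℝ × C2 => F q.1 b q.2) → (∀ s, SPt c a (F s)) →
  Sm (res F false) ∧ Wit (res F false - K a * el) (res F true - K a * el) ∧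
  (∀ s (w : C2) p, p = cr s (w 1 - conj (w 0)) →
    F s false w = c * ‖w 0‖ ^ 2 + res F false p ∧
    hess (F s false) w =
      !![((c + pp (res F false) p : ℝ) : ℂ), -conj (cq (q1 (res F false)) (q2 (res F false)) p);
        -cq (q1 (res F false)) (q2 (res F false)) p, (pp (res F false) p : ℂ)]) ∧
  ∀ s (w : C2) p, nw w ≠ 0 → p = cr s (w 1 / nw w) →
    F s true w = c * ‖w 0‖ ^ 2 + a * Real.log (‖nw w‖ ^ 2) + res F true p ∧
    hess (F s true) w =
      !![((c + r2 p ^ 2 * pp (res F true) p : ℝ) : ℂ),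
          conj (cq (O1 (res F true) - K a) (O2 (res F true)) p / nw w ^ 2);
        cq (O1 (res F true) - K a) (O2 (res F true)) p / nw w ^ 2,
          ((pp (res F true) p / ‖nw w‖ ^ 4 : ℝ) : ℂ)]

/-- Package R: the reduction. -/
def StR : Prop := ∀ c a f κ T φ, SKp c a f → 0 < κ → IsFlS f κ T φ → ∀ t₀, 0 < t₀ → t₀ < T →
  ∃ (d : Dat) (θ : ℝ → ℝ), d.Flo ∧ d.c = c ∧ d.a = a ∧ (∀ s, d.t s = κ * θ s) ∧
    (∀ s, θ s ∈ Ioo 0 T) ∧ (∀ u ∈ Ico t₀ T, ∃ s, 0 ≤ s ∧ θ s = u) ∧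
    (∀ b, ContDiff ℝ ∞ fun q : ℝ × C2 => (f b + φ (θ q.1) b) q.2) ∧
    d.ψ = res (fun s b => f b + φ (θ s) b) false

end Pool.Agent.P.MP_2cea5e_gt.Se
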