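import Pool.Agent.P.MP_2cea5e_gt.Se.ClsSt

/-!
Package C1.
-/

open scoped ContDiff ComplexOrder Manifold Matrix Topology ComplexConjugate
open Set Metric Filter MulAction

noncomputable section

namespace Pool.Agent.P.MP_2cea5e_gt.Se

open Abs

namespace C1P

/-- The inclusion of the real vectors. -/
def cL : (Fin 2 → ℝ) →L[ℝ] C2 :=
  ContinuousLinearMap.pi fun j => Complex.ofRealCLM.comp (ContinuousLinearMap.proj j)

/-- The real part. -/
def rL : C2 →L[ℝ] (Fin 2 → ℝ) :=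
  ContinuousLinearMap.pi fun j => Complex.reCLM.comp (ContinuousLinearMap.proj j)

theorem rL_one (l : Fin 2) : rL (Pi.single l 1) = Pi.single l 1 := by
  funext j
  by_cases h : j = l <;> simp [rL, h]

theorem rL_I (l : Fin 2) : rL (Pi.single l Complex.I) = 0 := by
  funext j
  by_cases h : j = l <;> simp [rL, h]

theorem dz_re {F : (Fin 2 → ℝ) → ℂ} (hF : Differentiable ℝ F) (l : Fin 2) (w : C2) :
    dz l (fun y => F (rL y)) w = fderiv ℝ F (rL w) (Pi.single l 1) / 2 := by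
  have h : HasFDerivAt (fun y => F (rL y)) ((fderiv ℝ F (rL w)).comp rL) w :=
    (hF (rL w)).hasFDerivAt.comp w rL.hasFDerivAt
  rw [dz, h.fderiv, ContinuousLinearMap.comp_apply, ContinuousLinearMap.comp_apply, rL_one, rL_I]
  simp

theorem dec (v : Fin 2 → ℝ) :
    v = v 0 • (Pi.single 0 1 : Fin 2 → ℝ) + v 1 • (Pi.single 1 1 : Fin 2 → ℝ) := by
  funext j; fin_cases j <;> simp

theorem app (L : (Fin 2 → ℝ) →L[ℝ] ℝ) (v : Fin 2 → ℝ) :
    L v = v 0 * L (Pi.single 0 1) + v 1 * L (Pi.single 1 1) := by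
  conv_lhs => rw [dec v]
  rw [map_add, map_smul, map_smul]; rfl

theorem fd_lin {F : (Fin 2 → ℝ) → ℂ} (hF : Differentiable ℝ F) (L : ℂ →L[ℝ] ℝ)
    (x v : Fin 2 → ℝ) : fderiv ℝ (fun y => L (F y)) x v = L (fderiv ℝ F x v) := by
  have h : HasFDerivAt (fun y => L (F y)) (L.comp (fderiv ℝ F x)) x :=
    L.hasFDerivAt.comp x (hF x).hasFDerivAt
  rw [h.fderiv]; rfl

/-- The Poincare lemma in the plane. -/
theorem poin {P Q : (Fin 2 → ℝ) → ℝ} (hP : Differentiable ℝ P) (hQ : Differentiable ℝ Q)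
    (h : ∀ x, fderiv ℝ P x (Pi.single 1 1) = fderiv ℝ Q x (Pi.single 0 1)) :
    ∃ f : (Fin 2 → ℝ) → ℝ, Differentiable ℝ f ∧
      ∀ x v, fderiv ℝ f x v = P x * v 0 + Q x * v 1 := by
  let p : Fin 2 → (Fin 2 → ℝ) →L[ℝ] ℝ := fun j => ContinuousLinearMap.proj j
  have hd : ∀ a, HasFDerivAt (fun z => P z • p 0 + Q z • p 1)
      ((fderiv ℝ P a).smulRight (p 0) + (fderiv ℝ Q a).smulRight (p 1)) a := fun a =>
    ((hP a).hasFDerivAt.smul_const (p 0)).fun_add ((hQ a).hasFDerivAt.smul_const (p 1))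
  obtain ⟨f, hf⟩ :=
    (convex_univ (𝕜 := ℝ) (E := Fin 2 → ℝ)).exists_forall_hasFDerivAt_of_fderiv_symmetric
      isOpen_univ (fun a _ => (hd a).differentiableAt.differentiableWithinAt) fun a _ x y => by
        rw [(hd a).fderiv]
        change fderiv ℝ P a x * y 0 + fderiv ℝ Q a x * y 1 =
          fderiv ℝ P a y * x 0 + fderiv ℝ Q a y * x 1
        rw [app _ x, app _ y, app (fderiv ℝ Q a) x, app (fderiv ℝ Q a) y, h]
        ring
  refine ⟨f, fun z => (hf z trivial).differentiableAt, fun x v => ?_⟩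
  rw [(hf x trivial).fderiv]; rfl

theorem pure (G : Fin 2 → Fin 2 → (Fin 2 → ℝ) → ℂ) (hs : ∀ j k, Differentiable ℝ (G j k))
    (hh : ∀ j k x, G j k x = conj (G k j x))
    (hc : ∀ j k l x, fderiv ℝ (G j k) x (Pi.single l 1) = fderiv ℝ (G l k) x (Pi.single j 1)) :
    ∃ c : ℝ, ∀ ξ : Fin 2 → ℝ, ∃ f : (Fin 2 → ℝ) → ℝ, Differentiable ℝ f ∧
      ∀ (x : Fin 2 → ℝ) (d : C2), (∑ a, ∑ b, cx ξ a * G a b x * star (d b)).re =
        fderiv ℝ f x (reV d) + c * (ξ 0 * (d 1).im - ξ 1 * (d 0).im) := by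
  have hre : ∀ j k x, (G j k x).re = (G k j x).re := fun j k x => by rw [hh j k x]; simp
  have him : ∀ j k x, (G j k x).im = -(G k j x).im := fun j k x => by rw [hh j k x]; simp
  have hi0 : ∀ j x, (G j j x).im = 0 := fun j x => by have := him j j x; linarith
  have dre : ∀ j k, Differentiable ℝ fun x => Complex.reCLM (G j k x) := fun j k =>
    Complex.reCLM.differentiable.comp (hs j k)
  have dim : ∀ j k, Differentiable ℝ fun x => Complex.imCLM (G j k x) := fun j k =>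
    Complex.imCLM.differentiable.comp (hs j k)
  have z0 : ∀ j x v, Complex.imCLM (fderiv ℝ (G j j) x v) = 0 := fun j x v => by
    rw [← fd_lin (hs j j), show (fun y => Complex.imCLM (G j j y)) = fun _ => 0 from
      funext fun y => hi0 j y]
    simp
  have cst : ∀ x, (G 0 1 x).im = (G 0 1 0).im := fun x => by
    refine is_const_of_fderiv_eq_zero (dim 0 1) (fun y => ContinuousLinearMap.ext fun v => ?_) x 0
    have e0 : fderiv ℝ (fun y => Complex.imCLM (G 0 1 y)) y (Pi.single 0 1) = 0 := by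
      rw [show (fun y => Complex.imCLM (G 0 1 y)) = fun y => (-Complex.imCLM) (G 1 0 y) from
        funext fun y => him 0 1 y, fd_lin (hs 1 0), hc 1 0 0, neg_apply, z0, neg_zero]
    have e1 : fderiv ℝ (fun y => Complex.imCLM (G 0 1 y)) y (Pi.single 1 1) = 0 := by
      rw [fd_lin (hs 0 1), hc 0 1 1, z0]
    rw [app, e0, e1]; simp
  have sy : ∀ a x, fderiv ℝ (fun y => Complex.reCLM (G a 0 y)) x (Pi.single 1 1) =
      fderiv ℝ (fun y => Complex.reCLM (G a 1 y)) x (Pi.single 0 1) := fun a x => by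
    rw [show (fun y => Complex.reCLM (G a 0 y)) = fun y => Complex.reCLM (G 0 a y) from
        funext fun y => hre a 0 y,
      show (fun y => Complex.reCLM (G a 1 y)) = fun y => Complex.reCLM (G 1 a y) from
        funext fun y => hre a 1 y, fd_lin (hs 0 a), fd_lin (hs 1 a), hc 0 a 1]
  refine ⟨(G 0 1 0).im, fun ξ => ?_⟩
  obtain ⟨f0, d0, e0⟩ := poin (dre 0 0) (dre 0 1) (sy 0)
  obtain ⟨f1, d1, e1⟩ := poin (dre 1 0) (dre 1 1) (sy 1)
  refine ⟨fun x => ξ 0 * f0 x + ξ 1 * f1 x, (d0.const_mul _).add (d1.const_mul _), fun x d => ?_⟩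
  rw [(((d0 x).hasFDerivAt.const_mul (ξ 0)).fun_add ((d1 x).hasFDerivAt.const_mul (ξ 1))).fderiv]
  change _ = ξ 0 * fderiv ℝ f0 x (reV d) + ξ 1 * fderiv ℝ f1 x (reV d) + _
  rw [e0, e1, ← cst x]
  simp [Fin.sum_univ_two, cx, reV, hi0, him 1 0]
  ring

end C1P

variable {M : Type} [TopologicalSpace M] [T2Space M] [CompactSpace M] [ChartedSpace C2 M]
  [IsManifold IC 1 M] [MulAction C2ˣ M] [ContMDiffSMul IC IC 1 C2ˣ M] [FaithfulSMul C2ˣ M]

theorem c1_ok (h0 : StC0 M) (ho : StC0o M) (hb : StC0b M) : StC1 M := by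
  intro h x₀ hK hD
  have hL := (ho x₀ hD).2.2.2.1
  have hP := fun w => (hb h hK).2.2.2 (orb x₀) w (hL w)
  have hi : ∀ w, pull h (orb x₀) w = pull h (orb x₀) (C1P.cL (C1P.rL w)) := fun w => by
    ext j k
    have e : orb x₀ w = ex (fun j => (w j).im * Complex.I) • orb x₀ (C1P.cL (C1P.rL w)) := by
      rw [orb, orb, ← mul_smul, ← ex_add]
      congr 2
      funext j
      exact ((add_comm _ _).trans (Complex.re_add_im (w j))).symm
    rw [pull_apply, pull_apply, h0.dd, h0.dd, e, h0.eqv, h0.eqv]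
    exact hK.inv _ (fun j => by simp [Complex.norm_exp]) _ _ _
  have hs : ∀ j k, Differentiable ℝ fun x => pull h (orb x₀) (C1P.cL x) j k := fun j k x =>
    (((hP _).1 j k).differentiableAt (by simp)).comp x C1P.cL.differentiableAt
  obtain ⟨c, hc⟩ := C1P.pure (fun j k x => pull h (orb x₀) (C1P.cL x) j k) hs
    (fun j k x => ((hP _).2.1.isHermitian.apply j k).symm) fun j k l x => by
      have e := (hP (C1P.cL x)).2.2 j k l
      have e' : ∀ a b, (fun y => pull h (orb x₀) y a b) =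
          fun y => pull h (orb x₀) (C1P.cL (C1P.rL y)) a b := fun a b =>
        funext fun y => by rw [← hi y]
      have e'' : C1P.rL (C1P.cL x) = x := by
        funext j; simp [C1P.rL, C1P.cL]
      rw [e', e' l k, C1P.dz_re (hs j k), C1P.dz_re (hs l k), e''] at e
      linear_combination 2 * e
  refine ⟨c, fun ξ => ?_⟩
  obtain ⟨f, hf, e⟩ := hc ξ
  refine ⟨f, hf, fun w d => ?_⟩
  rw [← h0.dd, hh_exp, hi w]
  exact e (reV w) d

end Pool.Agent.P.MP_2cea5e_gt.Se
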