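import Pool.Agent.P.MP_2cea5e_gt.Se.Mod

/-!
The surface without fixed point: classification and transfer, definitions and statements.
-/

open scoped ContDiff ComplexOrder Manifold Matrix Topology ComplexConjugate
open Set Metric Filter MulAction

noncomputable section

namespace Pool.Agent.P.MP_2cea5e_gt.Se

open Abs

/-- The compact torus. -/
def IT (θ : C2ˣ) : Prop := ∀ j, ‖(θ : C2) j‖ = 1
/-- Real vectors. -/
def cx (ξ : Fin 2 → ℝ) : C2 := fun j => (ξ j : ℂ)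
def reV (w : C2) : Fin 2 → ℝ := fun j => (w j).re
/-- The vector `v` and its conjugate are independent. -/
def Ind (v : C2) : Prop := (v 0 * conj (v 1)).im ≠ 0
/-- The linear coordinates attached to `v`. -/
def lc (v : C2) (z y : ℂ) : C2 := z • (-star v) + y • v
def elv (v : C2) (s : ℂ) : C2ˣ := ex (lc v s (conj s))
/-- The invariant coordinate along a transversal. -/
def FF (m : ℕ) (Y Z : ℂ → ℂ) (t : ℂ) : ℂ := Y t / t ^ m - conj (Z t / t ^ (m - 1))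

/-- Package CL. -/
structure StCL : Prop where
  inT : ∀ v s, IT (elv v s)
  add : ∀ v s s', elv v (s + s') = elv v s * elv v s'
  onto : ∀ v, Ind v → ∃ C : ℝ, ∀ θ, IT θ → ∃ s, elv v s = θ ∧ ‖s‖ ≤ C * ‖(θ : C2) - 1‖
  ker : ∀ v, Ind v → ∀ z y, IT (ex (lc v z y)) → y = conj z
  surj : ∀ v, Ind v → ∀ w, ∃ z y, lc v z y = w
  inj : ∀ v, Ind v → ∀ z y, lc v z y = 0 → z = 0 ∧ y = 0
  ind : ∀ v : C2, (∀ z y, lc v z y = 0 → z = 0 ∧ y = 0) → Ind v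
  real : ∀ (v : C2) (l : ℂ), v ≠ 0 → star v = l • v → ∃ (ξ : Fin 2 → ℝ) (μ : ℂ), ξ ≠ 0 ∧ cx ξ = μ • v
  cpt : IsCompact {θ : C2ˣ | IT θ}

/-- Package Mer: primitives of meromorphic functions without residue. -/
def StMer : Prop := ∀ (B : ℂ → ℂ) (r ρ : ℝ) (k : ℕ), 0 < ρ → ρ < r →
  DifferentiableOn ℂ B (ball 0 r) → (∮ t in C(0, ρ), B t / t ^ (k + 1)) = 0 →
  ∃ Y : ℂ → ℂ, DifferentiableOn ℂ Y (ball 0 r) ∧ -(k : ℂ) * Y 0 = B 0 ∧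
    ∀ t : ℂ, t ≠ 0 → ‖t‖ < r → HasDerivAt (fun t => Y t / t ^ k) (B t / t ^ (k + 1)) t

/-- Package C6. -/
def StC6 : Prop := ∀ (m : ℕ) (Y Z : ℂ → ℂ) (r : ℝ), 0 < r → 1 ≤ m →
  DifferentiableOn ℂ Y (ball 0 r) → DifferentiableOn ℂ Z (ball 0 r) → Y 0 ≠ 0 →
  (∀ t t' : ℂ, t ≠ 0 → t' ≠ 0 → ‖t‖ < r → ‖t'‖ < r → FF m Y Z t = FF m Y Z t' → t = t') → m = 1

section

variable {M : Type} [TopologicalSpace M] [ChartedSpace C2 M]

/-- `F` is a local biholomorphism at `w`. -/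
def LI (F : C2 → M) (w : C2) : Prop := ∃ G : M → C2,
  (∀ᶠ y in 𝓝 w, MDifferentiableAt IC IC F y ∧ G (F y) = y) ∧
  ∀ᶠ x in 𝓝 (F w), MDifferentiableAt IC IC G x ∧ F (G x) = x

variable [MulAction C2ˣ M]

/-- The orbit map. -/
def orb (p : M) (w : C2) : M := ex w • p
/-- The infinitesimal action. -/
def AA (p : M) : C2 →L[ℂ] C2 := Abs.DD (orb p) 0

/-- A flow box at a point outside the open orbit. -/
structure FB (x₀ p : M) (u v : C2) where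
  Th : C2 → M
  r : ℝ
  a : ℂ → ℂ
  b : ℂ → ℂ
  pos : 0 < r
  zero : Th 0 = p
  act : ∀ s t : ℂ, Th ![s, t] = ex (s • u) • Th ![0, t]
  md : ∀ y : C2, ‖y 1‖ < r → MDifferentiableAt IC IC Th y
  li : LI Th 0
  da : DifferentiableOn ℂ a (ball 0 r)
  db : DifferentiableOn ℂ b (ball 0 r)
  a0 : a 0 = 0
  b0 : b 0 = 0
  bne : ∀ t, t ≠ 0 → ‖t‖ < r → b t ≠ 0
  Av : ∀ t : ℂ, ‖t‖ < r → AA (Th ![0, t]) v = Abs.DD Th ![0, t] ![a t, b t]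
  Au : ∀ y : C2, ‖y 1‖ < r → AA (Th y) u = Abs.DD Th y ![1, 0]
  mem : ∀ y : C2, y 1 ≠ 0 → ‖y 1‖ < r → Th y ∈ orbit C2ˣ x₀

/-- A flow box with a meromorphic lift of the transversal. -/
structure MB (x₀ p : M) (v : C2) where
  Th : C2 → M
  r : ℝ
  m : ℕ
  Y : ℂ → ℂ
  Z : ℂ → ℂ
  pos : 0 < r
  zero : Th 0 = p
  act : ∀ s t : ℂ, Th ![s, t] = ex (lc v s 0) • Th ![0, t]
  md : ∀ y : C2, ‖y 1‖ < r → MDifferentiableAt IC IC Th y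
  li : LI Th 0
  m1 : 1 ≤ m
  dY : DifferentiableOn ℂ Y (ball 0 r)
  dZ : DifferentiableOn ℂ Z (ball 0 r)
  Y0 : Y 0 ≠ 0
  lift : ∀ t : ℂ, t ≠ 0 → ‖t‖ < r → orb x₀ (lc v (Z t / t ^ (m - 1)) (Y t / t ^ m)) = Th ![0, t]
  nmem : p ∉ orbit C2ˣ x₀
  fix : ∀ s : ℂ, ex (s • v) • p = p
  ind : Ind v

variable (M)

/-- The two charts of the surface. -/
structure SC where
  Φ : Bool → C2 → M
  el : ℂ → C2ˣ
  elT : ∀ s, IT (el s)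
  Tel : ∀ θ, IT θ → ∃ s, el s = θ
  eqv : ∀ s w, Φ false (w + tr s) = el s • Φ false w
  free : ∀ w w', Φ false w = Φ false w' → ∃ s, w' = w + tr s
  glue : ∀ w : C2, w 1 ≠ 0 → Φ true w = Φ false (inv2 w)
  sep : ∀ w w' : C2, w 1 = 0 → Φ true w ≠ Φ false w'
  cov : ∀ x, ∃ b w, Φ b w = x
  loc : ∀ b w, LI (Φ b) w

/-- No point is fixed by the compact torus. -/
def NoFix : Prop := ∀ q : M, ∃ θ, IT θ ∧ θ • q ≠ q

/-- Package C0: calculus of the action. -/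
structure StC0 : Prop where
  md : ∀ (p : M) w, MDifferentiableAt IC IC (orb p) w
  dd : ∀ (p : M) w, Abs.DD (orb p) w = AA (orb p w)
  eqv : ∀ (g : C2ˣ) (p : M) v, AA (g • p) v = Abs.DD (fun y : M => g • y) p (AA p v)
  prod : ∀ (W : C2 → C2) (F : C2 → M) y d, DifferentiableAt ℂ W y → MDifferentiableAt IC IC F y →
    Abs.DD (fun z => ex (W z) • F z) y d =
      AA (ex (W y) • F y) (fderiv ℂ W y d) + Abs.DD (fun x : M => ex (W y) • x) (F y) (Abs.DD F y d)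
  const : ∀ (F : C2 → M) (U : Set C2), IsOpen U → IsPreconnected U →
    (∀ y ∈ U, MDifferentiableAt IC IC F y ∧ Abs.DD F y = 0) → ∀ y ∈ U, ∀ y' ∈ U, F y = F y'
  ker : ∀ (p : M) v, AA p v = 0 ↔ ∀ s : ℂ, ex (s • v) • p = p
  inj : ∀ (g : C2ˣ) (p : M), Function.Injective (Abs.DD (fun y : M => g • y) p)
  ift : ∀ (F : C2 → M) w, (∀ᶠ y in 𝓝 w, MDifferentiableAt IC IC F y) →
    Function.Injective (Abs.DD F w) → LI F w
  li : ∀ (F : C2 → M) w, LI F w →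
    (∀ᶠ y in 𝓝 w, LI F y) ∧ Function.Bijective (Abs.DD F w) ∧ map F (𝓝 w) = 𝓝 (F w)

/-- Package C0o: the open orbit. -/
def StC0o : Prop := ∀ x₀ : M, Dense (orbit C2ˣ x₀) →
  (∀ g : C2ˣ, g • x₀ = x₀ → g = 1) ∧ (∀ x : M, x ∈ orbit C2ˣ x₀ ↔ Function.Injective (AA x)) ∧
  IsOpen (orbit C2ˣ x₀) ∧ (∀ w, LI (orb x₀) w) ∧ (∀ x, x ∈ orbit C2ˣ x₀ ↔ ∃ w, orb x₀ w = x) ∧
  (∃ p : M, p ∉ orbit C2ˣ x₀) ∧
  (NoFix M → ∀ p : M, p ∉ orbit C2ˣ x₀ → (∃ v, v ≠ 0 ∧ AA p v = 0) ∧ ∃ u, AA p u ≠ 0)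

/-- Package C0b: the metric along the action. -/
def StC0b : Prop := ∀ h : Met M, IsInvKaehler h →
  (∀ x v, v ≠ 0 → 0 < (hh h x v v).re) ∧
  (∀ a b, Continuous fun x : M => hh h x (AA x a) (AA x b)) ∧
  (∀ (F : C2 → M) w a d, (∀ᶠ y in 𝓝 w, MDifferentiableAt IC IC F y) →
    ContinuousAt (fun y => hh h (F y) (AA (F y) a) (Abs.DD F y d)) w) ∧
  ∀ (F : C2 → M) w, LI F w → (∀ j k, ContDiffAt ℝ ∞ (fun y => pull h F y j k) w) ∧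
    (pull h F w).PosDef ∧
    ∀ j k l, dz l (fun y => pull h F y j k) w = dz j (fun y => pull h F y l k) w

/-- The logarithmic form of the metric on the open orbit, with constant `c`. -/
def LogF (h : Met M) (x₀ : M) (c : ℝ) : Prop := ∀ ξ : Fin 2 → ℝ, ∃ f : (Fin 2 → ℝ) → ℝ,
  Differentiable ℝ f ∧ ∀ w d : C2,
    (hh h (orb x₀ w) (AA (orb x₀ w) (cx ξ)) (AA (orb x₀ w) d)).re =
      fderiv ℝ f (reV w) (reV d) + c * (ξ 0 * (d 1).im - ξ 1 * (d 0).im)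

/-- Package C1. -/
def StC1 : Prop := ∀ (h : Met M) (x₀ : M), IsInvKaehler h → Dense (orbit C2ˣ x₀) →
  ∃ c, LogF M h x₀ c

/-- Package C2. -/
def StC2 : Prop := ∀ (x₀ p : M) (u v : C2), Dense (orbit C2ˣ x₀) → p ∉ orbit C2ˣ x₀ → v ≠ 0 →
  AA p v = 0 → AA p u ≠ 0 → Nonempty (FB x₀ p u v)

/-- Package C3. -/
def StC3 : Prop := ∀ (h : Met M) (x₀ : M), IsInvKaehler h → Dense (orbit C2ˣ x₀) → NoFix M →
  ¬LogF M h x₀ 0

/-- Package C4. -/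
def StC4 : Prop := ∀ (h : Met M) (x₀ : M) (c : ℝ), IsInvKaehler h → Dense (orbit C2ˣ x₀) →
  NoFix M → c ≠ 0 → LogF M h x₀ c →
  ∃ (x₁ p : M) (v : C2), Dense (orbit C2ˣ x₁) ∧ Nonempty (MB x₁ p v)

/-- Package C5a. -/
def StC5a : Prop := ∀ (x₀ p : M) (v : C2), Dense (orbit C2ˣ x₀) → MB x₀ p v →
  ∀ θ, IT θ → θ • p = p → θ = 1

/-- Package C5b. -/
def StC5b : Prop := ∀ (x₀ p : M) (v : C2) (B : MB x₀ p v), Dense (orbit C2ˣ x₀) →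
  ∃ ε : ℝ, 0 < ε ∧ ε ≤ B.r ∧ ∀ t t' : ℂ, t ≠ 0 → t' ≠ 0 → ‖t‖ < ε → ‖t'‖ < ε →
    FF B.m B.Y B.Z t = FF B.m B.Y B.Z t' → t = t'

/-- Package C7. -/
def StC7 : Prop := ∀ (x₀ p : M) (v : C2) (B : MB x₀ p v), Dense (orbit C2ˣ x₀) → B.m = 1 →
  Nonempty (SC M)

/-- The conclusion of the theorem. -/
def Concl (h₀ : Met M) (κ : ℝ) : Prop := ∃ h : ℝ → Met M, h 0 = h₀ ∧
  (∀ t, 0 ≤ t → IsInvKaehler (h t)) ∧ ∀ e ∈ atlas C2 M,
    (∀ j k, ContDiffOn ℝ ∞ (fun q : ℝ × C2 => pull (h q.1) e.symm q.2 j k)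
      (Set.Ici 0 ×ˢ e.target)) ∧
    ∀ t, 0 ≤ t → ∀ z ∈ e.target, ∀ j k, HasDerivWithinAt (fun s => pull (h s) e.symm z j k)
      ((κ : ℂ) * hess (scalG (pull (h t) e.symm)) z j k) (Set.Ici 0) t

/-- Package T1: the initial metric and the descent of invariant functions. -/
def StT1 : Prop := ∀ C : SC M,
  (∀ h : Met M, IsInvKaehler h → SM fun b => pull h (C.Φ b)) ∧
  (∀ u, SGl u → ∃ U : M → ℝ, ∀ b w, U (C.Φ b w) = u b w) ∧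
  ∀ s a b w, de a b s w ≠ 0 → C.Φ a (Ga a b s w) = C.el s • C.Φ b w

/-- Package T2. -/
def StT2 : Prop := ∀ (h₀ : Met M) (κ : ℝ), SC M → IsInvKaehler h₀ → 0 < κ → Concl M h₀ κ

end

end Pool.Agent.P.MP_2cea5e_gt.Se
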