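import Pool.Agent.P.MP_2cea5e_gt.III.AllIII
import Pool.Agent.P.MP_2cea5e_gt.II.All
import Pool.Agent.P.MP_2cea5e_gt.Abs.Pull
import Pool.Agent.P.MP_2cea5e_gt.Abs.Tens
import Pool.Agent.P.MP_2cea5e_gt.IV.St

/-!
The surface without fixed point: the model on two copies of `ℂ²`, definitions and statements.
-/

open scoped ContDiff ComplexOrder Matrix Topology ComplexConjugate
open MeasureTheory Set Filter

noncomputable section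

namespace Pool.Agent.P.MP_2cea5e_gt.Se

open II III

/-- The translation by which the compact torus acts. -/
def tr (s : ℂ) : C2 := ![s, conj s]
/-- The change of chart. -/
def inv2 (w : C2) : C2 := ![w 0, (w 1)⁻¹]

/-- Global invariant functions. -/
structure SGl (u : Bool → Fn) : Prop where
  sm : ∀ b, SmC (u b)
  inv : ∀ s w, u false (w + tr s) = u false w
  glue : ∀ w : C2, w 1 ≠ 0 → u true w = u false (inv2 w)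

/-- Potentials of an invariant form. -/
structure SPt (c a : ℝ) (f : Bool → Fn) : Prop where
  sm : ∀ b, SmC (f b)
  inv : ∀ s (w : C2), f false (w + tr s) - c * ‖w 0 + s‖ ^ 2 = f false w - c * ‖w 0‖ ^ 2
  glue : ∀ w : C2, w 1 ≠ 0 → f true w = f false (inv2 w) + a * Real.log (‖w 1‖ ^ 2)

/-- Potentials of an invariant Kaehler metric. -/
structure SKp (c a : ℝ) (f : Bool → Fn) : Prop extends SPt c a f where
  cpos : 0 < c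
  pos : ∀ b w, (hess (f b) w).PosDef

/-- Invariant Kaehler metrics. -/
structure SM (g : Bool → Fld) : Prop where
  smooth : ∀ b j k, ContDiff ℝ ∞ fun w => g b w j k
  pos : ∀ b w, (g b w).PosDef
  closed : ∀ b w j k l, dz l (fun y => g b y j k) w = dz j (fun y => g b y l k) w
  inv : ∀ s w, g false (w + tr s) = g false w
  glue : ∀ w : C2, w 1 ≠ 0 → g true w = Abs.pbF inv2 (g false) w

/-- A solution for times in `S`, starting at zero. -/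
structure IsSolS (f : Bool → Fn) (κ : ℝ) (S : Set ℝ) (φ : ℝ → Bool → Fn) : Prop where
  smooth : ∀ b, ContDiffOn ℝ ∞ (fun q : ℝ × C2 => φ q.1 b q.2) (S ×ˢ univ)
  init : ∀ b z, φ 0 b z = 0
  gl : ∀ t ∈ S, SGl (φ t)
  pos : ∀ t ∈ S, ∀ b z, (hess (f b + φ t b) z).PosDef
  flow : ∀ t ∈ S, ∀ b z, HasDerivWithinAt (fun s => φ s b z) (κ * scal (f b + φ t b) z) S t

/-- A solution on `(0, T)`. -/
structure IsFlS (f : Bool → Fn) (κ T : ℝ) (φ : ℝ → Bool → Fn) : Prop where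
  smooth : ∀ b, ContDiffOn ℝ ∞ (fun q : ℝ × C2 => φ q.1 b q.2) (Ioo 0 T ×ˢ univ)
  gl : ∀ t ∈ Ioo 0 T, SGl (φ t)
  pos : ∀ t ∈ Ioo 0 T, ∀ b z, (hess (f b + φ t b) z).PosDef
  flow : ∀ t ∈ Ioo 0 T, ∀ b z, HasDerivAt (fun s => φ s b z) (κ * scal (f b + φ t b) z) t

/-- Homogeneous coordinates of the second coordinate in the chart `b`. -/
def hN (b : Bool) (w : C2) : ℂ := bif b then 1 else w 1
def hD (b : Bool) (w : C2) : ℂ := bif b then w 1 else 1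
def nu (a b : Bool) (s : ℂ) (w : C2) : ℂ := bif a then hD b w else hN b w + conj s * hD b w
def de (a b : Bool) (s : ℂ) (w : C2) : ℂ := bif a then hN b w + conj s * hD b w else hD b w
/-- The action of `s`, from the chart `b` to the chart `a`. -/
def Ga (a b : Bool) (s : ℂ) (w : C2) : C2 := ![w 0 + s, nu a b s w / de a b s w]

/-- Package S0. -/
structure StGa : Prop where
  an : ∀ a b s w, de a b s w ≠ 0 → AnalyticAt ℂ (Ga a b s) w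
  det : ∀ a b s w, de a b s w ≠ 0 → (III.jac (Ga a b s) w).det ≠ 0
  smG : ∀ a b, ContDiffOn ℝ ∞ (fun q : ℂ × C2 => Ga a b q.1 q.2) {q | de a b q.1 q.2 ≠ 0}
  smJ : ∀ a b i j, ContDiffOn ℝ ∞ (fun q : ℂ × C2 => III.jac (Ga a b q.1) q.2 i j)
    {q | de a b q.1 q.2 ≠ 0}
  /-- near a pole the image is far away -/
  far : ∀ a b s w (R : ℝ), de a b s w = 0 →
    ∀ᶠ q : ℂ × C2 in 𝓝 (s, w), de a b q.1 q.2 ≠ 0 → R < ‖Ga a b q.1 q.2‖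
  base : ∀ b (w : C2), ∃ a, de a b (-w 0) w ≠ 0 ∧ ‖nu a b (-w 0) w‖ ≤ ‖de a b (-w 0) w‖ ∧
    ∃ η : ℂ, ‖η‖ ≤ 1 ∧ Ga a b (-w 0) w = ![0, η]
  gl : ∀ u, SGl u → ∀ a b s w, de a b s w ≠ 0 → u a (Ga a b s w) = u b w
  /-- the converse -/
  gl' : ∀ u : Bool → Fn, (∀ b, SmC (u b)) →
    (∀ b s w, de false b s w ≠ 0 → u false (Ga false b s w) = u b w) → SGl u
  /-- the cocycle rule -/
  comp : ∀ a b s s' w, de false b s' w ≠ 0 →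
    de a false s (Ga false b s' w) * de false b s' w = de a b (s + s') w ∧
    (de a b (s + s') w ≠ 0 → Ga a false s (Ga false b s' w) = Ga a b (s + s') w)
  met : ∀ g, SM g → ∀ a b s w, de a b s w ≠ 0 → g b w = Abs.pbF (Ga a b s) (g a) w
  pt : ∀ c e f, SPt c e f → ∀ a b s w, de a b s w ≠ 0 →
    hess (f b) w = Abs.pbF (Ga a b s) (hess (f a)) w ∧
    Eg (f b) w = Mx (III.jac (Ga a b s) w) *ᵥ Eg (f a) (Ga a b s w)
  add : ∀ c e f u, SPt c e f → SGl u → SPt c e fun b => f b + u b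
  sm : ∀ c e f, SKp c e f → SM fun b => hess (f b)

/-! ### Short time existence -/

open Classical in
/-- Transport of a function by the action of `s`. -/
def Tg (a b : Bool) (X : Fn) (s : ℂ) : Fn := fun w => if de a b s w = 0 then 0 else X (Ga a b s w)
/-- The weighted average. -/
def Aw (m : ℂ → Fn) (a b : Bool) (X : Fn) : Fn := fun w => ∫ s : ℂ, m s w * Tg a b X s w
/-- Admissible weights. -/
def Wt (a b : Bool) (m : ℂ → Fn) : Prop :=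
  ContDiffOn ℝ ∞ (fun q : ℂ × C2 => m q.1 q.2) {q | de a b q.1 q.2 ≠ 0}

/-- Package S1. -/
structure StAw : Prop where
  smq : ∀ a b m X R₀, Wt a b m → SmC X → Cs R₀ X →
    ContDiff ℝ ∞ fun q : ℂ × C2 => m q.1 q.2 * Tg a b X q.1 q.2
  supp : ∀ a b X R₀ s (w : C2), Cs R₀ X → R₀ < ‖w 0 + s‖ → Tg a b X s w = 0
  int : ∀ a b m X R₀, Wt a b m → SmC X → Cs R₀ X → ∀ l w,
    Integrable fun s : ℂ => pdl l (fun y => m s y * Tg a b X s y) w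
  sm : ∀ a b m X R₀, Wt a b m → SmC X → Cs R₀ X → SmC (Aw m a b X)
  pdl : ∀ a b m X R₀, Wt a b m → SmC X → Cs R₀ X → ∀ l,
    pdl l (Aw m a b X) = fun w => ∫ s : ℂ, pdl l (fun y => m s y * Tg a b X s y) w
  wpd : ∀ a b m p, Wt a b m → Wt a b fun s => pd p (m s)
  ol : ∀ a b m R₀ (α : Type) (𝒰 : Set (α → Fn)) k F, Wt a b m → OL 𝒰 k F →
    (∀ V ∈ 𝒰, Cs R₀ (F V)) → OL 𝒰 k fun V => Aw m a b (F V)

/-- The plain average. -/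
def Av (a b : Bool) (X : Fn) : Fn := Aw (fun _ _ => 1) a b X

/-- Package S3: the principal part commutes with the average up to order three. -/
def StCom : Prop := ∀ (c e : ℝ) (a b : Bool) (R₀ : ℝ) (α : Type) (𝒰 : Set (α → Fn))
  (f : (α → Fn) → Bool → Fn) (Y : (α → Fn) → Fn), (∀ V ∈ 𝒰, SKp c e (f V)) →
  (∀ i, OL 𝒰 2 fun V => cf i (f V b)) → OL 𝒰 0 Y → (∀ V ∈ 𝒰, Cs R₀ (Y V)) →
  OL 𝒰 3 fun V => Av a b (PiO (f V a) (Y V)) - PiO (f V b) (Av a b (Y V))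

structure SysS {α : Type} [Fintype α] {f : Bool → Fn} {d : ℝ} (P : Pat f d α)
    (E : α → Fn → Bool → Fn) (Rs : α → (Bool → Fn) → Fn) : Prop where
  gl : ∀ b X, SmC X → SGl (E b X)
  add : ∀ b X Y τ, SmC X → SmC Y → E b (X + Y) τ = E b X τ + E b Y τ
  sub : ∀ b X Y τ, SmC X → SmC Y → E b (X - Y) τ = E b X τ - E b Y τ
  smul : ∀ b X τ (c : ℝ), E b (c • X) τ = c • E b X τ
  abs : ∃ C, ∀ b X τ A, SmC X → (∀ y, |X y| ≤ A) → ∀ z, |E b X τ z| ≤ C * A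
  dep : ∀ b X Y, P.β b * X = P.β b * Y → E b X = E b Y
  ol : ∀ b τ (𝒰 : Set (α → Fn)) k F, OL 𝒰 k F → OL 𝒰 k fun V => E b (F V) τ
  smR : ∀ a u, SGl u → SmC (Rs a u)
  part : ∀ u, SGl u → ∀ τ z, ∑ a, E a (Rs a u) τ z = u τ z
  ord : ∀ a (𝒰 : Set (α → Fn)) k (H : (α → Fn) → Bool → Fn), OL 𝒰 k (fun V => H V (P.σ a)) →
    Ord 𝒰 univ k fun V => Rs a (H V)
  com : ∀ (c e : ℝ) b τ (𝒰 : Set (α → Fn)) (g : (α → Fn) → Bool → Fn) (X : (α → Fn) → Fn),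
    (∀ V ∈ 𝒰, SKp c e (g V)) → (∀ σ i, OL 𝒰 2 fun V => cf i (g V σ)) → OL 𝒰 0 X →
    OL 𝒰 3 fun V => E b (PiO (g V (P.σ b) ∘ P.A b) (X V)) τ - PiO (g V τ) (E b (X V) τ)

/-- Package S2. -/
def StSys : Prop := ∀ (α : Type) [Fintype α] (f : Bool → Fn) (d : ℝ) (P : Pat f d α),
  ∃ E Rs, SysS P E Rs

/-- Package S4. -/
structure StPos : Prop where
  pos : ∀ c e f, SKp c e f → ∃ ε : ℝ, 0 < ε ∧ ∀ φ, SGl φ → (∀ b, Nb (cb 1) 2 (φ b) ε) →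
    ∀ b z, (hess (f b + φ b) z).PosDef ∧ vol (f b) z / 2 ≤ vol (f b + φ b) z
  scal : ∀ c e f, SKp c e f → SGl fun b => scal (f b)
  vol : ∀ c e f, SPt c e f → ∀ a b s w, de a b s w ≠ 0 →
    vol (f b) w * ‖de a b s w‖ ^ 4 = vol (f a) (Ga a b s w)

/-- Package S5: short time existence. -/
def StShortS : Prop := ∀ c e f κ, SKp c e f → 0 < κ →
  ∃ τ : ℝ, 0 < τ ∧ ∃ φ, IsSolS f κ (Ico 0 τ) φ

/-! ### Continuation -/

/-- The a priori estimate: small oscillation of the metric near the final time. -/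
def StOscS : Prop := ∀ c e f κ T φ, SKp c e f → 0 < κ → 0 < T → IsFlS f κ T φ →
  ∀ δ : ℝ, 0 < δ → ∃ τ ρ Λ : ℝ, 0 < τ ∧ 0 < ρ ∧ τ + ρ < T ∧
  ∀ t ∈ Ico (T - τ) T, ∀ b (η : ℂ), ‖η‖ ≤ 1 →
    (∀ v, ‖v‖ ^ 2 ≤ Λ * qf (f b + φ t b) ![0, η] v ∧ qf (f b + φ t b) ![0, η] v ≤ Λ * ‖v‖ ^ 2) ∧
    ∀ s ∈ Icc (t - ρ) t, ∀ y : C2, ‖y - ![0, η]‖ ≤ ρ → |(f b + φ s b) y| ≤ Λ ∧ ∀ v,
      |qf (f b + φ s b) y v - qf (f b + φ t b) ![0, η] v| ≤ δ * qf (f b + φ t b) ![0, η] v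

/-- Package E1. -/
def StBoundS : Prop := ∀ c e f κ T φ, SKp c e f → 0 < κ → 0 < T → IsFlS f κ T φ → ∀ b (R : ℝ),
  (∀ k : ℕ, ∃ C : ℝ, ∀ t ∈ Ico (T / 2) T, ∀ z, ‖z‖ ≤ R → ‖iteratedFDeriv ℝ k (φ t b) z‖ ≤ C) ∧
  ∃ β : ℝ, 0 < β ∧ ∀ t ∈ Ico (T / 2) T, ∀ z, ‖z‖ ≤ R → β ≤ vol (f b + φ t b) z

/-- Package E2. -/
def StLongS : Prop := ∀ c e f κ, SKp c e f → 0 < κ → ∃ φ, IsSolS f κ (Ici 0) φ

/-- Package P3. -/
def StPotS : Prop := ∀ g, SM g → ∃ c e f, SKp c e f ∧ ∀ b, hess (f b) = g b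

/-- Package E3: the flow of metrics on the model. -/
def StFinS : Prop := ∀ (g₀ : Bool → Fld) (κ : ℝ), SM g₀ → 0 < κ → ∃ φ : ℝ → Bool → Fn, φ 0 = 0 ∧
  (∀ t, 0 ≤ t → SGl (φ t) ∧ SM fun b w => g₀ b w + hess (φ t b) w) ∧
  (∀ b j k, ContDiffOn ℝ ∞ (fun q : ℝ × C2 => hess (φ q.1 b) q.2 j k) (Ici 0 ×ˢ univ)) ∧
  ∀ t, 0 ≤ t → ∀ b z j k, HasDerivWithinAt (fun s => hess (φ s b) z j k)
    (κ * hess (scalG fun w => g₀ b w + hess (φ t b) w) z j k) (Ici 0) t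

/-! ### Potentials -/

/-- Wirtinger derivatives in one variable. -/
def d1 (f : ℂ → ℂ) (z : ℂ) : ℂ := (fderiv ℝ f z 1 - Complex.I * fderiv ℝ f z Complex.I) / 2
def db1 (f : ℂ → ℂ) (z : ℂ) : ℂ := (fderiv ℝ f z 1 + Complex.I * fderiv ℝ f z Complex.I) / 2

/-- Package P1. -/
structure StP1 : Prop where
  poin : ∀ A B : ℂ → ℂ, ContDiff ℝ ∞ A → ContDiff ℝ ∞ B → db1 A = d1 B →
    ∃ h : ℂ → ℂ, ContDiff ℝ ∞ h ∧ d1 h = A ∧ db1 h = B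
  divi : ∀ ρ γ : ℂ → ℂ, ContDiff ℝ ∞ ρ → ContDiff ℝ ∞ γ → ρ 0 = 0 → (∀ z, db1 ρ z = z * γ z) →
    ∃ ρ₁ : ℂ → ℂ, ContDiff ℝ ∞ ρ₁ ∧ (∀ z, ρ z = z * ρ₁ z) ∧ db1 ρ₁ = γ
  const : ∀ F : ℂ → ℂ, (∀ z, z ≠ 0 → DifferentiableAt ℝ F z ∧ d1 F z = 0 ∧ db1 F z = 0) →
    ∃ k, ∀ z, z ≠ 0 → F z = k
  sm : ∀ F : ℂ → ℂ, ContDiff ℝ ∞ F → ContDiff ℝ ∞ (d1 F) ∧ ContDiff ℝ ∞ (db1 F) ∧
    d1 (db1 F) = db1 (d1 F)
  inv : ∀ (F : ℂ → ℂ) z, z ≠ 0 → DifferentiableAt ℝ F z⁻¹ →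
    d1 (fun y => F y⁻¹) z = -(d1 F z⁻¹ / z ^ 2) ∧
    db1 (fun y => F y⁻¹) z = -(db1 F z⁻¹ / conj z ^ 2)
  mul : ∀ (F G : ℂ → ℂ) z, DifferentiableAt ℝ F z → DifferentiableAt ℝ G z →
    d1 (fun y => F y * G y) z = d1 F z * G z + F z * d1 G z ∧
    db1 (fun y => F y * G y) z = db1 F z * G z + F z * db1 G z
  cnj : ∀ (F : ℂ → ℂ) z, DifferentiableAt ℝ F z →
    d1 (fun y => conj (F y)) z = conj (db1 F z) ∧ db1 (fun y => conj (F y)) z = conj (d1 F z)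

/-- Package P2. -/
def StP2 : Prop := ∀ (p P : ℂ → ℝ) (q Q : ℂ → ℂ), ContDiff ℝ ∞ p → ContDiff ℝ ∞ P →
  ContDiff ℝ ∞ q → ContDiff ℝ ∞ Q → db1 q = d1 (fun z => (p z : ℂ)) →
  (∀ τ : ℂ, τ ≠ 0 → p τ⁻¹ = ‖τ‖ ^ 4 * P τ ∧ q τ⁻¹ = τ ^ 2 * Q τ) →
  ∃ (ψ F : ℂ → ℝ) (a : ℝ), ContDiff ℝ ∞ ψ ∧ ContDiff ℝ ∞ F ∧
    d1 (db1 fun z => (ψ z : ℂ)) = (fun z => (p z : ℂ)) ∧ d1 (d1 fun z => (ψ z : ℂ)) = q ∧
    ∀ τ : ℂ, τ ≠ 0 → ψ τ⁻¹ + a * Real.log (‖τ‖ ^ 2) = F τ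

end Pool.Agent.P.MP_2cea5e_gt.Se
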