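import Pool.Agent.P.MP_2cea5e_gt.Se.Api

/-!
Package Mod1.
-/

open scoped ContDiff Topology ENNReal
open MeasureTheory Set Filter

noncomputable section

namespace Pool.Agent.P.MP_2cea5e_gt.Se

namespace Mod1P

/-- Mean value inequality on an interval. -/
theorem mv {h h' : ℝ → ℝ} {C a b : ℝ} (hab : a ≤ b) (hd : ∀ u, HasDerivAt h (h' u) u)
    (hC : ∀ u, a ≤ u → u ≤ b → |h' u| ≤ C) : |h b - h a| ≤ C * (b - a) := by
  have := norm_image_sub_le_of_norm_deriv_le_segment' (f := h) (f' := h') (C := C) (a := a) (b := b)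
    (fun x _ => (hd x).hasDerivWithinAt) (fun x hx => hC x hx.1 hx.2.le) b ⟨hab, le_rfl⟩
  simpa using this

/-- The average of a function dominated by the gradient. -/
theorem avg {k F : Fx} (hk : Ker 1 k) (hF : Sm F) : ∃ C : ℝ, 0 ≤ C ∧ ∀ G : Fx, Sm G →
    (∀ p, G p ^ 2 ≤ gr F p) → ∀ s (z : ℝ × ℝ) r R A, 0 < r → r ≤ R → Ib (gr F) s z R ≤ A →
      r * |mo k G s (r, z)| ≤ C * √A := by
  obtain ⟨C1, hC1, H1⟩ := mo_L2 hk
  refine ⟨C1, hC1, fun G hG hle s z r R A hr hR hA => ?_⟩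
  have hlg : Loc (gr F) := loc_of_cont (sm_gr hF).cont
  have b1 := H1 G s r z hG.cont hr
  have b2 : Ib (G * G) s z r ≤ Ib (gr F) s z r :=
    Ib_mono (loc_of_cont (sm_mul hG hG).cont) hlg fun w _ _ => by
      have := hle (s, w)
      simp only [Pi.mul_apply]
      nlinarith
  have b3 : Ib (gr F) s z r ≤ Ib (gr F) s z R :=
    Ib_sub_ball hlg (fun w => gr_nonneg F _) (Metric.ball_subset_ball hR)
  have b4 : √(Ib (G * G) s z r) ≤ √A := Real.sqrt_le_sqrt (b2.trans (b3.trans hA))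
  exact b1.trans (mul_le_mul_of_nonneg_left b4 hC1)

theorem d1_le (F : Fx) (p : X) : D e1 F p ^ 2 ≤ gr F p := by
  rw [gr_apply]; nlinarith [sq_nonneg (D e2 F p)]

theorem d2_le (F : Fx) (p : X) : D e2 F p ^ 2 ≤ gr F p := by
  rw [gr_apply]; nlinarith [sq_nonneg (D e1 F p)]

/-- One dyadic step in the radius. -/
theorem step {k F : Fx} (hk : Ker 1 k) (hF : Sm F) : ∃ C : ℝ, 0 ≤ C ∧
    ∀ s (x : ℝ × ℝ) R A, 0 < R → Ib (gr F) s x R ≤ A →
      |mo k F s (R, x) - mo k F s (R / 2, x)| ≤ C * √A := by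
  obtain ⟨C1, hC1, H1⟩ := avg (Ker.mul hk sm_x1) hF
  obtain ⟨C2, hC2, H2⟩ := avg (Ker.mul hk sm_x2) hF
  refine ⟨C1 + C2, by positivity, fun s x R A hR hA => ?_⟩
  have hq : 0 ≤ √A := Real.sqrt_nonneg _
  have := mv (a := R / 2) (b := R) (by linarith)
    (fun r => hasDerivAt_time (sm_mo hk hF s) r x) (C := (C1 + C2) * √A / (R / 2))
    (fun r h1 h2 => by
      have hr : 0 < r := by linarith
      rw [D0_mo hk hF]
      simp only [Pi.add_apply]
      have k1 := H1 (D e1 F) (sm_D _ hF) (d1_le F) s x r R A hr h2 hA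
      have k2 := H2 (D e2 F) (sm_D _ hF) (d2_le F) s x r R A hr h2 hA
      have k3 := abs_add_le (mo (x1 * k) (D e1 F) s (r, x)) (mo (x2 * k) (D e2 F) s (r, x))
      have k4 := abs_nonneg (mo (x1 * k) (D e1 F) s (r, x) + mo (x2 * k) (D e2 F) s (r, x))
      rw [le_div_iff₀ (by linarith)]
      nlinarith)
  have e : (C1 + C2) * √A / (R / 2) * (R - R / 2) = (C1 + C2) * √A := by
    field_simp
    ring
  rwa [e] at this

/-- Radial estimate. -/
theorem rad {k F : Fx} (hk : Ker 1 k) (h1 : In k 0 = 1) (hF : Sm F) (hD : Dec (gr F)) (ρ : ℝ) :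
    ∃ C η : ℝ, 0 ≤ C ∧ 0 ≤ η ∧ η < 1 ∧ ∀ s, 0 ≤ s → ∀ x : ℝ × ℝ, ‖x‖ ≤ ρ → ∀ n : ℕ,
      |mo k F s ((1 / 2) ^ n, x) - F (s, x)| ≤ C * η ^ n := by
  obtain ⟨C1, hC1, H1⟩ := step hk hF
  obtain ⟨C2, θ, h0, hθ, H2⟩ := hD ρ
  have η0 : 0 ≤ √θ := Real.sqrt_nonneg _
  have η1 : √θ < 1 := by
    rw [Real.sqrt_lt' one_pos]; simpa using hθ
  have η2 : 0 < 1 - √θ := by linarith
  refine ⟨C1 * √|C2| / (1 - √θ), √θ, by positivity, η0, η1, fun s hs x hx n => ?_⟩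
  set a : ℕ → ℝ := fun n => mo k F s ((1 / 2) ^ n, x) with ha
  have hs1 : ∀ n : ℕ, dist (a n) (a (n + 1)) ≤ C1 * √|C2| * √θ ^ n := by
    intro n
    have b1 : Ib (gr F) s x ((1 / 2) ^ n) ≤ |C2| * θ ^ n :=
      (H2 s hs x hx n).trans (mul_le_mul_of_nonneg_right (le_abs_self _) (pow_nonneg h0 n))
    have b2 := H1 s x ((1 / 2) ^ n) _ (by positivity) b1
    have e1 : √(|C2| * θ ^ n) = √|C2| * √θ ^ n := by
      rw [Real.sqrt_mul (abs_nonneg _)]
      congr 1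
      rw [Real.sqrt_eq_iff_mul_self_eq (pow_nonneg h0 n) (pow_nonneg η0 n), ← mul_pow,
        Real.mul_self_sqrt h0]
    have e2 : ((1 : ℝ) / 2) ^ n / 2 = (1 / 2) ^ (n + 1) := by rw [pow_succ]; ring
    rw [e1, e2, ← mul_assoc] at b2
    rw [Real.dist_eq]
    exact b2
  have lim : Tendsto a atTop (𝓝 (F (s, x))) := by
    have t1 : Tendsto (fun n : ℕ => ((1 : ℝ) / 2) ^ n) atTop (𝓝 0) :=
      tendsto_pow_atTop_nhds_zero_of_lt_one (by norm_num) (by norm_num)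
    have c1 : Continuous fun r : ℝ => mo k F s (r, x) :=
      (sm_mo hk hF s).cont.comp (continuous_id.prodMk continuous_const)
    have := (c1.tendsto 0).comp t1
    rw [mo_zero, h1, mul_one] at this
    exact this
  have := dist_le_of_le_geometric_of_tendsto (√θ) (C1 * √|C2|) η1 hs1 lim n
  rw [Real.dist_eq] at this
  refine this.trans (le_of_eq ?_)
  ring

/-- Spatial estimate. -/
theorem spa {k F : Fx} (hk : Ker 1 k) (hF : Sm F) (hD : Dec (gr F)) (ρ : ℝ) :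
    ∃ C : ℝ, 0 ≤ C ∧ ∀ s, 0 ≤ s → ∀ x y : ℝ × ℝ, ‖x‖ ≤ ρ → ‖y‖ ≤ ρ → ∀ r, 0 < r → r ≤ 1 →
      |mo k F s (r, x) - mo k F s (r, y)| ≤ C / r * ‖x - y‖ := by
  obtain ⟨C1, hC1, H1⟩ := avg hk hF
  obtain ⟨C2, θ, -, -, H2⟩ := hD ρ
  refine ⟨2 * (C1 * √C2), by positivity, fun s hs x y hx hy r hr hr1 => ?_⟩
  have key : ∀ G : Fx, Sm G → (∀ p, G p ^ 2 ≤ gr F p) → ∀ z : ℝ × ℝ, ‖z‖ ≤ ρ →
      |mo k G s (r, z)| ≤ C1 * √C2 / r := by
    intro G hG hle z hz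
    have b0 : Ib (gr F) s z 1 ≤ C2 := by simpa using H2 s hs z hz 0
    rw [le_div_iff₀ hr, mul_comm]
    exact H1 G hG hle s z r 1 C2 hr hr1 b0
  have hd : ∀ v : ℝ, HasDerivAt (fun v : ℝ => mo k F s (((r, y) : X) + v • ((0, x - y) : X)))
      (D ((0, x - y) : X) (mo k F s) (((r, y) : X) + v • ((0, x - y) : X))) v :=
    fun v => hasDerivAt_line (sm_mo hk hF s) _ _ v
  have := mv zero_le_one hd (C := 2 * (C1 * √C2) / r * ‖x - y‖) (fun v hv hv1 => by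
    have ep : ((r, y) : X) + v • ((0, x - y) : X) = (r, y + v • (x - y)) := by
      ext <;> simp
    have hz : ‖y + v • (x - y)‖ ≤ ρ := by
      have e : y + v • (x - y) = (1 - v) • y + v • x := by
        rw [smul_sub, sub_smul, one_smul]; abel
      rw [e]
      calc ‖(1 - v) • y + v • x‖ ≤ ‖(1 - v) • y‖ + ‖v • x‖ := norm_add_le _ _
        _ = (1 - v) * ‖y‖ + v * ‖x‖ := by
          rw [norm_smul, norm_smul, Real.norm_of_nonneg hv, Real.norm_of_nonneg (by linarith)]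
        _ ≤ (1 - v) * ρ + v * ρ :=
          add_le_add (mul_le_mul_of_nonneg_left hy (by linarith)) (mul_le_mul_of_nonneg_left hx hv)
        _ = ρ := by ring
    rw [ep, D_dir3, D1_mo hk hF, D2_mo hk hF]
    simp only [Pi.add_apply, Pi.mul_apply, K_apply, zero_mul, zero_add]
    have k1 := key (D e1 F) (sm_D _ hF) (d1_le F) _ hz
    have k2 := key (D e2 F) (sm_D _ hF) (d2_le F) _ hz
    have n1 : |(x - y).1| ≤ ‖x - y‖ := norm_fst_le (x - y)
    have n2 : |(x - y).2| ≤ ‖x - y‖ := norm_snd_le (x - y)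
    refine (abs_add_le _ _).trans ?_
    rw [abs_mul, abs_mul]
    have m1 := mul_le_mul n1 k1 (abs_nonneg _) (norm_nonneg _)
    have m2 := mul_le_mul n2 k2 (abs_nonneg _) (norm_nonneg _)
    calc _ ≤ ‖x - y‖ * (C1 * √C2 / r) + ‖x - y‖ * (C1 * √C2 / r) := add_le_add m1 m2
      _ = 2 * (C1 * √C2) / r * ‖x - y‖ := by ring)
  have e1 : ((r, y) : X) + (1 : ℝ) • ((0, x - y) : X) = (r, x) := by ext <;> simp
  have e0 : ((r, y) : X) + (0 : ℝ) • ((0, x - y) : X) = (r, y) := by ext <;> simp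
  simp only [e1, e0, sub_zero, mul_one] at this
  exact this

end Mod1P

open Mod1P

theorem mod1_ok : StMod1 := by
  intro F hF hD ρ ε hε
  obtain ⟨k, κ, hk, -, -, h1, -, -⟩ := exists_rad
  obtain ⟨A, η, hA, η0, η1, HA⟩ := rad hk h1 hF hD ρ
  obtain ⟨B, hB, HB⟩ := spa hk hF hD ρ
  obtain ⟨n, hn⟩ := exists_pow_lt_of_lt_one (show 0 < ε / (4 * (A + 1)) by positivity) η1
  have uA : A * η ^ n ≤ ε / 4 := by
    rw [lt_div_iff₀ (by positivity)] at hn
    nlinarith [pow_nonneg η0 n]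
  have hr : (0 : ℝ) < (1 / 2) ^ n := by positivity
  have hr1 : ((1 : ℝ) / 2) ^ n ≤ 1 := pow_le_one₀ (by norm_num) (by norm_num)
  refine ⟨ε / 2 / (B / (1 / 2) ^ n + 1), by positivity, fun s hs x y hx hy hxy => ?_⟩
  have a1 := HA s hs x hx n
  have a2 := HA s hs y hy n
  have a3 := HB s hs x y hx hy _ hr hr1
  have hq : 0 ≤ B / (1 / 2) ^ n := by positivity
  have a4 : B / (1 / 2) ^ n * ‖x - y‖ ≤ ε / 2 := by
    rw [le_div_iff₀ (by positivity)] at hxy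
    nlinarith [norm_nonneg (x - y)]
  rw [abs_le] at a1 a2 a3 ⊢
  constructor <;> linarith [a1.1, a1.2, a2.1, a2.2, a3.1, a3.2]

end Pool.Agent.P.MP_2cea5e_gt.Se
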