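import Pool.Agent.P.MP_2cea5e_gt.Se.Mod

/-!
Package P2.
-/

open scoped ContDiff ComplexOrder Matrix Topology ComplexConjugate
open MeasureTheory Set Filter

noncomputable section

namespace Pool.Agent.P.MP_2cea5e_gt.Se

open II III

namespace P2P

/-- Differentiability with given Wirtinger derivatives. -/
structure Wd (f : ℂ → ℂ) (z α β : ℂ) : Prop where
  df : DifferentiableAt ℝ f z
  e1 : d1 f z = α
  e2 : db1 f z = β

variable {f g : ℂ → ℂ} {z α β γ δ : ℂ}

theorem fd (f : ℂ → ℂ) (z v : ℂ) : fderiv ℝ f z v = d1 f z * v + db1 f z * conj v := by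
  have e : v = v.re • (1 : ℂ) + v.im • Complex.I := by
    apply Complex.ext <;> simp
  have e' : conj v = (v.re : ℂ) - v.im * Complex.I := by
    apply Complex.ext <;> simp
  have e2 : fderiv ℝ f z v = v.re * fderiv ℝ f z 1 + v.im * fderiv ℝ f z Complex.I := by
    conv_lhs => rw [e]
    rw [map_add, map_smul, map_smul, Complex.real_smul, Complex.real_smul]
  rw [e2, e']
  unfold d1 db1
  conv_rhs => rw [← Complex.re_add_im v]
  simp only [Complex.add_re, Complex.add_im, Complex.ofReal_re, Complex.ofReal_im, Complex.mul_re,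
    Complex.mul_im, Complex.I_re, Complex.I_im, mul_zero, mul_one, add_zero, zero_add,
    sub_self]
  linear_combination (v.im * fderiv ℝ f z Complex.I) * Complex.I_mul_I

theorem of_has {L : ℂ →L[ℝ] ℂ} (h : HasFDerivAt f L z) (e : ∀ v, L v = α * v + β * conj v) :
    Wd f z α β := by
  refine ⟨h.differentiableAt, ?_, ?_⟩
  · unfold d1; rw [h.fderiv, e, e, Complex.conj_I, map_one]
    linear_combination ((β - α) / 2) * Complex.I_mul_I
  · unfold db1; rw [h.fderiv, e, e, Complex.conj_I, map_one]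
    linear_combination ((α - β) / 2) * Complex.I_mul_I

theorem Wd.ap (h : Wd f z α β) (v : ℂ) : fderiv ℝ f z v = α * v + β * conj v := by
  rw [fd, h.e1, h.e2]

theorem Wd.add (h : Wd f z α β) (k : Wd g z γ δ) : Wd (fun y => f y + g y) z (α + γ) (β + δ) :=
  of_has (h.df.hasFDerivAt.add k.df.hasFDerivAt) fun v => by
    rw [add_apply, h.ap, k.ap]; ring

theorem Wd.sub (h : Wd f z α β) (k : Wd g z γ δ) : Wd (fun y => f y - g y) z (α - γ) (β - δ) :=
  of_has (h.df.hasFDerivAt.sub k.df.hasFDerivAt) fun v => by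
    rw [sub_apply, h.ap, k.ap]; ring

theorem wconst (c z : ℂ) : Wd (fun _ => c) z 0 0 :=
  of_has (hasFDerivAt_const c z) fun v => by simp

theorem wid (z : ℂ) : Wd (fun y => y) z 1 0 := of_has (hasFDerivAt_id z) fun v => by simp

theorem Wd.congr (h : Wd f z α β) (e : g =ᶠ[𝓝 z] f) : Wd g z α β :=
  of_has (h.df.hasFDerivAt.congr_of_eventuallyEq e) h.ap

theorem Wd.cast (h : Wd f z α β) (e1 : α = γ) (e2 : β = δ) : Wd f z γ δ := e1 ▸ e2 ▸ h

theorem Wd.mul (H : StP1) (h : Wd f z α β) (k : Wd g z γ δ) :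
    Wd (fun y => f y * g y) z (α * g z + f z * γ) (β * g z + f z * δ) := by
  obtain ⟨a, b⟩ := H.mul f g z h.df k.df
  exact ⟨h.df.mul k.df, by rw [a, h.e1, k.e1], by rw [b, h.e2, k.e2]⟩

theorem Wd.cnj (H : StP1) (h : Wd f z α β) : Wd (fun y => conj (f y)) z (conj β) (conj α) := by
  obtain ⟨a, b⟩ := H.cnj f z h.df
  exact ⟨Complex.conjCLE.differentiableAt.comp z h.df, by rw [a, h.e2], by rw [b, h.e1]⟩

theorem Wd.inv (H : StP1) (hz : z ≠ 0) (h : Wd f z⁻¹ α β) :
    Wd (fun y => f y⁻¹) z (-(α / z ^ 2)) (-(β / conj z ^ 2)) := by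
  obtain ⟨a, b⟩ := H.inv f z hz h.df
  exact ⟨h.df.comp z (differentiableAt_inv hz), by rw [a, h.e1], by rw [b, h.e2]⟩

theorem wsm (h : ContDiff ℝ ∞ f) (z : ℂ) : Wd f z (d1 f z) (db1 f z) :=
  ⟨h.differentiable (by simp) z, rfl, rfl⟩

theorem wlog (hz : z ≠ 0) :
    Wd (fun y => ((Real.log (‖y‖ ^ 2) : ℝ) : ℂ)) z z⁻¹ (conj z)⁻¹ := by
  have h0 : ‖z‖ ^ 2 ≠ 0 := pow_ne_zero _ (norm_ne_zero_iff.2 hz)
  have h1 := ((hasFDerivAt_id (𝕜 := ℝ) z).norm_sq).log h0
  refine of_has (Complex.ofRealCLM.hasFDerivAt.comp z h1) fun v => ?_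
  have hc : conj z ≠ 0 := (map_ne_zero _).2 hz
  have e : ((‖z‖ : ℂ)) ^ 2 = z * conj z := by rw [Complex.mul_conj']
  have e2 : ((v * conj z).re : ℂ) = (v * conj z + conj v * z) / 2 := by
    rw [Complex.re_eq_add_conj]; simp
  simp only [ContinuousLinearMap.comp_apply, smul_apply, id, innerSL_apply_apply,
    ContinuousLinearMap.id_apply, Complex.inner, Complex.ofRealCLM_apply, smul_eq_mul, nsmul_eq_mul]
  push_cast
  rw [e, e2]
  field_simp

theorem smC {p : ℂ → ℝ} (h : ContDiff ℝ ∞ p) : ContDiff ℝ ∞ fun z => (p z : ℂ) :=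
  Complex.ofRealCLM.contDiff.comp h

/-- A real potential. -/
theorem pot (H : StP1) {p : ℂ → ℝ} (hf : ContDiff ℝ ∞ f) (e : ∀ z, db1 f z = p z) :
    ∃ ψ : ℂ → ℝ, ContDiff ℝ ∞ ψ ∧ ∀ z, Wd (fun y => (ψ y : ℂ)) z (f z) (conj (f z)) := by
  obtain ⟨g, hg, g1, g2⟩ := H.poin f (fun z => conj (f z)) hf (Complex.conjCLE.contDiff.comp hf)
    (funext fun z => by rw [((wsm hf z).cnj H).e1, e, Complex.conj_ofReal])
  refine ⟨fun z => (g z).re, Complex.reCLM.contDiff.comp hg, fun z => ?_⟩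
  have w : Wd g z (f z) (conj (f z)) := (wsm hg z).cast (by rw [g1]) (by rw [g2])
  have w2 := (w.add (w.cnj H)).mul H (wconst (1 / 2) z)
  refine (w2.congr (Eventually.of_forall fun y => ?_)).cast ?_ ?_
  · simp only [Complex.re_eq_add_conj]; ring
  · simp only [Complex.conj_conj]; ring
  · ring

/-- A logarithmic form with a global primitive off the origin has a real residue. -/
theorem real_res {b : ℂ} (h : ∀ z, z ≠ 0 → Wd f z (b / z) (conj b / conj z)) : conj b = b := by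
  have key : ∀ t : ℝ, HasDerivAt (fun t : ℝ => f (Complex.exp (t * Complex.I)) -
      (b - conj b) * Complex.I * t) 0 t := by
    intro t
    have h0 : Complex.exp (t * Complex.I) ≠ 0 := Complex.exp_ne_zero _
    have h1 : HasDerivAt (fun t : ℝ => Complex.exp (t * Complex.I))
        (Complex.exp (t * Complex.I) * Complex.I) t := by
      simpa using ((Complex.ofRealCLM.hasDerivAt (x := t)).mul_const Complex.I).cexp
    have h2 := (h _ h0).df.hasFDerivAt.comp_hasDerivAt t h1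
    have h3 := (Complex.ofRealCLM.hasDerivAt (x := t)).const_mul ((b - conj b) * Complex.I)
    have hc : conj (Complex.exp (t * Complex.I)) ≠ 0 := (map_ne_zero _).2 h0
    refine (h2.sub h3).congr_deriv ?_
    rw [(h _ h0).ap, map_mul, Complex.conj_I]
    simp only [Complex.ofRealCLM_apply, Complex.ofReal_one]
    field_simp
    ring
  have c := is_const_of_deriv_eq_zero (fun t => (key t).differentiableAt)
    (fun t => (key t).deriv) (2 * Real.pi) 0
  simp only [Complex.ofReal_mul, Complex.ofReal_ofNat, Complex.exp_two_pi_mul_I,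
    Complex.ofReal_zero, zero_mul, Complex.exp_zero, mul_zero, sub_zero, sub_eq_self,
    mul_eq_zero, Complex.I_ne_zero, or_false, OfNat.ofNat_ne_zero, Complex.ofReal_eq_zero,
    Real.pi_ne_zero] at c
  exact (sub_eq_zero.1 c).symm

end P2P

open P2P

theorem p2_ok (h : StP1) : StP2 := by
  intro p P q Q hp hP hq hQ hc hi
  have hp' := smC hp
  have hP' := smC hP
  have hB : ContDiff ℝ ∞ fun z : ℂ => z * (z * (P z : ℂ)) :=
    contDiff_id.mul (contDiff_id.mul hP')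
  have ip : ∀ τ : ℂ, τ ≠ 0 → (p τ⁻¹ : ℂ) / conj τ ^ 2 = τ * (τ * P τ) := by
    intro τ hτ
    have hc : conj τ ≠ 0 := (map_ne_zero _).2 hτ
    have e : ((‖τ‖ : ℂ)) ^ 4 = (τ * conj τ) ^ 2 := by rw [Complex.mul_conj']; ring
    rw [(hi τ hτ).1]
    push_cast
    rw [e]
    field_simp
  have iq : ∀ τ : ℂ, τ ≠ 0 → q τ⁻¹ / τ ^ 2 = Q τ := by
    intro τ hτ
    rw [(hi τ hτ).2]
    field_simp
  obtain ⟨h0, s0, a0, b0⟩ := h.poin q (fun z => (p z : ℂ)) hq hp' hc
  have cl : db1 Q = d1 fun z : ℂ => z * (z * (P z : ℂ)) := by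
    refine Continuous.ext_on (dense_compl_singleton (0 : ℂ)) (h.sm Q hQ).2.1.continuous
      (h.sm _ hB).1.continuous fun τ hτ => ?_
    have hτ : τ ≠ 0 := hτ
    have hn : ∀ᶠ y in 𝓝 τ, y ≠ (0 : ℂ) := isOpen_ne.mem_nhds hτ
    have w1 := (((wsm hq τ⁻¹).mul h ((wid _).mul h (wid _))).inv h hτ).congr (g := Q)
      (hn.mono fun y hy => by rw [← iq y hy]; simp only; field_simp)
    have w2 := (((wsm hp' τ⁻¹).mul h (((wid _).cnj h).mul h ((wid _).cnj h))).inv h hτ).congr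
      (g := fun z : ℂ => z * (z * (P z : ℂ)))
      (hn.mono fun y hy => by
        have hc : conj y ≠ 0 := (map_ne_zero _).2 hy
        simp only [← ip y hy, map_inv₀]; field_simp)
    have hc' : conj τ ≠ 0 := (map_ne_zero _).2 hτ
    rw [w1.e2, w2.e1, hc]
    simp only [map_inv₀, map_zero]
    field_simp
    ring
  obtain ⟨K, sK, aK, bK⟩ := h.poin Q _ hQ hB cl
  obtain ⟨k, hk⟩ := h.const (fun τ => h0 τ⁻¹ + K τ) fun τ hτ => by
    have w := ((wsm s0 τ⁻¹).inv h hτ).add (wsm sK τ)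
    refine ⟨w.df, ?_, ?_⟩
    · rw [w.e1, a0, aK, iq τ hτ]; ring
    · rw [w.e2, b0, bK, ip τ hτ]; ring
  obtain ⟨K1, s1, e1, b1⟩ := h.divi (fun z => K z - K 0) (fun z => z * (P z : ℂ))
    (sK.sub contDiff_const) (contDiff_id.mul hP') (sub_self _) fun z => by
      rw [((wsm sK z).sub (wconst _ z)).e2, bK, sub_zero]
  obtain ⟨K2, s2, e2, b2⟩ := h.divi (fun z => K1 z - K1 0) (fun z => (P z : ℂ))
    (s1.sub contDiff_const) hP' (sub_self _) fun z => by
      rw [((wsm s1 z).sub (wconst _ z)).e2, b1, sub_zero]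
  have w1 : ∀ z, Wd (fun z => h0 z - (k - K 0)) z (q z) (p z) := fun z =>
    ((wsm s0 z).sub (wconst _ z)).cast (by rw [a0, sub_zero]) (by rw [b0, sub_zero])
  obtain ⟨ψ, sψ, wψ⟩ := pot h (s0.sub (contDiff_const (c := k - K 0))) fun z => (w1 z).e2
  obtain ⟨F, sF, wF⟩ := pot h (p := P) s2 fun z => by rw [b2]
  have val : ∀ τ : ℂ, τ ≠ 0 → -((h0 τ⁻¹ - (k - K 0)) / τ ^ 2) - K2 τ = K1 0 / τ := by
    intro τ hτ
    have x1 := hk τ hτ
    have x2 := e1 τ
    have x3 := e2 τ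
    generalize h0 τ⁻¹ = y at x1 ⊢
    field_simp
    linear_combination -x1 + x2 + τ * x3
  have wu : ∀ τ : ℂ, τ ≠ 0 →
      Wd (fun y => (ψ y⁻¹ : ℂ) - F y) τ (K1 0 / τ) (conj (K1 0) / conj τ) := fun τ hτ =>
    (((wψ τ⁻¹).inv h hτ).sub (wF τ)).cast (val τ hτ) (by
      rw [← map_div₀, ← val τ hτ]; simp)
  have re := real_res wu
  obtain ⟨k2, hk2⟩ := h.const
    (fun y => ((ψ y⁻¹ : ℂ) - F y) - K1 0 * ((Real.log (‖y‖ ^ 2) : ℝ) : ℂ)) fun τ hτ => by
      have w := (wu τ hτ).sub ((wconst (K1 0) τ).mul h (wlog hτ))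
      refine ⟨w.df, ?_, ?_⟩
      · rw [w.e1]; ring
      · rw [w.e2, re]; ring
  have eb : db1 (fun z => (ψ z : ℂ)) = fun z => conj (h0 z - (k - K 0)) :=
    funext fun z => (wψ z).e2
  have ea : d1 (fun z => (ψ z : ℂ)) = fun z => h0 z - (k - K 0) := funext fun z => (wψ z).e1
  refine ⟨ψ, fun z => F z + k2.re, -(K1 0).re, sψ, sF.add contDiff_const, ?_, ?_, fun τ hτ => ?_⟩
  · rw [eb]
    exact funext fun z => by rw [((w1 z).cnj h).e1, Complex.conj_ofReal]
  · rw [ea]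
    exact funext fun z => (w1 z).e1
  · have x := congrArg Complex.re (hk2 τ hτ)
    simp only [Complex.sub_re, Complex.ofReal_re, Complex.mul_re, Complex.ofReal_im, mul_zero,
      sub_zero] at x
    linarith

end Pool.Agent.P.MP_2cea5e_gt.Se
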