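import Pool.Agent.P.MP_2cea5e_gt.Gron
import Pool.Agent.P.MP_2cea5e_gt.IBP

/-!
The surface without fixed point: the reduced equation on the plane, definitions.
Points of `X` are `(s, x₁, x₂)`; balls in the plane `ℝ × ℝ` are squares (sup norm).
-/

open scoped ContDiff Topology
open MeasureTheory Set Filter

noncomputable section

namespace Pool.Agent.P.MP_2cea5e_gt.Se

abbrev Fx : Type := X → ℝ

def x1 : Fx := Li 1 0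
def x2 : Fx := Li 0 1
def r2 : Fx := x1 * x1 + x2 * x2
def rr : Fx := K 1 + r2
def el : Fx := Lg rr
def sg : Fx := Iv (rr * rr)
def jb : Fx := fun p => √(rr p)
def Ab (f : Fx) : Fx := fun p => |f p|
/-- The inversion `ζ ↦ 1 / ζ`. -/
def iv (p : X) : X := (p.1, p.2.1 / r2 p, -p.2.2 / r2 p)

/-! ### Symbol classes -/

def OO (m : ℤ) (f : Fx) : Prop := ∀ M : ℝ, ∃ C : ℝ, ∀ p : X, |p.1| ≤ M → |f p| ≤ C * jb p ^ m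

def SyN : ℕ → ℤ → Fx → Prop
  | 0, m, f => OO m f
  | n + 1, m, f => OO m f ∧ SyN n m (D e0 f) ∧ SyN n (m - 1) (D e1 f) ∧ SyN n (m - 1) (D e2 f)

/-- Symbols of order `m`, locally uniformly in time. -/
structure Sy (m : ℤ) (f : Fx) : Prop where
  sm : Sm f
  bd : ∀ n, SyN n m f

/-- The gradient has order `m`. -/
structure H1 (m : ℤ) (f : Fx) : Prop where
  sm : Sm f
  d1 : Sy m (D e1 f)
  d2 : Sy m (D e2 f)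

/-- The Hessian has order `m`. -/
structure H2 (m : ℤ) (f : Fx) : Prop where
  sm : Sm f
  d11 : Sy m (D e1 (D e1 f))
  d12 : Sy m (D e1 (D e2 f))
  d22 : Sy m (D e2 (D e2 f))

/-- Smooth with compact support in space, locally uniformly in time. -/
structure Cs2 (f : Fx) : Prop where
  sm : Sm f
  supp : ∀ M : ℝ, ∃ ρ : ℝ, ∀ p : X, |p.1| ≤ M → ρ ≤ ‖p.2‖ → f p = 0

/-- `g` is `f` in the chart at infinity. -/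
structure Wit (f g : Fx) : Prop where
  sm : Sm g
  eq : ∀ p : X, p.2 ≠ 0 → g p = f (iv p)

/-- Smooth functions on the sphere. -/
structure Sph (f : Fx) : Prop where
  sm : Sm f
  wit : ∃ g, Wit f g

/-! ### Integrals and operators -/

def In (f : Fx) (s : ℝ) : ℝ := ∫ x : ℝ × ℝ, f (s, x)
def Ib (f : Fx) (s : ℝ) (x : ℝ × ℝ) (r : ℝ) : ℝ := ∫ y in Metric.ball x r, f (s, y)
def Ig (f : Fx) : Prop := ∀ s, Integrable fun x : ℝ × ℝ => f (s, x)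
/-- Integrable on all balls. -/
def Loc (f : Fx) : Prop := ∀ s (x : ℝ × ℝ) r, IntegrableOn (fun y : ℝ × ℝ => f (s, y)) (Metric.ball x r)
/-- The image of a ball under the inversion. -/
def iB (x : ℝ × ℝ) (r : ℝ) : Set (ℝ × ℝ) := {y | y ≠ 0 ∧ (iv (0, y)).2 ∈ Metric.ball x r}
def Ii (f : Fx) (s : ℝ) (x : ℝ × ℝ) (r : ℝ) : ℝ := ∫ y in iB x r, f (s, y)
def s0 : ℝ := In sg 0

def Lp (f : Fx) : Fx := D e1 (D e1 f) + D e2 (D e2 f)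
def ip2 (f g : Fx) : Fx := D e1 f * D e1 g + D e2 f * D e2 g
def gr (f : Fx) : Fx := ip2 f f
def hs (f : Fx) : Fx := gr (D e1 f) + gr (D e2 f)
def Jc (f g : Fx) : Fx := D e1 f * D e2 g - D e2 f * D e1 g
def EE (f g : Fx) : Fx := gr f + gr g
/-- `∂_ζ ∂_ζ f = q1 f + i q2 f`, `∂_ζ ∂_ζ̄ f = pp f`. -/
def q1 (f : Fx) : Fx := K (1 / 4) * (D e1 (D e1 f) - D e2 (D e2 f))
def q2 (f : Fx) : Fx := K (-(1 / 2)) * D e1 (D e2 f)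
def pp (f : Fx) : Fx := K (1 / 4) * Lp f
def qq (f : Fx) : Fx := q1 f * q1 f + q2 f * q2 f
/-- Real and imaginary part of `(h₁ + i h₂) ∂_ζ ∂_ζ f`. -/
def hq1 (h₁ h₂ f : Fx) : Fx := h₁ * q1 f - h₂ * q2 f
def hq2 (h₁ h₂ f : Fx) : Fx := h₁ * q2 f + h₂ * q1 f
/-- `ζ² = z1 + i z2`. -/
def z1 : Fx := x1 * x1 - x2 * x2
def z2 : Fx := K 2 * x1 * x2
def Q1 (f : Fx) : Fx := hq1 z1 z2 f
def Q2 (f : Fx) : Fx := hq2 z1 z2 f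
/-- `τ² g_{ττ} + 2 τ g_τ = O1 g + i O2 g`. -/
def O1 (g : Fx) : Fx := Q1 g + (x1 * D e1 g + x2 * D e2 g)
def O2 (g : Fx) : Fx := Q2 g + (x2 * D e1 g - x1 * D e2 g)

/-! ### Bounds that are uniform for `s ≥ 0` -/

def Ub (F : ℝ → ℝ) : Prop := ∃ C : ℝ, ∀ s, 0 ≤ s → F s ≤ C
def Pb (f : Fx) : Prop := ∃ C : ℝ, ∀ p : X, 0 ≤ p.1 → |f p| ≤ C
def Lb (f : Fx) : Prop := ∀ ρ : ℝ, ∃ C : ℝ, ∀ p : X, 0 ≤ p.1 → ‖p.2‖ ≤ ρ → |f p| ≤ C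
def Ilb (f : Fx) : Prop := ∀ ρ : ℝ, ∃ C : ℝ, ∀ s, 0 ≤ s → Ib f s 0 ρ ≤ C
def Sq (f : Fx) : Prop := ∀ ρ : ℝ, ∃ C : ℝ, ∀ s, 0 ≤ s → ∀ x : ℝ × ℝ, ‖x‖ ≤ ρ → ∀ r, 0 < r →
  r ≤ 1 → Ib f s x r ≤ C * √r
def Dec (f : Fx) : Prop := ∀ ρ : ℝ, ∃ C θ : ℝ, 0 ≤ θ ∧ θ < 1 ∧ ∀ s, 0 ≤ s → ∀ x : ℝ × ℝ,
  ‖x‖ ≤ ρ → ∀ n : ℕ, Ib f s x ((1 / 2) ^ n) ≤ C * θ ^ n
/-- Equicontinuity in space. -/
def Eqc (f : Fx) : Prop := ∀ ρ ε : ℝ, 0 < ε → ∃ δ : ℝ, 0 < δ ∧ ∀ s, 0 ≤ s → ∀ x y : ℝ × ℝ,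
  ‖x‖ ≤ ρ → ‖y‖ ≤ ρ → ‖x - y‖ ≤ δ → |f (s, x) - f (s, y)| ≤ ε
/-- Equicontinuity in space and in the time `t`. -/
def JM (t : ℝ → ℝ) (f : Fx) : Prop := ∀ ρ ε : ℝ, 0 < ε → ∃ δ : ℝ, 0 < δ ∧ ∀ s, 0 ≤ s →
  ∀ s', 0 ≤ s' → ∀ x y : ℝ × ℝ, ‖x‖ ≤ ρ → ‖y‖ ≤ ρ → ‖x - y‖ ≤ δ → |t s - t s'| ≤ δ →
    |f (s, x) - f (s', y)| ≤ ε
/-- Test functions (read at time zero). -/
structure Ker (R : ℝ) (k : Fx) : Prop where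
  sm : Sm k
  supp : ∀ p : X, R ≤ ‖p.2‖ → k p = 0
/-- Weakly Lipschitz in the time `t`. -/
def WL (t : ℝ → ℝ) (f : Fx) : Prop := ∀ R k, Ker R k → ∃ C : ℝ, ∀ s, 0 ≤ s → ∀ s', 0 ≤ s' →
  |(∫ y : ℝ × ℝ, f (s, y) * k (0, y)) - ∫ y : ℝ × ℝ, f (s', y) * k (0, y)| ≤ C * |t s - t s'|
/-- The average of `F (s, ·)` at scale `p.1` around `p.2`. -/
def mo (k F : Fx) (s : ℝ) : Fx := fun p => ∫ y : ℝ × ℝ, F (s, p.2 + p.1 • y) * k (0, y)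
/-- A clock with bounded time. -/
structure Clk (t τ : ℝ → ℝ) (T : ℝ) : Prop where
  sm : ContDiff ℝ ∞ τ
  pos : ∀ s, 0 < τ s
  dt : ∀ s, HasDerivAt t (τ s) s
  nn : ∀ s, 0 ≤ t s
  le : ∀ s, t s ≤ T

/-! ### The reduced flow -/

structure Dat where
  c : ℝ
  a : ℝ
  T : ℝ
  ψ : Fx
  w : Fx
  R : Fx
  t : ℝ → ℝ
  τ : ℝ → ℝ

namespace Dat

variable (d : Dat)

def u : Fx := K (d.c / 2) * r2 + d.ψ
def V : Fx := W d.u - K (d.c * d.c)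
def L : Fx := d.w - K 2 * el
def φ : Fx := d.ψ - K d.a * el
def tS : Fx := Lp d.u
/-- The Jacobian of the map `c x + ∇ u`. -/
def nn : Fx := K (d.c * d.c) + K d.c * d.tS + W d.u
def GG : Fx := d.R * d.R * d.V * d.V * Iv (W d.u) - K 2 * W d.L
def QQ (f : Fx) : Fx := DD d.u f * DD d.u f * Iv d.V - BB d.L f f - d.R * BB d.u f f
def Ca : ℝ → ℝ := In (d.R * d.R * d.V)
def En : ℝ → ℝ := In (K (1 / 2) * BB d.u d.w d.w + K 2 * (DD d.u el * d.w))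
def jj : ℝ → ℝ := In (gr d.φ)
/-- The fields of the Reilly identity. -/
def n1 (f : Fx) : Fx := (D e2 (D e2 d.u) * D e1 f - D e1 (D e2 d.u) * D e2 f) * Iv d.V
def n2 (f : Fx) : Fx := (D e1 (D e1 d.u) * D e2 f - D e1 (D e2 d.u) * D e1 f) * Iv d.V
def m1 (f : Fx) : Fx := K (-d.c) * D e2 f * Iv d.V
def m2 (f : Fx) : Fx := K d.c * D e1 f * Iv d.V
def trS (y₁ y₂ : Fx) : Fx :=
  D e1 y₁ * D e1 y₁ + K 2 * (D e2 y₁ * D e1 y₂) + D e2 y₂ * D e2 y₂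
def dvV (y₁ y₂ : Fx) : Fx := D e1 (d.V * y₁) + D e2 (d.V * y₂)
def hL (y₁ y₂ : Fx) : Fx :=
  D e1 (D e1 d.L) * y₁ * y₁ + K 2 * (D e1 (D e2 d.L) * y₁ * y₂) + D e2 (D e2 d.L) * y₂ * y₂

structure Met : Prop where
  hc : 0 < d.c
  φS : Sph d.φ
  wS : Sph d.w
  RS : Sph d.R
  p11 : ∀ p, 0 < D e1 (D e1 d.u) p
  hV : d.V = sg * Ex d.w
  hR : d.R * d.V = -DD d.u d.L

structure Flo : Prop extends d.Met where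
  clk : Clk d.t d.τ d.T
  eq : D e0 d.ψ = Tm d.τ * d.R

/-- The bounds after step A3. -/
structure H3 : Prop where
  ca : Ub d.Ca
  tS : Pb d.tS
  low : ∃ l : ℝ, 0 < l ∧ ∀ f : Fx, ∀ p : X, 0 ≤ p.1 → l * gr f p ≤ BB d.u f f p
  hp : Pb (hs d.ψ)
  hψ : Ub (In (hs d.ψ))
  hw : Ub (In (hs d.w))
  hL : Ub (In (hs d.L))

/-- The bounds after step A5. -/
structure H5 : Prop extends d.H3 where
  gw : Ub (In (gr d.w))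
  gw2 : Ub (In (gr d.w * gr d.w))
  wl : ∃ C : ℝ, ∀ p : X, 0 ≤ p.1 → |d.w p| ≤ C + el p / 4
  gV : ∃ C : ℝ, ∀ p : X, 0 ≤ p.1 →
    rr p * rr p * gr d.V p ≤ C * (jb p ^ (-3 : ℤ) * gr d.w p + sg p)
  Vs : ∃ C : ℝ, ∀ p : X, 0 ≤ p.1 → ∀ M : ℝ, 0 < M → d.V p ≤ C * (M * sg p + jb p ^ (-3 : ℤ) / M)

/-- The bounds in the chart at infinity after step A8. -/
structure H8 (χ : Fx) : Prop where
  e1 : Eqc (O1 χ)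
  e2 : Eqc (O2 χ)
  b1 : Lb (O1 χ)
  b2 : Lb (O2 χ)
  hp : Pb (rr * rr * hs d.ψ)

/-- The bounds after step A9. -/
structure H9 (χ : Fx) : Prop where
  w : Pb d.w
  eP : Eqc (Lp χ)
  bP : Lb (Lp χ)

/-- The volume density in the chart at infinity. -/
def Vi (χ : Fx) : Fx := K d.c * Lp χ + K (1 / 4) * (r2 * r2 * (Lp χ * Lp χ)) -
  K 4 * ((O1 χ - K d.a) * (O1 χ - K d.a) + O2 χ * O2 χ)

/-- The result. -/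
structure Out (χ : Fx) : Prop where
  bψ : Lb d.ψ
  bχ : Lb χ
  b0 : Lb (pp d.ψ) ∧ Lb (q1 d.ψ) ∧ Lb (q2 d.ψ)
  b1 : Lb (Lp χ) ∧ Lb (O1 χ) ∧ Lb (O2 χ)
  j0 : JM d.t (pp d.ψ) ∧ JM d.t (q1 d.ψ) ∧ JM d.t (q2 d.ψ)
  j1 : JM d.t (Lp χ) ∧ JM d.t (O1 χ) ∧ JM d.t (O2 χ)
  low : ∀ ρ : ℝ, ∃ β : ℝ, 0 < β ∧ ∀ p : X, 0 ≤ p.1 → ‖p.2‖ ≤ ρ → β ≤ d.V p ∧ β ≤ d.Vi χ p

/-- `χ` is the potential in the chart at infinity. -/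
def Wc (χ : Fx) : Prop := Wit d.φ (χ - K d.a * el)

end Dat

end Pool.Agent.P.MP_2cea5e_gt.Se
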