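import Pool.Agent.P.MP_2cea5e_gt.Se.Mod
import Pool.Agent.P.MP_2cea5e_gt.IV.HT

/-!
Package S0.
-/

open scoped ContDiff ComplexOrder Matrix Topology ComplexConjugate
open MeasureTheory Set Filter

noncomputable section

namespace Pool.Agent.P.MP_2cea5e_gt.Se

open II III

namespace S0P

/-- The sign of the change of chart. -/
def ep (a b : Bool) : ℂ := bif a then (bif b then 1 else -1) else (bif b then -1 else 1)

/-- The diagonal Jacobian matrix. -/
def dg (j : ℂ) : Matrix (Fin 2) (Fin 2) ℂ := !![1, 0; 0, j]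

/-- The pull back by a diagonal matrix. -/
def pbd (j : ℂ) (M : Matrix (Fin 2) (Fin 2) ℂ) : Matrix (Fin 2) (Fin 2) ℂ :=
  (dg j)ᵀ * M * (dg j).map star

theorem pbd_eq (j : ℂ) (M : Matrix (Fin 2) (Fin 2) ℂ) :
    pbd j M = !![M 0 0, M 0 1 * conj j; j * M 1 0, j * M 1 1 * conj j] := by
  ext p q
  fin_cases p <;> fin_cases q <;> simp [pbd, dg, Matrix.mul_apply, Fin.sum_univ_two]

theorem pbd_one (M : Matrix (Fin 2) (Fin 2) ℂ) : pbd 1 M = M := by
  rw [pbd_eq]
  ext p q
  fin_cases p <;> fin_cases q <;> simp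

theorem pbd_mul (j k : ℂ) (M : Matrix (Fin 2) (Fin 2) ℂ) : pbd j (pbd k M) = pbd (j * k) M := by
  simp only [pbd_eq]
  ext p q
  fin_cases p <;> fin_cases q <;> simp <;> ring

theorem cont_pbd {j : C2 → ℂ} {M : Fld} {w : C2} (hj : ContinuousAt j w) (hM : ContinuousAt M w) :
    ContinuousAt (fun y => pbd (j y) (M y)) w := by
  have h1 : ∀ p q, ContinuousAt (fun y => M y p q) w := fun p q =>
    continuousAt_pi.1 (continuousAt_pi.1 hM p) q
  have h2 : ContinuousAt (fun y => conj (j y)) w := Complex.continuous_conj.continuousAt.comp hj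
  simp only [pbd_eq]
  refine continuousAt_pi.2 fun p => continuousAt_pi.2 fun q => ?_
  fin_cases p <;> fin_cases q
  · exact h1 0 0
  · exact (h1 0 1).mul h2
  · exact hj.mul (h1 1 0)
  · exact (hj.mul (h1 1 1)).mul h2

theorem ep_ne (a b : Bool) : ep a b ≠ 0 := by
  cases a <;> cases b <;> simp [ep]

theorem jj_of {φ : ℂ → ℂ} {j s : ℂ} {w : C2} (h : HasDerivAt φ j (w 1)) :
    Abs.JJ (fun y : C2 => (![y 0 + s, φ (y 1)] : C2)) w = dg j := by
  let P : Fin 2 → C2 →L[ℂ] ℂ := fun i => ContinuousLinearMap.proj (R := ℂ) (φ := fun _ : Fin 2 => ℂ) i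
  have h0 : HasFDerivAt (fun y : C2 => y 0 + s) (P 0) w := (P 0).hasFDerivAt.add_const s
  have h1 : HasFDerivAt (fun y : C2 => φ (y 1)) (j • P 1) w :=
    h.comp_hasFDerivAt w (P 1).hasFDerivAt
  have h2 : HasFDerivAt (fun y : C2 => (![y 0 + s, φ (y 1)] : C2))
      (ContinuousLinearMap.pi ![P 0, j • P 1]) w := by
    refine hasFDerivAt_pi'' fun i => ?_
    fin_cases i
    · exact h0
    · exact h1
  ext p q
  rw [Abs.JJ, h2.fderiv]
  fin_cases p <;> fin_cases q <;> simp [dg, P]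

theorem jj_inv {w : C2} (h : w 1 ≠ 0) : Abs.JJ inv2 w = dg (-(w 1 ^ 2)⁻¹) := by
  have := jj_of (s := 0) (hasDerivAt_inv h)
  simp only [add_zero] at this
  exact this

theorem jj_Ga {a b : Bool} {s : ℂ} {w : C2} (h : de a b s w ≠ 0) :
    Abs.JJ (Ga a b s) w = dg (ep a b / de a b s w ^ 2) := by
  have hi : HasDerivAt (fun x : ℂ => x) 1 (w 1) := hasDerivAt_id _
  have h1 : HasDerivAt (fun _ : ℂ => (1 : ℂ)) 0 (w 1) := hasDerivAt_const _ _
  cases a <;> cases b
  · refine jj_of (φ := fun x => (x + conj s * 1) / 1)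
      (((hi.fun_add (h1.const_mul _)).fun_div h1 h).congr_deriv ?_)
    simp [ep, de, hD]
  · refine jj_of (φ := fun x => (1 + conj s * x) / x)
      (((h1.fun_add (hi.const_mul _)).fun_div hi h).congr_deriv ?_)
    simp [ep, de, hD]
  · refine jj_of (φ := fun x => 1 / (x + conj s * 1))
      ((h1.fun_div (hi.fun_add (h1.const_mul _)) h).congr_deriv ?_)
    simp [ep, de, hD, hN]
  · refine jj_of (φ := fun x => x / (1 + conj s * x))
      ((hi.fun_div (h1.fun_add (hi.const_mul _)) h).congr_deriv ?_)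
    simp [ep, de, hD, hN, mul_comm]

theorem pb_Ga {a b : Bool} {s : ℂ} {w : C2} (h : de a b s w ≠ 0) (g : Fld) :
    Abs.pbF (Ga a b s) g w = pbd (ep a b / de a b s w ^ 2) (g (Ga a b s w)) := by
  rw [Abs.pbF, jj_Ga h, pbd]

theorem pb_inv {w : C2} (h : w 1 ≠ 0) (g : Fld) :
    Abs.pbF inv2 g w = pbd (-(w 1 ^ 2)⁻¹) (g (inv2 w)) := by
  rw [Abs.pbF, jj_inv h, pbd]

theorem sm_nd (a b : Bool) : ContDiff ℝ ∞ (fun q : ℂ × C2 => nu a b q.1 q.2) ∧
    ContDiff ℝ ∞ fun q : ℂ × C2 => de a b q.1 q.2 := by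
  have h1 : ContDiff ℝ ∞ fun q : ℂ × C2 => conj q.1 := Complex.conjCLE.contDiff.comp contDiff_fst
  have h2 : ContDiff ℝ ∞ fun q : ℂ × C2 => q.2 1 := (contDiff_apply ℝ ℂ 1).comp contDiff_snd
  have h3 : ContDiff ℝ ∞ fun q : ℂ × C2 => hN b q.2 := by
    cases b
    · exact h2
    · exact contDiff_const
  have h4 : ContDiff ℝ ∞ fun q : ℂ × C2 => hD b q.2 := by
    cases b
    · exact contDiff_const
    · exact h2
  cases a
  · exact ⟨h3.add (h1.mul h4), h4⟩
  · exact ⟨h4, h3.add (h1.mul h4)⟩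

theorem an_nd (a b : Bool) (s : ℂ) (w : C2) :
    AnalyticAt ℂ (nu a b s) w ∧ AnalyticAt ℂ (de a b s) w := by
  have h2 : AnalyticAt ℂ (fun y : C2 => y 1) w :=
    (ContinuousLinearMap.proj (R := ℂ) (φ := fun _ : Fin 2 => ℂ) 1).analyticAt w
  have h3 : AnalyticAt ℂ (hN b) w := by
    cases b
    · exact h2
    · exact analyticAt_const
  have h4 : AnalyticAt ℂ (hD b) w := by
    cases b
    · exact analyticAt_const
    · exact h2
  cases a
  · exact ⟨h3.add (analyticAt_const.mul h4), h4⟩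
  · exact ⟨h4, h3.add (analyticAt_const.mul h4)⟩

theorem an_pair {φ ψ : C2 → ℂ} {w : C2} (h0 : AnalyticAt ℂ φ w) (h1 : AnalyticAt ℂ ψ w) :
    AnalyticAt ℂ (fun y => (![φ y, ψ y] : C2)) w := by
  refine AnalyticAt.pi fun i => ?_
  fin_cases i
  · exact h0
  · exact h1

theorem an_co (i : Fin 2) (w : C2) : AnalyticAt ℂ (fun y : C2 => y i) w :=
  (ContinuousLinearMap.proj (R := ℂ) (φ := fun _ : Fin 2 => ℂ) i).analyticAt w

theorem an_Ga (a b : Bool) (s : ℂ) (w : C2) (h : de a b s w ≠ 0) : AnalyticAt ℂ (Ga a b s) w :=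
  an_pair ((an_co 0 w).add analyticAt_const) ((an_nd a b s w).1.div (an_nd a b s w).2 h)

theorem an_inv {w : C2} (h : w 1 ≠ 0) : AnalyticAt ℂ inv2 w :=
  an_pair (an_co 0 w) ((an_co 1 w).inv h)

theorem nd_ne (a b : Bool) (s : ℂ) (w : C2) (h : de a b s w = 0) : nu a b s w ≠ 0 := by
  intro h'
  cases a <;> cases b <;> simp only [nu, de, hN, hD, cond_true, cond_false] at h h'
  · exact one_ne_zero h
  · rw [h] at h'; simp at h'
  · exact one_ne_zero h'
  · rw [h'] at h; simp at h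

theorem Ga_ff (s : ℂ) (w : C2) : Ga false false s w = w + tr s := by
  funext i
  fin_cases i <;> simp [Ga, nu, de, hN, hD, tr]

theorem Ga_ft (s : ℂ) {w : C2} (h : w 1 ≠ 0) : Ga false true s w = inv2 w + tr s := by
  funext i
  fin_cases i
  · simp [Ga, tr, inv2]
  · simp [Ga, nu, de, hN, hD, tr, inv2]
    field_simp

theorem inv_Ga (b : Bool) (s : ℂ) (w : C2) : inv2 (Ga true b s w) = Ga false b s w := by
  funext i
  fin_cases i <;> simp [Ga, nu, de, inv2]

theorem tr_zero : tr 0 = 0 := by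
  funext i
  fin_cases i <;> simp [tr]

theorem hD_ne (b : Bool) {w : C2} (h : w 1 ≠ 0) : hD b w ≠ 0 := by
  cases b
  · exact one_ne_zero
  · exact h

theorem dens {E : Type} [TopologicalSpace E] [T2Space E] {F G : C2 → E} {w : C2}
    (hF : ContinuousAt F w) (hG : ContinuousAt G w) (h : ∀ᶠ y in 𝓝 w, y 1 ≠ 0 → F y = G y) :
    F w = G w := by
  have hd : Dense ((fun y : C2 => y 1) ⁻¹' {0}ᶜ) :=
    (dense_compl_singleton (0 : ℂ)).preimage (isOpenMap_eval 1)
  have : (𝓝[(fun y : C2 => y 1) ⁻¹' {0}ᶜ] w).NeBot := mem_closure_iff_nhdsWithin_neBot.1 (hd w)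
  refine tendsto_nhds_unique_of_eventuallyEq (hF.continuousWithinAt (s := (fun y : C2 => y 1) ⁻¹' {0}ᶜ))
    hG.continuousWithinAt ?_
  filter_upwards [nhdsWithin_le_nhds h, self_mem_nhdsWithin] with y h1 h2 using h1 h2

theorem gl_f {u : Bool → Fn} (hu : SGl u) (b : Bool) (s : ℂ) (w : C2) (h : de false b s w ≠ 0) :
    u false (Ga false b s w) = u b w := by
  cases b
  · rw [Ga_ff, hu.inv]
  · rw [Ga_ft s h, hu.inv, hu.glue w h]

theorem gl {u : Bool → Fn} (hu : SGl u) (a b : Bool) (s : ℂ) (w : C2) (h : de a b s w ≠ 0) :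
    u a (Ga a b s w) = u b w := by
  cases a
  · exact gl_f hu b s w h
  refine dens (F := fun y => u true (Ga true b s y))
    ((hu.sm true).continuous.continuousAt.comp (an_Ga _ _ _ _ h).continuousAt)
    (hu.sm b).continuous.continuousAt ?_
  filter_upwards [(an_nd true b s w).2.continuousAt.eventually_ne h] with y h1 h2
  rw [hu.glue _ (div_ne_zero (hD_ne b h2) h1), inv_Ga, gl_f hu b s y (hD_ne b h2)]

theorem met_f {g : Bool → Fld} (hi : ∀ s w, g false (w + tr s) = g false w)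
    (hg : ∀ w : C2, w 1 ≠ 0 → g true w = Abs.pbF inv2 (g false) w) (b : Bool) (s : ℂ) (w : C2)
    (h : de false b s w ≠ 0) :
    g b w = pbd (ep false b / de false b s w ^ 2) (g false (Ga false b s w)) := by
  cases b
  · rw [Ga_ff, hi]
    simp [ep, de, hD, pbd_one]
  · rw [Ga_ft s h, hi, hg w h, pb_inv h]
    simp [ep, de, hD, neg_div]

theorem met {g : Bool → Fld} (hc : ∀ b j k, ContDiff ℝ ∞ fun w => g b w j k)
    (hi : ∀ s w, g false (w + tr s) = g false w)
    (hg : ∀ w : C2, w 1 ≠ 0 → g true w = Abs.pbF inv2 (g false) w) (a b : Bool) (s : ℂ) (w : C2)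
    (h : de a b s w ≠ 0) : g b w = Abs.pbF (Ga a b s) (g a) w := by
  rw [pb_Ga h]
  cases a
  · exact met_f hi hg b s w h
  have h0 : ∀ b, Continuous (g b) := fun b => continuous_matrix fun j k => (hc b j k).continuous
  have hd := (an_nd true b s w).2.continuousAt
  have h3 : ContinuousAt (fun y => g true (Ga true b s y)) w :=
    (h0 true).continuousAt.comp (an_Ga _ _ _ _ h).continuousAt
  have h9 : ContinuousAt (fun y => ep true b / de true b s y ^ 2) w :=
    continuousAt_const.div (hd.pow 2) (pow_ne_zero 2 h)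
  refine dens (h0 b).continuousAt (cont_pbd h9 h3) ?_
  filter_upwards [hd.eventually_ne h] with y h1 h2
  have h4 := hD_ne b h2
  have h5 : Ga true b s y 1 ≠ 0 := div_ne_zero h4 h1
  rw [hg _ h5, pb_inv h5, inv_Ga, pbd_mul, met_f hi hg b s y h4]
  congr 1
  have h6 : Ga true b s y 1 = hD b y / de true b s y := rfl
  have h7 : de false b s y = hD b y := rfl
  have h8 : ep false b = -ep true b := by cases b <;> simp [ep]
  rw [h6, h7, h8]
  field_simp

theorem sm_hess {f : Fn} (hf : SmC f) (j k : Fin 2) : ContDiff ℝ ∞ fun w => hess f w j k :=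
  contDiff_iff_contDiffAt.2 fun _ =>
    (Abs.Tens.sm_d (Abs.Tens.sm_d (Abs.Tens.sm_c hf.contDiffAt) k).2 j).1

theorem hess_inv {c e : ℝ} {f : Bool → Fn} (hf : SPt c e f) (s : ℂ) (w : C2) :
    hess (f false) (w + tr s) = hess (f false) w := by
  have h0 : de false false s w ≠ 0 := one_ne_zero
  have h1 := Abs.Tens.hess_comp (an_Ga _ _ _ _ h0) (hf.sm false).contDiffAt
  rw [pb_Ga h0, Ga_ff] at h1
  have h2 : ep false false / de false false s w ^ 2 = 1 := by simp [ep, de, hD]
  rw [h2, pbd_one] at h1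
  rw [← h1]
  refine Abs.Tens.hess_pluri (H := fun y => c * (y 0 * conj s + s * conj s / 2))
    (hf.sm false).contDiffAt (analyticAt_const.mul
      (((an_co 0 w).mul analyticAt_const).add analyticAt_const)) (Eventually.of_forall fun y => ?_)
  have h3 : f false (y + tr s) = f false y + c * (‖y 0 + s‖ ^ 2 - ‖y 0‖ ^ 2) := by
    linarith [hf.inv s y]
  rw [Ga_ff, h3]
  push_cast
  rw [← Complex.mul_conj', ← Complex.mul_conj']
  simp only [map_mul, map_add, map_div₀, Complex.conj_conj, Complex.conj_ofReal, map_ofNat]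
  ring

theorem hess_glue {c e : ℝ} {f : Bool → Fn} (hf : SPt c e f) (w : C2) (h : w 1 ≠ 0) :
    hess (f true) w = Abs.pbF inv2 (hess (f false)) w := by
  rw [← Abs.Tens.hess_comp (an_inv h) (hf.sm false).contDiffAt]
  have hsl : w 1 / w 1 ∈ Complex.slitPlane := by
    rw [div_self h]; exact Complex.one_mem_slitPlane
  refine Abs.Tens.hess_pluri (H := fun y => e * (Complex.log (y 1 / w 1) + Real.log ‖w 1‖))
    ((hf.sm false).contDiffAt.comp w (((an_inv h).contDiffAt (n := ∞)).restrict_scalars ℝ))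
    (analyticAt_const.mul
      ((((an_co 1 w).div analyticAt_const h).clog hsl).add analyticAt_const)) ?_
  filter_upwards [(an_co 1 w).continuousAt.eventually_ne h] with y h1
  rw [hf.glue y h1, Complex.add_conj, Complex.re_ofReal_mul, Complex.add_re, Complex.log_re,
    Complex.ofReal_re, norm_div, Real.log_div (norm_ne_zero_iff.2 h1) (norm_ne_zero_iff.2 h),
    Real.log_pow]
  push_cast
  ring

end S0P

open S0P

theorem ga_ok : StGa where
  an := an_Ga
  det a b s w h := by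
    rw [show III.jac (Ga a b s) w = _ from jj_Ga h]
    simpa [dg, Matrix.det_fin_two, ep_ne] using h
  smG a b := by
    refine contDiffOn_pi.2 fun i => ?_
    fin_cases i
    · exact (((contDiff_apply ℝ ℂ 0).comp contDiff_snd).add contDiff_fst).contDiffOn
    · exact ((sm_nd a b).1.contDiffOn.mul ((sm_nd a b).2.contDiffOn.inv fun _ hq => hq)).congr
        fun q _ => div_eq_mul_inv (nu a b q.1 q.2) (de a b q.1 q.2)
  smJ a b i j := by
    refine ContDiffOn.congr (f := fun q : ℂ × C2 => dg (ep a b / de a b q.1 q.2 ^ 2) i j) ?_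
      fun q hq => congrFun (congrFun (jj_Ga hq) i) j
    fin_cases i <;> fin_cases j
    · exact contDiffOn_const
    · exact contDiffOn_const
    · exact contDiffOn_const
    · exact ((contDiffOn_const (c := ep a b)).mul (((sm_nd a b).2.contDiffOn.pow 2).inv
        fun _ hq => pow_ne_zero 2 hq)).congr
        fun q _ => div_eq_mul_inv (ep a b) (de a b q.1 q.2 ^ 2)
  far a b s w R h := by
    have h1 : ContinuousAt (fun q : ℂ × C2 => R * ‖de a b q.1 q.2‖) (s, w) :=
      (continuous_const.mul (sm_nd a b).2.continuous.norm).continuousAt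
    have h2 : ContinuousAt (fun q : ℂ × C2 => ‖nu a b q.1 q.2‖) (s, w) :=
      (sm_nd a b).1.continuous.norm.continuousAt
    have h3 : R * ‖de a b s w‖ < ‖nu a b s w‖ := by
      rw [h, norm_zero, mul_zero]
      exact norm_pos_iff.2 (nd_ne a b s w h)
    filter_upwards [h1.eventually_lt h2 h3] with q h4 h5
    refine lt_of_lt_of_le ?_ (norm_le_pi_norm (Ga a b q.1 q.2) 1)
    rw [show Ga a b q.1 q.2 1 = nu a b q.1 q.2 / de a b q.1 q.2 from rfl, norm_div,
      lt_div_iff₀ (norm_pos_iff.2 h5)]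
    exact h4
  base b w := by
    have key : ∀ a, ‖nu a b (-w 0) w‖ ≤ ‖de a b (-w 0) w‖ → ∃ a, de a b (-w 0) w ≠ 0 ∧
        ‖nu a b (-w 0) w‖ ≤ ‖de a b (-w 0) w‖ ∧
        ∃ η : ℂ, ‖η‖ ≤ 1 ∧ Ga a b (-w 0) w = ![0, η] := fun a h => by
      refine ⟨a, fun h0 => nd_ne a b _ w h0 ?_, h, nu a b (-w 0) w / de a b (-w 0) w, ?_, ?_⟩
      · rw [h0, norm_zero] at h
        exact norm_le_zero_iff.1 h
      · rw [norm_div]
        exact div_le_one_of_le₀ h (norm_nonneg _)
      · rw [Ga, add_neg_cancel]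
    rcases le_total ‖nu false b (-w 0) w‖ ‖de false b (-w 0) w‖ with h | h
    · exact key false h
    · exact key true h
  gl u hu := gl hu
  gl' u hs h := by
    refine ⟨hs, fun s w => ?_, fun w hw => ?_⟩
    · rw [← Ga_ff]
      exact h false s w one_ne_zero
    · rw [← h true 0 w hw, Ga_ft 0 hw, tr_zero, add_zero]
  comp a b s s' w h := by
    have h0 : hD b w ≠ 0 := h
    have h1 : Ga false b s' w 1 + conj s * 1 = (hN b w + conj (s + s') * hD b w) / hD b w := by
      rw [show Ga false b s' w 1 = (hN b w + conj s' * hD b w) / hD b w from rfl, map_add]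
      field_simp
      ring
    have h2 : Ga false b s' w 0 + s = w 0 + (s + s') := by
      rw [show Ga false b s' w 0 = w 0 + s' from rfl]
      ring
    cases a
    · refine ⟨one_mul _, fun _ => ?_⟩
      change (![Ga false b s' w 0 + s, (Ga false b s' w 1 + conj s * 1) / 1] : C2) = _
      rw [h1, h2, div_one]
      rfl
    · refine ⟨?_, fun _ => ?_⟩
      · change (Ga false b s' w 1 + conj s * 1) * hD b w = _
        rw [h1, div_mul_cancel₀ _ h0]
        rfl
      · change (![Ga false b s' w 0 + s, 1 / (Ga false b s' w 1 + conj s * 1)] : C2) = _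
        rw [h1, h2, one_div_div]
        rfl
  met g hg := met hg.smooth hg.inv hg.glue
  pt c e f hf a b s w h := by
    have h1 : hess (f b) w = Abs.pbF (Ga a b s) (hess (f a)) w :=
      met (g := fun b => hess (f b)) (fun b => sm_hess (hf.sm b)) (hess_inv hf) (hess_glue hf)
        a b s w h
    refine ⟨h1, ?_⟩
    rw [← mx.1 (Eg (f b) w), ← mx.1 (Mx _ *ᵥ _), mx.2.2.1, ← ((real' _ (hf.sm b)).1 w).1,
      ← ((real' _ (hf.sm a)).1 _).1, h1]
    rfl
  add c e f u hf hu := by
    refine ⟨fun b => (hf.sm b).add (hu.sm b), fun s w => ?_, fun w hw => ?_⟩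
    · simp only [Pi.add_apply, hu.inv]
      linarith [hf.inv s w]
    · simp only [Pi.add_apply, hu.glue w hw, hf.glue w hw]
      ring
  sm c e f hf := by
    refine ⟨fun b => sm_hess (hf.sm b), hf.pos, fun b w j k l => ?_, hess_inv hf.toSPt,
      hess_glue hf.toSPt⟩
    exact IV.HT.dz_comm (contDiff_iff_contDiffAt.2 fun _ =>
      (Abs.Tens.sm_d (Abs.Tens.sm_c (hf.sm b).contDiffAt) k).2) j l w

end Pool.Agent.P.MP_2cea5e_gt.Se
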